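import Pool.Agent.Lib.MP_43065d_gt.BMk

/-!
# Module BMEq: equality in Brunn-Minkowski for symmetric bodies

STATEMENT.  Symmetric bodies `A`, `B` of the same volume with `vol (A + B) ≤ 8 vol A` coincide.

PROOF.  It suffices to show `hsup A u = hsup B u` for every unit vector `u` (a closed convex set is the
intersection of its supporting half spaces; `geometric_hahn_banach_point_closed`).  By a linear isometry taking `u` to the
first basis vector and the volume preserving identification with `Fin 3 → ℝ` (see module BMk) this reduces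
to `bm_eq_coord`: for symmetric compact convex `A, B ⊆ (Fin 3 → ℝ)` of the same positive volume `V` with
`vol (A + B) ≤ 8 V` one has: for every `x ∈ A` there is `y ∈ B` with `x 0 ≤ y 0`.

PROOF of `bm_eq_coord`.  (Notation of `Pool.Agent.Lib.MP_235b3f_gt.BMink`.)  Let `x, y` be the functions
of `sec_quantile` for `A`, `B` (`k = 2`), `a s = sv A (x s)`, `b s = sv B (y s)`, so `x' = V / a`, `y' = V / b` on `(0,1)`.
As in `bm_step` (with `F = G = V`):
`8 V = ∫_0^1 8 V ds ≤ ∫_0^1 (V / a + V / b) (a^(1/2) + b^(1/2))^2 ds ≤ ∫_0^1 (x' + y') vol (sec (A + B) (x + y)) ds ≤ vol (A + B) ≤ 8 V`.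
The pointwise inequality is `(1/a + 1/b) (√a + √b)^2 ≥ 8`, with equality only for `a = b`
(`1/a + 1/b ≥ 2/√(ab)`, `(√a + √b)^2 ≥ 4 √(ab)`).  So `a = b` almost everywhere on `(0,1)`, everywhere by
continuity.  Hence `x' = y'` and `x - y` is constant on `(0,1)`.
NORMALISATION: with `P_A t = ∫_{-∞}^t sv A`, `(P_A ∘ x)' = a x' = V`, so `P_A (x s) = s V + c` on `(0,1)`; since
`0 ≤ P_A ≤ V` (total volume) we get `c = 0` (let `s → 0`: `c ≥ 0`; `s → 1`: `c ≤ 0`).  By symmetry of `A`,
`sv A (-t) = sv A t`, so `P_A (0) = V/2`, and `P_A (x (1/2)) = V/2`; `sv A > 0` at `x (1/2)` and near it,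
so `P_A` is strictly increasing there and `x (1/2) = 0`
(`{t | sv A t > 0}` is an interval containing `0` and `x (1/2)` by Brunn, `brunn`).
In the same way `y (1/2) = 0`.  So `x = y` on `(0,1)`.
CONCLUSION: let `p ∈ A`, `t < p 0`.  `vol (A ∩ {q | q 0 > t}) > 0` (the convex hull of `p` and a ball in `A`),
so for `s` close to `1`, `V (1 - s) < vol (A ∩ {q | q 0 > t})`, hence `x s > t` (`P_A (x s) = s V`).  So `y s > t` and
as `sv B (y s) > 0` there is `q ∈ B` with `q 0 = y s > t`.  Let `t → p 0`, compactness of `B`.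
-/

open MeasureTheory Set Filter Topology Metric
open scoped ENNReal NNReal Pointwise

namespace Pool.Agent.Lib.MP_43065d_gt

open Pool.Agent.Lib.MP235b3f

/-- quantile function of a continuous positive density on an interval -/
private theorem bmeq_quantile {f : ℝ → ℝ} {a b : ℝ} (hab : a < b) (hc : ContinuousOn f (Ioo a b))
    (hpos : ∀ x ∈ Ioo a b, 0 < f x) (hint : IntervalIntegrable f volume a b) {F : ℝ}
    (hF : F = ∫ x in a..b, f x) (hF0 : 0 < F) :
    ∃ x : ℝ → ℝ, StrictMonoOn x (Ioo 0 1) ∧ x '' (Ioo 0 1) = Ioo a b ∧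
      ∀ s ∈ Ioo (0:ℝ) 1, HasDerivAt x (F / f (x s)) s := by
  classical
  set Φ : ℝ → ℝ := fun t => ∫ x in a..t, f x with hΦ
  have hintI : ∀ c ∈ Icc a b, ∀ d ∈ Icc a b, IntervalIntegrable f volume c d := by
    intro c hc d hd
    apply hint.mono_set
    rw [uIcc_of_le hab.le]
    exact uIcc_subset_Icc hc hd
  have hcont : ContinuousOn Φ (Icc a b) := by
    have := intervalIntegral.continuousOn_primitive_interval (a := a) (b := b) (f := f)
      (μ := volume) (by
        rw [uIcc_of_le hab.le]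
        exact (intervalIntegrable_iff_integrableOn_Icc_of_le hab.le).1 hint)
    rwa [uIcc_of_le hab.le] at this
  have hsub : ∀ c ∈ Icc a b, ∀ d ∈ Icc a b, Φ d - Φ c = ∫ x in c..d, f x := by
    intro c hc d hd
    simp only [hΦ]
    rw [intervalIntegral.integral_interval_sub_left (hintI a (left_mem_Icc.2 hab.le) d hd)
      (hintI a (left_mem_Icc.2 hab.le) c hc)]
  have hlt : ∀ c ∈ Icc a b, ∀ d ∈ Icc a b, c < d → Φ c < Φ d := by
    intro c hc d hd hcd
    have h1 := hsub c hc d hd
    have h2 : 0 < ∫ x in c..d, f x := by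
      apply intervalIntegral.intervalIntegral_pos_of_pos_on (hintI c hc d hd) _ hcd
      intro x hx
      exact hpos x ⟨lt_of_le_of_lt hc.1 hx.1, lt_of_lt_of_le hx.2 hd.2⟩
    linarith
  have hΦ0 : Φ a = 0 := by simp [hΦ]
  have hΦ1 : Φ b = F := by simp only [hΦ]; exact hF.symm
  have hex : ∀ s ∈ Ioo (0:ℝ) 1, ∃ x ∈ Ioo a b, Φ x = s * F := by
    intro s hs
    have h1 : s * F ∈ Icc (Φ a) (Φ b) := by
      rw [hΦ0, hΦ1]
      exact ⟨by have := hs.1; positivity, by nlinarith [hs.2]⟩
    obtain ⟨x, hx, hxs⟩ := intermediate_value_Icc hab.le hcont h1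
    refine ⟨x, ⟨lt_of_le_of_ne hx.1 ?_, lt_of_le_of_ne hx.2 ?_⟩, hxs⟩
    · rintro rfl
      rw [hΦ0] at hxs
      have := mul_pos hs.1 hF0
      linarith
    · rintro rfl
      rw [hΦ1] at hxs
      nlinarith [hs.2]
  choose! x hxI hxΦ using hex
  have hstrict : StrictMonoOn x (Ioo 0 1) := by
    intro s hs t ht hst
    by_contra hcon
    push Not at hcon
    rcases hcon.lt_or_eq with h | h
    · have := hlt _ (Ioo_subset_Icc_self (hxI t ht)) _ (Ioo_subset_Icc_self (hxI s hs)) h
      rw [hxΦ s hs, hxΦ t ht] at this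
      nlinarith
    · have := hxΦ s hs
      rw [← h, hxΦ t ht] at this
      nlinarith
  have himg : x '' (Ioo 0 1) = Ioo a b := by
    apply Subset.antisymm
    · rintro _ ⟨s, hs, rfl⟩
      exact hxI s hs
    · intro t ht
      have htI := Ioo_subset_Icc_self ht
      have h1 := hlt a (left_mem_Icc.2 hab.le) t htI ht.1
      have h2 := hlt t htI b (right_mem_Icc.2 hab.le) ht.2
      rw [hΦ0] at h1
      rw [hΦ1] at h2
      have hs : Φ t / F ∈ Ioo (0:ℝ) 1 := ⟨by positivity, by rw [div_lt_one hF0]; exact h2⟩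
      refine ⟨Φ t / F, hs, ?_⟩
      have h3 := hxΦ _ hs
      rw [div_mul_cancel₀ _ hF0.ne'] at h3
      rcases lt_trichotomy (x (Φ t / F)) t with h | h | h
      · exact absurd (hlt _ (Ioo_subset_Icc_self (hxI _ hs)) _ htI h) (by rw [h3]; exact lt_irrefl _)
      · exact h
      · exact absurd (hlt _ htI _ (Ioo_subset_Icc_self (hxI _ hs)) h) (by rw [h3]; exact lt_irrefl _)
  have hcontx : ∀ s ∈ Ioo (0:ℝ) 1, ContinuousAt x s := by
    intro s hs
    apply hstrict.continuousAt_of_image_mem_nhds (Ioo_mem_nhds hs.1 hs.2)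
    rw [himg]
    exact Ioo_mem_nhds (hxI s hs).1 (hxI s hs).2
  refine ⟨x, hstrict, himg, fun s hs => ?_⟩
  have hxs := hxI s hs
  have hcf : ContinuousAt f (x s) := hc.continuousAt (Ioo_mem_nhds hxs.1 hxs.2)
  have hd : HasDerivAt Φ (f (x s)) (x s) := by
    apply intervalIntegral.integral_hasDerivAt_right
      (hintI a (left_mem_Icc.2 hab.le) (x s) (Ioo_subset_Icc_self hxs)) _ hcf
    exact hc.stronglyMeasurableAtFilter isOpen_Ioo (x s) hxs
  have hd2 : HasDerivAt (fun t => Φ t / F) (f (x s) / F) (x s) := hd.div_const F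
  have hloc : ∀ᶠ t in 𝓝 s, Φ (x t) / F = t := by
    filter_upwards [Ioo_mem_nhds hs.1 hs.2] with t ht
    rw [hxΦ t ht]
    field_simp
  have := HasDerivAt.of_local_left_inverse (hcontx s hs) hd2
    (by have := hpos _ hxs; positivity) hloc
  rwa [inv_div] at this

/-- Quantile function of the section volumes of a convex body. -/
private theorem bmeq_sec {k : ℕ} (hk : 0 < k) (hBM : BM k) {A : Set (Fin (k + 1) → ℝ)}
    (hAc : Convex ℝ A) (hA : IsCompact A) (hv : 0 < volume A) :
    ∃ (a b : ℝ) (x : ℝ → ℝ), {t | (sec A t).Nonempty} = Icc a b ∧ a < b ∧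
      StrictMonoOn x (Ioo 0 1) ∧ x '' (Ioo 0 1) = Ioo a b ∧
      ContinuousOn (fun s => sv A (x s)) (Ioo 0 1) ∧
      (∀ s ∈ Ioo (0:ℝ) 1, 0 < sv A (x s)) ∧
      ∀ s ∈ Ioo (0:ℝ) 1, HasDerivAt x ((volume A).toReal / sv A (x s)) s := by
  have hk' : (0 : ℝ) < k := by exact_mod_cast hk
  set I : Set ℝ := {t | (sec A t).Nonempty} with hI
  have hImg : I = (fun x : Fin (k + 1) → ℝ => x 0) '' A := by
    ext t
    constructor
    · rintro ⟨y, hy⟩
      exact ⟨_, hy, by simp⟩
    · rintro ⟨x, hx, rfl⟩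
      exact ⟨Fin.tail x, by simpa [sec] using hx⟩
  have hIc : IsCompact I := by
    rw [hImg]
    exact hA.image (continuous_apply 0)
  have hAne : A.Nonempty := by
    rw [Set.nonempty_iff_ne_empty]
    rintro rfl
    simp at hv
  have hIne : I.Nonempty := by
    rw [hImg]
    exact hAne.image _
  have hbr := brunn hk hBM hAc hA
  have hIconv : Convex ℝ I := hbr.1
  obtain ⟨a, b, hIab⟩ : ∃ a b, I = Icc a b :=
    ⟨_, _, eq_Icc_of_connected_compact ⟨hIne, hIconv.isPreconnected⟩ hIc⟩
  have hzero : ∀ t, t ∉ Icc a b → volume (sec A t) = 0 := by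
    intro t ht
    have : sec A t = ∅ := by
      by_contra hne
      exact ht (hIab ▸ (Set.nonempty_iff_ne_empty.2 hne : t ∈ I))
    rw [this]; simp
  have hvol : volume A = ∫⁻ t, volume (sec A t) := volume_eq_lintegral_sec hA.measurableSet
  have hvolI : volume A = ∫⁻ t in Icc a b, volume (sec A t) := by
    rw [hvol, ← lintegral_indicator measurableSet_Icc]
    apply lintegral_congr
    intro t
    by_cases ht : t ∈ Icc a b
    · rw [indicator_of_mem ht]
    · rw [indicator_of_notMem ht, hzero t ht]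
  have hab : a < b := by
    by_contra hcon
    push Not at hcon
    have : volume (Icc a b) = 0 := by
      rw [Real.volume_Icc]
      simpa using hcon
    rw [hvolI, setLIntegral_measure_zero _ _ this] at hv
    exact lt_irrefl _ hv
  -- a point with positive section
  obtain ⟨t₀, ht₀, hft₀⟩ : ∃ t₀ ∈ Icc a b, 0 < sv A t₀ := by
    by_contra hcon
    push Not at hcon
    have : ∫⁻ t in Icc a b, volume (sec A t) = ∫⁻ t in Icc a b, 0 := by
      apply setLIntegral_congr_fun measurableSet_Icc
      intro t ht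
      have h1 := hcon t ht
      have h2 : sv A t = 0 := le_antisymm h1 (sv_nonneg A t)
      rcases (ENNReal.toReal_eq_zero_iff _).1 h2 with h | h
      · exact h
      · exact absurd h (isCompact_sec hA t).measure_lt_top.ne
    rw [hvolI, this] at hv
    simp at hv
  have hφ0 : 0 < sv A t₀ ^ (1 / (k : ℝ)) := by positivity
  have hφpos : ∀ t ∈ Ioo a b, 0 < sv A t ^ (1 / (k : ℝ)) := by
    intro t ht
    -- write t as a combination of an end point and t₀
    have hconc := hbr.2
    rcases le_or_gt t t₀ with h | h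
    · have hd : 0 < t₀ - a := by linarith [ht.1]
      have ha : a ∈ I := by rw [hIab]; exact left_mem_Icc.2 hab.le
      have ht₀I : t₀ ∈ I := by rw [hIab]; exact ht₀
      have h1 := hconc ha ht₀I (a := (t₀ - t) / (t₀ - a)) (b := (t - a) / (t₀ - a))
        (div_nonneg (by linarith) hd.le) (div_nonneg (by linarith [ht.1]) hd.le)
        (by rw [← add_div]; rw [div_eq_one_iff_eq hd.ne']; ring)
      have e : ((t₀ - t) / (t₀ - a)) • a + ((t - a) / (t₀ - a)) • t₀ = t := by
        simp only [smul_eq_mul]; field_simp; ring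
      rw [e] at h1
      have h2 : 0 < ((t - a) / (t₀ - a)) • (sv A t₀ ^ (1 / (k : ℝ))) := by
        rw [smul_eq_mul]
        exact mul_pos (div_pos (by linarith [ht.1]) hd) hφ0
      have h3 : 0 ≤ ((t₀ - t) / (t₀ - a)) • (sv A a ^ (1 / (k : ℝ))) := by
        rw [smul_eq_mul]
        exact mul_nonneg (div_nonneg (by linarith) hd.le) (Real.rpow_nonneg (sv_nonneg _ _) _)
      linarith
    · have hd : 0 < b - t₀ := by linarith [ht.2]
      have hb : b ∈ I := by rw [hIab]; exact right_mem_Icc.2 hab.le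
      have ht₀I : t₀ ∈ I := by rw [hIab]; exact ht₀
      have h1 := hconc ht₀I hb (a := (b - t) / (b - t₀)) (b := (t - t₀) / (b - t₀))
        (div_nonneg (by linarith [ht.2]) hd.le) (div_nonneg (by linarith) hd.le)
        (by rw [← add_div]; rw [div_eq_one_iff_eq hd.ne']; ring)
      have e : ((b - t) / (b - t₀)) • t₀ + ((t - t₀) / (b - t₀)) • b = t := by
        simp only [smul_eq_mul]; field_simp; ring
      rw [e] at h1
      have h2 : 0 < ((b - t) / (b - t₀)) • (sv A t₀ ^ (1 / (k : ℝ))) := by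
        rw [smul_eq_mul]
        exact mul_pos (div_pos (by linarith [ht.2]) hd) hφ0
      have h3 : 0 ≤ ((t - t₀) / (b - t₀)) • (sv A b ^ (1 / (k : ℝ))) := by
        rw [smul_eq_mul]
        exact mul_nonneg (div_nonneg (by linarith) hd.le) (Real.rpow_nonneg (sv_nonneg _ _) _)
      linarith
  have hpos : ∀ t ∈ Ioo a b, 0 < sv A t := by
    intro t ht
    rcases (sv_nonneg A t).lt_or_eq with h | h
    · exact h
    · exfalso
      have := hφpos t ht
      rw [← h, Real.zero_rpow (by positivity)] at this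
      exact lt_irrefl _ this
  have hcφ : ContinuousOn (fun t => sv A t ^ (1 / (k : ℝ))) (Ioo a b) := by
    have h1 : ConcaveOn ℝ (Ioo a b) (fun t => sv A t ^ (1 / (k : ℝ))) := by
      apply hbr.subset _ (convex_Ioo a b)
      intro t ht
      have h2 : t ∈ I := by rw [hIab]; exact Ioo_subset_Icc_self ht
      exact h2
    exact h1.continuousOn isOpen_Ioo
  have hcf : ContinuousOn (sv A) (Ioo a b) := by
    have h1 : ContinuousOn (fun t => (sv A t ^ (1 / (k : ℝ))) ^ k) (Ioo a b) := hcφ.pow k
    refine h1.congr (fun t _ => ?_)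
    show sv A t = (sv A t ^ (1 / (k : ℝ))) ^ k
    rw [← Real.rpow_natCast, ← Real.rpow_mul (sv_nonneg A t), one_div_mul_cancel hk'.ne',
      Real.rpow_one]
  have hIoo : (volume.restrict (Icc a b)) = volume.restrict (Ioo a b) :=
    restrict_Ioo_eq_restrict_Icc.symm
  have hlint : ∫⁻ t in Ioo a b, ENNReal.ofReal (sv A t) = volume A := by
    rw [hvolI, hIoo]
    apply lintegral_congr
    intro t
    unfold sv
    rw [ENNReal.ofReal_toReal (isCompact_sec hA t).measure_lt_top.ne]
  have haesm : AEStronglyMeasurable (sv A) (volume.restrict (Ioo a b)) :=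
    hcf.aestronglyMeasurable measurableSet_Ioo
  have hint : IntegrableOn (sv A) (Ioo a b) := by
    refine ⟨haesm, ?_⟩
    rw [hasFiniteIntegral_iff_ofReal (Eventually.of_forall (fun t => sv_nonneg A t)), hlint]
    exact hA.measure_lt_top
  have hii : IntervalIntegrable (sv A) volume a b := by
    rw [intervalIntegrable_iff_integrableOn_Ioo_of_le hab.le]
    exact hint
  have hF : (volume A).toReal = ∫ t in a..b, sv A t := by
    rw [intervalIntegral.integral_of_le hab.le, integral_Ioc_eq_integral_Ioo,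
      integral_eq_lintegral_of_nonneg_ae (Eventually.of_forall (fun t => sv_nonneg A t)) haesm,
      hlint]
  obtain ⟨x, hx1, hx2, hx3⟩ := bmeq_quantile hab hcf hpos hii hF
    (ENNReal.toReal_pos hv.ne' hA.measure_lt_top.ne)
  have hx2' : ∀ s ∈ Ioo (0:ℝ) 1, x s ∈ Ioo a b := fun s hs => by
    rw [← hx2]; exact ⟨s, hs, rfl⟩
  refine ⟨a, b, x, hIab, hab, hx1, hx2, ?_, fun s hs => hpos _ (hx2' s hs), hx3⟩
  exact hcf.comp (fun s hs => (hx3 s hs).continuousAt.continuousWithinAt) hx2'


/-- a linear chart with a given first coordinate -/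
private theorem bmeq_chart (f : E3 →L[ℝ] ℝ) {v : E3} (hv : f v ≠ 0) :
    ∃ T : E3 ≃L[ℝ] (Fin 3 → ℝ), ∀ x, T x 0 = f x := by
  have hker : Module.finrank ℝ (LinearMap.ker f.toLinearMap) = 2 := by
    have h1 := LinearMap.finrank_range_add_finrank_ker f.toLinearMap
    have h2 : LinearMap.range f.toLinearMap = ⊤ := by
      rw [LinearMap.range_eq_top]
      intro t
      refine ⟨(t / f v) • v, ?_⟩
      have h3 : f ((t / f v) • v) = t := by
        rw [map_smul, smul_eq_mul, div_mul_cancel₀ _ hv]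
      exact h3
    rw [h2, finrank_top, Module.finrank_self, finrank_euclideanSpace_fin] at h1
    omega
  obtain ⟨φ⟩ : Nonempty (LinearMap.ker f.toLinearMap ≃ₗ[ℝ] (Fin 2 → ℝ)) :=
    FiniteDimensional.nonempty_linearEquiv_of_finrank_eq (by rw [hker, Module.finrank_fin_fun])
  have hmem : ∀ x, x - (f x / f v) • v ∈ LinearMap.ker f.toLinearMap := by
    intro x
    rw [LinearMap.mem_ker]
    have h3 : f (x - (f x / f v) • v) = 0 := by
      rw [map_sub, map_smul, smul_eq_mul, div_mul_cancel₀ _ hv, sub_self]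
    exact h3
  let P : E3 →ₗ[ℝ] LinearMap.ker f.toLinearMap :=
    { toFun := fun x => ⟨x - (f x / f v) • v, hmem x⟩
      map_add' := fun x y => by
        apply Subtype.ext
        simp only [map_add, Submodule.coe_add, add_div, add_smul]
        abel
      map_smul' := fun t x => by
        apply Subtype.ext
        simp only [map_smul, smul_eq_mul, RingHom.id_apply, Submodule.coe_smul, smul_sub,
          mul_div_assoc, smul_smul] }
  let T0 : E3 →ₗ[ℝ] (Fin 3 → ℝ) :=
    { toFun := fun x => Fin.cons (f x) (φ (P x))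
      map_add' := fun x y => by
        rw [map_add, map_add, map_add]
        ext i
        refine Fin.cases ?_ (fun j => ?_) i <;> simp
      map_smul' := fun t x => by
        rw [map_smul, map_smul, map_smul]
        ext i
        refine Fin.cases ?_ (fun j => ?_) i <;> simp }
  have hinj : Function.Injective T0 := by
    rw [injective_iff_map_eq_zero]
    intro x hx
    have h1 : f x = 0 := congrFun hx 0
    have h2 : φ (P x) = 0 := by
      ext j
      have h3 := congrFun hx j.succ
      have h4 : (Fin.cons (f x) (φ (P x)) : Fin 3 → ℝ) j.succ = 0 := h3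
      rw [Fin.cons_succ] at h4
      exact h4
    have h3 : P x = 0 := (map_eq_zero_iff φ φ.injective).1 h2
    have h4 : x - (f x / f v) • v = 0 := congrArg Subtype.val h3
    rw [h1, zero_div, zero_smul, sub_zero] at h4
    exact h4
  let T1 : E3 ≃ₗ[ℝ] (Fin 3 → ℝ) := LinearEquiv.ofInjectiveOfFinrankEq T0 hinj
    (by rw [finrank_euclideanSpace_fin, Module.finrank_fin_fun])
  exact ⟨T1.toContinuousLinearEquiv, fun x => rfl⟩

/-- volumes in a linear chart -/
private theorem bmeq_scale (T : E3 ≃L[ℝ] (Fin 3 → ℝ)) :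
    ∃ c : ℝ, 0 < c ∧ ∀ S : Set (Fin 3 → ℝ), volume.real (T ⁻¹' S) = c * volume.real S := by
  have : (Measure.map T (volume : Measure E3)).IsAddHaarMeasure :=
    T.isAddHaarMeasure_map _
  have hc := Measure.isAddLeftInvariant_eq_smul
    (Measure.map T (volume : Measure E3)) (volume : Measure (Fin 3 → ℝ))
  have hc0 := Measure.addHaarScalarFactor_pos_of_isAddHaarMeasure
    (Measure.map T (volume : Measure E3)) (volume : Measure (Fin 3 → ℝ))
  generalize Measure.addHaarScalarFactor (Measure.map T (volume : Measure E3))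
    (volume : Measure (Fin 3 → ℝ)) = c at hc hc0
  refine ⟨(c : ℝ), NNReal.coe_pos.2 hc0, fun S => ?_⟩
  have h1 : Measure.map T (volume : Measure E3) S = volume (T ⁻¹' S) :=
    T.toHomeomorph.toMeasurableEquiv.map_apply S
  rw [hc, Measure.coe_nnreal_smul_apply] at h1
  rw [Measure.real, ← h1, ENNReal.toReal_mul]
  rfl

theorem bm_eq_coord {A B : Set (Fin 3 → ℝ)} (hAc : Convex ℝ A) (hBc : Convex ℝ B)
    (hA : IsCompact A) (hB : IsCompact B) (sA : ∀ x ∈ A, -x ∈ A) (sB : ∀ x ∈ B, -x ∈ B)
    (hpos : 0 < volume.real A) (hV : volume.real A = volume.real B)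
    (hle : volume.real (A + B) ≤ 8 * volume.real A) :
    ∀ x ∈ A, ∃ y ∈ B, x 0 ≤ y 0 := by
  have hBM2 : BM 2 := bm_all 1
  have hA0 : 0 < volume A := by
    rw [pos_iff_ne_zero]
    intro h
    rw [Measure.real, h, ENNReal.toReal_zero] at hpos
    exact lt_irrefl _ hpos
  have hB0 : 0 < volume B := by
    rw [pos_iff_ne_zero]
    intro h
    rw [hV, Measure.real, h, ENNReal.toReal_zero] at hpos
    exact lt_irrefl _ hpos
  obtain ⟨a1, b1, x, hI1, hab1, xm, xi, xc, xpos, xd⟩ := bmeq_sec two_pos hBM2 hAc hA hA0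
  obtain ⟨a2, b2, y, hI2, hab2, ym, yi, yc, ypos, yd⟩ := bmeq_sec two_pos hBM2 hBc hB hB0
  set V := (volume A).toReal with hVd
  have hVB : (volume B).toReal = V := hV.symm
  rw [hVB] at yd
  have hV0 : 0 < V := hpos
  have hAB := hA.add hB
  have h1 := lintegral_pair measurableSet_Ioo xm ym xd yd (fun z => volume (sec (A + B) z))
  rw [← volume_eq_lintegral_sec hAB.measurableSet] at h1
  set G : ℝ → ℝ := fun s => (V / sv A (x s) + V / sv B (y s)) *
    (√(sv A (x s)) + √(sv B (y s))) ^ 2 with hG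
  have hGid : ∀ s ∈ Ioo (0:ℝ) 1, G s - 8 * V = V * ((√(sv A (x s)) - √(sv B (y s))) ^ 2 *
      (sv A (x s) + sv B (y s) + 4 * (√(sv A (x s)) * √(sv B (y s)))) /
      (sv A (x s) * sv B (y s))) := by
    intro s hs
    have hp := Real.sqrt_pos.2 (xpos s hs)
    have hq := Real.sqrt_pos.2 (ypos s hs)
    have e1 := Real.sq_sqrt (xpos s hs).le
    have e2 := Real.sq_sqrt (ypos s hs).le
    rw [hG]
    simp only
    set p := √(sv A (x s)) with hpd
    set q := √(sv B (y s)) with hqd
    rw [← e1, ← e2]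
    field_simp
    ring
  have hG8 : ∀ s ∈ Ioo (0:ℝ) 1, 8 * V ≤ G s := by
    intro s hs
    have h3 := hGid s hs
    have hp := xpos s hs
    have hq := ypos s hs
    have h4 : 0 ≤ V * ((√(sv A (x s)) - √(sv B (y s))) ^ 2 *
      (sv A (x s) + sv B (y s) + 4 * (√(sv A (x s)) * √(sv B (y s)))) /
      (sv A (x s) * sv B (y s))) := by positivity
    linarith
  have hGe : ∀ s ∈ Ioo (0:ℝ) 1, G s = 8 * V → sv A (x s) = sv B (y s) := by
    intro s hs h
    have h3 := hGid s hs
    rw [h, sub_self] at h3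
    have hp := xpos s hs
    have hq := ypos s hs
    have hw : 0 < sv A (x s) + sv B (y s) + 4 * (√(sv A (x s)) * √(sv B (y s))) := by positivity
    have h4 : (√(sv A (x s)) - √(sv B (y s))) ^ 2 = 0 := by
      by_contra hne
      have h5 : 0 < (√(sv A (x s)) - √(sv B (y s))) ^ 2 :=
        lt_of_le_of_ne (sq_nonneg _) (Ne.symm hne)
      have h6 : 0 < V * ((√(sv A (x s)) - √(sv B (y s))) ^ 2 *
        (sv A (x s) + sv B (y s) + 4 * (√(sv A (x s)) * √(sv B (y s)))) /
        (sv A (x s) * sv B (y s))) := by positivity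
      linarith
    have h5 : √(sv A (x s)) = √(sv B (y s)) := by
      have := pow_eq_zero_iff (two_ne_zero) |>.1 h4
      linarith
    exact (Real.sqrt_inj hp.le hq.le).1 h5
  have hne : ∀ {S : Set (Fin 3 → ℝ)} {t : ℝ}, 0 < sv S t → (sec S t).Nonempty := by
    intro S t h
    rw [Set.nonempty_iff_ne_empty]
    intro he
    unfold sv at h
    rw [he] at h
    simp at h
  have h2 : ∫⁻ s in Ioo (0:ℝ) 1, ENNReal.ofReal (G s) ≤ ENNReal.ofReal (8 * V) := by
    have h3 : volume (A + B) ≤ ENNReal.ofReal (8 * V) := by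
      rw [← ENNReal.ofReal_toReal hAB.measure_lt_top.ne]
      exact ENNReal.ofReal_le_ofReal hle
    refine le_trans (setLIntegral_mono' measurableSet_Ioo fun s hs => ?_) (h1.trans h3)
    have hfx := xpos s hs
    have hgy := ypos s hs
    have h4 := hBM2 _ _ (convex_sec hAc (x s)) (convex_sec hBc (y s)) (isCompact_sec hA (x s))
      (isCompact_sec hB (y s)) (hne hfx) (hne hgy)
    have hcomp := (isCompact_sec hA (x s)).add (isCompact_sec hB (y s))
    rw [Nat.cast_ofNat, ← Real.sqrt_eq_rpow, ← Real.sqrt_eq_rpow, ← Real.sqrt_eq_rpow] at h4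
    have h5 : (√(sv A (x s)) + √(sv B (y s))) ^ 2 ≤
        (volume (sec A (x s) + sec B (y s))).toReal := by
      have h6 := pow_le_pow_left₀ (add_nonneg (Real.sqrt_nonneg _) (Real.sqrt_nonneg _)) h4 2
      rwa [Real.sq_sqrt ENNReal.toReal_nonneg] at h6
    rw [abs_of_pos (by positivity)]
    calc ENNReal.ofReal (G s)
        ≤ ENNReal.ofReal ((V / sv A (x s) + V / sv B (y s)) *
            (volume (sec A (x s) + sec B (y s))).toReal) :=
          ENNReal.ofReal_le_ofReal (mul_le_mul_of_nonneg_left h5 (by positivity))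
      _ = ENNReal.ofReal (V / sv A (x s) + V / sv B (y s)) *
            volume (sec A (x s) + sec B (y s)) := by
          rw [ENNReal.ofReal_mul (by positivity), ENNReal.ofReal_toReal hcomp.measure_lt_top.ne]
      _ ≤ _ := by
          gcongr
          exact sec_add A B _ _
  have hGc : ContinuousOn G (Ioo 0 1) := by
    refine ContinuousOn.mul (ContinuousOn.add ?_ ?_) ((ContinuousOn.add ?_ ?_).pow 2)
    · exact continuousOn_const.div xc fun s hs => (xpos s hs).ne'
    · exact continuousOn_const.div yc fun s hs => (ypos s hs).ne'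
    · exact xc.sqrt
    · exact yc.sqrt
  have hGae : ∀ᵐ s ∂(volume.restrict (Ioo (0:ℝ) 1)), G s = 8 * V := by
    have h3 : ∫⁻ s in Ioo (0:ℝ) 1, ENNReal.ofReal (G s - 8 * V) = 0 := by
      have h4 : ∫⁻ s in Ioo (0:ℝ) 1, ENNReal.ofReal (G s) =
          ∫⁻ s in Ioo (0:ℝ) 1, (ENNReal.ofReal (8 * V) + ENNReal.ofReal (G s - 8 * V)) := by
        refine setLIntegral_congr_fun measurableSet_Ioo fun s hs => ?_
        rw [← ENNReal.ofReal_add (by positivity) (by linarith [hG8 s hs])]
        congr 1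
        ring
      rw [h4, lintegral_add_left measurable_const, setLIntegral_const, Real.volume_Ioo, sub_zero,
        ENNReal.ofReal_one, mul_one] at h2
      have h5 : ENNReal.ofReal (8 * V) + ∫⁻ s in Ioo (0:ℝ) 1, ENNReal.ofReal (G s - 8 * V) ≤
          ENNReal.ofReal (8 * V) + 0 := by rw [add_zero]; exact h2
      exact le_antisymm ((ENNReal.add_le_add_iff_left ENNReal.ofReal_ne_top).1 h5) bot_le
    have hm : AEMeasurable (fun s => ENNReal.ofReal (G s - 8 * V))
        (volume.restrict (Ioo (0:ℝ) 1)) :=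
      ((hGc.aemeasurable measurableSet_Ioo).sub_const _).ennreal_ofReal
    rw [lintegral_eq_zero_iff' hm] at h3
    filter_upwards [h3, ae_restrict_mem measurableSet_Ioo] with s h4 hs
    have h5 : G s - 8 * V ≤ 0 := ENNReal.ofReal_eq_zero.1 h4
    linarith [hG8 s hs]
  have hGeq : EqOn G (fun _ => 8 * V) (Ioo 0 1) :=
    Measure.eqOn_open_of_ae_eq (μ := volume) hGae isOpen_Ioo hGc continuousOn_const
  have hsv : ∀ s ∈ Ioo (0:ℝ) 1, sv A (x s) = sv B (y s) := fun s hs => hGe s hs (hGeq hs)
  -- the difference is constant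
  have hconst : ∀ s ∈ Ioo (0:ℝ) 1, x s - y s = x (1 / 2) - y (1 / 2) := by
    intro s hs
    have hd : ∀ s ∈ Ioo (0:ℝ) 1, HasDerivAt (fun s => x s - y s) 0 s := by
      intro s hs
      have h3 := (xd s hs).sub (yd s hs)
      rw [hsv s hs, sub_self] at h3
      exact h3
    exact isOpen_Ioo.is_const_of_deriv_eq_zero (convex_Ioo 0 1).isPreconnected
      (fun s hs => (hd s hs).differentiableAt.differentiableWithinAt)
      (fun s hs => (hd s hs).deriv) hs ⟨by norm_num, by norm_num⟩
  set κ := x (1 / 2) - y (1 / 2) with hκ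
  have himg : Ioo a1 b1 = Ioo (a2 + κ) (b2 + κ) := by
    rw [← xi]
    ext t
    constructor
    · rintro ⟨s, hs, rfl⟩
      have h3 : y s ∈ Ioo a2 b2 := by rw [← yi]; exact ⟨s, hs, rfl⟩
      have h4 := hconst s hs
      exact ⟨by linarith [h3.1], by linarith [h3.2]⟩
    · intro ht
      have h3 : t - κ ∈ Ioo a2 b2 := ⟨by linarith [ht.1], by linarith [ht.2]⟩
      rw [← yi] at h3
      obtain ⟨s, hs, h4⟩ := h3
      exact ⟨s, hs, by linarith [hconst s hs]⟩
  have ha : a1 = a2 + κ := by
    rw [← csInf_Ioo hab1, himg, csInf_Ioo (by linarith)]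
  have hb : b1 = b2 + κ := by
    rw [← csSup_Ioo hab1, himg, csSup_Ioo (by linarith)]
  have hsymm : ∀ {S : Set (Fin 3 → ℝ)} {a b : ℝ}, a < b → (∀ x ∈ S, -x ∈ S) →
      {t | (sec S t).Nonempty} = Icc a b → a = -b := by
    intro S a b hab hS hI
    have h3 : ∀ t ∈ Icc a b, -t ∈ Icc a b := by
      intro t ht
      rw [← hI] at ht ⊢
      obtain ⟨q, hq⟩ := ht
      refine ⟨-q, ?_⟩
      have h4 := hS _ hq
      have e : -(Fin.cons t q : Fin 3 → ℝ) = Fin.cons (-t) (-q) := by
        ext i
        refine Fin.cases ?_ (fun j => ?_) i <;> simp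
      rw [e] at h4
      exact h4
    have h4 := h3 a (left_mem_Icc.2 hab.le)
    have h5 := h3 b (right_mem_Icc.2 hab.le)
    linarith [h4.2, h5.1]
  have hs1 := hsymm hab1 sA hI1
  have hs2 := hsymm hab2 sB hI2
  have hbb : b1 = b2 := by linarith
  intro p hp
  have h3 : p 0 ∈ Icc a1 b1 := by
    rw [← hI1]
    refine ⟨Fin.tail p, ?_⟩
    show (Fin.cons (p 0) (Fin.tail p) : Fin 3 → ℝ) ∈ A
    rw [Fin.cons_self_tail]
    exact hp
  have h4 : b2 ∈ {t | (sec B t).Nonempty} := by
    rw [hI2]
    exact right_mem_Icc.2 hab2.le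
  obtain ⟨q, hq⟩ := h4
  refine ⟨Fin.cons b2 q, hq, ?_⟩
  rw [Fin.cons_zero, ← hbb]
  exact h3.2

theorem bm_eq_symm {A B : Set E3} (hA : IsBody A) (hB : IsBody B) (sA : ∀ x ∈ A, -x ∈ A)
    (sB : ∀ x ∈ B, -x ∈ B) (hV : volume.real A = volume.real B)
    (hle : volume.real (A + B) ≤ 8 * volume.real A) : A = B := by
  have key : ∀ {A B : Set E3}, IsBody A → IsBody B → (∀ x ∈ A, -x ∈ A) → (∀ x ∈ B, -x ∈ B) →
      volume.real A = volume.real B → volume.real (A + B) ≤ 8 * volume.real A → A ⊆ B := by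
    intro A B hA hB sA sB hV hle p hp
    by_contra hpB
    obtain ⟨f, w, hf1, hf2⟩ := geometric_hahn_banach_closed_point hB.convex
      hB.isCompact.isClosed hpB
    have hBne : B.Nonempty := hB.interior_nonempty.mono interior_subset
    obtain ⟨b0, hb0⟩ := hBne
    have hfpb : f p ≠ f b0 := by
      have := hf1 b0 hb0
      linarith
    have hfv : f (p - b0) ≠ 0 := by
      rw [map_sub]
      exact sub_ne_zero.2 hfpb
    obtain ⟨T, hT⟩ := bmeq_chart f hfv
    obtain ⟨c, hc0, hc⟩ := bmeq_scale T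
    have hTA : ∀ S : Set E3, volume.real S = c * volume.real (T '' S) := by
      intro S
      have := hc (T '' S)
      rwa [T.injective.preimage_image] at this
    have hApos : 0 < volume.real A := by
      refine ENNReal.toReal_pos ?_ hA.isCompact.measure_lt_top.ne
      exact ((isOpen_interior.measure_pos volume hA.interior_nonempty).trans_le
        (measure_mono interior_subset)).ne'
    have hTc : Continuous T := T.continuous
    have hconv : ∀ S : Set E3, Convex ℝ S → Convex ℝ (T '' S) := fun S hS =>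
      hS.is_linear_image T.toLinearEquiv.toLinearMap.isLinear
    have hsum : T '' (A + B) = T '' A + T '' B := Set.image_add T
    obtain ⟨q, hq, hq0⟩ := bm_eq_coord (hconv A hA.convex) (hconv B hB.convex)
      (hA.isCompact.image hTc) (hB.isCompact.image hTc)
      (by
        rintro _ ⟨x, hx, rfl⟩
        exact ⟨-x, sA x hx, map_neg T x⟩)
      (by
        rintro _ ⟨x, hx, rfl⟩
        exact ⟨-x, sB x hx, map_neg T x⟩)
      (by
        have h3 := hTA A
        by_contra hcon
        have h4 : volume.real (T '' A) = 0 := le_antisymm (not_lt.1 hcon) measureReal_nonneg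
        rw [h4, mul_zero] at h3
        linarith)
      (by
        have h3 := hTA A
        have h4 := hTA B
        rw [hV, h4] at h3
        exact (mul_left_cancel₀ hc0.ne' h3).symm)
      (by
        rw [← hsum]
        have h3 := hTA A
        have h4 := hTA (A + B)
        rw [h3, h4] at hle
        have h5 : c * volume.real (T '' (A + B)) ≤ c * (8 * volume.real (T '' A)) := by
          linarith
        exact le_of_mul_le_mul_left h5 hc0) (T p) ⟨p, hp, rfl⟩
    obtain ⟨b, hb, rfl⟩ := hq
    rw [hT, hT] at hq0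
    have := hf1 b hb
    linarith
  refine Subset.antisymm (key hA hB sA sB hV hle) (key hB hA sB sA hV.symm ?_)
  rw [add_comm, ← hV]
  exact hle

end Pool.Agent.Lib.MP_43065d_gt
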