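import Pool.Agent.Lib.MP_43065d_gt.Defs
import Pool.Agent.Lib.MP_235b3f_gt.BMink

/-!
# Module BMk: Brunn-Minkowski in Euclidean space

Transfer of `Pool.Agent.Lib.MP235b3f.bm_all` (compact convex sets of `Fin k → ℝ`) to
`EuclideanSpace ℝ (Fin k)`: the measurable equivalence
`MeasurableEquiv.toLp 2 (Fin k → ℝ)` (`EuclideanSpace.volume_preserving_symm_measurableEquiv_toLp` /
`PiLp.volume_preserving_toLp`) is linear, a homeomorphism and volume preserving;
images of compact convex sets are compact convex and the image of `A + B` is the sum of the images.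


`bm2`, `bm3` are stated in the form used later: if `C` contains `A + B` (`C` measurable with finite
volume) then `(vol A)^(1/3) + (vol B)^(1/3) ≤ (vol C)^(1/3)`.
-/

open MeasureTheory Set Filter Topology Metric
open scoped ENNReal NNReal Pointwise

namespace Pool.Agent.Lib.MP_43065d_gt

private theorem bmk_vol (n : ℕ) (A : Set (EuclideanSpace ℝ (Fin n))) :
    volume (EuclideanSpace.equiv (Fin n) ℝ '' A) = volume A := by
  have h := (EuclideanSpace.volume_preserving_symm_measurableEquiv_toLp (Fin n)).symm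
  have h2 : (EuclideanSpace.equiv (Fin n) ℝ '' A) =
      (MeasurableEquiv.toLp 2 (Fin n → ℝ)) ⁻¹' A := by
    ext x
    constructor
    · rintro ⟨y, hy, rfl⟩
      exact hy
    · intro hx
      exact ⟨WithLp.toLp 2 x, hx, rfl⟩
  rw [h2]
  exact h.measure_preimage_equiv A

theorem bm_euclid (k : ℕ) {A B : Set (EuclideanSpace ℝ (Fin (k + 1)))} (hA : Convex ℝ A)
    (hB : Convex ℝ B) (hAc : IsCompact A) (hBc : IsCompact B) (hA0 : A.Nonempty)
    (hB0 : B.Nonempty) :
    volume.real A ^ (1 / ((k : ℝ) + 1)) + volume.real B ^ (1 / ((k : ℝ) + 1)) ≤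
      volume.real (A + B) ^ (1 / ((k : ℝ) + 1)) := by
  set T := EuclideanSpace.equiv (Fin (k + 1)) ℝ with hT
  have h := Pool.Agent.Lib.MP235b3f.bm_all k (T '' A) (T '' B)
    (hA.linear_image T.toLinearEquiv.toLinearMap) (hB.linear_image T.toLinearEquiv.toLinearMap)
    (hAc.image T.continuous) (hBc.image T.continuous) (hA0.image _) (hB0.image _)
  have hs : T '' A + T '' B = T '' (A + B) := by
    rw [Set.image_add]
  rw [hs, hT, bmk_vol, bmk_vol, bmk_vol] at h
  have hc : ((k + 1 : ℕ) : ℝ) = (k : ℝ) + 1 := by push_cast; ring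
  rw [hc] at h
  exact h

theorem bm3 {A B : Set E3} (hA : Convex ℝ A) (hB : Convex ℝ B) (hAc : IsCompact A)
    (hBc : IsCompact B) (hA0 : A.Nonempty) (hB0 : B.Nonempty) {C : Set E3} (hC : A + B ⊆ C)
    (hCf : volume C ≠ ⊤) :
    volume.real A ^ (1 / 3 : ℝ) + volume.real B ^ (1 / 3 : ℝ) ≤ volume.real C ^ (1 / 3 : ℝ) := by
  have h := bm_euclid 2 hA hB hAc hBc hA0 hB0
  have hc : (1 / (((2 : ℕ) : ℝ) + 1)) = (1 / 3 : ℝ) := by norm_num
  rw [hc] at h
  refine h.trans ?_
  exact Real.rpow_le_rpow measureReal_nonneg (measureReal_mono hC hCf) (by norm_num)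

theorem bm2 {A B : Set E2} (hA : Convex ℝ A) (hB : Convex ℝ B) (hAc : IsCompact A)
    (hBc : IsCompact B) (hA0 : A.Nonempty) (hB0 : B.Nonempty) {C : Set E2} (hC : A + B ⊆ C)
    (hCf : volume C ≠ ⊤) :
    volume.real A ^ (1 / 2 : ℝ) + volume.real B ^ (1 / 2 : ℝ) ≤ volume.real C ^ (1 / 2 : ℝ) := by
  have h := bm_euclid 1 hA hB hAc hBc hA0 hB0
  have hc : (1 / (((1 : ℕ) : ℝ) + 1)) = (1 / 2 : ℝ) := by norm_num
  rw [hc] at h
  refine h.trans ?_
  exact Real.rpow_le_rpow measureReal_nonneg (measureReal_mono hC hCf) (by norm_num)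

end Pool.Agent.Lib.MP_43065d_gt
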