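import Pool.Agent.Lib.MP_43065d_gt.Defs

/-!
# Module GaugeGrad: gradient of the gauge of a convex body and outer normals

`N` is a convex body with `0` in its interior, `g = gauge N`.

PROOFS.
`gg_lip`: `closedBall 0 r ⊆ N` for some `r > 0`; `Convex.lipschitzWith_gauge`.
`gg_ae`: Rademacher, `LipschitzWith.ae_differentiableAt`.
`gg_smul`: `g (t • x) = t * g x` (`gauge_smul_of_nonneg`).  So `g = t • g ∘ (t⁻¹ • ·)` and the chain
rule; if `g` is not differentiable at `x` it is not differentiable at `t • x` (symmetric statement)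
and both gradients are `0` (`fderiv_zero_of_not_differentiableAt`).  `gradient f x = (toDual ..).symm (fderiv ..)`.
`gg_inner_le`: convexity and homogeneity: for `s > 0`,
`(g (x + s • y) - g x) / s ≤ g y` by `gauge_add_le`, let `s → 0+`.
`gg_euler`: `g ((1 + s) • x) = (1 + s) g x`, derivative at `s = 0`.
`gg_ne_zero`: `⟪grad, x⟫ = g x > 0` for `x ≠ 0` (`gauge_pos`, bounded set).
`gg_normal_iff`: for `x ∈ frontier N` we have `g x = 1` (`gauge_eq_one_iff_mem_frontier`).  Write
`v = gradient g x`.
(if) for `y ∈ N`, `⟪v, y⟫ ≤ g y ≤ 1 = ⟪v, x⟫`, and dividing by `‖v‖ > 0` gives normality.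
(only if) `u` unit normal at `x`.  `c = ⟪u, x⟫ > 0` as `N` contains a small multiple of `u`.  For all `y`:
`⟪u, y⟫ ≤ c * g y` (`y ∈ g y • N` as `N` is closed; `Convex.setOfPred_gauge_le`..., or: for `y ≠ 0`,
`(g y)⁻¹ • y ∈ N`).  So the differentiable function
`y ↦ c * g y - ⟪u, y⟫` has a minimum at `y = x` (value `c - c = 0`), its gradient vanishes:
`c • v = u`, so `‖v‖ = 1 / c` and `u = ‖v‖⁻¹ • v`.
`exists_normal`: supporting hyperplane (`geometric_hahn_banach_open_point` for `interior N` and `x ∉ interior N`,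
Riesz representative `InnerProductSpace.toDual`), normalised; the inequality passes to the closure
(`hN.convex.closure_interior_eq_closure_of_nonempty_interior`).
`gg_meas`: `measurableSet_of_differentiableAt`, `measurable_fderiv`.
`frontier_scale`: `g` is continuous and homogeneous.
-/

open MeasureTheory Set Filter Topology Metric
open scoped ENNReal NNReal Pointwise

namespace Pool.Agent.Lib.MP_43065d_gt

variable {N : Set E3}

private theorem gg_nhds (h0 : (0 : E3) ∈ interior N) : N ∈ 𝓝 (0 : E3) :=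
  mem_interior_iff_mem_nhds.1 h0

private theorem gg_vonN (hN : IsBody N) : Bornology.IsVonNBounded ℝ N :=
  (NormedSpace.isVonNBounded_iff ℝ).2 hN.isCompact.isBounded

private theorem gg_inner (x y : E3) :
    inner ℝ (gradient (gauge N) x) y = fderiv ℝ (gauge N) x y := by
  unfold gradient
  exact InnerProductSpace.toDual_symm_apply

private theorem gg_hom {x : E3} {t : ℝ} (ht : 0 ≤ t) : gauge N (t • x) = t * gauge N x := by
  rw [gauge_smul_of_nonneg ht, smul_eq_mul]

theorem gg_lip (hN : IsBody N) (h0 : (0 : E3) ∈ interior N) :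
    ∃ L : ℝ≥0, LipschitzWith L (gauge N) :=
  hN.convex.lipschitz_gauge (gg_nhds h0)

theorem gg_ae (hN : IsBody N) (h0 : (0 : E3) ∈ interior N) :
    ∀ᵐ x : E3, DifferentiableAt ℝ (gauge N) x := by
  obtain ⟨L, hL⟩ := gg_lip hN h0
  exact hL.ae_differentiableAt

private theorem gg_smul_aux {x : E3} {t : ℝ} (ht : 0 < t) {D : E3 →L[ℝ] ℝ}
    (h : HasFDerivAt (gauge N) D (t • x)) : HasFDerivAt (gauge N) D x := by
  have h1 : HasFDerivAt (fun y : E3 => t • y) (t • ContinuousLinearMap.id ℝ E3) x :=
    (hasFDerivAt_id x).const_smul t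
  have h2 : HasFDerivAt (fun y : E3 => gauge N (t • y)) (D.comp (t • ContinuousLinearMap.id ℝ E3))
      x := h.comp x h1
  have h3 : HasFDerivAt (fun y : E3 => t⁻¹ * gauge N (t • y))
      (t⁻¹ • D.comp (t • ContinuousLinearMap.id ℝ E3)) x := h2.const_mul t⁻¹
  have e1 : (fun y : E3 => t⁻¹ * gauge N (t • y)) = gauge N := by
    funext y
    rw [gg_hom ht.le, ← mul_assoc, inv_mul_cancel₀ ht.ne', one_mul]
  have e2 : t⁻¹ • D.comp (t • ContinuousLinearMap.id ℝ E3) = D := by
    ext z
    simp only [smul_apply, ContinuousLinearMap.comp_apply, ContinuousLinearMap.id_apply, map_smul,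
      smul_eq_mul]
    rw [← mul_assoc, inv_mul_cancel₀ ht.ne', one_mul]
  rwa [e1, e2] at h3

theorem gg_smul {x : E3} {t : ℝ} (ht : 0 < t) :
    (DifferentiableAt ℝ (gauge N) (t • x) ↔ DifferentiableAt ℝ (gauge N) x) ∧
      gradient (gauge N) (t • x) = gradient (gauge N) x := by
  have hback : ∀ D : E3 →L[ℝ] ℝ, HasFDerivAt (gauge N) D x → HasFDerivAt (gauge N) D (t • x) := by
    intro D hD
    refine gg_smul_aux (t := t⁻¹) (inv_pos.2 ht) ?_
    rwa [smul_smul, inv_mul_cancel₀ ht.ne', one_smul]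
  have hiff : DifferentiableAt ℝ (gauge N) (t • x) ↔ DifferentiableAt ℝ (gauge N) x :=
    ⟨fun h => (gg_smul_aux ht h.hasFDerivAt).differentiableAt,
      fun h => (hback _ h.hasFDerivAt).differentiableAt⟩
  refine ⟨hiff, ?_⟩
  unfold gradient
  congr 1
  by_cases h : DifferentiableAt ℝ (gauge N) x
  · exact (hback _ h.hasFDerivAt).fderiv
  · rw [fderiv_zero_of_not_differentiableAt h,
      fderiv_zero_of_not_differentiableAt (fun h' => h (hiff.1 h'))]

private theorem gg_line {x : E3} (hd : DifferentiableAt ℝ (gauge N) x) (y : E3) :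
    HasDerivAt (fun s : ℝ => gauge N (x + s • y)) (fderiv ℝ (gauge N) x y) 0 := by
  have h1 : HasDerivAt (fun s : ℝ => x + s • y) y 0 := by
    have h2 := ((hasDerivAt_id (0 : ℝ)).smul_const y).const_add x
    rwa [one_smul] at h2
  have h3 : HasFDerivAt (gauge N) (fderiv ℝ (gauge N) x) (x + (0 : ℝ) • y) := by
    rw [zero_smul, add_zero]
    exact hd.hasFDerivAt
  exact h3.comp_hasDerivAt (0 : ℝ) h1

theorem gg_inner_le (hN : IsBody N) (h0 : (0 : E3) ∈ interior N) {x : E3}
    (hd : DifferentiableAt ℝ (gauge N) x) (y : E3) :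
    inner ℝ (gradient (gauge N) x) y ≤ gauge N y := by
  rw [gg_inner]
  have h1 := (hasDerivAt_iff_tendsto_slope.1 (gg_line hd y)).mono_left
    (nhdsWithin_mono (0 : ℝ) (fun s (hs : s ∈ Ioi (0 : ℝ)) => (ne_of_gt hs : s ≠ 0)))
  refine le_of_tendsto h1 ?_
  filter_upwards [self_mem_nhdsWithin] with s hs
  have hs' : 0 < s := hs
  rw [slope_def_field, sub_zero, zero_smul, add_zero, div_le_iff₀ hs']
  have h2 := gauge_add_le hN.convex (absorbent_nhds_zero (gg_nhds h0)) x (s • y)
  rw [gg_hom hs'.le] at h2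
  linarith

theorem gg_euler {x : E3} (hd : DifferentiableAt ℝ (gauge N) x) :
    inner ℝ (gradient (gauge N) x) x = gauge N x := by
  rw [gg_inner]
  have h1 := gg_line hd x
  have h2 : HasDerivAt (fun s : ℝ => (1 + s) * gauge N x) (gauge N x) 0 := by
    have h3 := ((hasDerivAt_id (0 : ℝ)).const_add 1).mul_const (gauge N x)
    rwa [one_mul] at h3
  have h4 : (fun s : ℝ => gauge N (x + s • x)) =ᶠ[𝓝 0] fun s : ℝ => (1 + s) * gauge N x := by
    filter_upwards [Ioi_mem_nhds (show (-1 : ℝ) < 0 by norm_num)] with s hs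
    have hs' : (-1 : ℝ) < s := hs
    rw [← gg_hom (by linarith : (0 : ℝ) ≤ 1 + s), add_smul, one_smul]
  exact h1.unique (h2.congr_of_eventuallyEq h4)

theorem frontier_scale (hN : IsBody N) (h0 : (0 : E3) ∈ interior N) {x : E3} (hx : x ≠ 0) :
    0 < gauge N x ∧ (gauge N x)⁻¹ • x ∈ frontier N ∧ (x ∈ N ↔ gauge N x ≤ 1) := by
  have hpos : 0 < gauge N x :=
    (gauge_pos (absorbent_nhds_zero (gg_nhds h0)) (gg_vonN hN)).2 hx
  refine ⟨hpos, ?_, ?_⟩
  · rw [← gauge_eq_one_iff_mem_frontier hN.convex (gg_nhds h0), gg_hom (inv_nonneg.2 hpos.le),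
      inv_mul_cancel₀ hpos.ne']
  · rw [gauge_le_one_iff_mem_closure hN.convex (gg_nhds h0), hN.isCompact.isClosed.closure_eq]

theorem gg_ne_zero (hN : IsBody N) (h0 : (0 : E3) ∈ interior N) {x : E3} (hx : x ≠ 0)
    (hd : DifferentiableAt ℝ (gauge N) x) : gradient (gauge N) x ≠ 0 := by
  intro h
  have h1 := gg_euler hd
  rw [h, inner_zero_left] at h1
  exact (frontier_scale hN h0 hx).1.ne h1

theorem gg_normal_iff (hN : IsBody N) (h0 : (0 : E3) ∈ interior N) {x : E3}
    (hx : x ∈ frontier N) (hd : DifferentiableAt ℝ (gauge N) x) {u : E3} (hu : ‖u‖ = 1) :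
    IsNormal N x u ↔ u = ‖gradient (gauge N) x‖⁻¹ • gradient (gauge N) x := by
  have hg1 : gauge N x = 1 := (gauge_eq_one_iff_mem_frontier hN.convex (gg_nhds h0)).2 hx
  have hvx := gg_euler hd
  rw [hg1] at hvx
  constructor
  · intro h
    set c : ℝ := inner ℝ u x with hc
    have hc0 : 0 ≤ c := by
      have h1 := h 0 (interior_subset h0)
      rwa [inner_zero_right] at h1
    have hle : ∀ y : E3, inner ℝ u y ≤ c * gauge N y := by
      intro y
      by_cases hy : y = 0
      · rw [hy, inner_zero_right, gauge_zero, mul_zero]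
      · obtain ⟨hp, hf, -⟩ := frontier_scale hN h0 hy
        have h1 := h _ (hN.isCompact.isClosed.frontier_subset hf)
        rw [inner_smul_right] at h1
        have h2 : inner ℝ u y = gauge N y * ((gauge N y)⁻¹ * inner ℝ u y) := by
          rw [← mul_assoc, mul_inv_cancel₀ hp.ne', one_mul]
        rw [h2, mul_comm c]
        exact mul_le_mul_of_nonneg_left h1 hp.le
    have hder : HasFDerivAt (fun y : E3 => c * gauge N y - inner ℝ u y)
        (c • fderiv ℝ (gauge N) x - innerSL ℝ u) x :=
      (hd.hasFDerivAt.const_mul c).sub (innerSL ℝ u).hasFDerivAt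
    have hmin : IsLocalMin (fun y : E3 => c * gauge N y - inner ℝ u y) x := by
      refine Eventually.of_forall fun y => ?_
      show c * gauge N x - inner ℝ u x ≤ c * gauge N y - inner ℝ u y
      rw [hg1, mul_one, ← hc, sub_self]
      exact sub_nonneg.2 (hle y)
    have h3 := hmin.hasFDerivAt_eq_zero hder
    have h4 : c • gradient (gauge N) x = u := by
      refine ext_inner_right ℝ fun z => ?_
      have h5 := DFunLike.congr_fun h3 z
      simp only [sub_apply, smul_apply, smul_eq_mul, innerSL_apply_apply, zero_apply] at h5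
      rw [inner_smul_left, gg_inner]
      simp only [conj_trivial]
      linarith
    have h6 : c * ‖gradient (gauge N) x‖ = 1 := by
      rw [← hu, ← h4, norm_smul, Real.norm_of_nonneg hc0]
    have h7 : c = ‖gradient (gauge N) x‖⁻¹ := eq_inv_of_mul_eq_one_left h6
    rw [← h7, h4]
  · intro h y hy
    have h1 := gg_inner_le hN h0 hd y
    have h2 : gauge N y ≤ 1 := gauge_le_one_of_mem hy
    rw [h, inner_smul_left, inner_smul_left, hvx]
    simp only [conj_trivial]
    exact mul_le_mul_of_nonneg_left (h1.trans h2) (inv_nonneg.2 (norm_nonneg _))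

theorem exists_normal (hN : IsBody N) {x : E3} (hx : x ∈ frontier N) :
    ∃ u : E3, ‖u‖ = 1 ∧ IsNormal N x u := by
  have hxi : x ∉ interior N := hx.2
  obtain ⟨f, hf⟩ := geometric_hahn_banach_open_point hN.convex.interior isOpen_interior hxi
  set w : E3 := (InnerProductSpace.toDual ℝ E3).symm f with hw
  have hwf : ∀ y, inner ℝ w y = f y := fun y => InnerProductSpace.toDual_symm_apply
  obtain ⟨a, ha⟩ := hN.interior_nonempty
  have hw0 : w ≠ 0 := by
    intro h
    have h1 := hf a ha
    rw [← hwf, ← hwf, h, inner_zero_left, inner_zero_left] at h1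
    exact lt_irrefl _ h1
  have hnw : 0 < ‖w‖ := norm_pos_iff.2 hw0
  refine ⟨‖w‖⁻¹ • w, ?_, ?_⟩
  · rw [norm_smul, norm_inv, norm_norm, inv_mul_cancel₀ hnw.ne']
  · intro y hy
    rw [inner_smul_left, inner_smul_left, hwf, hwf]
    simp only [conj_trivial]
    refine mul_le_mul_of_nonneg_left ?_ (inv_nonneg.2 hnw.le)
    have hsub : closure (interior N) ⊆ {z : E3 | f z ≤ f x} :=
      closure_minimal (fun z hz => (hf z hz).le) (isClosed_le f.continuous continuous_const)
    refine hsub ?_
    rw [hN.convex.closure_interior_eq_closure_of_nonempty_interior hN.interior_nonempty]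
    exact subset_closure hy

theorem gg_meas : MeasurableSet {x : E3 | DifferentiableAt ℝ (gauge N) x} ∧
    Measurable (gradient (gauge N)) := by
  refine ⟨measurableSet_of_differentiableAt ℝ (gauge N), ?_⟩
  have h1 : Measurable (fderiv ℝ (gauge N)) := measurable_fderiv ℝ (gauge N)
  have h2 : Measurable ((InnerProductSpace.toDual ℝ E3).symm) :=
    (InnerProductSpace.toDual ℝ E3).symm.continuous.measurable
  exact h2.comp h1

end Pool.Agent.Lib.MP_43065d_gt
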