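import Pool.Agent.Lib.MP_43065d_gt.Layer
import Pool.Agent.Lib.MP_43065d_gt.GaugeGrad

/-!
# Module MinkInt: Minkowski's first inequality in integral form

STATEMENT.  `(vol N)^(2/3) (vol M)^(1/3) ≤ ∫_N h_M(∇g_N)`, `g_N = gauge N`, for bodies `N` (with `0` in the
interior) and `M ∋ 0`.

PROOF.  Divide `layer_ineq` by `ε` and let `ε → 0+` (for instance `ε = 1/(n+1)`).
The integrand `D_ε(x) = (max (1 - g x) 0 - max (1 - F_ε x) 0) / ε`, `F_ε = shiftSup N M ε`,
satisfies `0 ≤ D_ε ≤ L ρ` where `L` is the Lipschitz constant of `g` and `M ⊆ closedBall 0 ρ`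
(`g x ≤ F_ε x ≤ g x + L ε ρ`), and it vanishes unless `g x < 1`; so it is dominated by the integrable
function `L ρ 1_N`.
POINTWISE LIMIT.  Let `x` be a point of differentiability of `g` (almost every `x`, `gg_ae`) with
`g x ≠ 1` (the frontier of `N` has measure zero: `Convex.addHaar_frontier`).  If `g x > 1` then
`D_ε(x) = 0`.  If `g x < 1` then for small `ε` also `F_ε x < 1` and
`D_ε(x) = (F_ε x - g x)/ε = sup_{y ∈ M} (g (x + ε • y) - g x)/ε → sup_{y ∈ M} ⟪∇g x, y⟫ = hsup M (∇g x)`
since `g (x + ε • y) - g x - ε ⟪∇g x, y⟫ = o(ε)` uniformly for `y` in the bounded set `M`.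
Dominated convergence gives `∫ D_ε → ∫_N hsup M (∇g)` (measurability of the limit is automatic), and the
left side tends to `(vol N)^(2/3) (vol M)^(1/3)`.
-/

open MeasureTheory Set Filter Topology Metric
open scoped ENNReal NNReal Pointwise

namespace Pool.Agent.Lib.MP_43065d_gt

private theorem mi_bdd {N M : Set E3} (hc : Continuous (gauge N)) (hM : IsCompact M) (ε : ℝ)
    (x : E3) : BddAbove ((fun y => gauge N (x + ε • y)) '' M) :=
  (hM.image (by fun_prop)).bddAbove

private theorem mi_lip {N M : Set E3} {L : ℝ≥0} (hL : LipschitzWith L (gauge N))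
    (hM : IsCompact M) (h0 : (0 : E3) ∈ M) (ε : ℝ) : LipschitzWith L (shiftSup N M ε) := by
  refine LipschitzWith.of_le_add_mul L fun x x' => ?_
  unfold shiftSup
  refine csSup_le ⟨_, 0, h0, rfl⟩ ?_
  rintro _ ⟨y, hy, rfl⟩
  have h1 := le_csSup (mi_bdd hL.continuous hM ε x') ⟨y, hy, rfl⟩
  have h2 := hL.dist_le_mul (x + ε • y) (x' + ε • y)
  rw [Real.dist_eq, dist_add_right] at h2
  have h3 := le_abs_self (gauge N (x + ε • y) - gauge N (x' + ε • y))
  change gauge N (x + ε • y) ≤ _
  change gauge N (x' + ε • y) ≤ _ at h1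
  linarith

private theorem mi_ge {N M : Set E3} (hc : Continuous (gauge N)) (hM : IsCompact M)
    (h0 : (0 : E3) ∈ M) (ε : ℝ) (x : E3) : gauge N x ≤ shiftSup N M ε x := by
  have h1 := le_csSup (mi_bdd hc hM ε x) ⟨0, h0, rfl⟩
  change gauge N (x + ε • 0) ≤ _ at h1
  rw [smul_zero, add_zero] at h1
  exact h1

private theorem mi_le {N M : Set E3} {L : ℝ≥0} (hL : LipschitzWith L (gauge N))
    (h0 : (0 : E3) ∈ M) {ρ : ℝ} (hρ : M ⊆ closedBall 0 ρ) {ε : ℝ} (hε : 0 < ε) (x : E3) :
    shiftSup N M ε x ≤ gauge N x + ε * (L * ρ) := by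
  unfold shiftSup
  refine csSup_le ⟨_, 0, h0, rfl⟩ ?_
  rintro _ ⟨y, hy, rfl⟩
  have h2 := hL.dist_le_mul (x + ε • y) x
  rw [Real.dist_eq, dist_self_add_left, norm_smul, Real.norm_of_nonneg hε.le] at h2
  have h3 := le_abs_self (gauge N (x + ε • y) - gauge N x)
  have h4 : ‖y‖ ≤ ρ := mem_closedBall_zero_iff.1 (hρ hy)
  have h5 : (L : ℝ) * (ε * ‖y‖) ≤ L * (ε * ρ) :=
    mul_le_mul_of_nonneg_left (mul_le_mul_of_nonneg_left h4 hε.le) L.2
  change gauge N (x + ε • y) ≤ _
  have h6 : (L : ℝ) * (ε * ρ) = ε * (L * ρ) := by ring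
  linarith

private theorem mi_hsup_bdd {M : Set E3} (hM : IsCompact M) (v : E3) :
    BddAbove ((fun y => inner ℝ v y) '' M) :=
  (hM.image (by fun_prop)).bddAbove

private theorem mi_deriv {N M : Set E3} (hc : Continuous (gauge N)) (hM : IsCompact M)
    (h0 : (0 : E3) ∈ M) {ρ : ℝ} (hρ0 : 0 < ρ) (hρ : M ⊆ closedBall 0 ρ) {x : E3}
    (hd : DifferentiableAt ℝ (gauge N) x) {η : ℝ} (hη : 0 < η) :
    ∃ δ > 0, ∀ ε, 0 < ε → ε < δ →
      |(shiftSup N M ε x - gauge N x) / ε - hsup M (gradient (gauge N) x)| ≤ η := by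
  have h1 := hasGradientAt_iff_isLittleO.1 hd.hasGradientAt
  have h2 := Metric.eventually_nhds_iff.1 (h1.def (c := η / ρ) (div_pos hη hρ0))
  obtain ⟨δ, hδ, h3⟩ := h2
  refine ⟨δ / ρ, div_pos hδ hρ0, fun ε hε hεδ => ?_⟩
  have h4 : ∀ y ∈ M, |gauge N (x + ε • y) - gauge N x -
      ε * inner ℝ (gradient (gauge N) x) y| ≤ ε * η := by
    intro y hy
    have h5 : ‖y‖ ≤ ρ := mem_closedBall_zero_iff.1 (hρ hy)
    have h6 : dist (x + ε • y) x < δ := by
      rw [dist_self_add_left, norm_smul, Real.norm_of_nonneg hε.le]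
      have h7 : ε * ‖y‖ ≤ ε * ρ := mul_le_mul_of_nonneg_left h5 hε.le
      rw [lt_div_iff₀ hρ0] at hεδ
      linarith
    have h8 := h3 h6
    rw [add_sub_cancel_left, inner_smul_right, norm_smul, Real.norm_of_nonneg hε.le,
      Real.norm_eq_abs] at h8
    refine h8.trans ?_
    have h9 : η / ρ * (ε * ‖y‖) ≤ η / ρ * (ε * ρ) :=
      mul_le_mul_of_nonneg_left (mul_le_mul_of_nonneg_left h5 hε.le) (div_pos hη hρ0).le
    have h10 : η / ρ * (ε * ρ) = ε * η := by field_simp
    linarith
  have h5 : shiftSup N M ε x - gauge N x ≤ ε * (hsup M (gradient (gauge N) x) + η) := by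
    have h6 : shiftSup N M ε x ≤ gauge N x + ε * (hsup M (gradient (gauge N) x) + η) := by
      unfold shiftSup
      refine csSup_le ⟨_, 0, h0, rfl⟩ ?_
      rintro _ ⟨y, hy, rfl⟩
      change gauge N (x + ε • y) ≤ _
      have h7 := (abs_le.1 (h4 y hy)).2
      have h8 : inner ℝ (gradient (gauge N) x) y ≤ hsup M (gradient (gauge N) x) :=
        le_csSup (mi_hsup_bdd hM _) ⟨y, hy, rfl⟩
      have h9 := mul_le_mul_of_nonneg_left h8 hε.le
      linarith
    linarith
  have h6 : ε * (hsup M (gradient (gauge N) x) - η) ≤ shiftSup N M ε x - gauge N x := by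
    have h7 : hsup M (gradient (gauge N) x) ≤ (shiftSup N M ε x - gauge N x) / ε + η := by
      unfold hsup
      refine csSup_le ⟨_, 0, h0, rfl⟩ ?_
      rintro _ ⟨y, hy, rfl⟩
      change inner ℝ (gradient (gauge N) x) y ≤ _
      have h7 := (abs_le.1 (h4 y hy)).1
      have h8 : gauge N (x + ε • y) ≤ shiftSup N M ε x :=
        le_csSup (mi_bdd hc hM ε x) ⟨y, hy, rfl⟩
      have h9 : inner ℝ (gradient (gauge N) x) y - η ≤ (shiftSup N M ε x - gauge N x) / ε := by
        rw [le_div_iff₀ hε]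
        linarith
      linarith
    have h8 := mul_le_mul_of_nonneg_left h7 hε.le
    have h9 : ε * ((shiftSup N M ε x - gauge N x) / ε + η) =
        shiftSup N M ε x - gauge N x + ε * η := by
      field_simp
    linarith
  rw [abs_le]
  constructor
  · have h7 : hsup M (gradient (gauge N) x) - η ≤ (shiftSup N M ε x - gauge N x) / ε := by
      rw [le_div_iff₀ hε]
      linarith
    linarith
  · have h7 : (shiftSup N M ε x - gauge N x) / ε ≤ hsup M (gradient (gauge N) x) + η := by
      rw [div_le_iff₀ hε]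
      linarith
    linarith

theorem mink_int {N M : Set E3} (hN : IsBody N) (h0 : (0 : E3) ∈ interior N) (hM : IsBody M)
    (h0M : (0 : E3) ∈ M) :
    volume.real N ^ (2 / 3 : ℝ) * volume.real M ^ (1 / 3 : ℝ) ≤
      ∫ x in N, hsup M (gradient (gauge N) x) := by
  obtain ⟨L, hL⟩ := gg_lip hN h0
  have hNn : N ∈ 𝓝 (0 : E3) := mem_interior_iff_mem_nhds.1 h0
  have hNc : IsClosed N := hN.isCompact.isClosed
  have hmem : ∀ x, x ∈ N ↔ gauge N x ≤ 1 := fun x => by
    rw [gauge_le_one_iff_mem_closure hN.convex hNn, hNc.closure_eq]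
  obtain ⟨ρ, hρ0, hρ⟩ : ∃ ρ : ℝ, 0 < ρ ∧ M ⊆ closedBall 0 ρ := by
    obtain ⟨ρ, hρ⟩ := hM.isCompact.isBounded.subset_closedBall (0 : E3)
    exact ⟨max ρ 1, lt_max_of_lt_right one_pos, hρ.trans (closedBall_subset_closedBall (le_max_left _ _))⟩
  set A := volume.real N ^ (2 / 3 : ℝ) * volume.real M ^ (1 / 3 : ℝ) with hA
  set B := volume.real N ^ (1 / 3 : ℝ) * volume.real M ^ (2 / 3 : ℝ) with hB
  let e : ℕ → ℝ := fun n => 1 / ((n : ℝ) + 1)
  have he : ∀ n, 0 < e n := fun n => Nat.one_div_pos_of_nat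
  have he0 : Tendsto e atTop (𝓝 0) := tendsto_one_div_add_atTop_nhds_zero_nat
  let D : ℕ → E3 → ℝ := fun n x =>
    (max (1 - gauge N x) 0 - max (1 - shiftSup N M (e n) x) 0) / e n
  have hlim : Tendsto (fun n => ∫ x, D n x) atTop
      (𝓝 (∫ x, N.indicator (fun x => hsup M (gradient (gauge N) x)) x)) := by
    refine tendsto_integral_of_dominated_convergence (N.indicator fun _ => (L : ℝ) * ρ) ?_ ?_ ?_ ?_
    · intro n
      have h1 : Continuous (shiftSup N M (e n)) :=
        (mi_lip hL hM.isCompact h0M (e n)).continuous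
      have h2 : Continuous (gauge N) := hL.continuous
      have h3 : Continuous (D n) := by
        change Continuous fun x =>
          (max (1 - gauge N x) 0 - max (1 - shiftSup N M (e n) x) 0) / e n
        fun_prop
      exact h3.aestronglyMeasurable
    · exact (integrable_indicator_iff hNc.measurableSet).2
        (integrableOn_const hN.isCompact.measure_lt_top.ne)
    · intro n
      refine Eventually.of_forall fun x => ?_
      have h1 := mi_ge hL.continuous hM.isCompact h0M (e n) x
      have h2 := mi_le hL h0M hρ (he n) x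
      have h3 : 0 ≤ (L : ℝ) * ρ := mul_nonneg L.2 hρ0.le
      by_cases hx : x ∈ N
      · rw [indicator_of_mem hx]
        have h4 : 0 ≤ max (1 - gauge N x) 0 - max (1 - shiftSup N M (e n) x) 0 :=
          sub_nonneg.2 (max_le_max (by linarith) le_rfl)
        have h5 : max (1 - gauge N x) 0 ≤
            max (1 - shiftSup N M (e n) x) 0 + e n * (L * ρ) := by
          refine max_le ?_ ?_
          · have := le_max_left (1 - shiftSup N M (e n) x) 0
            linarith
          · have := le_max_right (1 - shiftSup N M (e n) x) 0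
            have := mul_nonneg (he n).le h3
            linarith
        change ‖(max (1 - gauge N x) 0 - max (1 - shiftSup N M (e n) x) 0) / e n‖ ≤ L * ρ
        rw [Real.norm_of_nonneg (div_nonneg h4 (he n).le), div_le_iff₀ (he n)]
        linarith
      · rw [indicator_of_notMem hx]
        have h4 : 1 < gauge N x := not_le.1 fun h => hx ((hmem x).2 h)
        change ‖(max (1 - gauge N x) 0 - max (1 - shiftSup N M (e n) x) 0) / e n‖ ≤ 0
        rw [max_eq_right (by linarith), max_eq_right (by linarith)]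
        simp
    · have h1 : ∀ᵐ x : E3, x ∉ frontier N :=
        measure_eq_zero_iff_ae_notMem.1 (hN.convex.addHaar_frontier volume)
      filter_upwards [h1, gg_ae hN h0] with x hx hd
      have h3 : gauge N x ≠ 1 := fun h =>
        hx ((gauge_eq_one_iff_mem_frontier hN.convex hNn).1 h)
      rcases lt_or_gt_of_ne h3 with h4 | h4
      · rw [indicator_of_mem ((hmem x).2 h4.le)]
        refine Metric.tendsto_atTop.2 fun η hη => ?_
        obtain ⟨δ, hδ, h5⟩ := mi_deriv hL.continuous hM.isCompact h0M hρ0 hρ hd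
          (η := η / 2) (by positivity)
        have h6 : Tendsto (fun n => gauge N x + e n * (L * ρ)) atTop (𝓝 (gauge N x + 0 * (L * ρ))) :=
          (he0.mul_const _).const_add _
        rw [zero_mul, add_zero] at h6
        obtain ⟨n₀, hn₀⟩ := eventually_atTop.1
          ((he0.eventually (eventually_lt_nhds hδ)).and (h6.eventually (eventually_lt_nhds h4)))
        refine ⟨n₀, fun n hn => ?_⟩
        obtain ⟨h7, h8⟩ := hn₀ n hn
        have h9 := h5 (e n) (he n) h7
        have h10 := mi_le hL h0M hρ (he n) x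
        have h11 : D n x = (shiftSup N M (e n) x - gauge N x) / e n := by
          change (max (1 - gauge N x) 0 - max (1 - shiftSup N M (e n) x) 0) / e n = _
          rw [max_eq_left (by linarith), max_eq_left (by linarith)]
          congr 1
          ring
        rw [Real.dist_eq, h11]
        linarith
      · rw [indicator_of_notMem fun h => absurd ((hmem x).1 h) (not_le.2 h4)]
        refine tendsto_const_nhds.congr fun n => ?_
        have h5 := mi_ge hL.continuous hM.isCompact h0M (e n) x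
        change (0 : ℝ) = (max (1 - gauge N x) 0 - max (1 - shiftSup N M (e n) x) 0) / e n
        rw [max_eq_right (by linarith), max_eq_right (by linarith)]
        simp
  rw [integral_indicator hNc.measurableSet] at hlim
  have h1 : Tendsto (fun n => A - 3 / 2 * e n * B) atTop (𝓝 (A - 3 / 2 * 0 * B)) :=
    ((he0.const_mul _).mul_const _).const_sub _
  rw [mul_zero, zero_mul, sub_zero] at h1
  refine le_of_tendsto_of_tendsto' h1 hlim fun n => ?_
  have h2 := layer_ineq hN h0 hM h0M (he n)
  have h3 : ∫ x, D n x = (∫ x, (max (1 - gauge N x) 0 - max (1 - shiftSup N M (e n) x) 0)) / e n :=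
    integral_div _ _
  rw [h3, le_div_iff₀ (he n)]
  calc (A - 3 / 2 * e n * B) * e n = e n * A - 3 / 2 * e n ^ 2 * B := by ring
    _ ≤ _ := h2

end Pool.Agent.Lib.MP_43065d_gt
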