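import Pool.Agent.Lib.MP_43065d_gt.Transfer
import Pool.Agent.Lib.MP_43065d_gt.MinkInt

/-!
# Module BlLe: upper bound for the volume of the Blaschke body

PROOF of `hsup_*`: elementary (`M` compact nonempty, `hsup M` is a supremum of linear functions attained on
`M`; Lipschitz with constant a bound of `M`).
PROOF of `hsup_grad_le`: at a point of differentiability `⟪∇g x, y⟫ ≤ g y ≤ 1` for `y ∈ K`
(`gg_inner_le`), so `hsup K (∇g x) ≤ 1`; for `M ⊆ K` `hsup M ≤ hsup K`.  At the other points the gradient
is `0` and `hsup M 0 = 0`.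
PROOF of `hsup_grad_self`: for `x ≠ 0` a point of differentiability, `y = (g x)⁻¹ • x ∈ K` and
`⟪∇g x, y⟫ = 1` (`gg_euler`), so `hsup K (∇g x) = 1`; integrate (a.e. point).

PROOF of `blaschke_le`.  Let `M₀ = K ∩ refl z K`, a compact convex set symmetric about `z`.  If it has
volume `0` the claim is trivial.  Otherwise it has nonempty interior (a convex set with empty interior
has measure zero) and `z ∈ interior M₀ ⊆ interior K`.  Translate: `K' = (fun x => x - z) '' K`,
`M = (fun x => x - z) '' M₀`.  `IsBlaschke K' N` holds because `surf (K + v) E = surf K E` and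
`surf (-(K + v)) E = surf (-K) E` (translations are isometries; `surf_translate`), `0 ∈ interior K'`,
`M ⊆ K'` is a symmetric body.  Let `φ = hsup M`: continuous, `≥ 0` as `0 ∈ M`, positively homogeneous, symmetric.
`(vol N)^(2/3) (vol M)^(1/3) ≤ ∫_N hsup M (∇g_N) = ∫_{K'} hsup M (∇g_{K'}) ≤ ∫_{K'} 1 = vol K' = vol K`
by `mink_int`, `blaschke_integral`, `hsup_grad_le`.  Cube both sides.
-/

open MeasureTheory Set Filter Topology Metric
open scoped ENNReal NNReal Pointwise

namespace Pool.Agent.Lib.MP_43065d_gt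

private theorem blle_bdd {M : Set E3} (hM : IsCompact M) (u : E3) :
    BddAbove ((fun y => inner ℝ u y) '' M) :=
  (hM.image (by fun_prop : Continuous fun y : E3 => inner ℝ u y)).bddAbove

private theorem blle_le {M : Set E3} (hM : IsCompact M) (u : E3) {y : E3} (hy : y ∈ M) :
    inner ℝ u y ≤ hsup M u :=
  le_csSup (blle_bdd hM u) (mem_image_of_mem _ hy)

private theorem blle_sup {M : Set E3} (hne : M.Nonempty) {u : E3} {c : ℝ}
    (h : ∀ y ∈ M, inner ℝ u y ≤ c) : hsup M u ≤ c := by
  refine csSup_le (hne.image _) ?_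
  rintro _ ⟨y, hy, rfl⟩
  exact h y hy

theorem hsup_continuous {M : Set E3} (hM : IsCompact M) (hne : M.Nonempty) :
    Continuous (hsup M) := by
  have h : Continuous (fun u : E3 => sSup ((fun y => inner ℝ u y) '' M)) :=
    IsCompact.continuous_sSup (f := fun (u y : E3) => (inner ℝ u y : ℝ)) hM continuous_inner
  exact h

theorem hsup_smul {M : Set E3} {t : ℝ} (ht : 0 ≤ t) (u : E3) : hsup M (t • u) = t * hsup M u := by
  have h : (fun y => (inner ℝ (t • u) y : ℝ)) '' M = t • ((fun y => (inner ℝ u y : ℝ)) '' M) := by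
    ext r
    constructor
    · rintro ⟨y, hy, rfl⟩
      refine ⟨inner ℝ u y, ⟨y, hy, rfl⟩, ?_⟩
      simp only [smul_eq_mul]
      rw [real_inner_smul_left]
    · rintro ⟨_, ⟨y, hy, rfl⟩, rfl⟩
      refine ⟨y, hy, ?_⟩
      simp only [smul_eq_mul]
      rw [real_inner_smul_left]
  unfold hsup
  rw [h, Real.sSup_smul_of_nonneg ht, smul_eq_mul]

theorem hsup_neg {M : Set E3} (hs : ∀ x ∈ M, -x ∈ M) (u : E3) : hsup M (-u) = hsup M u := by
  have h : (fun y => (inner ℝ (-u) y : ℝ)) '' M = (fun y => (inner ℝ u y : ℝ)) '' M := by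
    ext r
    constructor
    · rintro ⟨y, hy, rfl⟩
      refine ⟨-y, hs y hy, ?_⟩
      simp only [inner_neg_left, inner_neg_right]
    · rintro ⟨y, hy, rfl⟩
      refine ⟨-y, hs y hy, ?_⟩
      simp only [inner_neg_left, inner_neg_right, neg_neg]
  unfold hsup
  rw [h]

theorem hsup_nonneg {M : Set E3} (hM : IsCompact M) (h0 : (0 : E3) ∈ M) (u : E3) :
    0 ≤ hsup M u := by
  have h := blle_le hM u h0
  rwa [inner_zero_right] at h

private theorem blle_grad {K : Set E3} {x : E3} (hd : ¬ DifferentiableAt ℝ (gauge K) x) :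
    gradient (gauge K) x = 0 := by
  unfold gradient
  rw [fderiv_zero_of_not_differentiableAt hd, map_zero]

theorem hsup_grad_le {K M : Set E3} (hK : IsBody K) (h0 : (0 : E3) ∈ interior K) (hM : M ⊆ K)
    (hne : M.Nonempty) (x : E3) : hsup M (gradient (gauge K) x) ≤ 1 := by
  refine blle_sup hne fun y hy => ?_
  by_cases hd : DifferentiableAt ℝ (gauge K) x
  · exact (gg_inner_le hK h0 hd y).trans (gauge_le_one_of_mem (hM hy))
  · rw [blle_grad hd, inner_zero_left]
    exact zero_le_one

theorem hsup_grad_self {K : Set E3} (hK : IsBody K) (h0 : (0 : E3) ∈ interior K) :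
    ∫ x in K, hsup K (gradient (gauge K) x) = volume.real K := by
  have hne : K.Nonempty := ⟨0, interior_subset h0⟩
  have hx0 : ∀ᵐ x : E3, x ≠ 0 := by
    have h1 : volume ({(0 : E3)} : Set E3) = 0 := measure_singleton 0
    exact compl_mem_ae_iff.2 h1
  have hae : ∀ᵐ x : E3, x ∈ K → hsup K (gradient (gauge K) x) = (1 : ℝ) := by
    filter_upwards [gg_ae hK h0, hx0] with x hd hx _
    obtain ⟨hpos, hfr, -⟩ := frontier_scale hK h0 hx
    refine le_antisymm (hsup_grad_le hK h0 Subset.rfl hne x) ?_
    have hmem : (gauge K x)⁻¹ • x ∈ K := hK.isCompact.isClosed.frontier_subset hfr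
    have h1 := blle_le hK.isCompact (gradient (gauge K) x) hmem
    rw [real_inner_smul_right, gg_euler hd, inv_mul_cancel₀ hpos.ne'] at h1
    exact h1
  rw [setIntegral_congr_ae hK.isCompact.measurableSet hae, setIntegral_const, smul_eq_mul, mul_one]

private theorem blle_nset (K E : Set E3) (v : E3) :
    nset ((fun x => x + v) '' K) E = (fun x => x + v) '' nset K E := by
  have hfr : frontier ((fun x => x + v) '' K) = (fun x => x + v) '' frontier K :=
    ((Homeomorph.addRight v).image_frontier K).symm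
  have hno : ∀ x u : E3, IsNormal ((fun x => x + v) '' K) (x + v) u ↔ IsNormal K x u := by
    intro x u
    constructor
    · intro h y hy
      have h1 := h (y + v) ⟨y, hy, rfl⟩
      rw [inner_add_right, inner_add_right] at h1
      linarith
    · rintro h _ ⟨y, hy, rfl⟩
      have h1 := h y hy
      simp only
      rw [inner_add_right, inner_add_right]
      linarith
  ext x
  constructor
  · rintro ⟨hx, u, hu, h1, h2⟩
    rw [hfr] at hx
    obtain ⟨y, hy, rfl⟩ := hx
    exact ⟨y, ⟨hy, u, hu, h1, (hno y u).1 h2⟩, rfl⟩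
  · rintro ⟨y, ⟨hy, u, hu, h1, h2⟩, rfl⟩
    refine ⟨?_, u, hu, h1, (hno y u).2 h2⟩
    rw [hfr]
    exact ⟨y, hy, rfl⟩

theorem surf_translate (K E : Set E3) (v : E3) : surf ((fun x => x + v) '' K) E = surf K E := by
  unfold surf
  rw [blle_nset]
  exact (isometry_add_right v).euclideanHausdorffMeasure_image _

private theorem blle_vol (K : Set E3) (v : E3) :
    volume.real ((fun x => x + v) '' K) = volume.real K := by
  rw [measureReal_def, measureReal_def, image_add_right, measure_preimage_add_right]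

private theorem blle_body {K : Set E3} (hK : IsBody K) (v : E3) :
    IsBody ((fun x => x + v) '' K) := by
  refine ⟨?_, hK.isCompact.image (by fun_prop), ?_⟩
  · rintro _ ⟨x, hx, rfl⟩ _ ⟨y, hy, rfl⟩ a b ha hb hab
    refine ⟨a • x + b • y, hK.convex hx hy ha hb hab, ?_⟩
    have h3 : v = a • v + b • v := by rw [← add_smul, hab, one_smul]
    simp only
    rw [smul_add, smul_add]
    conv_lhs => rw [h3]
    abel
  · have h1 : interior ((fun x => x + v) '' K) = (fun x => x + v) '' interior K :=
      ((Homeomorph.addRight v).image_interior K).symm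
    rw [h1]
    exact hK.interior_nonempty.image _

theorem blaschke_le {K N : Set E3} (hK : IsBody K) (hB : IsBlaschke K N) (z : E3) :
    volume.real N ^ 2 * Phi K z ≤ volume.real K ^ 3 := by
  set M₀ : Set E3 := K ∩ refl z K with hM₀
  have hrc : IsClosed (refl z K) := hK.isCompact.isClosed.preimage (by fun_prop)
  have hrv : Convex ℝ (refl z K) := by
    intro x hx y hy a b ha hb hab
    have h1 := hK.convex hx hy ha hb hab
    have h2 : (2 : ℝ) • z - (a • x + b • y) = a • ((2 : ℝ) • z - x) + b • ((2 : ℝ) • z - y) := by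
      have h3 : (2 : ℝ) • z = a • ((2 : ℝ) • z) + b • ((2 : ℝ) • z) := by
        rw [← add_smul, hab, one_smul]
      conv_lhs => rw [h3]
      rw [smul_sub, smul_sub]
      abel
    change (2 : ℝ) • z - (a • x + b • y) ∈ K
    rw [h2]
    exact h1
  have hMcv : Convex ℝ M₀ := hK.convex.inter hrv
  have hMc : IsCompact M₀ := hK.isCompact.inter_right hrc
  have hPhi : Phi K z = volume.real M₀ := rfl
  by_cases hint : (interior M₀).Nonempty
  swap
  · have h1 : interior M₀ = ∅ := not_nonempty_iff_eq_empty.1 hint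
    have h2 : M₀ ⊆ frontier M₀ := by
      intro x hx
      rw [frontier, h1, sdiff_empty]
      exact subset_closure hx
    have h3 : volume M₀ = 0 := measure_mono_null h2 (hMcv.addHaar_frontier volume)
    have h4 : volume.real M₀ = 0 := by rw [measureReal_def, h3, ENNReal.toReal_zero]
    rw [hPhi, h4, mul_zero]
    positivity
  -- the centre
  have hsymm : ∀ x ∈ M₀, (2 : ℝ) • z - x ∈ M₀ := by
    rintro x ⟨h1, h2⟩
    refine ⟨h2, ?_⟩
    change (2 : ℝ) • z - ((2 : ℝ) • z - x) ∈ K
    rwa [sub_sub_cancel]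
  have hzint : z ∈ interior M₀ := by
    obtain ⟨w, hw⟩ := hint
    have h1 : (2 : ℝ) • z - w ∈ interior M₀ := by
      have h2 : (Homeomorph.subLeft ((2 : ℝ) • z)) '' interior M₀ = interior M₀ := by
        rw [(Homeomorph.subLeft ((2 : ℝ) • z)).image_interior]
        congr 1
        ext x
        constructor
        · rintro ⟨y, hy, rfl⟩
          exact hsymm y hy
        · intro hx
          refine ⟨(2 : ℝ) • z - x, hsymm x hx, ?_⟩
          simp [Homeomorph.subLeft]
      rw [← h2]
      exact ⟨w, hw, rfl⟩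
    have h3 := hMcv.interior hw h1 (show (0 : ℝ) ≤ 1 / 2 by norm_num)
      (show (0 : ℝ) ≤ 1 / 2 by norm_num) (by norm_num)
    have h4 : (1 / 2 : ℝ) • w + (1 / 2 : ℝ) • ((2 : ℝ) • z - w) = z := by
      rw [smul_sub, smul_smul]
      norm_num
    rwa [h4] at h3
  have hzM : z ∈ M₀ := interior_subset hzint
  have hzK : z ∈ interior K := interior_mono inter_subset_left hzint
  -- translate
  set K' : Set E3 := (fun x => x + (-z)) '' K with hK'
  set M : Set E3 := (fun x => x + (-z)) '' M₀ with hM
  have hbK' : IsBody K' := blle_body hK (-z)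
  have hbM : IsBody M := blle_body ⟨hMcv, hMc, hint⟩ (-z)
  have h0K' : (0 : E3) ∈ interior K' := by
    have h1 : interior K' = (fun x => x + (-z)) '' interior K :=
      ((Homeomorph.addRight (-z)).image_interior K).symm
    rw [h1]
    exact ⟨z, hzK, by simp⟩
  have h0M : (0 : E3) ∈ M := ⟨z, hzM, by simp⟩
  have hMK : M ⊆ K' := image_mono inter_subset_left
  have hMs : ∀ x ∈ M, -x ∈ M := by
    rintro _ ⟨x, hx, rfl⟩
    refine ⟨(2 : ℝ) • z - x, hsymm x hx, ?_⟩
    simp only
    rw [two_smul]
    abel
  have hneg : -K' = (fun x => x + z) '' (-K) := by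
    ext x
    constructor
    · intro hx
      obtain ⟨y, hy, h1⟩ := hx
      simp only at h1
      refine ⟨-y, by simpa using hy, ?_⟩
      simp only
      rw [← neg_neg x, ← h1]
      abel
    · rintro ⟨y, hy, rfl⟩
      refine ⟨-y, hy, ?_⟩
      simp only
      abel
  have hB' : IsBlaschke K' N := by
    refine ⟨hB.body, hB.symm, fun E hE => ?_⟩
    have e1 := surf_translate K E (-z)
    have e2 := surf_translate (-K) E z
    rw [hB.surf_eq E hE, hneg, hK', e1, e2]
  have h0N : (0 : E3) ∈ interior N := symm_zero_mem_interior hB.body hB.symm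
  have hineq := mink_int hB.body h0N hbM h0M
  rw [blaschke_integral hbK' h0K' hB' (φ := hsup M) (hsup_continuous hbM.isCompact ⟨0, h0M⟩)
    (hsup_nonneg hbM.isCompact h0M) (fun t ht x => hsup_smul ht x) (hsup_neg hMs)] at hineq
  have hle : ∫ x in K', hsup M (gradient (gauge K') x) ≤ volume.real K' := by
    have h1 := norm_setIntegral_le_of_norm_le_const (μ := volume) (s := K')
      (f := fun x => hsup M (gradient (gauge K') x)) (C := 1) hbK'.isCompact.measure_lt_top
      (fun x _ => by
        rw [Real.norm_of_nonneg (hsup_nonneg hbM.isCompact h0M _)]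
        exact hsup_grad_le hbK' h0K' hMK ⟨0, h0M⟩ x)
    rw [one_mul] at h1
    exact (le_abs_self _).trans h1
  have hfin := hineq.trans hle
  have v1 : volume.real K' = volume.real K := blle_vol K (-z)
  have v2 : volume.real M = volume.real M₀ := blle_vol M₀ (-z)
  rw [v1, v2] at hfin
  have hN0 : 0 ≤ volume.real N := measureReal_nonneg
  have hM0 : 0 ≤ volume.real M₀ := measureReal_nonneg
  have hcube := pow_le_pow_left₀ (mul_nonneg (Real.rpow_nonneg hN0 _) (Real.rpow_nonneg hM0 _))
    hfin 3
  rw [mul_pow] at hcube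
  have e1 : (volume.real N ^ (2 / 3 : ℝ)) ^ 3 = volume.real N ^ 2 := by
    rw [← Real.rpow_natCast, ← Real.rpow_mul hN0, ← Real.rpow_natCast]
    norm_num
  have e2 : (volume.real M₀ ^ (1 / 3 : ℝ)) ^ 3 = volume.real M₀ := by
    rw [← Real.rpow_natCast, ← Real.rpow_mul hM0]
    norm_num
  rw [e1, e2] at hcube
  exact hcube

end Pool.Agent.Lib.MP_43065d_gt
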