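import Pool.Agent.Lib.MP_43065d_gt.Defs

/-!
# Module PhiBasic: the functional `Phi K z = vol (K ∩ (2z - K))`

PROOFS.
`Phi_sub_le`: `(A ∩ refl z A) ∆ (B ∩ refl z B) ⊆ (A ∆ B) ∪ refl z (A ∆ B)` and `x ↦ 2 z - x` preserves volume.
`Phi_continuous`: let `z' → z`.  If `2 z - x` is not in `frontier K`, then for `z'` close to `z` the condition
`2 z' - x ∈ K` is equivalent to `2 z - x ∈ K`.  `{x | 2 z - x ∈ frontier K}` is null (`Convex.addHaar_frontier`),
and the indicators are dominated by that of `K`: dominated convergence.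
`Phi_eq_zero`: if `x ∈ K` and `2 z - x ∈ K` then `z = (x + (2z - x))/2 ∈ K`.
`exists_Phi_eq_Dmax`: a continuous function on the compact set `K`, zero outside, nonnegative.
`Dmax_pos`: if `ball z r ⊆ K`, then `ball z r ⊆ K ∩ refl z K`.
`Dmax_sub_le`: from `Phi_sub_le` for every `z`.
`ratio_affine`: for `α x = L x + v`: `α '' K ∩ refl (α z) (α '' K) = α '' (K ∩ refl z K)`, and images under `α` have
volume multiplied by `|det L|` (`Measure.addHaar_image_continuousLinearEquiv`, translation invariance);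
`α` is surjective, so the suprema correspond.
`Phi_translate`: the case `L = id`.
-/

open MeasureTheory Set Filter Topology Metric
open scoped ENNReal NNReal Pointwise

namespace Pool.Agent.Lib.MP_43065d_gt

private theorem PhiBasic_mp (z : E3) :
    MeasurePreserving (fun x : E3 => (2 : ℝ) • z - x) volume volume :=
  Measure.measurePreserving_sub_left volume ((2 : ℝ) • z)

private theorem PhiBasic_refl_meas {K : Set E3} (hK : MeasurableSet K) (z : E3) :
    MeasurableSet (refl z K) :=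
  (PhiBasic_mp z).measurable hK

private theorem PhiBasic_refl_vol {K : Set E3} (hK : MeasurableSet K) (z : E3) :
    volume (refl z K) = volume K :=
  (PhiBasic_mp z).measure_preimage hK.nullMeasurableSet

theorem Phi_nonneg (K : Set E3) (z : E3) : 0 ≤ Phi K z := measureReal_nonneg

theorem Phi_le_volume {K : Set E3} (hK : IsBody K) (z : E3) : Phi K z ≤ volume.real K :=
  measureReal_mono inter_subset_left hK.isCompact.measure_lt_top.ne

private theorem PhiBasic_bdd {K : Set E3} (hK : IsBody K) : BddAbove (range (Phi K)) :=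
  ⟨volume.real K, by rintro _ ⟨z, rfl⟩; exact Phi_le_volume hK z⟩

theorem Phi_le_Dmax {K : Set E3} (hK : IsBody K) (z : E3) : Phi K z ≤ Dmax K :=
  le_ciSup (PhiBasic_bdd hK) z

theorem Phi_continuous {K : Set E3} (hK : IsBody K) : Continuous (Phi K) := by
  rw [continuous_iff_continuousAt]
  intro z
  have hm : MeasurableSet K := hK.isCompact.measurableSet
  have h0 : volume ((fun x : E3 => (2 : ℝ) • z - x) ⁻¹' frontier K) = 0 := by
    rw [(PhiBasic_mp z).measure_preimage isClosed_frontier.measurableSet.nullMeasurableSet]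
    exact hK.convex.addHaar_frontier volume
  have h1 : Tendsto (fun w => volume (K ∩ refl w K)) (𝓝 z) (𝓝 (volume (K ∩ refl z K))) := by
    refine tendsto_measure_of_ae_tendsto_indicator (𝓝 z) (hm.inter (PhiBasic_refl_meas hm z))
      (fun w => hm.inter (PhiBasic_refl_meas hm w)) hm hK.isCompact.measure_lt_top.ne
      (Eventually.of_forall fun w => inter_subset_left) ?_
    have h2 : ∀ᵐ x ∂(volume : Measure E3),
        x ∉ (fun x : E3 => (2 : ℝ) • z - x) ⁻¹' frontier K := measure_eq_zero_iff_ae_notMem.1 h0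
    filter_upwards [h2] with x hx
    have hc : Tendsto (fun w : E3 => (2 : ℝ) • w - x) (𝓝 z) (𝓝 ((2 : ℝ) • z - x)) := by
      apply Continuous.tendsto
      fun_prop
    by_cases hxK : (2 : ℝ) • z - x ∈ K
    · have hint : (2 : ℝ) • z - x ∈ interior K := by
        by_contra hni
        exact hx ⟨subset_closure hxK, hni⟩
      filter_upwards [hc.eventually (isOpen_interior.mem_nhds hint)] with w hw
      have hw' : (2 : ℝ) • w - x ∈ K := interior_subset hw
      exact ⟨fun h => ⟨h.1, hxK⟩, fun h => ⟨h.1, hw'⟩⟩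
    · filter_upwards [hc.eventually (hK.isCompact.isClosed.isOpen_compl.mem_nhds hxK)] with w hw
      exact ⟨fun h => absurd h.2 hw, fun h => absurd h.2 hxK⟩
  exact (ENNReal.tendsto_toReal
    ((measure_mono inter_subset_left).trans_lt hK.isCompact.measure_lt_top).ne).comp h1

theorem Phi_eq_zero {K : Set E3} (hK : Convex ℝ K) {z : E3} (hz : z ∉ K) : Phi K z = 0 := by
  have h : K ∩ refl z K = ∅ := by
    rw [eq_empty_iff_forall_notMem]
    rintro x ⟨h1, h2⟩
    apply hz
    have h3 := hK h1 h2 (a := 1 / 2) (b := 1 / 2) (by norm_num) (by norm_num) (by norm_num)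
    have h4 : (1 / 2 : ℝ) • x + (1 / 2 : ℝ) • ((2 : ℝ) • z - x) = z := by
      rw [smul_sub, smul_smul]
      norm_num
    rwa [h4] at h3
  rw [Phi, h, measureReal_empty]

theorem exists_Phi_eq_Dmax {K : Set E3} (hK : IsBody K) : ∃ z ∈ K, Phi K z = Dmax K := by
  obtain ⟨z, hz, hmax⟩ := hK.isCompact.exists_isMaxOn
    (hK.interior_nonempty.mono interior_subset) (Phi_continuous hK).continuousOn
  refine ⟨z, hz, le_antisymm (Phi_le_Dmax hK z) (ciSup_le fun w => ?_)⟩
  by_cases hw : w ∈ K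
  · exact hmax hw
  · rw [Phi_eq_zero hK.convex hw]
    exact Phi_nonneg K z

theorem Dmax_pos {K : Set E3} (hK : IsBody K) : 0 < Dmax K := by
  obtain ⟨z, hz⟩ := hK.interior_nonempty
  obtain ⟨r, hr, hb⟩ := Metric.isOpen_iff.1 isOpen_interior z hz
  have h1 : ball z r ⊆ K ∩ refl z K := by
    intro x hx
    have h3 : (2 : ℝ) • z - x ∈ ball z r := by
      rw [mem_ball, dist_eq_norm] at hx ⊢
      have h2 : (2 : ℝ) • z - x - z = -(x - z) := by
        rw [two_smul]; abel
      rw [h2, norm_neg]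
      exact hx
    have h4 : (2 : ℝ) • z - x ∈ K := interior_subset (hb h3)
    exact ⟨interior_subset (hb hx), h4⟩
  refine lt_of_lt_of_le ?_ (Phi_le_Dmax hK z)
  refine lt_of_lt_of_le ?_ (measureReal_mono h1
    ((measure_mono inter_subset_left).trans_lt hK.isCompact.measure_lt_top).ne)
  rw [Measure.real, ENNReal.toReal_pos_iff]
  exact ⟨measure_ball_pos volume z hr, measure_ball_lt_top⟩

private theorem PhiBasic_sub_le {A B : Set E3} (hA : MeasurableSet A) (hB : MeasurableSet B)
    (hAf : volume A ≠ ⊤) (hBf : volume B ≠ ⊤) (z : E3) :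
    Phi A z - Phi B z ≤ 2 * volume.real (symmDiff A B) := by
  have hsub : A ∩ refl z A ⊆ (B ∩ refl z B) ∪ (symmDiff A B ∪ refl z (symmDiff A B)) := by
    rintro x ⟨h1, h2⟩
    by_cases hx : x ∈ B
    · by_cases hx' : (2 : ℝ) • z - x ∈ B
      · exact Or.inl ⟨hx, hx'⟩
      · exact Or.inr (Or.inr (Or.inl ⟨h2, hx'⟩))
    · exact Or.inr (Or.inl (Or.inl ⟨h1, hx⟩))
  have hsm : MeasurableSet (symmDiff A B) := hA.symmDiff hB
  have hsf : volume (symmDiff A B) ≠ ⊤ :=
    ((measure_mono (symmDiff_le_sup : symmDiff A B ≤ A ⊔ B)).trans_lt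
      ((measure_union_le A B).trans_lt (ENNReal.add_lt_top.2
        ⟨hAf.lt_top, hBf.lt_top⟩))).ne
  have hrf : volume (refl z (symmDiff A B)) ≠ ⊤ := by
    rw [PhiBasic_refl_vol hsm]; exact hsf
  have hBf' : volume (B ∩ refl z B) ≠ ⊤ :=
    ((measure_mono inter_subset_left).trans_lt hBf.lt_top).ne
  have hr : volume.real (refl z (symmDiff A B)) = volume.real (symmDiff A B) := by
    rw [Measure.real, PhiBasic_refl_vol hsm]; rfl
  have h1 : Phi A z ≤ volume.real ((B ∩ refl z B) ∪ (symmDiff A B ∪ refl z (symmDiff A B))) := by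
    refine measureReal_mono hsub ?_
    refine ((measure_union_le _ _).trans_lt (ENNReal.add_lt_top.2 ⟨hBf'.lt_top,
      (measure_union_le _ _).trans_lt (ENNReal.add_lt_top.2 ⟨hsf.lt_top, hrf.lt_top⟩)⟩)).ne
  have h2 := measureReal_union_le (μ := volume) (B ∩ refl z B)
    (symmDiff A B ∪ refl z (symmDiff A B))
  have h3 := measureReal_union_le (μ := volume) (symmDiff A B) (refl z (symmDiff A B))
  rw [hr] at h3
  have h4 : Phi B z = volume.real (B ∩ refl z B) := rfl
  linarith

theorem Phi_sub_le {A B : Set E3} (hA : MeasurableSet A) (hB : MeasurableSet B)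
    (hAf : volume A ≠ ⊤) (hBf : volume B ≠ ⊤) (z : E3) :
    |Phi A z - Phi B z| ≤ 2 * volume.real (symmDiff A B) := by
  rw [abs_sub_le_iff]
  refine ⟨PhiBasic_sub_le hA hB hAf hBf z, ?_⟩
  rw [symmDiff_comm]
  exact PhiBasic_sub_le hB hA hBf hAf z

private theorem PhiBasic_Dmax_sub_le {A B : Set E3} (hA : IsBody A) (hB : IsBody B) :
    Dmax A - Dmax B ≤ 2 * volume.real (symmDiff A B) := by
  obtain ⟨z, -, hz⟩ := exists_Phi_eq_Dmax hA
  have h1 := PhiBasic_sub_le hA.isCompact.measurableSet hB.isCompact.measurableSet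
    hA.isCompact.measure_lt_top.ne hB.isCompact.measure_lt_top.ne z
  have h2 := Phi_le_Dmax hB z
  linarith

theorem Dmax_sub_le {A B : Set E3} (hA : IsBody A) (hB : IsBody B) :
    |Dmax A - Dmax B| ≤ 2 * volume.real (symmDiff A B) := by
  rw [abs_sub_le_iff]
  refine ⟨PhiBasic_Dmax_sub_le hA hB, ?_⟩
  rw [symmDiff_comm]
  exact PhiBasic_Dmax_sub_le hB hA

private theorem PhiBasic_vol (L : E3 ≃L[ℝ] E3) (v : E3) (S : Set E3) :
    volume.real ((fun x => L x + v) '' S) =
      |LinearMap.det (L : E3 →ₗ[ℝ] E3)| * volume.real S := by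
  have h1 : (fun x => L x + v) '' S = (fun x => x + -v) ⁻¹' (L '' S) := by
    ext y
    constructor
    · rintro ⟨x, hx, rfl⟩
      refine ⟨x, hx, ?_⟩
      simp
    · rintro ⟨x, hx, hxy⟩
      refine ⟨x, hx, ?_⟩
      change L x + v = y
      have h2 : L x = y + -v := hxy
      rw [h2]
      simp
  rw [Measure.real, h1, measure_preimage_add_right,
    Measure.addHaar_image_continuousLinearEquiv, ENNReal.toReal_mul,
    ENNReal.toReal_ofReal (abs_nonneg _)]
  rfl

private theorem PhiBasic_Phi (L : E3 ≃L[ℝ] E3) (v : E3) (K : Set E3) (z : E3) :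
    Phi ((fun x => L x + v) '' K) (L z + v) =
      |LinearMap.det (L : E3 →ₗ[ℝ] E3)| * Phi K z := by
  have h1 : ((fun x => L x + v) '' K) ∩ refl (L z + v) ((fun x => L x + v) '' K) =
      (fun x => L x + v) '' (K ∩ refl z K) := by
    ext y
    constructor
    · rintro ⟨⟨x, hx, rfl⟩, ⟨x', hx', hxx'⟩⟩
      refine ⟨x, ⟨hx, ?_⟩, rfl⟩
      have h2 : L x' + v = (2 : ℝ) • (L z + v) - (L x + v) := hxx'
      have h3 : L x' = L ((2 : ℝ) • z - x) := by
        rw [map_sub, map_smul]
        have h4 : L x' = (2 : ℝ) • (L z + v) - (L x + v) - v := by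
          rw [← h2]; abel
        rw [h4, smul_add, two_smul ℝ v]
        abel
      have h5 := L.injective h3
      change (2 : ℝ) • z - x ∈ K
      rw [← h5]
      exact hx'
    · rintro ⟨x, ⟨hx, hx'⟩, rfl⟩
      refine ⟨⟨x, hx, rfl⟩, ⟨(2 : ℝ) • z - x, hx', ?_⟩⟩
      change L ((2 : ℝ) • z - x) + v = (2 : ℝ) • (L z + v) - (L x + v)
      rw [map_sub, map_smul, smul_add, two_smul ℝ v]
      abel
  rw [Phi, h1, PhiBasic_vol]
  rfl

private theorem PhiBasic_Dmax (L : E3 ≃L[ℝ] E3) (v : E3) (K : Set E3) :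
    Dmax ((fun x => L x + v) '' K) = |LinearMap.det (L : E3 →ₗ[ℝ] E3)| * Dmax K := by
  have hs : Function.Surjective (fun x => L x + v) := by
    intro y
    refine ⟨L.symm (y - v), ?_⟩
    change L (L.symm (y - v)) + v = y
    rw [ContinuousLinearEquiv.apply_symm_apply]
    abel
  rw [Dmax, Dmax, Real.mul_iSup_of_nonneg (abs_nonneg _), ← hs.iSup_comp]
  congr 1
  funext z
  exact PhiBasic_Phi L v K z

private theorem PhiBasic_body (L : E3 ≃L[ℝ] E3) (v : E3) {K : Set E3} (hK : IsBody K) :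
    IsBody ((fun x => L x + v) '' K) := by
  have hc : Continuous (fun x => L x + v) := L.continuous.add continuous_const
  have h1 : (fun x => L x + v) '' K = (fun x => x + v) '' (L '' K) := by
    rw [image_image]
  refine ⟨?_, hK.isCompact.image hc, ?_⟩
  · rw [h1]
    have h2 : Convex ℝ (L '' K) := hK.convex.linear_image (L : E3 →ₗ[ℝ] E3)
    simpa [image_add_right] using h2.translate_preimage_left (-v)
  · have he : (fun x => L x + v) = ⇑(L.toHomeomorph.trans (Homeomorph.addRight v)) := by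
      funext x; rfl
    rw [he, ← Homeomorph.image_interior]
    exact hK.interior_nonempty.image _

theorem ratio_affine {K : Set E3} (hK : IsBody K) (L : E3 ≃L[ℝ] E3) (v : E3) :
    IsBody ((fun x => L x + v) '' K) ∧ ∃ J : ℝ, 0 < J ∧
      volume.real ((fun x => L x + v) '' K) = J * volume.real K ∧
      Dmax ((fun x => L x + v) '' K) = J * Dmax K ∧
      ∀ z, Phi ((fun x => L x + v) '' K) (L z + v) = J * Phi K z := by
  refine ⟨PhiBasic_body L v hK, |LinearMap.det (L : E3 →ₗ[ℝ] E3)|, ?_, PhiBasic_vol L v K,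
    PhiBasic_Dmax L v K, PhiBasic_Phi L v K⟩
  rw [abs_pos]
  exact L.toLinearEquiv.isUnit_det'.ne_zero

theorem Phi_translate {K : Set E3} (hK : IsBody K) (v : E3) :
    IsBody ((fun x => x + v) '' K) ∧
      volume.real ((fun x => x + v) '' K) = volume.real K ∧
      Dmax ((fun x => x + v) '' K) = Dmax K ∧
      ∀ z, Phi ((fun x => x + v) '' K) (z + v) = Phi K z := by
  have hd : |LinearMap.det ((ContinuousLinearEquiv.refl ℝ E3 : E3 ≃L[ℝ] E3) : E3 →ₗ[ℝ] E3)| = 1 := by
    have h1 : ((ContinuousLinearEquiv.refl ℝ E3 : E3 ≃L[ℝ] E3) : E3 →ₗ[ℝ] E3) = LinearMap.id := rfl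
    rw [h1, LinearMap.det_id, abs_one]
  have h2 := PhiBasic_vol (ContinuousLinearEquiv.refl ℝ E3) v K
  have h3 := PhiBasic_Dmax (ContinuousLinearEquiv.refl ℝ E3) v K
  have h4 := PhiBasic_Phi (ContinuousLinearEquiv.refl ℝ E3) v K
  rw [hd, one_mul] at h2 h3
  refine ⟨PhiBasic_body (ContinuousLinearEquiv.refl ℝ E3) v hK, h2, h3, fun z => ?_⟩
  have h5 := h4 z
  rw [hd, one_mul] at h5
  exact h5

end Pool.Agent.Lib.MP_43065d_gt
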