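import Pool.Agent.Lib.MP_43065d_gt.BMEq
import Pool.Agent.Lib.MP_43065d_gt.PhiBasic

/-!
# Module Unique: the maximiser of `Phi K` is unique

PROOF.  Let `z`, `w` be maximisers, `D = Dmax K > 0`, `A = (K ∩ refl z K) - z`, `B = (K ∩ refl w K) - w`: symmetric
bodies of volume `D` (they are compact convex of positive volume, so they have interior points), `u = (z + w)/2`.
For `a ∈ A`, `b ∈ B`: `u + (a + b)/2 = ((z + a) + (w + b))/2 ∈ K`, also with `-a, -b`, so
`u + (1/2) • (A + B) ⊆ K ∩ refl u K`, so `vol (A + B)/8 ≤ Phi K u ≤ D`.  By `bm_eq_symm` `A = B`.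
Now `z + A ⊆ K` and `w + A ⊆ K`, and `K ∩ refl u K` contains `z + A` and `w + A` (the reflection in `u` of `z + a` is
`w - a ∈ w + A ⊆ K`), and, being convex, it contains `[z, w] + A`.  Its volume is at most `D = vol A`.
So the compact convex set `[z, w] + A` contains `z + A` and has the same volume; a body containing
another body of the same volume is equal to it (a point of the difference has a neighbourhood of positive
volume in the difference: closed convex set, interior points of the bigger body are dense in it), so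
`w + A ⊆ [z, w] + A = z + A`, i.e. `(w - z) + A ⊆ A`; iterating `n (w - z) + A ⊆ A`, and `A` is bounded, so `w = z`.
-/

open MeasureTheory Set Filter Topology Metric
open scoped ENNReal NNReal Pointwise

namespace Pool.Agent.Lib.MP_43065d_gt

/-- a body contained in a body of the same volume is equal to it -/
theorem body_eq_of_volume {A B : Set E3} (hA : IsBody A) (hB : IsBody B) (h : A ⊆ B)
    (hv : volume.real B ≤ volume.real A) : A = B := by
  refine h.antisymm fun x hx => ?_
  by_contra hxA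
  have hcl : x ∈ closure (interior B) := by
    rw [hB.convex.closure_interior_eq_closure_of_nonempty_interior hB.interior_nonempty]
    exact subset_closure hx
  have hopen : IsOpen (Aᶜ) := hA.isCompact.isClosed.isOpen_compl
  obtain ⟨y, hy1, hy2⟩ := mem_closure_iff.1 hcl Aᶜ hopen hxA
  have hU : IsOpen (Aᶜ ∩ interior B) := hopen.inter isOpen_interior
  have hpos : 0 < volume (Aᶜ ∩ interior B) := hU.measure_pos volume ⟨y, hy1, hy2⟩
  have hBf : volume B ≠ ⊤ := hB.isCompact.measure_lt_top.ne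
  have hsub : A ∪ (Aᶜ ∩ interior B) ⊆ B := by
    rintro t (ht | ht)
    · exact h ht
    · exact interior_subset ht.2
  have hdis : Disjoint A (Aᶜ ∩ interior B) :=
    Set.disjoint_left.2 fun t h1 h2 => h2.1 h1
  have hUf : volume (Aᶜ ∩ interior B) ≠ ⊤ :=
    ((measure_mono (inter_subset_right.trans interior_subset)).trans_lt hBf.lt_top).ne
  have h1 : volume.real A + volume.real (Aᶜ ∩ interior B) ≤ volume.real B := by
    rw [← measureReal_union hdis hU.measurableSet hA.isCompact.measure_lt_top.ne hUf]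
    exact measureReal_mono hsub hBf
  have h2 : 0 < volume.real (Aᶜ ∩ interior B) := ENNReal.toReal_pos hpos.ne' hUf
  linarith

private theorem Unique_body {K : Set E3} (hK : IsBody K) {z : E3} (h : 0 < Phi K z) :
    IsBody (K ∩ refl z K) := by
  have hconv : Convex ℝ (K ∩ refl z K) := by
    refine hK.convex.inter ?_
    intro x hx y hy a b ha hb hab
    have h1 := hK.convex hx hy ha hb hab
    have h2 : a • ((2 : ℝ) • z - x) + b • ((2 : ℝ) • z - y) = (2 : ℝ) • z - (a • x + b • y) := by
      rw [smul_sub, smul_sub, smul_smul, smul_smul]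
      have h3 : (a * 2) • z + (b * 2) • z = (2 : ℝ) • z := by
        rw [← add_smul, ← add_mul, hab, one_mul]
      rw [← h3]
      abel
    rw [h2] at h1
    exact h1
  have hcomp : IsCompact (K ∩ refl z K) :=
    hK.isCompact.inter_right (hK.isCompact.isClosed.preimage (by fun_prop))
  refine ⟨hconv, hcomp, ?_⟩
  by_contra hne
  rw [not_nonempty_iff_eq_empty] at hne
  have h1 : K ∩ refl z K ⊆ frontier (K ∩ refl z K) := by
    rw [hcomp.isClosed.frontier_eq, hne, sdiff_empty]
  have h2 : volume (K ∩ refl z K) = 0 :=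
    measure_mono_null h1 (hconv.addHaar_frontier volume)
  have h3 : Phi K z = 0 := by rw [Phi, Measure.real, h2, ENNReal.toReal_zero]
  exact h.ne' h3

private theorem Unique_symm {K : Set E3} {z x : E3} (hx : x ∈ K ∩ refl z K) :
    (2 : ℝ) • z - x ∈ K ∩ refl z K := by
  refine ⟨hx.2, ?_⟩
  change (2 : ℝ) • z - ((2 : ℝ) • z - x) ∈ K
  rw [sub_sub_cancel]
  exact hx.1

/-- the translate by `z` of a body -/
private theorem Unique_pre {P : Set E3} (hP : IsBody P) (z : E3) :
    IsBody ((fun x => z + x) ⁻¹' P) ∧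
      volume.real ((fun x => z + x) ⁻¹' P) = volume.real P := by
  refine ⟨⟨?_, ?_, ?_⟩, ?_⟩
  · exact hP.convex.translate_preimage_right z
  · exact (Homeomorph.addLeft z).isCompact_preimage.2 hP.isCompact
  · have h1 : (fun x => z + x) ⁻¹' (interior P) ⊆ interior ((fun x => z + x) ⁻¹' P) :=
      preimage_interior_subset_interior_preimage (by fun_prop)
    obtain ⟨y, hy⟩ := hP.interior_nonempty
    refine ⟨y - z, h1 ?_⟩
    change z + (y - z) ∈ interior P
    rw [add_sub_cancel]
    exact hy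
  · rw [Measure.real, measure_preimage_add]
    rfl

theorem center_unique {K : Set E3} (hK : IsBody K) {z w : E3} (hz : Phi K z = Dmax K)
    (hw : Phi K w = Dmax K) : z = w := by
  have hD : 0 < Dmax K := Dmax_pos hK
  have hP : IsBody (K ∩ refl z K) := Unique_body hK (by rw [hz]; exact hD)
  have hQ : IsBody (K ∩ refl w K) := Unique_body hK (by rw [hw]; exact hD)
  obtain ⟨hA, hAv⟩ := Unique_pre hP z
  obtain ⟨hB, hBv⟩ := Unique_pre hQ w
  have hAv' : volume.real ((fun x => z + x) ⁻¹' (K ∩ refl z K)) = Dmax K := hAv.trans hz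
  have hBv' : volume.real ((fun x => w + x) ⁻¹' (K ∩ refl w K)) = Dmax K := hBv.trans hw
  have sym : ∀ (t x : E3), x ∈ (fun x => t + x) ⁻¹' (K ∩ refl t K) →
      -x ∈ (fun x => t + x) ⁻¹' (K ∩ refl t K) := by
    intro t x hx
    have h1 := Unique_symm hx
    have h2 : (2 : ℝ) • t - (t + x) = t + -x := by rw [two_smul]; abel
    rw [h2] at h1
    exact h1
  -- the middle point
  set u : E3 := (1 / 2 : ℝ) • (z + w) with hu
  have hu2 : (2 : ℝ) • u = z + w := by rw [hu, smul_smul]; norm_num
  have hsum : (fun x => z + x) ⁻¹' (K ∩ refl z K) + (fun x => w + x) ⁻¹' (K ∩ refl w K) ⊆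
      (2 : ℝ) • ((fun x => u + x) ⁻¹' (K ∩ refl u K)) := by
    rintro _ ⟨a, ha, b, hb, rfl⟩
    refine ⟨(1 / 2 : ℝ) • (a + b), ?_, ?_⟩
    · have key : ∀ a b : E3, z + a ∈ K → w + b ∈ K → u + (1 / 2 : ℝ) • (a + b) ∈ K := by
        intro a b h1 h2
        have h3 := hK.convex h1 h2 (a := 1 / 2) (b := 1 / 2) (by norm_num) (by norm_num)
          (by norm_num)
        have h4 : (1 / 2 : ℝ) • (z + a) + (1 / 2 : ℝ) • (w + b) =
            u + (1 / 2 : ℝ) • (a + b) := by
          rw [hu, ← smul_add, ← smul_add]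
          congr 1
          abel
        rwa [h4] at h3
      have ha' := sym z a ha
      have hb' := sym w b hb
      refine ⟨key a b ha.1 hb.1, ?_⟩
      change (2 : ℝ) • u - (u + (1 / 2 : ℝ) • (a + b)) ∈ K
      have h5 := key (-a) (-b) ha'.1 hb'.1
      have h6 : u + (1 / 2 : ℝ) • (-a + -b) = (2 : ℝ) • u - (u + (1 / 2 : ℝ) • (a + b)) := by
        have h7 : -a + -b = -(a + b) := by abel
        rw [h7, smul_neg, two_smul]
        abel
      rwa [h6] at h5
    · change (2 : ℝ) • (1 / 2 : ℝ) • (a + b) = a + b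
      rw [smul_smul]
      norm_num
  have hPhiu : Phi K u ≤ Dmax K := Phi_le_Dmax hK u
  have hCvol : volume ((fun x => u + x) ⁻¹' (K ∩ refl u K)) = volume (K ∩ refl u K) :=
    measure_preimage_add volume u _
  have hPhiuf : volume (K ∩ refl u K) ≠ ⊤ :=
    ((measure_mono inter_subset_left).trans_lt hK.isCompact.measure_lt_top).ne
  have h8 : volume ((2 : ℝ) • ((fun x => u + x) ⁻¹' (K ∩ refl u K))) =
      ENNReal.ofReal 8 * volume (K ∩ refl u K) := by
    rw [Measure.addHaar_smul, hCvol, finrank_euclideanSpace, Fintype.card_fin]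
    norm_num
  have hle : volume.real ((fun x => z + x) ⁻¹' (K ∩ refl z K) +
      (fun x => w + x) ⁻¹' (K ∩ refl w K)) ≤
      8 * volume.real ((fun x => z + x) ⁻¹' (K ∩ refl z K)) := by
    rw [hAv']
    have h9 : volume.real ((2 : ℝ) • ((fun x => u + x) ⁻¹' (K ∩ refl u K))) = 8 * Phi K u := by
      rw [Measure.real, h8, ENNReal.toReal_mul, ENNReal.toReal_ofReal (by norm_num)]
      rfl
    have h10 := measureReal_mono (μ := volume) hsum (by
      rw [h8]; exact ENNReal.mul_ne_top ENNReal.ofReal_ne_top hPhiuf)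
    rw [h9] at h10
    linarith
  have hAB := bm_eq_symm hA hB (sym z) (sym w) (hAv'.trans hBv'.symm) hle
  -- the three bodies coincide
  have hPQ : ∀ x, x ∈ K ∩ refl z K → w + (x - z) ∈ K ∩ refl w K := by
    intro x hx
    have h1 : x - z ∈ (fun x => z + x) ⁻¹' (K ∩ refl z K) := by
      change z + (x - z) ∈ K ∩ refl z K
      rw [add_sub_cancel]; exact hx
    rw [hAB] at h1
    exact h1
  have hQP : ∀ x, x ∈ K ∩ refl w K → z + (x - w) ∈ K ∩ refl z K := by
    intro x hx
    have h1 : x - w ∈ (fun x => w + x) ⁻¹' (K ∩ refl w K) := by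
      change w + (x - w) ∈ K ∩ refl w K
      rw [add_sub_cancel]; exact hx
    rw [← hAB] at h1
    exact h1
  have hPC : K ∩ refl z K ⊆ K ∩ refl u K := by
    intro x hx
    refine ⟨hx.1, ?_⟩
    change (2 : ℝ) • u - x ∈ K
    have h1 := (hPQ _ (Unique_symm hx)).1
    have h2 : w + ((2 : ℝ) • z - x - z) = (2 : ℝ) • u - x := by
      rw [hu2, two_smul]; abel
    rwa [h2] at h1
  have hQC : K ∩ refl w K ⊆ K ∩ refl u K := by
    intro x hx
    refine ⟨hx.1, ?_⟩
    change (2 : ℝ) • u - x ∈ K
    have h1 := (hQP _ (Unique_symm hx)).1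
    have h2 : z + ((2 : ℝ) • w - x - w) = (2 : ℝ) • u - x := by
      rw [hu2, two_smul]; abel
    rwa [h2] at h1
  have hPhiu' : 0 < Phi K u := by
    have h1 : Phi K z ≤ Phi K u := measureReal_mono hPC hPhiuf
    rw [hz] at h1
    linarith
  have hC : IsBody (K ∩ refl u K) := Unique_body hK hPhiu'
  have e1 : K ∩ refl z K = K ∩ refl u K := body_eq_of_volume hP hC hPC (hPhiu.trans hz.ge)
  have e2 : K ∩ refl w K = K ∩ refl u K := body_eq_of_volume hQ hC hQC (hPhiu.trans hw.ge)
  have e3 : K ∩ refl z K = K ∩ refl w K := e1.trans e2.symm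
  obtain ⟨x0, hx0⟩ := hP.interior_nonempty.mono interior_subset
  have hstep : ∀ x, x ∈ K ∩ refl z K → x + (2 : ℝ) • (w - z) ∈ K ∩ refl z K := by
    intro x hx
    have h1 := Unique_symm hx
    have h2 : (2 : ℝ) • z - x ∈ K ∩ refl w K := e3 ▸ h1
    have h3 := Unique_symm h2
    have h4 : (2 : ℝ) • w - ((2 : ℝ) • z - x) = x + (2 : ℝ) • (w - z) := by
      rw [smul_sub]; abel
    rw [h4, ← e3] at h3
    exact h3
  have hiter : ∀ n : ℕ, x0 + (n : ℝ) • ((2 : ℝ) • (w - z)) ∈ K ∩ refl z K := by
    intro n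
    induction n with
    | zero => simpa using hx0
    | succ n ih =>
      have h1 := hstep _ ih
      have h2 : x0 + (n : ℝ) • ((2 : ℝ) • (w - z)) + (2 : ℝ) • (w - z) =
          x0 + ((n + 1 : ℕ) : ℝ) • ((2 : ℝ) • (w - z)) := by
        push_cast
        rw [add_smul, one_smul, add_assoc]
      rwa [h2] at h1
  obtain ⟨R, hR⟩ := hP.isCompact.isBounded.exists_norm_le
  by_contra hne
  have hpos : 0 < ‖(2 : ℝ) • (w - z)‖ := by
    rw [norm_pos_iff]
    intro h1
    rw [smul_eq_zero] at h1
    rcases h1 with h1 | h1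
    · norm_num at h1
    · exact hne (sub_eq_zero.1 h1).symm
  obtain ⟨n, hn⟩ := exists_nat_gt ((R + ‖x0‖) / ‖(2 : ℝ) • (w - z)‖)
  rw [div_lt_iff₀ hpos] at hn
  have h1 := hR _ (hiter n)
  have h2 : ‖(n : ℝ) • ((2 : ℝ) • (w - z))‖ ≤
      ‖x0 + (n : ℝ) • ((2 : ℝ) • (w - z))‖ + ‖x0‖ := by
    have h3 := norm_sub_le (x0 + (n : ℝ) • ((2 : ℝ) • (w - z))) x0
    rwa [add_sub_cancel_left] at h3
  rw [norm_smul, Real.norm_of_nonneg (Nat.cast_nonneg n)] at h2
  linarith

end Pool.Agent.Lib.MP_43065d_gt
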