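import Pool.Agent.Lib.MP_43065d_gt.MinPoly
import Pool.Agent.Lib.MP_43065d_gt.Unique

/-!
# Module Center: approximately critical polytopes with center at the origin

PROOF.  `center_close`: let `ε > 0`.  The function `Phi K₀` is continuous, zero outside `K₀`, and `0` is its only maximiser
(`center_unique`), so there is `κ > 0` with: `Phi K₀ z ≥ Dmax K₀ - 4 κ` implies `‖z‖ ≤ ε`
(`{z ∈ K₀ | ‖z‖ ≥ ε}` is compact, the maximum of `Phi K₀` on it is `< Dmax K₀`; and `Dmax K₀ > 4 κ`).  If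
`vol (P ∆ K₀) ≤ κ` and `Phi P z = Dmax P` then
`Phi K₀ z ≥ Phi P z - 2κ = Dmax P - 2κ ≥ Dmax K₀ - 4κ` (`Phi_sub_le`, `Dmax_sub_le`).
`translate_small`: `vol ((K₀ - z) ∆ K₀) → 0` as `z → 0` (indicators converge off the null set `frontier K₀`).

`exists_centered`: apply `exists_ncrit` with `η' ≤ η/2` so small that the maximiser `z` of `Phi (poly A')`
(exists by `exists_Phi_eq_Dmax`) satisfies `‖z‖ ≤ r/4`, `‖z‖ ≤ R`, and `vol ((K₀ - z) ∆ K₀) ≤ η/2`.
`z ∈ interior (poly A')`, so `1 - ⟪a, z⟫ > 0` for `a ∈ A'`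
(`⟪a, z⟫ ≤ ‖a‖ ‖z‖ ≤ (2/r)(r/4) = 1/2`).  Let `T a = (1 - ⟪a, z⟫)⁻¹ • a` and `A = A'.image T`.  `T` is injective on `A'` with
inverse `T' c = (1 + ⟪c, z⟫)⁻¹ • c` (`1 + ⟪T a, z⟫ = (1 - ⟪a, z⟫)⁻¹`), and
`poly A = (fun x => x - z) '' poly A'`  (`⟪T a, x - z⟫ ≤ 1 ⇔ ⟪a, x⟫ - ⟪a, z⟫ ≤ 1 - ⟪a, z⟫`).  So `Phi (poly A) 0 = Dmax (poly A)`
by `Phi_translate`.  For `c = T a ∈ A` and `c'` close to `c`, `a' = T' c'` is close to `a`
(continuity, `1 + ⟪c', z⟫ > 0`) and `polyR A c c' = (fun x => x - z) '' polyR A' a a'`, so `NCrit A m η` follows from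
`NCrit A' m η'` and translation invariance (all the sets involved are bodies for `a'` close to
`a`, or use that `volume.real` and `Dmax`, `Phi` are translation invariant for all sets: prove
`Dmax ((· + v) '' K) = Dmax K` for every set `K` by reindexing the supremum).  Finally `η' ≤ η`.
-/

open MeasureTheory Set Filter Topology Metric
open scoped ENNReal NNReal Pointwise

namespace Pool.Agent.Lib.MP_43065d_gt

theorem center_close {K₀ : Set E3} (hK : IsBody K₀) (hc : Phi K₀ 0 = Dmax K₀) {ε : ℝ}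
    (hε : 0 < ε) : ∃ κ > 0, ∀ P : Set E3, IsBody P → volume.real (symmDiff P K₀) ≤ κ →
      ∀ z, Phi P z = Dmax P → ‖z‖ ≤ ε := by
  have hcont := Phi_continuous hK
  obtain ⟨M, hM0, hMD, hM⟩ : ∃ M, 0 ≤ M ∧ M < Dmax K₀ ∧ ∀ z, ε ≤ ‖z‖ → Phi K₀ z ≤ M := by
    by_cases hS : ({z : E3 | z ∈ K₀ ∧ ε ≤ ‖z‖}).Nonempty
    · have hcomp : IsCompact {z : E3 | z ∈ K₀ ∧ ε ≤ ‖z‖} := by
        have h1 : {z : E3 | z ∈ K₀ ∧ ε ≤ ‖z‖} = K₀ ∩ {z : E3 | ε ≤ ‖z‖} := rfl
        rw [h1]
        exact hK.isCompact.inter_right (isClosed_le continuous_const continuous_norm)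
      obtain ⟨z0, hz0, hmax⟩ := hcomp.exists_isMaxOn hS hcont.continuousOn
      refine ⟨Phi K₀ z0, Phi_nonneg _ _, ?_, ?_⟩
      · refine lt_of_le_of_ne (Phi_le_Dmax hK z0) ?_
        intro h
        have h2 := center_unique hK h hc
        rw [h2] at hz0
        have h3 := hz0.2
        rw [norm_zero] at h3
        linarith
      · intro z hz
        by_cases hzK : z ∈ K₀
        · exact hmax (show z ∈ {z : E3 | z ∈ K₀ ∧ ε ≤ ‖z‖} from ⟨hzK, hz⟩)
        · rw [Phi_eq_zero hK.convex hzK]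
          exact Phi_nonneg _ _
    · refine ⟨0, le_rfl, Dmax_pos hK, ?_⟩
      intro z hz
      by_cases hzK : z ∈ K₀
      · exact absurd ⟨z, hzK, hz⟩ hS
      · rw [Phi_eq_zero hK.convex hzK]
  refine ⟨(Dmax K₀ - M) / 8, by linarith, ?_⟩
  intro P hP hv z hz
  by_contra hcon
  have h1 := hM z (not_le.1 hcon).le
  have h2 := abs_le.1 (Phi_sub_le hP.isCompact.measurableSet hK.isCompact.measurableSet
    hP.isCompact.measure_ne_top hK.isCompact.measure_ne_top z)
  have h3 := abs_le.1 (Dmax_sub_le hP hK)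
  rw [hz] at h2
  linarith [h2.1, h2.2, h3.1, h3.2]

private theorem center_image_sub (z : E3) (S : Set E3) :
    (fun x => x - z) '' S = (fun x => x + z) ⁻¹' S := by
  ext x
  constructor
  · rintro ⟨y, hy, rfl⟩
    simpa using hy
  · intro hx
    exact ⟨x + z, hx, by simp⟩

theorem translate_small {K₀ : Set E3} (hK : IsBody K₀) {ε : ℝ} (hε : 0 < ε) :
    ∃ κ > 0, ∀ z : E3, ‖z‖ ≤ κ →
      volume.real (symmDiff ((fun x => x - z) '' K₀) K₀) ≤ ε := by
  let F : C(E3 × E3, E3) := ⟨fun p => p.2 + p.1, by fun_prop⟩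
  have h1 : Tendsto (fun z => F.curry z) (𝓝 0) (𝓝 (F.curry 0)) := F.curry.continuous.tendsto 0
  have h2 : ∀ z : E3, MeasurePreserving (F.curry z) (volume : Measure E3) volume := by
    intro z
    have h3 : (F.curry z : E3 → E3) = fun x => x + z := rfl
    rw [h3]
    exact measurePreserving_add_right volume z
  have h4 := tendsto_measure_symmDiff_preimage_nhds_zero (μ := (volume : Measure E3)) (ν := volume)
    h1 (Eventually.of_forall h2) (h2 0)
    hK.isCompact.measurableSet.nullMeasurableSet hK.isCompact.measure_ne_top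
  have h5 : ∀ᶠ z in 𝓝 (0 : E3), volume (symmDiff (F.curry z ⁻¹' K₀) (F.curry 0 ⁻¹' K₀)) <
      ENNReal.ofReal ε := h4.eventually (gt_mem_nhds (ENNReal.ofReal_pos.2 hε))
  obtain ⟨κ, hκ, h6⟩ := Metric.eventually_nhds_iff_ball.1 h5
  refine ⟨κ / 2, by positivity, fun z hz => ?_⟩
  have h7 := h6 z (by
    rw [mem_ball_zero_iff]
    linarith)
  have h8 : symmDiff (F.curry z ⁻¹' K₀) (F.curry 0 ⁻¹' K₀) =
      symmDiff ((fun x => x - z) '' K₀) K₀ := by
    rw [center_image_sub]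
    have h9 : (F.curry 0 : E3 → E3) ⁻¹' K₀ = K₀ := by
      ext x
      change x + 0 ∈ K₀ ↔ x ∈ K₀
      rw [add_zero]
    rw [h9]
    rfl
  rw [h8] at h7
  exact ENNReal.toReal_le_of_le_ofReal hε.le h7.le

private theorem center_vol (z : E3) (S : Set E3) :
    volume.real ((fun x => x + z) ⁻¹' S) = volume.real S := by
  unfold Measure.real
  rw [measure_preimage_add_right]

private theorem center_Phi (z w : E3) (S : Set E3) :
    Phi ((fun x => x + z) ⁻¹' S) w = Phi S (w + z) := by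
  unfold Phi
  rw [← center_vol z (S ∩ refl (w + z) S)]
  congr 1
  ext x
  simp only [mem_inter_iff, mem_preimage, refl, mem_setOf_eq]
  have h : (2 : ℝ) • w - x + z = (2 : ℝ) • (w + z) - (x + z) := by
    rw [smul_add, two_smul ℝ z]
    abel
  rw [h]

private theorem center_Dmax (z : E3) (S : Set E3) :
    Dmax ((fun x => x + z) ⁻¹' S) = Dmax S := by
  unfold Dmax
  simp only [center_Phi]
  exact (Equiv.addRight z).iSup_comp (g := fun w => Phi S w)

private theorem center_iff {c z x : E3} (h : 0 < 1 + inner ℝ c z) :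
    inner ℝ c x ≤ 1 ↔ inner ℝ ((1 + inner ℝ c z)⁻¹ • c) (x + z) ≤ 1 := by
  rw [real_inner_smul_left, inner_add_right, inv_mul_le_iff₀ h]
  constructor <;> intro h' <;> linarith

theorem exists_centered {K₀ : Set E3} (hK : IsBody K₀) {r R : ℝ} (hr : 0 < r)
    (hrK : closedBall 0 r ⊆ K₀) (hKR : K₀ ⊆ closedBall 0 R) (hc : Phi K₀ 0 = Dmax K₀) {m : ℝ}
    (hm0 : 0 ≤ m) (hm : ∀ K : Set E3, IsBody K → m * volume.real K ≤ Dmax K)
    (hmK : Dmax K₀ = m * volume.real K₀) {η : ℝ} (hη : 0 < η) :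
    ∃ A : Finset E3, closedBall 0 (r / 4) ⊆ poly A ∧ poly A ⊆ closedBall 0 (3 * R) ∧
      volume.real (symmDiff (poly A) K₀) ≤ η ∧ Phi (poly A) 0 = Dmax (poly A) ∧
      Dmax (poly A) ≤ m * volume.real (poly A) + η ∧ NCrit A m η := by
  classical
  obtain ⟨κ₂, hκ₂, h2⟩ := translate_small hK (half_pos hη)
  have hR : 0 < R := by
    by_contra hR
    obtain ⟨x, hx⟩ := exists_norm_eq E3 hr.le
    have h3 := hKR (hrK (show x ∈ closedBall (0 : E3) r by
      rw [mem_closedBall_zero_iff]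
      exact hx.le))
    rw [mem_closedBall_zero_iff] at h3
    linarith [not_lt.1 hR]
  obtain ⟨κ₁, hκ₁, h1⟩ := center_close hK hc
    (show 0 < min (r / 4) (min R κ₂) from lt_min (by positivity) (lt_min hR hκ₂))
  obtain ⟨A', hA1, hA2, hA3, hA4, hA5⟩ := exists_ncrit hK hr hrK hKR hm0 hm hmK
    (show 0 < min κ₁ (η / 2) from lt_min hκ₁ (by positivity))
  have hbody := (poly_body (half_pos hr) hA1 hA2).1
  obtain ⟨z, hzP, hz⟩ := exists_Phi_eq_Dmax hbody
  have hznorm := h1 _ hbody (hA3.trans (min_le_left _ _)) z hz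
  have hz4 : ‖z‖ ≤ r / 4 := hznorm.trans (min_le_left _ _)
  have hzR : ‖z‖ ≤ R := hznorm.trans ((min_le_right _ _).trans (min_le_left _ _))
  have hzκ : ‖z‖ ≤ κ₂ := hznorm.trans ((min_le_right _ _).trans (min_le_right _ _))
  have hη' : min κ₁ (η / 2) ≤ η / 2 := min_le_right _ _
  have haz : ∀ a ∈ A', (0 : ℝ) < 1 - inner ℝ a z := by
    intro a ha
    have h3 := norm_le_of_ball_subset (half_pos hr) hA1 ha
    have h4 : inner ℝ a z ≤ ‖a‖ * ‖z‖ := real_inner_le_norm a z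
    have h5 : ‖a‖ * ‖z‖ ≤ 1 / (r / 2) * (r / 4) :=
      mul_le_mul h3 hz4 (norm_nonneg _) (by positivity)
    have h6 : 1 / (r / 2) * (r / 4) = 1 / 2 := by
      field_simp
      ring
    linarith
  obtain ⟨T, hT⟩ : ∃ T : E3 → E3, T = fun a => (1 - inner ℝ a z)⁻¹ • a := ⟨_, rfl⟩
  obtain ⟨T', hT'⟩ : ∃ T' : E3 → E3, T' = fun c => (1 + inner ℝ c z)⁻¹ • c := ⟨_, rfl⟩
  have hTz : ∀ a ∈ A', 1 + inner ℝ (T a) z = (1 - inner ℝ a z)⁻¹ := by
    intro a ha
    have h3 := haz a ha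
    rw [hT]
    simp only [real_inner_smul_left]
    field_simp
    ring
  have hTpos : ∀ a ∈ A', (0 : ℝ) < 1 + inner ℝ (T a) z := by
    intro a ha
    rw [hTz a ha]
    exact inv_pos.2 (haz a ha)
  have hT'T : ∀ a ∈ A', T' (T a) = a := by
    intro a ha
    have h3 : T' (T a) = (1 + inner ℝ (T a) z)⁻¹ • T a := by rw [hT']
    rw [h3, hTz a ha, inv_inv, hT]
    simp only
    rw [smul_smul, mul_inv_cancel₀ (haz a ha).ne', one_smul]
  have hinj : ∀ a ∈ A', ∀ b ∈ A', T a = T b → a = b := by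
    intro a ha b hb h
    rw [← hT'T a ha, ← hT'T b hb, h]
  have hiff : ∀ c x, 0 < 1 + inner ℝ c z → (inner ℝ c x ≤ 1 ↔ inner ℝ (T' c) (x + z) ≤ 1) := by
    intro c x h
    rw [hT']
    exact center_iff h
  have hpoly : poly (A'.image T) = (fun x => x + z) ⁻¹' poly A' := by
    ext x
    simp only [poly, mem_setOf_eq, mem_preimage, Finset.mem_image, forall_exists_index, and_imp,
      forall_apply_eq_imp_iff₂]
    constructor
    · intro h a ha
      have h3 := (hiff (T a) x (hTpos a ha)).1 (h a ha)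
      rwa [hT'T a ha] at h3
    · intro h a ha
      refine (hiff (T a) x (hTpos a ha)).2 ?_
      rw [hT'T a ha]
      exact h a ha
  have hpolyR : ∀ a ∈ A', ∀ c', 0 < 1 + inner ℝ c' z →
      polyR (A'.image T) (T a) c' = (fun x => x + z) ⁻¹' polyR A' a (T' c') := by
    intro a ha c' hc'
    ext x
    simp only [polyR, mem_setOf_eq, mem_preimage, Finset.mem_image, forall_exists_index, and_imp,
      forall_apply_eq_imp_iff₂]
    constructor
    · rintro ⟨h, h'⟩
      refine ⟨fun b hb hba => ?_, (hiff c' x hc').1 h'⟩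
      have h3 := (hiff (T b) x (hTpos b hb)).1 (h b hb fun h4 => hba (hinj b hb a ha h4))
      rwa [hT'T b hb] at h3
    · rintro ⟨h, h'⟩
      refine ⟨fun b hb hba => ?_, (hiff c' x hc').2 h'⟩
      refine (hiff (T b) x (hTpos b hb)).2 ?_
      rw [hT'T b hb]
      exact h b hb fun h4 => hba (by rw [h4])
  refine ⟨A'.image T, ?_, ?_, ?_, ?_, ?_, ?_⟩
  · intro x hx
    rw [hpoly]
    refine hA1 ?_
    rw [mem_closedBall_zero_iff] at hx ⊢
    calc ‖x + z‖ ≤ ‖x‖ + ‖z‖ := norm_add_le _ _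
      _ ≤ r / 2 := by linarith
  · intro x hx
    rw [hpoly] at hx
    have h3 := hA2 hx
    rw [mem_closedBall_zero_iff] at h3 ⊢
    calc ‖x‖ = ‖(x + z) - z‖ := by rw [add_sub_cancel_right]
      _ ≤ ‖x + z‖ + ‖z‖ := norm_sub_le _ _
      _ ≤ 3 * R := by linarith
  · rw [hpoly]
    have h3 : volume ((fun x => x + z) ⁻¹' poly A') ≠ ⊤ := by
      rw [measure_preimage_add_right]
      exact hbody.isCompact.measure_ne_top
    have h4 : volume ((fun x => x + z) ⁻¹' K₀) ≠ ⊤ := by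
      rw [measure_preimage_add_right]
      exact hK.isCompact.measure_ne_top
    have h5 := measureReal_symmDiff_le (μ := (volume : Measure E3))
      (s := (fun x => x + z) ⁻¹' poly A') (t := (fun x => x + z) ⁻¹' K₀) K₀ h3 h4
    have h6 : symmDiff ((fun x => x + z) ⁻¹' poly A') ((fun x => x + z) ⁻¹' K₀) =
        (fun x => x + z) ⁻¹' (symmDiff (poly A') K₀) := rfl
    rw [h6, center_vol] at h5
    have h7 := h2 z hzκ
    rw [center_image_sub] at h7
    linarith
  · rw [hpoly, center_Phi, center_Dmax, zero_add]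
    exact hz
  · rw [hpoly, center_Dmax, center_vol]
    linarith
  · intro c hcA
    obtain ⟨a, ha, rfl⟩ := Finset.mem_image.1 hcA
    obtain ⟨δ, hδ, h3⟩ := hA5 a ha
    have hcont : ContinuousAt T' (T a) := by
      rw [hT']
      have h6 : ContinuousAt (fun c' : E3 => 1 + inner ℝ c' z) (T a) := by fun_prop
      exact (h6.inv₀ (hTpos a ha).ne').smul continuousAt_id
    have h4 : ∀ᶠ c' in 𝓝 (T a), T' c' ∈ ball (T' (T a)) δ := hcont (ball_mem_nhds _ hδ)
    have h5 : ∀ᶠ c' in 𝓝 (T a), (0 : ℝ) < 1 + inner ℝ c' z := by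
      have h6 : ContinuousAt (fun c' : E3 => 1 + inner ℝ c' z) (T a) := by fun_prop
      exact h6.eventually (lt_mem_nhds (hTpos a ha))
    obtain ⟨ε, hε, h6⟩ := Metric.eventually_nhds_iff_ball.1 (h4.and h5)
    refine ⟨ε, hε, fun c' hc' => ?_⟩
    obtain ⟨h7, h8⟩ := h6 c' (by rwa [mem_ball_iff_norm])
    rw [hT'T a ha, mem_ball_iff_norm] at h7
    have h9 := h3 _ h7
    rw [hpoly, hpolyR a ha c' h8]
    have h10 : symmDiff ((fun x => x + z) ⁻¹' poly A') ((fun x => x + z) ⁻¹' polyR A' a (T' c')) =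
        (fun x => x + z) ⁻¹' (symmDiff (poly A') (polyR A' a (T' c'))) := rfl
    rw [h10, center_Dmax, center_Dmax, center_vol, center_vol, center_vol]
    have h11 : min κ₁ (η / 2) * volume.real (symmDiff (poly A') (polyR A' a (T' c'))) ≤
        η * volume.real (symmDiff (poly A') (polyR A' a (T' c'))) :=
      mul_le_mul_of_nonneg_right (by linarith) measureReal_nonneg
    linarith

end Pool.Agent.Lib.MP_43065d_gt
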