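import Pool.Agent.Lib.MP_43065d_gt.Defs

/-!
# Module Chart: charts adapted to a facet and polar integration

`IsChart a S` : `S : (E2 × ℝ) ≃L[ℝ] E3` with `⟪a, S (y, t)⟫ = t`.  `jac S` is the factor by which `S` multiplies
volumes.
-/

open MeasureTheory Set Filter Topology Metric
open scoped ENNReal NNReal Pointwise

namespace Pool.Agent.Lib.MP_43065d_gt

noncomputable def jac (S : (E2 × ℝ) ≃L[ℝ] E3) : ℝ :=
  (volume (S '' closedBall 0 1) / volume (closedBall (0 : E2 × ℝ) 1)).toReal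

theorem exists_chart {a : E3} (ha : a ≠ 0) : ∃ S : (E2 × ℝ) ≃L[ℝ] E3, IsChart a S := by
  have hfin : Module.finrank ℝ (ℝ ∙ a)ᗮ = 2 := by
    have h1 : Module.finrank ℝ E3 = 2 + 1 := by simp
    have h2 : Fact (Module.finrank ℝ E3 = 2 + 1) := ⟨h1⟩
    exact Submodule.finrank_orthogonal_span_singleton ha
  let φ : E2 ≃ₗᵢ[ℝ] (ℝ ∙ a)ᗮ :=
    ((stdOrthonormalBasis ℝ (ℝ ∙ a)ᗮ).reindex (finCongr hfin)).repr.symm
  have hn : ‖a‖ ^ 2 ≠ 0 := pow_ne_zero 2 (norm_ne_zero_iff.mpr ha)
  let T : (E2 × ℝ) →ₗ[ℝ] E3 :=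
    ((ℝ ∙ a)ᗮ.subtype ∘ₗ φ.toLinearEquiv.toLinearMap).coprod
      (LinearMap.toSpanSingleton ℝ E3 ((‖a‖ ^ 2)⁻¹ • a))
  have hT : ∀ y t, T (y, t) = ((φ y : (ℝ ∙ a)ᗮ) : E3) + t • ((‖a‖ ^ 2)⁻¹ • a) := by
    intro y t
    rfl
  have hin : ∀ y t, inner ℝ a (T (y, t)) = t := by
    intro y t
    rw [hT, inner_add_right]
    have h1 : inner ℝ a ((φ y : (ℝ ∙ a)ᗮ) : E3) = 0 :=
      Submodule.mem_orthogonal_singleton_iff_inner_right.mp (φ y).2
    rw [h1, zero_add, inner_smul_right, inner_smul_right, real_inner_self_eq_norm_sq,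
      inv_mul_cancel₀ hn, mul_one]
  have hinj : Function.Injective T := by
    rw [← LinearMap.ker_eq_bot, LinearMap.ker_eq_bot']
    rintro ⟨y, t⟩ h0
    have ht : t = 0 := by
      have := hin y t
      rw [h0, inner_zero_right] at this
      exact this.symm
    subst ht
    rw [hT, zero_smul, add_zero] at h0
    have h1 : φ y = 0 := by
      apply Subtype.ext
      simpa using h0
    have h2 : y = 0 := by
      simpa using h1
    rw [h2]
    rfl
  have hfr : Module.finrank ℝ (E2 × ℝ) = Module.finrank ℝ E3 := by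
    simp
  let S := (LinearEquiv.ofInjectiveOfFinrankEq T hinj hfr)
  exact ⟨S.toContinuousLinearEquiv, fun y t => hin y t⟩

theorem jac_spec (S : (E2 × ℝ) ≃L[ℝ] E3) : 0 < jac S ∧
    (∀ B : Set (E2 × ℝ), volume (S '' B) = ENNReal.ofReal (jac S) * volume B) ∧
    ∀ f : E3 → ℝ≥0∞, Measurable f → ∫⁻ x, f x = ENNReal.ofReal (jac S) * ∫⁻ p, f (S p) := by
  have h1 : (Measure.map S.symm (volume : Measure E3)).IsAddHaarMeasure :=
    S.symm.isAddHaarMeasure_map _
  have h2 : (volume : Measure (E2 × ℝ)).IsAddHaarMeasure := by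
    rw [Measure.volume_eq_prod]; infer_instance
  have h3 := Measure.isAddLeftInvariant_eq_smul (Measure.map S.symm (volume : Measure E3))
    (volume : Measure (E2 × ℝ))
  set c := Measure.addHaarScalarFactor (Measure.map S.symm (volume : Measure E3))
    (volume : Measure (E2 × ℝ)) with hc
  have hc0 : 0 < c := Measure.addHaarScalarFactor_pos_of_isAddHaarMeasure _ _
  have himg : ∀ B : Set (E2 × ℝ), volume (S '' B) = c * volume B := by
    intro B
    have h4 : Measure.map S.symm (volume : Measure E3) B = volume (S '' B) := by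
      have := S.symm.toHomeomorph.toMeasurableEquiv.map_apply (μ := (volume : Measure E3)) B
      rw [ContinuousLinearEquiv.image_eq_preimage_symm]
      exact this
    rw [← h4, h3]
    rfl
  have hb0 : volume (closedBall (0 : E2 × ℝ) 1) ≠ 0 :=
    (measure_closedBall_pos volume 0 one_pos).ne'
  have hbt : volume (closedBall (0 : E2 × ℝ) 1) ≠ ∞ := measure_closedBall_lt_top.ne
  have hj : jac S = c := by
    unfold jac
    rw [himg, ENNReal.mul_div_cancel_right hb0 hbt]
    rfl
  have hj' : ENNReal.ofReal (jac S) = c := by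
    rw [hj]; simp
  refine ⟨by rw [hj]; exact_mod_cast hc0, fun B => by rw [hj', himg], ?_⟩
  intro f hf
  have h5 : ∫⁻ p, f (S p) ∂(Measure.map S.symm (volume : Measure E3)) = ∫⁻ x, f x := by
    have h6 : Measurable (fun p : E2 × ℝ => f (S p)) := hf.comp S.continuous.measurable
    rw [lintegral_map h6 S.symm.continuous.measurable]
    simp
  rw [← h5, h3, hj']
  rw [lintegral_smul_measure]
  rfl

theorem chart_polar {a : E3} {S : (E2 × ℝ) ≃L[ℝ] E3} (hS : IsChart a S) {f : E3 → ℝ≥0∞}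
    (hf : Measurable f) :
    ∫⁻ x in {x | 0 < inner ℝ a x}, f x = ENNReal.ofReal (jac S) *
      ∫⁻ y : E2, ∫⁻ t in Ioi (0 : ℝ), ENNReal.ofReal (t ^ 2) * f (S (t • y, t)) := by
  have hm : MeasurableSet {x : E3 | 0 < inner ℝ a x} :=
    (isOpen_lt continuous_const (by fun_prop)).measurableSet
  rw [← lintegral_indicator hm, (jac_spec S).2.2 _ (hf.indicator hm)]
  congr 1
  have hfS : Measurable (fun p : E2 × ℝ => f (S p)) := hf.comp S.continuous.measurable
  have e1 : ∀ p : E2 × ℝ, ({x : E3 | 0 < inner ℝ a x}.indicator f) (S p) =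
      (Ioi (0 : ℝ)).indicator (fun _ => f (S p)) p.2 := by
    rintro ⟨y, t⟩
    by_cases ht : 0 < t
    · rw [indicator_of_mem, indicator_of_mem]
      · exact ht
      · rw [mem_ofPred_eq, hS]; exact ht
    · rw [indicator_of_notMem, indicator_of_notMem]
      · exact ht
      · rw [mem_ofPred_eq, hS]; exact ht
  have hg : Measurable (fun p : E2 × ℝ => (Ioi (0 : ℝ)).indicator (fun _ => f (S p)) p.2) := by
    have : (fun p : E2 × ℝ => (Ioi (0 : ℝ)).indicator (fun _ => f (S p)) p.2) =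
        (Prod.snd ⁻¹' (Ioi (0 : ℝ))).indicator (fun p => f (S p)) := by
      ext p
      by_cases hp : p.2 ∈ Ioi (0 : ℝ)
      · rw [indicator_of_mem hp, indicator_of_mem (show p ∈ Prod.snd ⁻¹' (Ioi (0 : ℝ)) from hp)]
      · rw [indicator_of_notMem hp,
          indicator_of_notMem (show p ∉ Prod.snd ⁻¹' (Ioi (0 : ℝ)) from hp)]
    rw [this]
    exact hfS.indicator (measurable_snd measurableSet_Ioi)
  simp_rw [e1]
  rw [Measure.volume_eq_prod, lintegral_prod_symm' _ hg]
  have hk : Measurable (fun p : E2 × ℝ => ENNReal.ofReal (p.2 ^ 2) * f (S (p.2 • p.1, p.2))) := by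
    refine Measurable.mul (by fun_prop) (hf.comp (S.continuous.measurable.comp (by fun_prop)))
  have hR : ∫⁻ y : E2, ∫⁻ t in Ioi (0 : ℝ), ENNReal.ofReal (t ^ 2) * f (S (t • y, t)) =
      ∫⁻ t in Ioi (0 : ℝ), ∫⁻ y : E2, ENNReal.ofReal (t ^ 2) * f (S (t • y, t)) :=
    lintegral_lintegral_swap hk.aemeasurable
  rw [hR, ← lintegral_indicator measurableSet_Ioi]
  refine lintegral_congr fun t => ?_
  by_cases ht : 0 < t
  · rw [indicator_of_mem (show t ∈ Ioi (0 : ℝ) from ht)]
    simp_rw [indicator_of_mem (show t ∈ Ioi (0 : ℝ) from ht)]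
    have hfy : Measurable (fun y : E2 => f (S (t • y, t))) :=
      hf.comp (S.continuous.measurable.comp (by fun_prop))
    rw [lintegral_const_mul _ hfy]
    have h6 : ∫⁻ y : E2, f (S (t • y, t)) =
        ∫⁻ y, f (S (y, t)) ∂(Measure.map (t • ·) (volume : Measure E2)) := by
      have h8 : Measurable (fun y : E2 => f (S (y, t))) :=
        hf.comp (S.continuous.measurable.comp (by fun_prop))
      rw [lintegral_map h8 (measurable_const_smul t)]
    rw [h6, Measure.map_addHaar_smul _ ht.ne', lintegral_smul_measure, smul_eq_mul, ← mul_assoc,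
      ← ENNReal.ofReal_mul (by positivity)]
    have h7 : t ^ 2 * |(t ^ Module.finrank ℝ E2)⁻¹| = 1 := by
      have : Module.finrank ℝ E2 = 2 := by simp
      rw [this, abs_of_pos (by positivity)]
      field_simp
    rw [h7, ENNReal.ofReal_one, one_mul]
  · rw [indicator_of_notMem (show t ∉ Ioi (0 : ℝ) from ht)]
    simp_rw [indicator_of_notMem (show t ∉ Ioi (0 : ℝ) from ht)]
    simp

end Pool.Agent.Lib.MP_43065d_gt
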