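import Pool.Agent.Lib.MP_43065d_gt.Defs

/-!
# Module Norm: affine normalisation of convex bodies (any dimension)

STATEMENT.  For every `n` there is `ρ ≥ 1` such that every convex body `K` in `EuclideanSpace ℝ (Fin n)`
has an affine image between `closedBall 0 1` and `closedBall 0 ρ`.

PROOF.  The continuous function `(v_0, …, v_n) ↦ |det (v_1 - v_0, …, v_n - v_0)|` on the compact set `K^(n+1)` attains
its maximum, which is positive because `K` has interior.  Let `L₀` be the linear isomorphism with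
`L₀ (v_i - v_0) = e_i` (standard basis) and `K₁ = L₀ (K - v_0)`.  Then `0, e_1, …, e_n ∈ K₁` and `|det|` of
any `n + 1` points of `K₁` is at most `1`.  For `x ∈ K₁` replace the vertex `e_i` by `x`: the determinant
of `(e_1, …, x, …, e_n)` is `x_i`, so `|x_i| ≤ 1`.  Hence `‖x‖ ≤ n` for `x ∈ K₁`.  On the other hand `K₁` contains the
simplex `conv(0, e_1, …, e_n)`, which contains the ball with center `c = (1/(n+1)) (1, …, 1)` and radius `r_n > 0`
depending only on `n` (for instance `r_n = 1/(2 (n+1)^2)`: if `‖x - c‖ ≤ r_n` then all `x_i ≥ 0` and `∑ x_i ≤ 1`).  So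
`x ↦ (x - c)/r_n` maps `K₁` to a set between `closedBall 0 1` and `closedBall 0 ((n + 1)/r_n)`.
(`Matrix.det`, `Matrix.det_updateCol`/`cramer`, or use `Basis.det` with `Basis.det_...`; an
alternative without determinants: maximise the volume of the convex hull.)
(`n = 0` is trivial: everything is `{0}`.)
-/

open MeasureTheory Set Filter Topology Metric
open scoped ENNReal NNReal Pointwise

namespace Pool.Agent.Lib.MP_43065d_gt

private theorem norm_det_update {n : ℕ} {E : Type*} [AddCommGroup E] [Module ℝ E]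
    (B : Module.Basis (Fin n) ℝ E) (i : Fin n) (y : E) :
    B.det (Function.update B i y) = B.repr y i := by
  rw [Module.Basis.det_apply, Module.Basis.toMatrix_update, Module.Basis.toMatrix_self,
    ← Matrix.cramer_apply, Matrix.cramer_one]
  rfl

private theorem norm_simplex {n : ℕ} (K : Set (EuclideanSpace ℝ (Fin n))) (hK : IsBody K) :
    ∃ (L : EuclideanSpace ℝ (Fin n) ≃ₗ[ℝ] EuclideanSpace ℝ (Fin n))
      (v₀ : EuclideanSpace ℝ (Fin n)), v₀ ∈ K ∧
      (∀ i, ∃ w ∈ K, L (w - v₀) = EuclideanSpace.single i 1) ∧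
      ∀ x ∈ K, ∀ i, |(L (x - v₀)) i| ≤ 1 := by
  set b : Module.Basis (Fin n) ℝ (EuclideanSpace ℝ (Fin n)) :=
    (EuclideanSpace.basisFun (Fin n) ℝ).toBasis with hb
  have hbe : ∀ i, b i = EuclideanSpace.single i 1 := by
    intro i
    rw [hb, OrthonormalBasis.coe_toBasis, EuclideanSpace.basisFun_apply]
  have hbr : ∀ (x : EuclideanSpace ℝ (Fin n)) i, b.repr x i = x i := by
    intro x i
    rw [hb, OrthonormalBasis.coe_toBasis_repr_apply, EuclideanSpace.basisFun_repr]
  let f : EuclideanSpace ℝ (Fin n) × (Fin n → EuclideanSpace ℝ (Fin n)) → ℝ :=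
    fun p => |b.det (fun i => p.2 i - p.1)|
  have hf : Continuous f := by
    refine continuous_abs.comp ?_
    simp only [Module.Basis.det_apply]
    refine Continuous.matrix_det (continuous_matrix fun i j => ?_)
    simp only [Module.Basis.toMatrix_apply, hbr]
    fun_prop
  have hcomp : IsCompact (K ×ˢ (Set.pi univ fun _ : Fin n => K)) :=
    hK.isCompact.prod (isCompact_univ_pi fun _ => hK.isCompact)
  obtain ⟨p, hp⟩ := hK.interior_nonempty
  have hpK : p ∈ K := interior_subset hp
  obtain ⟨r, hr, hrK⟩ := Metric.isOpen_iff.1 isOpen_interior p hp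
  have hne : (K ×ˢ (Set.pi univ fun _ : Fin n => K)).Nonempty :=
    ⟨(p, fun _ => p), hpK, fun _ _ => hpK⟩
  obtain ⟨⟨v₀, w⟩, ⟨hv₀, hw⟩, hmax⟩ := hcomp.exists_isMaxOn hne hf.continuousOn
  have hw' : ∀ i, w i ∈ K := fun i => hw i (mem_univ i)
  have hv₀' : v₀ ∈ K := hv₀
  -- the maximum is positive
  have hpos : 0 < f (v₀, w) := by
    have hmem : (p, fun i => p + (r / 2) • b i) ∈ K ×ˢ (Set.pi univ fun _ : Fin n => K) := by
      refine ⟨hpK, fun i _ => interior_subset (hrK ?_)⟩
      rw [Metric.mem_ball, dist_eq_norm, add_sub_cancel_left, norm_smul, hbe,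
        PiLp.norm_single, Real.norm_of_nonneg (by positivity)]
      simp only [norm_one, mul_one]
      linarith
    have h1 : f (p, fun i => p + (r / 2) • b i) ≤ f (v₀, w) := hmax hmem
    refine lt_of_lt_of_le ?_ h1
    have h2 : (fun i => (p + (r / 2) • b i) - p) = fun i => (r / 2) • b i := by
      funext i
      rw [add_sub_cancel_left]
    show 0 < |b.det (fun i => (p + (r / 2) • b i) - p)|
    rw [h2, AlternatingMap.map_smul_univ, Module.Basis.det_self]
    have h3 : (∏ _i : Fin n, (r / 2)) • (1 : ℝ) ≠ 0 := by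
      rw [smul_eq_mul, mul_one]
      exact Finset.prod_ne_zero_iff.2 fun _ _ => (by positivity)
    exact abs_pos.2 h3
  have hunit : IsUnit (b.det fun i => w i - v₀) := by
    have h1 : (b.det fun i => w i - v₀) ≠ 0 := abs_pos.1 hpos
    exact isUnit_iff_ne_zero.2 h1
  obtain ⟨hli, hspan⟩ := (b.is_basis_iff_det).2 hunit
  let B : Module.Basis (Fin n) ℝ (EuclideanSpace ℝ (Fin n)) := Module.Basis.mk hli hspan.ge
  have hB : ∀ i, B i = w i - v₀ := fun i => Module.Basis.mk_apply _ _ i
  have hBf : (B : Fin n → EuclideanSpace ℝ (Fin n)) = fun i => w i - v₀ := funext hB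
  refine ⟨B.equiv b (Equiv.refl _), v₀, hv₀', fun i => ⟨w i, hw' i, ?_⟩, fun x hx i => ?_⟩
  · rw [← hB i, Module.Basis.equiv_apply, Equiv.refl_apply, hbe]
  · have h1 : (B.equiv b (Equiv.refl _) (x - v₀)) i = B.repr (x - v₀) i := by
      rw [← hbr]
      conv_lhs => rw [← B.sum_repr (x - v₀)]
      rw [map_sum]
      simp only [map_smul, Module.Basis.equiv_apply, Equiv.refl_apply]
      rw [Module.Basis.repr_sum_self]
    rw [h1]
    have hmem : (v₀, Function.update w i x) ∈ K ×ˢ (Set.pi univ fun _ : Fin n => K) := by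
      refine ⟨hv₀', fun j _ => ?_⟩
      show Function.update w i x j ∈ K
      by_cases hj : j = i
      · subst hj; rw [Function.update_self]; exact hx
      · rw [Function.update_of_ne hj]; exact hw' j
    have h2 : f (v₀, Function.update w i x) ≤ f (v₀, w) := hmax hmem
    have h3 : (fun j => Function.update w i x j - v₀) = Function.update (B : Fin n → _) i (x - v₀) := by
      funext j
      by_cases hj : j = i
      · subst hj; rw [Function.update_self, Function.update_self]
      · rw [Function.update_of_ne hj, Function.update_of_ne hj, hB]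
    have h4 : b.det (Function.update (B : Fin n → _) i (x - v₀)) =
        b.det B * B.repr (x - v₀) i := by
      have h5 := AlternatingMap.eq_smul_basis_det B b.det
      have h6 : b.det (Function.update (B : Fin n → _) i (x - v₀)) =
          (b.det B • B.det) (Function.update (B : Fin n → _) i (x - v₀)) := by
        rw [← h5]
      rw [h6, AlternatingMap.smul_apply, norm_det_update, smul_eq_mul]
    have h7 : |b.det B| * |B.repr (x - v₀) i| ≤ |b.det B| := by
      rw [← abs_mul, ← h4, ← h3]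
      rw [hBf]
      exact h2
    have h8 : 0 < |b.det B| := by rw [hBf]; exact hpos
    nlinarith [h7, h8]

theorem exists_normalization (n : ℕ) : ∃ ρ : ℝ, 1 ≤ ρ ∧
    ∀ K : Set (EuclideanSpace ℝ (Fin n)), IsBody K →
      ∃ (L : EuclideanSpace ℝ (Fin n) ≃L[ℝ] EuclideanSpace ℝ (Fin n))
        (v : EuclideanSpace ℝ (Fin n)),
        closedBall 0 1 ⊆ (fun x => L x + v) '' K ∧ (fun x => L x + v) '' K ⊆ closedBall 0 ρ := by
  have hn0 : (0 : ℝ) ≤ n := Nat.cast_nonneg n
  set N : ℝ := (n : ℝ) + 1 with hN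
  have hN1 : 1 ≤ N := by linarith
  have hN0 : 0 < N := by linarith
  refine ⟨4 * N ^ 3, by nlinarith [pow_le_pow_left₀ (by norm_num : (0:ℝ) ≤ 1) hN1 3], fun K hK => ?_⟩
  obtain ⟨L₀, v₀, hv₀, hwit, hbd⟩ := norm_simplex K hK
  choose w hwK hwe using hwit
  set s : ℝ := 2 * N ^ 2 with hs
  have hs0 : 0 < s := by positivity
  let c : EuclideanSpace ℝ (Fin n) := WithLp.toLp 2 fun _ => N⁻¹
  have hc : ∀ i, c i = N⁻¹ := fun i => rfl
  let L : EuclideanSpace ℝ (Fin n) ≃ₗ[ℝ] EuclideanSpace ℝ (Fin n) :=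
    L₀.trans (LinearEquiv.smulOfUnit (Units.mk0 s hs0.ne'))
  have hL : ∀ x, L x = s • L₀ x := fun x => rfl
  have hform : ∀ x, L.toContinuousLinearEquiv x + (-(s • (L₀ v₀ + c))) = s • (L₀ (x - v₀) - c) := by
    intro x
    have h1 : L.toContinuousLinearEquiv x = s • L₀ x := rfl
    rw [h1, map_sub]
    module
  refine ⟨L.toContinuousLinearEquiv, -(s • (L₀ v₀ + c)), ?_, ?_⟩
  · intro y hy
    have hyn : ‖y‖ ≤ 1 := by simpa using hy
    have hyi : ∀ i, |y i| ≤ 1 := by
      intro i
      have h1 := PiLp.norm_apply_le y i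
      rw [Real.norm_eq_abs] at h1
      exact h1.trans hyn
    -- the coordinates of the point
    let z : Fin n → ℝ := fun i => N⁻¹ + s⁻¹ * y i
    have hsinv : s⁻¹ ≤ N⁻¹ := by
      rw [hs]
      exact inv_anti₀ hN0 (by nlinarith)
    have hz0 : ∀ i, 0 ≤ z i := by
      intro i
      have h1 := (abs_le.1 (hyi i)).1
      have h2 : 0 < s⁻¹ := inv_pos.2 hs0
      show 0 ≤ N⁻¹ + s⁻¹ * y i
      nlinarith
    have hz1 : ∑ i, z i ≤ 1 := by
      have h1 : ∀ i, z i ≤ N⁻¹ + s⁻¹ := by
        intro i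
        have h1 := (abs_le.1 (hyi i)).2
        have h2 : 0 < s⁻¹ := inv_pos.2 hs0
        show N⁻¹ + s⁻¹ * y i ≤ N⁻¹ + s⁻¹
        nlinarith
      calc ∑ i, z i ≤ ∑ _i : Fin n, (N⁻¹ + s⁻¹) := Finset.sum_le_sum fun i _ => h1 i
        _ = n * (N⁻¹ + s⁻¹) := by simp; ring
        _ ≤ 1 := by
          have h2 : (n : ℝ) = N - 1 := by rw [hN]; ring
          rw [h2, hs]
          have h3 : (N - 1) * (N⁻¹ + (2 * N ^ 2)⁻¹) = (N - 1) * (2 * N + 1) / (2 * N ^ 2) := by
            field_simp
          rw [h3, div_le_one (by positivity)]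
          nlinarith
    refine ⟨v₀ + ∑ i, z i • (w i - v₀), ?_, ?_⟩
    · let q : Option (Fin n) → EuclideanSpace ℝ (Fin n) := fun o => o.elim v₀ w
      let a : Option (Fin n) → ℝ := fun o => o.elim (1 - ∑ i, z i) z
      have h1 : ∑ o, a o • q o = v₀ + ∑ i, z i • (w i - v₀) := by
        rw [Fintype.sum_option]
        simp only [a, q, Option.elim_none, Option.elim_some, smul_sub, Finset.sum_sub_distrib,
          ← Finset.sum_smul]
        module
      rw [← h1]
      refine hK.convex.sum_mem ?_ ?_ ?_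
      · rintro (_ | i) _
        · simp only [a, Option.elim_none]; linarith
        · exact hz0 i
      · rw [Fintype.sum_option]
        simp only [a, Option.elim_none, Option.elim_some]
        ring
      · rintro (_ | i) _
        · exact hv₀
        · exact hwK i
    · show L.toContinuousLinearEquiv (v₀ + ∑ i, z i • (w i - v₀)) + (-(s • (L₀ v₀ + c))) = y
      rw [hform, add_sub_cancel_left, map_sum]
      simp only [map_smul, hwe]
      have h1 : ∑ i, z i • EuclideanSpace.single i (1 : ℝ) = c + s⁻¹ • y := by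
        ext j
        rw [PiLp.add_apply, PiLp.smul_apply, hc]
        have h2 : (∑ i, z i • EuclideanSpace.single i (1 : ℝ)) j =
            ∑ i, z i * (if j = i then 1 else 0) := by
          rw [WithLp.ofLp_sum, Finset.sum_apply]
          refine Finset.sum_congr rfl fun i _ => ?_
          rw [PiLp.smul_apply, smul_eq_mul, EuclideanSpace.single_apply]
        rw [h2]
        simp only [mul_ite, mul_one, mul_zero, Finset.sum_ite_eq, Finset.mem_univ, if_true]
        rfl
      rw [h1, add_sub_cancel_left, smul_smul, mul_inv_cancel₀ hs0.ne', one_smul]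
  · rintro _ ⟨x, hx, rfl⟩
    show L.toContinuousLinearEquiv x + (-(s • (L₀ v₀ + c))) ∈ closedBall 0 (4 * N ^ 3)
    rw [hform, mem_closedBall_zero_iff, norm_smul, Real.norm_of_nonneg hs0.le]
    have h1 : ‖L₀ (x - v₀) - c‖ ≤ 2 * N := by
      have h2 : ‖L₀ (x - v₀) - c‖ ^ 2 ≤ (2 * N) ^ 2 := by
        rw [EuclideanSpace.norm_sq_eq]
        have h3 : ∀ i, ‖(L₀ (x - v₀) - c) i‖ ^ 2 ≤ 4 := by
          intro i
          have h4 := abs_le.1 (hbd x hx i)
          have h5 : (L₀ (x - v₀) - c) i = (L₀ (x - v₀)) i - N⁻¹ := rfl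
          have h6 : 0 < N⁻¹ := inv_pos.2 hN0
          have h7 : N⁻¹ ≤ 1 := inv_le_one_of_one_le₀ hN1
          rw [h5, Real.norm_eq_abs, sq_abs]
          nlinarith
        calc ∑ i, ‖(L₀ (x - v₀) - c) i‖ ^ 2 ≤ ∑ _i : Fin n, (4 : ℝ) :=
              Finset.sum_le_sum fun i _ => h3 i
          _ = n * 4 := by simp
          _ ≤ (2 * N) ^ 2 := by rw [hN]; nlinarith
      exact le_of_sq_le_sq h2 (by positivity)
    calc s * ‖L₀ (x - v₀) - c‖ ≤ s * (2 * N) := mul_le_mul_of_nonneg_left h1 hs0.le
      _ = 4 * N ^ 3 := by rw [hs]; ring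

end Pool.Agent.Lib.MP_43065d_gt
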