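import Pool.Agent.Lib.MP_43065d_gt.Decomp
import Pool.Agent.Lib.MP_43065d_gt.Norm

/-!
# Module ChartNorm: normalised charts of facets
-/

open MeasureTheory Set Filter Topology Metric
open scoped ENNReal NNReal Pointwise

namespace Pool.Agent.Lib.MP_43065d_gt

/-- The shear `(y, t) ↦ (L.symm (y - t • v), t)`. -/
private noncomputable def chartNormShear (L : E2 ≃L[ℝ] E2) (v : E2) :
    (E2 × ℝ) ≃L[ℝ] (E2 × ℝ) where
  toFun p := (L.symm (p.1 - p.2 • v), p.2)
  invFun p := (L p.1 + p.2 • v, p.2)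
  map_add' p q := by
    ext1
    · simp only [Prod.fst_add, Prod.snd_add, ← map_add]
      congr 1
      rw [add_smul]; abel
    · rfl
  map_smul' c p := by
    ext1
    · simp only [Prod.smul_fst, Prod.smul_snd, smul_eq_mul, RingHom.id_apply, ← map_smul]
      congr 1
      rw [smul_sub, mul_smul]
    · rfl
  left_inv p := by
    ext1
    · simp
    · rfl
  right_inv p := by
    ext1
    · simp
    · rfl
  continuous_toFun := by
    show Continuous fun p : E2 × ℝ => (L.symm (p.1 - p.2 • v), p.2)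
    fun_prop
  continuous_invFun := by
    show Continuous fun p : E2 × ℝ => (L p.1 + p.2 • v, p.2)
    fun_prop

theorem exists_normal_chart : ∃ ρ : ℝ, 1 ≤ ρ ∧
    ∀ (A : Finset E3) (r R : ℝ), 0 < r → closedBall 0 r ⊆ poly A → poly A ⊆ closedBall 0 R →
      ∀ a ∈ A, 0 < volume.real (poly A ∩ sector A a) →
        ∃ S : (E2 × ℝ) ≃L[ℝ] E3, IsChart a S ∧ closedBall 0 1 ⊆ facet (poly A) S ∧
          facet (poly A) S ⊆ closedBall 0 ρ ∧
          ∀ (y : E2) (t : ℝ), ‖S (y, t)‖ ≤ R * (‖y‖ + |t|) := by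
  obtain ⟨ρ, hρ, hn⟩ := exists_normalization 2
  refine ⟨ρ, hρ, ?_⟩
  intro A r R hr h1 h2 a ha hv
  have hane : a ≠ 0 := by
    rintro rfl
    have h3 : poly A ∩ sector A 0 ⊆ {0} := by
      rintro x ⟨-, hx⟩
      by_contra h
      obtain ⟨c, hc, hpos⟩ := poly_pos h2 (show x ≠ 0 from h)
      have h4 := hx c hc
      rw [inner_zero_left] at h4
      linarith
    have h0 : volume.real (poly A ∩ sector A 0) = 0 := by
      have h4 : volume (poly A ∩ sector A 0) = 0 := measure_mono_null h3 (measure_singleton _)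
      rw [measureReal_def, h4]; rfl
    linarith
  obtain ⟨S₀, hS₀⟩ := exists_chart hane
  obtain ⟨hc, hconv, -⟩ := facet_facts hr h1 h2 ha hS₀
  have hsv := (sector_chart hr h1 h2 ha hS₀).1
  have hFpos : 0 < volume.real (facet (poly A) S₀) := by
    by_contra h
    have h4 : volume.real (facet (poly A) S₀) = 0 := le_antisymm (not_lt.mp h) measureReal_nonneg
    rw [h4, mul_zero] at hsv
    linarith
  have hint : (interior (facet (poly A) S₀)).Nonempty := by
    by_contra h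
    rw [not_nonempty_iff_eq_empty] at h
    have h5 : facet (poly A) S₀ ⊆ frontier (facet (poly A) S₀) := by
      intro y hy
      refine ⟨subset_closure hy, ?_⟩
      rw [h]; exact notMem_empty _
    have h6 : volume (facet (poly A) S₀) = 0 :=
      measure_mono_null h5 (hconv.addHaar_frontier volume)
    rw [measureReal_def, h6] at hFpos
    exact lt_irrefl _ hFpos
  obtain ⟨L, v, hL1, hL2⟩ := hn (facet (poly A) S₀) ⟨hconv, hc, hint⟩
  let S : (E2 × ℝ) ≃L[ℝ] E3 := (chartNormShear L v).trans S₀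
  have hS : ∀ y t, S (y, t) = S₀ (L.symm (y - t • v), t) := fun y t => rfl
  have hmem : ∀ y, y ∈ facet (poly A) S ↔ L.symm (y - v) ∈ facet (poly A) S₀ := by
    intro y
    show S (y, 1) ∈ poly A ↔ S₀ (L.symm (y - v), 1) ∈ poly A
    rw [hS, one_smul]
  have hb1 : closedBall 0 1 ⊆ facet (poly A) S := by
    intro y hy
    obtain ⟨x, hx, hxy⟩ := hL1 hy
    rw [hmem, ← hxy]
    simpa using hx
  have hb2 : facet (poly A) S ⊆ closedBall 0 ρ := by
    intro y hy
    rw [hmem] at hy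
    apply hL2
    exact ⟨_, hy, by simp⟩
  refine ⟨S, fun y t => by rw [hS, hS₀], hb1, hb2, ?_⟩
  -- bounds
  have hnorm1 : ∀ y : E2, ‖y‖ ≤ 1 → ‖S (y, 1)‖ ≤ R := by
    intro y hy
    have h3 : y ∈ facet (poly A) S := hb1 (mem_closedBall_zero_iff.mpr hy)
    exact mem_closedBall_zero_iff.mp (h2 h3)
  have hnorm0 : ∀ y : E2, ‖y‖ ≤ 1 → ‖S (y, 0)‖ ≤ R := by
    intro y hy
    have h3 : (2 : ℝ) • S (y, 0) = S (y, 1) - S (-y, 1) := by
      rw [← map_sub, ← map_smul]
      congr 1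
      ext1
      · simp [two_smul]
      · simp
    have h4 : 2 * ‖S (y, 0)‖ ≤ R + R := by
      calc 2 * ‖S (y, 0)‖ = ‖(2 : ℝ) • S (y, 0)‖ := by rw [norm_smul]; simp
        _ = ‖S (y, 1) - S (-y, 1)‖ := by rw [h3]
        _ ≤ ‖S (y, 1)‖ + ‖S (-y, 1)‖ := norm_sub_le _ _
        _ ≤ R + R := add_le_add (hnorm1 y hy) (hnorm1 (-y) (by rwa [norm_neg]))
    linarith
  have hlin : ∀ y : E2, ‖S (y, 0)‖ ≤ R * ‖y‖ := by
    intro y
    rcases eq_or_ne y 0 with rfl | hy
    · have : S ((0 : E2), (0 : ℝ)) = 0 := map_zero S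
      rw [this]; simp
    · have hyn : ‖y‖ ≠ 0 := norm_ne_zero_iff.mpr hy
      have h3 : S (y, 0) = ‖y‖ • S (‖y‖⁻¹ • y, 0) := by
        rw [← map_smul]
        congr 1
        ext1
        · simp [smul_smul, mul_inv_cancel₀ hyn]
        · simp
      have h4 : ‖S (‖y‖⁻¹ • y, 0)‖ ≤ R := by
        apply hnorm0
        rw [norm_smul, norm_inv, norm_norm, inv_mul_cancel₀ hyn]
      rw [h3, norm_smul, norm_norm, mul_comm]
      exact mul_le_mul_of_nonneg_right h4 (norm_nonneg y)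
  intro y t
  have h3 : S (y, t) = S (y, 0) + t • S (0, 1) := by
    rw [← map_smul, ← map_add]
    congr 1
    ext1
    · simp
    · simp
  have h4 : ‖S ((0 : E2), (1 : ℝ))‖ ≤ R := hnorm1 0 (by simp)
  calc ‖S (y, t)‖ ≤ ‖S (y, 0)‖ + ‖t • S (0, 1)‖ := by rw [h3]; exact norm_add_le _ _
    _ ≤ R * ‖y‖ + |t| * R := by
        rw [norm_smul, Real.norm_eq_abs]
        exact add_le_add (hlin y) (mul_le_mul_of_nonneg_left h4 (abs_nonneg t))
    _ = R * (‖y‖ + |t|) := by ring

end Pool.Agent.Lib.MP_43065d_gt
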