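import Pool.Agent.Lib.MP_43065d_gt.Defs

/-!
# Module Compact: compactness of families of convex sets through their gauges

PROOF of `exists_subseq_lipschitz`.  Let `D` be a countable dense sequence `d_0, d_1, …` of `E`.  The points
`(f j (d_i))_i` lie in the compact set `∏_i [-(M + L ‖d_i‖), M + L ‖d_i‖]` of `ℕ → ℝ` (`isCompact_univ_pi`), so a
subsequence converges for every `i` (`IsCompact.tendsto_subseq`, `ℕ → ℝ` is metrizable).  By the uniform Lipschitz
bound the subsequence converges at every point of `E` (Cauchy), and the limit is `L`-Lipschitz.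

PROOF of `exists_subseq_body`.  `closedBall 0 r ⊆ K j` shows that `gauge (K j)` is `1/r`-Lipschitz
(`Convex.lipschitzWith_gauge`) with value `0` at `0`.  Take a subsequence with limit function `g`.  `g` is
subadditive, positively homogeneous and `‖x‖ / R ≤ g x ≤ ‖x‖ / r` (`le_gauge_of_subset_closedBall`,
`mul_gauge_le_norm`).  Let `K' = {x | g x ≤ 1}`: closed, convex, between the two balls, and
`gauge K' x = g x`: for `t > 0`, `x ∈ t • K' ⇔ g x ≤ t`.

PROOF of `indicator_tendsto`.  If `gauge K' x < 1` then eventually `gauge (K j) x < 1`, so `x ∈ K j`; if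
`gauge K' x > 1`, eventually `x ∉ K j`; and `{gauge K' = 1} = frontier K'` is null.
(`K j` closed with `0` in the interior: `x ∈ K j ⇔ gauge (K j) x ≤ 1`.)
-/

open MeasureTheory Set Filter Topology Metric
open scoped ENNReal NNReal Pointwise

namespace Pool.Agent.Lib.MP_43065d_gt

variable {E : Type*} [NormedAddCommGroup E] [NormedSpace ℝ E] [FiniteDimensional ℝ E]

theorem exists_subseq_lipschitz {L : ℝ≥0} {M : ℝ} (f : ℕ → E → ℝ)
    (hf : ∀ j, LipschitzWith L (f j)) (h0 : ∀ j, |f j 0| ≤ M) :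
    ∃ φ : ℕ → ℕ, StrictMono φ ∧ ∃ g : E → ℝ, LipschitzWith L g ∧
      ∀ x, Tendsto (fun j => f (φ j) x) atTop (𝓝 (g x)) := by
  haveI : ProperSpace E := FiniteDimensional.proper ℝ E
  let d : ℕ → E := TopologicalSpace.denseSeq E
  have hd : DenseRange d := TopologicalSpace.denseRange_denseSeq E
  have hK : IsCompact (Set.pi univ fun i : ℕ =>
      Icc (-(M + (L : ℝ) * ‖d i‖)) (M + (L : ℝ) * ‖d i‖)) :=
    isCompact_univ_pi fun i => isCompact_Icc
  have hx : ∀ j, (fun i => f j (d i)) ∈ (Set.pi univ fun i : ℕ =>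
      Icc (-(M + (L : ℝ) * ‖d i‖)) (M + (L : ℝ) * ‖d i‖)) := by
    intro j i _
    have h1 := (hf j).dist_le_mul (d i) 0
    rw [Real.dist_eq, dist_zero_right] at h1
    have h2 := h0 j
    have h3 : |f j (d i)| ≤ M + (L : ℝ) * ‖d i‖ := by
      calc |f j (d i)| = |(f j (d i) - f j 0) + f j 0| := by ring_nf
        _ ≤ |f j (d i) - f j 0| + |f j 0| := abs_add_le _ _
        _ ≤ M + (L : ℝ) * ‖d i‖ := by linarith
    exact abs_le.1 h3
  obtain ⟨a, -, φ, hφ, ha⟩ := hK.tendsto_subseq hx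
  have h4 : ∀ i, Tendsto (fun j => f (φ j) (d i)) atTop (𝓝 (a i)) := fun i =>
    (tendsto_pi_nhds.1 ha) i
  have h5 : ∀ x, ∃ y, Tendsto (fun j => f (φ j) x) atTop (𝓝 y) := by
    intro x
    refine cauchySeq_tendsto_of_complete (Metric.cauchySeq_iff'.2 fun ε hε => ?_)
    have hL : (0 : ℝ) ≤ L := L.2
    obtain ⟨i, hi⟩ := hd.exists_dist_lt x (ε := ε / (3 * ((L : ℝ) + 1)))
      (div_pos hε (by positivity))
    obtain ⟨N, hN⟩ := Metric.cauchySeq_iff'.1 (h4 i).cauchySeq (ε / 3) (by positivity)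
    refine ⟨N, fun n hn => ?_⟩
    have h6 := hN n hn
    have h7 := (hf (φ n)).dist_le_mul x (d i)
    have h8 := (hf (φ N)).dist_le_mul (d i) x
    have h9 : (L : ℝ) * dist x (d i) ≤ ε / 3 := by
      have h10 : (L : ℝ) * dist x (d i) ≤ ((L : ℝ) + 1) * (ε / (3 * ((L : ℝ) + 1))) := by
        refine mul_le_mul (by linarith) hi.le dist_nonneg (by linarith)
      have h11 : ((L : ℝ) + 1) * (ε / (3 * ((L : ℝ) + 1))) = ε / 3 := by
        field_simp
      linarith
    have h12 : (L : ℝ) * dist (d i) x ≤ ε / 3 := by rw [dist_comm]; exact h9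
    have h13 := dist_triangle4 (f (φ n) x) (f (φ n) (d i)) (f (φ N) (d i)) (f (φ N) x)
    linarith
  choose g hg using h5
  refine ⟨φ, hφ, g, LipschitzWith.of_dist_le_mul fun x y => ?_, hg⟩
  exact le_of_tendsto ((hg x).dist (hg y)) (Eventually.of_forall fun j =>
    (hf (φ j)).dist_le_mul x y)

omit [FiniteDimensional ℝ E] in
private theorem cp_norm_le {s : Set E} (hs : Absorbent ℝ s) {R : ℝ}
    (hR : s ⊆ closedBall 0 R) (x : E) : ‖x‖ ≤ R * gauge s x := by
  have hR0 : 0 ≤ R := by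
    have h1 : (0 : E) ∈ s := hs.zero_mem
    have h2 := hR h1
    rw [mem_closedBall, dist_self] at h2
    exact h2
  refine le_of_forall_pos_le_add fun ε hε => ?_
  have h3 : gauge s x < gauge s x + ε / (R + 1) :=
    lt_add_of_pos_right _ (div_pos hε (by linarith))
  obtain ⟨b, hb, hb', y, hy, rfl⟩ := exists_lt_of_gauge_lt hs h3
  have h4 : ‖y‖ ≤ R := mem_closedBall_zero_iff.1 (hR hy)
  change ‖b • y‖ ≤ R * gauge s (b • y) + ε
  change b < gauge s (b • y) + ε / (R + 1) at hb'
  rw [norm_smul, Real.norm_of_nonneg hb.le]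
  have h5 : b * ‖y‖ ≤ b * R := mul_le_mul_of_nonneg_left h4 hb.le
  have h6 : b * R ≤ (gauge s (b • y) + ε / (R + 1)) * R :=
    mul_le_mul_of_nonneg_right hb'.le hR0
  have h7 : ε / (R + 1) * R ≤ ε := by
    rw [div_mul_eq_mul_div, div_le_iff₀ (by linarith)]
    nlinarith
  nlinarith

theorem exists_subseq_body {r R : ℝ} (hr : 0 < r) (K : ℕ → Set E) (hc : ∀ j, Convex ℝ (K j))
    (hcl : ∀ j, IsClosed (K j)) (hr' : ∀ j, closedBall 0 r ⊆ K j)
    (hR : ∀ j, K j ⊆ closedBall 0 R) :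
    ∃ φ : ℕ → ℕ, StrictMono φ ∧ ∃ K' : Set E, Convex ℝ K' ∧ IsCompact K' ∧
      closedBall 0 r ⊆ K' ∧ K' ⊆ closedBall 0 R ∧
      ∀ x, Tendsto (fun j => gauge (K (φ j)) x) atTop (𝓝 (gauge K' x)) := by
  haveI : ProperSpace E := FiniteDimensional.proper ℝ E
  have hab : ∀ j, Absorbent ℝ (K j) := fun j =>
    (absorbent_ball_zero (𝕜 := ℝ) hr).mono ((ball_subset_closedBall).trans (hr' j))
  obtain ⟨φ, hφ, g, hg, hgt⟩ := exists_subseq_lipschitz (L := (⟨r, hr.le⟩ : ℝ≥0)⁻¹) (M := 0)
    (fun j => gauge (K j)) (fun j => (hc j).lipschitzWith_gauge (r := ⟨r, hr.le⟩)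
      (by exact hr) (ball_subset_closedBall.trans (hr' j)))
    (fun j => by rw [gauge_zero, abs_zero])
  have h1 : ∀ x, 0 ≤ g x := fun x =>
    ge_of_tendsto (hgt x) (Eventually.of_forall fun j => gauge_nonneg x)
  have h2 : ∀ (t : ℝ) (x : E), 0 ≤ t → g (t • x) = t * g x := by
    intro t x ht
    have h3 := (hgt x).const_mul t
    have h4 : (fun j => t * gauge (K (φ j)) x) = fun j => gauge (K (φ j)) (t • x) := by
      funext j
      rw [gauge_smul_of_nonneg ht, smul_eq_mul]
    rw [h4] at h3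
    exact tendsto_nhds_unique (hgt (t • x)) h3
  have h3 : ∀ x y, g (x + y) ≤ g x + g y := fun x y =>
    le_of_tendsto_of_tendsto' (hgt (x + y)) ((hgt x).add (hgt y)) fun j =>
      gauge_add_le (hc (φ j)) (hab (φ j)) x y
  have h4 : ∀ x, ‖x‖ ≤ R * g x := fun x =>
    ge_of_tendsto ((hgt x).const_mul R) (Eventually.of_forall fun j =>
      cp_norm_le (hab (φ j)) (hR (φ j)) x)
  have hR0 : 0 ≤ R := by
    have h5 := hR 0 (hr' 0 (mem_closedBall_self hr.le))
    rw [mem_closedBall, dist_self] at h5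
    exact h5
  have h5 : {x | g x ≤ 1} ⊆ closedBall (0 : E) R := by
    intro x hx
    rw [mem_closedBall_zero_iff]
    have h6 := h4 x
    have h7 : R * g x ≤ R * 1 := mul_le_mul_of_nonneg_left hx hR0
    linarith
  refine ⟨φ, hφ, {x | g x ≤ 1}, ?_, ?_, ?_, h5, ?_⟩
  · intro x hx y hy a b ha hb hab'
    have h6 : g x ≤ 1 := hx
    have h7 : g y ≤ 1 := hy
    change g (a • x + b • y) ≤ 1
    have h8 := h3 (a • x) (b • y)
    rw [h2 a x ha, h2 b y hb] at h8
    nlinarith
  · exact Metric.isCompact_of_isClosed_isBounded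
      (isClosed_le hg.continuous continuous_const) (isBounded_closedBall.subset h5)
  · intro x hx
    exact le_of_tendsto (hgt x) (Eventually.of_forall fun j =>
      gauge_le_one_of_mem (hr' (φ j) hx))
  · intro x
    have hE : Absorbent ℝ {x | g x ≤ 1} := by
      refine (absorbent_ball_zero (𝕜 := ℝ) hr).mono (ball_subset_closedBall.trans ?_)
      intro x hx
      exact le_of_tendsto (hgt x) (Eventually.of_forall fun j =>
        gauge_le_one_of_mem (hr' (φ j) hx))
    have h6 : gauge {x | g x ≤ 1} x = g x := by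
      apply le_antisymm
      · refine le_of_forall_gt fun t ht => ?_
        have ht0 : 0 < t := (h1 x).trans_lt ht
        refine lt_of_le_of_lt (gauge_le_of_mem (a := (g x + t) / 2) (by linarith [h1 x]) ?_)
          (by linarith)
        have h7 : 0 < (g x + t) / 2 := by linarith [h1 x]
        refine ⟨((g x + t) / 2)⁻¹ • x, ?_, smul_inv_smul₀ h7.ne' x⟩
        change g (((g x + t) / 2)⁻¹ • x) ≤ 1
        rw [h2 _ _ (inv_nonneg.2 h7.le), inv_mul_le_iff₀ h7]
        linarith
      · refine le_of_forall_gt fun t ht => ?_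
        obtain ⟨b, hb, hb', y, hy, rfl⟩ := exists_lt_of_gauge_lt hE ht
        change g (b • y) < t
        rw [h2 b y hb.le]
        have h7 : g y ≤ 1 := hy
        nlinarith
    rw [h6]
    exact hgt x

theorem indicator_tendsto [MeasurableSpace E] [BorelSpace E] (μ : Measure E)
    [μ.IsAddHaarMeasure] {r : ℝ} (hr : 0 < r) {K : ℕ → Set E} {K' : Set E}
    (hc : ∀ j, Convex ℝ (K j)) (hcl : ∀ j, IsClosed (K j)) (hr' : ∀ j, closedBall 0 r ⊆ K j)
    (hc' : Convex ℝ K') (hcl' : IsClosed K') (hr'' : closedBall 0 r ⊆ K')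
    (ht : ∀ x, Tendsto (fun j => gauge (K j) x) atTop (𝓝 (gauge K' x))) :
    ∀ᵐ x ∂μ, ∀ᶠ j in atTop, (x ∈ K j ↔ x ∈ K') := by
  have h1 : μ (frontier K') = 0 := hc'.addHaar_frontier μ
  have h2 : ∀ᵐ x ∂μ, x ∉ frontier K' := measure_eq_zero_iff_ae_notMem.1 h1
  have hn : ∀ j, K j ∈ 𝓝 (0 : E) := fun j => mem_of_superset (closedBall_mem_nhds 0 hr) (hr' j)
  have hn' : K' ∈ 𝓝 (0 : E) := mem_of_superset (closedBall_mem_nhds 0 hr) hr''
  filter_upwards [h2] with x hx
  have h3 : gauge K' x ≠ 1 := fun h => hx ((gauge_eq_one_iff_mem_frontier hc' hn').1 h)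
  rcases lt_or_gt_of_ne h3 with h4 | h4
  · filter_upwards [(ht x).eventually (eventually_lt_nhds h4)] with j hj
    have h5 := (gauge_lt_one_iff_mem_interior (hc j) (hn j)).1 hj
    have h6 := (gauge_lt_one_iff_mem_interior hc' hn').1 h4
    exact iff_of_true (interior_subset h5) (interior_subset h6)
  · filter_upwards [(ht x).eventually (eventually_gt_nhds h4)] with j hj
    refine iff_of_false (fun h => ?_) fun h => ?_
    · exact absurd (gauge_le_one_of_mem h) (not_le.2 hj)
    · exact absurd (gauge_le_one_of_mem h) (not_le.2 h4)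

end Pool.Agent.Lib.MP_43065d_gt
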