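import Pool.Agent.Lib.MP_43065d_gt.Defs

/-!
# Module Cone: volume of the cone over a subset of a plane

STATEMENT.  If `‖e‖ = 1`, `h > 0` and `B` is a measurable subset of the plane `⟪e, x⟫ = h` then
`volume (cone B) = (h/3) * area B`, where area is `μHE[2]` (Mathlib: Geometry/Euclidean/Volume/Measure).

PROOF.  Choose an orthonormal basis `b` of `E3` with `b 2 = e`
(`Orthonormal.exists_orthonormalBasis_extension_of_card_eq` or `OrthonormalBasis` of
`(ℝ ∙ e)ᗮ` plus `e`).  Let `ι : E2 → E3`, `ι y = y 0 • b 0 + y 1 • b 1` (an isometry) and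
`Ψ : E2 × ℝ → E3`, `Ψ (y, t) = ι y + t • e`.
`Ψ` is measure preserving: composition of the measure preserving identification
`E2 × ℝ ≃ (Fin 3 → ℝ) ≃ E3` (`volume_preserving_piFinSuccAbove`, `EuclideanSpace.volume_preserving_*`,
`MeasurableEquiv.toLp`) with `b.repr.symm` (`OrthonormalBasis.measurePreserving_repr_symm`);
an alternative is to show that the image of volume under the linear equivalence `Ψ` is a Haar
measure and to compare on a product of cubes / parallelepiped.
Let `B' = {y | ι y + h • e ∈ B}`, a measurable set, and `B = (fun y => ι y + h • e) '' B'`,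
the image of `B'` by an isometry, so
`μHE[2] B = μHE[2] B' = volume B'` (`Isometry.euclideanHausdorffMeasure_image`,
`EuclideanSpace.euclideanHausdorffMeasure_eq_volume`).
`Ψ ⁻¹' (cone B) = {(y, s) | 0 < s ≤ h, (h / s) • y ∈ B'}` (put `s = t h`).
By Fubini (`Measure.prod_apply_symm` or `measure_prod...`): the section at `s` is `(s / h) • B'`, of
measure `(s/h)^2 * volume B'` (`Measure.addHaar_smul`), and `∫_0^h (s/h)^2 ds = h/3`.
Measurability of `{(y, s) | 0 < s ≤ h, (h / s) • y ∈ B'}`: preimage of `B'` under a measurable map.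
-/

open MeasureTheory Set Filter Topology Metric
open scoped ENNReal NNReal Pointwise

namespace Pool.Agent.Lib.MP_43065d_gt

/-- the coordinates `(t, y)` with respect to an orthonormal basis -/
private noncomputable def coneE (b : OrthonormalBasis (Fin 3) ℝ E3) :
    ℝ × (Fin 2 → ℝ) ≃ᵐ E3 :=
  ((MeasurableEquiv.piFinSuccAbove (fun _ : Fin 3 => ℝ) 2).symm.trans
    (MeasurableEquiv.toLp 2 (Fin 3 → ℝ))).trans b.measurableEquiv.symm

private theorem coneE_apply (b : OrthonormalBasis (Fin 3) ℝ E3) (p : ℝ × (Fin 2 → ℝ)) :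
    coneE b p = b.repr.symm (WithLp.toLp 2 (Fin.insertNth (α := fun _ : Fin 3 => ℝ) 2 p.1 p.2)) :=
  rfl

private theorem coneE_mp (b : OrthonormalBasis (Fin 3) ℝ E3) :
    MeasurePreserving (coneE b) volume volume :=
  (b.measurePreserving_measurableEquiv.symm).comp
    (((EuclideanSpace.volume_preserving_symm_measurableEquiv_toLp (Fin 3)).symm).comp
      ((volume_preserving_piFinSuccAbove (fun _ : Fin 3 => ℝ) 2).symm))

private theorem coneE_smul (b : OrthonormalBasis (Fin 3) ℝ E3) (c : ℝ) (p : ℝ × (Fin 2 → ℝ)) :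
    coneE b (c • p) = c • coneE b p := by
  rw [coneE_apply, coneE_apply, ← map_smul]
  congr 1
  apply PiLp.ext
  intro i
  refine Fin.succAboveCases 2 ?_ (fun j => ?_) i
  · simp
  · simp

private theorem coneE_inner (b : OrthonormalBasis (Fin 3) ℝ E3) (p : ℝ × (Fin 2 → ℝ)) :
    inner ℝ (b 2) (coneE b p) = p.1 := by
  rw [coneE_apply, ← b.repr_apply_apply, LinearIsometryEquiv.apply_symm_apply]
  simp

theorem volume_cone_plane {e : E3} (he : ‖e‖ = 1) {h : ℝ} (hh : 0 < h) {B : Set E3}
    (hB : MeasurableSet B) (hBe : ∀ x ∈ B, inner ℝ e x = h) :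
    volume (cone B) = ENNReal.ofReal (h / 3) * μHE[2] B := by
  -- the basis
  obtain ⟨b, hb⟩ : ∃ b : OrthonormalBasis (Fin 3) ℝ E3, b 2 = e := by
    have hon : Orthonormal ℝ (({2} : Set (Fin 3)).domRestrict (fun _ : Fin 3 => e)) := by
      constructor
      · intro i
        exact he
      · intro i j hij
        exact absurd (Subsingleton.elim i j) hij
    obtain ⟨b, hb⟩ := hon.exists_orthonormalBasis_extension_of_card_eq (by simp)
    exact ⟨b, hb 2 rfl⟩
  subst hb
  set Ψ := coneE b with hΨ
  set B' : Set (Fin 2 → ℝ) := {y | Ψ (h, y) ∈ B} with hB'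
  have hB'm : MeasurableSet B' :=
    hB.preimage (Ψ.measurable.comp (measurable_const.prodMk measurable_id))
  -- the preimage of the cone
  have hpre : Ψ ⁻¹' (cone B) = {p | p.1 ∈ Ioc 0 h ∧ (h / p.1) • p.2 ∈ B'} := by
    ext p
    constructor
    · rintro ⟨t, ht, x, hx, hxt⟩
      have h1 : p.1 = t * h := by
        have h2 := coneE_inner b p
        rw [← hΨ, hxt, inner_smul_right, hBe x hx] at h2
        exact h2.symm
      have ht0 : t ≠ 0 := ht.1.ne'
      refine ⟨⟨?_, ?_⟩, ?_⟩
      · rw [h1]; exact mul_pos ht.1 hh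
      · rw [h1]; nlinarith [ht.2]
      · show Ψ (h, (h / p.1) • p.2) ∈ B
        have h3 : (h, (h / p.1) • p.2) = (t⁻¹ : ℝ) • p := by
          apply Prod.ext
          · show h = t⁻¹ • p.1
            rw [smul_eq_mul, h1]
            field_simp
          · show (h / p.1) • p.2 = t⁻¹ • p.2
            congr 1
            rw [h1]
            field_simp
        rw [h3, hΨ, coneE_smul, ← hΨ, hxt, smul_smul, inv_mul_cancel₀ ht0, one_smul]
        exact hx
    · rintro ⟨⟨h1, h2⟩, h3⟩
      refine ⟨p.1 / h, ⟨div_pos h1 hh, (div_le_one hh).2 h2⟩, _, h3, ?_⟩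
      rw [hΨ, ← coneE_smul]
      congr 1
      apply Prod.ext
      · show p.1 = (p.1 / h) • h
        rw [smul_eq_mul]
        field_simp
      · show p.2 = (p.1 / h) • ((h / p.1) • p.2)
        rw [smul_smul]
        have : p.1 / h * (h / p.1) = 1 := by
          field_simp
        rw [this, one_smul]
  have hmeas : MeasurableSet {p : ℝ × (Fin 2 → ℝ) | p.1 ∈ Ioc 0 h ∧ (h / p.1) • p.2 ∈ B'} := by
    apply MeasurableSet.inter
    · exact measurableSet_Ioc.preimage measurable_fst
    · exact hB'm.preimage ((measurable_const.div measurable_fst).smul measurable_snd)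
  -- the area of `B`
  have harea : μHE[2] B = volume B' := by
    set ι : E2 → E3 := fun y => Ψ (h, y.ofLp) with hι
    have hiso : Isometry ι := by
      apply Isometry.of_dist_eq
      intro x y
      show dist (coneE b (h, x.ofLp)) (coneE b (h, y.ofLp)) = dist x y
      rw [coneE_apply, coneE_apply, LinearIsometryEquiv.dist_map, EuclideanSpace.dist_eq,
        EuclideanSpace.dist_eq, Fin.sum_univ_succAbove _ 2]
      simp
    have hBι : B = ι '' (ι ⁻¹' B) := by
      rw [Set.image_preimage_eq_inter_range]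
      symm
      apply Set.inter_eq_left.2
      intro x hx
      have h1 := hBe x hx
      set p := Ψ.symm x with hp
      have h2 : Ψ p = x := Ψ.apply_symm_apply x
      have h3 : p.1 = h := by
        rw [← coneE_inner b p, ← hΨ, h2]
        exact h1
      refine ⟨WithLp.toLp 2 p.2, ?_⟩
      show Ψ (h, p.2) = x
      rw [← h3]
      exact h2
    rw [hBι, hiso.euclideanHausdorffMeasure_image,
      EuclideanSpace.euclideanHausdorffMeasure_eq_volume]
    have h4 : ι ⁻¹' B = (MeasurableEquiv.toLp 2 (Fin 2 → ℝ)).symm ⁻¹' B' := rfl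
    rw [h4]
    exact (EuclideanSpace.volume_preserving_symm_measurableEquiv_toLp (Fin 2)).measure_preimage_equiv
      B'
  have hsec : ∀ s : ℝ, volume (Prod.mk s ⁻¹'
      {p : ℝ × (Fin 2 → ℝ) | p.1 ∈ Ioc 0 h ∧ (h / p.1) • p.2 ∈ B'}) =
      (Ioc 0 h).indicator (fun s => ENNReal.ofReal ((s / h) ^ 2) * volume B') s := by
    intro s
    by_cases hs : s ∈ Ioc 0 h
    · rw [Set.indicator_of_mem hs]
      have hs0 : s ≠ 0 := hs.1.ne'
      have h1 : Prod.mk s ⁻¹' {p : ℝ × (Fin 2 → ℝ) | p.1 ∈ Ioc 0 h ∧ (h / p.1) • p.2 ∈ B'} =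
          (s / h) • B' := by
        ext y
        rw [Set.mem_smul_set_iff_inv_smul_mem₀ (div_ne_zero hs0 hh.ne'), inv_div]
        constructor
        · intro hy; exact hy.2
        · intro hy; exact ⟨hs, hy⟩
      rw [h1, Measure.addHaar_smul]
      congr 2
      rw [Module.finrank_fintype_fun_eq_card, Fintype.card_fin, abs_of_nonneg (by positivity)]
    · rw [Set.indicator_of_notMem hs]
      have h1 : Prod.mk s ⁻¹' {p : ℝ × (Fin 2 → ℝ) | p.1 ∈ Ioc 0 h ∧ (h / p.1) • p.2 ∈ B'} = ∅ := by
        ext y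
        constructor
        · intro hy; exact absurd hy.1 hs
        · intro hy; exact absurd hy (Set.notMem_empty y)
      rw [h1, measure_empty]
  have hvol : volume (cone B) = volume (Ψ ⁻¹' (cone B)) :=
    ((coneE_mp b).measure_preimage_equiv (f := coneE b) (cone B)).symm
  rw [hvol, hpre, Measure.volume_eq_prod, Measure.prod_apply hmeas]
  simp only [hsec]
  rw [lintegral_indicator measurableSet_Ioc, lintegral_mul_const _ (by fun_prop), harea]
  congr 1
  rw [← ofReal_integral_eq_lintegral_ofReal]
  · congr 1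
    rw [← intervalIntegral.integral_of_le hh.le]
    have h1 : ∀ s : ℝ, (s / h) ^ 2 = (1 / h ^ 2) * s ^ 2 := by
      intro s
      field_simp
    simp only [h1]
    rw [intervalIntegral.integral_const_mul, integral_pow]
    field_simp
    norm_num
  · apply Continuous.integrableOn_Ioc
    fun_prop
  · exact Filter.Eventually.of_forall fun s => by positivity

end Pool.Agent.Lib.MP_43065d_gt
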