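import Pool.Agent.Lib.MP_43065d_gt.FaceA

/-!
# Module ConeStr2: in the equality case the body is a cone over a face (version of ConeStr for a face of `K₀`)
-/

open MeasureTheory Set Filter Topology Metric
open scoped ENNReal NNReal Pointwise

namespace Pool.Agent.Lib.MP_43065d_gt

private theorem conestr2_T_add (T : (E2 × ℝ) ≃L[ℝ] E3) (α β : ℝ) (y z : E2) (s t : ℝ) :
    T (α • y + β • z, α * s + β * t) = α • T (y, s) + β • T (z, t) := by
  rw [← map_smul, ← map_smul, ← map_add]
  congr 1

private theorem conestr2_affine {G : Set E3} (hG : IsCompact G) (hGne : G.Nontrivial) {X : E3} {k : ℝ}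
    (hk : 0 < k) (hmap : ∀ f ∈ G, X + k • f ∈ G) : k ≤ 1 ∧ ∃ f ∈ G, X = (1 - k) • f := by
  have hk1 : k ≤ 1 := by
    by_contra hcon
    push Not at hcon
    have hd : 0 < diam G := Metric.diam_pos hGne hG.isBounded
    have h1 : diam G ≤ diam G / k := by
      refine diam_le_of_forall_dist_le (by positivity) (fun x hx y hy => ?_)
      rw [le_div_iff₀ hk]
      have h2 := dist_le_diam_of_mem hG.isBounded (hmap x hx) (hmap y hy)
      rw [dist_add_left, dist_smul₀, Real.norm_eq_abs, abs_of_pos hk] at h2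
      linarith
    rw [le_div_iff₀ hk] at h1
    nlinarith
  refine ⟨hk1, ?_⟩
  obtain ⟨g₀, hg₀⟩ := hGne.nonempty
  rcases eq_or_lt_of_le hk1 with rfl | hlt
  · obtain ⟨f, hf, hmax⟩ := hG.exists_isMaxOn ⟨g₀, hg₀⟩
      (f := fun y => inner ℝ X y) (by fun_prop)
    have h1 := hmax (hmap f hf)
    simp only [mem_ofPred_eq, one_smul, inner_add_right] at h1
    have h2 : inner ℝ X X ≤ (0 : ℝ) := by linarith
    have h3 : X = 0 := by
      rw [real_inner_self_eq_norm_sq] at h2
      have : ‖X‖ = 0 := by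
        have := norm_nonneg X
        nlinarith [sq_nonneg ‖X‖]
      exact norm_eq_zero.1 this
    exact ⟨g₀, hg₀, by rw [h3]; simp⟩
  · set p : E3 := (1 - k)⁻¹ • X with hp
    have hk' : (1 - k) ≠ 0 := by linarith
    have hX : X = (1 - k) • p := by rw [hp, smul_smul, mul_inv_cancel₀ hk', one_smul]
    obtain ⟨f, hf, hmin⟩ := hG.exists_isMinOn ⟨g₀, hg₀⟩
      (f := fun y => ‖y - p‖) (by fun_prop)
    have h1 := hmin (hmap f hf)
    simp only [mem_ofPred_eq] at h1
    have e : X + k • f - p = k • (f - p) := by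
      rw [hX]; module
    rw [e, norm_smul, Real.norm_eq_abs, abs_of_pos hk] at h1
    have h2 : ‖f - p‖ = 0 := by
      have := norm_nonneg (f - p)
      nlinarith
    have h3 : f = p := sub_eq_zero.1 (norm_eq_zero.1 h2)
    exact ⟨f, hf, by rw [h3]; exact hX⟩

theorem cone_structure2 {K₀ : Set E3} (hK : IsBody K₀) (h0 : (0 : E3) ∈ interior K₀)
    {a : E3} (ha : a ∈ osup K₀) {S : (E2 × ℝ) ≃L[ℝ] E3} (hS : IsChart a S)
    (hne : (interior (facet K₀ S)).Nonempty) {c : E2} (hcF : c ∈ facet K₀ S)
    (hc : qfun K₀ S c ≤ 1 / 3)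
    (hL : ∀ y, qfun K₀ S y ≤ 1 → ∃ y' ∈ facet K₀ S, y = c - (1 / 2 : ℝ) • (y' - c)) :
    (-3 : ℝ) • S (c, 1) ∈ K₀ ∧
      K₀ ⊆ convexHull ℝ (insert ((-3 : ℝ) • S (c, 1)) ((fun y => S (y, 1)) '' facet K₀ S)) := by
  have hnhds : K₀ ∈ 𝓝 (0 : E3) := mem_interior_iff_mem_nhds.1 h0
  have hinj := S.injective
  have hsurj := S.surjective
  set c' : E3 := S (c, 1) with hc'
  set v : E3 := (-3 : ℝ) • c' with hv
  set G : Set E3 := (fun y => S (y, 1)) '' facet K₀ S with hG
  have hav : inner ℝ a v = -3 := by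
    rw [hv, inner_smul_right, hc', hS]
    norm_num
  have hvK : v ∈ K₀ := by
    have h1 : gauge K₀ v ≤ 1 := by
      have : v = (3 : ℝ) • (-c') := by rw [hv]; module
      rw [this, gauge_smul_of_nonneg (by norm_num : (0 : ℝ) ≤ 3), smul_eq_mul]
      unfold qfun at hc
      linarith
    have := (gauge_le_one_iff_mem_closure hK.convex hnhds).1 h1
    rwa [hK.isCompact.isClosed.closure_eq] at this
  refine ⟨hvK, ?_⟩
  have hGK : G ⊆ K₀ := by
    rintro _ ⟨y, hy, rfl⟩
    exact hy
  have hGa : ∀ f ∈ G, inner ℝ a f = 1 := by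
    rintro _ ⟨y, hy, rfl⟩
    exact hS y 1
  -- step (2)
  have step2 : ∀ w ∈ K₀, inner ℝ a w = -1 → ∃ f ∈ G, w = (1 / 2 : ℝ) • (f + v) := by
    intro w hw haw
    obtain ⟨⟨y, t⟩, hyt⟩ := hsurj (-w)
    have ht : t = 1 := by
      have := hS y t
      rw [hyt, inner_neg_right, haw] at this
      linarith
    subst ht
    have hq : qfun K₀ S y ≤ 1 := by
      unfold qfun
      rw [hyt, neg_neg]
      exact gauge_le_one_of_mem hw
    obtain ⟨y', hy', e⟩ := hL y hq
    refine ⟨S (y', 1), ⟨y', hy', rfl⟩, ?_⟩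
    have e1 : S (y, 1) = (3 / 2 : ℝ) • c' + (-(1 / 2) : ℝ) • S (y', 1) := by
      rw [hc', ← conestr2_T_add]
      congr 1
      refine Prod.ext ?_ ?_
      · simp only
        rw [e]
        module
      · simp only
        norm_num
    have e2 : w = - S (y, 1) := by rw [hyt, neg_neg]
    rw [e2, e1, hv]
    module
  have hGcpt : IsCompact G := by
    apply (face_compact (S := S) hK).image
    fun_prop
  have hGnt : G.Nontrivial := by
    obtain ⟨y0, hy0⟩ := hne
    obtain ⟨e, he, hball⟩ := Metric.isOpen_iff.1 isOpen_interior y0 hy0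
    have hy1 : y0 + (EuclideanSpace.single (0 : Fin 2) (e / 2) : E2) ∈ facet K₀ S := by
      refine interior_subset (hball ?_)
      rw [mem_ball_iff_norm, add_sub_cancel_left, PiLp.norm_single, Real.norm_eq_abs,
        abs_of_pos (by linarith)]
      linarith
    refine ⟨S (y0, 1), ⟨y0, interior_subset hy0, rfl⟩,
      S (y0 + (EuclideanSpace.single (0 : Fin 2) (e / 2) : E2), 1), ⟨_, hy1, rfl⟩, ?_⟩
    intro heq
    have h3 := hinj heq
    simp only [Prod.mk.injEq, and_true] at h3
    have h4 : (EuclideanSpace.single (0 : Fin 2) (e / 2) : E2) = 0 := by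
      have h5 : y0 + 0 = y0 + (EuclideanSpace.single (0 : Fin 2) (e / 2) : E2) := by
        rw [add_zero]; exact h3
      exact (add_left_cancel h5).symm
    have h2 : ‖(EuclideanSpace.single (0 : Fin 2) (e / 2) : E2)‖ = 0 := by
      rw [h4, norm_zero]
    rw [PiLp.norm_single, Real.norm_eq_abs, abs_of_pos (by linarith)] at h2
    linarith
  have hcv := convex_convexHull ℝ (insert v G)
  have hvH : v ∈ convexHull ℝ (insert v G) := subset_convexHull ℝ _ (mem_insert _ _)
  have hfH : ∀ f ∈ G, f ∈ convexHull ℝ (insert v G) := fun f hf =>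
    subset_convexHull ℝ _ (mem_insert_of_mem _ hf)
  intro x hx
  set t : ℝ := inner ℝ a x with ht
  have ht1 : t ≤ 1 := ha x hx
  rcases le_or_gt (-1) t with hcase | hcase
  · -- case t ≥ -1
    have ht3 : 0 < t + 3 := by linarith
    have hwK : (1 - (t + 1) / (t + 3)) • x + ((t + 1) / (t + 3)) • v ∈ K₀ := by
      apply hK.convex hx hvK
      · have : (t + 1) / (t + 3) ≤ 1 := by
          rw [div_le_one ht3]; linarith
        linarith
      · apply div_nonneg <;> linarith
      · ring
    obtain ⟨f, hf, e⟩ := step2 _ hwK (by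
      rw [inner_add_right, inner_smul_right, inner_smul_right, hav, ← ht]
      field_simp
      ring)
    have ex : x = ((t + 3) / 4) • f + ((1 - t) / 4) • v := by
      have e3 : ((1 - (t + 1) / (t + 3)) : ℝ) = 2 / (t + 3) := by
        field_simp; ring
      rw [e3] at e
      have e4 : x = ((t + 3) / 2) • ((2 / (t + 3)) • x) := by
        rw [smul_smul]
        have : (t + 3) / 2 * (2 / (t + 3)) = 1 := by field_simp
        rw [this, one_smul]
      have e5 : (2 / (t + 3)) • x = (1 / 2 : ℝ) • (f + v) - ((t + 1) / (t + 3)) • v := by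
        rw [← e]; abel
      rw [e4, e5, smul_sub, smul_smul, smul_smul, smul_add]
      have e6 : (t + 3) / 2 * ((t + 1) / (t + 3)) = (t + 1) / 2 := by field_simp
      rw [e6]
      module
    rw [ex]
    exact hcv (hfH f hf) hvH (by linarith) (by linarith) (by ring)
  · -- case t < -1
    have h1t : 0 < 1 - t := by linarith
    set μ : ℝ := 2 / (1 - t) with hμ
    have hμ0 : 0 < μ := by positivity
    have hμ1 : μ < 1 := by
      rw [hμ, div_lt_one h1t]; linarith
    have hμt : μ * (1 - t) = 2 := by rw [hμ]; field_simp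
    have key : ∀ f ∈ G, ((2 * μ) • x - v) + (2 * (1 - μ)) • f ∈ G := by
      intro f hf
      have hwK : (1 - μ) • f + μ • x ∈ K₀ :=
        hK.convex (hGK hf) hx (by linarith) hμ0.le (by ring)
      obtain ⟨f', hf', e⟩ := step2 _ hwK (by
        rw [inner_add_right, inner_smul_right, inner_smul_right, hGa f hf, ← ht]
        linarith)
      have : ((2 * μ) • x - v) + (2 * (1 - μ)) • f = f' := by
        have e2 : (2 : ℝ) • ((1 - μ) • f + μ • x) = f' + v := by
          rw [e]; module
        calc ((2 * μ) • x - v) + (2 * (1 - μ)) • f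
            = (2 : ℝ) • ((1 - μ) • f + μ • x) - v := by module
          _ = f' := by rw [e2]; abel
      rw [this]
      exact hf'
    obtain ⟨hk1, f, hf, e⟩ := conestr2_affine hGcpt hGnt (by linarith : 0 < 2 * (1 - μ)) key
    have ex : x = (1 / (2 * μ)) • v + ((2 * μ - 1) / (2 * μ)) • f := by
      have e2 : (2 * μ) • x = v + (2 * μ - 1) • f := by
        have : (2 * μ) • x = ((2 * μ) • x - v) + v := by abel
        rw [this, e]
        module
      have e3 : x = (1 / (2 * μ)) • ((2 * μ) • x) := by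
        rw [smul_smul]
        have : 1 / (2 * μ) * (2 * μ) = 1 := by field_simp
        rw [this, one_smul]
      have e4 : (1 / (2 * μ)) • ((2 * μ - 1) • f) = ((2 * μ - 1) / (2 * μ)) • f := by
        rw [smul_smul]
        congr 1
        ring
      rw [← e4, ← smul_add, ← e2]
      exact e3
    rw [ex]
    refine hcv hvH (hfH f hf) (by positivity) ?_ ?_
    · apply div_nonneg
      · linarith
      · positivity
    · field_simp
      ring

end Pool.Agent.Lib.MP_43065d_gt
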