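import Pool.Agent.Lib.MP_43065d_gt.CsecDef

/-!
# Module CsecA: elementary facts on the cones `csec K a`

PROOFS.  `gle`: if `t > gauge K x` then `x = s • k` with `0 < s < t`, `k ∈ K` (`exists_lt_of_gauge_lt`, `K` absorbent by `absorbent_nhds_zero`),
so `⟪a, x⟫ = s ⟪a, k⟫ ≤ s < t`; let `t → gauge K x`.
`csec_closed`: `gauge K` is continuous (`continuous_gauge`).  `csec_convex`: `gauge_add_le`, `gauge_smul_of_nonneg`.
`csec_smul`: homogeneity.
`csec_inter_null`: on the intersection `⟪a, x⟫ = gauge K x = ⟪b, x⟫` (`gle` for the other inequality), a proper linear subspace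
(the kernel of `innerSL ℝ (a - b)`, `Measure.addHaar_submodule`).
`csec_frontier_null`: `Convex.addHaar_frontier`.
`csec_unique` (for `a ∈ osup K`): on the open set `interior (csec K a)` one has `⟪b, y⟫ ≤ gauge K y ≤ ⟪a, y⟫`, i.e. `⟪a - b, y⟫ ≥ 0`, and at `x` there is equality
(`gauge K x = ⟪b, x⟫`); for `s > 0` small `y = x - s • (a - b)` is in the open set, so `-s ‖a - b‖² ≥ 0`, `a = b`.
`csec_ne_zero`: `csec K 0 = {x | gauge K x ≤ 0} = {0}` (`gauge_pos`: `K` is bounded), a null set.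
`sector_eq_csec`: `x ∈ sector A a` iff `∀ c ∈ A, ⟪c, x⟫ ≤ ⟪a, x⟫`.  If `x = 0` both hold (`gauge_zero`).  If `x ≠ 0`: some `c ∈ A` has `⟪c, x⟫ > 0`
(`poly_pos`), so in `sector A a` we have `⟪a, x⟫ > 0` and `poly_gauge` gives `gauge ≤ ⟪a, x⟫`; conversely `0 ≤ gauge ≤ ⟪a, x⟫` and
`poly_gauge` again.
-/

open MeasureTheory Set Filter Topology Metric
open scoped ENNReal NNReal Pointwise

namespace Pool.Agent.Lib.MP_43065d_gt

variable {K : Set E3} {a b x : E3}

theorem gle (h0 : K ∈ 𝓝 (0 : E3)) (ha : a ∈ osup K) (x : E3) : inner ℝ a x ≤ gauge K x := by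
  refine le_of_forall_gt fun t ht => ?_
  obtain ⟨s, hs0, hst, hx⟩ := exists_lt_of_gauge_lt (absorbent_nhds_zero h0) ht
  obtain ⟨k, hk, rfl⟩ := hx
  show inner ℝ a (s • k) < t
  rw [inner_smul_right]
  have h1 := mul_le_mul_of_nonneg_left (ha k hk) hs0.le
  rw [mul_one] at h1
  exact h1.trans_lt hst

theorem csec_closed (hK : Convex ℝ K) (h0 : K ∈ 𝓝 (0 : E3)) (a : E3) : IsClosed (csec K a) :=
  isClosed_le (continuous_gauge hK h0) (continuous_const.inner continuous_id)

theorem csec_convex (hK : Convex ℝ K) (h0 : K ∈ 𝓝 (0 : E3)) (a : E3) : Convex ℝ (csec K a) := by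
  intro x hx y hy α β hα hβ _
  show gauge K (α • x + β • y) ≤ inner ℝ a (α • x + β • y)
  have h1 := gauge_add_le hK (absorbent_nhds_zero h0) (α • x) (β • y)
  rw [gauge_smul_of_nonneg hα, gauge_smul_of_nonneg hβ, smul_eq_mul, smul_eq_mul] at h1
  rw [inner_add_right, inner_smul_right, inner_smul_right]
  exact h1.trans (add_le_add (mul_le_mul_of_nonneg_left hx hα) (mul_le_mul_of_nonneg_left hy hβ))

theorem csec_smul (hx : x ∈ csec K a) {t : ℝ} (ht : 0 ≤ t) : t • x ∈ csec K a := by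
  show gauge K (t • x) ≤ inner ℝ a (t • x)
  rw [gauge_smul_of_nonneg ht, smul_eq_mul, inner_smul_right]
  exact mul_le_mul_of_nonneg_left hx ht

theorem csec_inter_null (h0 : K ∈ 𝓝 (0 : E3)) (ha : a ∈ osup K) (hb : b ∈ osup K) (hab : a ≠ b) :
    volume (csec K a ∩ csec K b) = 0 := by
  have h1 : csec K a ∩ csec K b ⊆ ((innerSL ℝ (a - b)).toLinearMap.ker : Set E3) := by
    rintro y ⟨hya, hyb⟩
    have h2 : gauge K y ≤ inner ℝ a y := hya
    have h3 : gauge K y ≤ inner ℝ b y := hyb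
    have h4 := gle h0 ha y
    have h5 := gle h0 hb y
    have h6 : (inner ℝ (a - b) y : ℝ) = 0 := by
      rw [inner_sub_left]
      linarith
    exact LinearMap.mem_ker.2 h6
  refine measure_mono_null h1 (Measure.addHaar_submodule volume _ fun h => ?_)
  have h2 : a - b ∈ (innerSL ℝ (a - b)).toLinearMap.ker := by
    rw [h]
    exact Submodule.mem_top
  have h3 : (inner ℝ (a - b) (a - b) : ℝ) = 0 := LinearMap.mem_ker.1 h2
  exact hab (sub_eq_zero.1 (inner_self_eq_zero.1 h3))

theorem csec_frontier_null (hK : Convex ℝ K) (h0 : K ∈ 𝓝 (0 : E3)) (a : E3) :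
    volume (frontier (csec K a)) = 0 :=
  (csec_convex hK h0 a).addHaar_frontier volume

theorem csec_unique (h0 : K ∈ 𝓝 (0 : E3)) (ha : a ∈ osup K) (hx : x ∈ interior (csec K a))
    (hb : b ∈ osup K) (hbx : gauge K x = inner ℝ b x) : b = a := by
  have hc : Continuous fun s : ℝ => x - s • (a - b) := by fun_prop
  have h1 : ∀ᶠ s : ℝ in 𝓝 0, x - s • (a - b) ∈ interior (csec K a) := by
    refine hc.continuousAt.eventually_mem ?_
    rw [zero_smul, sub_zero]
    exact isOpen_interior.mem_nhds hx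
  obtain ⟨ε, hε, h2⟩ := Metric.eventually_nhds_iff.1 h1
  have h3 := interior_subset (h2 (y := ε / 2) (by
    rw [dist_zero_right, Real.norm_of_nonneg (half_pos hε).le]
    exact half_lt_self hε))
  have h4 : gauge K (x - (ε / 2) • (a - b)) ≤ inner ℝ a (x - (ε / 2) • (a - b)) := h3
  have h5 := gle h0 hb (x - (ε / 2) • (a - b))
  have h6 := gle h0 ha x
  have h7 : (0 : ℝ) ≤ inner ℝ (a - b) (x - (ε / 2) • (a - b)) := by
    rw [inner_sub_left]
    linarith
  rw [inner_sub_right, inner_smul_right] at h7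
  have h8 : (inner ℝ (a - b) x : ℝ) ≤ 0 := by
    rw [inner_sub_left]
    linarith
  have h9 : (inner ℝ (a - b) (a - b) : ℝ) ≤ 0 := by
    by_contra hcon
    have h10 := mul_pos (half_pos hε) (not_le.1 hcon)
    linarith
  have h10 : (inner ℝ (a - b) (a - b) : ℝ) = 0 := le_antisymm h9 real_inner_self_nonneg
  exact (sub_eq_zero.1 (inner_self_eq_zero.1 h10)).symm

theorem csec_ne_zero (hK : IsBody K) (h0 : (0 : E3) ∈ interior K)
    (h : 0 < volume.real (K ∩ csec K a)) : a ≠ 0 := by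
  rintro rfl
  have h1 : csec K 0 ⊆ {0} := by
    intro y hy
    have h2 : gauge K y ≤ inner ℝ (0 : E3) y := hy
    rw [inner_zero_left] at h2
    by_contra h3
    have h4 : 0 < gauge K y := by
      refine (gauge_pos (absorbent_nhds_zero (mem_interior_iff_mem_nhds.1 h0)) ?_).2 h3
      exact (NormedSpace.isVonNBounded_iff ℝ).2 hK.isCompact.isBounded
    exact absurd h2 (not_le.2 h4)
  have h2 : volume (K ∩ csec K 0) = 0 :=
    measure_mono_null (inter_subset_right.trans h1) (measure_singleton _)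
  rw [measureReal_def, h2] at h
  exact absurd h (lt_irrefl _)

theorem sector_eq_csec {A : Finset E3} {r R : ℝ} (hr : 0 < r) (h1 : closedBall 0 r ⊆ poly A)
    (h2 : poly A ⊆ closedBall 0 R) (ha : a ∈ A) : sector A a = csec (poly A) a := by
  ext x
  constructor
  · intro hx
    show gauge (poly A) x ≤ inner ℝ a x
    by_cases h0 : x = 0
    · rw [h0, gauge_zero, inner_zero_right]
    · obtain ⟨c, hc, hpos⟩ := poly_pos h2 h0
      exact (poly_gauge hr h1 (hpos.trans_le (hx c hc)).le x).2 hx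
  · intro hx
    have h3 : gauge (poly A) x ≤ inner ℝ a x := hx
    exact (poly_gauge hr h1 ((gauge_nonneg x).trans h3) x).1 h3

end Pool.Agent.Lib.MP_43065d_gt
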