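import Pool.Agent.Lib.MP_43065d_gt.CsecA

/-!
# Module CsecB: additivity, finitely many large faces

PROOFS.  `sum_csec`: induction on the finite set (or `measure_biUnion_finset₀`): the sets `X ∩ csec K a` are measurable (`csec_closed`)
and pairwise almost disjoint by `csec_inter_null`; `X` has finite volume.
`finite_faces`: if the set were infinite it would contain finite subsets `s` with `N` elements for every `N` (`Set.Infinite.exists_subset_card_eq`), and
by `sum_csec` with `X = K`: `N ε ≤ ∑ vol (K ∩ csec K a) = vol (K ∩ ⋃ csec K a) ≤ vol K`, a contradiction for large `N`.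
-/

open MeasureTheory Set Filter Topology Metric
open scoped ENNReal NNReal Pointwise

namespace Pool.Agent.Lib.MP_43065d_gt

theorem sum_csec {K : Set E3} (hK : Convex ℝ K) (h0 : K ∈ 𝓝 (0 : E3)) {s : Finset E3}
    (hs : ∀ a ∈ s, a ∈ osup K) {X : Set E3} (hX : MeasurableSet X) (hXf : volume X ≠ ⊤) :
    volume.real (X ∩ ⋃ a ∈ s, csec K a) = ∑ a ∈ s, volume.real (X ∩ csec K a) := by
  have h1 : X ∩ ⋃ a ∈ s, csec K a = ⋃ a ∈ s, X ∩ csec K a := by
    rw [inter_iUnion₂]
  have h2 : (s : Set E3).Pairwise (Function.onFun (AEDisjoint volume) fun a => X ∩ csec K a) := by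
    intro a ha b hb hab
    refine measure_mono_null ?_ (csec_inter_null h0 (hs a ha) (hs b hb) hab)
    exact inter_subset_inter inter_subset_right inter_subset_right
  have h3 : ∀ a ∈ s, NullMeasurableSet (X ∩ csec K a) volume := fun a _ =>
    (hX.inter (csec_closed hK h0 a).measurableSet).nullMeasurableSet
  rw [h1, measureReal_def, measure_biUnion_finset₀ h2 h3, ENNReal.toReal_sum]
  · rfl
  · intro a _
    exact ne_top_of_le_ne_top hXf (measure_mono inter_subset_left)

theorem finite_faces {K : Set E3} (hK : IsBody K) (h0 : (0 : E3) ∈ interior K) {ε : ℝ}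
    (hε : 0 < ε) : {a : E3 | a ∈ osup K ∧ ε ≤ volume.real (K ∩ csec K a)}.Finite := by
  by_contra hinf
  have h0' : K ∈ 𝓝 (0 : E3) := mem_interior_iff_mem_nhds.1 h0
  obtain ⟨N, hN⟩ := exists_nat_gt (volume.real K / ε)
  obtain ⟨s, hs, hsN⟩ := Set.Infinite.exists_subset_card_eq hinf N
  have hKf : volume K ≠ ⊤ := hK.isCompact.measure_lt_top.ne
  have h1 := sum_csec hK.convex h0' (s := s) (fun a ha => (hs ha).1)
    hK.isCompact.measurableSet hKf
  have h2 : (N : ℝ) * ε ≤ ∑ a ∈ s, volume.real (K ∩ csec K a) := by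
    rw [← hsN, ← nsmul_eq_mul]
    exact Finset.card_nsmul_le_sum s _ ε fun a ha => (hs ha).2
  have h3 : volume.real (K ∩ ⋃ a ∈ s, csec K a) ≤ volume.real K :=
    measureReal_mono inter_subset_left hKf
  rw [div_lt_iff₀ hε] at hN
  linarith

end Pool.Agent.Lib.MP_43065d_gt
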