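import Pool.Agent.Lib.MP_43065d_gt.Defs

/-!
# Module PolyApprox: approximation by polytopes, and closeness in volume implies closeness

PROOF of `exists_poly`.  Let `g = gauge K` (continuous) and `S = {x | g x = 1 + δ}`, compact.  For `x ∈ S`, `x ∉ K`
(closed convex), so there is a vector `a` with `⟪a, y⟫ < 1 < ⟪a, x⟫` for all `y ∈ K` (`geometric_hahn_banach_point_closed`
plus Riesz; the separating constant is positive as `0 ∈ K` and can be scaled to `1`).  The open sets
`{x | 1 < ⟪a, x⟫}` cover `S`, finitely many `a ∈ A` suffice.  `K ⊆ poly A`.  If `x ∈ poly A` and `g x > 1 + δ`, then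
`x' = ((1 + δ)/g x) • x` lies in `S` and in `poly A` (which is star shaped about `0`), contradiction.  So
`g x ≤ 1 + δ` and `x ∈ (1 + δ) • K`.

PROOF of `subset_of_volume_diff`.  Suppose `x ∈ K`, `y = (1 - δ) • x ∉ P`.  Separate: `u` with `‖u‖ = 1` and
`⟪u, p⟫ ≤ ⟪u, y⟫` for `p ∈ P`.  `closedBall y (δ r) = (1 - δ) • x + δ • closedBall 0 r ⊆ K`.  The open half ball
`{w ∈ ball y (δ r) | ⟪u, w⟫ > ⟪u, y⟫}` is contained in `K \ P` and has half the volume of the ball (reflection in
`y` maps it to the opposite half; the plane is null).  Contradiction.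
-/

open MeasureTheory Set Filter Topology Metric
open scoped ENNReal NNReal Pointwise

namespace Pool.Agent.Lib.MP_43065d_gt

private theorem polyApprox_half_closed (a : E3) : IsClosed {x : E3 | inner ℝ a x ≤ 1} :=
  isClosed_le (by fun_prop) continuous_const

private theorem polyApprox_half_convex (a : E3) : Convex ℝ {x : E3 | inner ℝ a x ≤ 1} :=
  convex_halfSpace_le (f := fun x => inner ℝ a x)
    ⟨fun x y => inner_add_right a x y, fun c x => by
      rw [real_inner_smul_right, smul_eq_mul]⟩ 1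

private theorem polyApprox_eq (A : Finset E3) :
    poly A = ⋂ a ∈ A, {x : E3 | inner ℝ a x ≤ 1} := by
  ext x
  simp [poly]

theorem exists_poly {K : Set E3} (hK : IsBody K) (h0 : (0 : E3) ∈ interior K) {δ : ℝ}
    (hδ : 0 < δ) : ∃ A : Finset E3, K ⊆ poly A ∧ poly A ⊆ (1 + δ) • K := by
  have hc := hK.convex
  have hcl := hK.isCompact.isClosed
  have hn : K ∈ 𝓝 (0 : E3) := mem_interior_iff_mem_nhds.1 h0
  have hg : ∀ x, gauge K x ≤ 1 ↔ x ∈ K := fun x => by
    rw [gauge_le_one_iff_mem_closure hc hn, hcl.closure_eq]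
  have hgc := continuous_gauge hc hn
  have h1 : (0 : ℝ) < 1 + δ := by linarith
  have hgs : ∀ x, gauge K x ≤ 1 + δ → x ∈ (1 + δ) • K := by
    intro x hx
    rw [mem_smul_set_iff_inv_smul_mem₀ h1.ne', ← hg, gauge_smul_of_nonneg (inv_nonneg.2 h1.le),
      smul_eq_mul]
    exact (inv_mul_le_one₀ h1).2 hx
  set S : Set E3 := {x | gauge K x = 1 + δ} with hS
  have hSc : IsCompact S := by
    refine (hK.isCompact.smul (1 + δ)).of_isClosed_subset (isClosed_eq hgc continuous_const) ?_
    intro x hx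
    exact hgs x (le_of_eq hx)
  set I : Set E3 := {a | ∀ y ∈ K, inner ℝ a y ≤ 1} with hI
  have hcov : S ⊆ ⋃ a : I, {x : E3 | 1 < inner ℝ (a : E3) x} := by
    intro x hx
    have hxK : x ∉ K := by
      rw [← hg]
      have : gauge K x = 1 + δ := hx
      rw [this]
      linarith
    obtain ⟨f, u, hf, hfx⟩ := geometric_hahn_banach_closed_point hc hcl hxK
    have hu : 0 < u := by
      have := hf 0 (interior_subset h0)
      rwa [map_zero] at this
    set b : E3 := (InnerProductSpace.toDual ℝ E3).symm f with hb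
    have hbf : ∀ y, inner ℝ b y = f y := fun y => by
      rw [hb]
      exact InnerProductSpace.toDual_symm_apply
    have hin : ∀ y, inner ℝ (u⁻¹ • b) y = u⁻¹ * f y := fun y => by
      rw [real_inner_smul_left, hbf]
    refine mem_iUnion.2 ⟨⟨u⁻¹ • b, ?_⟩, ?_⟩
    · intro y hy
      rw [hin]
      exact (inv_mul_le_one₀ hu).2 (hf y hy).le
    · show 1 < inner ℝ (u⁻¹ • b) x
      rw [hin, inv_mul_eq_div, one_lt_div hu]
      exact hfx
  obtain ⟨t, ht⟩ := hSc.elim_finite_subcover (fun a : I => {x : E3 | 1 < inner ℝ (a : E3) x})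
    (fun a => isOpen_lt continuous_const (by fun_prop)) hcov
  classical
  refine ⟨t.image Subtype.val, ?_, ?_⟩
  · intro y hy a ha
    obtain ⟨a', _, rfl⟩ := Finset.mem_image.1 ha
    exact a'.2 y hy
  · intro x hx
    refine hgs x (not_lt.1 fun hlt => ?_)
    have hgp : 0 < gauge K x := h1.trans hlt
    set c : ℝ := (1 + δ) / gauge K x with hcdef
    have hc0 : 0 < c := div_pos h1 hgp
    have hc1 : c < 1 := (div_lt_one hgp).2 hlt
    have hx' : c • x ∈ S := by
      show gauge K (c • x) = 1 + δ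
      rw [gauge_smul_of_nonneg hc0.le, smul_eq_mul, hcdef, div_mul_cancel₀ _ hgp.ne']
    obtain ⟨a, ha⟩ := mem_iUnion.1 (ht hx')
    obtain ⟨hat, hax⟩ := mem_iUnion.1 ha
    have h2 : inner ℝ (a : E3) x ≤ 1 := hx a (Finset.mem_image.2 ⟨a, hat, rfl⟩)
    have h3 : 1 < inner ℝ (a : E3) (c • x) := hax
    rw [real_inner_smul_right] at h3
    nlinarith

theorem subset_of_volume_diff {K P : Set E3} (hK : Convex ℝ K) (hKf : volume K ≠ ⊤)
    (hP : Convex ℝ P) (hPc : IsClosed P) {r : ℝ} (hr : 0 < r) (hrK : closedBall 0 r ⊆ K) {δ : ℝ}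
    (hδ : 0 < δ) (hδ1 : δ ≤ 1)
    (hvol : volume.real (K \ P) < volume.real (ball (0 : E3) (δ * r)) / 2) :
    (1 - δ) • K ⊆ P := by
  rintro _ ⟨x, hx, rfl⟩
  by_contra hy
  simp only at hy
  set y : E3 := (1 - δ) • x with hydef
  obtain ⟨f, u, hf, hfy⟩ := geometric_hahn_banach_closed_point hP hPc hy
  set H : Set E3 := {w | w ∈ ball y (δ * r) ∧ f y ≤ f w} with hH
  have hHm : MeasurableSet H :=
    isOpen_ball.measurableSet.inter (isClosed_le continuous_const f.continuous).measurableSet
  have hHs : H ⊆ K \ P := by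
    rintro w ⟨hw1, hw2⟩
    refine ⟨?_, fun hwP => ?_⟩
    · have h1 : w = (1 - δ) • x + δ • (δ⁻¹ • (w - y)) := by
        rw [smul_smul, mul_inv_cancel₀ hδ.ne', one_smul, ← hydef, add_sub_cancel]
      have h2 : δ⁻¹ • (w - y) ∈ K := by
        apply hrK
        rw [mem_closedBall_zero_iff, norm_smul, norm_inv, Real.norm_eq_abs, abs_of_pos hδ,
          inv_mul_le_iff₀ hδ]
        rw [mem_ball, dist_eq_norm] at hw1
        exact hw1.le
      rw [h1]
      exact hK hx h2 (by linarith) hδ.le (by ring)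
    · have := hf w hwP
      linarith
  set φ : E3 → E3 := fun w => (2 : ℝ) • y - w with hφ
  have hmp : MeasurePreserving φ (volume : Measure E3) volume := by
    have h1 : φ = (fun w => (2 : ℝ) • y + w) ∘ Neg.neg := by
      funext w
      simp only [hφ, Function.comp_apply, sub_eq_add_neg]
    rw [h1]
    exact (measurePreserving_add_left volume _).comp (Measure.measurePreserving_neg volume)
  have hcov : ball y (δ * r) ⊆ H ∪ φ ⁻¹' H := by
    intro w hw
    rcases le_total (f y) (f w) with h1 | h1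
    · exact Or.inl ⟨hw, h1⟩
    · right
      refine ⟨?_, ?_⟩
      · rw [mem_ball, dist_eq_norm] at hw ⊢
        have : φ w - y = -(w - y) := by
          simp only [hφ, two_smul]
          abel
        rw [this, norm_neg]
        exact hw
      · simp only [hφ, map_sub, map_smul, smul_eq_mul]
        linarith
  have hv1 : volume (ball (0 : E3) (δ * r)) ≤ 2 * volume (K \ P) := by
    rw [← Measure.addHaar_ball_center volume y]
    calc volume (ball y (δ * r)) ≤ volume (H ∪ φ ⁻¹' H) := measure_mono hcov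
      _ ≤ volume H + volume (φ ⁻¹' H) := measure_union_le _ _
      _ = 2 * volume H := by
        rw [hmp.measure_preimage hHm.nullMeasurableSet, two_mul]
      _ ≤ 2 * volume (K \ P) := by
        gcongr
  have hfin : volume (K \ P) ≠ ⊤ := ((measure_mono diff_subset).trans_lt hKf.lt_top).ne
  have hv2 : volume.real (ball (0 : E3) (δ * r)) ≤ 2 * volume.real (K \ P) := by
    have := ENNReal.toReal_mono (ENNReal.mul_ne_top (by norm_num) hfin) hv1
    rwa [ENNReal.toReal_mul] at this
  linarith

/-- the norm bound for facet vectors -/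
theorem norm_le_of_ball_subset {A : Finset E3} {r : ℝ} (hr : 0 < r)
    (h : closedBall 0 r ⊆ poly A) {a : E3} (ha : a ∈ A) : ‖a‖ ≤ 1 / r := by
  rcases eq_or_ne a 0 with rfl | h0
  · rw [norm_zero]
    positivity
  · have hpos : 0 < ‖a‖ := norm_pos_iff.2 h0
    have h1 : (r / ‖a‖) • a ∈ closedBall (0 : E3) r := by
      rw [mem_closedBall_zero_iff, norm_smul, Real.norm_eq_abs, abs_of_pos (by positivity),
        div_mul_cancel₀ _ hpos.ne']
    have h2 := h h1 a ha
    rw [real_inner_smul_right, real_inner_self_eq_norm_sq] at h2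
    rw [le_div_iff₀ hr]
    have h3 : r / ‖a‖ * ‖a‖ ^ 2 = ‖a‖ * r := by
      field_simp
    linarith

theorem poly_convex (A : Finset E3) : Convex ℝ (poly A) ∧ IsClosed (poly A) := by
  rw [polyApprox_eq]
  exact ⟨convex_iInter₂ fun a _ => polyApprox_half_convex a,
    isClosed_biInter fun a _ => polyApprox_half_closed a⟩

theorem poly_body {A : Finset E3} {r R : ℝ} (hr : 0 < r) (h1 : closedBall 0 r ⊆ poly A)
    (h2 : poly A ⊆ closedBall 0 R) : IsBody (poly A) ∧ (0 : E3) ∈ interior (poly A) := by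
  have h3 : (0 : E3) ∈ interior (poly A) :=
    interior_mono h1 (ball_subset_interior_closedBall (mem_ball_self hr))
  obtain ⟨h4, h5⟩ := poly_convex A
  exact ⟨⟨h4, (isCompact_closedBall 0 R).of_isClosed_subset h5 h2, ⟨0, h3⟩⟩, h3⟩

end Pool.Agent.Lib.MP_43065d_gt
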