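import Pool.Agent.Lib.MP_43065d_gt.Chart
import Pool.Agent.Lib.MP_43065d_gt.PolyApprox

/-!
# Module Decomp: decomposition of a polytope into the cones over its facets

`P = poly A` with `closedBall 0 r ⊆ P ⊆ closedBall 0 R`, `0 < r`.

PROOFS.
`poly_gauge`: `gauge P x = max_{c ∈ A} ⟪c, x⟫`; precisely, for `0 ≤ t`: `gauge P x ≤ t ⇔ ∀ c ∈ A, ⟪c, x⟫ ≤ t`
(for `t > 0` both mean `x ∈ t • P`; for `t = 0` let `t → 0`).
`poly_pos`: for `x ≠ 0` some `c ∈ A` has `⟪c, x⟫ > 0`, otherwise the whole ray through `x` would lie in `P`.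
`sum_sectors`: every `x` lies in the sector of some `a ∈ A` (finite nonempty set, maximum), and for `a ≠ c` in `A` the
intersection of the two sectors lies in the null set `{⟪a - c, x⟫ = 0}`.  (`measure_biUnion_finset₀` or an induction.)
`diff_volume`: `refl 0 P = -P`, `vol (-P \ P) = vol (-P) - vol (P ∩ -P)`.
`facet_facts`: the facet is compact (preimage of the compact set `P` under the proper affine map
`y ↦ S (y, 1)`) and convex; for `y` in it `⟪a, S (y,1)⟫ = 1`, so
`1 ≤ ‖a‖ ‖S (y,1)‖ ≤ ‖S (y,1)‖ / r` (`norm_le_of_ball_subset`), and `qfun P S y = gauge P (-S (y,1)) ≥ ‖S (y,1)‖ / R ≥ r / R`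
(`le_gauge_of_subset_closedBall`), `≤ ‖S (y,1)‖ / r ≤ R / r`.
`sector_chart`: a point `x ≠ 0` of the sector of `a` has `t = ⟪a, x⟫ > 0` (`poly_pos`), write `x = S (t • y, t) = t • S (y, 1)`;
`x` is in the sector iff `⟪c, S (y,1)⟫ ≤ 1` for all `c`, i.e. `y ∈ facet P S`; then `x ∈ P ⇔ t ≤ 1` and
`x ∈ -P ⇔ gauge P (-x) ≤ 1 ⇔ t * qfun P S y ≤ 1`.  By `chart_polar`
`vol (P ∩ sector A a) = jac S ∫_F ∫_0^1 t^2 dt dy = jac S / 3 * vol F`, and
`vol ((-P \ P) ∩ sector A a) = jac S ∫_F ∫_{1 < t ≤ 1/q} t^2 dt dy = jac S / 3 ∫_F (q^{-3} - 1)^+`.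
-/

open MeasureTheory Set Filter Topology Metric
open scoped ENNReal NNReal Pointwise

namespace Pool.Agent.Lib.MP_43065d_gt

variable {A : Finset E3} {r R : ℝ}

private theorem dnhds (hr : 0 < r) (h1 : closedBall 0 r ⊆ poly A) : poly A ∈ 𝓝 (0 : E3) :=
  mem_of_superset (closedBall_mem_nhds 0 hr) h1

private theorem dgauge_pos (hr : 0 < r) (h1 : closedBall 0 r ⊆ poly A) {t : ℝ} (ht : 0 < t)
    (x : E3) : gauge (poly A) x ≤ t ↔ ∀ c ∈ A, inner ℝ c x ≤ t := by
  have h := gauge_le_one_iff_mem_closure (poly_convex A).1 (dnhds hr h1) (x := t⁻¹ • x)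
  rw [(poly_convex A).2.closure_eq, gauge_smul_of_nonneg (inv_nonneg.2 ht.le), smul_eq_mul,
    inv_mul_le_iff₀ ht, mul_one] at h
  rw [h]
  constructor
  · intro hx c hc
    have := hx c hc
    rw [inner_smul_right, inv_mul_le_iff₀ ht, mul_one] at this
    exact this
  · intro hx c hc
    rw [inner_smul_right, inv_mul_le_iff₀ ht, mul_one]
    exact hx c hc

theorem poly_gauge (hr : 0 < r) (h1 : closedBall 0 r ⊆ poly A) {t : ℝ} (ht : 0 ≤ t) (x : E3) :
    gauge (poly A) x ≤ t ↔ ∀ c ∈ A, inner ℝ c x ≤ t := by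
  rcases ht.eq_or_lt with rfl | ht
  · constructor
    · intro h c hc
      refine le_of_forall_pos_le_add fun ε hε => ?_
      rw [zero_add]
      exact (dgauge_pos hr h1 hε x).1 (h.trans hε.le) c hc
    · intro h
      refine le_of_forall_pos_le_add fun ε hε => ?_
      rw [zero_add]
      exact (dgauge_pos hr h1 hε x).2 fun c hc => (h c hc).trans hε.le
  · exact dgauge_pos hr h1 ht x

theorem poly_pos (h2 : poly A ⊆ closedBall 0 R) {x : E3} (hx : x ≠ 0) :
    ∃ c ∈ A, 0 < inner ℝ c x := by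
  by_contra hcon
  push Not at hcon
  have hxn : 0 < ‖x‖ := norm_pos_iff.2 hx
  have hs : 0 ≤ (|R| + 1) / ‖x‖ := by positivity
  have hmem : ((|R| + 1) / ‖x‖) • x ∈ poly A := by
    intro c hc
    rw [inner_smul_right]
    have := mul_nonpos_of_nonneg_of_nonpos hs (hcon c hc)
    linarith
  have h := h2 hmem
  rw [mem_closedBall, dist_zero_right, norm_smul, Real.norm_of_nonneg hs,
    div_mul_cancel₀ _ hxn.ne'] at h
  linarith [le_abs_self R]

private theorem dsector_meas (A : Finset E3) (a : E3) : MeasurableSet (sector A a) := by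
  have h : sector A a = ⋂ c ∈ A, {x : E3 | inner ℝ c x ≤ inner ℝ a x} := by
    ext x
    simp [sector]
  rw [h]
  refine Finset.measurableSet_biInter _ fun c _ => ?_
  exact (isClosed_le (by fun_prop) (by fun_prop)).measurableSet

private theorem dplane_null {v : E3} (hv : v ≠ 0) : volume {x : E3 | inner ℝ v x = 0} = 0 := by
  have h := Measure.addHaar_submodule (volume : Measure E3) (LinearMap.ker (innerₛₗ ℝ v)) (by
    intro htop
    rw [LinearMap.ker_eq_top] at htop
    have h1 : (innerₛₗ ℝ v) v = 0 := by rw [htop]; rfl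
    have h2 : inner ℝ v v = (0 : ℝ) := h1
    exact hv (inner_self_eq_zero.1 h2))
  have h3 : {x : E3 | inner ℝ v x = 0} = ((LinearMap.ker (innerₛₗ ℝ v) : Submodule ℝ E3) : Set E3) := by
    ext x
    simp [innerₛₗ_apply_apply]
  rw [h3]
  exact h

private theorem dsum {B : Set E3} (hB : MeasurableSet B) (hBf : volume B ≠ ⊤) (hA : A.Nonempty) :
    volume.real B = ∑ a ∈ A, volume.real (B ∩ sector A a) := by
  have hU : B = ⋃ a ∈ A, B ∩ sector A a := by
    ext x
    simp only [mem_iUnion, exists_prop]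
    constructor
    · intro hx
      obtain ⟨a, ha, hmax⟩ := A.exists_max_image (fun c => (inner ℝ c x : ℝ)) hA
      exact ⟨a, ha, hx, hmax⟩
    · rintro ⟨a, ha, hx, _⟩
      exact hx
  conv_lhs => rw [hU]
  refine measureReal_biUnion_finset₀ ?_ ?_ ?_
  · intro a ha c hc hac
    refine measure_mono_null ?_ (dplane_null (sub_ne_zero.2 hac))
    rintro x ⟨⟨_, hxa⟩, ⟨_, hxc⟩⟩
    show inner ℝ (a - c) x = (0 : ℝ)
    rw [inner_sub_left]
    linarith [hxa c hc, hxc a ha]
  · intro a _
    exact (hB.inter (dsector_meas A a)).nullMeasurableSet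
  · intro a _
    exact ne_top_of_le_ne_top hBf (measure_mono inter_subset_left)

private theorem dnonempty (h2 : poly A ⊆ closedBall 0 R) : A.Nonempty := by
  obtain ⟨x, hx⟩ : ∃ x : E3, x ≠ 0 := exists_ne 0
  obtain ⟨c, hc, _⟩ := poly_pos h2 hx
  exact ⟨c, hc⟩

private theorem dfin (h2 : poly A ⊆ closedBall 0 R) : volume (poly A) ≠ ⊤ :=
  ne_top_of_le_ne_top (measure_closedBall_lt_top).ne (measure_mono h2)

private theorem dfin' (h2 : poly A ⊆ closedBall 0 R) : volume (-poly A) ≠ ⊤ := by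
  rw [Measure.measure_neg]
  exact dfin h2

theorem sum_sectors (hr : 0 < r) (h1 : closedBall 0 r ⊆ poly A) (h2 : poly A ⊆ closedBall 0 R) :
    volume.real (poly A) = ∑ a ∈ A, volume.real (poly A ∩ sector A a) ∧
    volume.real (-poly A \ poly A) = ∑ a ∈ A, volume.real ((-poly A \ poly A) ∩ sector A a) := by
  have hm := (poly_convex A).2.measurableSet
  refine ⟨dsum hm (dfin h2) (dnonempty h2), dsum (hm.neg.diff hm) ?_ (dnonempty h2)⟩
  exact ne_top_of_le_ne_top (dfin' h2) (measure_mono sdiff_subset)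

theorem diff_volume (hr : 0 < r) (h1 : closedBall 0 r ⊆ poly A) (h2 : poly A ⊆ closedBall 0 R) :
    volume.real (-poly A \ poly A) = volume.real (poly A) - Phi (poly A) 0 := by
  have hm := (poly_convex A).2.measurableSet
  have h := measureReal_sdiff_add_inter (μ := (volume : Measure E3)) (s := -poly A) (t := poly A)
    hm (dfin' h2)
  have h3 : volume.real (-poly A) = volume.real (poly A) := by
    rw [measureReal_def, Measure.measure_neg, ← measureReal_def]
  have h4 : poly A ∩ refl 0 (poly A) = -poly A ∩ poly A := by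
    rw [inter_comm]
    congr 1
    ext x
    simp [refl]
  rw [Phi, h4]
  linarith

theorem facet_facts (hr : 0 < r) (h1 : closedBall 0 r ⊆ poly A) (h2 : poly A ⊆ closedBall 0 R)
    {a : E3} (ha : a ∈ A) {S : (E2 × ℝ) ≃L[ℝ] E3} (hS : IsChart a S) :
    IsCompact (facet (poly A) S) ∧ Convex ℝ (facet (poly A) S) ∧
      ∀ y ∈ facet (poly A) S, r ≤ ‖S (y, 1)‖ ∧ r / R ≤ qfun (poly A) S y ∧
        qfun (poly A) S y ≤ R / r := by
  refine ⟨?_, ?_, ?_⟩
  · have hcl : IsClosed (facet (poly A) S) := by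
      have : facet (poly A) S = (fun y : E2 => S (y, 1)) ⁻¹' poly A := rfl
      rw [this]
      exact (poly_convex A).2.preimage (by fun_prop)
    refine Metric.isCompact_of_isClosed_isBounded hcl ?_
    refine (isBounded_closedBall (x := (0 : E2)) (r := ‖(S.symm : E3 →L[ℝ] (E2 × ℝ))‖ * R)).subset ?_
    intro y hy
    have hy1 : S (y, 1) ∈ poly A := hy
    have hy2 := h2 hy1
    rw [mem_closedBall, dist_zero_right] at hy2 ⊢
    have h3 := (S.symm : E3 →L[ℝ] (E2 × ℝ)).le_opNorm (S (y, 1))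
    have h4 : (S.symm : E3 →L[ℝ] (E2 × ℝ)) (S (y, 1)) = (y, 1) := S.symm_apply_apply _
    rw [h4] at h3
    have h5 : ‖y‖ ≤ ‖((y, 1) : E2 × ℝ)‖ := by
      rw [Prod.norm_def]
      exact le_max_left _ _
    calc ‖y‖ ≤ ‖((y, 1) : E2 × ℝ)‖ := h5
      _ ≤ _ := h3
      _ ≤ _ := mul_le_mul_of_nonneg_left hy2 (norm_nonneg _)
  · intro y hy z hz s t hs ht hst
    have hy1 : S (y, 1) ∈ poly A := hy
    have hz1 : S (z, 1) ∈ poly A := hz
    have h3 := (poly_convex A).1 hy1 hz1 hs ht hst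
    have h4 : s • S (y, 1) + t • S (z, 1) = S (s • y + t • z, 1) := by
      rw [← map_smul, ← map_smul, ← map_add]
      congr 1
      ext1
      · rfl
      · show s * 1 + t * 1 = 1
        linarith
    rw [h4] at h3
    exact h3
  · intro y hy
    have hy1 : S (y, 1) ∈ poly A := hy
    have hy2 := h2 hy1
    rw [mem_closedBall, dist_zero_right] at hy2
    have h3 : (1 : ℝ) ≤ ‖a‖ * ‖S (y, 1)‖ := by
      have h4 := real_inner_le_norm a (S (y, 1))
      rwa [hS y 1] at h4
    have h4 := norm_le_of_ball_subset hr h1 ha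
    have h5 : r ≤ ‖S (y, 1)‖ := by
      have h6 : (1 : ℝ) ≤ 1 / r * ‖S (y, 1)‖ :=
        h3.trans (mul_le_mul_of_nonneg_right h4 (norm_nonneg _))
      rw [one_div, ← div_eq_inv_mul, le_div_iff₀ hr] at h6
      linarith
    have hR : 0 < R := lt_of_lt_of_le hr (h5.trans hy2)
    refine ⟨h5, ?_, ?_⟩
    · have h6 := le_gauge_of_subset_closedBall (x := -S (y, 1))
        (absorbent_nhds_zero (dnhds hr h1)) hR.le h2
      rw [norm_neg] at h6
      exact (div_le_div_of_nonneg_right h5 hR.le).trans h6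
    · have h6 := mul_gauge_le_norm (s := poly A) (r := r) (x := -S (y, 1))
        (ball_subset_closedBall.trans h1)
      rw [norm_neg] at h6
      show gauge (poly A) (-S (y, 1)) ≤ R / r
      rw [le_div_iff₀ hr]
      linarith

private theorem dint {α : ℝ} (hα : 0 ≤ α) (β : ℝ) :
    ∫⁻ t in Ioi (0 : ℝ), ENNReal.ofReal (t ^ 2) * (Ioc α β).indicator 1 t =
      ENNReal.ofReal (max (β ^ 3 - α ^ 3) 0 / 3) := by
  have h1 : ∫⁻ t in Ioi (0 : ℝ), ENNReal.ofReal (t ^ 2) * (Ioc α β).indicator 1 t =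
      ∫⁻ t in Ioc α β, ENNReal.ofReal (t ^ 2) := by
    have h2 : ∀ t : ℝ, ENNReal.ofReal (t ^ 2) * (Ioc α β).indicator (1 : ℝ → ℝ≥0∞) t =
        (Ioc α β).indicator (fun t => ENNReal.ofReal (t ^ 2)) t := by
      intro t
      by_cases ht : t ∈ Ioc α β
      · rw [indicator_of_mem ht, indicator_of_mem ht]; simp
      · rw [indicator_of_notMem ht, indicator_of_notMem ht]; simp
    simp_rw [h2]
    rw [lintegral_indicator measurableSet_Ioc, Measure.restrict_restrict measurableSet_Ioc]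
    congr 2
    refine inter_eq_self_of_subset_left ?_
    intro t ht
    exact lt_of_le_of_lt hα ht.1
  rw [h1]
  rcases le_total α β with hab | hab
  · rw [← ofReal_integral_eq_lintegral_ofReal]
    · congr 1
      rw [← intervalIntegral.integral_of_le hab, integral_pow]
      have : α ^ 3 ≤ β ^ 3 := pow_le_pow_left₀ hα hab 3
      rw [max_eq_left (by linarith)]
      norm_num
    · exact ((continuous_pow 2).integrableOn_Icc).mono_set Ioc_subset_Icc_self
    · exact Eventually.of_forall fun t => sq_nonneg t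
  · rw [Ioc_eq_empty (not_lt.2 hab)]
    have h3 : max (β ^ 3 - α ^ 3) 0 = 0 := by
      refine max_eq_right ?_
      have : β ^ 3 ≤ α ^ 3 := by
        rcases le_or_gt 0 β with hβ | hβ
        · exact pow_le_pow_left₀ hβ hab 3
        · have h4 : β ^ 3 ≤ 0 := by
            have : β ^ 3 = β * β ^ 2 := by ring
            rw [this]
            exact mul_nonpos_of_nonpos_of_nonneg hβ.le (sq_nonneg β)
          have h5 : 0 ≤ α ^ 3 := by positivity
          linarith
      linarith
    rw [h3]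
    simp

private theorem dkey {a : E3} {S : (E2 × ℝ) ≃L[ℝ] E3} (hS : IsChart a S) {B : Set E3}
    (hB : MeasurableSet B) (hB0 : ∀ x ∈ B, inner ℝ a x ≤ 0 → x = 0) {F : Set E2}
    (hF : IsCompact F) {α : ℝ} (hα : 0 ≤ α) {β : E2 → ℝ} (hβ : ContinuousOn β F)
    (hiff : ∀ (y : E2) (t : ℝ), 0 < t → (S (t • y, t) ∈ B ↔ y ∈ F ∧ t ∈ Ioc α (β y))) :
    volume.real B = jac S / 3 * ∫ y in F, max (β y ^ 3 - α ^ 3) 0 := by
  have hJ := (jac_spec S).1
  have h1 := chart_polar hS (f := B.indicator 1) (measurable_one.indicator hB)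
  have h2 : ∫⁻ x in {x | 0 < inner ℝ a x}, B.indicator (1 : E3 → ℝ≥0∞) x = volume B := by
    have hm : MeasurableSet {x : E3 | 0 < inner ℝ a x} :=
      (isOpen_lt continuous_const (by fun_prop)).measurableSet
    rw [lintegral_indicator_one hB, Measure.restrict_apply hB]
    refine le_antisymm (measure_mono inter_subset_left) ?_
    have h3 : B ⊆ (B ∩ {x : E3 | 0 < inner ℝ a x}) ∪ {0} := by
      intro x hx
      rcases lt_or_ge 0 (inner ℝ a x : ℝ) with h | h
      · exact Or.inl ⟨hx, h⟩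
      · exact Or.inr (hB0 x hx h)
    calc volume B ≤ volume ((B ∩ {x : E3 | 0 < inner ℝ a x}) ∪ {0}) := measure_mono h3
      _ ≤ volume (B ∩ {x : E3 | 0 < inner ℝ a x}) + volume {(0 : E3)} := measure_union_le _ _
      _ = volume (B ∩ {x : E3 | 0 < inner ℝ a x}) := by simp
  have h4 : ∀ y : E2, ∫⁻ t in Ioi (0 : ℝ), ENNReal.ofReal (t ^ 2) *
      B.indicator (1 : E3 → ℝ≥0∞) (S (t • y, t)) =
        F.indicator (fun y => ENNReal.ofReal (max (β y ^ 3 - α ^ 3) 0 / 3)) y := by
    intro y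
    by_cases hy : y ∈ F
    · rw [indicator_of_mem hy, ← dint hα (β y)]
      refine setLIntegral_congr_fun measurableSet_Ioi fun t ht => ?_
      have h5 := hiff y t ht
      show ENNReal.ofReal (t ^ 2) * B.indicator (1 : E3 → ℝ≥0∞) (S (t • y, t)) =
        ENNReal.ofReal (t ^ 2) * (Ioc α (β y)).indicator 1 t
      congr 1
      by_cases ht2 : t ∈ Ioc α (β y)
      · rw [indicator_of_mem ht2, indicator_of_mem (h5.2 ⟨hy, ht2⟩)]; simp
      · rw [indicator_of_notMem ht2, indicator_of_notMem (fun h => ht2 (h5.1 h).2)]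
    · rw [indicator_of_notMem hy]
      have h6 : ∀ t ∈ Ioi (0 : ℝ), ENNReal.ofReal (t ^ 2) *
          B.indicator (1 : E3 → ℝ≥0∞) (S (t • y, t)) = (fun _ => (0 : ℝ≥0∞)) t := by
        intro t ht
        rw [indicator_of_notMem (fun h => hy ((hiff y t ht).1 h).1)]
        simp
      rw [setLIntegral_congr_fun measurableSet_Ioi h6]
      simp
  rw [h2] at h1
  simp_rw [h4] at h1
  rw [lintegral_indicator hF.measurableSet] at h1
  have hcont : ContinuousOn (fun y => max (β y ^ 3 - α ^ 3) 0) F :=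
    ((hβ.pow 3).sub continuousOn_const).sup continuousOn_const
  have hint : IntegrableOn (fun y => max (β y ^ 3 - α ^ 3) 0) F volume :=
    hcont.integrableOn_compact hF
  rw [← ofReal_integral_eq_lintegral_ofReal (hint.div_const 3)
    (Eventually.of_forall fun y => div_nonneg (le_max_right _ _) (by norm_num)),
    ← ENNReal.ofReal_mul hJ.le] at h1
  rw [measureReal_def, h1, ENNReal.toReal_ofReal]
  · rw [integral_div]
    ring
  · refine mul_nonneg hJ.le (integral_nonneg fun y => ?_)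
    exact div_nonneg (le_max_right _ _) (by norm_num)

private theorem dsmul {S : (E2 × ℝ) ≃L[ℝ] E3} (y : E2) (t : ℝ) :
    S (t • y, t) = t • S (y, 1) := by
  rw [← map_smul]
  congr 1
  ext1
  · rfl
  · show t = t * 1
    ring

private theorem dsector_iff (hr : 0 < r) (h1 : closedBall 0 r ⊆ poly A) {a : E3} (ha : a ∈ A)
    {S : (E2 × ℝ) ≃L[ℝ] E3} (hS : IsChart a S) (y : E2) {t : ℝ} (ht : 0 < t) :
    S (t • y, t) ∈ sector A a ↔ y ∈ facet (poly A) S := by
  rw [dsmul]
  constructor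
  · intro h c hc
    have h3 := h c hc
    rw [inner_smul_right, inner_smul_right, hS y 1, mul_one] at h3
    have h4 : t * inner ℝ c (S (y, 1)) ≤ t * 1 := by linarith
    exact le_of_mul_le_mul_left h4 ht
  · intro h c hc
    rw [inner_smul_right, inner_smul_right, hS y 1]
    exact mul_le_mul_of_nonneg_left (h c hc) ht.le

private theorem dsector_zero (h2 : poly A ⊆ closedBall 0 R) {a x : E3} (hx : x ∈ sector A a)
    (h : inner ℝ a x ≤ (0 : ℝ)) : x = 0 := by
  by_contra hne
  obtain ⟨c, hc, hpos⟩ := poly_pos h2 hne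
  linarith [hx c hc]

private theorem dpoly_iff (hr : 0 < r) (h1 : closedBall 0 r ⊆ poly A) {a : E3} (ha : a ∈ A)
    {S : (E2 × ℝ) ≃L[ℝ] E3} (hS : IsChart a S) {y : E2} (hy : y ∈ facet (poly A) S) {t : ℝ}
    (ht : 0 < t) : S (t • y, t) ∈ poly A ↔ t ≤ 1 := by
  rw [dsmul]
  constructor
  · intro h
    have h3 := h a ha
    rw [inner_smul_right, hS y 1, mul_one] at h3
    exact h3
  · intro h c hc
    rw [inner_smul_right]
    have h4 : t * inner ℝ c (S (y, 1)) ≤ t * 1 := mul_le_mul_of_nonneg_left (hy c hc) ht.le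
    linarith

private theorem dneg_iff (hr : 0 < r) (h1 : closedBall 0 r ⊆ poly A)
    {S : (E2 × ℝ) ≃L[ℝ] E3} {y : E2} {t : ℝ} (ht : 0 < t) (hq : 0 < qfun (poly A) S y) :
    S (t • y, t) ∈ -poly A ↔ t ≤ (qfun (poly A) S y)⁻¹ := by
  rw [dsmul, Set.mem_neg, ← smul_neg]
  have h := gauge_le_one_iff_mem_closure (poly_convex A).1 (dnhds hr h1) (x := t • -S (y, 1))
  rw [(poly_convex A).2.closure_eq, gauge_smul_of_nonneg ht.le, smul_eq_mul] at h
  rw [← h, le_inv_comm₀ ht hq]
  show t * gauge (poly A) (-S (y, 1)) ≤ 1 ↔ gauge (poly A) (-S (y, 1)) ≤ t⁻¹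
  rw [← one_div, le_div_iff₀ ht, mul_comm]

theorem sector_chart (hr : 0 < r) (h1 : closedBall 0 r ⊆ poly A) (h2 : poly A ⊆ closedBall 0 R)
    {a : E3} (ha : a ∈ A) {S : (E2 × ℝ) ≃L[ℝ] E3} (hS : IsChart a S) :
    volume.real (poly A ∩ sector A a) = jac S / 3 * volume.real (facet (poly A) S) ∧
    volume.real ((-poly A \ poly A) ∩ sector A a) =
      jac S / 3 * Qint (facet (poly A) S) (qfun (poly A) S) := by
  obtain ⟨hFc, hFv, hFq⟩ := facet_facts hr h1 h2 ha hS
  have hm := (poly_convex A).2.measurableSet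
  have hsm := dsector_meas A a
  constructor
  · have h := dkey hS (B := poly A ∩ sector A a) (hm.inter hsm)
      (fun x hx hle => dsector_zero h2 hx.2 hle) hFc (le_refl (0 : ℝ))
      (β := fun _ => 1) continuousOn_const (by
        intro y t ht
        rw [mem_inter_iff, dsector_iff hr h1 ha hS y ht]
        constructor
        · rintro ⟨h3, h4⟩
          exact ⟨h4, ht, (dpoly_iff hr h1 ha hS h4 ht).1 h3⟩
        · rintro ⟨h4, _, h3⟩
          exact ⟨(dpoly_iff hr h1 ha hS h4 ht).2 h3, h4⟩)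
    rw [h]
    congr 1
    norm_num
  · have hq : ∀ y ∈ facet (poly A) S, 0 < qfun (poly A) S y := by
      intro y hy
      obtain ⟨h3, h4, _⟩ := hFq y hy
      have hy2 := h2 (show S (y, 1) ∈ poly A from hy)
      rw [mem_closedBall, dist_zero_right] at hy2
      have hR : 0 < R := lt_of_lt_of_le hr (h3.trans hy2)
      exact lt_of_lt_of_le (div_pos hr hR) h4
    have hqc : Continuous (qfun (poly A) S) := by
      show Continuous fun y => gauge (poly A) (-S (y, 1))
      exact (continuous_gauge (poly_convex A).1 (dnhds hr h1)).comp (by fun_prop)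
    have h := dkey hS (B := (-poly A \ poly A) ∩ sector A a) ((hm.neg.diff hm).inter hsm)
      (fun x hx hle => dsector_zero h2 hx.2 hle) hFc (zero_le_one (α := ℝ))
      (β := fun y => (qfun (poly A) S y)⁻¹)
      (hqc.continuousOn.inv₀ fun y hy => (hq y hy).ne') (by
        intro y t ht
        rw [mem_inter_iff, dsector_iff hr h1 ha hS y ht, Set.mem_sdiff]
        constructor
        · rintro ⟨⟨h3, h4⟩, h5⟩
          refine ⟨h5, ?_, (dneg_iff hr h1 ht (hq y h5)).1 h3⟩
          by_contra h6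
          exact h4 ((dpoly_iff hr h1 ha hS h5 ht).2 (not_lt.1 h6))
        · rintro ⟨h5, h4, h3⟩
          refine ⟨⟨(dneg_iff hr h1 ht (hq y h5)).2 h3, ?_⟩, h5⟩
          intro h6
          exact absurd ((dpoly_iff hr h1 ha hS h5 ht).1 h6) (not_le.2 h4))
    rw [h, Qint]
    norm_num

end Pool.Agent.Lib.MP_43065d_gt
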