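import Pool.Agent.Lib.MP_43065d_gt.Center
import Pool.Agent.Lib.MP_43065d_gt.Decomp

/-!
# Module CsecDef: definitions for the second (three dimensional) part

`osup K`        : the vectors `a` with `⟪a, x⟫ ≤ 1` on `K` (the polar body)
`csec K a`      : the cone of the points `x` with `gauge K x ≤ ⟪a, x⟫`; for `a ∈ osup K` it is the cone over the face
                  `{x ∈ K | ⟪a, x⟫ = 1}`
`grp A κ a`     : the union of the sectors of the `c ∈ A` with `‖c - a‖ < κ`
`Nice`          : the properties of the polytopes of `exists_centered`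
-/

open MeasureTheory Set Filter Topology Metric
open scoped ENNReal NNReal Pointwise

namespace Pool.Agent.Lib.MP_43065d_gt

/-- the vectors `a` with `⟪a, x⟫ ≤ 1` on `K` -/
def osup (K : Set E3) : Set E3 := {a | ∀ x ∈ K, inner ℝ a x ≤ 1}

/-- the cone over the face with vector `a` -/
def csec (K : Set E3) (a : E3) : Set E3 := {x | gauge K x ≤ inner ℝ a x}

/-- the union of the sectors of the vectors close to `a` -/
def grp (A : Finset E3) (κ : ℝ) (a : E3) : Set E3 := {x | ∃ c ∈ A, ‖c - a‖ < κ ∧ x ∈ sector A c}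

/-- the properties of the polytopes of `exists_centered` -/
structure Nice (K₀ : Set E3) (m r R η : ℝ) (A : Finset E3) : Prop where
  ball : closedBall 0 r ⊆ poly A
  bdd : poly A ⊆ closedBall 0 R
  near : volume.real (symmDiff (poly A) K₀) ≤ η
  center : Phi (poly A) 0 = Dmax (poly A)
  ratio : Dmax (poly A) ≤ m * volume.real (poly A) + η
  crit : NCrit A m η

theorem Nice.mono {K₀ : Set E3} {m r R η η' : ℝ} {A : Finset E3} (h : Nice K₀ m r R η A)
    (hη : η ≤ η') : Nice K₀ m r R η' A := by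
  refine ⟨h.ball, h.bdd, h.near.trans hη, h.center, h.ratio.trans (by linarith), ?_⟩
  intro c hcA
  obtain ⟨d, hd, hdd⟩ := h.crit c hcA
  refine ⟨d, hd, fun a' ha' => (hdd a' ha').trans ?_⟩
  have h1 : (0 : ℝ) ≤ volume.real (symmDiff (poly A) (polyR A c a')) := measureReal_nonneg
  have h2 := mul_le_mul_of_nonneg_right hη h1
  linarith

/-- the minimality hypotheses on `K₀` -/
structure IsMin (K₀ : Set E3) (m : ℝ) : Prop where
  body : IsBody K₀
  zero : (0 : E3) ∈ interior K₀
  center : Phi K₀ 0 = Dmax K₀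
  pos : 0 < m
  le : ∀ K : Set E3, IsBody K → m * volume.real K ≤ Dmax K
  eq : Dmax K₀ = m * volume.real K₀

/-- there are nice polytopes -/
theorem exists_nice {K₀ : Set E3} {m : ℝ} (h : IsMin K₀ m) : ∃ r R : ℝ, 0 < r ∧
    ∀ η : ℝ, 0 < η → ∃ A : Finset E3, Nice K₀ m r R η A := by
  obtain ⟨r', hr', hrK⟩ : ∃ r' > 0, closedBall (0 : E3) r' ⊆ K₀ := by
    obtain ⟨e, he, hb⟩ := Metric.isOpen_iff.1 isOpen_interior 0 h.zero
    exact ⟨e / 2, by positivity, (closedBall_subset_ball (by linarith)).trans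
      (hb.trans interior_subset)⟩
  obtain ⟨R', hKR⟩ := h.body.isCompact.isBounded.subset_closedBall (0 : E3)
  refine ⟨r' / 4, 3 * R', by positivity, fun η hη => ?_⟩
  obtain ⟨A, hA1, hA2, hA3, hA4, hA5, hA6⟩ := exists_centered h.body hr' hrK hKR h.center
    h.pos.le h.le h.eq hη
  exact ⟨A, hA1, hA2, hA3, hA4, hA5, hA6⟩

end Pool.Agent.Lib.MP_43065d_gt
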