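import Pool.Agent.Lib.MP_43065d_gt.CsecA

/-!
# Module CutIneq: cutting the minimiser by a plane

PROOF.  `K₀ ⊆ closedBall 0 R`, `closedBall 0 ρ₀ ⊆ K₀`, `B = ‖b‖ R`, `C ε = {x ∈ K₀ | 1 < ⟪a + ε b, x⟫}`, `K ε = {x ∈ K₀ | ⟪a + ε b, x⟫ ≤ 1} = K₀ \ C ε`, for `0 < ε`, `ε B ≤ 1/4`.
(0) `K ε` is a body: convex, compact, and it contains a ball around `0` (`⟪a + ε b, x⟫` is small near `0`).
(1) `vol (C ε) → 0` as `ε → 0`: for `θ ∈ (0,1)` and `(1 - θ) (1 + ε B) ≤ 1` the set `(1 - θ) • K₀` does not meet `C ε` (on it `⟪a + ε b, x⟫ ≤ (1 - θ) (1 + ε B)`), so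
`vol (C ε) ≤ (1 - (1 - θ)^3) vol K₀` (`Measure.addHaar_smul`; `(1 - θ) • K₀ ⊆ K₀`).
(2) `symmDiff (K ε) K₀ = C ε`; by `center_close` (Center.lean) every maximum point `z` of `Phi (K ε)` (`exists_Phi_eq_Dmax`) has `‖z‖ ≤ min ρ (1/(8 (‖a‖ + 1)))` if `ε` is small.
(3) By minimality `Phi K₀ z - Phi (K ε) z ≤ Dmax K₀ - Dmax (K ε) ≤ m vol K₀ - m vol (K ε) = m vol (C ε)` (`Phi_le_Dmax`, `h.le`, `h.eq`).
(4) `(K₀ ∩ refl z K₀) \ (K ε ∩ refl z (K ε)) = X ∪ X'` with `X = {x ∈ C ε | 2 z - x ∈ K₀}`, `X' = {x | 2 z - x ∈ X}`; the map `x ↦ 2 z - x` preserves the volume, so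
`vol X' = vol X`; and `X ∩ X' = ∅`: `x ∈ C ε` has `⟪a, x⟫ > 1 - ε B ≥ 3/4`, and `⟪a, 2 z - x⟫ = 2 ⟪a, z⟫ - ⟪a, x⟫ ≤ 1/4 - 3/4 < 0`.  So `2 vol X = Phi K₀ z - Phi (K ε) z ≤ m vol (C ε)`.
-/

open MeasureTheory Set Filter Topology Metric
open scoped ENNReal NNReal Pointwise

namespace Pool.Agent.Lib.MP_43065d_gt

theorem cut_ineq {K₀ : Set E3} {m : ℝ} (h : IsMin K₀ m) {a : E3} (ha : a ∈ osup K₀) (b : E3)
    {ρ : ℝ} (hρ : 0 < ρ) : ∃ ε₀ > 0, ∀ ε : ℝ, 0 < ε → ε ≤ ε₀ → ∃ z : E3, ‖z‖ ≤ ρ ∧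
      2 * volume.real (K₀ ∩ {x | 1 < inner ℝ (a + ε • b) x} ∩ {x | (2 : ℝ) • z - x ∈ K₀}) ≤
        m * volume.real (K₀ ∩ {x | 1 < inner ℝ (a + ε • b) x}) := by
  obtain ⟨R', hKR'⟩ := h.body.isCompact.isBounded.subset_closedBall (0 : E3)
  obtain ⟨B, hB0, hB⟩ : ∃ B : ℝ, 0 ≤ B ∧ ∀ x ∈ K₀, inner ℝ b x ≤ B := by
    refine ⟨‖b‖ * |R'|, by positivity, fun x hx => ?_⟩
    have h1 := hKR' hx
    rw [mem_closedBall_zero_iff] at h1
    exact (real_inner_le_norm b x).trans
      (mul_le_mul_of_nonneg_left (h1.trans (le_abs_self _)) (norm_nonneg _))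
  obtain ⟨κ, hκ, hclose⟩ := center_close h.body h.center
    (show 0 < min ρ (1 / (8 * (‖a‖ + 1))) from lt_min hρ (by positivity))
  have h0K : (0 : E3) ∈ K₀ := interior_subset h.zero
  have hKm : MeasurableSet K₀ := h.body.isCompact.measurableSet
  have hKf : volume K₀ ≠ ⊤ := h.body.isCompact.measure_ne_top
  have hV : 0 ≤ volume.real K₀ := measureReal_nonneg
  obtain ⟨θ, hθ0, hθ1, hθV⟩ : ∃ θ : ℝ, 0 < θ ∧ θ ≤ 1 / 2 ∧ 3 * θ * volume.real K₀ ≤ κ := by
    refine ⟨min (1 / 2) (κ / (3 * (volume.real K₀ + 1))), lt_min (by norm_num) (by positivity),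
      min_le_left _ _, ?_⟩
    have h1 : min (1 / 2) (κ / (3 * (volume.real K₀ + 1))) ≤ κ / (3 * (volume.real K₀ + 1)) :=
      min_le_right _ _
    calc 3 * min (1 / 2) (κ / (3 * (volume.real K₀ + 1))) * volume.real K₀
        ≤ 3 * (κ / (3 * (volume.real K₀ + 1))) * volume.real K₀ := by gcongr
      _ = κ * (volume.real K₀ / (volume.real K₀ + 1)) := by field_simp
      _ ≤ κ * 1 := by
        gcongr
        exact (div_le_one (by positivity)).2 (by linarith)
      _ = κ := mul_one _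
  refine ⟨θ / (4 * (B + 1)), by positivity, fun ε hε hε1 => ?_⟩
  have hεB : ε * B ≤ θ / 4 := by
    calc ε * B ≤ θ / (4 * (B + 1)) * (B + 1) :=
          mul_le_mul hε1 (by linarith) hB0 (by positivity)
      _ = θ / 4 := by field_simp
  have hin : ∀ x ∈ K₀, inner ℝ (a + ε • b) x ≤ inner ℝ a x + θ / 4 := by
    intro x hx
    rw [inner_add_left, real_inner_smul_left]
    have h1 := mul_le_mul_of_nonneg_left (hB x hx) hε.le
    linarith
  set C : Set E3 := K₀ ∩ {x | 1 < inner ℝ (a + ε • b) x} with hC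
  set K' : Set E3 := K₀ ∩ {x | inner ℝ (a + ε • b) x ≤ 1} with hK'
  have hcont : Continuous fun x : E3 => inner ℝ (a + ε • b) x := by fun_prop
  have hCm : MeasurableSet C :=
    hKm.inter (isOpen_lt continuous_const hcont).measurableSet
  have hcl : IsClosed {x : E3 | inner ℝ (a + ε • b) x ≤ 1} := isClosed_le hcont continuous_const
  have hbody : IsBody K' := by
    refine ⟨h.body.convex.inter ?_, h.body.isCompact.inter_right hcl, ⟨0, ?_⟩⟩
    · intro x hx y hy s t hs ht hst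
      show inner ℝ (a + ε • b) (s • x + t • y) ≤ 1
      have hx' : inner ℝ (a + ε • b) x ≤ 1 := hx
      have hy' : inner ℝ (a + ε • b) y ≤ 1 := hy
      rw [inner_add_right, real_inner_smul_right, real_inner_smul_right]
      nlinarith [mul_le_mul_of_nonneg_left hx' hs, mul_le_mul_of_nonneg_left hy' ht]
    · rw [hK', interior_inter]
      refine ⟨h.zero, ?_⟩
      have h1 : {x : E3 | inner ℝ (a + ε • b) x < 1} ⊆ {x : E3 | inner ℝ (a + ε • b) x ≤ 1} :=
        fun x (hx : inner ℝ (a + ε • b) x < 1) =>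
          show inner ℝ (a + ε • b) x ≤ 1 from le_of_lt hx
      refine interior_maximal h1 (isOpen_lt hcont continuous_const) ?_
      show inner ℝ (a + ε • b) (0 : E3) < 1
      rw [inner_zero_right]
      exact one_pos
  have hK'm : MeasurableSet K' := hbody.isCompact.measurableSet
  -- the volume of the part cut off
  have hCvol : volume.real C ≤ κ := by
    have h1θ : (0 : ℝ) < 1 - θ := by linarith
    have hsm : (1 - θ) • K₀ ⊆ K₀ := by
      rintro _ ⟨y, hy, rfl⟩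
      have h1 := h.body.convex h0K hy hθ0.le h1θ.le (by ring)
      rwa [smul_zero, zero_add] at h1
    have hsub : C ⊆ K₀ \ ((1 - θ) • K₀) := by
      rintro x ⟨hx, hx1⟩
      refine ⟨hx, ?_⟩
      rintro ⟨y, hy, rfl⟩
      have hx1' : 1 < inner ℝ (a + ε • b) ((1 - θ) • y) := hx1
      rw [real_inner_smul_right] at hx1'
      have h1 := hin y hy
      have h2 : inner ℝ a y ≤ 1 := ha y hy
      have h3 : (1 - θ) * inner ℝ (a + ε • b) y ≤ (1 - θ) * (1 + θ / 4) :=
        mul_le_mul_of_nonneg_left (by linarith) h1θ.le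
      nlinarith [mul_pos hθ0 hθ0]
    have hsmm : MeasurableSet ((1 - θ) • K₀) := (h.body.isCompact.smul (1 - θ)).measurableSet
    have hvs : volume.real ((1 - θ) • K₀) = (1 - θ) ^ 3 * volume.real K₀ := by
      rw [Measure.real, Measure.addHaar_smul, ENNReal.toReal_mul,
        ENNReal.toReal_ofReal (abs_nonneg _), finrank_euclideanSpace_fin,
        abs_of_nonneg (by positivity)]
      rfl
    calc volume.real C ≤ volume.real (K₀ \ ((1 - θ) • K₀)) :=
          measureReal_mono hsub (measure_ne_top_of_subset sdiff_subset hKf)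
      _ = volume.real K₀ - volume.real ((1 - θ) • K₀) := by
          have h1 := measureReal_inter_add_sdiff (μ := volume) (s := K₀) hsmm hKf
          rw [inter_eq_self_of_subset_right hsm] at h1
          linarith
      _ = (1 - (1 - θ) ^ 3) * volume.real K₀ := by rw [hvs]; ring
      _ ≤ 3 * θ * volume.real K₀ := by
          refine mul_le_mul_of_nonneg_right ?_ hV
          nlinarith [mul_pos hθ0 hθ0, mul_pos (mul_pos hθ0 hθ0) hθ0]
      _ ≤ κ := hθV
  have hsd : symmDiff K' K₀ = C := by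
    ext x
    simp only [Set.mem_symmDiff, hK', hC, mem_inter_iff, mem_ofPred_eq]
    constructor
    · rintro (⟨⟨h1, -⟩, h2⟩ | ⟨h1, h2⟩)
      · exact absurd h1 h2
      · exact ⟨h1, not_le.1 fun h3 => h2 ⟨h1, h3⟩⟩
    · rintro ⟨h1, h2⟩
      exact Or.inr ⟨h1, fun h3 => absurd h3.2 (not_le.2 h2)⟩
  obtain ⟨z, -, hz⟩ := exists_Phi_eq_Dmax hbody
  have hzn := hclose K' hbody (by rw [hsd]; exact hCvol) z hz
  refine ⟨z, hzn.trans (min_le_left _ _), ?_⟩
  have haz : inner ℝ a ((2 : ℝ) • z) ≤ 1 / 4 := by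
    rw [real_inner_smul_right]
    have h1 : inner ℝ a z ≤ ‖a‖ * ‖z‖ := real_inner_le_norm a z
    have h2 : ‖a‖ * ‖z‖ ≤ (‖a‖ + 1) * (1 / (8 * (‖a‖ + 1))) :=
      mul_le_mul (by linarith) (hzn.trans (min_le_right _ _)) (norm_nonneg _) (by positivity)
    have h3 : (‖a‖ + 1) * (1 / (8 * (‖a‖ + 1))) = 1 / 8 := by
      have : ‖a‖ + 1 ≠ 0 := by positivity
      field_simp
    linarith
  have hsplit : volume.real K₀ = volume.real K' + volume.real C := by
    have h1 := measureReal_inter_add_sdiff (μ := volume) (s := K₀) hcl.measurableSet hKf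
    have h2 : K₀ \ {x : E3 | inner ℝ (a + ε • b) x ≤ 1} = C := by
      ext x
      simp only [hC, Set.mem_sdiff, mem_inter_iff, mem_ofPred_eq, not_le]
    rw [h2] at h1
    exact h1.symm
  have h3 : Phi K₀ z - Phi K' z ≤ m * volume.real C := by
    have e1 := Phi_le_Dmax h.body z
    have e2 := h.le K' hbody
    rw [h.eq, hsplit] at e1
    rw [← hz] at e2
    linarith [mul_add m (volume.real K') (volume.real C)]
  -- the two parts
  have hmp : MeasurePreserving (fun x : E3 => (2 : ℝ) • z - x) volume volume :=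
    Measure.measurePreserving_sub_left volume _
  set X : Set E3 := C ∩ {x | (2 : ℝ) • z - x ∈ K₀} with hX
  have hXm : MeasurableSet X := hCm.inter (hmp.measurable hKm)
  have hXK : X ⊆ K₀ := fun x hx => hx.1.1
  have hX'v : volume.real ((fun x : E3 => (2 : ℝ) • z - x) ⁻¹' X) = volume.real X := by
    unfold Measure.real
    rw [hmp.measure_preimage hXm.nullMeasurableSet]
  have hX'm : MeasurableSet ((fun x : E3 => (2 : ℝ) • z - x) ⁻¹' X) := hmp.measurable hXm
  have hinv : ∀ x : E3, (2 : ℝ) • z - ((2 : ℝ) • z - x) = x := fun x => by abel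
  have hdis1 : Disjoint X ((fun x : E3 => (2 : ℝ) • z - x) ⁻¹' X) := by
    rw [Set.disjoint_left]
    intro x hx hx'
    have h1 : 1 < inner ℝ (a + ε • b) x := hx.1.2
    have h2 : 1 < inner ℝ (a + ε • b) ((2 : ℝ) • z - x) := hx'.1.2
    have h4 := hin x (hXK hx)
    have h5 := hin _ (hXK hx')
    have h6 : inner ℝ a ((2 : ℝ) • z - x) = inner ℝ a ((2 : ℝ) • z) - inner ℝ a x :=
      inner_sub_right _ _ _
    rw [h6] at h5
    linarith
  have hdis2 : Disjoint (X ∪ (fun x : E3 => (2 : ℝ) • z - x) ⁻¹' X) (K' ∩ refl z K') := by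
    rw [Set.disjoint_left]
    rintro x (hx | hx) hx'
    · have e1 : 1 < inner ℝ (a + ε • b) x := hx.1.2
      have e2 : inner ℝ (a + ε • b) x ≤ 1 := hx'.1.2
      exact absurd e2 (not_le.2 e1)
    · have e1 : 1 < inner ℝ (a + ε • b) ((2 : ℝ) • z - x) := hx.1.2
      have e2 : inner ℝ (a + ε • b) ((2 : ℝ) • z - x) ≤ 1 := hx'.2.2
      exact absurd e2 (not_le.2 e1)
  have hrm : MeasurableSet (K' ∩ refl z K') := hK'm.inter (hmp.measurable hK'm)
  have h4 : Phi K' z + 2 * volume.real X ≤ Phi K₀ z := by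
    have hsub : (X ∪ (fun x : E3 => (2 : ℝ) • z - x) ⁻¹' X) ∪ (K' ∩ refl z K') ⊆
        K₀ ∩ refl z K₀ := by
      rintro x ((hx | hx) | hx)
      · exact ⟨hXK hx, hx.2⟩
      · refine ⟨?_, hXK hx⟩
        have h1 : (2 : ℝ) • z - ((2 : ℝ) • z - x) ∈ K₀ := hx.2
        rwa [hinv] at h1
      · exact ⟨hx.1.1, hx.2.1⟩
    have hfin : volume (K₀ ∩ refl z K₀) ≠ ⊤ := measure_ne_top_of_subset inter_subset_left hKf
    have h5 := measureReal_mono hsub hfin
    rw [measureReal_union hdis2 hrm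
      (measure_ne_top_of_subset (subset_union_left.trans hsub) hfin)
      (measure_ne_top_of_subset (subset_union_right.trans hsub) hfin),
      measureReal_union hdis1 hX'm
      (measure_ne_top_of_subset ((subset_union_left.trans subset_union_left).trans hsub) hfin)
      (measure_ne_top_of_subset ((subset_union_right.trans subset_union_left).trans hsub) hfin),
      hX'v] at h5
    unfold Phi
    linarith
  linarith

end Pool.Agent.Lib.MP_43065d_gt
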