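import Pool.Agent.Lib.MP_43065d_gt.FaceA

/-!
# Module CutLim: the first order volume of the part of a body cut off by a plane near a face

`K` a body, `0` interior, `a ∈ osup K`, `S` a chart adapted to `a`, `F = facet K S`, `ℓ y = ⟪b, S (y, 1)⟫`, `γ y = gauge K (S (y, 1)) ≥ 1` (`gle`), and
`γ y = 1` iff `y ∈ F`.  `C ε = {x ∈ K | 1 < ⟪a + ε b, x⟫}`.

PROOF.  `K ⊆ closedBall 0 R`.  For `ε ‖b‖ R ≤ 1/2` every `x ∈ C ε` has `⟪a, x⟫ ≥ 1/2 > 0`, so by `chart_polar` (with `f = C ε .indicator (ofReal ∘ W n)`) the integral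
is `jac S ∫⁻ y ∫⁻_{t > 0} ofReal (t²) f (S (t • y, t))`; `S (t • y, t) = t • S (y, 1)` is in `C ε` iff `t γ y ≤ 1` and `t (1 + ε ℓ y) > 1`.
Let `I n y` be `ε⁻¹` times the inner integral, `ε = ε n`.  If `I n y ≠ 0` then `t ≥ 1/2` and `t • S (y,1) ∈ K` for some `t`, so
`‖S (y,1)‖ ≤ 2 R` and `y` is in a fixed compact ball (`S.symm`); there `|ε ℓ| ≤ 1/2` for large `n` and
`I n y ≤ ε⁻¹ (1 - 1/(1 + ε ℓ⁺)) ≤ ℓ⁺ ≤ 2 ‖b‖ R` (`0 ≤ W ≤ 1`, `t ≤ 1`).  Pointwise limits: for `y ∉ F`, `γ y > 1`, the interval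
`(1/(1 + ε ℓ), 1/γ]` is empty for large `n`, so `I n y → 0`.  For a.e. `y ∈ F`: if `ℓ y ≤ 0` then `I n y = 0 = ℓ⁺ W'`.  If `ℓ y > 0`: for large `n` all
`t` of the interval `(1/(1 + ε ℓ), 1]` satisfy `|t - 1| < θ`, so `W n (S (t • y, t)) = W' y` and
`I n y = W' y ε⁻¹ (1 - (1 + ε ℓ)⁻³)/3 → W' y ℓ y`.  Dominated convergence (`tendsto_lintegral_of_dominated_convergence'` or after `toReal`
`tendsto_integral_of_dominated_convergence`; `n ↦` measurability in `y` from `Measurable.lintegral_prod_right'`).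
-/

open MeasureTheory Set Filter Topology Metric
open scoped ENNReal NNReal Pointwise

namespace Pool.Agent.Lib.MP_43065d_gt

private def cutC (K : Set E3) (a b : E3) (ε : ℝ) : Set E3 := K ∩ {x | 1 < inner ℝ (a + ε • b) x}

private noncomputable def cutI (K : Set E3) (a b : E3) (S : (E2 × ℝ) ≃L[ℝ] E3) (ε : ℝ) (w : E3 → ℝ)
    (y : E2) : ℝ≥0∞ :=
  ∫⁻ t in Ioi (0 : ℝ), ENNReal.ofReal (t ^ 2) *
    (cutC K a b ε).indicator (fun x => ENNReal.ofReal (w x)) (S (t • y, t))

private theorem cut_smul (S : (E2 × ℝ) ≃L[ℝ] E3) (y : E2) (t : ℝ) : S (t • y, t) = t • S (y, 1) := by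
  rw [← map_smul]
  congr 1
  simp

/-- membership in the cut part -/
private theorem cut_mem {K : Set E3} {a b : E3} {S : (E2 × ℝ) ≃L[ℝ] E3} (hS : IsChart a S)
    {ε t : ℝ} {y : E2} (h : S (t • y, t) ∈ cutC K a b ε) :
    t • S (y, 1) ∈ K ∧ 1 < t * (1 + ε * inner ℝ b (S (y, 1))) := by
  refine ⟨cut_smul S y t ▸ h.1, ?_⟩
  have h2 : 1 < inner ℝ (a + ε • b) (S (t • y, t)) := h.2
  rw [inner_add_left, hS, inner_smul_left, cut_smul, inner_smul_right] at h2
  have e : (starRingEnd ℝ) ε = ε := rfl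
  rw [e] at h2
  linarith

private theorem cut_mem' {K : Set E3} {a b : E3} {S : (E2 × ℝ) ≃L[ℝ] E3} (hS : IsChart a S)
    {ε t : ℝ} {y : E2} (h1 : t • S (y, 1) ∈ K) (h2 : 1 < t * (1 + ε * inner ℝ b (S (y, 1)))) :
    S (t • y, t) ∈ cutC K a b ε := by
  refine ⟨by rw [cut_smul]; exact h1, ?_⟩
  show 1 < inner ℝ (a + ε • b) (S (t • y, t))
  rw [inner_add_left, hS, inner_smul_left, cut_smul, inner_smul_right]
  have e : (starRingEnd ℝ) ε = ε := rfl
  rw [e]
  linarith

private theorem cut_le_one {K : Set E3} {a : E3} (ha : a ∈ osup K) {S : (E2 × ℝ) ≃L[ℝ] E3}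
    (hS : IsChart a S) {t : ℝ} {y : E2} (h : t • S (y, 1) ∈ K) : t ≤ 1 := by
  have h1 := ha _ h
  rw [inner_smul_right, hS, mul_one] at h1
  exact h1

private theorem cutC_meas {K : Set E3} (hK : IsBody K) (a b : E3) (ε : ℝ) :
    MeasurableSet (cutC K a b ε) :=
  hK.isCompact.isClosed.measurableSet.inter
    (isOpen_lt continuous_const (continuous_const.inner continuous_id)).measurableSet

private theorem cutI_meas {K : Set E3} (hK : IsBody K) (a b : E3) (S : (E2 × ℝ) ≃L[ℝ] E3) (ε : ℝ)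
    {w : E3 → ℝ} (hw : Measurable w) : Measurable (cutI K a b S ε w) := by
  unfold cutI
  have h : Measurable fun p : E2 × ℝ => ENNReal.ofReal (p.2 ^ 2) *
      (cutC K a b ε).indicator (fun x => ENNReal.ofReal (w x)) (S (p.2 • p.1, p.2)) := by
    refine Measurable.mul (by fun_prop) ?_
    refine Measurable.comp (hw.ennreal_ofReal.indicator (cutC_meas hK a b ε)) ?_
    exact S.continuous.measurable.comp (by fun_prop)
  exact h.lintegral_prod_right'

/-- the integrand vanishes if no point of the ray is cut off -/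
private theorem cutI_zero {K : Set E3} {a b : E3} {S : (E2 × ℝ) ≃L[ℝ] E3} {ε : ℝ} {w : E3 → ℝ}
    {y : E2} (h : ∀ t : ℝ, 0 < t → S (t • y, t) ∉ cutC K a b ε) : cutI K a b S ε w y = 0 := by
  unfold cutI
  rw [lintegral_eq_zero_of_ae_eq_zero]
  filter_upwards [ae_restrict_mem measurableSet_Ioi] with t ht
  rw [indicator_of_notMem (h t ht), mul_zero]
  rfl

/-- the uniform bound -/
private theorem cutI_le {K : Set E3} {a : E3} (ha : a ∈ osup K) {b : E3}
    {S : (E2 × ℝ) ≃L[ℝ] E3} (hS : IsChart a S) {R : ℝ} (hR : 0 < R) (hKR : K ⊆ closedBall 0 R)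
    {ε : ℝ} (hε : 0 < ε) (hεb : ε * (‖b‖ * R) ≤ 1 / 2) {w : E3 → ℝ} (hw1 : ∀ x, w x ≤ 1) (y : E2) :
    ENNReal.ofReal ε⁻¹ * cutI K a b S ε w y ≤
      (closedBall (0 : E2) (‖(S.symm : E3 →L[ℝ] (E2 × ℝ))‖ * (2 * R))).indicator
        (fun _ => ENNReal.ofReal (‖b‖ * (2 * R))) y := by
  have key : ∀ t : ℝ, 0 < t → S (t • y, t) ∈ cutC K a b ε →
      ‖S (y, 1)‖ ≤ 2 * R ∧ t ≤ 1 ∧ 1 - ε * (‖b‖ * (2 * R)) < t := by
    intro t ht h
    obtain ⟨h1, h2⟩ := cut_mem hS h
    have h3 := cut_le_one ha hS h1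
    have h4 : ‖t • S (y, 1)‖ ≤ R := mem_closedBall_zero_iff.1 (hKR h1)
    have h5 : t * inner ℝ b (S (y, 1)) ≤ ‖b‖ * R := by
      rw [← inner_smul_right]
      exact (real_inner_le_norm _ _).trans (mul_le_mul_of_nonneg_left h4 (norm_nonneg _))
    have h6 : ε * (t * inner ℝ b (S (y, 1))) ≤ 1 / 2 :=
      (mul_le_mul_of_nonneg_left h5 hε.le).trans hεb
    have h7 : 1 / 2 < t := by nlinarith
    have h8 : ‖S (y, 1)‖ ≤ 2 * R := by
      rw [norm_smul, Real.norm_of_nonneg ht.le] at h4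
      nlinarith [norm_nonneg (S (y, 1))]
    refine ⟨h8, h3, ?_⟩
    have h9 : inner ℝ b (S (y, 1)) ≤ ‖b‖ * (2 * R) :=
      (real_inner_le_norm _ _).trans (mul_le_mul_of_nonneg_left h8 (norm_nonneg _))
    have h10 : 0 ≤ ‖b‖ * (2 * R) := by positivity
    have h11 : t * (ε * inner ℝ b (S (y, 1))) ≤ ε * (‖b‖ * (2 * R)) := by
      have h12 : t * (ε * inner ℝ b (S (y, 1))) ≤ t * (ε * (‖b‖ * (2 * R))) :=
        mul_le_mul_of_nonneg_left (mul_le_mul_of_nonneg_left h9 hε.le) ht.le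
      have h13 : t * (ε * (‖b‖ * (2 * R))) ≤ 1 * (ε * (‖b‖ * (2 * R))) :=
        mul_le_mul_of_nonneg_right h3 (by positivity)
      linarith
    nlinarith
  by_cases hy : y ∈ closedBall (0 : E2) (‖(S.symm : E3 →L[ℝ] (E2 × ℝ))‖ * (2 * R))
  · rw [indicator_of_mem hy]
    have h1 : cutI K a b S ε w y ≤
        ∫⁻ t, (Ioc (1 - ε * (‖b‖ * (2 * R))) 1).indicator (fun _ => (1 : ℝ≥0∞)) t := by
      unfold cutI
      rw [← lintegral_indicator measurableSet_Ioi]
      refine lintegral_mono fun t => ?_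
      by_cases ht : t ∈ Ioi (0 : ℝ)
      · rw [indicator_of_mem ht]
        by_cases h : S (t • y, t) ∈ cutC K a b ε
        · obtain ⟨-, h2, h3⟩ := key t ht h
          rw [indicator_of_mem h, indicator_of_mem (show t ∈ Ioc _ _ from ⟨h3, h2⟩)]
          have ht' : 0 < t := ht
          calc ENNReal.ofReal (t ^ 2) * ENNReal.ofReal (w (S (t • y, t)))
              ≤ ENNReal.ofReal 1 * ENNReal.ofReal 1 :=
                mul_le_mul' (ENNReal.ofReal_le_ofReal (by nlinarith))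
                  (ENNReal.ofReal_le_ofReal (hw1 _))
            _ = 1 := by simp
        · rw [indicator_of_notMem h, mul_zero]
          exact zero_le
      · rw [indicator_of_notMem ht]
        exact zero_le
    rw [lintegral_indicator measurableSet_Ioc, setLIntegral_one, Real.volume_Ioc] at h1
    have e1 : (1 : ℝ) - (1 - ε * (‖b‖ * (2 * R))) = ε * (‖b‖ * (2 * R)) := by ring
    rw [e1] at h1
    calc ENNReal.ofReal ε⁻¹ * cutI K a b S ε w y
        ≤ ENNReal.ofReal ε⁻¹ * ENNReal.ofReal (ε * (‖b‖ * (2 * R))) := mul_le_mul' le_rfl h1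
      _ = ENNReal.ofReal (‖b‖ * (2 * R)) := by
        rw [← ENNReal.ofReal_mul (inv_nonneg.2 hε.le), ← mul_assoc, inv_mul_cancel₀ hε.ne', one_mul]
  · rw [indicator_of_notMem hy, cutI_zero, mul_zero]
    intro t ht h
    apply hy
    obtain ⟨h1, -, -⟩ := key t ht h
    rw [mem_closedBall_zero_iff]
    have h2 : (S.symm (S (y, 1))) = (y, (1 : ℝ)) := S.symm_apply_apply _
    have h3 : ‖y‖ ≤ ‖S.symm (S (y, 1))‖ := by
      rw [h2]
      exact norm_fst_le (y, (1 : ℝ))
    have h4 : ‖S.symm (S (y, 1))‖ ≤ ‖(S.symm : E3 →L[ℝ] (E2 × ℝ))‖ * ‖S (y, 1)‖ :=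
      (S.symm : E3 →L[ℝ] (E2 × ℝ)).le_opNorm _
    exact h3.trans (h4.trans (mul_le_mul_of_nonneg_left h1 (norm_nonneg _)))

/-- the pointwise limit on the face -/
private theorem cutI_lim {K : Set E3} (hK : IsBody K) (h0 : (0 : E3) ∈ interior K) {a : E3}
    (ha : a ∈ osup K) {S : (E2 × ℝ) ≃L[ℝ] E3} (hS : IsChart a S) (b : E3) {e : ℕ → ℝ}
    (he : ∀ n, 0 < e n) (he0 : Tendsto e atTop (𝓝 0)) {W : ℕ → E3 → ℝ} {y : E2} {c : ℝ}
    (hy : y ∈ facet K S) (hc : 0 ≤ c) (hlim : ∃ θ > 0, ∀ᶠ n in atTop, ∀ t : ℝ, |t - 1| < θ →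
      W n (S (t • y, t)) = c) :
    Tendsto (fun n => ENNReal.ofReal (e n)⁻¹ * cutI K a b S (e n) (W n) y) atTop
      (𝓝 (ENNReal.ofReal (max (inner ℝ b (S (y, 1))) 0 * c))) := by
  set l : ℝ := inner ℝ b (S (y, 1)) with hl
  have hyK : S (y, 1) ∈ K := hy
  rcases le_or_gt l 0 with hl0 | hl0
  · have h1 : ∀ n, cutI K a b S (e n) (W n) y = 0 := by
      intro n
      apply cutI_zero
      intro t ht h
      obtain ⟨h1, h2⟩ := cut_mem hS h
      have h3 := cut_le_one ha hS h1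
      rw [← hl] at h2
      have h4 : e n * l ≤ 0 := mul_nonpos_of_nonneg_of_nonpos (he n).le hl0
      nlinarith
    simp_rw [h1, mul_zero]
    rw [max_eq_right hl0, zero_mul, ENNReal.ofReal_zero]
    exact tendsto_const_nhds
  · rw [max_eq_left hl0.le]
    obtain ⟨θ, hθ, hev⟩ := hlim
    have hel : Tendsto (fun n => 1 + e n * l) atTop (𝓝 1) := by
      have : Tendsto (fun n => 1 + e n * l) atTop (𝓝 (1 + 0 * l)) :=
        tendsto_const_nhds.add (he0.mul_const l)
      simpa using this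
    have hsmall : ∀ᶠ n in atTop, e n * l < θ := by
      have h1 : Tendsto (fun n => e n * l) atTop (𝓝 0) := by
        simpa using he0.mul_const l
      exact (tendsto_order.1 h1).2 θ hθ
    have hset : ∀ n, ∀ t : ℝ, 0 < t → (S (t • y, t) ∈ cutC K a b (e n) ↔
        t ∈ Ioc (1 + e n * l)⁻¹ 1) := by
      intro n t ht
      have hp : 0 < 1 + e n * l := by have := mul_pos (he n) hl0; linarith
      constructor
      · intro h
        obtain ⟨h1, h2⟩ := cut_mem hS h
        rw [← hl] at h2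
        refine ⟨?_, cut_le_one ha hS h1⟩
        rw [inv_lt_iff_one_lt_mul₀ hp]
        exact h2
      · rintro ⟨h1, h2⟩
        rw [inv_lt_iff_one_lt_mul₀ hp] at h1
        refine cut_mem' hS ?_ (by rw [← hl]; exact h1)
        have := hK.convex (interior_subset h0) hyK (sub_nonneg.2 h2) ht.le (by ring)
        simpa using this
    -- the value
    have hval : ∀ᶠ n in atTop, cutI K a b S (e n) (W n) y =
        ∫⁻ t in Ioc (1 + e n * l)⁻¹ 1, ENNReal.ofReal (t ^ 2) * ENNReal.ofReal c := by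
      filter_upwards [hev, hsmall] with n h1 h2
      have hp : 0 < 1 + e n * l := by have := mul_pos (he n) hl0; linarith
      unfold cutI
      rw [← lintegral_indicator measurableSet_Ioi, ← lintegral_indicator measurableSet_Ioc]
      refine lintegral_congr fun t => ?_
      by_cases ht : t ∈ Ioc (1 + e n * l)⁻¹ 1
      · have ht0 : 0 < t := (inv_pos.2 hp).trans ht.1
        rw [indicator_of_mem ht, indicator_of_mem (show t ∈ Ioi (0 : ℝ) from ht0),
          indicator_of_mem ((hset n t ht0).2 ht)]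
        congr 2
        apply h1
        rw [abs_lt]
        have h3 : 1 - e n * l < t := by
          refine lt_of_le_of_lt ?_ ht.1
          rw [← one_div, le_div_iff₀ hp]
          nlinarith [mul_pos (he n) hl0, mul_self_nonneg (e n * l)]
        constructor
        · linarith
        · linarith [ht.2]
      · rw [indicator_of_notMem ht]
        by_cases ht0 : t ∈ Ioi (0 : ℝ)
        · rw [indicator_of_mem ht0, indicator_of_notMem (fun h => ht ((hset n t ht0).1 h)), mul_zero]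
        · rw [indicator_of_notMem ht0]
    have hup : ∀ᶠ n in atTop, ENNReal.ofReal (e n)⁻¹ * cutI K a b S (e n) (W n) y ≤
        ENNReal.ofReal (l * (1 + e n * l)⁻¹ * c) := by
      filter_upwards [hval] with n h1
      have hp : 0 < 1 + e n * l := by have := mul_pos (he n) hl0; linarith
      rw [h1]
      have h2 : ∫⁻ t in Ioc (1 + e n * l)⁻¹ 1, ENNReal.ofReal (t ^ 2) * ENNReal.ofReal c ≤
          ∫⁻ t in Ioc (1 + e n * l)⁻¹ 1, ENNReal.ofReal c := by
        refine setLIntegral_mono measurable_const fun t ht => ?_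
        have ht0 : 0 < t := (inv_pos.2 hp).trans ht.1
        calc ENNReal.ofReal (t ^ 2) * ENNReal.ofReal c ≤ ENNReal.ofReal 1 * ENNReal.ofReal c :=
              mul_le_mul' (ENNReal.ofReal_le_ofReal (by nlinarith [ht.2])) le_rfl
          _ = ENNReal.ofReal c := by simp
      rw [setLIntegral_const, Real.volume_Ioc] at h2
      refine (mul_le_mul' le_rfl h2).trans ?_
      have e1 : 1 - (1 + e n * l)⁻¹ = e n * (l * (1 + e n * l)⁻¹) := by
        field_simp
        ring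
      rw [e1, ← ENNReal.ofReal_mul hc, ← ENNReal.ofReal_mul (inv_nonneg.2 (he n).le)]
      apply ENNReal.ofReal_le_ofReal
      have h3 : (e n)⁻¹ * (c * (e n * (l * (1 + e n * l)⁻¹))) =
          ((e n)⁻¹ * e n) * (l * (1 + e n * l)⁻¹ * c) := by ring
      rw [h3, inv_mul_cancel₀ (he n).ne', one_mul]
    have hlo : ∀ᶠ n in atTop, ENNReal.ofReal (l * (1 + e n * l)⁻¹ ^ 3 * c) ≤
        ENNReal.ofReal (e n)⁻¹ * cutI K a b S (e n) (W n) y := by
      filter_upwards [hval] with n h1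
      have hp : 0 < 1 + e n * l := by have := mul_pos (he n) hl0; linarith
      rw [h1]
      have h2 : ∫⁻ t in Ioc (1 + e n * l)⁻¹ 1, ENNReal.ofReal ((1 + e n * l)⁻¹ ^ 2) *
          ENNReal.ofReal c ≤
          ∫⁻ t in Ioc (1 + e n * l)⁻¹ 1, ENNReal.ofReal (t ^ 2) * ENNReal.ofReal c := by
        refine setLIntegral_mono (by fun_prop) fun t ht => ?_
        exact mul_le_mul' (ENNReal.ofReal_le_ofReal
          (pow_le_pow_left₀ (inv_pos.2 hp).le ht.1.le 2)) le_rfl
      rw [setLIntegral_const, Real.volume_Ioc] at h2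
      refine le_trans ?_ (mul_le_mul' le_rfl h2)
      have e1 : 1 - (1 + e n * l)⁻¹ = e n * (l * (1 + e n * l)⁻¹) := by
        field_simp
        ring
      rw [e1, ← ENNReal.ofReal_mul (by positivity), ← ENNReal.ofReal_mul (by positivity),
        ← ENNReal.ofReal_mul (inv_nonneg.2 (he n).le)]
      apply ENNReal.ofReal_le_ofReal
      have h3 : (e n)⁻¹ * ((1 + e n * l)⁻¹ ^ 2 * c * (e n * (l * (1 + e n * l)⁻¹))) =
          ((e n)⁻¹ * e n) * (l * (1 + e n * l)⁻¹ ^ 3 * c) := by ring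
      rw [h3, inv_mul_cancel₀ (he n).ne', one_mul]
    have hinv : Tendsto (fun n => (1 + e n * l)⁻¹) atTop (𝓝 1) := by
      simpa using hel.inv₀ one_ne_zero
    have hl1 : Tendsto (fun n => ENNReal.ofReal (l * (1 + e n * l)⁻¹ * c)) atTop
        (𝓝 (ENNReal.ofReal (l * c))) := by
      apply ENNReal.tendsto_ofReal
      simpa using (tendsto_const_nhds.mul hinv).mul_const c
    have hl2 : Tendsto (fun n => ENNReal.ofReal (l * (1 + e n * l)⁻¹ ^ 3 * c)) atTop
        (𝓝 (ENNReal.ofReal (l * c))) := by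
      apply ENNReal.tendsto_ofReal
      simpa using (tendsto_const_nhds.mul (hinv.pow 3)).mul_const c
    exact tendsto_of_tendsto_of_tendsto_of_le_of_le' hl2 hl1 hlo hup

/-- the pointwise limit outside the face -/
private theorem cutI_out {K : Set E3} (hK : IsBody K) (h0 : (0 : E3) ∈ interior K) {a b : E3}
    {S : (E2 × ℝ) ≃L[ℝ] E3} (hS : IsChart a S) {e : ℕ → ℝ}
    (he : ∀ n, 0 < e n) (he0 : Tendsto e atTop (𝓝 0)) {W : ℕ → E3 → ℝ} {y : E2}
    (hy : y ∉ facet K S) :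
    Tendsto (fun n => ENNReal.ofReal (e n)⁻¹ * cutI K a b S (e n) (W n) y) atTop (𝓝 0) := by
  have hK0 : K ∈ 𝓝 (0 : E3) := mem_interior_iff_mem_nhds.1 h0
  have hg : 1 < gauge K (S (y, 1)) := by
    by_contra hn
    apply hy
    have h1 := (gauge_le_one_iff_mem_closure hK.convex hK0).1 (not_lt.1 hn)
    rw [hK.isCompact.isClosed.closure_eq] at h1
    exact h1
  have h1 : Tendsto (fun n => 1 + e n * |inner ℝ b (S (y, 1))|) atTop (𝓝 1) := by
    have : Tendsto (fun n => 1 + e n * |inner ℝ b (S (y, 1))|) atTop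
        (𝓝 (1 + 0 * |inner ℝ b (S (y, 1))|)) :=
      tendsto_const_nhds.add (he0.mul_const _)
    simpa using this
  have h2 : ∀ᶠ n in atTop, ENNReal.ofReal (e n)⁻¹ * cutI K a b S (e n) (W n) y = 0 := by
    filter_upwards [(tendsto_order.1 h1).2 _ hg] with n hn
    rw [cutI_zero, mul_zero]
    intro t ht h
    obtain ⟨h3, h4⟩ := cut_mem hS h
    have h5 : t * gauge K (S (y, 1)) ≤ 1 := by
      have := gauge_le_one_of_mem h3
      rw [gauge_smul_of_nonneg ht.le, smul_eq_mul] at this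
      exact this
    have h6 : e n * inner ℝ b (S (y, 1)) ≤ e n * |inner ℝ b (S (y, 1))| :=
      mul_le_mul_of_nonneg_left (le_abs_self _) (he n).le
    have h7 : t * (1 + e n * inner ℝ b (S (y, 1))) ≤ t * gauge K (S (y, 1)) :=
      mul_le_mul_of_nonneg_left (by linarith) ht.le
    linarith
  exact tendsto_const_nhds.congr' (h2.mono fun n hn => hn.symm)

theorem cut_lim {K : Set E3} (hK : IsBody K) (h0 : (0 : E3) ∈ interior K) {a : E3}
    (ha : a ∈ osup K) {S : (E2 × ℝ) ≃L[ℝ] E3} (hS : IsChart a S) (b : E3) {e : ℕ → ℝ}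
    (he : ∀ n, 0 < e n) (he0 : Tendsto e atTop (𝓝 0)) {W : ℕ → E3 → ℝ} {W' : E2 → ℝ}
    (hW : ∀ n, Measurable (W n)) (hW0 : ∀ n x, 0 ≤ W n x) (hW1 : ∀ n x, W n x ≤ 1)
    (hW' : Measurable W')
    (hlim : ∀ᵐ y : E2, y ∈ facet K S → ∃ θ > 0, ∀ᶠ n in atTop, ∀ t : ℝ, |t - 1| < θ →
      W n (S (t • y, t)) = W' y) :
    Tendsto (fun n => (e n)⁻¹ * ∫ x in K ∩ {x | 1 < inner ℝ (a + e n • b) x}, W n x) atTop
      (𝓝 (jac S * ∫ y in facet K S, max (inner ℝ b (S (y, 1))) 0 * W' y)) := by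
  obtain ⟨R, hR, hKR⟩ : ∃ R : ℝ, 0 < R ∧ K ⊆ closedBall 0 R := by
    obtain ⟨R, hR⟩ := hK.isCompact.isBounded.subset_closedBall (0 : E3)
    exact ⟨max R 1, lt_of_lt_of_le one_pos (le_max_right _ _),
      hR.trans (closedBall_subset_closedBall (le_max_left _ _))⟩
  have hFm : MeasurableSet (facet K S) :=
    (hK.isCompact.isClosed.preimage (by fun_prop : Continuous fun y : E2 => S (y, 1))).measurableSet
  -- nonnegativity of the limit weight
  have hc : ∀ᵐ y : E2, y ∈ facet K S → 0 ≤ W' y := by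
    filter_upwards [hlim] with y hy hyF
    obtain ⟨θ, hθ, hev⟩ := hy hyF
    obtain ⟨n, hn⟩ := hev.exists
    rw [← hn 1 (by simpa using hθ)]
    exact hW0 n _
  set G : E2 → ℝ≥0∞ := (facet K S).indicator
    (fun y => ENNReal.ofReal (max (inner ℝ b (S (y, 1))) 0 * W' y)) with hG
  set bd : E2 → ℝ≥0∞ := (closedBall (0 : E2) (‖(S.symm : E3 →L[ℝ] (E2 × ℝ))‖ * (2 * R))).indicator
        (fun _ => ENNReal.ofReal (‖b‖ * (2 * R))) with hbd
  have hsmall : ∀ᶠ n in atTop, e n * (‖b‖ * R) ≤ 1 / 2 := by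
    have h1 : Tendsto (fun n => e n * (‖b‖ * R)) atTop (𝓝 0) := by
      simpa using he0.mul_const (‖b‖ * R)
    filter_upwards [(tendsto_order.1 h1).2 (1 / 2) (by norm_num)] with n hn
    exact hn.le
  have hbound : ∀ᶠ n in atTop, ∀ y, ENNReal.ofReal (e n)⁻¹ * cutI K a b S (e n) (W n) y ≤ bd y := by
    filter_upwards [hsmall] with n hn y
    exact cutI_le ha hS hR hKR (he n) hn (hW1 n) y
  have hbdfin : ∫⁻ y, bd y ≠ ⊤ := by
    rw [hbd, lintegral_indicator measurableSet_closedBall, setLIntegral_const]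
    exact ENNReal.mul_ne_top ENNReal.ofReal_ne_top (isCompact_closedBall _ _).measure_ne_top
  have hpt : ∀ᵐ y : E2, Tendsto (fun n => ENNReal.ofReal (e n)⁻¹ * cutI K a b S (e n) (W n) y) atTop
      (𝓝 (G y)) := by
    filter_upwards [hlim, hc] with y hy hcy
    by_cases hyF : y ∈ facet K S
    · rw [hG, indicator_of_mem hyF]
      exact cutI_lim hK h0 ha hS b he he0 hyF (hcy hyF) (hy hyF)
    · rw [hG, indicator_of_notMem hyF]
      exact cutI_out hK h0 hS he he0 hyF
  have hGfin : ∫⁻ y, G y ≠ ⊤ := by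
    have h1 : ∫⁻ y, G y ≤ ∫⁻ y, bd y := by
      refine lintegral_mono_ae ?_
      filter_upwards [hpt] with y hy
      exact le_of_tendsto hy (hbound.mono fun n hn => hn y)
    exact ne_top_of_le_ne_top hbdfin h1
  have hmain : Tendsto (fun n => ∫⁻ y, ENNReal.ofReal (e n)⁻¹ * cutI K a b S (e n) (W n) y) atTop
      (𝓝 (∫⁻ y, G y)) := by
    refine tendsto_lintegral_filter_of_dominated_convergence bd ?_ ?_ hbdfin hpt
    · exact Eventually.of_forall fun n => (cutI_meas hK a b S (e n) (hW n)).const_mul _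
    · filter_upwards [hbound] with n hn
      exact Eventually.of_forall hn
  have hmain2 : Tendsto (fun n => (ENNReal.ofReal (jac S) *
      ∫⁻ y, ENNReal.ofReal (e n)⁻¹ * cutI K a b S (e n) (W n) y).toReal) atTop
      (𝓝 ((ENNReal.ofReal (jac S) * ∫⁻ y, G y).toReal)) := by
    refine (ENNReal.tendsto_toReal (ENNReal.mul_ne_top ENNReal.ofReal_ne_top hGfin)).comp ?_
    exact ENNReal.Tendsto.const_mul hmain (Or.inr ENNReal.ofReal_ne_top)
  -- the limit value
  have hval : (ENNReal.ofReal (jac S) * ∫⁻ y, G y).toReal =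
      jac S * ∫ y in facet K S, max (inner ℝ b (S (y, 1))) 0 * W' y := by
    rw [ENNReal.toReal_mul, ENNReal.toReal_ofReal (jac_spec S).1.le]
    congr 1
    rw [integral_eq_lintegral_of_nonneg_ae]
    · rw [hG, lintegral_indicator hFm]
    · rw [EventuallyLE, ae_restrict_iff' hFm]
      filter_upwards [hc] with y hy hyF
      exact mul_nonneg (le_max_right _ _) (hy hyF)
    · refine Measurable.aestronglyMeasurable ?_
      refine Measurable.mul ?_ hW'
      refine Measurable.max ?_ measurable_const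
      exact (continuous_const.inner (by fun_prop : Continuous fun y : E2 => S (y, 1))).measurable
  rw [hval] at hmain2
  refine hmain2.congr' ?_
  filter_upwards [hsmall] with n hn
  -- the polar formula
  have hsub : cutC K a b (e n) ⊆ {x | 0 < inner ℝ a x} := by
    rintro x ⟨hx1, hx2⟩
    have h1 : 1 < inner ℝ (a + e n • b) x := hx2
    rw [inner_add_left, inner_smul_left] at h1
    have e1 : (starRingEnd ℝ) (e n) = e n := rfl
    rw [e1] at h1
    have h2 : inner ℝ b x ≤ ‖b‖ * R :=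
      (real_inner_le_norm _ _).trans (mul_le_mul_of_nonneg_left
        (mem_closedBall_zero_iff.1 (hKR hx1)) (norm_nonneg _))
    have h3 : e n * inner ℝ b x ≤ 1 / 2 := (mul_le_mul_of_nonneg_left h2 (he n).le).trans hn
    show 0 < inner ℝ a x
    linarith
  have hCm := cutC_meas hK a b (e n)
  have h1 : ∫ x in K ∩ {x | 1 < inner ℝ (a + e n • b) x}, W n x =
      (ENNReal.ofReal (jac S) * ∫⁻ y, cutI K a b S (e n) (W n) y).toReal := by
    show ∫ x in cutC K a b (e n), W n x = _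
    rw [integral_eq_lintegral_of_nonneg_ae (Eventually.of_forall fun x => hW0 n x)
      (hW n).aestronglyMeasurable]
    congr 1
    have h2 := chart_polar hS (f := (cutC K a b (e n)).indicator fun x => ENNReal.ofReal (W n x))
      ((hW n).ennreal_ofReal.indicator hCm)
    have h3 : ∫⁻ x in {x | 0 < inner ℝ a x},
        (cutC K a b (e n)).indicator (fun x => ENNReal.ofReal (W n x)) x =
        ∫⁻ x in cutC K a b (e n), ENNReal.ofReal (W n x) := by
      rw [setLIntegral_indicator hCm, inter_eq_left.2 hsub]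
    rw [← h3, h2]
    rfl
  rw [h1]
  have h2 : (e n)⁻¹ = (ENNReal.ofReal (e n)⁻¹).toReal :=
    (ENNReal.toReal_ofReal (inv_nonneg.2 (he n).le)).symm
  conv_rhs => rw [h2]
  rw [← ENNReal.toReal_mul, lintegral_const_mul _ (cutI_meas hK a b S (e n) (hW n))]
  congr 1
  ring

end Pool.Agent.Lib.MP_43065d_gt
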