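import Mathlib

/-!
MP_43065d_gt, n = 3 (volume of the Blaschke body).  Common definitions.

`IsBody K`       : convex body (compact, convex, nonempty interior)
`nset K E`       : boundary points of `K` that have an outer unit normal in `E`
`surf K E`       : surface area measure of `K` (two dimensional Hausdorff measure, normalised as area)
`IsBlaschke K N` : `N` is the Blaschke body of `K`
`refl z K`       : `2 z - K`
`Phi K z`        : volume of `K ∩ (2 z - K)`
`Dmax K`         : the maximum of `Phi K z` over `z`
`poly A`         : the polyhedron `{x | ∀ a ∈ A, ⟪a, x⟫ ≤ 1}`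
-/

open MeasureTheory Set Filter Topology Metric
open scoped ENNReal NNReal Pointwise

namespace Pool.Agent.Lib.MP_43065d_gt

abbrev E2 := EuclideanSpace ℝ (Fin 2)
abbrev E3 := EuclideanSpace ℝ (Fin 3)

/-- A convex body: a compact convex set with nonempty interior. -/
structure IsBody {E : Type*} [NormedAddCommGroup E] [NormedSpace ℝ E] (K : Set E) : Prop where
  convex : Convex ℝ K
  isCompact : IsCompact K
  interior_nonempty : (interior K).Nonempty

/-- `u` is an outer normal vector of `K` at `x` (for `x ∈ K`). -/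
def IsNormal (K : Set E3) (x u : E3) : Prop := ∀ y ∈ K, inner ℝ u y ≤ inner ℝ u x

/-- The boundary points of `K` that have an outer unit normal in `E`. -/
def nset (K E : Set E3) : Set E3 := {x | x ∈ frontier K ∧ ∃ u ∈ E, ‖u‖ = 1 ∧ IsNormal K x u}

/-- The surface area measure of `K`: the area (two dimensional Hausdorff measure) of the set of
boundary points of `K` with an outer unit normal in `E`. -/
noncomputable def surf (K E : Set E3) : ℝ≥0∞ := μHE[2] (nset K E)

/-- `N` is the Blaschke body of `K`. -/
structure IsBlaschke (K N : Set E3) : Prop where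
  body : IsBody N
  symm : ∀ x ∈ N, -x ∈ N
  surf_eq : ∀ E : Set E3, MeasurableSet E → surf N E = (surf K E + surf (-K) E) / 2

/-- The cone (with apex the origin) over a set. -/
def cone (B : Set E3) : Set E3 := {y | ∃ t ∈ Ioc (0 : ℝ) 1, ∃ x ∈ B, y = t • x}

/-- The support function. -/
noncomputable def hsup (M : Set E3) (u : E3) : ℝ := sSup ((fun y => inner ℝ u y) '' M)

/-- `2 z - K` -/
def refl (z : E3) (K : Set E3) : Set E3 := {x | (2 : ℝ) • z - x ∈ K}

/-- volume of `K ∩ (2 z - K)` -/
noncomputable def Phi (K : Set E3) (z : E3) : ℝ := volume.real (K ∩ refl z K)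

/-- maximal volume of `K ∩ (2 z - K)` -/
noncomputable def Dmax (K : Set E3) : ℝ := ⨆ z : E3, Phi K z

/-- the polyhedron given by a finite set of vectors -/
def poly (A : Finset E3) : Set E3 := {x | ∀ a ∈ A, inner ℝ a x ≤ 1}

/-- the polyhedron with `a` replaced by `a'` -/
def polyR (A : Finset E3) (a a' : E3) : Set E3 :=
  {x | (∀ c ∈ A, c ≠ a → inner ℝ c x ≤ 1) ∧ inner ℝ a' x ≤ 1}

/-- approximate minimality: every facet may be moved a little -/
def NCrit (A : Finset E3) (m η : ℝ) : Prop :=
  ∀ a ∈ A, ∃ δ > 0, ∀ a' : E3, ‖a' - a‖ < δ →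
    Dmax (poly A) - m * volume.real (poly A) ≤
      Dmax (polyR A a a') - m * volume.real (polyR A a a') +
        η * volume.real (symmDiff (poly A) (polyR A a a'))

/-- A chart adapted to the facet vector `a`. -/
def IsChart (a : E3) (S : (E2 × ℝ) ≃L[ℝ] E3) : Prop := ∀ y t, inner ℝ a (S (y, t)) = t

/-- the facet of `P` in the chart -/
def facet (P : Set E3) (S : E2 × ℝ → E3) : Set E2 := {y | S (y, 1) ∈ P}

/-- the gauge of `-P` on the facet plane, in the chart -/
noncomputable def qfun (P : Set E3) (S : E2 × ℝ → E3) (y : E2) : ℝ := gauge P (-S (y, 1))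

/-- the integral of `(q^{-3}-1)^+` over `F` -/
noncomputable def Qint (F : Set E2) (q : E2 → ℝ) : ℝ := ∫ y in F, max ((q y)⁻¹ ^ 3 - 1) 0

/-- the cone over the facet with vector `a`: the points of `P` at which `a` is maximal -/
def sector (A : Finset E3) (a : E3) : Set E3 := {x | ∀ c ∈ A, inner ℝ c x ≤ inner ℝ a x}

end Pool.Agent.Lib.MP_43065d_gt
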