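import Mathlib

/-!
# Module Deg1b: intervals with the same centroid

PROOF.  `I = [i₀, i₁]`, `J = [j₁, j₂]`, `Fv = ∫_I f`, `Gv = ∫_J f`, `D = Fv - Gv = ∫_{I \ J} f ≥ 0`.  If `j₁ = j₂` the left side is `0` and the right side is `≥ 0`.
Let `j₁ < j₂`.
(1) `f j > 0` for `i₀ < j < i₁`: if `f j = 0` then, for `s ∈ I` and a point `s' ∈ I` on the other side of `j`, concavity and `f s' ≥ 0` give `f s = 0`, so `∫_I f = 0`.
(2) Let `f₁ = f j₁`, `f₂ = f j₂ > 0` and `α s = A + B s` the affine function with `α j₁ = 1/f₁`, `α j₂ = 1/f₂`.  CLAIM: `1 ≤ α s * f s` on `J`, `α s * f s ≤ 1` on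
`I \ J`.  On `J`: `s = (1-t) j₁ + t j₂`, `f s ≥ (1-t) f₁ + t f₂`, and `((1-t)/f₁ + t/f₂) ((1-t) f₁ + t f₂) = (1-t)² + t² + t (1-t) (f₁/f₂ + f₂/f₁) ≥ 1`.
For `s > j₂`, `u = (s - j₂)/(j₂ - j₁)`: concavity gives `f s ≤ f₂ + u (f₂ - f₁)`, `α s = 1/f₂ + u (1/f₂ - 1/f₁)`.  If `α s ≤ 0` then `α s f s ≤ 0 ≤ 1`.  If `α s > 0`:
`α s f s ≤ (1/f₂ + u (1/f₂ - 1/f₁)) (f₂ + u (f₂ - f₁)) = 1 - u (f₂ - f₁)²/(f₁ f₂) - u² (f₂ - f₁)²/(f₁ f₂) ≤ 1`.  For `s < j₁` by symmetry.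
(3) Integrate: `j₂ - j₁ ≤ A Gv + B ∫_J s f`, `(i₁ - i₀) - (j₂ - j₁) ≥ A D + B ∫_{I \ J} s f`.  `moment` says `Fv ∫_J s f = Gv ∫_I s f`.  `Gv > 0` (`f > 0` on `J`).  With
`x = ∫_I s f / Fv`: `∫_J s f = x Gv`, `∫_{I \ J} s f = x D`, so `|J| ≤ (A + B x) Gv` and `(A + B x) D ≤ |I| - |J|`.  Multiply: `|J| D ≤ (A + B x) Gv D ≤ (|I| - |J|) Gv`, i.e.
`|J| (D + Gv) ≤ |I| Gv`.
-/

open MeasureTheory Set Filter Topology Metric

namespace Pool.Agent.Lib.MP_43065d_gt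

private theorem db_alg {f₁ f₂ u x : ℝ} (h1 : 0 < f₁) (h2 : 0 < f₂) (hu : 0 ≤ u) (hx : 0 ≤ x)
    (hle : x ≤ f₂ + u * (f₂ - f₁)) : (1 / f₂ + u * (1 / f₂ - 1 / f₁)) * x ≤ 1 := by
  rcases le_or_gt (1 / f₂ + u * (1 / f₂ - 1 / f₁)) 0 with h | h
  · exact (mul_nonpos_of_nonpos_of_nonneg h hx).trans zero_le_one
  · refine (mul_le_mul_of_nonneg_left hle h.le).trans ?_
    have e : (1 / f₂ + u * (1 / f₂ - 1 / f₁)) * (f₂ + u * (f₂ - f₁)) =
        1 - (u + u ^ 2) * (f₂ - f₁) ^ 2 / (f₁ * f₂) := by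
      field_simp
      ring
    rw [e]
    have : 0 ≤ (u + u ^ 2) * (f₂ - f₁) ^ 2 / (f₁ * f₂) := by positivity
    linarith

private theorem db_alg2 {f₁ f₂ t x : ℝ} (h1 : 0 < f₁) (h2 : 0 < f₂) (ht : 0 ≤ t) (ht1 : t ≤ 1)
    (hle : (1 - t) * f₁ + t * f₂ ≤ x) : 1 ≤ ((1 - t) * (1 / f₁) + t * (1 / f₂)) * x := by
  have ht1' : 0 ≤ 1 - t := by linarith
  have h3 : 0 ≤ (1 - t) * (1 / f₁) + t * (1 / f₂) := by positivity
  refine le_trans ?_ (mul_le_mul_of_nonneg_left hle h3)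
  have e : ((1 - t) * (1 / f₁) + t * (1 / f₂)) * ((1 - t) * f₁ + t * f₂) =
      1 + t * (1 - t) * (f₁ - f₂) ^ 2 / (f₁ * f₂) := by
    field_simp
    ring
  rw [e]
  have : 0 ≤ t * (1 - t) * (f₁ - f₂) ^ 2 / (f₁ * f₂) := by positivity
  linarith

private theorem db_pos {i₀ i₁ j : ℝ} (h0 : i₀ < j) (h1 : j < i₁) {f : ℝ → ℝ}
    (hf : ConcaveOn ℝ (Icc i₀ i₁) f) (hf0 : ∀ s ∈ Icc i₀ i₁, 0 ≤ f s)
    (hpos : 0 < ∫ s in Icc i₀ i₁, f s) : 0 < f j := by
  have hj : j ∈ Icc i₀ i₁ := ⟨h0.le, h1.le⟩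
  rcases (hf0 j hj).lt_or_eq with h | h
  · exact h
  · exfalso
    have hz : ∀ s ∈ Icc i₀ i₁, f s = 0 := by
      intro s hs
      rcases lt_trichotomy s j with hsj | rfl | hsj
      · have hd : 0 < i₁ - s := by linarith
        have h2 := hf.2 hs (right_mem_Icc.2 (h0.trans h1).le)
          (show 0 ≤ (i₁ - j) / (i₁ - s) from div_nonneg (by linarith) hd.le)
          (show 0 ≤ (j - s) / (i₁ - s) from div_nonneg (by linarith) hd.le)
          (by field_simp; ring)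
        have h3 : ((i₁ - j) / (i₁ - s)) • s + ((j - s) / (i₁ - s)) • i₁ = j := by
          rw [smul_eq_mul, smul_eq_mul]
          field_simp
          ring
        rw [h3, ← h, smul_eq_mul, smul_eq_mul] at h2
        have h4 : 0 ≤ (j - s) / (i₁ - s) * f i₁ :=
          mul_nonneg (div_nonneg (by linarith) hd.le) (hf0 _ (right_mem_Icc.2 (h0.trans h1).le))
        have h5 : (i₁ - j) / (i₁ - s) * f s ≤ 0 := by linarith
        have h6 : 0 < (i₁ - j) / (i₁ - s) := div_pos (by linarith) hd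
        have h7 : f s ≤ 0 := by
          by_contra hc
          rw [not_le] at hc
          exact absurd h5 (not_le.2 (mul_pos h6 hc))
        exact le_antisymm h7 (hf0 s hs)
      · exact h.symm
      · have hd : 0 < s - i₀ := by linarith
        have h2 := hf.2 hs (left_mem_Icc.2 (h0.trans h1).le)
          (show 0 ≤ (j - i₀) / (s - i₀) from div_nonneg (by linarith) hd.le)
          (show 0 ≤ (s - j) / (s - i₀) from div_nonneg (by linarith) hd.le)
          (by field_simp; ring)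
        have h3 : ((j - i₀) / (s - i₀)) • s + ((s - j) / (s - i₀)) • i₀ = j := by
          rw [smul_eq_mul, smul_eq_mul]
          field_simp
          ring
        rw [h3, ← h, smul_eq_mul, smul_eq_mul] at h2
        have h4 : 0 ≤ (s - j) / (s - i₀) * f i₀ :=
          mul_nonneg (div_nonneg (by linarith) hd.le) (hf0 _ (left_mem_Icc.2 (h0.trans h1).le))
        have h5 : (j - i₀) / (s - i₀) * f s ≤ 0 := by linarith
        have h6 : 0 < (j - i₀) / (s - i₀) := div_pos (by linarith) hd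
        have h7 : f s ≤ 0 := by
          by_contra hc
          rw [not_le] at hc
          exact absurd h5 (not_le.2 (mul_pos h6 hc))
        exact le_antisymm h7 (hf0 s hs)
    have : ∫ s in Icc i₀ i₁, f s = 0 := by
      rw [setIntegral_congr_fun measurableSet_Icc (g := fun _ => (0 : ℝ)) hz]
      simp
    linarith

/-- concavity to the right of two points -/
private theorem db_ext {a b s : ℝ} {S : Set ℝ} {f : ℝ → ℝ} (hf : ConcaveOn ℝ S f) (ha : a ∈ S)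
    (hs : s ∈ S) (hne : 0 < (b - a) / (s - a)) (hne' : 0 ≤ (s - b) / (b - a)) (hab : b - a ≠ 0)
    (hsa : s - a ≠ 0) (h1 : 0 ≤ (s - b) / (s - a)) :
    f s ≤ f b + (s - b) / (b - a) * (f b - f a) := by
  have h2 := hf.2 ha hs h1 hne.le (by field_simp; ring)
  have h3 : ((s - b) / (s - a)) • a + ((b - a) / (s - a)) • s = b := by
    rw [smul_eq_mul, smul_eq_mul]
    field_simp
    ring
  rw [h3, smul_eq_mul, smul_eq_mul] at h2
  have h4 : (s - a) / (b - a) * ((s - b) / (s - a) * f a + (b - a) / (s - a) * f s) =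
      (s - b) / (b - a) * f a + f s := by
    field_simp
  have h5 : 0 ≤ (s - a) / (b - a) := by
    have h6 : (s - a) / (b - a) = ((b - a) / (s - a))⁻¹ := by rw [inv_div]
    rw [h6]
    exact inv_nonneg.2 hne.le
  have h6 := mul_le_mul_of_nonneg_left h2 h5
  rw [h4] at h6
  have h7 : (s - a) / (b - a) * f b = f b + (s - b) / (b - a) * f b := by
    field_simp
    ring
  rw [h7] at h6
  linarith

theorem deg_ratio {i₀ j₁ j₂ i₁ : ℝ} (h01 : i₀ < j₁) (h12 : j₁ ≤ j₂) (h23 : j₂ < i₁) {f : ℝ → ℝ}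
    (hf : ConcaveOn ℝ (Icc i₀ i₁) f) (hf0 : ∀ s ∈ Icc i₀ i₁, 0 ≤ f s)
    (hfi : IntegrableOn f (Icc i₀ i₁)) (hpos : 0 < ∫ s in Icc i₀ i₁, f s)
    (moment : (∫ s in Icc i₀ i₁, f s) * ∫ s in Icc j₁ j₂, s * f s =
      (∫ s in Icc j₁ j₂, f s) * ∫ s in Icc i₀ i₁, s * f s) :
    (j₂ - j₁) * ∫ s in Icc i₀ i₁, f s ≤ (i₁ - i₀) * ∫ s in Icc j₁ j₂, f s := by
  have hJI : Icc j₁ j₂ ⊆ Icc i₀ i₁ := Icc_subset_Icc h01.le h23.le
  have hG0 : 0 ≤ ∫ s in Icc j₁ j₂, f s :=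
    setIntegral_nonneg measurableSet_Icc fun s hs => hf0 s (hJI hs)
  rcases h12.eq_or_lt with h12' | h12'
  · rw [h12', sub_self, zero_mul]
    rw [h12'] at hG0
    exact mul_nonneg (by linarith) hG0
  have hf1 : 0 < f j₁ := db_pos h01 (by linarith) hf hf0 hpos
  have hf2 : 0 < f j₂ := db_pos (by linarith) h23 hf hf0 hpos
  have hd : 0 < j₂ - j₁ := by linarith
  obtain ⟨B, hB⟩ : ∃ B, B = (1 / f j₂ - 1 / f j₁) / (j₂ - j₁) := ⟨_, rfl⟩
  obtain ⟨A, hA⟩ : ∃ A, A = 1 / f j₁ - B * j₁ := ⟨_, rfl⟩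
  have hBd : B * (j₂ - j₁) = 1 / f j₂ - 1 / f j₁ := by
    rw [hB]
    field_simp
  have hin : ∀ s ∈ Icc j₁ j₂, 1 ≤ (A + B * s) * f s := by
    intro s hs
    have ht : 0 ≤ (s - j₁) / (j₂ - j₁) := div_nonneg (by linarith [hs.1]) hd.le
    have ht1 : (s - j₁) / (j₂ - j₁) ≤ 1 := by
      rw [div_le_one hd]
      linarith [hs.2]
    have h2 := hf.2 (hJI (left_mem_Icc.2 h12)) (hJI (right_mem_Icc.2 h12))
      (show 0 ≤ 1 - (s - j₁) / (j₂ - j₁) by linarith) ht (by ring)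
    have h3 : (1 - (s - j₁) / (j₂ - j₁)) • j₁ + ((s - j₁) / (j₂ - j₁)) • j₂ = s := by
      rw [smul_eq_mul, smul_eq_mul]
      field_simp
      ring
    rw [h3, smul_eq_mul, smul_eq_mul] at h2
    have h4 := db_alg2 hf1 hf2 ht ht1 h2
    have h5 : A + B * s = (1 - (s - j₁) / (j₂ - j₁)) * (1 / f j₁) +
        (s - j₁) / (j₂ - j₁) * (1 / f j₂) := by
      rw [hA, hB]
      field_simp
      ring
    rw [h5]
    exact h4
  have hout : ∀ s ∈ Icc i₀ i₁ \ Icc j₁ j₂, (A + B * s) * f s ≤ 1 := by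
    rintro s ⟨hs, hsJ⟩
    rcases lt_or_ge s j₁ with h | h
    · have h2 := db_ext hf (hJI (right_mem_Icc.2 h12)) hs (b := j₁)
        (div_pos_of_neg_of_neg (by linarith) (by linarith))
        (div_nonneg_of_nonpos (by linarith) (by linarith)) (by linarith) (by linarith)
        (div_nonneg_of_nonpos (by linarith) (by linarith))
      have h3 := db_alg hf2 hf1 (u := (s - j₁) / (j₁ - j₂))
        (div_nonneg_of_nonpos (by linarith) (by linarith)) (hf0 s hs) h2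
      have h5 : A + B * s = 1 / f j₁ + (s - j₁) / (j₁ - j₂) * (1 / f j₁ - 1 / f j₂) := by
        have h6 : j₁ - j₂ ≠ 0 := by linarith
        have h7 : (s - j₁) / (j₁ - j₂) * (1 / f j₁ - 1 / f j₂) = B * (s - j₁) := by
          have h8 : 1 / f j₁ - 1 / f j₂ = B * (j₁ - j₂) := by linarith
          rw [h8]
          field_simp
        rw [h7, hA]
        ring
      rw [h5]
      exact h3
    · have h' : j₂ < s := by
        by_contra hc
        exact hsJ ⟨h, not_lt.1 hc⟩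
      have h2 := db_ext hf (hJI (left_mem_Icc.2 h12)) hs (b := j₂)
        (div_pos (by linarith) (by linarith))
        (div_nonneg (by linarith) (by linarith)) (by linarith) (by linarith)
        (div_nonneg (by linarith) (by linarith))
      have h3 := db_alg hf1 hf2 (u := (s - j₂) / (j₂ - j₁))
        (div_nonneg (by linarith) (by linarith)) (hf0 s hs) h2
      have h5 : A + B * s = 1 / f j₂ + (s - j₂) / (j₂ - j₁) * (1 / f j₂ - 1 / f j₁) := by
        rw [← hBd]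
        have h7 : (s - j₂) / (j₂ - j₁) * (B * (j₂ - j₁)) = B * (s - j₂) := by
          field_simp
        rw [h7, hA]
        linarith
      rw [h5]
      exact h3
  -- integration
  have hsf : IntegrableOn (fun s => s * f s) (Icc i₀ i₁) :=
    hfi.continuousOn_mul continuousOn_id isCompact_Icc
  have hab : ∀ S ⊆ Icc i₀ i₁, IntegrableOn (fun s => (A + B * s) * f s) S ∧
      ∫ s in S, (A + B * s) * f s = A * (∫ s in S, f s) + B * ∫ s in S, s * f s := by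
    intro S hS
    have e : (fun s => (A + B * s) * f s) = fun s => A * f s + B * (s * f s) := by
      funext s
      ring
    have i1 : IntegrableOn (fun s => A * f s) S := (hfi.mono_set hS).const_mul A
    have i2 : IntegrableOn (fun s => B * (s * f s)) S := (hsf.mono_set hS).const_mul B
    rw [e]
    refine ⟨i1.add i2, ?_⟩
    rw [integral_add i1 i2, integral_const_mul, integral_const_mul]
  have hvJ : ∫ _ in Icc j₁ j₂, (1 : ℝ) = j₂ - j₁ := by
    simp [Real.volume_real_Icc, hd.le]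
  have hvI : ∫ _ in Icc i₀ i₁, (1 : ℝ) = i₁ - i₀ := by
    have : i₀ ≤ i₁ := by linarith
    simp [Real.volume_real_Icc, this]
  have h1 : j₂ - j₁ ≤ A * (∫ s in Icc j₁ j₂, f s) + B * ∫ s in Icc j₁ j₂, s * f s := by
    rw [← (hab _ hJI).2, ← hvJ]
    exact setIntegral_mono_on (integrableOn_const (by simp)) (hab _ hJI).1 measurableSet_Icc hin
  have h2 : A * ((∫ s in Icc i₀ i₁, f s) - ∫ s in Icc j₁ j₂, f s) +
      B * ((∫ s in Icc i₀ i₁, s * f s) - ∫ s in Icc j₁ j₂, s * f s) ≤ (i₁ - i₀) - (j₂ - j₁) := by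
    have e1 := integral_diff (μ := volume) (f := fun s => (A + B * s) * f s) (s := Icc i₀ i₁)
      (t := Icc j₁ j₂) measurableSet_Icc (hab _ subset_rfl).1 hJI
    have e2 := integral_diff (μ := volume) (f := fun _ : ℝ => (1 : ℝ)) (s := Icc i₀ i₁)
      (t := Icc j₁ j₂) measurableSet_Icc (integrableOn_const (by simp)) hJI
    rw [(hab _ subset_rfl).2, (hab _ hJI).2] at e1
    rw [hvI, hvJ] at e2
    have e3 : ∫ s in Icc i₀ i₁ \ Icc j₁ j₂, (A + B * s) * f s ≤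
        ∫ _ in Icc i₀ i₁ \ Icc j₁ j₂, (1 : ℝ) :=
      setIntegral_mono_on (hab _ sdiff_subset).1
        ((integrableOn_const (by simp)).mono_set (s := Icc i₀ i₁ \ Icc j₁ j₂) (t := Icc i₀ i₁)
          sdiff_subset) (measurableSet_Icc.diff measurableSet_Icc) hout
    rw [e1, e2] at e3
    linarith
  obtain ⟨F, hF⟩ : ∃ F, F = ∫ s in Icc i₀ i₁, f s := ⟨_, rfl⟩
  obtain ⟨G, hG⟩ : ∃ G, G = ∫ s in Icc j₁ j₂, f s := ⟨_, rfl⟩
  obtain ⟨M, hM⟩ : ∃ M, M = ∫ s in Icc i₀ i₁, s * f s := ⟨_, rfl⟩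
  obtain ⟨N, hN⟩ : ∃ N, N = ∫ s in Icc j₁ j₂, s * f s := ⟨_, rfl⟩
  have hFG : G ≤ F := by
    rw [hF, hG]
    exact setIntegral_mono_set hfi ((ae_restrict_iff' measurableSet_Icc).2
      (Filter.Eventually.of_forall fun s hs => hf0 s hs)) (Filter.Eventually.of_forall hJI)
  rw [← hF] at hpos moment h2 ⊢
  rw [← hG] at hG0 moment h1 h2 ⊢
  rw [← hM] at moment h2
  rw [← hN] at moment h1 h2
  have hx : N = M / F * G := by
    field_simp
    linarith
  have hx2 : M = M / F * F := by field_simp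
  obtain ⟨x, hxx⟩ : ∃ x, x = M / F := ⟨_, rfl⟩
  rw [← hxx] at hx hx2
  have h3 : j₂ - j₁ ≤ (A + B * x) * G := by
    rw [hx] at h1
    linarith
  have h4 : (A + B * x) * (F - G) ≤ (i₁ - i₀) - (j₂ - j₁) := by
    rw [hx, hx2] at h2
    linarith
  have h5 : (j₂ - j₁) * (F - G) ≤ (A + B * x) * G * (F - G) :=
    mul_le_mul_of_nonneg_right h3 (by linarith)
  have h6 : (A + B * x) * (F - G) * G ≤ ((i₁ - i₀) - (j₂ - j₁)) * G :=
    mul_le_mul_of_nonneg_right h4 hG0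
  nlinarith [h5, h6]

end Pool.Agent.Lib.MP_43065d_gt
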