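import Pool.Agent.Lib.MP_43065d_gt.Deg1a
import Pool.Agent.Lib.MP_43065d_gt.Deg1b

/-!
# Module Deg1: the one dimensional lemma

PROOF.  `I = [i₀, i₁]`, `X = {Q ≤ 1}`, a closed interval (`Q` is convex on the line, so continuous: `ConvexOn.continuous`-type lemma, finite dimensional).
(1) `I ∩ X = [j₁, j₂]` (compact convex, nonempty by `pos`), `j₁ < j₂` (by `pos`, a point is null).  `Fv = ∫_I f`, `Gv = ∫_J f`, `Fv ≥ 4 Gv > Gv > 0`.
(2) `i₀ < j₁`, `j₂ < i₁`: suppose `j₁ = i₀`.  Then `I \ J = (j₂, i₁]`, `D = Fv - Gv > 0`, and `moment` gives `D ∫_J s f = Gv ∫_{I \ J} s f`.  The right side is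
`≥ Gv j₂ D`, and `∫_J s f < j₂ Gv` strictly (`(j₂ - s) f ≥ 0` on `J` and its integral is positive: otherwise `f = 0` a.e. on `J`).  Contradiction.  The other by symmetry.
(3) `X = [j₁, j₂]`: if `x ∈ X`, `x > i₁` then `i₁ ∈ [j₁, x] ⊆ X`, so `i₁ ∈ I ∩ X`, `i₁ ≤ j₂`, a contradiction.
(4) Let `x ∈ J`, `λ = (1 - Q x)/(1 + Q x) ≥ 0`.  `key` with `y = i₀`: `(1 + λ) x - λ i₀ ∈ X`, so it is `≤ j₂`: `λ (x - i₀) ≤ j₂ - x`, and multiplying by `1 + Q x`:
`2 x - i₀ - j₂ ≤ Q x (j₂ - i₀)`.  With `y = i₁`: `i₁ + j₁ - 2 x ≤ Q x (i₁ - j₁)`.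
(5) `ϱ = (j₂ - j₁)/(i₁ - i₀)`.  `deg_ratio`: `ϱ ≤ Gv/Fv ≤ 1/4`.  Let `x₀ = (j₂ + ϱ i₀)/(1 + ϱ) = (j₁ + ϱ i₁)/(1 + ϱ) ∈ (j₁, j₂)`.  The line `L₂ s = (2 s - i₀ - j₂)/(j₂ - i₀)` has
`L₂ x₀ = (1 - ϱ)/(1 + ϱ) ≥ 3/5`, `L₂ j₂ = 1`, so on `[x₀, j₂]`: `Q s ≥ L₂ s ≥ 3/5 + 2/5 (s - x₀)/(j₂ - x₀)`.  The line `L₁ s = (i₁ + j₁ - 2 s)/(i₁ - j₁)` has `L₁ j₁ = 1` and the same value
at `x₀`, so on `[j₁, x₀]`: `Q s ≥ 3/5 + 2/5 (x₀ - s)/(x₀ - j₁)`.
(6) `∫_J f Q⁻¹^3 = ∫_{[j₁,x₀]} + ∫_{[x₀,j₂]}` and `deg_side'`, `deg_side` (the concave function `f` restricted).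
-/

open MeasureTheory Set Filter Topology Metric

namespace Pool.Agent.Lib.MP_43065d_gt

private theorem split_Icc {a b c : ℝ} (hab : a ≤ b) (hbc : b ≤ c) {g : ℝ → ℝ}
    (hg : IntegrableOn g (Icc a c)) :
    ∫ s in Icc a c, g s = (∫ s in Icc a b, g s) + ∫ s in Icc b c, g s := by
  have hac := hab.trans hbc
  have h1 : IntervalIntegrable g volume a b :=
    (intervalIntegrable_iff_integrableOn_Icc_of_le hab).2 (hg.mono_set (Icc_subset_Icc_right hbc))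
  have h2 : IntervalIntegrable g volume b c :=
    (intervalIntegrable_iff_integrableOn_Icc_of_le hbc).2 (hg.mono_set (Icc_subset_Icc_left hab))
  rw [integral_Icc_eq_integral_Ioc, integral_Icc_eq_integral_Ioc, integral_Icc_eq_integral_Ioc,
    ← intervalIntegral.integral_of_le hac, ← intervalIntegral.integral_of_le hab,
    ← intervalIntegral.integral_of_le hbc, intervalIntegral.integral_add_adjacent_intervals h1 h2]

private theorem int_smul {a b : ℝ} {g : ℝ → ℝ} (hg : IntegrableOn g (Icc a b)) :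
    IntegrableOn (fun s => s * g s) (Icc a b) :=
  hg.continuousOn_mul continuousOn_id isCompact_Icc

/-- strict bound of the first moment -/
private theorem mom_lt {a b : ℝ} {g : ℝ → ℝ} (hg : IntegrableOn g (Icc a b))
    (hg0 : ∀ s ∈ Icc a b, 0 ≤ g s) (hpos : 0 < ∫ s in Icc a b, g s) :
    ∫ s in Icc a b, s * g s < b * ∫ s in Icc a b, g s := by
  have h0 : IntegrableOn (fun s => (b - s) * g s) (Icc a b) :=
    hg.continuousOn_mul (by fun_prop) isCompact_Icc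
  have h1 : ∫ s in Icc a b, (b - s) * g s =
      b * (∫ s in Icc a b, g s) - ∫ s in Icc a b, s * g s := by
    rw [← integral_const_mul, ← integral_sub (hg.const_mul b) (int_smul hg)]
    apply integral_congr_ae
    filter_upwards with s
    ring
  have h2 : 0 ≤ᵐ[volume.restrict (Icc a b)] fun s => (b - s) * g s := by
    filter_upwards [ae_restrict_mem measurableSet_Icc] with s hs
    exact mul_nonneg (by linarith [hs.2]) (hg0 s hs)
  have h3 : 0 ≤ ∫ s in Icc a b, (b - s) * g s := integral_nonneg_of_ae h2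
  rcases h3.lt_or_eq with h4 | h4
  · linarith
  · exfalso
    have h5 := (setIntegral_eq_zero_iff_of_nonneg_ae h2 h0).1 h4.symm
    have h6 : ∀ᵐ s ∂(volume.restrict (Icc a b)), s ≠ b := by
      apply ae_restrict_of_ae
      rw [ae_iff]
      simp
    have h7 : g =ᵐ[volume.restrict (Icc a b)] 0 := by
      filter_upwards [h5, h6] with s hs hsb
      have hs' : (b - s) * g s = 0 := hs
      rcases mul_eq_zero.1 hs' with h | h
      · exact absurd (by linarith) hsb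
      · exact h
    rw [integral_congr_ae h7] at hpos
    simp at hpos

private theorem mom_ge {a b : ℝ} {g : ℝ → ℝ} (hg : IntegrableOn g (Icc a b))
    (hg0 : ∀ s ∈ Icc a b, 0 ≤ g s) : a * ∫ s in Icc a b, g s ≤ ∫ s in Icc a b, s * g s := by
  rw [← integral_const_mul]
  apply setIntegral_mono_on (hg.const_mul a) (int_smul hg) measurableSet_Icc
  intro s hs
  exact mul_le_mul_of_nonneg_right hs.1 (hg0 s hs)

private theorem mom_le {a b : ℝ} {g : ℝ → ℝ} (hg : IntegrableOn g (Icc a b))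
    (hg0 : ∀ s ∈ Icc a b, 0 ≤ g s) : ∫ s in Icc a b, s * g s ≤ b * ∫ s in Icc a b, g s := by
  rw [← integral_const_mul]
  apply setIntegral_mono_on (int_smul hg) (hg.const_mul b) measurableSet_Icc
  intro s hs
  exact mul_le_mul_of_nonneg_right hs.2 (hg0 s hs)

private theorem mom_gt {a b : ℝ} {g : ℝ → ℝ} (hg : IntegrableOn g (Icc a b))
    (hg0 : ∀ s ∈ Icc a b, 0 ≤ g s) (hpos : 0 < ∫ s in Icc a b, g s) :
    a * ∫ s in Icc a b, g s < ∫ s in Icc a b, s * g s := by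
  have h0 : IntegrableOn (fun s => (s - a) * g s) (Icc a b) :=
    hg.continuousOn_mul (by fun_prop) isCompact_Icc
  have h1 : ∫ s in Icc a b, (s - a) * g s =
      (∫ s in Icc a b, s * g s) - a * (∫ s in Icc a b, g s) := by
    rw [← integral_const_mul, ← integral_sub (int_smul hg) (hg.const_mul a)]
    apply integral_congr_ae
    filter_upwards with s
    ring
  have h2 : 0 ≤ᵐ[volume.restrict (Icc a b)] fun s => (s - a) * g s := by
    filter_upwards [ae_restrict_mem measurableSet_Icc] with s hs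
    exact mul_nonneg (by linarith [hs.1]) (hg0 s hs)
  have h3 : 0 ≤ ∫ s in Icc a b, (s - a) * g s := integral_nonneg_of_ae h2
  rcases h3.lt_or_eq with h4 | h4
  · linarith
  · exfalso
    have h5 := (setIntegral_eq_zero_iff_of_nonneg_ae h2 h0).1 h4.symm
    have h6 : ∀ᵐ s ∂(volume.restrict (Icc a b)), s ≠ a := by
      apply ae_restrict_of_ae
      rw [ae_iff]
      simp
    have h7 : g =ᵐ[volume.restrict (Icc a b)] 0 := by
      filter_upwards [h5, h6] with s hs hsb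
      have hs' : (s - a) * g s = 0 := hs
      rcases mul_eq_zero.1 hs' with h | h
      · exact absurd (by linarith) hsb
      · exact h
    rw [integral_congr_ae h7] at hpos
    simp at hpos

/-- the interval `J` does not reach the ends of `I` -/
private theorem ends_lt {i₀ i₁ j₁ j₂ : ℝ} (h1 : i₀ ≤ j₁) (h2 : j₁ ≤ j₂) (h3 : j₂ ≤ i₁) {f : ℝ → ℝ}
    (hf0 : ∀ s ∈ Icc i₀ i₁, 0 ≤ f s) (hfi : IntegrableOn f (Icc i₀ i₁))
    (pos : 0 < ∫ s in Icc j₁ j₂, f s)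
    (area : 4 * ∫ s in Icc j₁ j₂, f s ≤ ∫ s in Icc i₀ i₁, f s)
    (moment : (∫ s in Icc i₀ i₁, f s) * ∫ s in Icc j₁ j₂, s * f s =
      (∫ s in Icc j₁ j₂, f s) * ∫ s in Icc i₀ i₁, s * f s) : i₀ < j₁ ∧ j₂ < i₁ := by
  have hJ : IntegrableOn f (Icc j₁ j₂) := hfi.mono_set (Icc_subset_Icc h1 h3)
  have hJ0 : ∀ s ∈ Icc j₁ j₂, 0 ≤ f s := fun s hs => hf0 s ⟨h1.trans hs.1, hs.2.trans h3⟩
  constructor
  · rcases h1.lt_or_eq with h | h
    · exact h
    · exfalso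
      subst h
      have hK : IntegrableOn f (Icc j₂ i₁) := hfi.mono_set (Icc_subset_Icc_left h2)
      have hK0 : ∀ s ∈ Icc j₂ i₁, 0 ≤ f s := fun s hs => hf0 s ⟨h2.trans hs.1, hs.2⟩
      rw [split_Icc h2 h3 hfi, split_Icc h2 h3 (int_smul hfi)] at moment
      rw [split_Icc h2 h3 hfi] at area
      have e1 := mom_lt hJ hJ0 pos
      have e2 := mom_ge hK hK0
      have hD : 0 < ∫ s in Icc j₂ i₁, f s := by linarith
      have e3 := mul_lt_mul_of_pos_left e1 hD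
      have e4 := mul_le_mul_of_nonneg_left e2 pos.le
      nlinarith
  · rcases h3.lt_or_eq with h | h
    · exact h
    · exfalso
      subst h
      have hK : IntegrableOn f (Icc i₀ j₁) := hfi.mono_set (Icc_subset_Icc_right h2)
      have hK0 : ∀ s ∈ Icc i₀ j₁, 0 ≤ f s := fun s hs => hf0 s ⟨hs.1, hs.2.trans h2⟩
      rw [split_Icc h1 h2 hfi, split_Icc h1 h2 (int_smul hfi)] at moment
      rw [split_Icc h1 h2 hfi] at area
      have e1 := mom_gt hJ hJ0 pos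
      have e2 := mom_le hK hK0
      have hD : 0 < ∫ s in Icc i₀ j₁, f s := by linarith
      have e3 := mul_lt_mul_of_pos_left e1 hD
      have e4 := mul_le_mul_of_nonneg_left e2 pos.le
      nlinarith

theorem deg_line {i₀ i₁ : ℝ} (hi : i₀ < i₁) {f Q : ℝ → ℝ} (hf : ConcaveOn ℝ (Icc i₀ i₁) f)
    (hf0 : ∀ s ∈ Icc i₀ i₁, 0 ≤ f s) (hfi : IntegrableOn f (Icc i₀ i₁))
    (hQ : ConvexOn ℝ univ Q) (hQ0 : ∀ s, 0 < Q s)
    (key : ∀ x, Q x ≤ 1 → ∀ y ∈ Icc i₀ i₁,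
      Q ((1 + (1 - Q x) / (1 + Q x)) * x - ((1 - Q x) / (1 + Q x)) * y) ≤ 1)
    (pos : 0 < ∫ s in Icc i₀ i₁ ∩ {s | Q s ≤ 1}, f s)
    (area : 4 * ∫ s in Icc i₀ i₁ ∩ {s | Q s ≤ 1}, f s ≤ ∫ s in Icc i₀ i₁, f s)
    (moment : (∫ s in Icc i₀ i₁, f s) * ∫ s in Icc i₀ i₁ ∩ {s | Q s ≤ 1}, s * f s =
      (∫ s in Icc i₀ i₁ ∩ {s | Q s ≤ 1}, f s) * ∫ s in Icc i₀ i₁, s * f s) :
    ∫ s in Icc i₀ i₁ ∩ {s | Q s ≤ 1}, f s * (Q s)⁻¹ ^ 3 ≤
      25 / 9 * ∫ s in Icc i₀ i₁ ∩ {s | Q s ≤ 1}, f s := by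
  have hQc : Continuous Q := continuousOn_univ.1 (hQ.continuousOn isOpen_univ)
  have hXc : Convex ℝ {s | Q s ≤ 1} := by
    have := hQ.convex_le 1
    simpa using this
  have hXcl : IsClosed {s | Q s ≤ 1} := isClosed_le hQc continuous_const
  -- `J` is an interval
  obtain ⟨j₁, j₂, hJ⟩ : ∃ j₁ j₂ : ℝ, Icc i₀ i₁ ∩ {s | Q s ≤ 1} = Icc j₁ j₂ := by
    have hne : (Icc i₀ i₁ ∩ {s | Q s ≤ 1}).Nonempty := by
      by_contra h
      rw [not_nonempty_iff_eq_empty] at h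
      rw [h] at pos
      simp at pos
    have hconn : IsConnected (Icc i₀ i₁ ∩ {s | Q s ≤ 1}) :=
      ⟨hne, ((convex_Icc i₀ i₁).inter hXc).isPreconnected⟩
    have hb : Bornology.IsBounded (Icc i₀ i₁ ∩ {s | Q s ≤ 1}) :=
      (isBounded_Icc i₀ i₁).subset inter_subset_left
    exact ⟨_, _, eq_Icc_csInf_csSup_of_connected_bdd_closed hconn hb.bddBelow hb.bddAbove
      (isClosed_Icc.inter hXcl)⟩
  rw [hJ] at pos area moment ⊢
  have h12 : j₁ < j₂ := by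
    by_contra h
    rw [not_lt] at h
    rcases h.lt_or_eq with h | h
    · rw [Icc_eq_empty (not_le.2 h)] at pos
      simp at pos
    · rw [h, Icc_self] at pos
      simp at pos
  have hj1m : j₁ ∈ Icc i₀ i₁ ∩ {s | Q s ≤ 1} := by
    rw [hJ]
    exact ⟨le_rfl, h12.le⟩
  have hj2m : j₂ ∈ Icc i₀ i₁ ∩ {s | Q s ≤ 1} := by
    rw [hJ]
    exact ⟨h12.le, le_rfl⟩
  obtain ⟨hij, hji⟩ := ends_lt hj1m.1.1 h12.le hj2m.1.2 hf0 hfi pos area moment
  -- `X = J`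
  have hX : ∀ x, Q x ≤ 1 → j₁ ≤ x ∧ x ≤ j₂ := by
    intro x hx
    have hxI : x ∈ Icc i₀ i₁ := by
      constructor
      · by_contra h
        rw [not_le] at h
        have h1 : i₀ ∈ {s | Q s ≤ 1} :=
          hXc.ordConnected.out (x := x) hx hj1m.2 ⟨h.le, hij.le⟩
        have h2 : i₀ ∈ Icc j₁ j₂ := by
          rw [← hJ]
          exact ⟨⟨le_rfl, hi.le⟩, h1⟩
        linarith [h2.1]
      · by_contra h
        rw [not_le] at h
        have h1 : i₁ ∈ {s | Q s ≤ 1} :=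
          hXc.ordConnected.out (x := j₁) hj1m.2 hx ⟨hj1m.1.2, h.le⟩
        have h2 : i₁ ∈ Icc j₁ j₂ := by
          rw [← hJ]
          exact ⟨⟨hi.le, le_rfl⟩, h1⟩
        linarith [h2.2]
    have h3 : x ∈ Icc j₁ j₂ := by
      rw [← hJ]
      exact ⟨hxI, hx⟩
    exact h3
  -- the two lines
  have hlow : ∀ x ∈ Icc j₁ j₂, 2 * x - i₀ - j₂ ≤ Q x * (j₂ - i₀) ∧
      i₁ + j₁ - 2 * x ≤ Q x * (i₁ - j₁) := by
    intro x hx
    have hx' : Q x ≤ 1 := by
      have : x ∈ Icc i₀ i₁ ∩ {s | Q s ≤ 1} := by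
        rw [hJ]
        exact hx
      exact this.2
    have hp : 0 < 1 + Q x := by linarith [hQ0 x]
    have k1 := (hX _ (key x hx' i₀ ⟨le_rfl, hi.le⟩)).2
    have k2 := (hX _ (key x hx' i₁ ⟨hi.le, le_rfl⟩)).1
    have e1 : ∀ y : ℝ, ((1 + (1 - Q x) / (1 + Q x)) * x - ((1 - Q x) / (1 + Q x)) * y) *
        (1 + Q x) = 2 * x - (1 - Q x) * y := by
      intro y
      field_simp
      ring
    have k1' := mul_le_mul_of_nonneg_right k1 hp.le
    have k2' := mul_le_mul_of_nonneg_right k2 hp.le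
    rw [e1] at k1' k2'
    constructor
    · linarith
    · linarith
  have hG := pos
  have hrat := deg_ratio hij h12.le hji hf hf0 hfi (by linarith) moment
  have h4 : 4 * (j₂ - j₁) ≤ i₁ - i₀ := by
    have hF : 0 < ∫ s in Icc i₀ i₁, f s := by linarith
    have h5 : (j₂ - j₁) * (4 * ∫ s in Icc j₁ j₂, f s) ≤ (i₁ - i₀) * ∫ s in Icc j₁ j₂, f s :=
      (mul_le_mul_of_nonneg_left area (by linarith)).trans hrat
    by_contra hc
    rw [not_le] at hc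
    have h6 := mul_lt_mul_of_pos_right hc hG
    linarith
  obtain ⟨ϱ, hϱ0, hϱ4, hϱ⟩ : ∃ ϱ : ℝ, 0 < ϱ ∧ ϱ ≤ 1 / 4 ∧ j₂ - j₁ = ϱ * (i₁ - i₀) := by
    have hd : 0 < i₁ - i₀ := by linarith
    refine ⟨(j₂ - j₁) / (i₁ - i₀), div_pos (by linarith) hd, ?_, ?_⟩
    · rw [div_le_iff₀ hd]
      linarith
    · field_simp
  have hϱ1 : 0 < 1 + ϱ := by linarith
  set x₀ : ℝ := (j₂ + ϱ * i₀) / (1 + ϱ) with hx₀
  have hx₀' : x₀ * (1 + ϱ) = j₂ + ϱ * i₀ := by
    rw [hx₀]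
    field_simp
  have hr2 : (j₂ - x₀) * (1 + ϱ) = ϱ * (j₂ - i₀) := by linarith
  have hr1 : (x₀ - j₁) * (1 + ϱ) = ϱ * (i₁ - j₁) := by linarith
  have hx2 : 0 < j₂ - x₀ := by
    by_contra h
    rw [not_lt] at h
    nlinarith [mul_pos hϱ0 (show 0 < j₂ - i₀ by linarith)]
  have hx1 : 0 < x₀ - j₁ := by
    by_contra h
    rw [not_lt] at h
    nlinarith [mul_pos hϱ0 (show 0 < i₁ - j₁ by linarith)]
  -- lower bounds for `Q`
  have hQ2 : ∀ s ∈ Icc x₀ j₂, 3 / 5 + 2 / 5 * ((s - x₀) / (j₂ - x₀)) ≤ Q s := by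
    intro s hs
    have k1 := (hlow s ⟨by linarith [hs.1], hs.2⟩).1
    have hd : 0 < j₂ - i₀ := by linarith
    have k2 : (2 * s - i₀ - j₂) / (j₂ - i₀) ≤ Q s := by
      rw [div_le_iff₀ hd]
      exact k1
    refine le_trans ?_ k2
    rw [le_div_iff₀ hd]
    obtain ⟨θ, hθ⟩ : ∃ θ, θ = (s - x₀) / (j₂ - x₀) := ⟨_, rfl⟩
    have hθ1 : θ ≤ 1 := by
      rw [hθ, div_le_one hx2]
      linarith [hs.2]
    have hs' : s = x₀ + θ * (j₂ - x₀) := by
      rw [hθ]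
      field_simp
      ring
    rw [← hθ]
    have hd2 : ϱ * (j₂ - i₀) = (j₂ - x₀) * (1 + ϱ) := hr2.symm
    -- with `D = j₂ - i₀`, `j₂ - x₀ = ϱ D / (1 + ϱ)`
    have e1 : (j₂ - x₀) ≤ 1 / 5 * (j₂ - i₀) := by
      have h7 : (j₂ - x₀) * (1 + ϱ) ≤ (1 / 5 * (j₂ - i₀)) * (1 + ϱ) := by
        rw [hr2]
        nlinarith
      exact le_of_mul_le_mul_right h7 hϱ1
    have e2 : 2 * s - i₀ - j₂ = (j₂ - i₀) - 2 * (1 - θ) * (j₂ - x₀) := by
      rw [hs']
      ring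
    rw [e2]
    nlinarith [mul_le_mul_of_nonneg_left e1 (show 0 ≤ 1 - θ by linarith)]
  have hQ1 : ∀ s ∈ Icc j₁ x₀, 3 / 5 + 2 / 5 * ((x₀ - s) / (x₀ - j₁)) ≤ Q s := by
    intro s hs
    have k1 := (hlow s ⟨hs.1, by linarith [hs.2]⟩).2
    have hd : 0 < i₁ - j₁ := by linarith
    have k2 : (i₁ + j₁ - 2 * s) / (i₁ - j₁) ≤ Q s := by
      rw [div_le_iff₀ hd]
      exact k1
    refine le_trans ?_ k2
    rw [le_div_iff₀ hd]
    obtain ⟨θ, hθ⟩ : ∃ θ, θ = (x₀ - s) / (x₀ - j₁) := ⟨_, rfl⟩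
    have hθ1 : θ ≤ 1 := by
      rw [hθ, div_le_one hx1]
      linarith [hs.1]
    have hs' : s = x₀ - θ * (x₀ - j₁) := by
      rw [hθ]
      field_simp
      ring
    rw [← hθ]
    have e1 : (x₀ - j₁) ≤ 1 / 5 * (i₁ - j₁) := by
      have h7 : (x₀ - j₁) * (1 + ϱ) ≤ (1 / 5 * (i₁ - j₁)) * (1 + ϱ) := by
        rw [hr1]
        nlinarith
      exact le_of_mul_le_mul_right h7 hϱ1
    have e2 : i₁ + j₁ - 2 * s = (i₁ - j₁) - 2 * (1 - θ) * (x₀ - j₁) := by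
      rw [hs']
      ring
    rw [e2]
    nlinarith [mul_le_mul_of_nonneg_left e1 (show 0 ≤ 1 - θ by linarith)]
  -- integration
  have hJi : IntegrableOn f (Icc j₁ j₂) := hfi.mono_set (Icc_subset_Icc hij.le hji.le)
  have hQi : Continuous fun s => (Q s)⁻¹ ^ 3 := by
    apply Continuous.pow
    exact hQc.inv₀ fun s => (hQ0 s).ne'
  have hfQ : IntegrableOn (fun s => f s * (Q s)⁻¹ ^ 3) (Icc j₁ j₂) :=
    hJi.mul_continuousOn hQi.continuousOn isCompact_Icc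
  rw [split_Icc (by linarith) (by linarith) hfQ (b := x₀),
    split_Icc (by linarith) (by linarith) hJi (b := x₀), mul_add]
  have hsub1 : Icc j₁ x₀ ⊆ Icc i₀ i₁ := Icc_subset_Icc hij.le (by linarith)
  have hsub2 : Icc x₀ j₂ ⊆ Icc i₀ i₁ := Icc_subset_Icc (by linarith) hji.le
  have hpow : ∀ {s u : ℝ}, 0 < u → u ≤ Q s → (Q s)⁻¹ ^ 3 ≤ u⁻¹ ^ 3 := by
    intro s u hu hus
    exact pow_le_pow_left₀ (inv_nonneg.2 (hQ0 s).le) (inv_anti₀ hu hus) 3
  apply add_le_add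
  · refine le_trans (setIntegral_mono_on (hfQ.mono_set (Icc_subset_Icc_right (by linarith))) ?_
      measurableSet_Icc ?_) (deg_side' (by linarith : j₁ < x₀) (hf.subset hsub1 (convex_Icc _ _))
        (fun t ht => hf0 t (hsub1 ht)) (hfi.mono_set hsub1))
    · apply (hfi.mono_set hsub1).mul_continuousOn _ isCompact_Icc
      apply ContinuousOn.pow
      apply ContinuousOn.inv₀ (by fun_prop)
      intro s hs
      have : 0 ≤ (x₀ - s) / (x₀ - j₁) := div_nonneg (by linarith [hs.2]) hx1.le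
      positivity
    · intro s hs
      have h8 : 0 ≤ (x₀ - s) / (x₀ - j₁) := div_nonneg (by linarith [hs.2]) hx1.le
      exact mul_le_mul_of_nonneg_left (hpow (by positivity) (hQ1 s hs)) (hf0 s (hsub1 hs))
  · refine le_trans (setIntegral_mono_on (hfQ.mono_set (Icc_subset_Icc_left (by linarith))) ?_
      measurableSet_Icc ?_) (deg_side (by linarith : x₀ < j₂) (hf.subset hsub2 (convex_Icc _ _))
        (fun t ht => hf0 t (hsub2 ht)) (hfi.mono_set hsub2))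
    · apply (hfi.mono_set hsub2).mul_continuousOn _ isCompact_Icc
      apply ContinuousOn.pow
      apply ContinuousOn.inv₀ (by fun_prop)
      intro s hs
      have : 0 ≤ (s - x₀) / (j₂ - x₀) := div_nonneg (by linarith [hs.1]) hx2.le
      positivity
    · intro s hs
      have h8 : 0 ≤ (s - x₀) / (j₂ - x₀) := div_nonneg (by linarith [hs.1]) hx2.le
      exact mul_le_mul_of_nonneg_left (hpow (by positivity) (hQ2 s hs)) (hf0 s (hsub2 hs))

end Pool.Agent.Lib.MP_43065d_gt
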