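import Mathlib

/-!
# Module Deg1a: a one dimensional inequality for concave functions

PROOF of `deg_side01`.  Let `w t = (3/5 + 2/5 t)⁻¹^3 - 25/9`, decreasing on `[0,1]`, `w 0 = 125/27 - 25/9 > 0`, `w 1 = 1 - 25/9 < 0`; let `t₀ ∈ (0,1)` with
`w t₀ = 0` (`t₀ = 5/2 ((9/25)^(1/3) - 3/5)`, or by the intermediate value theorem).  Let `k = f t₀ / (1 - t₀) ≥ 0`.  Concavity and `f 1 ≥ 0`: for `t ≤ t₀` the point `t₀` lies between
`t` and `1`, so `f t₀ ≥ ((1 - t₀)/(1 - t)) f t + ((t₀ - t)/(1 - t)) f 1 ≥ ((1 - t₀)/(1 - t)) f t`, i.e. `f t ≤ k (1 - t)`; for `t ≥ t₀` likewise `f t ≥ k (1 - t)`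
(`f t ≥ ((1-t)/(1-t₀)) f t₀`).  Hence `f t * w t ≤ k (1 - t) w t` for all `t ∈ [0,1]`, and `∫_0^1 (1 - t) w t = 0`: `∫_0^1 (1 - t) (3/5 + 2/5 t)⁻¹^3 dt = 25/18`
(an antiderivative of `(1 - t)(3/5 + 2/5 t)⁻³`: with `u = 3/5 + 2/5 t`, `1 - t = 5/2 (1 - u)`, it is
`(25/4) (1/u - 1/(2 u²))`; at `u = 1` the bracket is `1/2`, at `u = 3/5` it is `5/3 - 25/18 = 5/18`; the difference times `25/4` is `25/18`) and
`25/9 ∫ (1 - t) = 25/18`.
`deg_side`, `deg_side'`: substitution `s = p + t (p' - p)`, respectively `s = p' - t (p' - p)` (`intervalIntegral` substitution lemmas; convert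
`∫ in Icc` by `integral_Icc_eq_integral_Ioc` and `intervalIntegral.integral_of_le`).
-/

open MeasureTheory Set Filter Topology Metric

namespace Pool.Agent.Lib.MP_43065d_gt

private noncomputable def wgt (t : ℝ) : ℝ := (3 / 5 + 2 / 5 * t)⁻¹ ^ 3 - 25 / 9

private theorem u_pos {t : ℝ} (ht : t ∈ Icc (0 : ℝ) 1) : 0 < 3 / 5 + 2 / 5 * t := by
  have := ht.1
  positivity

private theorem wgt_cont : ContinuousOn wgt (Icc 0 1) := by
  unfold wgt
  apply ContinuousOn.sub _ continuousOn_const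
  apply ContinuousOn.pow
  apply ContinuousOn.inv₀ (by fun_prop)
  intro t ht
  exact (u_pos ht).ne'

private theorem wgt_anti {s t : ℝ} (hs : s ∈ Icc (0 : ℝ) 1) (hst : s ≤ t) : wgt t ≤ wgt s := by
  unfold wgt
  have h0 : 0 < 3 / 5 + 2 / 5 * s := u_pos hs
  have h1 : (3 / 5 + 2 / 5 * t)⁻¹ ≤ (3 / 5 + 2 / 5 * s)⁻¹ := by
    apply inv_anti₀ h0
    linarith
  have h2 : 0 ≤ (3 / 5 + 2 / 5 * t)⁻¹ := by
    apply inv_nonneg.2
    linarith
  have h3 := pow_le_pow_left₀ h2 h1 3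
  linarith

private theorem wgt_int : ∫ t in (0 : ℝ)..1, (1 - t) * wgt t = 0 := by
  have h : ∀ t ∈ uIcc (0 : ℝ) 1, HasDerivAt (fun t : ℝ => 25 / 4 * ((3 / 5 + 2 / 5 * t)⁻¹ -
      1 / 2 * (3 / 5 + 2 / 5 * t)⁻¹ ^ 2) - 25 / 9 * (t - t ^ 2 / 2)) ((1 - t) * wgt t) t := by
    intro t ht
    rw [uIcc_of_le zero_le_one] at ht
    have hu := (u_pos ht).ne'
    have h1 : HasDerivAt (fun t : ℝ => 3 / 5 + 2 / 5 * t) (2 / 5) t := by
      simpa using ((hasDerivAt_id t).const_mul (2 / 5 : ℝ)).const_add (3 / 5)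
    have h2 := h1.inv hu
    have h3 := h2.pow 2
    have h4 := ((h2.sub (h3.const_mul (1 / 2 : ℝ))).const_mul (25 / 4 : ℝ)).sub
      (((hasDerivAt_id t).sub (((hasDerivAt_id t).pow 2).div_const 2)).const_mul (25 / 9 : ℝ))
    refine HasDerivAt.congr_deriv h4 ?_
    have hu' : 3 + 2 * t ≠ 0 := by
      intro h0
      apply hu
      linarith
    have hu2 : 3 / 5 + 2 / 5 * t = (3 + 2 * t) / 5 := by ring
    simp only [wgt, id, Pi.inv_apply, Nat.cast_ofNat, Nat.add_one_sub_one, pow_one, hu2]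
    field_simp
    ring
  rw [intervalIntegral.integral_eq_sub_of_hasDerivAt h]
  · norm_num
  · apply ContinuousOn.intervalIntegrable
    rw [uIcc_of_le zero_le_one]
    exact (by fun_prop : ContinuousOn (fun t : ℝ => 1 - t) (Icc 0 1)).mul wgt_cont

theorem deg_side01 {f : ℝ → ℝ} (hf : ConcaveOn ℝ (Icc 0 1) f) (hf0 : ∀ t ∈ Icc (0 : ℝ) 1, 0 ≤ f t)
    (hfi : IntegrableOn f (Icc 0 1)) :
    ∫ t in Icc (0 : ℝ) 1, f t * (3 / 5 + 2 / 5 * t)⁻¹ ^ 3 ≤ 25 / 9 * ∫ t in Icc (0 : ℝ) 1, f t := by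
  obtain ⟨t₀, ht₀, hw₀⟩ : ∃ t₀ ∈ Icc (0 : ℝ) 1, wgt t₀ = 0 := by
    have h := intermediate_value_Icc' zero_le_one wgt_cont
    have h0 : (0 : ℝ) ∈ Icc (wgt 1) (wgt 0) := by
      constructor <;> · unfold wgt; norm_num
    obtain ⟨t, ht, h1⟩ := h h0
    exact ⟨t, ht, h1⟩
  have ht₀1 : t₀ < 1 := by
    rcases ht₀.2.lt_or_eq with h | h
    · exact h
    · exfalso
      rw [h] at hw₀
      unfold wgt at hw₀
      norm_num at hw₀
  have h1m : (1 : ℝ) ∈ Icc (0 : ℝ) 1 := ⟨zero_le_one, le_rfl⟩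
  have hk : 0 ≤ f t₀ / (1 - t₀) := div_nonneg (hf0 _ ht₀) (by linarith)
  have hle : ∀ t ∈ Icc (0 : ℝ) 1, f t * wgt t ≤ f t₀ / (1 - t₀) * ((1 - t) * wgt t) := by
    intro t ht
    have hd : 0 < 1 - t₀ := by linarith
    rcases le_total t t₀ with h | h
    · have hw : 0 ≤ wgt t := by
        rw [← hw₀]
        exact wgt_anti ht h
      have ht1 : 0 < 1 - t := by linarith
      have hc := hf.2 ht h1m (show 0 ≤ (1 - t₀) / (1 - t) from div_nonneg hd.le ht1.le)
        (show 0 ≤ (t₀ - t) / (1 - t) from div_nonneg (by linarith) ht1.le) (by field_simp; ring)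
      have e1 : (1 - t₀) / (1 - t) * t + (t₀ - t) / (1 - t) * 1 = t₀ := by
        field_simp
        ring
      simp only [smul_eq_mul] at hc
      rw [e1] at hc
      have h2 : 0 ≤ (t₀ - t) / (1 - t) * f 1 :=
        mul_nonneg (div_nonneg (by linarith) ht1.le) (hf0 _ h1m)
      have h3 : (1 - t₀) / (1 - t) * f t ≤ f t₀ := by linarith
      have h4 : f t ≤ f t₀ / (1 - t₀) * (1 - t) := by
        rw [div_mul_eq_mul_div, div_le_iff₀ ht1] at h3
        rw [div_mul_eq_mul_div, le_div_iff₀ hd]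
        linarith
      calc f t * wgt t ≤ f t₀ / (1 - t₀) * (1 - t) * wgt t := mul_le_mul_of_nonneg_right h4 hw
        _ = _ := by ring
    · have hw : wgt t ≤ 0 := by
        rw [← hw₀]
        exact wgt_anti ht₀ h
      have hc := hf.2 ht₀ h1m
        (show 0 ≤ (1 - t) / (1 - t₀) from div_nonneg (by linarith [ht.2]) hd.le)
        (show 0 ≤ (t - t₀) / (1 - t₀) from div_nonneg (by linarith) hd.le) (by field_simp; ring)
      have e1 : (1 - t) / (1 - t₀) * t₀ + (t - t₀) / (1 - t₀) * 1 = t := by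
        field_simp
        ring
      simp only [smul_eq_mul] at hc
      rw [e1] at hc
      have h2 : 0 ≤ (t - t₀) / (1 - t₀) * f 1 :=
        mul_nonneg (div_nonneg (by linarith) hd.le) (hf0 _ h1m)
      have h4 : f t₀ / (1 - t₀) * (1 - t) ≤ f t := by
        have e2 : f t₀ / (1 - t₀) * (1 - t) = (1 - t) / (1 - t₀) * f t₀ := by ring
        rw [e2]
        linarith
      calc f t * wgt t ≤ f t₀ / (1 - t₀) * (1 - t) * wgt t :=
            mul_le_mul_of_nonpos_right h4 hw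
        _ = _ := by ring
  have hfw : IntegrableOn (fun t => f t * wgt t) (Icc 0 1) :=
    hfi.mul_continuousOn wgt_cont isCompact_Icc
  have hcw : IntegrableOn (fun t => f t₀ / (1 - t₀) * ((1 - t) * wgt t)) (Icc 0 1) := by
    apply ContinuousOn.integrableOn_compact isCompact_Icc
    exact continuousOn_const.mul
      ((by fun_prop : ContinuousOn (fun t : ℝ => 1 - t) (Icc 0 1)).mul wgt_cont)
  have h5 : ∫ t in Icc (0 : ℝ) 1, f t * wgt t ≤ 0 := by
    calc ∫ t in Icc (0 : ℝ) 1, f t * wgt t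
        ≤ ∫ t in Icc (0 : ℝ) 1, f t₀ / (1 - t₀) * ((1 - t) * wgt t) :=
          setIntegral_mono_on hfw hcw measurableSet_Icc hle
      _ = 0 := by
        rw [integral_const_mul, integral_Icc_eq_integral_Ioc,
          ← intervalIntegral.integral_of_le zero_le_one, wgt_int, mul_zero]
  have h6 : ∫ t in Icc (0 : ℝ) 1, f t * (3 / 5 + 2 / 5 * t)⁻¹ ^ 3 =
      (∫ t in Icc (0 : ℝ) 1, f t * wgt t) + 25 / 9 * ∫ t in Icc (0 : ℝ) 1, f t := by
    rw [← integral_const_mul, ← integral_add hfw (hfi.const_mul _)]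
    apply integral_congr_ae
    filter_upwards with t
    simp only [wgt]
    ring
  rw [h6]
  linarith

private theorem conc_comp {p c : ℝ} {f : ℝ → ℝ} {I : Set ℝ} (hf : ConcaveOn ℝ I f)
    (hI : ∀ t ∈ Icc (0 : ℝ) 1, p + c * t ∈ I) :
    ConcaveOn ℝ (Icc 0 1) (fun t => f (p + c * t)) := by
  refine ⟨convex_Icc 0 1, fun x hx y hy a b ha hb hab => ?_⟩
  have h := hf.2 (hI x hx) (hI y hy) ha hb hab
  simp only [smul_eq_mul] at h ⊢
  have e : a * (p + c * x) + b * (p + c * y) = p + c * (a * x + b * y) := by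
    have : b = 1 - a := by linarith
    subst this
    ring
  rw [e] at h
  exact h

private theorem deg_aux {p c : ℝ} (hc : c ≠ 0) {f : ℝ → ℝ}
    (hf : ConcaveOn ℝ (Icc 0 1) (fun t => f (p + c * t)))
    (hf0 : ∀ t ∈ Icc (0 : ℝ) 1, 0 ≤ f (p + c * t))
    (hfi : IntervalIntegrable f volume p (p + c)) :
    ∫ t in (0 : ℝ)..1, f (p + c * t) * (3 / 5 + 2 / 5 * t)⁻¹ ^ 3 ≤
      25 / 9 * ∫ t in (0 : ℝ)..1, f (p + c * t) := by
  have h1 : IntervalIntegrable (fun t => f (p + c * t)) volume 0 1 := by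
    have h2 := (hfi.comp_add_right p).comp_mul_left (c := c)
    simp only [sub_self, zero_div, add_sub_cancel_left, div_self hc] at h2
    refine h2.congr (fun t _ => ?_)
    simp only [add_comm]
  have h3 := deg_side01 hf hf0 ((intervalIntegrable_iff_integrableOn_Icc_of_le zero_le_one).1 h1)
  rw [integral_Icc_eq_integral_Ioc, integral_Icc_eq_integral_Ioc,
    ← intervalIntegral.integral_of_le zero_le_one,
    ← intervalIntegral.integral_of_le zero_le_one] at h3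
  exact h3

theorem deg_side {p p' : ℝ} (hp : p < p') {f : ℝ → ℝ} (hf : ConcaveOn ℝ (Icc p p') f)
    (hf0 : ∀ t ∈ Icc p p', 0 ≤ f t) (hfi : IntegrableOn f (Icc p p')) :
    ∫ s in Icc p p', f s * (3 / 5 + 2 / 5 * ((s - p) / (p' - p)))⁻¹ ^ 3 ≤
      25 / 9 * ∫ s in Icc p p', f s := by
  have hd : 0 < p' - p := by linarith
  have hI : ∀ t ∈ Icc (0 : ℝ) 1, p + (p' - p) * t ∈ Icc p p' := by
    intro t ht
    constructor
    · nlinarith [ht.1]
    · nlinarith [ht.2]
  have h := deg_aux (p := p) (c := p' - p) hd.ne' (conc_comp hf hI) (fun t ht => hf0 _ (hI t ht))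
    (by
      rw [add_sub_cancel]
      exact (intervalIntegrable_iff_integrableOn_Icc_of_le hp.le).2 hfi)
  rw [integral_Icc_eq_integral_Ioc, integral_Icc_eq_integral_Ioc,
    ← intervalIntegral.integral_of_le hp.le, ← intervalIntegral.integral_of_le hp.le]
  have e1 := intervalIntegral.integral_comp_add_mul (a := 0) (b := 1)
    (fun s => f s * (3 / 5 + 2 / 5 * ((s - p) / (p' - p)))⁻¹ ^ 3) hd.ne' p
  have e2 := intervalIntegral.integral_comp_add_mul (a := 0) (b := 1) f hd.ne' p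
  simp only [mul_zero, add_zero, mul_one, add_sub_cancel, add_sub_cancel_left, smul_eq_mul,
    mul_div_cancel_left₀ _ hd.ne'] at e1 e2
  rw [e1, e2] at h
  have h2 := mul_le_mul_of_nonneg_left h hd.le
  rw [← mul_assoc, mul_inv_cancel₀ hd.ne', one_mul, mul_left_comm, ← mul_assoc (p' - p),
    mul_inv_cancel₀ hd.ne', one_mul] at h2
  exact h2

theorem deg_side' {p p' : ℝ} (hp : p < p') {f : ℝ → ℝ} (hf : ConcaveOn ℝ (Icc p p') f)
    (hf0 : ∀ t ∈ Icc p p', 0 ≤ f t) (hfi : IntegrableOn f (Icc p p')) :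
    ∫ s in Icc p p', f s * (3 / 5 + 2 / 5 * ((p' - s) / (p' - p)))⁻¹ ^ 3 ≤
      25 / 9 * ∫ s in Icc p p', f s := by
  have hd : 0 < p' - p := by linarith
  have hd' : p - p' ≠ 0 := by linarith
  have hI : ∀ t ∈ Icc (0 : ℝ) 1, p' + (p - p') * t ∈ Icc p p' := by
    intro t ht
    constructor
    · nlinarith [ht.2]
    · nlinarith [ht.1]
  have h := deg_aux (p := p') (c := p - p') hd' (conc_comp hf hI) (fun t ht => hf0 _ (hI t ht))
    (by
      rw [add_sub_cancel]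
      exact ((intervalIntegrable_iff_integrableOn_Icc_of_le hp.le).2 hfi).symm)
  rw [integral_Icc_eq_integral_Ioc, integral_Icc_eq_integral_Ioc,
    ← intervalIntegral.integral_of_le hp.le, ← intervalIntegral.integral_of_le hp.le]
  have e1 := intervalIntegral.integral_comp_add_mul (a := 0) (b := 1)
    (fun s => f s * (3 / 5 + 2 / 5 * ((p' - s) / (p' - p)))⁻¹ ^ 3) hd' p'
  have e2 := intervalIntegral.integral_comp_add_mul (a := 0) (b := 1) f hd' p'
  have e3 : ∀ x : ℝ, (p' - (p' + (p - p') * x)) / (p' - p) = x := by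
    intro x
    field_simp
    ring
  simp only [mul_zero, add_zero, mul_one, add_sub_cancel, smul_eq_mul, e3] at e1 e2
  rw [e1, e2, intervalIntegral.integral_symm, intervalIntegral.integral_symm (f := f)] at h
  have h2 := mul_le_mul_of_nonneg_left h hd.le
  have e4 : ∀ z : ℝ, (p' - p) * ((p - p')⁻¹ * (-z)) = z := by
    intro z
    field_simp
    ring
  rw [e4, mul_left_comm, e4] at h2
  exact h2

end Pool.Agent.Lib.MP_43065d_gt
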