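import Pool.Agent.Lib.MP_43065d_gt.Deg1
import Pool.Agent.Lib.MP_43065d_gt.Pl.SecAdd

/-!
# Module Deg2: the planar inequality when `q` does not depend on one direction

PROOF.  Let `e = ‖w‖⁻¹ • w`, `n = rot e` (a unit vector, `norm_rot`); `rot n = -e`, so `q (s • n + t • rot n) = q (s • n) =: Q s` (`hinv`), and by `coord`
`q y = Q ⟪n, y⟫` for all `y`.  `Q` is convex, positive.  `f = sec n F`, `I = [lo n F, hi n F]`: `f` is concave and nonnegative on `I` (`sec_concave`, `sec_nonneg`), integrable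
(`integrable_sec`), `lo n F < hi n F` because `F` has interior points.  `G = F ∩ {q ≤ 1} = {y ∈ F | ⟪n, y⟫ ∈ X}`, `X = {s | Q s ≤ 1}` closed.
FUBINI: for continuous `φ`: `∫_F φ ⟪n, y⟫ = ∫_{I} φ f` (`integral_sec`, or `volume_real_sec`), and `∫_G φ ⟪n, y⟫ = ∫_{I ∩ X} φ f`: by `integral_sec` for the compact set `G` and
`sec n G s = f s` for `s ∈ X`, `sec n G s = 0` for `s ∉ X` (`sec_congr`, `sec_out`; both integrals extend to the whole line by `sec_out`); or directly from the image measure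
computation `secInt_map` in Pl/SecInt.lean.
KEY: `x ∈ ℝ` with `Q x ≤ 1` and `y ∈ I`: there is `p ∈ F` with `⟪n, p⟫ = y` (`exists_height`); apply `key` to the point `x • n` and to `p`, and take `⟪n, ·⟫`:
`⟪n, (1 + l) • (x • n) - l • p⟫ = (1 + l) x - l y`.
`pos`, `area`: `φ = 1`.  `moment`: `v = n`, `φ s = s`.  CLAIM: `φ s = (Q s)⁻¹ ^ 3` (`Q` is continuous and positive), `deg_line`.
-/

open MeasureTheory Set Filter Topology Metric
open scoped ENNReal NNReal Pointwise

namespace Pool.Agent.Lib.MP_43065d_gt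

private theorem deg2_rot (e : E2) : rot (rot e) = -e := by
  ext i
  fin_cases i <;> simp [rot]

/-- Fubini on the whole line -/
private theorem deg2_line {n : E2} (hn : ‖n‖ = 1) {S : Set E2} (hS : IsCompact S) {φ : ℝ → ℝ}
    (hφ : Continuous φ) : ∫ y in S, φ (inner ℝ n y) = ∫ s, φ s * sec n S s := by
  rcases S.eq_empty_or_nonempty with rfl | hne
  · simp [sec]
  · have hle : lo n S ≤ hi n S := by
      obtain ⟨y, hy⟩ := hne
      have := mem_Icc_lo_hi n hS hy
      exact this.1.trans this.2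
    rw [integral_sec hn hS hφ, intervalIntegral.integral_of_le hle,
      ← integral_Icc_eq_integral_Ioc, setIntegral_eq_integral_of_forall_compl_eq_zero]
    intro s hs
    rw [sec_out hn hS hs, mul_zero]

private theorem deg2_one {S : Set E2} {n : E2} :
    volume.real S = ∫ y in S, (fun _ : ℝ => (1 : ℝ)) (inner ℝ n y) := by
  simp

theorem deg_planar {F : Set E2} {q : E2 → ℝ} (hF : Convex ℝ F) (hFc : IsCompact F)
    (hFi : (interior F).Nonempty) (hq : ConvexOn ℝ univ q) (hqc : Continuous q)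
    (hq0 : ∀ y, 0 < q y)
    (key : ∀ x, q x ≤ 1 → ∀ y ∈ F,
      q ((1 + (1 - q x) / (1 + q x)) • x - ((1 - q x) / (1 + q x)) • y) ≤ 1)
    (pos : 0 < volume.real (F ∩ {y | q y ≤ 1}))
    (area : 4 * volume.real (F ∩ {y | q y ≤ 1}) ≤ volume.real F)
    (moment : ∀ v : E2, volume.real F * ∫ y in F ∩ {y | q y ≤ 1}, inner ℝ v y =
      volume.real (F ∩ {y | q y ≤ 1}) * ∫ y in F, inner ℝ v y)
    {w : E2} (hw : w ≠ 0) (hinv : ∀ (y : E2) (t : ℝ), q (y + t • w) = q y) :
    ∫ y in F ∩ {y | q y ≤ 1}, (q y)⁻¹ ^ 3 ≤ 25 / 9 * volume.real (F ∩ {y | q y ≤ 1}) := by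
  obtain ⟨e, he⟩ : ∃ e : E2, e = ‖w‖⁻¹ • w := ⟨_, rfl⟩
  obtain ⟨n, hnd⟩ : ∃ n : E2, n = rot e := ⟨_, rfl⟩
  have hw' : ‖w‖ ≠ 0 := norm_ne_zero_iff.2 hw
  have hn : ‖n‖ = 1 := by
    rw [hnd, norm_rot, he, norm_smul, norm_inv, norm_norm, inv_mul_cancel₀ hw']
  have hrn : rot n = -(‖w‖⁻¹ • w) := by
    rw [hnd, deg2_rot, he]
  obtain ⟨Q, hQ⟩ : ∃ Q : ℝ → ℝ, Q = fun s => q (s • n) := ⟨_, rfl⟩
  have hQc : Continuous Q := by
    rw [hQ]
    exact hqc.comp (continuous_id.smul continuous_const)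
  have hQq : ∀ y : E2, q y = Q (inner ℝ n y) := by
    intro y
    conv_lhs => rw [coord hn y]
    have h1 : ∀ c : ℝ, c • rot n = (-(c * ‖w‖⁻¹)) • w := by
      intro c
      rw [hrn]
      module
    rw [h1, hinv, hQ]
  obtain ⟨G, hG⟩ : ∃ G, G = F ∩ {y | q y ≤ 1} := ⟨_, rfl⟩
  have hGc : IsCompact G := by
    rw [hG]
    exact hFc.inter_right (isClosed_le hqc continuous_const)
  rw [← hG] at pos area moment ⊢
  have hXm : MeasurableSet (Icc (lo n F) (hi n F) ∩ {s | Q s ≤ 1}) :=
    measurableSet_Icc.inter (isClosed_le hQc continuous_const).measurableSet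
  have hFne : F.Nonempty := hFi.mono interior_subset
  have hlt : lo n F < hi n F := by
    obtain ⟨p, hp⟩ := hFi
    obtain ⟨ε, hε, hb⟩ := Metric.isOpen_iff.1 isOpen_interior p hp
    have h1 : ∀ r : ℝ, |r| < ε → p + r • n ∈ F := by
      intro r hr
      apply interior_subset
      apply hb
      rw [mem_ball, dist_eq_norm, add_sub_cancel_left, norm_smul, hn, mul_one, Real.norm_eq_abs]
      exact hr
    have h2 := (mem_Icc_lo_hi n hFc (h1 0 (by rw [abs_zero]; exact hε))).1
    have h3 := (mem_Icc_lo_hi n hFc (h1 (ε / 2) (by rw [abs_of_pos (by positivity)]; linarith))).2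
    rw [inner_add_right, inner_smul_right, real_inner_self_eq_norm_sq, hn] at h2 h3
    linarith
  have fubF : ∀ φ : ℝ → ℝ, Continuous φ → ∫ y in F, φ (inner ℝ n y) =
      ∫ s in Icc (lo n F) (hi n F), φ s * sec n F s := by
    intro φ hφ
    rw [deg2_line hn hFc hφ, setIntegral_eq_integral_of_forall_compl_eq_zero]
    intro s hs
    rw [sec_out hn hFc hs, mul_zero]
  have fubG : ∀ φ : ℝ → ℝ, Continuous φ → ∫ y in G, φ (inner ℝ n y) =
      ∫ s in Icc (lo n F) (hi n F) ∩ {s | Q s ≤ 1}, φ s * sec n F s := by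
    intro φ hφ
    rw [deg2_line hn hGc hφ, ← integral_indicator hXm]
    refine integral_congr_ae (Filter.Eventually.of_forall fun s => ?_)
    show φ s * sec n G s = (Icc (lo n F) (hi n F) ∩ {s | Q s ≤ 1}).indicator
      (fun s => φ s * sec n F s) s
    by_cases hs : Q s ≤ 1
    · have h1 : sec n G s = sec n F s := sec_congr hn fun y hy => by
        rw [hG]
        refine ⟨fun h => h.1, fun h => ⟨h, ?_⟩⟩
        show q y ≤ 1
        rw [hQq y, hy]
        exact hs
      rw [h1]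
      by_cases hs2 : s ∈ Icc (lo n F) (hi n F)
      · rw [indicator_of_mem (show s ∈ Icc (lo n F) (hi n F) ∩ {s | Q s ≤ 1} from ⟨hs2, hs⟩)]
      · rw [indicator_of_notMem (fun h => hs2 h.1), sec_out hn hFc hs2, mul_zero]
    · have h1 : sec n G s = sec n ∅ s := sec_congr hn fun y hy => by
        rw [hG]
        refine ⟨fun h => ?_, fun h => absurd h (notMem_empty y)⟩
        apply hs
        rw [← hy, ← hQq y]
        exact h.2
      have h2 : sec n ∅ s = 0 := by simp [sec]
      rw [h1, h2, mul_zero, indicator_of_notMem (fun h => hs h.2)]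
  have oneF : volume.real F = ∫ s in Icc (lo n F) (hi n F), sec n F s := by
    rw [deg2_one (n := n), fubF _ continuous_const]
    simp only [one_mul]
  have oneG : volume.real G = ∫ s in Icc (lo n F) (hi n F) ∩ {s | Q s ≤ 1}, sec n F s := by
    rw [deg2_one (n := n), fubG _ continuous_const]
    simp only [one_mul]
  have idF := fubF (fun s => s) continuous_id
  have idG := fubG (fun s => s) continuous_id
  have hφc : Continuous fun s => (Q s)⁻¹ ^ 3 :=
    (hQc.inv₀ fun s => by rw [hQ]; exact (hq0 _).ne').pow 3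
  have cub : ∫ y in G, (q y)⁻¹ ^ 3 = ∫ s in Icc (lo n F) (hi n F) ∩ {s | Q s ≤ 1},
      sec n F s * (Q s)⁻¹ ^ 3 := by
    have h1 : ∫ y in G, (q y)⁻¹ ^ 3 = ∫ y in G, (fun s => (Q s)⁻¹ ^ 3) (inner ℝ n y) := by
      refine integral_congr_ae (Filter.Eventually.of_forall fun y => ?_)
      show (q y)⁻¹ ^ 3 = (Q (inner ℝ n y))⁻¹ ^ 3
      rw [hQq y]
    rw [h1, fubG _ hφc]
    refine integral_congr_ae (Filter.Eventually.of_forall fun y => ?_)
    exact mul_comm _ _
  rw [cub, oneG]
  refine deg_line hlt (sec_concave hn hF hFc) (fun s _ => sec_nonneg n F s)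
    (integrable_sec hn hFc).integrableOn ?_ (fun s => by rw [hQ]; exact hq0 _) ?_ ?_ ?_ ?_
  · refine ⟨convex_univ, fun x _ y _ a b ha hb hab => ?_⟩
    have h1 := hq.2 (mem_univ (x • n)) (mem_univ (y • n)) ha hb hab
    have h2 : a • (x • n) + b • (y • n) = (a • x + b • y) • n := by
      simp only [smul_eq_mul]
      module
    rw [h2] at h1
    rw [hQ]
    exact h1
  · intro x hx y hy
    obtain ⟨p, hp, hpy⟩ := exists_height n hF hFc hFne hy
    have hx' : q (x • n) = Q x := by rw [hQ]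
    have h1 := key (x • n) (by rw [hx']; exact hx) p hp
    rw [hx', hQq, inner_sub_right, inner_smul_right, inner_smul_right, inner_smul_right,
      real_inner_self_eq_norm_sq, hn, hpy] at h1
    have e1 : (1 + (1 - Q x) / (1 + Q x)) * (x * 1 ^ 2) - (1 - Q x) / (1 + Q x) * y =
        (1 + (1 - Q x) / (1 + Q x)) * x - (1 - Q x) / (1 + Q x) * y := by ring
    rwa [e1] at h1
  · rw [← oneG]
    exact pos
  · rw [← oneG, ← oneF]
    exact area
  · rw [← oneG, ← oneF, ← idG, ← idF]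
    exact moment n

end Pool.Agent.Lib.MP_43065d_gt
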