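import Pool.Agent.Lib.MP_43065d_gt.Limit
import Pool.Agent.Lib.MP_43065d_gt.Deg2

/-!
# Module DegCfg: degenerate limit configurations have a small ratio

PROOF.  `T` is linear and not injective, so `T (w, s) = 0` for some `(w, s) ≠ 0`; `s = ⟪a, T (w, s)⟫ = 0` (`chart`), so `w ≠ 0` and `T (w, 0) = 0`.  Hence
`T (y + t • w, 1) = T (y, 1)` and `q (y + t • w) = q y` for `q = qfun K₀ T`.  All hypotheses of `deg_planar` hold for `F`, `q`: they are proved in
`config_pconf` of Exact.lean (which must not be imported; copy the proof), with `pos`: `vol G = (m/2) vol F > 0`.  So, with `G = F ∩ {q ≤ 1}`,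
`κ vol F ≤ Qint F q = ∫_G q⁻¹^3 - vol G ≤ (25/9 - 1) vol G = (16/9) (m/2) vol F` (`qint_eq` in Exact.lean; copy).
-/

open MeasureTheory Set Filter Topology Metric
open scoped ENNReal NNReal Pointwise

namespace Pool.Agent.Lib.MP_43065d_gt

section

variable {K₀ : Set E3} {m κ : ℝ} {a : E3} {T : (E2 × ℝ) →L[ℝ] E3} {F : Set E2}

private theorem dc_absorb (h0 : (0 : E3) ∈ interior K₀) : Absorbent ℝ K₀ :=
  absorbent_nhds_zero (mem_interior_iff_mem_nhds.mp h0)

private theorem dc_gaugelip (hK : IsBody K₀) (h0 : (0 : E3) ∈ interior K₀) :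
    ∃ L : ℝ≥0, LipschitzWith L (gauge K₀) := by
  exact hK.convex.lipschitz_gauge (mem_interior_iff_mem_nhds.mp h0)

private theorem dc_qlip (hK : IsBody K₀) (h0 : (0 : E3) ∈ interior K₀) :
    ∃ L : ℝ≥0, LipschitzWith L (qfun K₀ T) := by
  obtain ⟨L, hL⟩ := dc_gaugelip hK h0
  have h1 : LipschitzWith 1 (fun y : E2 => ((y, (1 : ℝ)) : E2 × ℝ)) := by
    intro x y
    simp [Prod.edist_eq]
  have h2 := (T.lipschitz.comp h1).neg
  exact ⟨_, hL.comp h2⟩

private theorem dc_Tne (h : Config K₀ m κ a T F) (y : E2) : T (y, 1) ≠ 0 := by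
  intro h0
  have h1 := h.chart y 1
  rw [h0, inner_zero_right] at h1
  exact zero_ne_one h1

private theorem dc_qpos (hK : IsBody K₀) (h0 : (0 : E3) ∈ interior K₀) (h : Config K₀ m κ a T F)
    (y : E2) : 0 < qfun K₀ T y := by
  unfold qfun
  rw [gauge_pos (dc_absorb h0) (NormedSpace.isVonNBounded_iff ℝ |>.mpr hK.isCompact.isBounded)]
  exact neg_ne_zero.mpr (dc_Tne h y)

private theorem dc_Tcomb (y z : E2) {s t : ℝ} (hst : s + t = 1) :
    T (s • y + t • z, 1) = s • T (y, 1) + t • T (z, 1) := by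
  rw [← map_smul, ← map_smul, ← map_add]
  congr 1
  ext1 <;> simp [hst]

private theorem dc_Gcpt (hK : IsBody K₀) (h0 : (0 : E3) ∈ interior K₀)
    (h : Config K₀ m κ a T F) : IsCompact (F ∩ {y | qfun K₀ T y ≤ 1}) := by
  obtain ⟨L, hL⟩ := dc_qlip (T := T) hK h0
  exact h.isCompact.inter_right (isClosed_le hL.continuous continuous_const)

private theorem dc_G (h : Config K₀ m κ a T F) :
    volume.real (F ∩ {y | qfun K₀ T y ≤ 1}) = m / 2 * volume.real F := by
  have := h.moment 0 1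
  simpa using this

private theorem dc_int (h : Config K₀ m κ a T F) : (interior F).Nonempty :=
  ⟨0, mem_interior_iff_mem_nhds.mpr (Filter.mem_of_superset (closedBall_mem_nhds 0 one_pos)
    h.ball)⟩

private theorem dc_conv (hK : IsBody K₀) (h0 : (0 : E3) ∈ interior K₀) :
    ConvexOn ℝ univ (qfun K₀ T) := by
  refine ⟨convex_univ, fun x _ y _ s t hs ht hst => ?_⟩
  unfold qfun
  rw [dc_Tcomb x y hst]
  have e : -(s • T (x, 1) + t • T (y, 1)) = s • (-T (x, 1)) + t • (-T (y, 1)) := by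
    rw [smul_neg, smul_neg]; abel
  rw [e]
  refine (gauge_add_le hK.convex (dc_absorb h0) _ _).trans ?_
  rw [gauge_smul_of_nonneg hs, gauge_smul_of_nonneg ht]

private theorem dc_key (hK : IsBody K₀) (h0 : (0 : E3) ∈ interior K₀) (h : Config K₀ m κ a T F) :
    ∀ x, qfun K₀ T x ≤ 1 → ∀ y ∈ F, qfun K₀ T ((1 + (1 - qfun K₀ T x) / (1 + qfun K₀ T x)) • x -
      ((1 - qfun K₀ T x) / (1 + qfun K₀ T x)) • y) ≤ 1 := by
  intro x hx y hy
  have hq := dc_qpos hK h0 h x
  set l := (1 - qfun K₀ T x) / (1 + qfun K₀ T x) with hl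
  have hl0 : 0 ≤ l := div_nonneg (by linarith) (by linarith)
  have hl1 : l * (1 + qfun K₀ T x) = 1 - qfun K₀ T x := by
    rw [hl]; field_simp
  have e1 : (1 + l) • x - l • y = (1 + l) • x + (-l) • y := by
    rw [neg_smul, sub_eq_add_neg]
  have e2 : T ((1 + l) • x - l • y, 1) = (1 + l) • T (x, 1) + (-l) • T (y, 1) := by
    rw [e1]; exact dc_Tcomb x y (by ring)
  have e3 : -T ((1 + l) • x - l • y, 1) = (1 + l) • (-T (x, 1)) + l • T (y, 1) := by
    rw [e2, neg_smul, smul_neg]; abel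
  have hy1 : gauge K₀ (T (y, 1)) ≤ 1 := gauge_le_one_of_mem (h.mem y hy)
  change gauge K₀ (-T ((1 + l) • x - l • y, 1)) ≤ 1
  rw [e3]
  refine (gauge_add_le hK.convex (dc_absorb h0) _ _).trans ?_
  rw [gauge_smul_of_nonneg (by linarith : (0 : ℝ) ≤ 1 + l), gauge_smul_of_nonneg hl0]
  change (1 + l) * qfun K₀ T x + l * gauge K₀ (T (y, 1)) ≤ 1
  nlinarith [mul_le_mul_of_nonneg_left hy1 hl0]

private theorem dc_qint (hK : IsBody K₀) (h0 : (0 : E3) ∈ interior K₀) (h : Config K₀ m κ a T F) :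
    Qint F (qfun K₀ T) = (∫ y in F ∩ {y | qfun K₀ T y ≤ 1}, (qfun K₀ T y)⁻¹ ^ 3) -
      volume.real (F ∩ {y | qfun K₀ T y ≤ 1}) := by
  obtain ⟨L, hL⟩ := dc_qlip (T := T) hK h0
  have hpos := dc_qpos hK h0 h
  have hGc := dc_Gcpt hK h0 h
  unfold Qint
  rw [setIntegral_eq_of_subset_of_forall_sdiff_eq_zero
    (f := fun y => max ((qfun K₀ T y)⁻¹ ^ 3 - 1) 0) h.isCompact.measurableSet
    (inter_subset_left : F ∩ {y | qfun K₀ T y ≤ 1} ⊆ F)]
  · have e1 : ∫ y in F ∩ {y | qfun K₀ T y ≤ 1}, max ((qfun K₀ T y)⁻¹ ^ 3 - 1) 0 =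
        ∫ y in F ∩ {y | qfun K₀ T y ≤ 1}, ((qfun K₀ T y)⁻¹ ^ 3 - 1) := by
      refine setIntegral_congr_fun hGc.measurableSet fun y hy => ?_
      have h1 : 1 ≤ (qfun K₀ T y)⁻¹ := (one_le_inv₀ (hpos y)).mpr hy.2
      have h2 : 1 ≤ (qfun K₀ T y)⁻¹ ^ 3 := one_le_pow₀ h1
      exact max_eq_left (by linarith)
    rw [e1, integral_sub]
    · simp
    · refine ContinuousOn.integrableOn_compact hGc ?_
      exact ((hL.continuous.inv₀ fun y => (hpos y).ne').pow 3).continuousOn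
    · exact integrableOn_const (hs := hGc.measure_lt_top.ne)
  · rintro y ⟨hy, hy2⟩
    have h1 : 1 < qfun K₀ T y := by
      by_contra hc
      exact hy2 ⟨hy, not_lt.mp hc⟩
    have h2 : (qfun K₀ T y)⁻¹ ≤ 1 := inv_le_one_of_one_le₀ h1.le
    have h3 : (qfun K₀ T y)⁻¹ ^ 3 ≤ 1 := pow_le_one₀ (inv_nonneg.mpr (hpos y).le) h2
    exact max_eq_right (by linarith)

private theorem dc_volF (h : Config K₀ m κ a T F) : 0 < volume.real F := by
  have h1 : 0 < volume F := lt_of_lt_of_le (measure_closedBall_pos volume (0 : E2) one_pos)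
    (measure_mono h.ball)
  exact ENNReal.toReal_pos h1.ne' h.isCompact.measure_lt_top.ne

end

theorem config_degenerate {K₀ : Set E3} (hK : IsBody K₀) (h0 : (0 : E3) ∈ interior K₀)
    {m κ : ℝ} (hm0 : 0 < m) (hm2 : m ≤ 1 / 2) {a : E3} {T : (E2 × ℝ) →L[ℝ] E3} {F : Set E2}
    (h : Config K₀ m κ a T F) (hT : ¬ Function.Injective T) : κ ≤ 8 / 9 * m := by
  obtain ⟨w, hw, hTw⟩ : ∃ w : E2, w ≠ 0 ∧ T (w, 0) = 0 := by
    rw [injective_iff_map_eq_zero] at hT
    push Not at hT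
    obtain ⟨⟨w, s⟩, h1, h2⟩ := hT
    have h3 := h.chart w s
    rw [h1, inner_zero_right] at h3
    subst h3
    refine ⟨w, fun hw => h2 ?_, h1⟩
    rw [hw]
    rfl
  have hinv : ∀ (y : E2) (t : ℝ), qfun K₀ T (y + t • w) = qfun K₀ T y := by
    intro y t
    unfold qfun
    have h1 : ((y + t • w, (1 : ℝ)) : E2 × ℝ) = (y, 1) + t • (w, 0) := by
      ext1 <;> simp
    rw [h1, map_add, map_smul, hTw, smul_zero, add_zero]
  have hF := dc_volF h
  have hG := dc_G h
  obtain ⟨L, hL⟩ := dc_qlip (T := T) hK h0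
  have h1 := deg_planar h.convex h.isCompact (dc_int h) (dc_conv hK h0) hL.continuous
    (dc_qpos hK h0 h) (dc_key hK h0 h) (by rw [hG]; positivity) (by rw [hG]; nlinarith)
    (by
      intro v
      have h2 := h.moment v 0
      simp only [add_zero] at h2
      rw [h2, hG]; ring) hw hinv
  have h2 := h.lower
  rw [dc_qint hK h0 h] at h2
  have h3 : κ * volume.real F ≤ 8 / 9 * m * volume.real F := by
    rw [hG] at h1 h2
    linarith
  exact le_of_mul_le_mul_right h3 hF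

end Pool.Agent.Lib.MP_43065d_gt
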