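import Pool.Agent.Lib.MP_43065d_gt.GrpA

/-!
# Module GrpB: the sectors of the vectors near `a` converge to the cone `csec K₀ a`

Write `P j = poly (A j)`, `g j = gauge (P j)`, `g₀ = gauge K₀`, `B = closedBall 0 ρ`.
PROOF.
(2) Let `E κ = {x | ∃ b ∈ osup K₀, ‖b - a‖ ≤ κ ∧ g₀ x ≤ ⟪b, x⟫}`.  It is closed (compactness of `osup K₀ ∩ closedBall a κ`: `osup K₀` is closed), `E` is monotone in `κ`, and
`⋂ n, E (1/(n+1)) = csec K₀ a` (compactness: `b n → a`), so `vol ((E κ \ csec K₀ a) ∩ B) → 0` as `κ → 0` (continuity from above for `n ↦ (E (1/(n+1)) \ csec K₀ a) ∩ B`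
(`tendsto_measure_iInter_atTop`-type lemma) and monotonicity in `κ`).  Choose `κ₀` with this volume `≤ ε/3` for all `κ ≤ κ₀`.
(3) Fix `0 < κ ≤ κ₀`.  If `x ∈ interior (csec K₀ a)`, `x ≠ 0`, then `x ∈ grp (A j) κ a` for all large `j`: every `x ≠ 0` lies in the sector of some
`c j ∈ A j` (maximum over the finite nonempty set, `poly_pos`); if `x ∉ grp (A j) κ a` for infinitely many `j`, then `‖c j - a‖ ≥ κ` for these and `seq_limit` (`extraction_of_frequently_atTop`) gives a limit `b` with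
`‖b - a‖ ≥ κ`, `b ∈ osup K₀`, `⟪b, x⟫ = g₀ x`, against `csec_unique`.  By `csec_frontier_null` (and `csec_closed`) this is true for a.e. `x ∈ csec K₀ a`.
(4) If `x ∉ E κ` then `x ∉ grp (A j) κ a` for all large `j`: otherwise infinitely many `c j` with `‖c j - a‖ < κ`, `x ∈ sector (A j) (c j)`; by `seq_limit` the limit
`b` shows `x ∈ E κ`.
(5) `symmDiff (grp j) (csec) ∩ B ⊆ ((csec \ grp j) ∩ B) ∪ ((grp j \ E κ) ∩ B) ∪ ((E κ \ csec) ∩ B)`; the volumes of the first two
tend to `0` by (3), (4) (dominated convergence for the indicator functions), the third is `≤ ε/3`.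
-/

open MeasureTheory Set Filter Topology Metric
open scoped ENNReal NNReal Pointwise

namespace Pool.Agent.Lib.MP_43065d_gt

/-- the cones over the faces with vectors near `a` -/
private def gbE (K₀ : Set E3) (a : E3) (κ : ℝ) : Set E3 :=
  {x | ∃ b ∈ osup K₀, ‖b - a‖ ≤ κ ∧ gauge K₀ x ≤ inner ℝ b x}

private theorem gbE_mono {K₀ : Set E3} {a : E3} {κ κ' : ℝ} (h : κ ≤ κ') :
    gbE K₀ a κ ⊆ gbE K₀ a κ' := by
  rintro x ⟨b, hb, hba, hx⟩
  exact ⟨b, hb, hba.trans h, hx⟩

private theorem gb_osup_closed (K₀ : Set E3) : IsClosed (osup K₀) := by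
  have h : osup K₀ = ⋂ x ∈ K₀, {a : E3 | inner ℝ a x ≤ 1} := by
    ext a
    simp only [osup, mem_ofPred_eq, mem_iInter]
  rw [h]
  exact isClosed_biInter fun x _ => isClosed_le (by fun_prop) continuous_const

private theorem gbE_closed {K₀ : Set E3} (hK : Convex ℝ K₀) (h0 : K₀ ∈ 𝓝 (0 : E3)) (a : E3)
    (κ : ℝ) : IsClosed (gbE K₀ a κ) := by
  apply IsSeqClosed.isClosed
  intro x y hx hxy
  choose b hb hba hbx using hx
  obtain ⟨b', -, φ, hφ, hφb⟩ := (isCompact_closedBall a κ).tendsto_subseq (x := b) (fun n => by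
    rw [mem_closedBall, dist_eq_norm]
    exact hba n)
  refine ⟨b', (gb_osup_closed K₀).mem_of_tendsto hφb (Eventually.of_forall fun n => hb _), ?_, ?_⟩
  · exact le_of_tendsto ((hφb.sub_const a).norm) (Eventually.of_forall fun n => hba _)
  · have hg : Continuous (gauge K₀) := continuous_gauge hK h0
    have h1 : Tendsto (fun n => x (φ n)) atTop (𝓝 y) := hxy.comp hφ.tendsto_atTop
    exact le_of_tendsto_of_tendsto ((hg.tendsto y).comp h1) (hφb.inner h1)
      (Eventually.of_forall fun n => hbx _)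

private theorem gbE_lim {K₀ : Set E3} {a x : E3} (h : ∀ n : ℕ, x ∈ gbE K₀ a (1 / ((n : ℝ) + 1))) :
    x ∈ csec K₀ a := by
  choose b hb hba hbx using h
  have h1 : Tendsto b atTop (𝓝 a) := by
    rw [tendsto_iff_norm_sub_tendsto_zero]
    exact squeeze_zero (fun n => norm_nonneg _) hba tendsto_one_div_add_atTop_nhds_zero_nat
  exact ge_of_tendsto (h1.inner tendsto_const_nhds) (Eventually.of_forall fun n => hbx n)

private theorem gb_meas_lim {As : ℕ → Set E3} (hm : ∀ n, MeasurableSet (As n)) {ρ : ℝ}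
    (hs : ∀ n, As n ⊆ closedBall 0 ρ) (hl : ∀ᵐ x : E3, ∀ᶠ n in atTop, x ∉ As n) {ε : ℝ}
    (hε : 0 < ε) : ∀ᶠ n in atTop, volume (As n) ≤ ENNReal.ofReal ε := by
  have h1 := tendsto_measure_of_ae_tendsto_indicator (μ := (volume : Measure E3)) atTop
    (A := ∅) (As := As) MeasurableSet.empty hm (B := closedBall 0 ρ)
    isClosed_closedBall.measurableSet measure_closedBall_lt_top.ne
    (Eventually.of_forall hs) (by
      filter_upwards [hl] with x hx
      filter_upwards [hx] with n hn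
      simp only [mem_empty_iff_false, iff_false]
      exact hn)
  rw [measure_empty] at h1
  filter_upwards [h1.eventually (gt_mem_nhds (ENNReal.ofReal_pos.2 hε))] with n hn
  exact le_of_lt hn

private theorem gb_exists_sector {A : Finset E3} {R : ℝ} (h2 : poly A ⊆ closedBall 0 R) {x : E3}
    (hx : x ≠ 0) : ∃ c ∈ A, x ∈ sector A c := by
  obtain ⟨c₀, hc₀, -⟩ := poly_pos h2 hx
  obtain ⟨c, hc, hmax⟩ := A.exists_max_image (fun c => inner ℝ c x) ⟨c₀, hc₀⟩
  exact ⟨c, hc, fun c' hc' => hmax c' hc'⟩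

theorem grp_symm {K₀ : Set E3} (hK : IsBody K₀) (h0 : (0 : E3) ∈ interior K₀) {r R : ℝ}
    (hr : 0 < r) {A : ℕ → Finset E3} (h1 : ∀ j, closedBall 0 r ⊆ poly (A j))
    (h2 : ∀ j, poly (A j) ⊆ closedBall 0 R)
    (hV : Tendsto (fun j => volume.real (symmDiff (poly (A j)) K₀)) atTop (𝓝 0)) {a : E3}
    (ha : a ∈ osup K₀) (ρ : ℝ) {ε : ℝ} (hε : 0 < ε) :
    ∃ κ₀ > 0, ∀ κ, 0 < κ → κ ≤ κ₀ → ∀ᶠ j in atTop,
      volume.real (symmDiff (grp (A j) κ a) (csec K₀ a) ∩ closedBall 0 ρ) ≤ ε := by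
  have hn : K₀ ∈ 𝓝 (0 : E3) := mem_interior_iff_mem_nhds.1 h0
  have hcs : MeasurableSet (csec K₀ a) := (csec_closed hK.convex hn a).measurableSet
  have hEm : ∀ κ, MeasurableSet (gbE K₀ a κ) := fun κ => (gbE_closed hK.convex hn a κ).measurableSet
  have hBm : MeasurableSet (closedBall (0 : E3) ρ) := isClosed_closedBall.measurableSet
  -- the choice of `κ₀`
  obtain ⟨n, hn0⟩ := (gb_meas_lim (As := fun n : ℕ =>
      (gbE K₀ a (1 / ((n : ℝ) + 1)) \ csec K₀ a) ∩ closedBall 0 ρ)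
    (fun n => ((hEm _).diff hcs).inter hBm) (fun n => inter_subset_right)
    (Eventually.of_forall fun x => by
      by_cases hx : x ∈ csec K₀ a
      · exact Eventually.of_forall fun n hxn => hxn.1.2 hx
      · obtain ⟨n, hn1⟩ : ∃ n : ℕ, x ∉ gbE K₀ a (1 / ((n : ℝ) + 1)) := by
          by_contra hcon
          push Not at hcon
          exact hx (gbE_lim hcon)
        filter_upwards [eventually_ge_atTop n] with k hk hxk
        refine hn1 (gbE_mono ?_ hxk.1.1)
        exact Nat.one_div_le_one_div hk) (half_pos hε)).exists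
  refine ⟨1 / ((n : ℝ) + 1), Nat.one_div_pos_of_nat, fun κ hκ hκn => ?_⟩
  have hEκ : volume ((gbE K₀ a κ \ csec K₀ a) ∩ closedBall 0 ρ) ≤ ENNReal.ofReal (ε / 2) :=
    (measure_mono (inter_subset_inter_left _ (sdiff_subset_sdiff_left (gbE_mono hκn)))).trans hn0
  -- pointwise convergence
  have hae : ∀ᵐ x : E3, ∀ᶠ j in atTop, x ∉ (symmDiff (grp (A j) κ a) (csec K₀ a) \
      (gbE K₀ a κ \ csec K₀ a)) ∩ closedBall 0 ρ := by
    have hf : ∀ᵐ x : E3, x ∉ frontier (csec K₀ a) :=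
      measure_eq_zero_iff_ae_notMem.1 (csec_frontier_null hK.convex hn a)
    have hz : ∀ᵐ x : E3, x ≠ 0 := by
      have h3 : volume ({0} : Set E3) = 0 := measure_singleton _
      filter_upwards [measure_eq_zero_iff_ae_notMem.1 h3] with x hx hx0
      exact hx hx0
    filter_upwards [hf, hz] with x hxf hx0
    by_cases hx : x ∈ csec K₀ a
    · have hxi : x ∈ interior (csec K₀ a) := by
        by_contra hxi
        exact hxf ⟨subset_closure hx, hxi⟩
      have hev : ∀ᶠ j in atTop, x ∈ grp (A j) κ a := by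
        by_contra hcon
        rw [not_eventually] at hcon
        obtain ⟨φ, hφ, hφx⟩ := extraction_of_frequently_atTop hcon
        choose c hc hcx using fun j => gb_exists_sector (h2 (φ j)) hx0
        have hcκ : ∀ j, κ ≤ ‖c j - a‖ := fun j => by
          by_contra hlt
          exact hφx j ⟨c j, hc j, not_le.1 hlt, hcx j⟩
        obtain ⟨b, hb, hbx, ψ, hψ, hψb⟩ := seq_limit hK h0 hr h1 h2 hV hφ hc hcx
        have hba := csec_unique hn ha hxi hb hbx
        have h4 : κ ≤ ‖b - a‖ := ge_of_tendsto ((hψb.sub_const a).norm)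
          (Eventually.of_forall fun j => hcκ (ψ j))
        rw [hba, sub_self, norm_zero] at h4
        exact absurd hκ (not_lt.2 h4)
      filter_upwards [hev] with j hj hxj
      rcases hxj.1.1 with h5 | h5
      · exact h5.2 hx
      · exact h5.2 hj
    · by_cases hxE : x ∈ gbE K₀ a κ
      · exact Eventually.of_forall fun j hxj => hxj.1.2 ⟨hxE, hx⟩
      · have hev : ∀ᶠ j in atTop, x ∉ grp (A j) κ a := by
          by_contra hcon
          rw [not_eventually] at hcon
          obtain ⟨φ, hφ, hφx⟩ := extraction_of_frequently_atTop hcon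
          have hφx' : ∀ j, ∃ c ∈ A (φ j), ‖c - a‖ < κ ∧ x ∈ sector (A (φ j)) c := fun j =>
            not_not.1 (hφx j)
          choose c hc hcκ hcx using hφx'
          obtain ⟨b, hb, hbx, ψ, hψ, hψb⟩ := seq_limit hK h0 hr h1 h2 hV hφ hc hcx
          exact hxE ⟨b, hb, le_of_tendsto ((hψb.sub_const a).norm)
            (Eventually.of_forall fun j => (hcκ (ψ j)).le), hbx.le⟩
        filter_upwards [hev] with j hj hxj
        rcases hxj.1.1 with h5 | h5
        · exact hj h5.1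
        · exact hx h5.1
  have hev := gb_meas_lim (As := fun j => (symmDiff (grp (A j) κ a) (csec K₀ a) \
      (gbE K₀ a κ \ csec K₀ a)) ∩ closedBall 0 ρ)
    (fun j => (((grp_meas (A j) κ a).symmDiff hcs).diff ((hEm κ).diff hcs)).inter hBm)
    (fun j => inter_subset_right) hae (half_pos hε)
  filter_upwards [hev] with j hj
  refine ENNReal.toReal_le_of_le_ofReal hε.le ?_
  have hsub : symmDiff (grp (A j) κ a) (csec K₀ a) ∩ closedBall 0 ρ ⊆
      ((symmDiff (grp (A j) κ a) (csec K₀ a) \ (gbE K₀ a κ \ csec K₀ a)) ∩ closedBall 0 ρ) ∪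
        ((gbE K₀ a κ \ csec K₀ a) ∩ closedBall 0 ρ) := by
    intro x hx
    by_cases hxE : x ∈ gbE K₀ a κ \ csec K₀ a
    · exact Or.inr ⟨hxE, hx.2⟩
    · exact Or.inl ⟨⟨hx.1, hxE⟩, hx.2⟩
  calc volume (symmDiff (grp (A j) κ a) (csec K₀ a) ∩ closedBall 0 ρ)
      ≤ _ := measure_mono hsub
    _ ≤ _ := measure_union_le _ _
    _ ≤ ENNReal.ofReal (ε / 2) + ENNReal.ofReal (ε / 2) := add_le_add hj hEκ
    _ = ENNReal.ofReal ε := by
      rw [← ENNReal.ofReal_add (half_pos hε).le (half_pos hε).le, add_halves]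

end Pool.Agent.Lib.MP_43065d_gt
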