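import Pool.Agent.Lib.MP_43065d_gt.Viol
import Pool.Agent.Lib.MP_43065d_gt.DegCfg
import Pool.Agent.Lib.MP_43065d_gt.GrpB

/-!
# Module Dich: a facet is close to a large face of `K₀`, or has a small ratio

PROOF of `viol_volume`.  Suppose not: for every `n` (with `1/(n+1)` in place of `ε` and `η₀`) there are `0 ≤ η n ≤ 1/(n+1)`, `A n` nice, `c n ∈ A n` with the strict
inequality and `vol (P n ∩ sector) < 1/(n+1)`.  `viol` with `κ = 8/9 m + δ > 0` gives a configuration with `T` not injective, and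
`config_degenerate` says `8/9 m + δ ≤ 8/9 m`, a contradiction.
PROOF of `dich`.  `ε`, `η₁` from `viol_volume`.  Let `κ > 0` and suppose there is no `η₀`: for every `n` there are `0 ≤ η n ≤ min η₁ (1/(n+1))`, `A n` nice, `c n ∈ A n` for which both
alternatives fail.  So the strict inequality of `viol_volume` holds and `ε ≤ vol (P n ∩ sector (A n) (c n))`.  `‖c n‖ ≤ 1/r` (`norm_le_of_ball_subset`): a subsequence of `c n` converges to
some `a`; `face_volume_limit` (for the subsequence): `a ∈ osup K₀`, `ε ≤ vol (K₀ ∩ csec K₀ a)`.  But `‖c n - a‖ < κ` for some `n` of the subsequence, which is the first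
alternative.
-/

open MeasureTheory Set Filter Topology Metric
open scoped ENNReal NNReal Pointwise

namespace Pool.Agent.Lib.MP_43065d_gt

theorem viol_volume {K₀ : Set E3} {m : ℝ} (h : IsMin K₀ m) (hm2 : m ≤ 1 / 2) {r R δ : ℝ}
    (hr : 0 < r) (hδ : 0 < δ) : ∃ ε > 0, ∃ η₀ > 0, ∀ η : ℝ, 0 ≤ η → η ≤ η₀ →
      ∀ A : Finset E3, Nice K₀ m r R η A → ∀ c ∈ A,
        (8 / 9 * m + δ) * volume.real (poly A ∩ sector A c) <
          volume.real ((-poly A \ poly A) ∩ sector A c) →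
        ε ≤ volume.real (poly A ∩ sector A c) := by
  by_contra hcon
  push Not at hcon
  have hp : ∀ n : ℕ, (0 : ℝ) < 1 / ((n : ℝ) + 1) := fun n => by positivity
  choose η h0 h1 A hA c hc hv hs using fun n : ℕ =>
    hcon (1 / ((n : ℝ) + 1)) (hp n) (1 / ((n : ℝ) + 1)) (hp n)
  have hη : Tendsto η atTop (𝓝 0) := squeeze_zero h0 h1 tendsto_one_div_add_atTop_nhds_zero_nat
  have hm : 0 < m := h.pos
  obtain ⟨a', T, F, hC, hT⟩ := viol h.body h.zero hr (κ := 8 / 9 * m + δ) (by positivity) h0 hη hA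
    hc hv
  have h3 := config_degenerate h.body h.zero h.pos hm2 hC
    (hT (squeeze_zero (fun _ => measureReal_nonneg) (fun n => (hs n).le)
      tendsto_one_div_add_atTop_nhds_zero_nat))
  linarith

theorem dich {K₀ : Set E3} {m : ℝ} (h : IsMin K₀ m) (hm2 : m ≤ 1 / 2) {r R δ : ℝ}
    (hr : 0 < r) (hδ : 0 < δ) : ∃ ε > 0, ∀ κ > 0, ∃ η₀ > 0, ∀ η : ℝ, 0 ≤ η → η ≤ η₀ →
      ∀ A : Finset E3, Nice K₀ m r R η A → ∀ c ∈ A,
        (∃ a ∈ osup K₀, ε ≤ volume.real (K₀ ∩ csec K₀ a) ∧ ‖c - a‖ < κ) ∨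
          volume.real ((-poly A \ poly A) ∩ sector A c) ≤
            (8 / 9 * m + δ) * volume.real (poly A ∩ sector A c) := by
  obtain ⟨ε, hε, η₁, hη₁, hvv⟩ := viol_volume h hm2 hr (R := R) hδ
  refine ⟨ε, hε, fun κ hκ => ?_⟩
  by_contra hcon
  push Not at hcon
  have hp : ∀ n : ℕ, (0 : ℝ) < min η₁ (1 / ((n : ℝ) + 1)) := fun n => lt_min hη₁ (by positivity)
  choose η h0 h1 A hA c hc hv hs using fun n : ℕ => hcon _ (hp n)
  have hvol : ∀ n, ε ≤ volume.real (poly (A n) ∩ sector (A n) (c n)) := fun n =>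
    hvv (η n) (h0 n) ((h1 n).trans (min_le_left _ _)) (A n) (hA n) (c n) (hc n) (hs n)
  have hη : Tendsto η atTop (𝓝 0) := squeeze_zero h0 (fun n => (h1 n).trans (min_le_right _ _))
    tendsto_one_div_add_atTop_nhds_zero_nat
  have hb : ∀ n, c n ∈ closedBall (0 : E3) (1 / r) := by
    intro n
    rw [mem_closedBall_zero_iff]
    exact norm_le_of_ball_subset hr (hA n).ball (hc n)
  obtain ⟨a, -, φ, hφ, ha⟩ := (isCompact_closedBall (0 : E3) (1 / r)).tendsto_subseq hb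
  have hV : Tendsto (fun j => volume.real (symmDiff (poly (A (φ j))) K₀)) atTop (𝓝 0) :=
    squeeze_zero (fun _ => measureReal_nonneg) (fun n => (hA (φ n)).near)
      (hη.comp hφ.tendsto_atTop)
  obtain ⟨h2, h3⟩ := face_volume_limit h.body h.zero hr (fun j => (hA (φ j)).ball)
    (fun j => (hA (φ j)).bdd) hV (fun j => hc (φ j)) ha (fun j => hvol (φ j))
  have h4 : ∀ᶠ n in atTop, ‖c (φ n) - a‖ < κ :=
    (tendsto_iff_norm_sub_tendsto_zero.1 ha).eventually (gt_mem_nhds hκ)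
  obtain ⟨n, hn⟩ := h4.exists
  exact absurd hn (not_lt.2 (hv (φ n) a h2 h3))

end Pool.Agent.Lib.MP_43065d_gt
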