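import Pool.Agent.Lib.MP_43065d_gt.FaceD

/-!
# Module FV3: first variation of a polytope in three dimensional form

PROOF.  `K = poly A` is a body with `0` in the interior (`poly_body`, `hr`), `c ∈ osup K` by definition.  If `c = 0` the cone `csec K 0 = {gauge ≤ 0}`
is `{0}` (`gauge_pos`), all integrals vanish.  Let `c ≠ 0` and `S` a chart (`exists_chart`).  `z = S (y₀, 1)` for some `y₀` (because `⟪c, z⟫ = 1`:
`z = S p`, `p.2 = ⟪c, S p⟫ = 1`), so `qfun K S y₀ = gauge K (-z) < 1`.  By `first_variation`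
`|I₁ - m/2 I₂| ≤ η/2 I₃` for the three integrals over the facet; by `face_int_sym_inner`, `face_int_inner` and `face_int` with
`φ x = |⟪b, x⟫|` the three integrals of the claim are `jac/4` times `I₁`, `I₂`, `I₃`; `jac > 0` (`jac_spec`).
-/

open MeasureTheory Set Filter Topology Metric
open scoped ENNReal NNReal Pointwise

namespace Pool.Agent.Lib.MP_43065d_gt

theorem fv3 {A : Finset E3} {r R m η : ℝ} (hr : 0 < r) (h1 : closedBall 0 r ⊆ poly A)
    (h2 : poly A ⊆ closedBall 0 R) (hη : 0 ≤ η) {c : E3} (hcA : c ∈ A)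
    (hc : Phi (poly A) 0 = Dmax (poly A)) (hN : NCrit A m η)
    (hz : ∃ z, inner ℝ c z = 1 ∧ gauge (poly A) (-z) < 1) (b : E3) :
    |(2 * ∫ x in poly A ∩ csec (poly A) c ∩ {x | gauge (poly A) (-x) ≤ gauge (poly A) x},
        inner ℝ b x) - m * ∫ x in poly A ∩ csec (poly A) c, inner ℝ b x| ≤
      η * ∫ x in poly A ∩ csec (poly A) c, |inner ℝ b x| := by
  obtain ⟨z, hz1, hz2⟩ := hz
  have hc0 : c ≠ 0 := by
    rintro rfl
    rw [inner_zero_left] at hz1
    exact zero_ne_one hz1
  obtain ⟨S, hS⟩ := exists_chart hc0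
  obtain ⟨hK, h0⟩ := poly_body hr h1 h2
  have ha : c ∈ osup (poly A) := fun x hx => hx c hcA
  have hq : ∃ y, qfun (poly A) S y < 1 := by
    refine ⟨(S.symm z).1, ?_⟩
    have h3 : (S.symm z).2 = 1 := by
      have h4 := hS (S.symm z).1 (S.symm z).2
      rw [Prod.mk.eta, S.apply_symm_apply, hz1] at h4
      exact h4.symm
    have h5 : S ((S.symm z).1, 1) = z := by
      rw [← h3, Prod.mk.eta, S.apply_symm_apply]
    unfold qfun
    rw [h5]
    exact hz2
  have key := first_variation hr h1 h2 hη hcA hS hc hN hq b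
  have hJ : 0 < jac S := (jac_spec S).1
  have hφc : Continuous fun x : E3 => |(inner ℝ b x : ℝ)| :=
    (continuous_const.inner continuous_id).abs
  have e3 := face_int hK h0 ha hS (φ := fun x => |inner ℝ b x|) hφc (fun x => abs_nonneg _)
    (fun t x ht => by simp only [inner_smul_right]; rw [abs_mul, abs_of_nonneg ht])
  rw [face_int_sym_inner hK h0 ha hS b, face_int_inner hK h0 ha hS b, e3]
  set I1 := ∫ y in facet (poly A) S ∩ {y | qfun (poly A) S y ≤ 1}, inner ℝ b (S (y, 1))
  set I2 := ∫ y in facet (poly A) S, inner ℝ b (S (y, 1))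
  set I3 := ∫ y in facet (poly A) S, |inner ℝ b (S (y, 1))|
  have h6 : 2 * (jac S / 4 * I1) - m * (jac S / 4 * I2) = jac S / 2 * (I1 - m / 2 * I2) := by ring
  rw [h6, abs_mul, abs_of_pos (by positivity)]
  calc jac S / 2 * |I1 - m / 2 * I2| ≤ jac S / 2 * (η / 2 * I3) :=
        mul_le_mul_of_nonneg_left key (by positivity)
    _ = η * (jac S / 4 * I3) := by ring

end Pool.Agent.Lib.MP_43065d_gt
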