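import Pool.Agent.Lib.MP_43065d_gt.CsecA

/-!
# Module FaceA: polar coordinates in the cone over a face

`K` a body, `0` interior, `a ∈ osup K`, `S` a chart adapted to `a`, `F = facet K S`.

PROOFS.  `face_convex`, `face_compact`: `F` is the preimage of the compact convex set `K` under the affine map `y ↦ S (y, 1)`, and bounded because
`(y, 1) = S.symm (S (y, 1))` (compare `facet_facts` in Decomp.lean).
`face_gauge`: for `y ∈ F`: `gauge ≤ 1` (`gauge_le_one_of_mem`) and `1 = ⟪a, S (y,1)⟫ ≤ gauge` (`gle`).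
`face_q`: `S (y,1) ≠ 0` because `⟪a, S (y, 1)⟫ = 1`; `gauge_pos` (K bounded); the gauge is continuous.
`csec_iff`: `S (t • y, t) = t • S (y, 1)`, so for `t > 0`: `S (t • y, t) ∈ csec K a ⇔ t gauge K (S (y,1)) ≤ t ⇔ gauge K (S (y,1)) ≤ 1 ⇔ S (y,1) ∈ K`
(`gauge_le_one_iff_mem_closure`, `K` closed convex neighbourhood of `0`).
`csec_polar`: a point `x ∈ csec K a` with `⟪a, x⟫ ≤ 0` has gauge `0`, so `x = 0` (a null set); so `∫⁻_{csec} f = ∫⁻_{0 < ⟪a,x⟫} 1_{csec} f`, and
`chart_polar` applies to `(csec K a).indicator f` (measurable, `csec_closed`); the inner integral is `0` if `y ∉ F` and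
`∫⁻ t in Ioi 0, ofReal (t^2) * f (S (t • y, t))` if `y ∈ F`, by `csec_iff`; then `lintegral_indicator`.
-/

open MeasureTheory Set Filter Topology Metric
open scoped ENNReal NNReal Pointwise

namespace Pool.Agent.Lib.MP_43065d_gt

variable {K : Set E3} {a : E3} {S : (E2 × ℝ) ≃L[ℝ] E3}

private theorem fa_smul (y : E2) (t : ℝ) : S (t • y, t) = t • S (y, 1) := by
  rw [← map_smul]
  congr 1
  ext1
  · rfl
  · show t = t * 1
    ring

private theorem fa_pos (hK : IsBody K) (h0 : (0 : E3) ∈ interior K) {x : E3} (hx : x ≠ 0) :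
    0 < gauge K x :=
  (gauge_pos (absorbent_nhds_zero (mem_interior_iff_mem_nhds.1 h0))
    ((NormedSpace.isVonNBounded_iff ℝ).2 hK.isCompact.isBounded)).2 hx

theorem face_convex (hK : IsBody K) : Convex ℝ (facet K S) := by
  intro y hy z hz s t hs ht hst
  show S (s • y + t • z, 1) ∈ K
  have h : S (s • y + t • z, 1) = s • S (y, 1) + t • S (z, 1) := by
    rw [← map_smul, ← map_smul, ← map_add]
    congr 1
    ext1
    · rfl
    · show (1 : ℝ) = s * 1 + t * 1
      linarith
  rw [h]
  exact hK.convex hy hz hs ht hst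

theorem face_compact (hK : IsBody K) : IsCompact (facet K S) := by
  refine (hK.isCompact.image (continuous_fst.comp S.symm.continuous)).of_isClosed_subset ?_ ?_
  · exact hK.isCompact.isClosed.preimage (show Continuous fun y : E2 => S (y, 1) by fun_prop)
  · intro y hy
    refine ⟨S (y, 1), hy, ?_⟩
    show (S.symm (S (y, 1))).1 = y
    rw [ContinuousLinearEquiv.symm_apply_apply]

theorem face_gauge (h0 : K ∈ 𝓝 (0 : E3)) (ha : a ∈ osup K) (hS : IsChart a S) {y : E2}
    (hy : y ∈ facet K S) : gauge K (S (y, 1)) = 1 := by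
  refine le_antisymm (gauge_le_one_of_mem hy) ?_
  have h := gle h0 ha (S (y, 1))
  rwa [hS y 1] at h

private theorem fa_ne (hS : IsChart a S) (y : E2) : S (y, 1) ≠ 0 := by
  intro h
  have h1 := hS y 1
  rw [h, inner_zero_right] at h1
  exact zero_ne_one h1

theorem face_q (hK : IsBody K) (h0 : (0 : E3) ∈ interior K) (hS : IsChart a S) :
    Continuous (qfun K S) ∧ ∀ y, 0 < qfun K S y := by
  constructor
  · show Continuous fun y => gauge K (-S (y, 1))
    exact (continuous_gauge hK.convex (mem_interior_iff_mem_nhds.1 h0)).comp (by fun_prop)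
  · intro y
    exact fa_pos hK h0 (neg_ne_zero.2 (fa_ne hS y))

theorem csec_iff (hK : IsBody K) (h0 : (0 : E3) ∈ interior K) (hS : IsChart a S)
    (y : E2) {t : ℝ} (ht : 0 < t) : S (t • y, t) ∈ csec K a ↔ y ∈ facet K S := by
  have h := gauge_le_one_iff_mem_closure hK.convex (mem_interior_iff_mem_nhds.1 h0)
    (x := S (y, 1))
  rw [hK.isCompact.isClosed.closure_eq] at h
  show gauge K (S (t • y, t)) ≤ inner ℝ a (S (t • y, t)) ↔ S (y, 1) ∈ K
  rw [← h, hS, fa_smul, gauge_smul_of_nonneg ht.le, smul_eq_mul]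
  constructor
  · intro h2
    have h3 : t * gauge K (S (y, 1)) ≤ t * 1 := by linarith
    exact le_of_mul_le_mul_left h3 ht
  · intro h2
    have h3 := mul_le_mul_of_nonneg_left h2 ht.le
    linarith

theorem csec_polar (hK : IsBody K) (h0 : (0 : E3) ∈ interior K)
    (hS : IsChart a S) {f : E3 → ℝ≥0∞} (hf : Measurable f) :
    ∫⁻ x in csec K a, f x = ENNReal.ofReal (jac S) *
      ∫⁻ y in facet K S, ∫⁻ t in Ioi (0 : ℝ), ENNReal.ofReal (t ^ 2) * f (S (t • y, t)) := by
  have hm : MeasurableSet (csec K a) :=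
    (csec_closed hK.convex (mem_interior_iff_mem_nhds.1 h0) a).measurableSet
  have h1 := chart_polar hS (hf.indicator hm)
  have h2 : ∫⁻ x in {x | 0 < inner ℝ a x}, (csec K a).indicator f x = ∫⁻ x in csec K a, f x := by
    rw [lintegral_indicator hm, Measure.restrict_restrict hm]
    refine setLIntegral_congr ?_
    have h3 : csec K a ⊆ (csec K a ∩ {x : E3 | 0 < inner ℝ a x}) ∪ {0} := by
      intro x hx
      rcases lt_or_ge 0 (inner ℝ a x : ℝ) with h | h
      · exact Or.inl ⟨hx, h⟩
      · refine Or.inr ?_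
        by_contra hne
        have h4 := fa_pos hK h0 (x := x) hne
        have h5 : gauge K x ≤ inner ℝ a x := hx
        linarith
    refine Filter.EventuallyLE.antisymm (Eventually.of_forall fun x hx => hx.1) ?_
    rw [ae_le_set]
    refine measure_mono_null (t := {(0 : E3)}) ?_ (by simp)
    rintro x ⟨hx, hx'⟩
    rcases h3 hx with h | h
    · exact absurd h hx'
    · exact h
  have h4 : ∀ y : E2, ∫⁻ t in Ioi (0 : ℝ), ENNReal.ofReal (t ^ 2) *
      (csec K a).indicator f (S (t • y, t)) =
        (facet K S).indicator (fun y => ∫⁻ t in Ioi (0 : ℝ),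
          ENNReal.ofReal (t ^ 2) * f (S (t • y, t))) y := by
    intro y
    by_cases hy : y ∈ facet K S
    · rw [indicator_of_mem hy]
      refine setLIntegral_congr_fun measurableSet_Ioi fun t ht => ?_
      show ENNReal.ofReal (t ^ 2) * (csec K a).indicator f (S (t • y, t)) =
        ENNReal.ofReal (t ^ 2) * f (S (t • y, t))
      rw [indicator_of_mem ((csec_iff hK h0 hS y ht).2 hy)]
    · rw [indicator_of_notMem hy]
      have h6 : ∀ t ∈ Ioi (0 : ℝ), ENNReal.ofReal (t ^ 2) *
          (csec K a).indicator f (S (t • y, t)) = (fun _ => (0 : ℝ≥0∞)) t := by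
        intro t ht
        rw [indicator_of_notMem (fun h => hy ((csec_iff hK h0 hS y ht).1 h)), mul_zero]
      rw [setLIntegral_congr_fun measurableSet_Ioi h6]
      simp
  rw [← h2, h1]
  simp_rw [h4]
  rw [lintegral_indicator (face_compact hK).measurableSet]

end Pool.Agent.Lib.MP_43065d_gt
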