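import Pool.Agent.Lib.MP_43065d_gt.FaceA

/-!
# Module FaceB: volumes in the cone over a face

`K` a body, `0` interior, `a ∈ osup K`, `S` a chart adapted to `a`, `F = facet K S`, `q = qfun K S`.

PROOFS.  Always `csec_polar`; on the cone, for `y ∈ F` and `t > 0`: `S (t • y, t) = t • S (y, 1)`, `gauge K = t` (`face_gauge`), so it is in `K` iff
`t ≤ 1`; `gauge K (-S (t • y, t)) = t * q y`, so it is in `-K` iff `t * q y ≤ 1` (`K` closed: `gauge_le_one_iff_mem_closure`).
`face_vol`: `f = K.indicator 1`: `∫⁻_{0<t≤1} ofReal (t²) = 1/3`.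
`face_diff`: `f = (-K \ K).indicator 1`: the inner integral is `∫⁻_{1 < t ≤ 1/q} t² = (q⁻¹^3 - 1)⁺/3` (as in `sector_chart` and its private lemma `dkey` of Decomp.lean, with
`q` continuous and positive on the compact set `F`; then `Qint` is finite and `ofReal_integral_eq_lintegral_ofReal`).  The proofs of Decomp.lean can be copied with `K` in place of `poly A`
and `csec K a` in place of `sector A a`.
-/

open MeasureTheory Set Filter Topology Metric
open scoped ENNReal NNReal Pointwise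

namespace Pool.Agent.Lib.MP_43065d_gt

variable {K : Set E3} {a : E3} {S : (E2 × ℝ) ≃L[ℝ] E3}

private theorem fdint {α : ℝ} (hα : 0 ≤ α) (β : ℝ) :
    ∫⁻ t in Ioi (0 : ℝ), ENNReal.ofReal (t ^ 2) * (Ioc α β).indicator 1 t =
      ENNReal.ofReal (max (β ^ 3 - α ^ 3) 0 / 3) := by
  have h1 : ∫⁻ t in Ioi (0 : ℝ), ENNReal.ofReal (t ^ 2) * (Ioc α β).indicator 1 t =
      ∫⁻ t in Ioc α β, ENNReal.ofReal (t ^ 2) := by
    have h2 : ∀ t : ℝ, ENNReal.ofReal (t ^ 2) * (Ioc α β).indicator (1 : ℝ → ℝ≥0∞) t =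
        (Ioc α β).indicator (fun t => ENNReal.ofReal (t ^ 2)) t := by
      intro t
      by_cases ht : t ∈ Ioc α β
      · rw [indicator_of_mem ht, indicator_of_mem ht]; simp
      · rw [indicator_of_notMem ht, indicator_of_notMem ht]; simp
    simp_rw [h2]
    rw [lintegral_indicator measurableSet_Ioc, Measure.restrict_restrict measurableSet_Ioc]
    congr 2
    refine inter_eq_self_of_subset_left ?_
    intro t ht
    exact lt_of_le_of_lt hα ht.1
  rw [h1]
  rcases le_total α β with hab | hab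
  · rw [← ofReal_integral_eq_lintegral_ofReal]
    · congr 1
      rw [← intervalIntegral.integral_of_le hab, integral_pow]
      have : α ^ 3 ≤ β ^ 3 := pow_le_pow_left₀ hα hab 3
      rw [max_eq_left (by linarith)]
      norm_num
    · exact ((continuous_pow 2).integrableOn_Icc).mono_set Ioc_subset_Icc_self
    · exact Eventually.of_forall fun t => sq_nonneg t
  · rw [Ioc_eq_empty (not_lt.2 hab)]
    have h3 : max (β ^ 3 - α ^ 3) 0 = 0 := by
      refine max_eq_right ?_
      have : β ^ 3 ≤ α ^ 3 := by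
        rcases le_or_gt 0 β with hβ | hβ
        · exact pow_le_pow_left₀ hβ hab 3
        · have h4 : β ^ 3 ≤ 0 := by
            have : β ^ 3 = β * β ^ 2 := by ring
            rw [this]
            exact mul_nonpos_of_nonpos_of_nonneg hβ.le (sq_nonneg β)
          have h5 : 0 ≤ α ^ 3 := by positivity
          linarith
      linarith
    rw [h3]
    simp

private theorem fdkey {a : E3} {S : (E2 × ℝ) ≃L[ℝ] E3} (hS : IsChart a S) {B : Set E3}
    (hB : MeasurableSet B) (hB0 : ∀ x ∈ B, inner ℝ a x ≤ 0 → x = 0) {F : Set E2}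
    (hF : IsCompact F) {α : ℝ} (hα : 0 ≤ α) {β : E2 → ℝ} (hβ : ContinuousOn β F)
    (hiff : ∀ (y : E2) (t : ℝ), 0 < t → (S (t • y, t) ∈ B ↔ y ∈ F ∧ t ∈ Ioc α (β y))) :
    volume.real B = jac S / 3 * ∫ y in F, max (β y ^ 3 - α ^ 3) 0 := by
  have hJ := (jac_spec S).1
  have h1 := chart_polar hS (f := B.indicator 1) (measurable_one.indicator hB)
  have h2 : ∫⁻ x in {x | 0 < inner ℝ a x}, B.indicator (1 : E3 → ℝ≥0∞) x = volume B := by
    have hm : MeasurableSet {x : E3 | 0 < inner ℝ a x} :=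
      (isOpen_lt continuous_const (by fun_prop)).measurableSet
    rw [lintegral_indicator_one hB, Measure.restrict_apply hB]
    refine le_antisymm (measure_mono inter_subset_left) ?_
    have h3 : B ⊆ (B ∩ {x : E3 | 0 < inner ℝ a x}) ∪ {0} := by
      intro x hx
      rcases lt_or_ge 0 (inner ℝ a x : ℝ) with h | h
      · exact Or.inl ⟨hx, h⟩
      · exact Or.inr (hB0 x hx h)
    calc volume B ≤ volume ((B ∩ {x : E3 | 0 < inner ℝ a x}) ∪ {0}) := measure_mono h3
      _ ≤ volume (B ∩ {x : E3 | 0 < inner ℝ a x}) + volume {(0 : E3)} := measure_union_le _ _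
      _ = volume (B ∩ {x : E3 | 0 < inner ℝ a x}) := by simp
  have h4 : ∀ y : E2, ∫⁻ t in Ioi (0 : ℝ), ENNReal.ofReal (t ^ 2) *
      B.indicator (1 : E3 → ℝ≥0∞) (S (t • y, t)) =
        F.indicator (fun y => ENNReal.ofReal (max (β y ^ 3 - α ^ 3) 0 / 3)) y := by
    intro y
    by_cases hy : y ∈ F
    · rw [indicator_of_mem hy, ← fdint hα (β y)]
      refine setLIntegral_congr_fun measurableSet_Ioi fun t ht => ?_
      have h5 := hiff y t ht
      show ENNReal.ofReal (t ^ 2) * B.indicator (1 : E3 → ℝ≥0∞) (S (t • y, t)) =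
        ENNReal.ofReal (t ^ 2) * (Ioc α (β y)).indicator 1 t
      congr 1
      by_cases ht2 : t ∈ Ioc α (β y)
      · rw [indicator_of_mem ht2, indicator_of_mem (h5.2 ⟨hy, ht2⟩)]; simp
      · rw [indicator_of_notMem ht2, indicator_of_notMem (fun h => ht2 (h5.1 h).2)]
    · rw [indicator_of_notMem hy]
      have h6 : ∀ t ∈ Ioi (0 : ℝ), ENNReal.ofReal (t ^ 2) *
          B.indicator (1 : E3 → ℝ≥0∞) (S (t • y, t)) = (fun _ => (0 : ℝ≥0∞)) t := by
        intro t ht
        rw [indicator_of_notMem (fun h => hy ((hiff y t ht).1 h).1)]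
        simp
      rw [setLIntegral_congr_fun measurableSet_Ioi h6]
      simp
  rw [h2] at h1
  simp_rw [h4] at h1
  rw [lintegral_indicator hF.measurableSet] at h1
  have hcont : ContinuousOn (fun y => max (β y ^ 3 - α ^ 3) 0) F :=
    ((hβ.pow 3).sub continuousOn_const).sup continuousOn_const
  have hint : IntegrableOn (fun y => max (β y ^ 3 - α ^ 3) 0) F volume :=
    hcont.integrableOn_compact hF
  rw [← ofReal_integral_eq_lintegral_ofReal (hint.div_const 3)
    (Eventually.of_forall fun y => div_nonneg (le_max_right _ _) (by norm_num)),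
    ← ENNReal.ofReal_mul hJ.le] at h1
  rw [measureReal_def, h1, ENNReal.toReal_ofReal]
  · rw [integral_div]
    ring
  · refine mul_nonneg hJ.le (integral_nonneg fun y => ?_)
    exact div_nonneg (le_max_right _ _) (by norm_num)

private theorem fdsmul {S : (E2 × ℝ) ≃L[ℝ] E3} (y : E2) (t : ℝ) :
    S (t • y, t) = t • S (y, 1) := by
  rw [← map_smul]
  congr 1
  ext1
  · rfl
  · show t = t * 1
    ring

private theorem fd_nhds (h0 : (0 : E3) ∈ interior K) : K ∈ 𝓝 (0 : E3) :=
  mem_interior_iff_mem_nhds.1 h0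

private theorem fd_csec_zero (hK : IsBody K) (h0 : (0 : E3) ∈ interior K) {x : E3}
    (hx : x ∈ csec K a) (h : inner ℝ a x ≤ (0 : ℝ)) : x = 0 := by
  by_contra hne
  have h1 : 0 < gauge K x :=
    (gauge_pos (absorbent_nhds_zero (fd_nhds h0))
      (NormedSpace.isVonNBounded_iff ℝ |>.2 hK.isCompact.isBounded)).2 hne
  have h2 : gauge K x ≤ inner ℝ a x := hx
  linarith

private theorem fd_in_iff (hK : IsBody K) (h0 : (0 : E3) ∈ interior K) (ha : a ∈ osup K)
    (hS : IsChart a S) {y : E2} (hy : y ∈ facet K S) {t : ℝ} (ht : 0 < t) :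
    S (t • y, t) ∈ K ↔ t ≤ 1 := by
  have h := gauge_le_one_iff_mem_closure hK.convex (fd_nhds h0) (x := t • S (y, 1))
  rw [hK.isCompact.isClosed.closure_eq, gauge_smul_of_nonneg ht.le, smul_eq_mul,
    face_gauge (fd_nhds h0) ha hS hy, mul_one] at h
  rw [fdsmul]
  exact h.symm

private theorem fd_neg_iff (hK : IsBody K) (h0 : (0 : E3) ∈ interior K)
    {y : E2} {t : ℝ} (ht : 0 < t) (hq : 0 < qfun K S y) :
    S (t • y, t) ∈ -K ↔ t ≤ (qfun K S y)⁻¹ := by
  rw [fdsmul, Set.mem_neg, ← smul_neg]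
  have h := gauge_le_one_iff_mem_closure hK.convex (fd_nhds h0) (x := t • -S (y, 1))
  rw [hK.isCompact.isClosed.closure_eq, gauge_smul_of_nonneg ht.le, smul_eq_mul] at h
  rw [← h, le_inv_comm₀ ht hq]
  show t * gauge K (-S (y, 1)) ≤ 1 ↔ gauge K (-S (y, 1)) ≤ t⁻¹
  rw [← one_div, le_div_iff₀ ht, mul_comm]

theorem face_vol (hK : IsBody K) (h0 : (0 : E3) ∈ interior K) (ha : a ∈ osup K)
    (hS : IsChart a S) :
    volume.real (K ∩ csec K a) = jac S / 3 * volume.real (facet K S) := by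
  have hm := hK.isCompact.isClosed.measurableSet
  have hsm := (csec_closed hK.convex (fd_nhds h0) a).measurableSet
  have h := fdkey hS (B := K ∩ csec K a) (hm.inter hsm)
    (fun x hx hle => fd_csec_zero hK h0 hx.2 hle) (face_compact hK) (le_refl (0 : ℝ))
    (β := fun _ => 1) continuousOn_const (by
      intro y t ht
      rw [mem_inter_iff, csec_iff hK h0 hS y ht]
      constructor
      · rintro ⟨h3, h4⟩
        exact ⟨h4, ht, (fd_in_iff hK h0 ha hS h4 ht).1 h3⟩
      · rintro ⟨h4, _, h3⟩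
        exact ⟨(fd_in_iff hK h0 ha hS h4 ht).2 h3, h4⟩)
  rw [h]
  congr 1
  norm_num

theorem face_diff (hK : IsBody K) (h0 : (0 : E3) ∈ interior K) (ha : a ∈ osup K)
    (hS : IsChart a S) :
    volume.real ((-K \ K) ∩ csec K a) = jac S / 3 * Qint (facet K S) (qfun K S) := by
  have hm := hK.isCompact.isClosed.measurableSet
  have hsm := (csec_closed hK.convex (fd_nhds h0) a).measurableSet
  obtain ⟨hqc, hq⟩ := face_q hK h0 hS
  have h := fdkey hS (B := (-K \ K) ∩ csec K a) ((hm.neg.diff hm).inter hsm)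
    (fun x hx hle => fd_csec_zero hK h0 hx.2 hle) (face_compact hK) (zero_le_one (α := ℝ))
    (β := fun y => (qfun K S y)⁻¹)
    (hqc.continuousOn.inv₀ fun y _ => (hq y).ne') (by
      intro y t ht
      rw [mem_inter_iff, csec_iff hK h0 hS y ht, Set.mem_sdiff]
      constructor
      · rintro ⟨⟨h3, h4⟩, h5⟩
        refine ⟨h5, ?_, (fd_neg_iff hK h0 ht (hq y)).1 h3⟩
        by_contra h6
        exact h4 ((fd_in_iff hK h0 ha hS h5 ht).2 (not_lt.1 h6))
      · rintro ⟨h5, h4, h3⟩
        refine ⟨⟨(fd_neg_iff hK h0 ht (hq y)).2 h3, ?_⟩, h5⟩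
        intro h6
        exact absurd ((fd_in_iff hK h0 ha hS h5 ht).1 h6) (not_le.2 h4))
  rw [h, Qint]
  norm_num

end Pool.Agent.Lib.MP_43065d_gt
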