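import Pool.Agent.Lib.MP_43065d_gt.VarLim
import Pool.Agent.Lib.MP_43065d_gt.Unique
import Pool.Agent.Lib.MP_43065d_gt.Center

/-!
# Module Var: the first order conditions at an approximately critical polytope

`P = poly A`, `F = facet P S`, `q = qfun P S`, `G = F ∩ {q ≤ 1}`, `ℓ y = ⟪b, S (y, 1)⟫`, `J = jac S`.

PROOF.  It is enough to prove `2 ∫_G ℓ ≤ m ∫_F ℓ + η ∫_F |ℓ|` for every `b` (use it for `b` and `-b`).  Let `ε > 0` be small,
`P_ε = polyR A a (a + ε • b)`.
(1) `P_ε` is a body between `closedBall 0 (r/2)` and `closedBall 0 (2R)`, and for every `δ > 0`,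
`(1 - δ) • P ⊆ P_ε ⊆ (1 + δ) • P` for small `ε`: for `x ∈ (1 - δ) • P`, `⟪a + ε b, x⟫ ≤ 1 - δ + ε ‖b‖ R ≤ 1`; for
`x ∈ P_ε` let `M = gauge P x = max_c ⟪c, x⟫` (`poly_gauge`), if `M > 1` the maximum is attained by `a`, and
`M = ⟪a, x⟫ ≤ 1 + ε ‖b‖ ‖x‖ ≤ 1 + ε ‖b‖ R M`, so `M ≤ (1 - ε ‖b‖ R)⁻¹`.
In particular `vol (P ∆ P_ε) → 0`.
(2) Let `z ε` be a maximiser of `Phi P_ε` (`exists_Phi_eq_Dmax`; any choice for large `ε`).  Then `z ε → 0` as `ε → 0+`: as in
`center_close` (module Center; here it can be repeated or imported): `Phi P (z ε) ≥ Phi P_ε (z ε) - 2 vol (P ∆ P_ε) =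
Dmax P_ε - … ≥ Dmax P - 4 vol (P ∆ P_ε)`, and `0` is the only maximiser of the continuous function `Phi P` (`center_unique`),
which vanishes outside the compact set `P`.
(3) `NCrit` with `a' = a + ε • b`:
`Phi P (z ε) - Phi P_ε (z ε) ≤ Dmax P - Dmax P_ε ≤ m (vol P - vol P_ε) + η vol (P ∆ P_ε)`.
(4) `Phi P z - Phi P_ε z = ∫ (1_P - 1_{P_ε})(x) (1_P (2z - x) + 1_{P_ε} (2z - x)) dx` (write
`1_P(x) 1_P(2z-x) - 1_{P_ε}(x) 1_{P_ε}(2z-x) = (1_P - 1_{P_ε})(x) 1_P(2z-x) + 1_{P_ε}(x) (1_P - 1_{P_ε})(2z-x)` and substitute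
`x ↦ 2z - x` in the second term).
(5) Divide (3) by `ε` and let `ε → 0+`, using `var_lim` four times:
 - `w_ε x = 1_P (2 z ε - x)` and `w_ε x = 1_{P_ε} (2 z ε - x)`, `w0 = 1_{q ≤ 1}`: for `y` with `q y ≠ 1`, as `(ε, t) → (0+, 1)`
   `2 z ε - S (t • y, t) → -S (y, 1)`, which is in the interior of `P` if `q y < 1` and in the complement of `P` if `q y > 1`; by (1)
   the same for `P_ε` (`gauge P` is continuous).  `{y | q y = 1}` is null because `q` is convex and takes a value `< 1`: it is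
   contained in the frontier of the convex set `{q ≤ 1}` (`Convex.addHaar_frontier`).
   Both limits are `J ∫_F ℓ 1_{q ≤ 1} = J ∫_G ℓ`.
 - `w = 1`: `(vol P - vol P_ε)/ε → J ∫_F ℓ`.
 - `w_ε x = sign ⟪b, x⟫`, `w0 y = sign (ℓ y)`: `(1_P - 1_{P_ε}) sign ⟪b, ·⟫ = |1_P - 1_{P_ε}|` (if `x ∈ P \ P_ε` then `⟪a + εb, x⟫ > 1 ≥ ⟪a, x⟫`
   so `⟪b, x⟫ > 0`; if `x ∈ P_ε \ P` then `⟪a, x⟫ > 1 ≥ ⟪a + ε b, x⟫`, so `⟪b, x⟫ < 0`); `hlim` holds where `ℓ y ≠ 0`, i.e. a.e. if `b ≠ 0`
   (if `b = 0` the claim is trivial; `{ℓ = 0}` is a proper affine subspace or all of `E2`; the latter only if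
   `⟪b, S (y,1)⟫ = 0` for all `y`, then `⟪b, S (y, t)⟫ = 0` for all `t`, `b = 0`).  So `vol (P ∆ P_ε)/ε → J ∫_F |ℓ|`.
Dividing by `J > 0` gives the claim.
-/

open MeasureTheory Set Filter Topology Metric
open scoped ENNReal NNReal Pointwise

namespace Pool.Agent.Lib.MP_43065d_gt

/-! ### level sets of convex functions -/

private theorem var_level_null (f : E2 → ℝ) (hf : ConvexOn ℝ univ f) (c : ℝ)
    (h : ∃ y, f y < c) : volume {y : E2 | f y = c} = 0 := by
  obtain ⟨y0, hy0⟩ := h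
  have hconv : Convex ℝ {y : E2 | f y ≤ c} := by
    have := hf.convex_le c
    simpa using this
  refine measure_mono_null ?_ (hconv.addHaar_frontier volume)
  intro y hy
  have hyc : f y = c := hy
  refine ⟨subset_closure (show f y ≤ c from hyc.le), ?_⟩
  intro hint
  rw [mem_interior_iff_mem_nhds] at hint
  have hcont : Tendsto (fun t : ℝ => y + t • (y - y0)) (𝓝[>] 0) (𝓝 y) := by
    have h2 : Tendsto (fun t : ℝ => y + t • (y - y0)) (𝓝 0) (𝓝 (y + (0 : ℝ) • (y - y0))) :=
      (continuous_const.add (continuous_id.smul continuous_const)).tendsto 0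
    rw [zero_smul, add_zero] at h2
    exact h2.mono_left nhdsWithin_le_nhds
  obtain ⟨t, ht1, ht0⟩ := ((hcont.eventually hint).and self_mem_nhdsWithin).exists
  have ht : 0 < t := ht0
  have ht1' : f (y + t • (y - y0)) ≤ c := ht1
  have h1t : 0 < 1 + t := by linarith
  have h3 := hf.2 (mem_univ (y + t • (y - y0))) (mem_univ y0)
    (show (0 : ℝ) ≤ 1 / (1 + t) by positivity) (show (0 : ℝ) ≤ t / (1 + t) by positivity)
    (by field_simp)
  have e : (1 / (1 + t)) • (y + t • (y - y0)) + (t / (1 + t)) • y0 = y := by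
    have e1 : (1 / (1 + t)) • (y + t • (y - y0)) + (t / (1 + t)) • y0 =
        (1 / (1 + t) + 1 / (1 + t) * t) • y + (t / (1 + t) - 1 / (1 + t) * t) • y0 := by
      module
    have e2 : 1 / (1 + t) + 1 / (1 + t) * t = 1 := by field_simp
    have e3 : t / (1 + t) - 1 / (1 + t) * t = 0 := by ring
    rw [e1, e2, e3, one_smul, zero_smul, add_zero]
  rw [e, hyc, smul_eq_mul, smul_eq_mul] at h3
  have h4 : 1 / (1 + t) * f (y + t • (y - y0)) ≤ 1 / (1 + t) * c :=
    mul_le_mul_of_nonneg_left ht1' (by positivity)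
  have h5 : t / (1 + t) * f y0 < t / (1 + t) * c := mul_lt_mul_of_pos_left hy0 (by positivity)
  have h6 : 1 / (1 + t) * c + t / (1 + t) * c = c := by field_simp
  linarith

private theorem var_q_convex {P : Set E3} (hP : Convex ℝ P) (h0 : (0 : E3) ∈ interior P)
    (S : (E2 × ℝ) →L[ℝ] E3) : ConvexOn ℝ univ (qfun P S) := by
  have habs : Absorbent ℝ P := absorbent_nhds_zero (mem_interior_iff_mem_nhds.1 h0)
  refine ⟨convex_univ, fun y _ y' _ a b ha hb hab => ?_⟩
  have e : -S (a • y + b • y', 1) = a • (-S (y, 1)) + b • (-S (y', 1)) := by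
    have h1 : (a • y + b • y', (1 : ℝ)) = a • (y, (1 : ℝ)) + b • (y', (1 : ℝ)) := by
      refine Prod.ext rfl ?_
      change (1 : ℝ) = a * 1 + b * 1
      rw [mul_one, mul_one, hab]
    rw [h1, map_add, map_smul, map_smul, smul_neg, smul_neg, neg_add]
  unfold qfun
  rw [e]
  refine (gauge_add_le hP habs _ _).trans ?_
  rw [gauge_smul_of_nonneg ha, gauge_smul_of_nonneg hb]

theorem q_level_null {P : Set E3} (hP : IsBody P) (h0 : (0 : E3) ∈ interior P)
    (S : (E2 × ℝ) →L[ℝ] E3) (hq : ∃ y, qfun P S y < 1) :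
    volume {y : E2 | qfun P S y = 1} = 0 :=
  var_level_null _ (var_q_convex hP.convex h0 S) 1 hq

/-! ### the moved polytope -/

private theorem var_R_pos {A : Finset E3} {r R : ℝ} (hr : 0 < r) (h1 : closedBall 0 r ⊆ poly A)
    (h2 : poly A ⊆ closedBall 0 R) : 0 < R := by
  have h3 : EuclideanSpace.single (0 : Fin 3) r ∈ closedBall (0 : E3) R := by
    refine h2 (h1 ?_)
    rw [mem_closedBall_zero_iff, PiLp.norm_single, Real.norm_of_nonneg hr.le]
  rw [mem_closedBall_zero_iff, PiLp.norm_single, Real.norm_of_nonneg hr.le] at h3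
  linarith

private theorem var_mem_iff {A : Finset E3} {r : ℝ} (hr : 0 < r) (h1 : closedBall 0 r ⊆ poly A)
    (x : E3) : x ∈ poly A ↔ gauge (poly A) x ≤ 1 := (poly_gauge hr h1 zero_le_one x).symm

private theorem var_norm_le {A : Finset E3} {r R : ℝ} (hr : 0 < r) (h1 : closedBall 0 r ⊆ poly A)
    (h2 : poly A ⊆ closedBall 0 R) (x : E3) : ‖x‖ ≤ R * gauge (poly A) x := by
  have hR := var_R_pos hr h1 h2
  have h3 := (poly_body hr h1 h2).2
  have h4 := le_gauge_of_subset_closedBall (x := x)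
    (absorbent_nhds_zero (mem_interior_iff_mem_nhds.1 h3)) hR.le h2
  rw [div_le_iff₀ hR] at h4
  linarith

private theorem var_inner_le (b x : E3) : |inner ℝ b x| ≤ ‖b‖ * ‖x‖ := abs_real_inner_le_norm b x

private theorem var_mem_polyR {A : Finset E3} {r R : ℝ} (hr : 0 < r)
    (h1 : closedBall 0 r ⊆ poly A) (h2 : poly A ⊆ closedBall 0 R) {a : E3} (ha : a ∈ A) (b : E3)
    {ε : ℝ} (hε : 0 ≤ ε) {x : E3} (hx : gauge (poly A) x ≤ 1 - ε * ‖b‖ * R) :
    x ∈ polyR A a (a + ε • b) := by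
  have hR := var_R_pos hr h1 h2
  have hg0 : 0 ≤ gauge (poly A) x := gauge_nonneg x
  have hc0 : 0 ≤ ε * ‖b‖ * R := by positivity
  have h3 := (poly_gauge hr h1 (hg0.trans hx) x).1 hx
  refine ⟨fun c hc _ => (h3 c hc).trans (by linarith), ?_⟩
  rw [inner_add_left, real_inner_smul_left]
  have h4 := var_norm_le hr h1 h2 x
  have h5 : inner ℝ b x ≤ ‖b‖ * R := by
    calc inner ℝ b x ≤ |inner ℝ b x| := le_abs_self _
      _ ≤ ‖b‖ * ‖x‖ := var_inner_le b x
      _ ≤ ‖b‖ * R := by
          refine mul_le_mul_of_nonneg_left ?_ (norm_nonneg _)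
          calc ‖x‖ ≤ R * gauge (poly A) x := h4
            _ ≤ R * 1 := mul_le_mul_of_nonneg_left (by linarith) hR.le
            _ = R := mul_one R
  have h6 : ε * inner ℝ b x ≤ ε * (‖b‖ * R) := mul_le_mul_of_nonneg_left h5 hε
  have h7 := h3 a ha
  nlinarith

private theorem var_gauge_polyR {A : Finset E3} {r R : ℝ} (hr : 0 < r)
    (h1 : closedBall 0 r ⊆ poly A) (h2 : poly A ⊆ closedBall 0 R) {a : E3} (b : E3)
    {ε : ℝ} (hε : 0 ≤ ε) (hc : ε * ‖b‖ * R < 1) {x : E3}
    (hx : x ∈ polyR A a (a + ε • b)) : gauge (poly A) x ≤ (1 - ε * ‖b‖ * R)⁻¹ := by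
  have hR := var_R_pos hr h1 h2
  have hg0 : 0 ≤ gauge (poly A) x := gauge_nonneg x
  have hc0 : 0 ≤ ε * ‖b‖ * R := by positivity
  obtain ⟨hx1, hx2⟩ := hx
  rw [inner_add_left, real_inner_smul_left] at hx2
  have h4 := var_norm_le hr h1 h2 x
  have h5 : -(‖b‖ * (R * gauge (poly A) x)) ≤ inner ℝ b x := by
    have h6 := (abs_le.1 (var_inner_le b x)).1
    have h7 : ‖b‖ * ‖x‖ ≤ ‖b‖ * (R * gauge (poly A) x) :=
      mul_le_mul_of_nonneg_left h4 (norm_nonneg _)
    linarith
  have h8 : inner ℝ a x ≤ 1 + ε * ‖b‖ * R * gauge (poly A) x := by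
    have h9 := mul_le_mul_of_nonneg_left h5 hε
    nlinarith
  have h10 : gauge (poly A) x ≤ 1 + ε * ‖b‖ * R * gauge (poly A) x := by
    refine (poly_gauge hr h1 (by positivity) x).2 fun c hcA => ?_
    by_cases hca : c = a
    · rw [hca]; exact h8
    · exact (hx1 c hcA hca).trans (by
        have : 0 ≤ ε * ‖b‖ * R * gauge (poly A) x := by positivity
        linarith)
  rw [← one_div, le_div_iff₀ (by linarith)]
  nlinarith

private theorem var_polyR_closed (A : Finset E3) (a a' : E3) : IsClosed (polyR A a a') := by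
  have h : polyR A a a' = (⋂ c : E3, {x | c ∈ A → c ≠ a → inner ℝ c x ≤ 1}) ∩
      {x | inner ℝ a' x ≤ 1} := by
    ext x
    simp [polyR]
  rw [h]
  refine IsClosed.inter (isClosed_iInter fun c => ?_)
    (isClosed_le (continuous_const.inner continuous_id) continuous_const)
  by_cases hc : c ∈ A ∧ c ≠ a
  · have e : {x : E3 | c ∈ A → c ≠ a → inner ℝ c x ≤ 1} = {x : E3 | inner ℝ c x ≤ 1} := by
      ext x
      exact ⟨fun h => h hc.1 hc.2, fun h _ _ => h⟩
    rw [e]
    exact isClosed_le (continuous_const.inner continuous_id) continuous_const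
  · have e : {x : E3 | c ∈ A → c ≠ a → inner ℝ c x ≤ 1} = univ := by
      ext x
      exact ⟨fun _ => mem_univ _, fun _ h1 h2 => absurd ⟨h1, h2⟩ hc⟩
    rw [e]
    exact isClosed_univ

private theorem var_half_convex (c : E3) {x y : E3} (hx : inner ℝ c x ≤ (1 : ℝ))
    (hy : inner ℝ c y ≤ (1 : ℝ)) {s t : ℝ} (hs : 0 ≤ s) (ht : 0 ≤ t) (hst : s + t = 1) :
    inner ℝ c (s • x + t • y) ≤ (1 : ℝ) := by
  rw [inner_add_right, inner_smul_right, inner_smul_right]
  nlinarith [mul_le_mul_of_nonneg_left hx hs, mul_le_mul_of_nonneg_left hy ht]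

private theorem var_polyR_convex (A : Finset E3) (a a' : E3) : Convex ℝ (polyR A a a') := by
  intro x hx y hy s t hs ht hst
  exact ⟨fun c hc hca => var_half_convex c (hx.1 c hc hca) (hy.1 c hc hca) hs ht hst,
    var_half_convex a' hx.2 hy.2 hs ht hst⟩

private theorem var_polyR_body {A : Finset E3} {r R : ℝ} (hr : 0 < r)
    (h1 : closedBall 0 r ⊆ poly A) (h2 : poly A ⊆ closedBall 0 R) {a : E3} (ha : a ∈ A) (b : E3)
    {ε : ℝ} (hε : 0 ≤ ε) (hc : ε * ‖b‖ * R ≤ 1 / 2) : IsBody (polyR A a (a + ε • b)) := by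
  have hR := var_R_pos hr h1 h2
  refine ⟨var_polyR_convex A a _, ?_, ?_⟩
  · refine Metric.isCompact_of_isClosed_isBounded (var_polyR_closed A a _) ?_
    refine isBounded_closedBall.subset (fun x hx => ?_ : _ ⊆ closedBall (0 : E3) (R * 2))
    rw [mem_closedBall_zero_iff]
    refine (var_norm_le hr h1 h2 x).trans (mul_le_mul_of_nonneg_left ?_ hR.le)
    refine (var_gauge_polyR hr h1 h2 b hε (by linarith) hx).trans ?_
    rw [← one_div, div_le_iff₀ (by linarith)]
    linarith
  · refine ⟨0, mem_interior_iff_mem_nhds.2 ?_⟩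
    refine Filter.mem_of_superset (closedBall_mem_nhds (0 : E3) (half_pos hr)) fun x hx => ?_
    refine var_mem_polyR hr h1 h2 ha b hε ?_
    refine (?_ : gauge (poly A) x ≤ 1 / 2).trans (by linarith)
    refine (poly_gauge hr h1 (by norm_num) x).2 fun c hcA => ?_
    have h3 : (2 : ℝ) • x ∈ poly A := by
      refine h1 ?_
      rw [mem_closedBall_zero_iff] at hx ⊢
      rw [norm_smul, Real.norm_of_nonneg (by norm_num : (0 : ℝ) ≤ 2)]
      linarith
    have h4 := h3 c hcA
    rw [inner_smul_right] at h4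
    linarith

/-! ### integrals of indicators -/

private theorem var_int {P : Set E3} (hP : MeasurableSet P) (hPf : volume P ≠ ⊤) {g : E3 → ℝ}
    (hg : Measurable g) (hg1 : ∀ x, |g x| ≤ 1) :
    Integrable (fun x => P.indicator (fun _ => (1 : ℝ)) x * g x) := by
  have h1 : Integrable (P.indicator (fun _ => (1 : ℝ))) :=
    (integrable_indicator_iff hP).2 (integrableOn_const hPf)
  exact h1.mul_bdd hg.aestronglyMeasurable (Eventually.of_forall fun x => by
    rw [Real.norm_eq_abs]; exact hg1 x)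

private theorem var_ind_le (P : Set E3) (x : E3) : |P.indicator (fun _ => (1 : ℝ)) x| ≤ 1 := by
  by_cases h : x ∈ P
  · rw [indicator_of_mem h, abs_one]
  · rw [indicator_of_notMem h, abs_zero]; exact zero_le_one

private theorem var_ind_meas {P : Set E3} (hP : MeasurableSet P) :
    Measurable (P.indicator (fun _ => (1 : ℝ))) := measurable_const.indicator hP

private theorem var_vol {P Q : Set E3} (hP : MeasurableSet P) (hQ : MeasurableSet Q)
    (hPf : volume P ≠ ⊤) (hQf : volume Q ≠ ⊤) :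
    ∫ x, (P.indicator (fun _ => (1 : ℝ)) x - Q.indicator (fun _ => (1 : ℝ)) x) * 1 =
      volume.real P - volume.real Q := by
  have h1 : Integrable (P.indicator (fun _ => (1 : ℝ))) :=
    (integrable_indicator_iff hP).2 (integrableOn_const hPf)
  have h2 : Integrable (Q.indicator (fun _ => (1 : ℝ))) :=
    (integrable_indicator_iff hQ).2 (integrableOn_const hQf)
  simp only [mul_one]
  rw [integral_sub h1 h2, integral_indicator_const _ hP, integral_indicator_const _ hQ,
    smul_eq_mul, smul_eq_mul, mul_one, mul_one]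

private theorem var_Phi_int {P : Set E3} (hP : MeasurableSet P) (z : E3) :
    Phi P z = ∫ x, P.indicator (fun _ => (1 : ℝ)) x *
      P.indicator (fun _ => (1 : ℝ)) ((2 : ℝ) • z - x) := by
  have hm : MeasurableSet (refl z P) :=
    hP.preimage (measurable_const.sub measurable_id : Measurable fun x : E3 => (2 : ℝ) • z - x)
  unfold Phi
  have e : ∀ x, P.indicator (fun _ => (1 : ℝ)) x *
      P.indicator (fun _ => (1 : ℝ)) ((2 : ℝ) • z - x) =
      (P ∩ refl z P).indicator (fun _ => (1 : ℝ)) x := by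
    intro x
    by_cases h1 : x ∈ P
    · by_cases h2 : (2 : ℝ) • z - x ∈ P
      · rw [indicator_of_mem h1, indicator_of_mem h2,
          indicator_of_mem (show x ∈ P ∩ refl z P from ⟨h1, h2⟩), one_mul]
      · rw [indicator_of_notMem h2, 
          indicator_of_notMem (show x ∉ P ∩ refl z P from fun h => h2 h.2), mul_zero]
    · rw [indicator_of_notMem h1, 
        indicator_of_notMem (show x ∉ P ∩ refl z P from fun h => h1 h.1), zero_mul]
  rw [integral_congr_ae (Eventually.of_forall e), integral_indicator_const _ (hP.inter hm),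
    smul_eq_mul, mul_one]

private theorem var_Phi_sub {P Q : Set E3} (hP : MeasurableSet P) (hQ : MeasurableSet Q)
    (hPf : volume P ≠ ⊤) (hQf : volume Q ≠ ⊤) (z : E3) :
    Phi P z - Phi Q z =
      (∫ x, (P.indicator (fun _ => (1 : ℝ)) x - Q.indicator (fun _ => (1 : ℝ)) x) *
        P.indicator (fun _ => (1 : ℝ)) ((2 : ℝ) • z - x)) +
      ∫ x, (P.indicator (fun _ => (1 : ℝ)) x - Q.indicator (fun _ => (1 : ℝ)) x) *
        Q.indicator (fun _ => (1 : ℝ)) ((2 : ℝ) • z - x) := by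
  have hmap : Measurable fun x : E3 => (2 : ℝ) • z - x := measurable_const.sub measurable_id
  have hmP := (var_ind_meas hP).comp hmap
  have hmQ := (var_ind_meas hQ).comp hmap
  have hPP := var_int hP hPf hmP fun x => var_ind_le P _
  have hPQ := var_int hP hPf hmQ fun x => var_ind_le Q _
  have hQP := var_int hQ hQf hmP fun x => var_ind_le P _
  have hQQ := var_int hQ hQf hmQ fun x => var_ind_le Q _
  simp only [Function.comp_apply] at hPP hPQ hQP hQQ
  rw [var_Phi_int hP, var_Phi_int hQ]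
  have e1 : ∫ x, P.indicator (fun _ => (1 : ℝ)) x * Q.indicator (fun _ => (1 : ℝ))
      ((2 : ℝ) • z - x) = ∫ x, Q.indicator (fun _ => (1 : ℝ)) x *
        P.indicator (fun _ => (1 : ℝ)) ((2 : ℝ) • z - x) := by
    rw [← integral_sub_left_eq_self (fun x => P.indicator (fun _ => (1 : ℝ)) x *
      Q.indicator (fun _ => (1 : ℝ)) ((2 : ℝ) • z - x)) volume ((2 : ℝ) • z)]
    refine integral_congr_ae (Eventually.of_forall fun x => ?_)
    simp only [sub_sub_cancel]
    rw [mul_comm]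
  simp only [sub_mul]
  rw [integral_sub hPP hQP, integral_sub hPQ hQQ, e1]
  ring

private theorem var_symm {A : Finset E3} {a b : E3} {ε : ℝ} (hε : 0 < ε) {P Q : Set E3}
    (hP : P = poly A) (hQ : Q = polyR A a (a + ε • b)) (ha : a ∈ A) (hPm : MeasurableSet P)
    (hQm : MeasurableSet Q) :
    ∫ x, (P.indicator (fun _ => (1 : ℝ)) x - Q.indicator (fun _ => (1 : ℝ)) x) *
      (if 0 < inner ℝ b x then (1 : ℝ) else -1) = volume.real (symmDiff P Q) := by
  have e : ∀ x, (P.indicator (fun _ => (1 : ℝ)) x - Q.indicator (fun _ => (1 : ℝ)) x) *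
      (if 0 < inner ℝ b x then (1 : ℝ) else -1) =
      (symmDiff P Q).indicator (fun _ => (1 : ℝ)) x := by
    intro x
    by_cases h1 : x ∈ P
    · by_cases h2 : x ∈ Q
      · rw [indicator_of_mem h1, indicator_of_mem h2, sub_self, zero_mul, indicator_of_notMem]
        rintro (h | h)
        · exact h.2 h2
        · exact h.2 h1
      · rw [indicator_of_mem h1, indicator_of_notMem h2,
          indicator_of_mem (show x ∈ symmDiff P Q from Or.inl ⟨h1, h2⟩), sub_zero, one_mul]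
        have h3 : 0 < inner ℝ b x := by
          subst hP hQ
          by_contra h4
          refine h2 ⟨fun c hc _ => h1 c hc, ?_⟩
          rw [inner_add_left, real_inner_smul_left]
          have h5 := h1 a ha
          have h6 : ε * inner ℝ b x ≤ 0 := mul_nonpos_of_nonneg_of_nonpos hε.le (not_lt.1 h4)
          linarith
        rw [if_pos h3]
    · by_cases h2 : x ∈ Q
      · rw [indicator_of_notMem h1, indicator_of_mem h2,
          indicator_of_mem (show x ∈ symmDiff P Q from Or.inr ⟨h2, h1⟩)]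
        have h3 : ¬ 0 < inner ℝ b x := by
          subst hP hQ
          intro h4
          refine h1 fun c hc => ?_
          by_cases hca : c = a
          · rw [hca]
            have h5 := h2.2
            rw [inner_add_left, real_inner_smul_left] at h5
            have h6 : 0 < ε * inner ℝ b x := mul_pos hε h4
            linarith
          · exact h2.1 c hc hca
        rw [if_neg h3]
        norm_num
      · rw [indicator_of_notMem h1, indicator_of_notMem h2, sub_self, zero_mul,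
          indicator_of_notMem]
        rintro (h | h)
        · exact h1 h.1
        · exact h2 h.1
  rw [integral_congr_ae (Eventually.of_forall e),
    integral_indicator_const _ (hPm.symmDiff hQm), smul_eq_mul, mul_one]

private theorem var_ell_null {b : E3} (hb : b ≠ 0) (S : (E2 × ℝ) ≃L[ℝ] E3) :
    volume {y : E2 | inner ℝ b (S (y, 1)) = (0 : ℝ)} = 0 := by
  have haff : ∀ (y y' : E2) (s t : ℝ), s + t = 1 → inner ℝ b (S (s • y + t • y', 1)) =
      s * inner ℝ b (S (y, 1)) + t * inner ℝ b (S (y', 1)) := by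
    intro y y' s t hst
    have h1 : (s • y + t • y', (1 : ℝ)) = s • (y, (1 : ℝ)) + t • (y', (1 : ℝ)) := by
      refine Prod.ext rfl ?_
      change (1 : ℝ) = s * 1 + t * 1
      rw [mul_one, mul_one, hst]
    rw [h1, map_add, map_smul, map_smul, inner_add_right, inner_smul_right, inner_smul_right]
  by_cases hneg : ∃ y : E2, inner ℝ b (S (y, 1)) < (0 : ℝ)
  · refine var_level_null (fun y => inner ℝ b (S (y, 1))) ⟨convex_univ, ?_⟩ 0 hneg
    intro y _ y' _ s t _ _ hst
    exact (haff y y' s t hst).le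
  by_cases hpos : ∃ y : E2, (0 : ℝ) < inner ℝ b (S (y, 1))
  · have h1 := var_level_null (fun y => -inner ℝ b (S (y, 1))) ⟨convex_univ, ?_⟩ 0 (by
      obtain ⟨y, hy⟩ := hpos
      exact ⟨y, by linarith⟩)
    · have e : {y : E2 | inner ℝ b (S (y, 1)) = (0 : ℝ)} =
          {y : E2 | -inner ℝ b (S (y, 1)) = (0 : ℝ)} := by
        ext y
        exact neg_eq_zero.symm
      rw [e]
      exact h1
    · intro y _ y' _ s t _ _ hst
      have h2 := haff y y' s t hst
      change -inner ℝ b (S (s • y + t • y', 1)) ≤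
        s * -inner ℝ b (S (y, 1)) + t * -inner ℝ b (S (y', 1))
      rw [h2]
      linarith
  exfalso
  push Not at hneg hpos
  have h0 : ∀ y : E2, inner ℝ b (S (y, 1)) = (0 : ℝ) := fun y =>
    le_antisymm (hpos y) (hneg y)
  apply hb
  obtain ⟨⟨y, t⟩, hyt⟩ := S.surjective b
  have h1 : inner ℝ b (S (y, t)) = (0 : ℝ) := by
    have h2 : ((y, t) : E2 × ℝ) = ((y, 1) : E2 × ℝ) - (0, 1) + t • ((0 : E2), (1 : ℝ)) := by
      refine Prod.ext ?_ ?_
      · simp
      · simp
    rw [h2, map_add, map_sub, map_smul, inner_add_right, inner_sub_right, inner_smul_right,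
      h0 y, h0 0]
    ring
  rw [hyt] at h1
  exact inner_self_eq_zero.1 h1

/-- the main inequality -/
private theorem var_key {A : Finset E3} {r R m η : ℝ} (hr : 0 < r)
    (h1 : closedBall 0 r ⊆ poly A) (h2 : poly A ⊆ closedBall 0 R) {a : E3}
    (ha : a ∈ A) {S : (E2 × ℝ) ≃L[ℝ] E3} (hS : IsChart a S)
    (hc : Phi (poly A) 0 = Dmax (poly A)) (hN : NCrit A m η)
    (hq : ∃ y, qfun (poly A) S y < 1) {b : E3} (hb : b ≠ 0) :
    2 * (∫ y in facet (poly A) S ∩ {y | qfun (poly A) S y ≤ 1}, inner ℝ b (S (y, 1))) ≤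
      m * (∫ y in facet (poly A) S, inner ℝ b (S (y, 1))) +
      η * ∫ y in facet (poly A) S, |inner ℝ b (S (y, 1))| := by
  classical
  obtain ⟨hPb, hP0⟩ := poly_body hr h1 h2
  have hR := var_R_pos hr h1 h2
  set P : Set E3 := poly A with hPdef
  have hPm : MeasurableSet P := hPb.isCompact.isClosed.measurableSet
  have hPf : volume P ≠ ⊤ := hPb.isCompact.measure_lt_top.ne
  set Q : ℝ → Set E3 := fun ε => polyR A a (a + ε • b) with hQdef
  have hQm : ∀ ε, MeasurableSet (Q ε) := fun ε => (var_polyR_closed A a _).measurableSet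
  have hCpos : 0 < ‖b‖ * R := mul_pos (norm_pos_iff.2 hb) hR
  -- small parameters
  have hsmall : ∀ κ : ℝ, 0 < κ → ∀ᶠ ε in 𝓝[>] (0 : ℝ), 0 < ε ∧ ε * ‖b‖ * R ≤ κ := by
    intro κ hκ
    have hlt : (0 : ℝ) < κ / (‖b‖ * R) := div_pos hκ hCpos
    filter_upwards [Ioc_mem_nhdsGT hlt] with ε hε
    refine ⟨hε.1, ?_⟩
    have h3 := (le_div_iff₀ hCpos).1 hε.2
    rw [mul_assoc]
    exact h3
  have hQb : ∀ᶠ ε in 𝓝[>] (0 : ℝ), IsBody (Q ε) := by
    filter_upwards [hsmall (1 / 2) (by norm_num)] with ε hε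
    exact var_polyR_body hr h1 h2 ha b hε.1.le hε.2
  -- the centers
  set z : ℝ → E3 := fun ε => if h : IsBody (Q ε) then (exists_Phi_eq_Dmax h).choose else 0
    with hzdef
  have hz : ∀ ε, IsBody (Q ε) → Phi (Q ε) (z ε) = Dmax (Q ε) := by
    intro ε h
    rw [hzdef]
    simp only
    rw [dif_pos h]
    exact (exists_Phi_eq_Dmax h).choose_spec.2
  set F : Set E2 := facet P S with hFdef
  have hFc : IsCompact F := (facet_facts hr h1 h2 ha hS).1
  have hJ : 0 < jac S := (jac_spec S).1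
  -- continuity of the chart
  have hScont : ∀ y : E2, Tendsto (fun p : ℝ × ℝ => S (p.2 • y, p.2)) (𝓝[>] 0 ×ˢ 𝓝 1)
      (𝓝 (S (y, 1))) := by
    intro y
    have h3 : Continuous fun t : ℝ => S (t • y, t) :=
      S.continuous.comp ((continuous_id.smul continuous_const).prodMk continuous_id)
    have h4 : Tendsto (fun t : ℝ => S (t • y, t)) (𝓝 1) (𝓝 (S (y, 1))) := by
      have h5 := h3.tendsto 1
      rwa [one_smul] at h5
    exact h4.comp tendsto_snd
  -- (b) sign
  have hmsgn : Measurable fun x : E3 => (if 0 < inner ℝ b x then (1 : ℝ) else -1) :=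
    Measurable.ite (measurableSet_lt measurable_const
      (continuous_const.inner continuous_id).measurable) measurable_const measurable_const
  have hlimb := var_lim hr h1 h2 ha hS b (fun _ x => if 0 < inner ℝ b x then (1 : ℝ) else -1)
    (fun _ => hmsgn) (fun _ x => by
      split_ifs
      · rw [abs_one]
      · rw [abs_neg, abs_one])
    (fun y => if 0 < inner ℝ b (S (y, 1)) then (1 : ℝ) else -1) (by
      have hnull : ∀ᵐ y ∂(volume.restrict (facet (poly A) S)), inner ℝ b (S (y, 1)) ≠ (0 : ℝ) := by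
        refine ae_restrict_of_ae ?_
        rw [ae_iff]
        simpa using var_ell_null hb S
      filter_upwards [hnull] with y hy
      have h3 : Tendsto (fun p : ℝ × ℝ => inner ℝ b (S (p.2 • y, p.2))) (𝓝[>] 0 ×ˢ 𝓝 1)
          (𝓝 (inner ℝ b (S (y, 1)))) := tendsto_const_nhds.inner (hScont y)
      refine tendsto_const_nhds.congr' ?_
      rcases lt_or_gt_of_ne hy with h4 | h4
      · filter_upwards [h3.eventually_lt_const h4] with p hp
        rw [if_neg (not_lt.2 h4.le), if_neg (not_lt.2 hp.le)]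
      · filter_upwards [h3.eventually_const_lt h4] with p hp
        rw [if_pos h4, if_pos hp])
  -- (a) volume
  have hlima := var_lim hr h1 h2 ha hS b (fun _ _ => 1) (fun _ => measurable_const)
    (fun _ _ => by rw [abs_one]) (fun _ => 1) (Eventually.of_forall fun y => tendsto_const_nhds)
  have heqb : (fun ε : ℝ => ε⁻¹ * volume.real (symmDiff P (Q ε))) =ᶠ[𝓝[>] 0]
      fun ε : ℝ => ε⁻¹ * ∫ x, (P.indicator (fun _ => (1 : ℝ)) x -
        (Q ε).indicator (fun _ => (1 : ℝ)) x) * (if 0 < inner ℝ b x then (1 : ℝ) else -1) := by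
    filter_upwards [self_mem_nhdsWithin] with ε hε
    rw [var_symm hε rfl rfl ha hPm (hQm ε)]
  have hsymm0 : Tendsto (fun ε : ℝ => volume.real (symmDiff P (Q ε))) (𝓝[>] 0) (𝓝 0) := by
    have h3 := hlimb.congr' heqb.symm
    have h4 : Tendsto (fun ε : ℝ => ε) (𝓝[>] (0 : ℝ)) (𝓝 0) :=
      tendsto_id.mono_left nhdsWithin_le_nhds
    have h5 := h4.mul h3
    rw [zero_mul] at h5
    refine h5.congr' ?_
    filter_upwards [self_mem_nhdsWithin] with ε hε
    have hε' : ε ≠ 0 := (show (0 : ℝ) < ε from hε).ne'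
    field_simp
  have hz0 : Tendsto z (𝓝[>] 0) (𝓝 0) := by
    rw [Metric.tendsto_nhds]
    intro ρ hρ
    obtain ⟨κ, hκ, hκ1⟩ := center_close hPb hc (half_pos hρ)
    filter_upwards [hQb, hsymm0.eventually_lt_const hκ] with ε hε1 hε2
    rw [dist_zero_right]
    rw [symmDiff_comm] at hε2
    have h3 := hκ1 (Q ε) hε1 hε2.le (z ε) (hz ε hε1)
    linarith
  -- the moving point
  have hxlim : ∀ y : E2, Tendsto (fun p : ℝ × ℝ => (2 : ℝ) • z p.1 - S (p.2 • y, p.2))
      (𝓝[>] 0 ×ˢ 𝓝 1) (𝓝 (-S (y, 1))) := by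
    intro y
    have h3 : Tendsto (fun p : ℝ × ℝ => (2 : ℝ) • z p.1) (𝓝[>] (0 : ℝ) ×ˢ 𝓝 (1 : ℝ))
        (𝓝 ((2 : ℝ) • (0 : E3))) := (hz0.comp tendsto_fst).const_smul 2
    have h4 := h3.sub (hScont y)
    rwa [smul_zero, zero_sub] at h4
  have hgc : Continuous (gauge P) := continuous_gauge hPb.convex (mem_interior_iff_mem_nhds.1 hP0)
  have hglim : ∀ y : E2, Tendsto (fun p : ℝ × ℝ => gauge P ((2 : ℝ) • z p.1 -
      S (p.2 • y, p.2))) (𝓝[>] 0 ×ˢ 𝓝 1) (𝓝 (qfun P S y)) := fun y =>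
    (hgc.tendsto _).comp (hxlim y)
  have hqnull : ∀ᵐ y ∂(volume.restrict (facet (poly A) S)), qfun P S y ≠ 1 := by
    refine ae_restrict_of_ae ?_
    rw [ae_iff]
    simpa using q_level_null hPb hP0 (S : (E2 × ℝ) →L[ℝ] E3) hq
  have hccont : Tendsto (fun p : ℝ × ℝ => p.1 * ‖b‖ * R) (𝓝[>] (0 : ℝ) ×ˢ 𝓝 (1 : ℝ)) (𝓝 0) := by
    have h3 : Tendsto (fun ε : ℝ => ε * ‖b‖ * R) (𝓝[>] (0 : ℝ)) (𝓝 0) := by
      have h4 : Tendsto (fun ε : ℝ => ε * ‖b‖ * R) (𝓝 (0 : ℝ)) (𝓝 (0 * ‖b‖ * R)) :=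
        ((continuous_id.mul continuous_const).mul continuous_const).tendsto 0
      rw [zero_mul, zero_mul] at h4
      exact h4.mono_left nhdsWithin_le_nhds
    exact h3.comp tendsto_fst
  have hcpos : ∀ᶠ p : ℝ × ℝ in 𝓝[>] (0 : ℝ) ×ˢ 𝓝 (1 : ℝ), 0 < p.1 :=
    tendsto_fst.eventually (self_mem_nhdsWithin : ∀ᶠ ε in 𝓝[>] (0 : ℝ), ε ∈ Ioi (0 : ℝ))
  set w0 : E2 → ℝ := fun y => if qfun P S y ≤ 1 then 1 else 0 with hw0
  -- (c)
  have hlimc := var_lim hr h1 h2 ha hS b
    (fun ε x => P.indicator (fun _ => (1 : ℝ)) ((2 : ℝ) • z ε - x))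
    (fun ε => (var_ind_meas hPm).comp (measurable_const.sub measurable_id))
    (fun ε x => var_ind_le P _) w0 (by
      filter_upwards [hqnull] with y hy
      refine tendsto_const_nhds.congr' ?_
      rcases lt_or_gt_of_ne hy with h4 | h4
      · filter_upwards [(hglim y).eventually_lt_const h4] with p hp
        rw [indicator_of_mem ((var_mem_iff hr h1 _).2 hp.le), hw0]
        simp only
        rw [if_pos h4.le]
      · filter_upwards [(hglim y).eventually_const_lt h4] with p hp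
        rw [indicator_of_notMem (fun h => not_le.2 hp ((var_mem_iff hr h1 _).1 h)), hw0]
        simp only
        rw [if_neg (not_le.2 h4)])
  -- (d)
  have hlimd := var_lim hr h1 h2 ha hS b
    (fun ε x => (Q ε).indicator (fun _ => (1 : ℝ)) ((2 : ℝ) • z ε - x))
    (fun ε => (var_ind_meas (hQm ε)).comp (measurable_const.sub measurable_id))
    (fun ε x => var_ind_le (Q ε) _) w0 (by
      filter_upwards [hqnull] with y hy
      refine tendsto_const_nhds.congr' ?_
      rcases lt_or_gt_of_ne hy with h4 | h4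
      · have h5 : Tendsto (fun p : ℝ × ℝ => gauge P ((2 : ℝ) • z p.1 - S (p.2 • y, p.2)) +
            p.1 * ‖b‖ * R) (𝓝[>] 0 ×ˢ 𝓝 1) (𝓝 (qfun P S y + 0)) := (hglim y).add hccont
        rw [add_zero] at h5
        filter_upwards [h5.eventually_lt_const h4, hcpos] with p hp hp0
        rw [indicator_of_mem (var_mem_polyR hr h1 h2 ha b hp0.le (by linarith)), hw0]
        simp only
        rw [if_pos h4.le]
      · have h5 : Tendsto (fun p : ℝ × ℝ => gauge P ((2 : ℝ) • z p.1 - S (p.2 • y, p.2)) *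
            (1 - p.1 * ‖b‖ * R)) (𝓝[>] 0 ×ˢ 𝓝 1) (𝓝 (qfun P S y * (1 - 0))) :=
          (hglim y).mul (tendsto_const_nhds.sub hccont)
        rw [sub_zero, mul_one] at h5
        filter_upwards [h5.eventually_const_lt h4, hcpos,
          hccont.eventually_lt_const (show (0 : ℝ) < 1 from one_pos)] with p hp hp0 hp1
        have hnot : (2 : ℝ) • z p.1 - S (p.2 • y, p.2) ∉ Q p.1 := by
          intro h
          have h6 := var_gauge_polyR hr h1 h2 b hp0.le hp1 h
          rw [← one_div, le_div_iff₀ (by linarith)] at h6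
          exact not_le.2 hp h6
        rw [indicator_of_notMem hnot, hw0]
        simp only
        rw [if_neg (not_le.2 h4)])
  -- the inequality for small parameters
  obtain ⟨δ, hδ, hNa⟩ := hN a ha
  have hδs : ∀ᶠ ε in 𝓝[>] (0 : ℝ), 0 < ε ∧ ‖(a + ε • b) - a‖ < δ := by
    have hlt : (0 : ℝ) < δ / ‖b‖ := div_pos hδ (norm_pos_iff.2 hb)
    filter_upwards [Ioo_mem_nhdsGT hlt] with ε hε
    refine ⟨hε.1, ?_⟩
    rw [add_sub_cancel_left, norm_smul, Real.norm_of_nonneg hε.1.le]
    exact (lt_div_iff₀ (norm_pos_iff.2 hb)).1 hε.2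
  have hineq : ∀ᶠ ε in 𝓝[>] (0 : ℝ),
      (ε⁻¹ * ∫ x, (P.indicator (fun _ => (1 : ℝ)) x - (Q ε).indicator (fun _ => (1 : ℝ)) x) *
        P.indicator (fun _ => (1 : ℝ)) ((2 : ℝ) • z ε - x)) +
      (ε⁻¹ * ∫ x, (P.indicator (fun _ => (1 : ℝ)) x - (Q ε).indicator (fun _ => (1 : ℝ)) x) *
        (Q ε).indicator (fun _ => (1 : ℝ)) ((2 : ℝ) • z ε - x)) ≤
      m * (ε⁻¹ * ∫ x, (P.indicator (fun _ => (1 : ℝ)) x -
        (Q ε).indicator (fun _ => (1 : ℝ)) x) * 1) +
      η * (ε⁻¹ * ∫ x, (P.indicator (fun _ => (1 : ℝ)) x -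
        (Q ε).indicator (fun _ => (1 : ℝ)) x) * (if 0 < inner ℝ b x then (1 : ℝ) else -1)) := by
    filter_upwards [hδs, hQb] with ε hε hεb
    have hQf : volume (Q ε) ≠ ⊤ := hεb.isCompact.measure_lt_top.ne
    have h3 := hNa (a + ε • b) hε.2
    have h4 : Phi P (z ε) ≤ Dmax P := Phi_le_Dmax hPb (z ε)
    have h5 := hz ε hεb
    have h6 := var_Phi_sub hPm (hQm ε) hPf hQf (z ε)
    rw [var_vol hPm (hQm ε) hPf hQf, var_symm hε.1 rfl rfl ha hPm (hQm ε), ← mul_add, ← h6]
    have h7 : Phi P (z ε) - Phi (Q ε) (z ε) ≤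
        m * (volume.real P - volume.real (Q ε)) + η * volume.real (symmDiff P (Q ε)) := by
      rw [h5]
      have h8 : Dmax P - m * volume.real P ≤ Dmax (Q ε) - m * volume.real (Q ε) +
        η * volume.real (symmDiff P (Q ε)) := h3
      linarith
    have h9 := mul_le_mul_of_nonneg_left h7 (inv_nonneg.2 hε.1.le)
    calc ε⁻¹ * (Phi P (z ε) - Phi (Q ε) (z ε)) ≤ _ := h9
      _ = _ := by ring
  have hfin := le_of_tendsto_of_tendsto (hlimc.add hlimd)
    ((hlima.const_mul m).add (hlimb.const_mul η)) hineq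
  -- evaluation of the limits
  have hqcont : Continuous (qfun P S) := by
    unfold qfun
    exact hgc.comp (S.continuous.comp (continuous_id.prodMk continuous_const)).neg
  have hGm : MeasurableSet {y : E2 | qfun P S y ≤ 1} :=
    (isClosed_le hqcont continuous_const).measurableSet
  have hw0int : ∫ y in facet (poly A) S, inner ℝ b (S (y, 1)) * w0 y =
      ∫ y in F ∩ {y | qfun P S y ≤ 1}, inner ℝ b (S (y, 1)) := by
    have e : (fun y => inner ℝ b (S (y, 1)) * w0 y) =
        {y : E2 | qfun P S y ≤ 1}.indicator fun y => inner ℝ b (S (y, 1)) := by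
      funext y
      rw [hw0]
      by_cases h : qfun P S y ≤ 1
      · rw [indicator_of_mem (show y ∈ {y : E2 | qfun P S y ≤ 1} from h)]
        simp [h]
      · rw [indicator_of_notMem (show y ∉ {y : E2 | qfun P S y ≤ 1} from h)]
        simp [h]
    rw [e, setIntegral_indicator hGm]
  have habs : ∫ y in facet (poly A) S, inner ℝ b (S (y, 1)) *
      (if 0 < inner ℝ b (S (y, 1)) then (1 : ℝ) else -1) =
      ∫ y in F, |inner ℝ b (S (y, 1))| := by
    refine integral_congr_ae (Eventually.of_forall fun y => ?_)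
    dsimp only
    split_ifs with h
    · rw [mul_one, abs_of_pos h]
    · rw [mul_neg, mul_one, abs_of_nonpos (not_lt.1 h)]
  rw [hw0int, habs] at hfin
  simp only [mul_one] at hfin
  have h10 : jac S * (2 * ∫ y in F ∩ {y | qfun P S y ≤ 1}, inner ℝ b (S (y, 1))) ≤
      jac S * (m * (∫ y in F, inner ℝ b (S (y, 1))) + η * ∫ y in F, |inner ℝ b (S (y, 1))|) := by
    calc jac S * (2 * ∫ y in F ∩ {y | qfun P S y ≤ 1}, inner ℝ b (S (y, 1))) = _ := by
          rw [two_mul, mul_add]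
      _ ≤ _ := hfin
      _ = _ := by ring
  exact le_of_mul_le_mul_left h10 hJ

theorem first_variation {A : Finset E3} {r R m η : ℝ} (hr : 0 < r)
    (h1 : closedBall 0 r ⊆ poly A) (h2 : poly A ⊆ closedBall 0 R) (hη : 0 ≤ η) {a : E3}
    (ha : a ∈ A) {S : (E2 × ℝ) ≃L[ℝ] E3} (hS : IsChart a S)
    (hc : Phi (poly A) 0 = Dmax (poly A)) (hN : NCrit A m η)
    (hq : ∃ y, qfun (poly A) S y < 1) (b : E3) :
    |(∫ y in facet (poly A) S ∩ {y | qfun (poly A) S y ≤ 1}, inner ℝ b (S (y, 1))) -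
      m / 2 * ∫ y in facet (poly A) S, inner ℝ b (S (y, 1))| ≤
      η / 2 * ∫ y in facet (poly A) S, |inner ℝ b (S (y, 1))| := by
  by_cases hb : b = 0
  · subst hb
    simp
  have h3 := var_key hr h1 h2 ha hS hc hN hq hb
  have h4 := var_key hr h1 h2 ha hS hc hN hq (neg_ne_zero.2 hb)
  simp only [inner_neg_left, abs_neg, integral_neg] at h4
  rw [abs_le]
  constructor
  · linarith
  · linarith

end Pool.Agent.Lib.MP_43065d_gt
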