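import Pool.Agent.Lib.MP_43065d_gt.CutLim
import Pool.Agent.Lib.MP_43065d_gt.CutIneq
import Pool.Agent.Lib.MP_43065d_gt.Var

/-!
# Module FaceC: the convex order condition for a face of the minimiser

PROOF.  `F = facet K₀ S`, `q = qfun K₀ S`, `ℓ y = ⟪b, S (y, 1)⟫`.  Take `e n > 0`, `e n → 0` and `z n → 0` with
`2 vol (C (e n) ∩ {x | 2 z n - x ∈ K₀}) ≤ m vol (C (e n))`, where `C ε = K₀ ∩ {x | 1 < ⟪a + ε b, x⟫}` (`cut_ineq` for `ρ = 1/(n+1)`, `e n = min (ε₀ n) (1/(n+1))`).  Divide by `e n` and let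
`n → ∞`: by `cut_lim` with `W = 1`, `W' = 1`: `(e n)⁻¹ vol (C (e n)) → jac ∫_F ℓ⁺`; by `cut_lim` with `W n` the indicator of the closed set `{x | 2 z n - x ∈ K₀}` and `W'` the indicator of
`{q ≤ 1}`: `(e n)⁻¹ vol (C (e n) ∩ {2 z n - x ∈ K₀}) → jac ∫_F ℓ⁺ 1_{q ≤ 1} = jac ∫_{F ∩ {q ≤ 1}} ℓ⁺`.
The hypothesis `hlim` of `cut_lim`: a.e. `y` has `q y ≠ 1` (`q_level_null` in Var.lean, with `hq`).  `2 z n - S (t • y, t) → -S (y, 1)` as `n → ∞`, `t → 1`.  If `q y < 1`, `-S (y, 1)` is an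
interior point of `K₀` (`gauge_lt_one_eq_interior`-type lemma, or continuity of the gauge), so `2 z n - S (t • y, t) ∈ K₀` for `|t - 1| < θ` and large `n`; if `q y > 1` it is in the open
complement of `K₀`, so `2 z n - S (t • y, t) ∉ K₀` for `|t - 1| < θ` and large `n`.
Conclusion: `2 jac ∫_{F ∩ {q ≤ 1}} ℓ⁺ ≤ m jac ∫_F ℓ⁺`, `jac > 0` (`jac_spec`).
-/

open MeasureTheory Set Filter Topology Metric
open scoped ENNReal NNReal Pointwise

namespace Pool.Agent.Lib.MP_43065d_gt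

theorem face_c {K₀ : Set E3} {m : ℝ} (h : IsMin K₀ m) {a : E3} (ha : a ∈ osup K₀)
    {S : (E2 × ℝ) ≃L[ℝ] E3} (hS : IsChart a S) (hq : ∃ y, qfun K₀ S y < 1) (b : E3) :
    2 * ∫ y in facet K₀ S ∩ {y | qfun K₀ S y ≤ 1}, max (inner ℝ b (S (y, 1))) 0 ≤
      m * ∫ y in facet K₀ S, max (inner ℝ b (S (y, 1))) 0 := by
  have hKc : IsClosed K₀ := h.body.isCompact.isClosed
  have hnhds : K₀ ∈ 𝓝 (0 : E3) := mem_interior_iff_mem_nhds.1 h.zero
  have hmem : ∀ x, gauge K₀ x ≤ 1 ↔ x ∈ K₀ := fun x => by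
    rw [gauge_le_one_iff_mem_closure h.body.convex hnhds, hKc.closure_eq]
  have hgc : Continuous (gauge K₀) := continuous_gauge h.body.convex hnhds
  choose ε₀ hε₀ hcut using fun n : ℕ => cut_ineq h ha b (ρ := 1 / ((n : ℝ) + 1)) (by positivity)
  set e : ℕ → ℝ := fun n => min (ε₀ n) (1 / ((n : ℝ) + 1)) with he_def
  have he : ∀ n, 0 < e n := fun n => lt_min (hε₀ n) (by positivity)
  have he0 : Tendsto e atTop (𝓝 0) := squeeze_zero (fun n => (he n).le)
    (fun n => min_le_right _ _) tendsto_one_div_add_atTop_nhds_zero_nat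
  choose z hz hzc using fun n => hcut n (e n) (he n) (min_le_left _ _)
  have hz0 : Tendsto (fun n => ‖z n‖) atTop (𝓝 0) := squeeze_zero (fun _ => norm_nonneg _) hz
    tendsto_one_div_add_atTop_nhds_zero_nat
  have hD : ∀ n, MeasurableSet {x : E3 | (2 : ℝ) • z n - x ∈ K₀} := fun n =>
    (hKc.preimage (continuous_const.sub continuous_id)).measurableSet
  have hqc : Continuous (qfun K₀ S) := (face_q h.body h.zero hS).1
  have hQ : MeasurableSet {y | qfun K₀ S y ≤ 1} :=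
    (isClosed_le hqc continuous_const).measurableSet
  have h1 := cut_lim h.body h.zero ha hS b he he0 (W := fun _ _ => 1) (W' := fun _ => 1)
    (fun _ => measurable_const) (fun _ _ => zero_le_one) (fun _ _ => le_rfl) measurable_const
    (Filter.Eventually.of_forall fun y _ => ⟨1, one_pos,
      Filter.Eventually.of_forall fun n t _ => rfl⟩)
  have hnull : volume {y : E2 | qfun K₀ S y = 1} = 0 :=
    q_level_null h.body h.zero (S : (E2 × ℝ) →L[ℝ] E3) hq
  have hlim : ∀ᵐ y : E2, y ∈ facet K₀ S → ∃ θ > 0, ∀ᶠ n in atTop, ∀ t : ℝ, |t - 1| < θ →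
      {x : E3 | (2 : ℝ) • z n - x ∈ K₀}.indicator (fun _ => (1 : ℝ)) (S (t • y, t)) =
        {y | qfun K₀ S y ≤ 1}.indicator (fun _ => (1 : ℝ)) y := by
    filter_upwards [measure_eq_zero_iff_ae_notMem.1 hnull] with y hy _
    have hcont : Tendsto (fun p : ℝ × E3 => gauge K₀ ((2 : ℝ) • p.2 - S (p.1 • y, p.1)))
        (𝓝 (1, 0)) (𝓝 (qfun K₀ S y)) := by
      have hc : Continuous (fun p : ℝ × E3 => gauge K₀ ((2 : ℝ) • p.2 - S (p.1 • y, p.1))) := by
        refine hgc.comp ?_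
        exact (continuous_snd.const_smul (2 : ℝ)).sub (S.continuous.comp
          ((continuous_fst.smul continuous_const).prodMk continuous_fst))
      have h3 := hc.tendsto (1, 0)
      simp only [one_smul, smul_zero, zero_sub] at h3
      exact h3
    have key : ∀ Q : ℝ → Prop, (∀ᶠ v in 𝓝 (qfun K₀ S y), Q v) → ∃ θ > 0, ∀ᶠ n in atTop,
        ∀ t : ℝ, |t - 1| < θ → Q (gauge K₀ ((2 : ℝ) • z n - S (t • y, t))) := by
      intro Q hQ'
      obtain ⟨δ, hδ, hb⟩ := Metric.eventually_nhds_iff.1 (hcont.eventually hQ')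
      refine ⟨δ, hδ, ?_⟩
      filter_upwards [hz0.eventually (gt_mem_nhds hδ)] with n hn t ht
      refine hb (y := (t, z n)) ?_
      rw [Prod.dist_eq, max_lt_iff]
      exact ⟨by rwa [Real.dist_eq], by rwa [dist_zero_right]⟩
    rcases lt_or_gt_of_ne (show qfun K₀ S y ≠ 1 from hy) with hlt | hgt
    · obtain ⟨θ, hθ, hev⟩ := key (fun v => v < 1) (gt_mem_nhds hlt)
      refine ⟨θ, hθ, hev.mono fun n hn t ht => ?_⟩
      rw [indicator_of_mem (show y ∈ {y | qfun K₀ S y ≤ 1} from hlt.le),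
        indicator_of_mem (show S (t • y, t) ∈ {x : E3 | (2 : ℝ) • z n - x ∈ K₀} from
          (hmem _).1 (hn t ht).le)]
    · obtain ⟨θ, hθ, hev⟩ := key (fun v => 1 < v) (lt_mem_nhds hgt)
      refine ⟨θ, hθ, hev.mono fun n hn t ht => ?_⟩
      rw [indicator_of_notMem (show y ∉ {y | qfun K₀ S y ≤ 1} from not_le.2 hgt),
        indicator_of_notMem (show S (t • y, t) ∉ {x : E3 | (2 : ℝ) • z n - x ∈ K₀} from
          fun h4 => not_le.2 (hn t ht) ((hmem _).2 h4))]
  have h2 := cut_lim h.body h.zero ha hS b he he0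
    (W := fun n => {x : E3 | (2 : ℝ) • z n - x ∈ K₀}.indicator fun _ => (1 : ℝ))
    (W' := {y | qfun K₀ S y ≤ 1}.indicator fun _ => (1 : ℝ))
    (fun n => measurable_const.indicator (hD n))
    (fun n x => indicator_nonneg (fun _ _ => zero_le_one) x)
    (fun n x => indicator_apply_le' (fun _ => le_rfl) (fun _ => zero_le_one))
    (measurable_const.indicator hQ) hlim
  have h3 := le_of_tendsto_of_tendsto' (h2.const_mul 2) (h1.const_mul m) (fun n => by
    have h4 : ∫ x in K₀ ∩ {x | 1 < inner ℝ (a + e n • b) x},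
        {x : E3 | (2 : ℝ) • z n - x ∈ K₀}.indicator (fun _ => (1 : ℝ)) x =
        volume.real (K₀ ∩ {x | 1 < inner ℝ (a + e n • b) x} ∩
          {x : E3 | (2 : ℝ) • z n - x ∈ K₀}) := by
      rw [setIntegral_indicator (hD n), setIntegral_const, smul_eq_mul, mul_one]
    have h5 : ∫ x in K₀ ∩ {x | 1 < inner ℝ (a + e n • b) x}, (1 : ℝ) =
        volume.real (K₀ ∩ {x | 1 < inner ℝ (a + e n • b) x}) := by
      rw [setIntegral_const, smul_eq_mul, mul_one]
    rw [h4, h5, mul_left_comm, mul_left_comm m]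
    exact mul_le_mul_of_nonneg_left (hzc n) (inv_nonneg.2 (he n).le))
  have h6 : ∫ y in facet K₀ S, max (inner ℝ b (S (y, 1))) 0 *
      {y | qfun K₀ S y ≤ 1}.indicator (fun _ => (1 : ℝ)) y =
      ∫ y in facet K₀ S ∩ {y | qfun K₀ S y ≤ 1}, max (inner ℝ b (S (y, 1))) 0 := by
    rw [← setIntegral_indicator hQ]
    congr 1
    funext y
    by_cases hy : y ∈ {y | qfun K₀ S y ≤ 1}
    · rw [indicator_of_mem hy, indicator_of_mem hy, mul_one]
    · rw [indicator_of_notMem hy, indicator_of_notMem hy, mul_zero]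
  rw [h6] at h3
  simp only [mul_one] at h3
  rw [mul_left_comm, mul_left_comm m] at h3
  exact le_of_mul_le_mul_left h3 (jac_spec S).1

end Pool.Agent.Lib.MP_43065d_gt
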