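import Pool.Agent.Lib.MP_43065d_gt.FaceA
import Pool.Agent.Lib.MP_43065d_gt.Var

/-!
# Module FaceD: integrals in the cone over a face

`K` a body, `0` interior, `a ∈ osup K`, `S` a chart adapted to `a`, `F = facet K S`, `q = qfun K S`.

PROOFS.  Always `csec_polar`; on the cone, for `y ∈ F` and `t > 0`: `S (t • y, t) = t • S (y, 1)`, `gauge K = t` (`face_gauge`), so it is in `K` iff
`t ≤ 1`; `gauge K (-S (t • y, t)) = t * q y`.
`face_int`: `f = K.indicator (ofReal ∘ φ)`: the inner integral is `∫⁻_{0<t≤1} ofReal (t² * t * φ (S (y,1))) = ofReal (φ (S (y,1)) / 4)`.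
`face_int_sym`: `f` the indicator of `K ∩ {gauge K (-x) ≤ gauge K x}`: the condition at `t • S (y,1)` is `t * q y ≤ t`, i.e. `q y ≤ 1`.
Real forms: `φ ≥ 0` is continuous, so bounded on compact sets: both sides are finite; `integral_eq_lintegral_of_nonneg_ae`.
`face_int_inner`, `face_int_sym_inner`: `⟪b, x⟫ = max ⟪b, x⟫ 0 - max (-⟪b, x⟫) 0`, `integral_sub` (integrable: bounded on sets of finite measure).
`face_null`: `q_level_null` (Var.lean) says that `{q = 1}` is null; `csec_polar` with `f` the indicator of the (closed) set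
`{x | gauge K (-x) = gauge K x}`: the inner integral vanishes unless `q y = 1`.
-/

open MeasureTheory Set Filter Topology Metric
open scoped ENNReal NNReal Pointwise

namespace Pool.Agent.Lib.MP_43065d_gt

variable {K : Set E3} {a : E3} {S : (E2 × ℝ) ≃L[ℝ] E3}

private theorem fd_smul (y : E2) (t : ℝ) : S (t • y, t) = t • S (y, 1) := by
  rw [← map_smul]
  congr 1
  ext1
  · rfl
  · show t = t * 1
    ring

private theorem fd_t (c : ℝ) (hc : 0 ≤ c) :
    ∫⁻ t in Ioi (0 : ℝ), (Iic (1 : ℝ)).indicator (fun t => ENNReal.ofReal (t ^ 3 * c)) t =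
      ENNReal.ofReal (c / 4) := by
  have hs : Iic (1 : ℝ) ∩ Ioi 0 = Ioc 0 1 := by
    ext t
    exact ⟨fun h => ⟨h.2, h.1⟩, fun h => ⟨h.2, h.1⟩⟩
  rw [lintegral_indicator measurableSet_Iic, Measure.restrict_restrict measurableSet_Iic, hs,
    ← ofReal_integral_eq_lintegral_ofReal]
  · congr 1
    rw [← intervalIntegral.integral_of_le zero_le_one, intervalIntegral.integral_mul_const,
      integral_pow]
    norm_num
    ring
  · exact (Continuous.integrableOn_Icc (by fun_prop)).mono_set Ioc_subset_Icc_self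
  · refine ae_restrict_of_forall_mem measurableSet_Ioc fun t ht => ?_
    exact mul_nonneg (pow_nonneg ht.1.le 3) hc

private theorem fd_key (hK : IsBody K) (h0 : (0 : E3) ∈ interior K)
    (hS : IsChart a S) {B : Set E3} (hB : MeasurableSet B) {G : Set E2} (hG : MeasurableSet G)
    (hiff : ∀ y ∈ facet K S, ∀ t : ℝ, 0 < t → (S (t • y, t) ∈ B ↔ t ≤ 1 ∧ y ∈ G))
    {φ : E3 → ℝ} (hφ : Continuous φ) (hφ0 : ∀ x, 0 ≤ φ x)
    (hφ1 : ∀ (t : ℝ) (x : E3), 0 ≤ t → φ (t • x) = t * φ x) :
    ∫ x in B ∩ csec K a, φ x = jac S / 4 * ∫ y in facet K S ∩ G, φ (S (y, 1)) := by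
  have hJ := (jac_spec S).1
  have hm : MeasurableSet (csec K a) :=
    (csec_closed hK.convex (mem_interior_iff_mem_nhds.1 h0) a).measurableSet
  have hφm : Measurable fun x => ENNReal.ofReal (φ x) := hφ.measurable.ennreal_ofReal
  have e1 : ∫⁻ x in B ∩ csec K a, ENNReal.ofReal (φ x) =
      ∫⁻ x in csec K a, B.indicator (fun x => ENNReal.ofReal (φ x)) x := by
    rw [lintegral_indicator hB, Measure.restrict_restrict hB]
  have e2 := csec_polar hK h0 hS (f := B.indicator fun x => ENNReal.ofReal (φ x))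
    (hφm.indicator hB)
  have e3 : ∀ y ∈ facet K S, ∫⁻ t in Ioi (0 : ℝ), ENNReal.ofReal (t ^ 2) *
      B.indicator (fun x => ENNReal.ofReal (φ x)) (S (t • y, t)) =
        G.indicator (fun y => ENNReal.ofReal (φ (S (y, 1)) / 4)) y := by
    intro y hy
    by_cases hyG : y ∈ G
    · rw [indicator_of_mem hyG, ← fd_t _ (hφ0 _)]
      refine setLIntegral_congr_fun measurableSet_Ioi fun t ht => ?_
      have ht' : 0 < t := ht
      show ENNReal.ofReal (t ^ 2) * B.indicator (fun x => ENNReal.ofReal (φ x)) (S (t • y, t)) =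
        (Iic (1 : ℝ)).indicator (fun t => ENNReal.ofReal (t ^ 3 * φ (S (y, 1)))) t
      by_cases h1 : t ≤ 1
      · rw [indicator_of_mem ((hiff y hy t ht').2 ⟨h1, hyG⟩),
          indicator_of_mem (show t ∈ Iic (1 : ℝ) from h1), ← ENNReal.ofReal_mul (sq_nonneg t),
          fd_smul, hφ1 t _ ht'.le]
        congr 1
        ring
      · rw [indicator_of_notMem (fun h => h1 ((hiff y hy t ht').1 h).1),
          indicator_of_notMem (show t ∉ Iic (1 : ℝ) from h1), mul_zero]
    · rw [indicator_of_notMem hyG]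
      have h6 : ∀ t ∈ Ioi (0 : ℝ), ENNReal.ofReal (t ^ 2) *
          B.indicator (fun x => ENNReal.ofReal (φ x)) (S (t • y, t)) =
            (fun _ => (0 : ℝ≥0∞)) t := by
        intro t ht
        rw [indicator_of_notMem (fun h => hyG ((hiff y hy t ht).1 h).2), mul_zero]
      rw [setLIntegral_congr_fun measurableSet_Ioi h6]
      simp
  have hFm : MeasurableSet (facet K S) := (face_compact hK).measurableSet
  rw [setLIntegral_congr_fun hFm e3, lintegral_indicator hG,
    Measure.restrict_restrict hG] at e2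
  have hc : Continuous fun y : E2 => φ (S (y, 1)) / 4 := by fun_prop
  have e4 : ∫ y in G ∩ facet K S, φ (S (y, 1)) / 4 =
      (∫⁻ y in G ∩ facet K S, ENNReal.ofReal (φ (S (y, 1)) / 4)).toReal :=
    integral_eq_lintegral_of_nonneg_ae
      (Eventually.of_forall fun y => div_nonneg (hφ0 _) (by norm_num)) hc.aestronglyMeasurable
  rw [integral_eq_lintegral_of_nonneg_ae (Eventually.of_forall fun x => hφ0 x)
    hφ.aestronglyMeasurable, e1, e2, ENNReal.toReal_mul, ENNReal.toReal_ofReal hJ.le, ← e4,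
    integral_div, inter_comm]
  ring

private theorem fd_mem (hK : IsBody K) (h0 : (0 : E3) ∈ interior K) (ha : a ∈ osup K)
    (hS : IsChart a S) {y : E2} (hy : y ∈ facet K S) {t : ℝ} (ht : 0 < t) :
    S (t • y, t) ∈ K ↔ t ≤ 1 := by
  constructor
  · intro h
    have h1 := ha _ h
    rwa [hS] at h1
  · intro h
    rw [fd_smul]
    exact hK.convex.smul_mem_of_zero_mem (interior_subset h0) hy ⟨ht.le, h⟩

private theorem fd_sym (h0 : (0 : E3) ∈ interior K) (ha : a ∈ osup K)
    (hS : IsChart a S) {y : E2} (hy : y ∈ facet K S) {t : ℝ} (ht : 0 < t) :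
    gauge K (-S (t • y, t)) = t * qfun K S y ∧ gauge K (S (t • y, t)) = t := by
  rw [fd_smul, ← smul_neg, gauge_smul_of_nonneg ht.le, gauge_smul_of_nonneg ht.le,
    face_gauge (mem_interior_iff_mem_nhds.1 h0) ha hS hy]
  exact ⟨rfl, mul_one t⟩

private theorem fd_Q (hK : IsBody K) (h0 : (0 : E3) ∈ interior K) :
    MeasurableSet {x : E3 | gauge K (-x) ≤ gauge K x} := by
  have hc := continuous_gauge hK.convex (mem_interior_iff_mem_nhds.1 h0)
  exact (isClosed_le (hc.comp continuous_neg) hc).measurableSet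

private theorem fd_sym_iff (hK : IsBody K) (h0 : (0 : E3) ∈ interior K) (ha : a ∈ osup K)
    (hS : IsChart a S) (y : E2) (hy : y ∈ facet K S) (t : ℝ) (ht : 0 < t) :
    S (t • y, t) ∈ K ∩ {x | gauge K (-x) ≤ gauge K x} ↔
      t ≤ 1 ∧ y ∈ {y | qfun K S y ≤ 1} := by
  obtain ⟨h1, h2⟩ := fd_sym h0 ha hS hy ht
  rw [mem_inter_iff, fd_mem hK h0 ha hS hy ht]
  refine and_congr Iff.rfl ?_
  show gauge K (-S (t • y, t)) ≤ gauge K (S (t • y, t)) ↔ qfun K S y ≤ 1
  rw [h1, h2]
  constructor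
  · intro h
    have h3 : t * qfun K S y ≤ t * 1 := by linarith
    exact le_of_mul_le_mul_left h3 ht
  · intro h
    have h3 := mul_le_mul_of_nonneg_left h ht.le
    linarith

private theorem fd_G (hK : IsBody K) (h0 : (0 : E3) ∈ interior K) (hS : IsChart a S) :
    MeasurableSet {y : E2 | qfun K S y ≤ 1} :=
  (isClosed_le (face_q hK h0 hS).1 continuous_const).measurableSet

private theorem fd_set : K ∩ csec K a ∩ {x | gauge K (-x) ≤ gauge K x} =
    (K ∩ {x | gauge K (-x) ≤ gauge K x}) ∩ csec K a := by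
  ext x
  constructor
  · rintro ⟨⟨h1, h2⟩, h3⟩
    exact ⟨⟨h1, h3⟩, h2⟩
  · rintro ⟨⟨h1, h3⟩, h2⟩
    exact ⟨⟨h1, h2⟩, h3⟩

private theorem fd_inner (hK : IsBody K) (h0 : (0 : E3) ∈ interior K)
    (hS : IsChart a S) {B : Set E3} (hB : MeasurableSet B) (hBK : B ⊆ K) {G : Set E2}
    (hG : MeasurableSet G)
    (hiff : ∀ y ∈ facet K S, ∀ t : ℝ, 0 < t → (S (t • y, t) ∈ B ↔ t ≤ 1 ∧ y ∈ G)) (b : E3) :
    ∫ x in B ∩ csec K a, inner ℝ b x =
      jac S / 4 * ∫ y in facet K S ∩ G, inner ℝ b (S (y, 1)) := by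
  have c1 : Continuous fun x : E3 => max (inner ℝ b x) (0 : ℝ) := by fun_prop
  have c2 : Continuous fun x : E3 => max (-inner ℝ b x) (0 : ℝ) := by fun_prop
  have h1 := fd_key hK h0 hS hB hG hiff c1 (fun x => le_max_right _ _) (by
    intro t x ht
    rw [inner_smul_right, mul_max_of_nonneg _ _ ht, mul_zero])
  have h2 := fd_key hK h0 hS hB hG hiff c2 (fun x => le_max_right _ _) (by
    intro t x ht
    rw [inner_smul_right, mul_max_of_nonneg _ _ ht, mul_zero, mul_neg])
  have hi : ∀ f : E3 → ℝ, Continuous f → IntegrableOn f (B ∩ csec K a) volume := fun f hf =>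
    (hf.continuousOn.integrableOn_compact hK.isCompact).mono_set (inter_subset_left.trans hBK)
  have hj : ∀ f : E2 → ℝ, Continuous f → IntegrableOn f (facet K S ∩ G) volume := fun f hf =>
    (hf.continuousOn.integrableOn_compact (face_compact hK)).mono_set inter_subset_left
  have e1 : ∫ x in B ∩ csec K a, inner ℝ b x =
      (∫ x in B ∩ csec K a, max (inner ℝ b x) (0 : ℝ)) -
        ∫ x in B ∩ csec K a, max (-inner ℝ b x) (0 : ℝ) := by
    rw [← integral_sub (hi _ c1) (hi _ c2)]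
    refine integral_congr_ae (Eventually.of_forall fun x => ?_)
    exact (max_zero_sub_max_neg_zero_eq_self _).symm
  have e2 : ∫ y in facet K S ∩ G, inner ℝ b (S (y, 1)) =
      (∫ y in facet K S ∩ G, max (inner ℝ b (S (y, 1))) (0 : ℝ)) -
        ∫ y in facet K S ∩ G, max (-inner ℝ b (S (y, 1))) (0 : ℝ) := by
    rw [← integral_sub (hj _ (by fun_prop)) (hj _ (by fun_prop))]
    refine integral_congr_ae (Eventually.of_forall fun x => ?_)
    exact (max_zero_sub_max_neg_zero_eq_self _).symm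
  rw [e1, e2, h1, h2]
  ring

theorem face_int (hK : IsBody K) (h0 : (0 : E3) ∈ interior K) (ha : a ∈ osup K)
    (hS : IsChart a S) {φ : E3 → ℝ} (hφ : Continuous φ) (hφ0 : ∀ x, 0 ≤ φ x)
    (hφ1 : ∀ (t : ℝ) (x : E3), 0 ≤ t → φ (t • x) = t * φ x) :
    ∫ x in K ∩ csec K a, φ x = jac S / 4 * ∫ y in facet K S, φ (S (y, 1)) := by
  have h := fd_key hK h0 hS hK.isCompact.measurableSet (G := univ) MeasurableSet.univ
    (fun y hy t ht => (fd_mem hK h0 ha hS hy ht).trans (by simp)) hφ hφ0 hφ1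
  rwa [inter_univ] at h

theorem face_int_sym (hK : IsBody K) (h0 : (0 : E3) ∈ interior K) (ha : a ∈ osup K)
    (hS : IsChart a S) {φ : E3 → ℝ} (hφ : Continuous φ) (hφ0 : ∀ x, 0 ≤ φ x)
    (hφ1 : ∀ (t : ℝ) (x : E3), 0 ≤ t → φ (t • x) = t * φ x) :
    ∫ x in K ∩ csec K a ∩ {x | gauge K (-x) ≤ gauge K x}, φ x =
      jac S / 4 * ∫ y in facet K S ∩ {y | qfun K S y ≤ 1}, φ (S (y, 1)) := by
  rw [fd_set]
  exact fd_key hK h0 hS (hK.isCompact.measurableSet.inter (fd_Q hK h0)) (fd_G hK h0 hS)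
    (fd_sym_iff hK h0 ha hS) hφ hφ0 hφ1

theorem face_int_inner (hK : IsBody K) (h0 : (0 : E3) ∈ interior K) (ha : a ∈ osup K)
    (hS : IsChart a S) (b : E3) :
    ∫ x in K ∩ csec K a, inner ℝ b x = jac S / 4 * ∫ y in facet K S, inner ℝ b (S (y, 1)) := by
  have h := fd_inner hK h0 hS hK.isCompact.measurableSet subset_rfl (G := univ)
    MeasurableSet.univ (fun y hy t ht => (fd_mem hK h0 ha hS hy ht).trans (by simp)) b
  rwa [inter_univ] at h

theorem face_int_sym_inner (hK : IsBody K) (h0 : (0 : E3) ∈ interior K) (ha : a ∈ osup K)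
    (hS : IsChart a S) (b : E3) :
    ∫ x in K ∩ csec K a ∩ {x | gauge K (-x) ≤ gauge K x}, inner ℝ b x =
      jac S / 4 * ∫ y in facet K S ∩ {y | qfun K S y ≤ 1}, inner ℝ b (S (y, 1)) := by
  rw [fd_set]
  exact fd_inner hK h0 hS (hK.isCompact.measurableSet.inter (fd_Q hK h0)) inter_subset_left
    (fd_G hK h0 hS) (fd_sym_iff hK h0 ha hS) b

theorem face_null (hK : IsBody K) (h0 : (0 : E3) ∈ interior K) (ha : a ∈ osup K)
    (hS : IsChart a S) (hq : ∃ y, qfun K S y < 1) :
    volume (csec K a ∩ {x | gauge K (-x) = gauge K x}) = 0 := by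
  have hc := continuous_gauge hK.convex (mem_interior_iff_mem_nhds.1 h0)
  have hN : MeasurableSet {x : E3 | gauge K (-x) = gauge K x} :=
    (isClosed_eq (hc.comp continuous_neg) hc).measurableSet
  have h1 := csec_polar hK h0 hS (f := {x : E3 | gauge K (-x) = gauge K x}.indicator 1)
    (measurable_one.indicator hN)
  rw [lintegral_indicator_one hN, Measure.restrict_apply hN, inter_comm] at h1
  rw [h1]
  have h2 : ∀ᵐ y ∂(volume : Measure E2), qfun K S y ≠ 1 := by
    have h := q_level_null hK h0 (S : (E2 × ℝ) →L[ℝ] E3) hq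
    exact measure_eq_zero_iff_ae_notMem.1 h
  have hFm : MeasurableSet (facet K S) := (face_compact hK).measurableSet
  have h3 : ∫⁻ y in facet K S, ∫⁻ t in Ioi (0 : ℝ), ENNReal.ofReal (t ^ 2) *
      {x : E3 | gauge K (-x) = gauge K x}.indicator (1 : E3 → ℝ≥0∞) (S (t • y, t)) =
        ∫⁻ _ in facet K S, 0 := by
    refine lintegral_congr_ae ?_
    filter_upwards [ae_restrict_of_ae h2, ae_restrict_mem hFm] with y hy hyF
    have h6 : ∀ t ∈ Ioi (0 : ℝ), ENNReal.ofReal (t ^ 2) *
        {x : E3 | gauge K (-x) = gauge K x}.indicator (1 : E3 → ℝ≥0∞) (S (t • y, t)) =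
          (fun _ => (0 : ℝ≥0∞)) t := by
      intro t ht
      have ht' : 0 < t := ht
      rw [indicator_of_notMem, mul_zero]
      intro h
      have h4 : gauge K (-S (t • y, t)) = gauge K (S (t • y, t)) := h
      obtain ⟨h5, h7⟩ := fd_sym h0 ha hS hyF ht'
      rw [h5, h7] at h4
      exact hy (mul_left_cancel₀ ht'.ne' (h4.trans (mul_one t).symm))
    rw [setLIntegral_congr_fun measurableSet_Ioi h6]
    simp
  rw [h3]
  simp

end Pool.Agent.Lib.MP_43065d_gt
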