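import Pool.Agent.Lib.MP_43065d_gt.GrpFV
import Pool.Agent.Lib.MP_43065d_gt.GrpB
import Pool.Agent.Lib.MP_43065d_gt.FaceD

/-!
# Module FaceEq: first variation for a face of the minimiser
-/

open MeasureTheory Set Filter Topology Metric
open scoped ENNReal NNReal Pointwise

namespace Pool.Agent.Lib.MP_43065d_gt

/-- membership in a body -/
private theorem fe_mem {K : Set E3} (hK : IsBody K) (h0 : (0 : E3) ∈ interior K) (x : E3) :
    x ∈ K ↔ gauge K x ≤ 1 := by
  rw [gauge_le_one_iff_mem_closure hK.convex (mem_interior_iff_mem_nhds.1 h0),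
    hK.isCompact.isClosed.closure_eq]

private theorem fe_bound (b : E3) {ρ : ℝ} {x : E3} (hx : x ∈ closedBall (0 : E3) ρ) :
    |inner ℝ b x| ≤ ‖b‖ * ρ := by
  rw [mem_closedBall_zero_iff] at hx
  exact (abs_real_inner_le_norm b x).trans (mul_le_mul_of_nonneg_left hx (norm_nonneg b))

private theorem fe_int (b : E3) {ρ : ℝ} {S : Set E3} (hS : S ⊆ closedBall (0 : E3) ρ)
    (_hm : MeasurableSet S) : IntegrableOn (fun x : E3 => inner ℝ b x) S := by
  have h1 : IntegrableOn (fun x : E3 => inner ℝ b x) (closedBall (0 : E3) ρ) :=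
    (continuous_const.inner continuous_id).continuousOn.integrableOn_compact
      (isCompact_closedBall _ _)
  exact h1.mono_set hS

/-- difference of the integrals over two sets -/
private theorem fe_diff (b : E3) {ρ : ℝ} {S T D : Set E3} (hS : S ⊆ closedBall (0 : E3) ρ)
    (hT : T ⊆ closedBall (0 : E3) ρ) (hSm : MeasurableSet S) (hTm : MeasurableSet T)
    (hD : MeasurableSet D) (hsub : symmDiff S T ⊆ D) (hDb : D ⊆ closedBall (0 : E3) ρ) :
    |(∫ x in S, inner ℝ b x) - ∫ x in T, inner ℝ b x| ≤ ‖b‖ * ρ * volume.real D := by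
  have hDf : volume D ≠ ⊤ := ne_top_of_le_ne_top
    (isCompact_closedBall (0 : E3) ρ).measure_lt_top.ne (measure_mono hDb)
  rw [← integral_indicator hSm, ← integral_indicator hTm, ← integral_sub
    ((integrable_indicator_iff hSm).2 (fe_int b hS hSm))
    ((integrable_indicator_iff hTm).2 (fe_int b hT hTm))]
  have h1 : ‖b‖ * ρ * volume.real D = ∫ x, D.indicator (fun _ => ‖b‖ * ρ) x := by
    rw [integral_indicator hD, setIntegral_const, smul_eq_mul, mul_comm]
  rw [h1, ← Real.norm_eq_abs]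
  refine norm_integral_le_of_norm_le ((integrable_indicator_iff hD).2
    (integrableOn_const hDf)) (Eventually.of_forall fun x => ?_)
  rw [Real.norm_eq_abs]
  by_cases hxD : x ∈ D
  · rw [indicator_of_mem hxD]
    by_cases h1 : x ∈ S <;> by_cases h2 : x ∈ T
    · rw [indicator_of_mem h1, indicator_of_mem h2, sub_self, abs_zero]
      exact (abs_nonneg _).trans (fe_bound b (hDb hxD))
    · rw [indicator_of_mem h1, indicator_of_notMem h2, sub_zero]
      exact fe_bound b (hDb hxD)
    · rw [indicator_of_notMem h1, indicator_of_mem h2, zero_sub, abs_neg]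
      exact fe_bound b (hDb hxD)
    · rw [indicator_of_notMem h1, indicator_of_notMem h2, sub_self, abs_zero]
      exact (abs_nonneg _).trans (fe_bound b (hDb hxD))
  · rw [indicator_of_notMem hxD]
    by_cases h1 : x ∈ S <;> by_cases h2 : x ∈ T
    · rw [indicator_of_mem h1, indicator_of_mem h2, sub_self, abs_zero]
    · exact absurd (hsub (Or.inl ⟨h1, h2⟩)) hxD
    · exact absurd (hsub (Or.inr ⟨h2, h1⟩)) hxD
    · rw [indicator_of_notMem h1, indicator_of_notMem h2, sub_self, abs_zero]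

/-- dominated convergence for integrals over sets in a ball -/
private theorem fe_lim (b : E3) {ρ : ℝ} {S : ℕ → Set E3} {T : Set E3}
    (hS : ∀ j, S j ⊆ closedBall (0 : E3) ρ) (hSm : ∀ j, MeasurableSet (S j))
    (hTm : MeasurableSet T) (hae : ∀ᵐ x : E3, ∀ᶠ j in atTop, (x ∈ S j ↔ x ∈ T)) :
    Tendsto (fun j => ∫ x in S j, inner ℝ b x) atTop (𝓝 (∫ x in T, inner ℝ b x)) := by
  simp_rw [← integral_indicator (hSm _), ← integral_indicator hTm]
  refine tendsto_integral_of_dominated_convergence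
    ((closedBall (0 : E3) ρ).indicator fun _ => ‖b‖ * ρ) (fun j => ?_) ?_ (fun j => ?_) ?_
  · exact (((integrable_indicator_iff (hSm j)).2 (fe_int b (hS j) (hSm j)))).aestronglyMeasurable
  · exact (integrable_indicator_iff measurableSet_closedBall).2
      (integrableOn_const (isCompact_closedBall (0 : E3) ρ).measure_lt_top.ne)
  · refine Eventually.of_forall fun x => ?_
    rw [Real.norm_eq_abs]
    by_cases hx : x ∈ S j
    · rw [indicator_of_mem hx, indicator_of_mem (hS j hx)]
      exact fe_bound b (hS j hx)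
    · rw [indicator_of_notMem hx, abs_zero]
      by_cases hb : x ∈ closedBall (0 : E3) ρ
      · rw [indicator_of_mem hb]
        exact (abs_nonneg _).trans (fe_bound b hb)
      · rw [indicator_of_notMem hb]
  · filter_upwards [hae] with x hx
    refine tendsto_const_nhds.congr' ?_
    filter_upwards [hx] with j hj
    by_cases h : x ∈ T
    · rw [indicator_of_mem h, indicator_of_mem (hj.2 h)]
    · rw [indicator_of_notMem h, indicator_of_notMem fun h' => h (hj.1 h')]

theorem face_eq {K₀ : Set E3} {m : ℝ} (h : IsMin K₀ m) {a : E3} (ha : a ∈ osup K₀)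
    (hz : ∃ z, inner ℝ a z = 1 ∧ gauge K₀ (-z) < 1) (b : E3) :
    2 * ∫ x in K₀ ∩ csec K₀ a ∩ {x | gauge K₀ (-x) ≤ gauge K₀ x}, inner ℝ b x =
      m * ∫ x in K₀ ∩ csec K₀ a, inner ℝ b x := by
  obtain ⟨r, R, hr, hnice⟩ := exists_nice h
  have hη : ∀ j : ℕ, (0 : ℝ) < 1 / ((j : ℝ) + 1) := fun j => by positivity
  choose A hA using fun j : ℕ => hnice (1 / ((j : ℝ) + 1)) (hη j)
  have h1 : ∀ j, closedBall 0 r ⊆ poly (A j) := fun j => (hA j).ball
  have h2 : ∀ j, poly (A j) ⊆ closedBall 0 R := fun j => (hA j).bdd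
  have hη0 : Tendsto (fun j : ℕ => 1 / ((j : ℝ) + 1)) atTop (𝓝 0) :=
    tendsto_one_div_add_atTop_nhds_zero_nat
  have hV : Tendsto (fun j => volume.real (symmDiff (poly (A j)) K₀)) atTop (𝓝 0) :=
    squeeze_zero (fun j => measureReal_nonneg) (fun j => (hA j).near) hη0
  have hP : ∀ j, IsBody (poly (A j)) ∧ (0 : E3) ∈ interior (poly (A j)) := fun j =>
    poly_body hr (h1 j) (h2 j)
  have hg : ∀ x : E3, Tendsto (fun j => gauge (poly (A j)) x) atTop (𝓝 (gauge K₀ x)) := fun x =>
    gauge_tendsto_of_volume h.body h.zero hr (fun j => poly (A j)) (fun j => (hP j).1) h1 h2 hV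
      tendsto_const_nhds
  have hn0 : K₀ ∈ 𝓝 (0 : E3) := mem_interior_iff_mem_nhds.1 h.zero
  have hnj : ∀ j, poly (A j) ∈ 𝓝 (0 : E3) := fun j => mem_interior_iff_mem_nhds.1 (hP j).2
  obtain ⟨R', hR'⟩ := h.body.isCompact.isBounded.subset_closedBall (0 : E3)
  set ρ := max R R' with hρ
  have hPρ : ∀ j, poly (A j) ⊆ closedBall 0 ρ := fun j =>
    (h2 j).trans (closedBall_subset_closedBall (le_max_left _ _))
  have hKρ : K₀ ⊆ closedBall 0 ρ := hR'.trans (closedBall_subset_closedBall (le_max_right _ _))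
  have hρ0 : 0 ≤ ρ := by
    have := hKρ (interior_subset h.zero)
    rw [mem_closedBall_zero_iff, norm_zero] at this
    exact this
  -- measurable sets
  have hcg : Continuous (gauge K₀) := continuous_gauge h.body.convex hn0
  have hcj : ∀ j, Continuous (gauge (poly (A j))) := fun j =>
    continuous_gauge (hP j).1.convex (hnj j)
  have hYm : MeasurableSet {x : E3 | gauge K₀ (-x) ≤ gauge K₀ x} :=
    (isClosed_le (hcg.comp continuous_neg) hcg).measurableSet
  have hYj : ∀ j, MeasurableSet {x : E3 | gauge (poly (A j)) (-x) ≤ gauge (poly (A j)) x} :=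
    fun j => (isClosed_le ((hcj j).comp continuous_neg) (hcj j)).measurableSet
  have hCm : MeasurableSet (csec K₀ a) := (csec_closed h.body.convex hn0 a).measurableSet
  have hPm : ∀ j, MeasurableSet (poly (A j)) := fun j => (poly_convex (A j)).2.measurableSet
  have hKm : MeasurableSet K₀ := h.body.isCompact.measurableSet
  -- step 1
  obtain ⟨κ₁, hκ₁, hstep1⟩ : ∃ κ₁ > 0, ∀ᶠ j in atTop, ∀ c : E3, ‖c - a‖ < κ₁ →
      ∃ z', inner ℝ c z' = 1 ∧ gauge (poly (A j)) (-z') < 1 := by
    obtain ⟨z, hz1, hz2⟩ := hz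
    have hg0 : 0 ≤ gauge K₀ (-z) := gauge_nonneg _
    set θ := (1 + gauge K₀ (-z)) / 2 with hθ
    have hθ1 : θ < 1 := by rw [hθ]; linarith
    have hθ2 : gauge K₀ (-z) < θ := by rw [hθ]; linarith
    have hθ0 : 0 < θ := lt_of_le_of_lt hg0 hθ2
    refine ⟨(1 - θ) / (‖z‖ + 1), by have := norm_nonneg z; apply div_pos <;> linarith, ?_⟩
    filter_upwards [(hg (-z)).eventually_lt_const hθ2] with j hj c hc
    have hzn := norm_nonneg z
    have hcz : θ < inner ℝ c z := by
      have e1 : inner ℝ c z = 1 + inner ℝ (c - a) z := by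
        rw [inner_sub_left, hz1]
        ring
      have e2 : |inner ℝ (c - a) z| ≤ ‖c - a‖ * ‖z‖ := abs_real_inner_le_norm _ _
      have e3 : ‖c - a‖ * (‖z‖ + 1) < 1 - θ := by
        rwa [lt_div_iff₀ (by linarith)] at hc
      have e4 := (abs_le.1 e2).1
      have e5 : 0 ≤ ‖c - a‖ := norm_nonneg _
      rw [e1]
      nlinarith
    have hcz0 : 0 < inner ℝ c z := hθ0.trans hcz
    refine ⟨(inner ℝ c z)⁻¹ • z, ?_, ?_⟩
    · rw [inner_smul_right, inv_mul_cancel₀ hcz0.ne']
    · rw [← smul_neg, gauge_smul_of_nonneg (inv_nonneg.2 hcz0.le), smul_eq_mul,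
        inv_mul_lt_iff₀ hcz0, mul_one]
      exact hj.trans hcz
  -- step 4: the limits
  have hfr : ∀ᵐ x : E3, gauge K₀ x ≠ 1 := by
    have h3 : volume (frontier K₀) = 0 := h.body.convex.addHaar_frontier volume
    rw [ae_iff]
    refine measure_mono_null (fun x hx => ?_) h3
    rw [← gauge_eq_one_iff_mem_frontier h.body.convex hn0]
    simpa using hx
  have hsec : ∀ᵐ x : E3, x ∈ csec K₀ a → gauge K₀ (-x) ≠ gauge K₀ x := by
    obtain ⟨z, hz1, hz2⟩ := hz
    have ha0 : a ≠ 0 := by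
      rintro rfl
      rw [inner_zero_left] at hz1
      exact zero_ne_one hz1
    obtain ⟨S, hS⟩ := exists_chart ha0
    have hq : ∃ y, qfun K₀ S y < 1 := by
      refine ⟨(S.symm z).1, ?_⟩
      have e1 : (S.symm z).2 = 1 := by
        have := hS (S.symm z).1 (S.symm z).2
        rw [Prod.mk.eta, S.apply_symm_apply, hz1] at this
        exact this.symm
      have e2 : S ((S.symm z).1, 1) = z := by
        rw [← e1, Prod.mk.eta, S.apply_symm_apply]
      unfold qfun
      change gauge K₀ (-(S ((S.symm z).1, 1))) < 1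
      rw [e2]
      exact hz2
    have h3 := face_null h.body h.zero ha hS hq
    rw [ae_iff]
    refine measure_mono_null (fun x hx => ?_) h3
    simp only [mem_ofPred_eq, Classical.not_imp, not_not] at hx
    exact hx
  have hmemev : ∀ x : E3, gauge K₀ x ≠ 1 → ∀ᶠ j in atTop, (x ∈ poly (A j) ↔ x ∈ K₀) := by
    intro x hx
    rcases lt_or_gt_of_ne hx with hlt | hgt
    · filter_upwards [(hg x).eventually_lt_const hlt] with j hj
      rw [fe_mem (hP j).1 (hP j).2, fe_mem h.body h.zero]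
      exact ⟨fun _ => hlt.le, fun _ => hj.le⟩
    · filter_upwards [(hg x).eventually_const_lt hgt] with j hj
      rw [fe_mem (hP j).1 (hP j).2, fe_mem h.body h.zero]
      exact ⟨fun h' => absurd h' (not_le.2 hj), fun h' => absurd h' (not_le.2 hgt)⟩
  have hL1 : Tendsto (fun j => ∫ x in poly (A j) ∩ csec K₀ a ∩
      {x | gauge (poly (A j)) (-x) ≤ gauge (poly (A j)) x}, inner ℝ b x) atTop
      (𝓝 (∫ x in K₀ ∩ csec K₀ a ∩ {x | gauge K₀ (-x) ≤ gauge K₀ x}, inner ℝ b x)) := by
    refine fe_lim b (ρ := ρ) (fun j => (inter_subset_left.trans inter_subset_left).trans (hPρ j))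
      (fun j => ((hPm j).inter hCm).inter (hYj j)) ((hKm.inter hCm).inter hYm) ?_
    filter_upwards [hfr, hsec] with x hx1 hx2
    by_cases hxc : x ∈ csec K₀ a
    · have h3 : ∀ᶠ j in atTop, (gauge (poly (A j)) (-x) ≤ gauge (poly (A j)) x ↔
          gauge K₀ (-x) ≤ gauge K₀ x) := by
        rcases lt_or_gt_of_ne (hx2 hxc) with hlt | hgt
        · filter_upwards [(hg (-x)).eventually_lt (hg x) hlt] with j hj
          exact ⟨fun _ => hlt.le, fun _ => hj.le⟩
        · filter_upwards [(hg x).eventually_lt (hg (-x)) hgt] with j hj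
          exact ⟨fun h' => absurd h' (not_le.2 hj), fun h' => absurd h' (not_le.2 hgt)⟩
      filter_upwards [hmemev x hx1, h3] with j hj1 hj2
      simp only [mem_inter_iff, mem_ofPred_eq, hj1, hj2]
    · refine Eventually.of_forall fun j => ?_
      simp only [mem_inter_iff, hxc, and_false, false_and]
  have hL2 : Tendsto (fun j => ∫ x in poly (A j) ∩ csec K₀ a, inner ℝ b x) atTop
      (𝓝 (∫ x in K₀ ∩ csec K₀ a, inner ℝ b x)) := by
    refine fe_lim b (ρ := ρ) (fun j => inter_subset_left.trans (hPρ j))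
      (fun j => (hPm j).inter hCm) (hKm.inter hCm) ?_
    filter_upwards [hfr] with x hx1
    filter_upwards [hmemev x hx1] with j hj1
    simp only [mem_inter_iff, hj1]
  set L₁ := ∫ x in K₀ ∩ csec K₀ a ∩ {x | gauge K₀ (-x) ≤ gauge K₀ x}, inner ℝ b x with hL1d
  set L₂ := ∫ x in K₀ ∩ csec K₀ a, inner ℝ b x with hL2d
  set B := ‖b‖ * ρ with hB
  have hB0 : 0 ≤ B := mul_nonneg (norm_nonneg b) hρ0
  have hlimC := ((hL1.const_mul 2).sub (hL2.const_mul m)).abs
  -- the estimate
  have key : ∀ ε > 0, |2 * L₁ - m * L₂| ≤ (2 + m) * B * ε := by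
    intro ε hε
    obtain ⟨κ₀, hκ₀, hsy⟩ := grp_symm h.body h.zero hr h1 h2 hV ha ρ hε
    set κ := min κ₀ κ₁ with hκ
    have hκpos : 0 < κ := lt_min hκ₀ hκ₁
    have hev := hsy κ hκpos (min_le_left _ _)
    have hrhs : Tendsto (fun j : ℕ => 1 / ((j : ℝ) + 1) *
        (B * volume.real (closedBall (0 : E3) ρ)) + (2 + m) * B * ε) atTop
        (𝓝 (0 * (B * volume.real (closedBall (0 : E3) ρ)) + (2 + m) * B * ε)) :=
      (hη0.mul_const _).add_const _
    rw [zero_mul, zero_add] at hrhs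
    refine le_of_tendsto_of_tendsto hlimC hrhs ?_
    filter_upwards [hstep1, hev] with j hj1 hj2
    have hGm := grp_meas (A j) κ a
    -- first variation
    have e1 := grp_fv hr (h1 j) (h2 j) (hη j).le (hA j).center (hA j).crit (a := a) (κ := κ)
      (fun c _ hc => hj1 c (hc.trans_le (min_le_right _ _))) b
    have e2 : ∫ x in poly (A j), |inner ℝ b x| ≤ B * volume.real (closedBall (0 : E3) ρ) := by
      have e3 : ∫ x in poly (A j), |inner ℝ b x| ≤ ∫ x in poly (A j), B := by
        refine setIntegral_mono_on (fe_int b (hPρ j) (hPm j)).abs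
          (integrableOn_const (hP j).1.isCompact.measure_lt_top.ne) (hPm j) fun x hx => ?_
        exact fe_bound b (hPρ j hx)
      refine e3.trans ?_
      rw [setIntegral_const, smul_eq_mul, mul_comm]
      exact mul_le_mul_of_nonneg_left (measureReal_mono (hPρ j)
        (isCompact_closedBall (0 : E3) ρ).measure_lt_top.ne) hB0
    have e3 := e1.trans (mul_le_mul_of_nonneg_left e2 (hη j).le)
    have hDm : MeasurableSet (symmDiff (grp (A j) κ a) (csec K₀ a) ∩ closedBall 0 ρ) :=
      (hGm.symmDiff hCm).inter measurableSet_closedBall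
    have e4 := fe_diff b (ρ := ρ)
      (S := poly (A j) ∩ grp (A j) κ a ∩ {x | gauge (poly (A j)) (-x) ≤ gauge (poly (A j)) x})
      (T := poly (A j) ∩ csec K₀ a ∩ {x | gauge (poly (A j)) (-x) ≤ gauge (poly (A j)) x})
      (D := symmDiff (grp (A j) κ a) (csec K₀ a) ∩ closedBall 0 ρ)
      ((inter_subset_left.trans inter_subset_left).trans (hPρ j))
      ((inter_subset_left.trans inter_subset_left).trans (hPρ j))
      (((hPm j).inter hGm).inter (hYj j)) (((hPm j).inter hCm).inter (hYj j)) hDm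
      (by
        rintro x (⟨hx1, hx2⟩ | ⟨hx1, hx2⟩)
        · exact ⟨Or.inl ⟨hx1.1.2, fun h' => hx2 ⟨⟨hx1.1.1, h'⟩, hx1.2⟩⟩, hPρ j hx1.1.1⟩
        · exact ⟨Or.inr ⟨hx1.1.2, fun h' => hx2 ⟨⟨hx1.1.1, h'⟩, hx1.2⟩⟩, hPρ j hx1.1.1⟩)
      inter_subset_right
    have e5 := fe_diff b (ρ := ρ)
      (S := poly (A j) ∩ grp (A j) κ a) (T := poly (A j) ∩ csec K₀ a)
      (D := symmDiff (grp (A j) κ a) (csec K₀ a) ∩ closedBall 0 ρ)
      (inter_subset_left.trans (hPρ j)) (inter_subset_left.trans (hPρ j))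
      ((hPm j).inter hGm) ((hPm j).inter hCm) hDm
      (by
        rintro x (⟨hx1, hx2⟩ | ⟨hx1, hx2⟩)
        · exact ⟨Or.inl ⟨hx1.2, fun h' => hx2 ⟨hx1.1, h'⟩⟩, hPρ j hx1.1⟩
        · exact ⟨Or.inr ⟨hx1.2, fun h' => hx2 ⟨hx1.1, h'⟩⟩, hPρ j hx1.1⟩)
      inter_subset_right
    have e6 : B * volume.real (symmDiff (grp (A j) κ a) (csec K₀ a) ∩ closedBall 0 ρ) ≤ B * ε :=
      mul_le_mul_of_nonneg_left hj2 hB0
    have hm := h.pos
    generalize (∫ x in poly (A j) ∩ grp (A j) κ a ∩
      {x | gauge (poly (A j)) (-x) ≤ gauge (poly (A j)) x}, inner ℝ b x) = I₁ at e3 e4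
    generalize (∫ x in poly (A j) ∩ grp (A j) κ a, inner ℝ b x) = I₂ at e3 e5
    generalize (∫ x in poly (A j) ∩ csec K₀ a ∩
      {x | gauge (poly (A j)) (-x) ≤ gauge (poly (A j)) x}, inner ℝ b x) = C₁ at e4 ⊢
    generalize (∫ x in poly (A j) ∩ csec K₀ a, inner ℝ b x) = C₂ at e5 ⊢
    have e4' := e4.trans e6
    have e5' := e5.trans e6
    have e7 : |m * (I₂ - C₂)| ≤ m * (B * ε) := by
      rw [abs_mul, abs_of_pos hm]
      exact mul_le_mul_of_nonneg_left e5' hm.le
    rw [abs_le] at e3 e4' e7 ⊢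
    constructor <;> nlinarith [e3.1, e3.2, e4'.1, e4'.2, e7.1, e7.2]
  -- conclusion
  have hfin : |2 * L₁ - m * L₂| ≤ 0 := by
    refine le_of_forall_pos_le_add fun δ hδ => ?_
    rw [zero_add]
    have hm := h.pos
    have hc : 0 < (2 + m) * B + 1 := by positivity
    refine (key (δ / ((2 + m) * B + 1)) (div_pos hδ hc)).trans ?_
    rw [mul_div_assoc', div_le_iff₀ hc]
    nlinarith
  have h4 := abs_nonpos_iff.1 hfin
  linarith

end Pool.Agent.Lib.MP_43065d_gt
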