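import Pool.Agent.Lib.MP_43065d_gt.Defs
import Pool.Agent.Lib.MP_43065d_gt.Pl.PMain

/-!
# Module PlanarC: the planar lemma under the convex order condition (interface)

`cx` : the uniform distribution of `G = F ∩ {q ≤ 1}` is smaller than that of `F` in the convex order
(tested with the functions `ℓ⁺`, `ℓ` affine).  It holds for the two dimensional faces of a minimiser.
-/

open MeasureTheory Set Filter Topology Metric
open scoped ENNReal NNReal Pointwise

namespace Pool.Agent.Lib.MP_43065d_gt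

/-- hypotheses of the planar lemma -/
structure PConfC (F : Set E2) (q : E2 → ℝ) : Prop where
  convex : Convex ℝ F
  isCompact : IsCompact F
  interior_nonempty : (interior F).Nonempty
  q_convex : ConvexOn ℝ univ q
  q_lip : ∃ L : ℝ≥0, LipschitzWith L q
  q_pos : ∀ y, 0 < q y
  key : ∀ x, q x ≤ 1 → ∀ y ∈ F,
    q ((1 + (1 - q x) / (1 + q x)) • x - ((1 - q x) / (1 + q x)) • y) ≤ 1
  pos : 0 < volume.real (F ∩ {y | q y ≤ 1})
  area : 4 * volume.real (F ∩ {y | q y ≤ 1}) ≤ volume.real F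
  moment : ∀ v : E2, volume.real F * ∫ y in F ∩ {y | q y ≤ 1}, inner ℝ v y =
    volume.real (F ∩ {y | q y ≤ 1}) * ∫ y in F, inner ℝ v y
  cx : ∀ (v : E2) (c : ℝ),
    volume.real F * ∫ y in F ∩ {y | q y ≤ 1}, max (inner ℝ v y + c) 0 ≤
      volume.real (F ∩ {y | q y ≤ 1}) * ∫ y in F, max (inner ℝ v y + c) 0

theorem planarC {F : Set E2} {q : E2 → ℝ} (h : PConfC F q) :
    (∫ y in F ∩ {y | q y ≤ 1}, (q y)⁻¹ ^ 3 ≤ 3 * volume.real (F ∩ {y | q y ≤ 1})) ∧
    (4 * volume.real (F ∩ {y | q y ≤ 1}) = volume.real F →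
      ∫ y in F ∩ {y | q y ≤ 1}, (q y)⁻¹ ^ 3 = 3 * volume.real (F ∩ {y | q y ≤ 1}) →
      ∃ c ∈ F, q c ≤ 1 / 3 ∧ ∀ y, q y ≤ 1 → ∃ y' ∈ F, y = c - (1 / 2 : ℝ) • (y' - c)) :=
  planar_main ⟨h.convex, h.isCompact, h.interior_nonempty, h.q_convex, h.q_lip, h.q_pos, h.key,
    h.pos, h.area, h.moment, h.cx⟩

end Pool.Agent.Lib.MP_43065d_gt
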