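import Pool.Agent.Lib.MP_43065d_gt.FaceEq
import Pool.Agent.Lib.MP_43065d_gt.FaceC
import Pool.Agent.Lib.MP_43065d_gt.PlanarC
import Pool.Agent.Lib.MP_43065d_gt.FaceB

/-!
# Module FacePC: a two dimensional face of the minimiser satisfies the hypotheses of the planar lemma

`F = facet K₀ S`, `q = qfun K₀ S`, `G = F ∩ {q ≤ 1}`.
PROOF (compare `config_pconf`, `qint_eq` in Exact.lean, the same computations).  For `v : E2`, `c : ℝ` there is `b : E3` with
`⟪b, S (y, t)⟫ = ⟪v, y⟫ + c t` (Riesz, `InnerProductSpace.toDual`, for the continuous functional `(y, t) ↦ ⟪v, y⟫ + c t` composed with `S.symm`).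
`face_moment`: `face_eq` with this `b` (the `z` is `S (y, 1)` with `q y < 1`), `face_int_sym_inner`, `face_int_inner`, `jac > 0`.
`face_area`: `v = 0`, `c = 1`.  `face_pconf`: convex, compact: `face_convex`, `face_compact`; nonempty interior: a convex set in `E2` with positive
volume has nonempty interior (`face_vol`, `jac > 0`; `Convex.interior_nonempty_of_measure_ne_zero`-type lemma, or: if the interior is empty then `F ⊆ frontier F` (closed), which is
null by `Convex.addHaar_frontier`); `q_convex`: `gauge_add_le`, `gauge_smul_of_nonneg`, `y ↦ -S (y,1)` affine; `q_lip`: `Convex.lipschitz_gauge`; `q_pos`: `face_q`;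
`key`: as in `config_pconf`; `pos`, `area`: `vol G = m/2 vol F`, `0 < m ≤ 1/2`; `moment`: `face_moment` with `c = 0`; `cx`: `face_c` with the `b` of `(v, c)`:
`2 ∫_G ℓ⁺ ≤ m ∫_F ℓ⁺`, multiply by `vol F / 2`.
`face_qint`: `max (q⁻¹^3 - 1) 0` is `q⁻¹^3 - 1` on `G` and `0` on `F \ G`.
-/

open MeasureTheory Set Filter Topology Metric
open scoped ENNReal NNReal Pointwise

namespace Pool.Agent.Lib.MP_43065d_gt

private theorem fp_absorb {K : Set E3} (h0 : (0 : E3) ∈ interior K) : Absorbent ℝ K :=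
  absorbent_nhds_zero (mem_interior_iff_mem_nhds.mp h0)

private theorem fp_comb (S : (E2 × ℝ) ≃L[ℝ] E3) (y z : E2) {s t : ℝ} (hst : s + t = 1) :
    S (s • y + t • z, 1) = s • S (y, 1) + t • S (z, 1) := by
  rw [← map_smul, ← map_smul, ← map_add]
  congr 1
  ext1 <;> simp [hst]

private theorem fp_lip {K : Set E3} (hK : IsBody K) (h0 : (0 : E3) ∈ interior K)
    (S : (E2 × ℝ) ≃L[ℝ] E3) : ∃ L : ℝ≥0, LipschitzWith L (qfun K S) := by
  obtain ⟨L, hL⟩ := hK.convex.lipschitz_gauge (mem_interior_iff_mem_nhds.mp h0)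
  have h1 : LipschitzWith 1 (fun y : E2 => ((y, (1 : ℝ)) : E2 × ℝ)) := by
    intro x y
    simp [Prod.edist_eq]
  have h2 := (S.lipschitz.comp h1).neg
  exact ⟨_, hL.comp h2⟩

theorem face_qint {K : Set E3} (hK : IsBody K) (h0 : (0 : E3) ∈ interior K) {a : E3}
    {S : (E2 × ℝ) ≃L[ℝ] E3} (hS : IsChart a S) :
    Qint (facet K S) (qfun K S) =
      (∫ y in facet K S ∩ {y | qfun K S y ≤ 1}, (qfun K S y)⁻¹ ^ 3) -
        volume.real (facet K S ∩ {y | qfun K S y ≤ 1}) := by
  obtain ⟨hcont, hpos⟩ := face_q hK h0 hS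
  have hFc : IsCompact (facet K S) := face_compact hK
  have hGc : IsCompact (facet K S ∩ {y | qfun K S y ≤ 1}) :=
    hFc.inter_right (isClosed_le hcont continuous_const)
  unfold Qint
  rw [setIntegral_eq_of_subset_of_forall_sdiff_eq_zero
    (f := fun y => max ((qfun K S y)⁻¹ ^ 3 - 1) 0) hFc.measurableSet
    (inter_subset_left : facet K S ∩ {y | qfun K S y ≤ 1} ⊆ facet K S)]
  · have e1 : ∫ y in facet K S ∩ {y | qfun K S y ≤ 1}, max ((qfun K S y)⁻¹ ^ 3 - 1) 0 =
        ∫ y in facet K S ∩ {y | qfun K S y ≤ 1}, ((qfun K S y)⁻¹ ^ 3 - 1) := by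
      refine setIntegral_congr_fun hGc.measurableSet fun y hy => ?_
      have h1 : 1 ≤ (qfun K S y)⁻¹ := (one_le_inv₀ (hpos y)).mpr hy.2
      have h2 : 1 ≤ (qfun K S y)⁻¹ ^ 3 := one_le_pow₀ h1
      exact max_eq_left (by linarith)
    rw [e1, integral_sub]
    · simp
    · refine ContinuousOn.integrableOn_compact hGc ?_
      exact ((hcont.inv₀ fun y => (hpos y).ne').pow 3).continuousOn
    · exact integrableOn_const (hs := hGc.measure_lt_top.ne)
  · rintro y ⟨hy, hy2⟩
    have h1 : 1 < qfun K S y := by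
      by_contra hc
      exact hy2 ⟨hy, not_lt.mp hc⟩
    have h2 : (qfun K S y)⁻¹ ≤ 1 := inv_le_one_of_one_le₀ h1.le
    have h3 : (qfun K S y)⁻¹ ^ 3 ≤ 1 := pow_le_one₀ (inv_nonneg.mpr (hpos y).le) h2
    exact max_eq_right (by linarith)

/-- affine functions on the plane as inner products -/
private theorem fp_riesz (S : (E2 × ℝ) ≃L[ℝ] E3) (v : E2) (c : ℝ) :
    ∃ b : E3, ∀ y : E2, inner ℝ b (S (y, 1)) = inner ℝ v y + c := by
  let L : E3 →L[ℝ] ℝ :=
    ((innerSL ℝ v).coprod (c • ContinuousLinearMap.id ℝ ℝ)).comp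
      (S.symm : E3 →L[ℝ] (E2 × ℝ))
  refine ⟨(InnerProductSpace.toDual ℝ E3).symm L, fun y => ?_⟩
  rw [InnerProductSpace.toDual_symm_apply]
  simp [L]

private theorem face_moment {K₀ : Set E3} {m : ℝ} (h : IsMin K₀ m) {a : E3} (ha : a ∈ osup K₀)
    {S : (E2 × ℝ) ≃L[ℝ] E3} (hS : IsChart a S) (hq : ∃ y, qfun K₀ S y < 1) (v : E2) (c : ℝ) :
    ∫ y in facet K₀ S ∩ {y | qfun K₀ S y ≤ 1}, (inner ℝ v y + c) =
      m / 2 * ∫ y in facet K₀ S, (inner ℝ v y + c) := by
  obtain ⟨b, hb⟩ := fp_riesz S v c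
  obtain ⟨y₀, hy₀⟩ := hq
  have hJ := (jac_spec S).1
  have h1 := face_eq h ha ⟨S (y₀, 1), hS y₀ 1, hy₀⟩ b
  rw [face_int_sym_inner h.body h.zero ha hS b, face_int_inner h.body h.zero ha hS b] at h1
  simp_rw [hb] at h1
  generalize (∫ y in facet K₀ S ∩ {y | qfun K₀ S y ≤ 1}, (inner ℝ v y + c)) = A at h1 ⊢
  generalize (∫ y in facet K₀ S, (inner ℝ v y + c)) = B at h1 ⊢
  have h2 : jac S / 4 * (2 * A) = jac S / 4 * (m * B) := by linarith
  have h3 := mul_left_cancel₀ (by positivity : jac S / 4 ≠ 0) h2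
  linarith

theorem face_area {K₀ : Set E3} {m : ℝ} (h : IsMin K₀ m) {a : E3} (ha : a ∈ osup K₀)
    {S : (E2 × ℝ) ≃L[ℝ] E3} (hS : IsChart a S) (hq : ∃ y, qfun K₀ S y < 1) :
    volume.real (facet K₀ S ∩ {y | qfun K₀ S y ≤ 1}) = m / 2 * volume.real (facet K₀ S) := by
  have := face_moment h ha hS hq 0 1
  simpa using this

theorem face_pconf {K₀ : Set E3} {m : ℝ} (h : IsMin K₀ m) (hm2 : m ≤ 1 / 2) {a : E3}
    (ha : a ∈ osup K₀) (hv : 0 < volume.real (K₀ ∩ csec K₀ a))
    {S : (E2 × ℝ) ≃L[ℝ] E3} (hS : IsChart a S) (hq : ∃ y, qfun K₀ S y < 1) :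
    PConfC (facet K₀ S) (qfun K₀ S) := by
  have hJ := (jac_spec S).1
  have hG := face_area h ha hS hq
  have hcv : Convex ℝ (facet K₀ S) := face_convex h.body
  have hFc : IsCompact (facet K₀ S) := face_compact h.body
  obtain ⟨hcont, hpos⟩ := face_q h.body h.zero hS
  have hab := fp_absorb h.zero
  have hvF : 0 < volume.real (facet K₀ S) := by
    rw [face_vol h.body h.zero ha hS] at hv
    exact pos_of_mul_pos_right hv (by positivity)
  have hm := h.pos
  refine ⟨hcv, hFc, ?_, ?_, fp_lip h.body h.zero S, hpos, ?_, ?_, ?_, ?_, ?_⟩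
  · by_contra hne
    rw [not_nonempty_iff_eq_empty] at hne
    have h1 : volume (frontier (facet K₀ S)) = 0 := hcv.addHaar_frontier volume
    rw [frontier, hFc.isClosed.closure_eq, hne, sdiff_empty] at h1
    rw [measureReal_def, h1] at hvF
    simp at hvF
  · refine ⟨convex_univ, fun x _ y _ s t hs ht hst => ?_⟩
    unfold qfun
    rw [fp_comb S x y hst]
    have e : -(s • S (x, 1) + t • S (y, 1)) = s • (-S (x, 1)) + t • (-S (y, 1)) := by
      rw [smul_neg, smul_neg]; abel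
    rw [e]
    refine (gauge_add_le h.body.convex hab _ _).trans ?_
    rw [gauge_smul_of_nonneg hs, gauge_smul_of_nonneg ht]
  · intro x hx y hy
    have hq := hpos x
    set l := (1 - qfun K₀ S x) / (1 + qfun K₀ S x) with hl
    have hl0 : 0 ≤ l := div_nonneg (by linarith) (by linarith)
    have hl1 : l * (1 + qfun K₀ S x) = 1 - qfun K₀ S x := by
      rw [hl]; field_simp
    have e1 : (1 + l) • x - l • y = (1 + l) • x + (-l) • y := by
      rw [neg_smul, sub_eq_add_neg]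
    have e2 : S ((1 + l) • x - l • y, 1) = (1 + l) • S (x, 1) + (-l) • S (y, 1) := by
      rw [e1]; exact fp_comb S x y (by ring)
    have e3 : -S ((1 + l) • x - l • y, 1) = (1 + l) • (-S (x, 1)) + l • S (y, 1) := by
      rw [e2, neg_smul, smul_neg]; abel
    have hy1 : gauge K₀ (S (y, 1)) ≤ 1 := gauge_le_one_of_mem hy
    change gauge K₀ (-S ((1 + l) • x - l • y, 1)) ≤ 1
    rw [e3]
    refine (gauge_add_le h.body.convex hab _ _).trans ?_
    rw [gauge_smul_of_nonneg (by linarith : (0 : ℝ) ≤ 1 + l), gauge_smul_of_nonneg hl0]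
    change (1 + l) * qfun K₀ S x + l * gauge K₀ (S (y, 1)) ≤ 1
    nlinarith [mul_le_mul_of_nonneg_left hy1 hl0]
  · rw [hG]
    positivity
  · rw [hG]
    nlinarith
  · intro v
    have h1 := face_moment h ha hS hq v 0
    simp only [add_zero] at h1
    rw [h1, hG]; ring
  · intro v c
    obtain ⟨b, hb⟩ := fp_riesz S v c
    have h1 := face_c h ha hS hq b
    simp_rw [hb] at h1
    rw [hG]
    generalize (∫ y in facet K₀ S ∩ {y | qfun K₀ S y ≤ 1}, max (inner ℝ v y + c) 0) = A at h1 ⊢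
    generalize (∫ y in facet K₀ S, max (inner ℝ v y + c) 0) = B at h1 ⊢
    have h2 := mul_le_mul_of_nonneg_left h1 hvF.le
    linarith

end Pool.Agent.Lib.MP_43065d_gt
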