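import Pool.Agent.Lib.MP_43065d_gt.FacePC
import Pool.Agent.Lib.MP_43065d_gt.ConeStr2

/-!
# Module FaceUp: the inequality for the faces of the minimiser, and the case of equality

PROOF of `face_up`.  `a ≠ 0` (`csec_ne_zero`), `S` a chart (`exists_chart`), `F = facet K₀ S`, `q = qfun K₀ S`.  `face_vol`, `face_diff`: it is enough that
`Qint F q ≤ m vol F`.  If `q y ≥ 1` for all `y` then the integrand of `Qint` is `0`.  Otherwise `face_qint`, `planarC` (for `face_pconf`) and
`face_area`: `Qint = ∫_G q⁻¹^3 - vol G ≤ 2 vol G = m vol F`.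
PROOF of `face_cone`.  Now `Qint F q = (1/2) vol F > 0` (`face_vol`, `face_diff`, `jac > 0`), so some `q y < 1`; equality in the planar lemma and `4 vol G = vol F`
(`face_area`), so there is `c`; `cone_structure2` gives `v = -3 • S (c, 1) ∈ K₀`, `⟪a, v⟫ = -3`, and
`(fun y => S (y, 1)) '' F ⊆ {x ∈ K₀ | ⟪a, x⟫ = 1}`, `convexHull_mono`.
-/

open MeasureTheory Set Filter Topology Metric
open scoped ENNReal NNReal Pointwise

namespace Pool.Agent.Lib.MP_43065d_gt

private theorem faceUp_qint_zero {F : Set E2} {q : E2 → ℝ} (hq : ∀ y, 1 ≤ q y) : Qint F q = 0 := by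
  unfold Qint
  have h1 : ∀ y, max ((q y)⁻¹ ^ 3 - 1) 0 = 0 := by
    intro y
    have h2 : (q y)⁻¹ ≤ 1 := inv_le_one_of_one_le₀ (hq y)
    have h3 : 0 ≤ (q y)⁻¹ := inv_nonneg.2 (by linarith [hq y])
    have h4 : (q y)⁻¹ ^ 3 ≤ 1 := pow_le_one₀ h3 h2
    exact max_eq_right (by linarith)
  simp only [h1, integral_zero]

theorem face_up {K₀ : Set E3} {m : ℝ} (h : IsMin K₀ m) (hm2 : m ≤ 1 / 2) {a : E3}
    (ha : a ∈ osup K₀) (hv : 0 < volume.real (K₀ ∩ csec K₀ a)) :
    volume.real ((-K₀ \ K₀) ∩ csec K₀ a) ≤ m * volume.real (K₀ ∩ csec K₀ a) := by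
  obtain ⟨S, hS⟩ := exists_chart (csec_ne_zero h.body h.zero hv)
  have hj := (jac_spec S).1
  rw [face_diff h.body h.zero ha hS, face_vol h.body h.zero ha hS]
  have hm := h.pos
  have hF : 0 ≤ volume.real (facet K₀ S) := measureReal_nonneg
  have hQ : Qint (facet K₀ S) (qfun K₀ S) ≤ m * volume.real (facet K₀ S) := by
    by_cases hq : ∃ y, qfun K₀ S y < 1
    · rw [face_qint h.body h.zero hS]
      have h1 := (planarC (face_pconf h hm2 ha hv hS hq)).1
      have h2 := face_area h ha hS hq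
      linarith
    · push Not at hq
      rw [faceUp_qint_zero hq]
      positivity
  calc jac S / 3 * Qint (facet K₀ S) (qfun K₀ S)
      ≤ jac S / 3 * (m * volume.real (facet K₀ S)) := mul_le_mul_of_nonneg_left hQ (by positivity)
    _ = m * (jac S / 3 * volume.real (facet K₀ S)) := by ring

theorem face_cone {K₀ : Set E3} (h : IsMin K₀ (1 / 2)) {a : E3}
    (ha : a ∈ osup K₀) (hv : 0 < volume.real (K₀ ∩ csec K₀ a))
    (heq : volume.real ((-K₀ \ K₀) ∩ csec K₀ a) = 1 / 2 * volume.real (K₀ ∩ csec K₀ a)) :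
    ∃ v ∈ K₀, inner ℝ a v = -3 ∧
      K₀ ⊆ convexHull ℝ (insert v {x | x ∈ K₀ ∧ inner ℝ a x = 1}) := by
  obtain ⟨S, hS⟩ := exists_chart (csec_ne_zero h.body h.zero hv)
  have hj := (jac_spec S).1
  have hv0 := hv
  rw [face_vol h.body h.zero ha hS] at hv0
  have hF : 0 < volume.real (facet K₀ S) := (mul_pos_iff_of_pos_left (by positivity)).1 hv0
  have hQ : Qint (facet K₀ S) (qfun K₀ S) = 1 / 2 * volume.real (facet K₀ S) := by
    rw [face_diff h.body h.zero ha hS, face_vol h.body h.zero ha hS] at heq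
    have h1 : jac S / 3 * Qint (facet K₀ S) (qfun K₀ S) =
        jac S / 3 * (1 / 2 * volume.real (facet K₀ S)) := by rw [heq]; ring
    exact mul_left_cancel₀ (by positivity) h1
  have hq : ∃ y, qfun K₀ S y < 1 := by
    by_contra hcon
    push Not at hcon
    rw [faceUp_qint_zero hcon] at hQ
    linarith
  have hconf := face_pconf h le_rfl ha hv hS hq
  have harea := face_area h ha hS hq
  rw [face_qint h.body h.zero hS] at hQ
  obtain ⟨c, hcF, hc, hL⟩ := (planarC hconf).2 (by linarith) (by linarith)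
  obtain ⟨hvK, hsub⟩ := cone_structure2 h.body h.zero ha hS hconf.interior_nonempty hcF hc hL
  refine ⟨(-3 : ℝ) • S (c, 1), hvK, ?_, hsub.trans (convexHull_mono (insert_subset_insert ?_))⟩
  · rw [inner_smul_right, hS]
    norm_num
  · rintro _ ⟨y, hy, rfl⟩
    exact ⟨hy, hS y 1⟩

end Pool.Agent.Lib.MP_43065d_gt
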