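import Pool.Agent.Lib.MP_43065d_gt.Defs

/-!
# Module Flat: the part of the boundary with normals close to `e` is nearly isometric to a plane set

`band N e δ` is the set of `x ∈ N` that have a unit normal `u` with `‖u - e‖ ≤ δ`, and
`rho e h x = (h / ⟪e, x⟫) • x` is the radial projection to the plane `⟪e, x⟫ = h`.

PROOFS.
`flat_inner`: `IsNormal N x u` at `y = x'` gives `0 ≤ ⟪u, x - x'⟫`, so
`⟪e, x - x'⟫ = ⟪u, x - x'⟫ - ⟪u - e, x - x'⟫ ≥ - δ ‖x - x'‖`; symmetrically with `u'`.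

`band_facts`: note `r ≤ R` (look at the point `r • e`).  Let `x ∈ band`, with normal `u`.
`⟪u, x⟫ ≥ ⟪u, r • u⟫ = r` because `r • u ∈ closedBall 0 r ⊆ N`.  So
`⟪e, x⟫ ≥ r - δ ‖x‖ ≥ r - δ R`, and `δ R ≤ r^2 / (100 R) ≤ r / 100`.  The second
statement is `flat_inner` with `‖x - x₀‖ ≤ 2 R`.

`rho_dist`: put `h = ⟪e, x₀⟫ ∈ [0.99 r, R]`, `s = ⟪e, x⟫`, `s' = ⟪e, x'⟫` (all in `[0.99 r, R]`).
`rho x - rho x' = (h / s) • (x - x') + (h / s - h / s') • x'`,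
`|h / s - 1| = |h - s| / s ≤ 2 R δ / (0.99 r)`,
`|h / s - h / s'| * ‖x'‖ = h |s' - s| / (s s') * ‖x'‖ ≤ R * δ ‖x - x'‖ / (0.98 r^2) * R`.
The sum of the two errors is `≤ (8 R^2 / r^2 * δ) ‖x - x'‖`.

`rho_area`: with `κ = 8 R^2 / r^2 * δ ≤ 0.08`, `rho` is `(1 + κ)`-Lipschitz on `B` and its inverse
(defined on the image) is `(1 - κ)⁻¹`-Lipschitz.  By `LipschitzOnWith.hausdorffMeasure_image_le`
(`μHE[2]` is a constant multiple of `μH[2]`: `euclideanHausdorffMeasure_def`) the factors are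
`(1 + κ)^2 ≤ 1 + 3 κ` and `(1 - κ)^(-2) ≤ 1 + 3 κ`, and `3 κ ≤ 100 R^2 / r^2 * δ`.
(For the inverse: use `Function.invFunOn` or write `B` as the image of `rho '' B` under a function
that is Lipschitz on it.)

`cone_rho`: for `x ∈ B`, `rho x = l • x` with `l = h / ⟪e, x⟫` and `l, l⁻¹ ≤ Λ := 1 + 3 R / r * δ`.
Hence `cone B ⊆ Λ • cone (rho '' B)` and `cone (rho '' B) ⊆ Λ • cone B`
(`t • x = Λ • ((t / (l Λ)) • rho x)`, `0 < t / (l Λ) ≤ 1`), the volumes differ by the factor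
`Λ^3 ≤ 1 + 100 R^2 / r^2 * δ` (as `3 R δ / r ≤ 0.03`), `Measure.addHaar_smul`.
-/

open MeasureTheory Set Filter Topology Metric
open scoped ENNReal NNReal Pointwise

namespace Pool.Agent.Lib.MP_43065d_gt

def band (N : Set E3) (e : E3) (δ : ℝ) : Set E3 :=
  {x | x ∈ N ∧ ∃ u, ‖u‖ = 1 ∧ ‖u - e‖ ≤ δ ∧ IsNormal N x u}

noncomputable def rho (e : E3) (h : ℝ) (x : E3) : E3 := (h / inner ℝ e x) • x

theorem flat_inner {N : Set E3} {x x' u u' e : E3} {δ : ℝ} (hx : x ∈ N) (hx' : x' ∈ N)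
    (hu : IsNormal N x u) (hu' : IsNormal N x' u') (h1 : ‖u - e‖ ≤ δ) (h2 : ‖u' - e‖ ≤ δ) :
    |inner ℝ e (x - x')| ≤ δ * ‖x - x'‖ := by
  have e1 : 0 ≤ inner ℝ u (x - x') := by
    rw [inner_sub_right]; exact sub_nonneg.2 (hu x' hx')
  have e2 : 0 ≤ inner ℝ u' (x' - x) := by
    rw [inner_sub_right]; exact sub_nonneg.2 (hu' x hx)
  have e3 : |inner ℝ (u - e) (x - x')| ≤ δ * ‖x - x'‖ :=
    (abs_real_inner_le_norm _ _).trans (mul_le_mul_of_nonneg_right h1 (norm_nonneg _))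
  have e4 : |inner ℝ (u' - e) (x' - x)| ≤ δ * ‖x - x'‖ := by
    rw [norm_sub_rev x x']
    exact (abs_real_inner_le_norm _ _).trans (mul_le_mul_of_nonneg_right h2 (norm_nonneg _))
  have e5 : inner ℝ (u - e) (x - x') = inner ℝ u (x - x') - inner ℝ e (x - x') :=
    inner_sub_left _ _ _
  have e6 : inner ℝ (u' - e) (x' - x) = inner ℝ u' (x' - x) - inner ℝ e (x' - x) :=
    inner_sub_left _ _ _
  have e7 : inner ℝ e (x' - x) = - inner ℝ e (x - x') := by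
    rw [← inner_neg_right, neg_sub]
  rw [abs_le] at e3 e4 ⊢
  constructor <;> linarith [e3.1, e3.2, e4.1, e4.2]

variable {N : Set E3} {r R : ℝ} {e : E3} {δ : ℝ} {x₀ : E3}

private theorem flat_rR (hr : 0 < r) (hrN : closedBall 0 r ⊆ N) (hNR : N ⊆ closedBall 0 R)
    (he : ‖e‖ = 1) (hδr : 100 * R ^ 2 * δ ≤ r ^ 2) :
    r ≤ R ∧ 100 * (δ * R) ≤ r := by
  have h1 : r ≤ R := by
    have h := hNR (hrN (show r • e ∈ closedBall (0 : E3) r by
      rw [mem_closedBall_zero_iff, norm_smul, he, mul_one, Real.norm_of_nonneg hr.le]))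
    rwa [mem_closedBall_zero_iff, norm_smul, he, mul_one, Real.norm_of_nonneg hr.le] at h
  refine ⟨h1, ?_⟩
  have hR : 0 < R := hr.trans_le h1
  have h2 : R * (100 * (δ * R)) ≤ R * r := by nlinarith
  exact le_of_mul_le_mul_left h2 hR

theorem band_facts (hr : 0 < r) (hrN : closedBall 0 r ⊆ N) (hNR : N ⊆ closedBall 0 R)
    (he : ‖e‖ = 1) (hδ : 0 ≤ δ) (hδr : 100 * R ^ 2 * δ ≤ r ^ 2) (hx₀ : x₀ ∈ band N e δ) :
    (∀ x ∈ band N e δ, 99 / 100 * r ≤ inner ℝ e x ∧ inner ℝ e x ≤ R) ∧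
    (∀ x ∈ band N e δ, |inner ℝ e x - inner ℝ e x₀| ≤ 2 * R * δ) := by
  obtain ⟨hrR, hRd⟩ := flat_rR hr hrN hNR he hδr
  have hR : 0 < R := hr.trans_le hrR
  have hnorm : ∀ x ∈ band N e δ, ‖x‖ ≤ R := fun x hx => by
    have := hNR hx.1
    rwa [mem_closedBall_zero_iff] at this
  refine ⟨fun x hx => ⟨?_, ?_⟩, fun x hx => ?_⟩
  · obtain ⟨hxN, u, hu1, hu2, hu3⟩ := hx
    have e1 : r ≤ inner ℝ u x := by
      have h1 := hu3 (r • u) (hrN (by
        rw [mem_closedBall_zero_iff, norm_smul, hu1, mul_one, Real.norm_of_nonneg hr.le]))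
      rwa [inner_smul_right, real_inner_self_eq_norm_sq, hu1, one_pow, mul_one] at h1
    have e2 : |inner ℝ (u - e) x| ≤ δ * R :=
      (abs_real_inner_le_norm _ _).trans
        (mul_le_mul hu2 (hnorm x ⟨hxN, u, hu1, hu2, hu3⟩) (norm_nonneg _) hδ)
    have e3 : inner ℝ (u - e) x = inner ℝ u x - inner ℝ e x := inner_sub_left _ _ _
    rw [abs_le] at e2
    linarith [e2.1, e2.2]
  · have := real_inner_le_norm e x
    rw [he, one_mul] at this
    exact this.trans (hnorm x hx)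
  · have h0 := hnorm x hx
    have h1 := hnorm x₀ hx₀
    obtain ⟨hxN, u, hu1, hu2, hu3⟩ := hx
    obtain ⟨hxN', u', hu1', hu2', hu3'⟩ := hx₀
    have h2 := flat_inner hxN hxN' hu3 hu3' hu2 hu2'
    rw [inner_sub_right] at h2
    refine h2.trans ?_
    have h3 : ‖x - x₀‖ ≤ 2 * R := (norm_sub_le _ _).trans (by linarith)
    calc δ * ‖x - x₀‖ ≤ δ * (2 * R) := mul_le_mul_of_nonneg_left h3 hδ
      _ = 2 * R * δ := by ring

theorem rho_dist (hr : 0 < r) (hrN : closedBall 0 r ⊆ N) (hNR : N ⊆ closedBall 0 R)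
    (he : ‖e‖ = 1) (hδ : 0 ≤ δ) (hδr : 100 * R ^ 2 * δ ≤ r ^ 2) (hx₀ : x₀ ∈ band N e δ)
    {x x' : E3} (hx : x ∈ band N e δ) (hx' : x' ∈ band N e δ) :
    |‖rho e (inner ℝ e x₀) x - rho e (inner ℝ e x₀) x'‖ - ‖x - x'‖| ≤
      8 * R ^ 2 / r ^ 2 * δ * ‖x - x'‖ := by
  obtain ⟨hrR, hRd⟩ := flat_rR hr hrN hNR he hδr
  have hR : 0 < R := hr.trans_le hrR
  obtain ⟨hb1, hb2⟩ := band_facts hr hrN hNR he hδ hδr hx₀
  have hs := hb1 x hx
  have hs' := hb1 x' hx'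
  have hh := hb1 x₀ hx₀
  have hd := hb2 x hx
  have hxn : ‖x'‖ ≤ R := by
    have := hNR hx'.1
    rwa [mem_closedBall_zero_iff] at this
  have hss : |inner ℝ e x - inner ℝ e x'| ≤ δ * ‖x - x'‖ := by
    obtain ⟨hxN, u, hu1, hu2, hu3⟩ := hx
    obtain ⟨hxN', u', hu1', hu2', hu3'⟩ := hx'
    have h2 := flat_inner hxN hxN' hu3 hu3' hu2 hu2'
    rwa [inner_sub_right] at h2
  unfold rho
  generalize inner ℝ e x = s at *
  generalize inner ℝ e x' = s' at *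
  generalize inner ℝ e x₀ = h at *
  have hs0 : 0 < s := by linarith [hs.1]
  have hs0' : 0 < s' := by linarith [hs'.1]
  have hh0 : 0 < h := by linarith [hh.1]
  have key : ‖((h / s) • x - (h / s') • x') - (x - x')‖ ≤
      8 * R ^ 2 / r ^ 2 * δ * ‖x - x'‖ := by
    have e1 : ((h / s) • x - (h / s') • x') - (x - x') =
        (h / s - 1) • (x - x') + (h / s - h / s') • x' := by
      module
    rw [e1]
    refine (norm_add_le _ _).trans ?_
    rw [norm_smul, norm_smul, Real.norm_eq_abs, Real.norm_eq_abs]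
    have e2 : |h / s - 1| ≤ 3 * (R ^ 2 / r ^ 2) * δ := by
      have : h / s - 1 = (h - s) / s := by field_simp
      rw [this, abs_div, abs_of_pos hs0, div_le_iff₀ hs0, abs_sub_comm]
      refine hd.trans ?_
      have h3 : 2 * R ≤ 3 * (R ^ 2 / r ^ 2) * s := by
        have h4 : 2 * R * r ^ 2 ≤ 3 * R ^ 2 * s := by
          have h5 : 99 / 100 * r * (3 * R ^ 2) ≤ s * (3 * R ^ 2) :=
            mul_le_mul_of_nonneg_right hs.1 (by positivity)
          have h6 : 2 * R * r * r ≤ 2 * R * r * R := mul_le_mul_of_nonneg_left hrR (by positivity)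
          have h7 : 0 ≤ R ^ 2 * r := by positivity
          nlinarith
        have h8 : 3 * (R ^ 2 / r ^ 2) * s = 3 * R ^ 2 * s / r ^ 2 := by ring
        rw [h8, le_div_iff₀ (by positivity)]
        exact h4
      calc 2 * R * δ ≤ 3 * (R ^ 2 / r ^ 2) * s * δ := mul_le_mul_of_nonneg_right h3 hδ
        _ = 3 * (R ^ 2 / r ^ 2) * δ * s := by ring
    have e3 : |h / s - h / s'| * ‖x'‖ ≤ 2 * (R ^ 2 / r ^ 2) * δ * ‖x - x'‖ := by
      have h1 : h / s - h / s' = h * (s' - s) / (s * s') := by field_simp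
      rw [h1, abs_div, abs_mul, abs_of_pos hh0, abs_of_pos (mul_pos hs0 hs0'), abs_sub_comm]
      have h2 : h * |s - s'| / (s * s') * ‖x'‖ ≤ R * (δ * ‖x - x'‖) / (s * s') * R := by
        gcongr
        exact hh.2
      refine h2.trans ?_
      have h3 : r ^ 2 ≤ 2 * (s * s') := by
        have : (99 / 100 * r) * (99 / 100 * r) ≤ s * s' :=
          mul_le_mul hs.1 hs'.1 (by positivity) hs0.le
        nlinarith [sq_nonneg r]
      have h4 : R * (δ * ‖x - x'‖) / (s * s') * R = (R ^ 2 * (δ * ‖x - x'‖)) / (s * s') := by ring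
      have h5 : 2 * (R ^ 2 / r ^ 2) * δ * ‖x - x'‖ = (2 * (R ^ 2 * (δ * ‖x - x'‖))) / r ^ 2 := by
        ring
      rw [h4, h5, div_le_div_iff₀ (mul_pos hs0 hs0') (by positivity)]
      have h6 : 0 ≤ R ^ 2 * (δ * ‖x - x'‖) := by positivity
      nlinarith [mul_le_mul_of_nonneg_left h3 h6]
    have h9 : 0 ≤ (R ^ 2 / r ^ 2) * δ * ‖x - x'‖ := by positivity
    calc |h / s - 1| * ‖x - x'‖ + |h / s - h / s'| * ‖x'‖
        ≤ 3 * (R ^ 2 / r ^ 2) * δ * ‖x - x'‖ + 2 * (R ^ 2 / r ^ 2) * δ * ‖x - x'‖ :=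
          add_le_add (mul_le_mul_of_nonneg_right e2 (norm_nonneg _)) e3
      _ = 5 * ((R ^ 2 / r ^ 2) * δ * ‖x - x'‖) := by ring
      _ ≤ 8 * ((R ^ 2 / r ^ 2) * δ * ‖x - x'‖) := by linarith
      _ = 8 * R ^ 2 / r ^ 2 * δ * ‖x - x'‖ := by ring
  exact (abs_norm_sub_norm_le _ _).trans key

private theorem flat_t (hr : 0 < r) (hδr : 100 * R ^ 2 * δ ≤ r ^ 2) :
    R ^ 2 / r ^ 2 * δ ≤ 1 / 100 := by
  have h : R ^ 2 / r ^ 2 * δ = R ^ 2 * δ / r ^ 2 := by ring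
  rw [h, div_le_iff₀ (by positivity)]
  linarith

private theorem flat_area {f : E3 → E3} {B : Set E3} {L : ℝ≥0}
    (hf : ∀ x ∈ B, ∀ x' ∈ B, dist (f x) (f x') ≤ L * dist x x') :
    μHE[2] (f '' B) ≤ (L : ℝ≥0∞) ^ 2 * μHE[2] B := by
  have h1 : LipschitzOnWith L f B := LipschitzOnWith.of_dist_le_mul hf
  have h2 := h1.hausdorffMeasure_image_le (d := ((2 : ℕ) : ℝ)) (by norm_num)
  rw [ENNReal.rpow_natCast] at h2
  rw [Measure.euclideanHausdorffMeasure_def, Measure.smul_apply, Measure.smul_apply,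
    ENNReal.smul_def, ENNReal.smul_def, smul_eq_mul, smul_eq_mul]
  calc _ ≤ _ := mul_le_mul_right h2 _
    _ = _ := by ring

private theorem flat_area_inv {f : E3 → E3} {B : Set E3} {L : ℝ≥0}
    (hf : ∀ x ∈ B, ∀ x' ∈ B, dist x x' ≤ L * dist (f x) (f x')) :
    μHE[2] B ≤ (L : ℝ≥0∞) ^ 2 * μHE[2] (f '' B) := by
  classical
  have hinj : InjOn f B := fun x hx x' hx' h => by
    have := hf x hx x' hx'
    rw [h, dist_self, mul_zero] at this
    exact dist_le_zero.1 this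
  have hg : ∀ x ∈ B, Function.invFunOn f B (f x) = x := fun x hx =>
    hinj.leftInvOn_invFunOn hx
  have h1 := flat_area (f := Function.invFunOn f B) (B := f '' B) (L := L) (by
    rintro _ ⟨x, hx, rfl⟩ _ ⟨x', hx', rfl⟩
    rw [hg x hx, hg x' hx']
    exact hf x hx x' hx')
  have h2 : Function.invFunOn f B '' (f '' B) = B := by
    ext y
    constructor
    · rintro ⟨_, ⟨x, hx, rfl⟩, rfl⟩
      rw [hg x hx]; exact hx
    · intro hy
      exact ⟨f y, ⟨y, hy, rfl⟩, hg y hy⟩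
  rwa [h2] at h1

theorem rho_area (hr : 0 < r) (hrN : closedBall 0 r ⊆ N) (hNR : N ⊆ closedBall 0 R)
    (he : ‖e‖ = 1) (hδ : 0 ≤ δ) (hδr : 100 * R ^ 2 * δ ≤ r ^ 2) (hx₀ : x₀ ∈ band N e δ)
    {B : Set E3} (hB : B ⊆ band N e δ) :
    μHE[2] B ≤ ENNReal.ofReal (1 + 100 * R ^ 2 / r ^ 2 * δ) *
        μHE[2] (rho e (inner ℝ e x₀) '' B) ∧
    μHE[2] (rho e (inner ℝ e x₀) '' B) ≤
      ENNReal.ofReal (1 + 100 * R ^ 2 / r ^ 2 * δ) * μHE[2] B := by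
  have ht0 : 0 ≤ R ^ 2 / r ^ 2 * δ := by positivity
  have ht1 := flat_t hr hδr
  have hL : 0 ≤ 1 + 10 * (R ^ 2 / r ^ 2 * δ) := by linarith
  obtain ⟨L, hLc⟩ : ∃ L : ℝ≥0, (L : ℝ) = 1 + 10 * (R ^ 2 / r ^ 2 * δ) := ⟨⟨_, hL⟩, rfl⟩
  have hL2 : (L : ℝ≥0∞) ^ 2 ≤ ENNReal.ofReal (1 + 100 * R ^ 2 / r ^ 2 * δ) := by
    have h1 : (L : ℝ≥0∞) = ENNReal.ofReal (1 + 10 * (R ^ 2 / r ^ 2 * δ)) := by
      rw [← hLc, ENNReal.ofReal_coe_nnreal]
    rw [h1, ← ENNReal.ofReal_pow hL]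
    refine ENNReal.ofReal_le_ofReal ?_
    have h2 : 100 * R ^ 2 / r ^ 2 * δ = 100 * (R ^ 2 / r ^ 2 * δ) := by ring
    rw [h2]
    nlinarith
  have hup : ∀ x ∈ B, ∀ x' ∈ B,
      dist (rho e (inner ℝ e x₀) x) (rho e (inner ℝ e x₀) x') ≤
        (1 + 10 * (R ^ 2 / r ^ 2 * δ)) * dist x x' := fun x hx x' hx' => by
    have h := rho_dist hr hrN hNR he hδ hδr hx₀ (hB hx) (hB hx')
    rw [dist_eq_norm, dist_eq_norm]
    rw [abs_le] at h
    have h2 : 8 * R ^ 2 / r ^ 2 * δ = 8 * (R ^ 2 / r ^ 2 * δ) := by ring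
    rw [h2] at h
    have h3 := mul_nonneg ht0 (norm_nonneg (x - x'))
    nlinarith [h.1, h.2]
  have hlo : ∀ x ∈ B, ∀ x' ∈ B, dist x x' ≤ (1 + 10 * (R ^ 2 / r ^ 2 * δ)) *
      dist (rho e (inner ℝ e x₀) x) (rho e (inner ℝ e x₀) x') := fun x hx x' hx' => by
    have h := rho_dist hr hrN hNR he hδ hδr hx₀ (hB hx) (hB hx')
    rw [dist_eq_norm, dist_eq_norm]
    rw [abs_le] at h
    have h2 : 8 * R ^ 2 / r ^ 2 * δ = 8 * (R ^ 2 / r ^ 2 * δ) := by ring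
    rw [h2] at h
    generalize R ^ 2 / r ^ 2 * δ = t at *
    generalize ‖rho e (inner ℝ e x₀) x - rho e (inner ℝ e x₀) x'‖ = b at *
    have h3 := norm_nonneg (x - x')
    generalize ‖x - x'‖ = a at *
    have h4 : (1 - 8 * t) * a ≤ b := by nlinarith [h.1]
    have h5 : a ≤ (1 + 10 * t) * ((1 - 8 * t) * a) := by
      have : 0 ≤ t * a * (1 / 40 - t) := mul_nonneg (mul_nonneg ht0 h3) (by linarith)
      nlinarith
    exact h5.trans (mul_le_mul_of_nonneg_left h4 hL)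
  rw [← hLc] at hlo hup
  constructor
  · refine (flat_area_inv hlo).trans ?_
    exact mul_le_mul_left hL2 _
  · refine (flat_area hup).trans ?_
    exact mul_le_mul_left hL2 _

theorem cone_rho (hr : 0 < r) (hrN : closedBall 0 r ⊆ N) (hNR : N ⊆ closedBall 0 R)
    (he : ‖e‖ = 1) (hδ : 0 ≤ δ) (hδr : 100 * R ^ 2 * δ ≤ r ^ 2) (hx₀ : x₀ ∈ band N e δ)
    {B : Set E3} (hB : B ⊆ band N e δ) :
    volume (cone B) ≤ ENNReal.ofReal (1 + 100 * R ^ 2 / r ^ 2 * δ) *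
        volume (cone (rho e (inner ℝ e x₀) '' B)) ∧
    volume (cone (rho e (inner ℝ e x₀) '' B)) ≤
      ENNReal.ofReal (1 + 100 * R ^ 2 / r ^ 2 * δ) * volume (cone B) := by
  obtain ⟨hrR, hRd⟩ := flat_rR hr hrN hNR he hδr
  have hR : 0 < R := hr.trans_le hrR
  obtain ⟨hb1, hb2⟩ := band_facts hr hrN hNR he hδ hδr hx₀
  have ht0 : 0 ≤ R ^ 2 / r ^ 2 * δ := by positivity
  have ht1 := flat_t hr hδr
  have hh := hb1 x₀ hx₀
  have hh0 : 0 < inner ℝ e x₀ := by linarith [hh.1]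
  have hL : 0 < 1 + 3 * (R ^ 2 / r ^ 2 * δ) := by linarith
  have hgap : 2 * R * δ ≤ 99 / 100 * r * (3 * (R ^ 2 / r ^ 2 * δ)) := by
    have h1 : 99 / 100 * r * (3 * (R ^ 2 / r ^ 2 * δ)) = 297 / 100 * (R * δ) * (R / r) := by
      field_simp
      ring
    rw [h1]
    have h2 : 1 ≤ R / r := by rwa [le_div_iff₀ hr, one_mul]
    have h3 : 0 ≤ R * δ := by positivity
    nlinarith [mul_le_mul_of_nonneg_left h2 h3]
  have hl1 : ∀ x ∈ B, 0 < inner ℝ e x ∧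
      inner ℝ e x₀ ≤ (1 + 3 * (R ^ 2 / r ^ 2 * δ)) * inner ℝ e x ∧
      inner ℝ e x ≤ (1 + 3 * (R ^ 2 / r ^ 2 * δ)) * inner ℝ e x₀ := fun x hx => by
    have hs := hb1 x (hB hx)
    have hd := hb2 x (hB hx)
    rw [abs_le] at hd
    have hs0 : 0 < inner ℝ e x := by linarith [hs.1]
    generalize inner ℝ e x = s at *
    generalize inner ℝ e x₀ = h at *
    generalize R ^ 2 / r ^ 2 * δ = t at *
    have k1 : 99 / 100 * r * (3 * t) ≤ s * (3 * t) :=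
      mul_le_mul_of_nonneg_right hs.1 (by linarith)
    have k2 : 99 / 100 * r * (3 * t) ≤ h * (3 * t) :=
      mul_le_mul_of_nonneg_right hh.1 (by linarith)
    exact ⟨hs0, by nlinarith [hd.1, hd.2], by nlinarith [hd.1, hd.2]⟩
  have hvol : ∀ A C : Set E3, A ⊆ (1 + 3 * (R ^ 2 / r ^ 2 * δ)) • C →
      volume A ≤ ENNReal.ofReal (1 + 100 * R ^ 2 / r ^ 2 * δ) * volume C := fun A C hAC => by
    refine (measure_mono hAC).trans ?_
    rw [Measure.addHaar_smul_of_nonneg _ hL.le]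
    refine mul_le_mul_left (ENNReal.ofReal_le_ofReal ?_) _
    have h2 : 100 * R ^ 2 / r ^ 2 * δ = 100 * (R ^ 2 / r ^ 2 * δ) := by ring
    have h3 : Module.finrank ℝ E3 = 3 := by simp [E3]
    rw [h2, h3]
    generalize R ^ 2 / r ^ 2 * δ = t at *
    have k1 : t ^ 2 ≤ t := by nlinarith
    have k2 : t ^ 3 ≤ t := by nlinarith [mul_nonneg ht0 (sub_nonneg.2 k1)]
    nlinarith
  constructor
  · refine hvol _ _ ?_
    rintro y ⟨τ, hτ, x, hx, rfl⟩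
    obtain ⟨hs0, h1, h2⟩ := hl1 x hx
    refine ⟨(τ / (inner ℝ e x₀ / inner ℝ e x * (1 + 3 * (R ^ 2 / r ^ 2 * δ)))) •
      rho e (inner ℝ e x₀) x, ⟨_, ⟨?_, ?_⟩, _, ⟨x, hx, rfl⟩, rfl⟩, ?_⟩
    · have := hτ.1
      positivity
    · rw [div_le_one (by positivity)]
      refine hτ.2.trans ?_
      rw [div_mul_eq_mul_div, le_div_iff₀ hs0]
      linarith
    · unfold rho
      simp only
      rw [smul_smul, smul_smul]
      congr 1
      field_simp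
  · refine hvol _ _ ?_
    rintro y ⟨τ, hτ, _, ⟨x, hx, rfl⟩, rfl⟩
    obtain ⟨hs0, h1, h2⟩ := hl1 x hx
    refine ⟨(τ * (inner ℝ e x₀ / inner ℝ e x) / (1 + 3 * (R ^ 2 / r ^ 2 * δ))) • x,
      ⟨_, ⟨?_, ?_⟩, x, hx, rfl⟩, ?_⟩
    · have := hτ.1
      positivity
    · rw [div_le_one hL]
      have h3 : inner ℝ e x₀ / inner ℝ e x ≤ 1 + 3 * (R ^ 2 / r ^ 2 * δ) := by
        rw [div_le_iff₀ hs0]; exact h1
      have h4 : 0 ≤ inner ℝ e x₀ / inner ℝ e x := by positivity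
      nlinarith [mul_le_mul_of_nonneg_right hτ.2 h4, hτ.1]
    · unfold rho
      simp only
      rw [smul_smul, smul_smul]
      congr 1
      field_simp

end Pool.Agent.Lib.MP_43065d_gt
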