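import Pool.Agent.Lib.MP_43065d_gt.Var
import Pool.Agent.Lib.MP_43065d_gt.Compact

/-!
# Module Limit: limits of facet configurations

`Config K₀ m κ a T F` collects what is known of a limit configuration.

PROOF of `limit_config`.  Write `P j = poly (A j)`, `g j = gauge (P j)`, `F j = facet (P j) (S j)`, `q j = qfun (P j) (S j)`.
(1) `g j x → gauge K₀ x` for every `x`: let `closedBall 0 r₀ ⊆ K₀` and `δ ∈ (0,1)`.  By `subset_of_volume_diff` (both ways, with `r`
and `r₀`) eventually `(1 - δ) • K₀ ⊆ P j` and `(1 - δ) • P j ⊆ K₀`, so `(1 - δ) g j ≤ gauge K₀` and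
`(1 - δ) gauge K₀ ≤ g j`.  As all `g j` are `1/r`-Lipschitz, `x j → x` implies `g j (x j) → gauge K₀ x`.
(2) `‖a j‖ ≤ 1/r` (`norm_le_of_ball_subset`) and the `S j` are bounded linear maps (`hSb`) in a finite dimensional
space: pass to a subsequence with `a j → a`, `S j → T` (`tendsto_subseq_of_bounded`; `(E2 × ℝ) →L[ℝ] E3` is finite dimensional, hence
proper).  By `exists_subseq_body` (`r = 1`, `R = ρ`, in `E2`) also `gauge (F j) → gauge F` with `F` compact convex between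
`closedBall 0 1` and `closedBall 0 ρ`.
(3) `⟪a, T (y,t)⟫ = t`; `⟪a, x⟫ ≤ 1` on `K₀`: for `x ∈ K₀` and `δ ∈ (0,1)`, `(1 - δ) x ∈ P j` eventually so `⟪a j, (1 - δ) x⟫ ≤ 1`.
`T (y,1) ∈ K₀` for `y ∈ F`: first `gauge F y < 1`: eventually `y ∈ F j`, so `g j (S j (y,1)) ≤ 1`, the limit gives
`gauge K₀ (T (y,1)) ≤ 1`; general `y` by scaling `(1-δ) y` and continuity.
(4) `q j y → q y := qfun K₀ T y` for every `y`, by (1) and (2); `q j ≥ r / R` on `F j`, `q ≥ r/R` on `F`.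
(5) `1_{F j} → 1_F` a.e. (`indicator_tendsto`), all in `closedBall 0 ρ`: `vol (F j) → vol F`, and
`Qint (F j) (q j) → Qint F q` by dominated convergence (`0 ≤ max (q⁻¹^3 - 1) 0 ≤ (R/r)^3`).  So
`κ vol F ≤ Qint F q`, and `Qint F q > 0` because `κ > 0`, `vol F > 0`; so some `y ∈ F` has `q y < 1`.  For large `j`
also `Qint (F j) (q j) > 0`, so `hcond` applies.
(6) `{q = 1}` is null (`q_level_null`), so `1_{F j ∩ {q j ≤ 1}} → 1_{F ∩ {q ≤ 1}}` a.e.  Given `v`, `c` let `b j` be the vector with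
`⟪b j, S j (y,t)⟫ = ⟪v, y⟫ + c t` (Riesz for the functional `(y,t) ↦ ⟪v,y⟫ + c t` composed with `(S j).symm`).  `hcond` for `b j` reads
`|∫_{F j ∩ {q j ≤ 1}} ℓ - m/2 ∫_{F j} ℓ| ≤ η j / 2 ∫_{F j} |ℓ|` with `ℓ y = ⟪v,y⟫ + c` bounded on `closedBall 0 ρ`; let `j → ∞`.
(7) Location: `y j ∈ F j` with `‖S j (y j, 1) - x₀‖ ≤ δ`; a subsequence `y j → y`, and `y ∈ F` (`gauge (F j) (y j) ≤ 1`, the
gauges are 1-Lipschitz and converge pointwise), `‖T (y,1) - x₀‖ ≤ δ`.
-/

open MeasureTheory Set Filter Topology Metric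
open scoped ENNReal NNReal Pointwise

namespace Pool.Agent.Lib.MP_43065d_gt

/-- an exact (limit) configuration of a facet -/
structure Config (K₀ : Set E3) (m κ : ℝ) (a : E3) (T : (E2 × ℝ) →L[ℝ] E3) (F : Set E2) : Prop where
  convex : Convex ℝ F
  isCompact : IsCompact F
  ball : closedBall 0 1 ⊆ F
  chart : ∀ y t, inner ℝ a (T (y, t)) = t
  support : ∀ x ∈ K₀, inner ℝ a x ≤ 1
  mem : ∀ y ∈ F, T (y, 1) ∈ K₀
  lt_one : ∃ y ∈ F, qfun K₀ T y < 1
  moment : ∀ (v : E2) (c : ℝ), ∫ y in F ∩ {y | qfun K₀ T y ≤ 1}, (inner ℝ v y + c) =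
    m / 2 * ∫ y in F, (inner ℝ v y + c)
  lower : κ * volume.real F ≤ Qint F (qfun K₀ T)

/-- `(1 - δ) gauge B ≤ gauge A` if `(1 - δ) • A ⊆ B` -/
private theorem gauge_scale {A B : Set E3} (hA : A ∈ 𝓝 (0 : E3)) {δ : ℝ} (hδ1 : δ < 1)
    (h : (1 - δ) • A ⊆ B) (x : E3) : (1 - δ) * gauge B x ≤ gauge A x := by
  have h0 : 0 < 1 - δ := by linarith
  have h1 : (1 - δ) • A ∈ 𝓝 (0 : E3) := (set_smul_mem_nhds_zero_iff h0.ne').2 hA
  have h2 := gauge_mono (absorbent_nhds_zero (𝕜 := ℝ) h1) h x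
  rw [gauge_smul_left_of_nonneg h0.le, Pi.smul_apply, smul_eq_mul] at h2
  calc (1 - δ) * gauge B x ≤ (1 - δ) * ((1 - δ)⁻¹ * gauge A x) :=
        mul_le_mul_of_nonneg_left h2 h0.le
    _ = gauge A x := by field_simp

private theorem lip {P : Set E3} (hP : Convex ℝ P) {r : ℝ} (hr : 0 < r)
    (h1 : closedBall 0 r ⊆ P) (x y : E3) : |gauge P x - gauge P y| ≤ r⁻¹ * ‖x - y‖ := by
  lift r to ℝ≥0 using hr.le
  have hr' : 0 < r := by exact_mod_cast hr
  have h2 := (hP.lipschitzWith_gauge hr' (ball_subset_closedBall.trans h1)).dist_le_mul x y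
  rwa [Real.dist_eq, dist_eq_norm, NNReal.coe_inv] at h2

private theorem lip2 {P : Set E2} (hP : Convex ℝ P) {r : ℝ} (hr : 0 < r)
    (h1 : closedBall 0 r ⊆ P) (x y : E2) : |gauge P x - gauge P y| ≤ r⁻¹ * ‖x - y‖ := by
  lift r to ℝ≥0 using hr.le
  have hr' : 0 < r := by exact_mod_cast hr
  have h2 := (hP.lipschitzWith_gauge hr' (ball_subset_closedBall.trans h1)).dist_le_mul x y
  rwa [Real.dist_eq, dist_eq_norm, NNReal.coe_inv] at h2

private theorem gauge_pt {K₀ : Set E3} (hK : IsBody K₀) (h0 : (0 : E3) ∈ interior K₀)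
    {r R : ℝ} (hr : 0 < r) (P : ℕ → Set E3) (hP : ∀ j, IsBody (P j))
    (h1 : ∀ j, closedBall 0 r ⊆ P j) (h2 : ∀ j, P j ⊆ closedBall 0 R)
    (hV : Tendsto (fun j => volume.real (symmDiff (P j) K₀)) atTop (𝓝 0)) (x : E3) :
    Tendsto (fun j => gauge (P j) x) atTop (𝓝 (gauge K₀ x)) := by
  have hK0 : K₀ ∈ 𝓝 (0 : E3) := mem_interior_iff_mem_nhds.1 h0
  obtain ⟨r₀, hr₀, hr₀K⟩ := Metric.nhds_basis_closedBall.mem_iff.1 hK0
  have key : ∀ δ : ℝ, 0 < δ → δ < 1 → ∀ᶠ j in atTop,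
      (1 - δ) * gauge (P j) x ≤ gauge K₀ x ∧ (1 - δ) * gauge K₀ x ≤ gauge (P j) x := by
    intro δ hδ hδ1
    have e1 : 0 < volume.real (ball (0 : E3) (δ * r₀)) / 2 := by
      have : 0 < volume.real (ball (0 : E3) (δ * r₀)) :=
        ENNReal.toReal_pos (measure_ball_pos _ _ (by positivity)).ne' measure_ball_lt_top.ne
      linarith
    have e2 : 0 < volume.real (ball (0 : E3) (δ * r)) / 2 := by
      have : 0 < volume.real (ball (0 : E3) (δ * r)) :=
        ENNReal.toReal_pos (measure_ball_pos _ _ (by positivity)).ne' measure_ball_lt_top.ne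
      linarith
    filter_upwards [hV.eventually (gt_mem_nhds e1), hV.eventually (gt_mem_nhds e2)] with j h3 h4
    have hfin : volume (symmDiff (P j) K₀) ≠ ⊤ := by
      have hsub : symmDiff (P j) K₀ ⊆ P j ∪ K₀ := by
        rw [symmDiff_def]
        exact sup_le (sdiff_subset.trans subset_union_left) (sdiff_subset.trans subset_union_right)
      exact ((measure_mono hsub).trans_lt ((measure_union_le _ _).trans_lt
        (ENNReal.add_lt_top.2 ⟨(hP j).isCompact.measure_lt_top, hK.isCompact.measure_lt_top⟩))).ne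
    have h5 : volume.real (K₀ \ P j) ≤ volume.real (symmDiff (P j) K₀) :=
      measureReal_mono (by rw [symmDiff_def]; exact subset_union_right) hfin
    have h6 : volume.real (P j \ K₀) ≤ volume.real (symmDiff (P j) K₀) :=
      measureReal_mono (by rw [symmDiff_def]; exact subset_union_left) hfin
    have h7 := subset_of_volume_diff hK.convex hK.isCompact.measure_lt_top.ne (hP j).convex
      (hP j).isCompact.isClosed hr₀ hr₀K hδ hδ1.le (lt_of_le_of_lt h5 h3)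
    have h8 := subset_of_volume_diff (hP j).convex (hP j).isCompact.measure_lt_top.ne hK.convex
      hK.isCompact.isClosed hr (h1 j) hδ hδ1.le (lt_of_le_of_lt h6 h4)
    have hPj : P j ∈ 𝓝 (0 : E3) := mem_of_superset (closedBall_mem_nhds 0 hr) (h1 j)
    exact ⟨gauge_scale hK0 hδ1 h7 x, gauge_scale hPj hδ1 h8 x⟩
  rw [Metric.tendsto_nhds]
  intro ε hε
  have hg0 : 0 ≤ gauge K₀ x := gauge_nonneg x
  set g := gauge K₀ x with hg
  set δ : ℝ := min (1 / 2) (ε / (4 * (g + 1))) with hδdef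
  have hδ : 0 < δ := lt_min (by norm_num) (by positivity)
  have hδ1 : δ ≤ 1 / 2 := min_le_left _ _
  have hδ2 : δ ≤ ε / (4 * (g + 1)) := min_le_right _ _
  have hδ3 : δ * (4 * (g + 1)) ≤ ε := by
    rwa [le_div_iff₀ (by positivity)] at hδ2
  filter_upwards [key δ hδ (by linarith)] with j hj
  rw [Real.dist_eq, abs_lt]
  constructor <;> nlinarith [hj.1, hj.2]

theorem gauge_tendsto_of_volume {K₀ : Set E3} (hK : IsBody K₀) (h0 : (0 : E3) ∈ interior K₀)
    {r R : ℝ} (hr : 0 < r) (P : ℕ → Set E3) (hP : ∀ j, IsBody (P j))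
    (h1 : ∀ j, closedBall 0 r ⊆ P j) (h2 : ∀ j, P j ⊆ closedBall 0 R)
    (hV : Tendsto (fun j => volume.real (symmDiff (P j) K₀)) atTop (𝓝 0)) {x : ℕ → E3} {x' : E3}
    (hx : Tendsto x atTop (𝓝 x')) :
    Tendsto (fun j => gauge (P j) (x j)) atTop (𝓝 (gauge K₀ x')) := by
  have h3 := gauge_pt hK h0 hr P hP h1 h2 hV x'
  have h4 : Tendsto (fun j => gauge (P j) (x j) - gauge (P j) x') atTop (𝓝 0) := by
    have h5 : Tendsto (fun j => r⁻¹ * ‖x j - x'‖) atTop (𝓝 0) := by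
      have h6 := (tendsto_iff_norm_sub_tendsto_zero.1 hx).const_mul r⁻¹
      rwa [mul_zero] at h6
    exact squeeze_zero_norm (fun j => lip (hP j).convex hr (h1 j) _ _) h5
  have h5 := h4.add h3
  rw [zero_add] at h5
  exact h5.congr fun j => by ring

/-- convergence of integrals over converging sets -/
private theorem int_lim {ρ B : ℝ} {F : ℕ → Set E2} {F' : Set E2} (hF : ∀ j, MeasurableSet (F j))
    (hF' : MeasurableSet F') (hρ : ∀ j, F j ⊆ closedBall 0 ρ)
    (hm : ∀ᵐ y : E2, ∀ᶠ j in atTop, (y ∈ F j ↔ y ∈ F')) {G : ℕ → E2 → ℝ} {G' : E2 → ℝ}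
    (hG : ∀ j, Measurable (G j)) (hB0 : 0 ≤ B) (hB : ∀ j, ∀ y ∈ F j, |G j y| ≤ B)
    (hlim : ∀ᵐ y : E2, y ∈ F' → Tendsto (fun j => G j y) atTop (𝓝 (G' y))) :
    Tendsto (fun j => ∫ y in F j, G j y) atTop (𝓝 (∫ y in F', G' y)) := by
  have e1 : ∀ j, ∫ y in F j, G j y = ∫ y, (F j).indicator (G j) y :=
    fun j => (integral_indicator (hF j)).symm
  simp only [e1]
  rw [← integral_indicator hF']
  refine tendsto_integral_of_dominated_convergence ((closedBall (0 : E2) ρ).indicator fun _ => B)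
    (fun j => ((hG j).indicator (hF j)).aestronglyMeasurable)
    ((integrable_indicator_iff measurableSet_closedBall).2
      (integrableOn_const measure_closedBall_lt_top.ne)) (fun j => ?_) ?_
  · refine Eventually.of_forall fun y => ?_
    by_cases h : y ∈ F j
    · rw [indicator_of_mem h, indicator_of_mem (hρ j h)]
      exact hB j y h
    · rw [indicator_of_notMem h, norm_zero]
      exact indicator_nonneg (fun _ _ => hB0) y
  · filter_upwards [hm, hlim] with y h1 h2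
    by_cases h : y ∈ F'
    · rw [indicator_of_mem h]
      refine (h2 h).congr' ?_
      filter_upwards [h1] with j hj
      rw [indicator_of_mem (hj.2 h)]
    · rw [indicator_of_notMem h]
      refine Tendsto.congr' ?_ tendsto_const_nhds
      filter_upwards [h1] with j hj
      rw [indicator_of_notMem (fun h' => h (hj.1 h'))]

/-- the limit configuration, when everything converges -/
private theorem config_aux {K₀ : Set E3} (hK : IsBody K₀) (h0 : (0 : E3) ∈ interior K₀)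
    {r R ρ m κ : ℝ} (hr : 0 < r) (hκ : 0 < κ) (A : ℕ → Finset E3)
    (h1 : ∀ j, closedBall 0 r ⊆ poly (A j)) (h2 : ∀ j, poly (A j) ⊆ closedBall 0 R)
    (hV : Tendsto (fun j => volume.real (symmDiff (poly (A j)) K₀)) atTop (𝓝 0))
    (a : ℕ → E3) (S : ℕ → ((E2 × ℝ) ≃L[ℝ] E3)) (ha : ∀ j, a j ∈ A j)
    (hS : ∀ j, IsChart (a j) (S j)) (hF1 : ∀ j, closedBall 0 1 ⊆ facet (poly (A j)) (S j))
    (hF2 : ∀ j, facet (poly (A j)) (S j) ⊆ closedBall 0 ρ)
    (hSb : ∀ j (y : E2) (t : ℝ), ‖S j (y, t)‖ ≤ R * (‖y‖ + |t|))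
    (η : ℕ → ℝ) (hη : Tendsto η atTop (𝓝 0))
    (hcond : ∀ j, (∃ y, qfun (poly (A j)) (S j) y < 1) → ∀ b : E3,
      |(∫ y in facet (poly (A j)) (S j) ∩ {y | qfun (poly (A j)) (S j) y ≤ 1},
          inner ℝ b (S j (y, 1))) -
        m / 2 * ∫ y in facet (poly (A j)) (S j), inner ℝ b (S j (y, 1))| ≤
        η j / 2 * ∫ y in facet (poly (A j)) (S j), |inner ℝ b (S j (y, 1))|)
    (hineq : ∀ j, (κ - η j) * volume.real (facet (poly (A j)) (S j)) ≤
      Qint (facet (poly (A j)) (S j)) (qfun (poly (A j)) (S j)))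
    (a' : E3) (T : (E2 × ℝ) →L[ℝ] E3) (F : Set E2) (ha' : Tendsto a atTop (𝓝 a'))
    (hT : ∀ p, Tendsto (fun j => S j p) atTop (𝓝 (T p))) (hFc : Convex ℝ F)
    (hFk : IsCompact F) (hF1' : closedBall 0 1 ⊆ F)
    (hFg : ∀ y, Tendsto (fun j => gauge (facet (poly (A j)) (S j)) y) atTop (𝓝 (gauge F y))) :
    Config K₀ m κ a' T F ∧
      ∀ (x₀ : E3) (δ : ℝ), (∀ j, ∃ y ∈ facet (poly (A j)) (S j), ‖S j (y, 1) - x₀‖ ≤ δ) →
        ∃ y ∈ F, ‖T (y, 1) - x₀‖ ≤ δ := by
  have hbody : ∀ j, IsBody (poly (A j)) := fun j => (poly_body hr (h1 j) (h2 j)).1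
  have hK0 : K₀ ∈ 𝓝 (0 : E3) := mem_interior_iff_mem_nhds.1 h0
  have hff := fun j => facet_facts hr (h1 j) (h2 j) (ha j) (hS j)
  have hR : 0 ≤ R := by
    have h := h2 0 (h1 0 (mem_closedBall_self hr.le))
    rwa [mem_closedBall, dist_self] at h
  have hgt : ∀ {x : ℕ → E3} {x' : E3}, Tendsto x atTop (𝓝 x') →
      Tendsto (fun j => gauge (poly (A j)) (x j)) atTop (𝓝 (gauge K₀ x')) := fun hx =>
    gauge_tendsto_of_volume hK h0 hr (fun j => poly (A j)) hbody h1 h2 hV hx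
  have hmemK : ∀ x, gauge K₀ x ≤ 1 → x ∈ K₀ := by
    intro x hx
    rw [gauge_le_one_iff_mem_closure hK.convex hK0, hK.isCompact.isClosed.closure_eq] at hx
    exact hx
  have hF0 : F ∈ 𝓝 (0 : E2) := mem_of_superset (closedBall_mem_nhds 0 one_pos) hF1'
  have hmemF : ∀ y, gauge F y ≤ 1 → y ∈ F := by
    intro y hy
    rw [gauge_le_one_iff_mem_closure hFc hF0, hFk.isClosed.closure_eq] at hy
    exact hy
  have hFj0 : ∀ j, facet (poly (A j)) (S j) ∈ 𝓝 (0 : E2) := fun j =>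
    mem_of_superset (closedBall_mem_nhds 0 one_pos) (hF1 j)
  -- convergence of q
  have hq : ∀ y, Tendsto (fun j => qfun (poly (A j)) (S j) y) atTop (𝓝 (qfun K₀ T y)) := fun y =>
    hgt (hT (y, 1)).neg
  have hSc : ∀ j, Continuous fun y : E2 => S j (y, (1 : ℝ)) := fun j =>
    (S j).continuous.comp (continuous_id.prodMk continuous_const)
  have hTc : Continuous fun y : E2 => T (y, (1 : ℝ)) :=
    T.continuous.comp (continuous_id.prodMk continuous_const)
  have hqc : ∀ j, Continuous (qfun (poly (A j)) (S j)) := fun j =>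
    (continuous_gauge (hbody j).convex
      (mem_of_superset (closedBall_mem_nhds 0 hr) (h1 j))).comp (hSc j).neg
  have hqc' : Continuous (qfun K₀ T) := (continuous_gauge hK.convex hK0).comp hTc.neg
  -- measurability
  have hFm : ∀ j, MeasurableSet (facet (poly (A j)) (S j)) := fun j =>
    (hff j).1.isClosed.measurableSet
  have hFm' : MeasurableSet F := hFk.isClosed.measurableSet
  have hFmem : ∀ᵐ y : E2, ∀ᶠ j in atTop, (y ∈ facet (poly (A j)) (S j) ↔ y ∈ F) :=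
    indicator_tendsto volume one_pos (fun j => (hff j).2.1) (fun j => (hff j).1.isClosed) hF1
      hFc hFk.isClosed hF1' hFg
  have hchart : ∀ y t, inner ℝ a' (T (y, t)) = t := by
    intro y t
    have h3 : Tendsto (fun j => (inner ℝ (a j) (S j (y, t)) : ℝ)) atTop
        (𝓝 (inner ℝ a' (T (y, t)))) := ha'.inner (hT (y, t))
    have h4 : (fun j => (inner ℝ (a j) (S j (y, t)) : ℝ)) = fun _ => t := by
      funext j; exact hS j y t
    rw [h4] at h3
    exact tendsto_nhds_unique h3 tendsto_const_nhds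
  have hsupp : ∀ x ∈ K₀, inner ℝ a' x ≤ 1 := by
    intro x hx
    have h3 : Tendsto (fun j => (inner ℝ (a j) x : ℝ)) atTop (𝓝 (inner ℝ a' x)) :=
      ha'.inner tendsto_const_nhds
    have h4 : Tendsto (fun j => gauge (poly (A j)) x) atTop (𝓝 (gauge K₀ x)) :=
      hgt tendsto_const_nhds
    have h5 : ∀ j, (inner ℝ (a j) x : ℝ) ≤ gauge (poly (A j)) x := fun j =>
      (poly_gauge hr (h1 j) (gauge_nonneg x) x).1 le_rfl (a j) (ha j)
    exact (le_of_tendsto_of_tendsto' h3 h4 h5).trans (gauge_le_one_of_mem hx)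
  have hmem1 : ∀ y, gauge F y < 1 → T (y, 1) ∈ K₀ := by
    intro y hy
    have h3 : ∀ᶠ j in atTop, gauge (poly (A j)) (S j (y, 1)) ≤ 1 := by
      filter_upwards [(hFg y).eventually (gt_mem_nhds hy)] with j hj
      have h4 : y ∈ facet (poly (A j)) (S j) :=
        interior_subset ((gauge_lt_one_iff_mem_interior (hff j).2.1 (hFj0 j)).1 hj)
      exact gauge_le_one_of_mem h4
    exact hmemK _ (le_of_tendsto (hgt (hT (y, 1))) h3)
  have hmem : ∀ y ∈ F, T (y, 1) ∈ K₀ := by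
    intro y hy
    have h3 : IsClosed {s : ℝ | T (s • y, 1) ∈ K₀} := by
      have h4 : Continuous fun s : ℝ => T (s • y, (1 : ℝ)) :=
        T.continuous.comp ((continuous_id.smul continuous_const).prodMk continuous_const)
      exact hK.isCompact.isClosed.preimage h4
    have h5 : Ioo (0 : ℝ) 1 ⊆ {s : ℝ | T (s • y, 1) ∈ K₀} := by
      intro s hs
      refine hmem1 _ ?_
      rw [gauge_smul_of_nonneg hs.1.le, smul_eq_mul]
      have h6 := gauge_le_one_of_mem hy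
      have h7 := gauge_nonneg (s := F) y
      nlinarith [hs.1, hs.2]
    have h6 := closure_minimal h5 h3
    rw [closure_Ioo (by norm_num)] at h6
    have h7 : (1 : ℝ) ∈ Icc (0 : ℝ) 1 := ⟨zero_le_one, le_rfl⟩
    have h8 := h6 h7
    simpa using h8
  -- lower bound of q on F (almost everywhere)
  have hRr : 0 ≤ R / r := by positivity
  have hqlow : ∀ᵐ y : E2, y ∈ F → r / R ≤ qfun K₀ T y := by
    filter_upwards [hFmem] with y hy hyF
    refine ge_of_tendsto (hq y) ?_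
    filter_upwards [hy] with j hj
    exact ((hff j).2.2 y (hj.2 hyF)).2.1
  have hRpos : 0 < R := by
    obtain ⟨h3, -⟩ := (hff 0).2.2 0 (hF1 0 (mem_closedBall_self zero_le_one))
    have h4 := hSb 0 0 1
    rw [norm_zero, zero_add, abs_one, mul_one] at h4
    linarith
  have hrR : 0 < r / R := by positivity
  -- volumes
  have hvol : Tendsto (fun j => volume.real (facet (poly (A j)) (S j))) atTop
      (𝓝 (volume.real F)) := by
    have h3 := int_lim hFm hFm' hF2 hFmem (G := fun _ _ => 1) (G' := fun _ => 1) (B := 1)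
      (fun _ => measurable_const) zero_le_one (fun _ _ _ => by simp)
      (Eventually.of_forall fun _ _ => tendsto_const_nhds)
    simpa using h3
  have hQ : Tendsto (fun j => Qint (facet (poly (A j)) (S j)) (qfun (poly (A j)) (S j))) atTop
      (𝓝 (Qint F (qfun K₀ T))) := by
    unfold Qint
    refine int_lim hFm hFm' hF2 hFmem (B := (R / r) ^ 3) (fun j => ?_) (by positivity)
      (fun j y hy => ?_) ?_
    · exact (((hqc j).measurable.inv.pow_const 3).sub_const 1).max measurable_const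
    · obtain ⟨-, h4, -⟩ := (hff j).2.2 y hy
      have h5 : (qfun (poly (A j)) (S j) y)⁻¹ ≤ R / r := by
        rw [← inv_div]
        exact inv_anti₀ hrR h4
      have h6 : 0 ≤ (qfun (poly (A j)) (S j) y)⁻¹ := inv_nonneg.2 (gauge_nonneg _)
      have h7 : (qfun (poly (A j)) (S j) y)⁻¹ ^ 3 ≤ (R / r) ^ 3 := pow_le_pow_left₀ h6 h5 3
      rw [abs_of_nonneg (le_max_right _ _)]
      exact max_le (by linarith) (by positivity)
    · filter_upwards [hqlow] with y hy hyF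
      have h4 : qfun K₀ T y ≠ 0 := (lt_of_lt_of_le hrR (hy hyF)).ne'
      exact ((((hq y).inv₀ h4).pow 3).sub_const 1).max tendsto_const_nhds
  have hlower : κ * volume.real F ≤ Qint F (qfun K₀ T) := by
    have h3 : Tendsto (fun j => (κ - η j) * volume.real (facet (poly (A j)) (S j))) atTop
        (𝓝 ((κ - 0) * volume.real F)) := (hη.const_sub κ).mul hvol
    rw [sub_zero] at h3
    exact le_of_tendsto_of_tendsto' h3 hQ hineq
  have hvolpos : 0 < volume.real F := by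
    refine ENNReal.toReal_pos ?_ hFk.measure_lt_top.ne
    refine (lt_of_lt_of_le ?_ (measure_mono hF1')).ne'
    exact measure_closedBall_pos _ _ one_pos
  have hlt : ∃ y ∈ F, qfun K₀ T y < 1 := by
    by_contra hcon
    push Not at hcon
    have h3 : Qint F (qfun K₀ T) = 0 := by
      unfold Qint
      refine setIntegral_eq_zero_of_forall_eq_zero fun y hy => ?_
      have h4 := hcon y hy
      have h5 : (qfun K₀ T y)⁻¹ ≤ 1 := inv_le_one_of_one_le₀ h4
      have h6 : 0 ≤ (qfun K₀ T y)⁻¹ := by positivity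
      have h7 : (qfun K₀ T y)⁻¹ ^ 3 ≤ 1 := pow_le_one₀ h6 h5
      exact max_eq_right (by linarith)
    rw [h3] at hlower
    have := mul_pos hκ hvolpos
    linarith
  -- the moment conditions
  have hmom : ∀ (v : E2) (c : ℝ), ∫ y in F ∩ {y | qfun K₀ T y ≤ 1}, (inner ℝ v y + c) =
      m / 2 * ∫ y in F, (inner ℝ v y + c) := by
    intro v c
    obtain ⟨y1, -, hy1⟩ := hlt
    have hnull := q_level_null hK h0 T ⟨y1, hy1⟩
    have hne : ∀ᵐ y : E2, qfun K₀ T y ≠ 1 := by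
      rw [ae_iff]
      simpa using hnull
    have hGm : ∀ j, MeasurableSet (facet (poly (A j)) (S j) ∩
        {y | qfun (poly (A j)) (S j) y ≤ 1}) := fun j =>
      (hFm j).inter (isClosed_le (hqc j) continuous_const).measurableSet
    have hGm' : MeasurableSet (F ∩ {y | qfun K₀ T y ≤ 1}) :=
      hFm'.inter (isClosed_le hqc' continuous_const).measurableSet
    have hGmem : ∀ᵐ y : E2, ∀ᶠ j in atTop, (y ∈ facet (poly (A j)) (S j) ∩
        {y | qfun (poly (A j)) (S j) y ≤ 1} ↔ y ∈ F ∩ {y | qfun K₀ T y ≤ 1}) := by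
      filter_upwards [hFmem, hne] with y h3 h4
      have h5 : ∀ᶠ j in atTop, (qfun (poly (A j)) (S j) y ≤ 1 ↔ qfun K₀ T y ≤ 1) := by
        rcases lt_or_gt_of_ne h4 with h | h
        · filter_upwards [(hq y).eventually (gt_mem_nhds h)] with j hj
          exact ⟨fun _ => h.le, fun _ => hj.le⟩
        · filter_upwards [(hq y).eventually (lt_mem_nhds h)] with j hj
          exact ⟨fun h' => absurd h' (not_le.2 hj), fun h' => absurd h' (not_le.2 h)⟩
      filter_upwards [h3, h5] with j h6 h7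
      exact and_congr h6 h7
    have hlm : Measurable fun y : E2 => (inner ℝ v y + c : ℝ) := by fun_prop
    have hlb : ∀ y ∈ closedBall (0 : E2) ρ, |(inner ℝ v y + c : ℝ)| ≤ ‖v‖ * |ρ| + |c| := by
      intro y hy
      rw [mem_closedBall, dist_zero_right] at hy
      refine (abs_add_le _ _).trans ?_
      have h3 := abs_real_inner_le_norm v y
      have h4 : ‖v‖ * ‖y‖ ≤ ‖v‖ * |ρ| :=
        mul_le_mul_of_nonneg_left (hy.trans (le_abs_self ρ)) (norm_nonneg _)
      linarith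
    have hB0 : 0 ≤ ‖v‖ * |ρ| + |c| := by positivity
    have i1 : Tendsto (fun j => ∫ y in facet (poly (A j)) (S j) ∩
        {y | qfun (poly (A j)) (S j) y ≤ 1}, (inner ℝ v y + c)) atTop
        (𝓝 (∫ y in F ∩ {y | qfun K₀ T y ≤ 1}, (inner ℝ v y + c))) :=
      int_lim hGm hGm' (fun j => inter_subset_left.trans (hF2 j)) hGmem (fun _ => hlm) hB0
        (fun j y hy => hlb y (hF2 j hy.1)) (Eventually.of_forall fun _ _ => tendsto_const_nhds)
    have i2 : Tendsto (fun j => ∫ y in facet (poly (A j)) (S j), (inner ℝ v y + c)) atTop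
        (𝓝 (∫ y in F, (inner ℝ v y + c))) :=
      int_lim hFm hFm' hF2 hFmem (fun _ => hlm) hB0
        (fun j y hy => hlb y (hF2 j hy)) (Eventually.of_forall fun _ _ => tendsto_const_nhds)
    have i3 : Tendsto (fun j => ∫ y in facet (poly (A j)) (S j), |(inner ℝ v y + c : ℝ)|) atTop
        (𝓝 (∫ y in F, |(inner ℝ v y + c : ℝ)|)) :=
      int_lim hFm hFm' hF2 hFmem (fun _ => hlm.abs) hB0
        (fun j y hy => by rw [abs_abs]; exact hlb y (hF2 j hy))
        (Eventually.of_forall fun _ _ => tendsto_const_nhds)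
    have i4 : ∀ᶠ j in atTop, |(∫ y in facet (poly (A j)) (S j) ∩
        {y | qfun (poly (A j)) (S j) y ≤ 1}, (inner ℝ v y + c)) -
        m / 2 * ∫ y in facet (poly (A j)) (S j), (inner ℝ v y + c)| ≤
        η j / 2 * ∫ y in facet (poly (A j)) (S j), |(inner ℝ v y + c : ℝ)| := by
      filter_upwards [(hq y1).eventually (gt_mem_nhds hy1)] with j hj
      let f : (E2 × ℝ) →L[ℝ] ℝ := (innerSL ℝ v).comp (ContinuousLinearMap.fst ℝ E2 ℝ) +
        c • ContinuousLinearMap.snd ℝ E2 ℝ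
      let g : E3 →L[ℝ] ℝ := f.comp ((S j).symm : E3 →L[ℝ] (E2 × ℝ))
      have h3 := hcond j ⟨y1, hj⟩ ((InnerProductSpace.toDual ℝ E3).symm g)
      have h4 : ∀ y : E2, (inner ℝ ((InnerProductSpace.toDual ℝ E3).symm g) (S j (y, 1)) : ℝ) =
          inner ℝ v y + c := by
        intro y
        rw [InnerProductSpace.toDual_symm_apply]
        simp [g, f]
      simp only [h4] at h3
      exact h3
    have i5 := (i1.sub (i2.const_mul (m / 2))).abs
    have i6 := (hη.div_const 2).mul i3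
    rw [zero_div, zero_mul] at i6
    have i7 := le_of_tendsto_of_tendsto i5 i6 i4
    exact sub_eq_zero.1 (abs_nonpos_iff.1 i7)
  refine ⟨⟨hFc, hFk, hF1', hchart, hsupp, hmem, hlt, hmom, hlower⟩, fun x₀ δ hloc => ?_⟩
  -- location
  choose y hyF hyd using hloc
  obtain ⟨y', -, φ, hφ, hy'⟩ := tendsto_subseq_of_bounded (isBounded_closedBall (x := (0 : E2))
    (r := ρ)) (fun j => hF2 j (hyF j))
  have hn : Tendsto (fun j => ‖y (φ j) - y'‖) atTop (𝓝 0) :=
    tendsto_iff_norm_sub_tendsto_zero.1 hy'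
  refine ⟨y', hmemF _ ?_, ?_⟩
  · have h3 : Tendsto (fun j => gauge (facet (poly (A (φ j))) (S (φ j))) y') atTop
        (𝓝 (gauge F y')) := (hFg y').comp hφ.tendsto_atTop
    have h4 : Tendsto (fun j => 1 + 1⁻¹ * ‖y (φ j) - y'‖) atTop (𝓝 (1 + 1⁻¹ * 0)) :=
      (hn.const_mul _).const_add 1
    rw [mul_zero, add_zero] at h4
    refine le_of_tendsto_of_tendsto' h3 h4 fun j => ?_
    have h5 := lip2 (hff (φ j)).2.1 one_pos (hF1 (φ j)) (y (φ j)) y'
    have h6 := gauge_le_one_of_mem (hyF (φ j))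
    have h7 := (abs_le.1 h5).1
    linarith
  · have h3 : Tendsto (fun j => S (φ j) (y', 1)) atTop (𝓝 (T (y', 1))) :=
      (hT (y', 1)).comp hφ.tendsto_atTop
    have h4 : Tendsto (fun j => S (φ j) (y (φ j), 1) - S (φ j) (y', 1)) atTop (𝓝 0) := by
      have h5 : Tendsto (fun j => R * ‖y (φ j) - y'‖) atTop (𝓝 0) := by
        have := hn.const_mul R
        rwa [mul_zero] at this
      refine squeeze_zero_norm (fun j => ?_) h5
      have h6 := hSb (φ j) (y (φ j) - y') 0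
      rw [abs_zero, add_zero] at h6
      have h7 : S (φ j) (y (φ j), 1) - S (φ j) (y', 1) = S (φ j) (y (φ j) - y', 0) := by
        rw [← map_sub]
        congr 1
        ext <;> simp
      rw [h7]
      exact h6
    have h5 := h4.add h3
    rw [zero_add] at h5
    have h6 : Tendsto (fun j => ‖S (φ j) (y (φ j), 1) - x₀‖) atTop (𝓝 ‖T (y', 1) - x₀‖) :=
      ((h5.congr fun j => by simp).sub_const x₀).norm
    exact le_of_tendsto' h6 fun j => hyd (φ j)

theorem limit_config {K₀ : Set E3} (hK : IsBody K₀) (h0 : (0 : E3) ∈ interior K₀)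
    {r R ρ m κ : ℝ} (hr : 0 < r) (hρ : 1 ≤ ρ) (hκ : 0 < κ) (A : ℕ → Finset E3)
    (h1 : ∀ j, closedBall 0 r ⊆ poly (A j)) (h2 : ∀ j, poly (A j) ⊆ closedBall 0 R)
    (hV : Tendsto (fun j => volume.real (symmDiff (poly (A j)) K₀)) atTop (𝓝 0))
    (a : ℕ → E3) (S : ℕ → ((E2 × ℝ) ≃L[ℝ] E3)) (ha : ∀ j, a j ∈ A j)
    (hS : ∀ j, IsChart (a j) (S j)) (hF1 : ∀ j, closedBall 0 1 ⊆ facet (poly (A j)) (S j))
    (hF2 : ∀ j, facet (poly (A j)) (S j) ⊆ closedBall 0 ρ)
    (hSb : ∀ j (y : E2) (t : ℝ), ‖S j (y, t)‖ ≤ R * (‖y‖ + |t|))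
    (η : ℕ → ℝ) (hη : Tendsto η atTop (𝓝 0))
    (hcond : ∀ j, (∃ y, qfun (poly (A j)) (S j) y < 1) → ∀ b : E3,
      |(∫ y in facet (poly (A j)) (S j) ∩ {y | qfun (poly (A j)) (S j) y ≤ 1},
          inner ℝ b (S j (y, 1))) -
        m / 2 * ∫ y in facet (poly (A j)) (S j), inner ℝ b (S j (y, 1))| ≤
        η j / 2 * ∫ y in facet (poly (A j)) (S j), |inner ℝ b (S j (y, 1))|)
    (hineq : ∀ j, (κ - η j) * volume.real (facet (poly (A j)) (S j)) ≤
      Qint (facet (poly (A j)) (S j)) (qfun (poly (A j)) (S j))) :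
    ∃ (a' : E3) (T : (E2 × ℝ) →L[ℝ] E3) (F : Set E2), Config K₀ m κ a' T F ∧
      ∀ (x₀ : E3) (δ : ℝ), (∀ j, ∃ y ∈ facet (poly (A j)) (S j), ‖S j (y, 1) - x₀‖ ≤ δ) →
        ∃ y ∈ F, ‖T (y, 1) - x₀‖ ≤ δ := by
  have hR : 0 ≤ R := by
    have h := h2 0 (h1 0 (mem_closedBall_self hr.le))
    rwa [mem_closedBall, dist_self] at h
  have hff := fun j => facet_facts hr (h1 j) (h2 j) (ha j) (hS j)
  obtain ⟨φ1, hφ1, F, hFc, hFk, hF1', -, hFg⟩ := exists_subseq_body (E := E2) one_pos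
    (fun j => facet (poly (A j)) (S j)) (fun j => (hff j).2.1) (fun j => (hff j).1.isClosed)
    hF1 hF2
  have hbd : ∀ j, ((a (φ1 j), (S (φ1 j) : (E2 × ℝ) →L[ℝ] E3)) : E3 × ((E2 × ℝ) →L[ℝ] E3)) ∈
      closedBall (0 : E3) (1 / r) ×ˢ closedBall (0 : (E2 × ℝ) →L[ℝ] E3) (2 * R) := by
    intro j
    refine ⟨?_, ?_⟩
    · rw [mem_closedBall, dist_zero_right]
      exact norm_le_of_ball_subset hr (h1 _) (ha _)
    · rw [mem_closedBall, dist_zero_right]
      refine ContinuousLinearMap.opNorm_le_bound _ (by positivity) fun p => ?_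
      have h3 := hSb (φ1 j) p.1 p.2
      have h4 : ‖p.1‖ ≤ ‖p‖ := norm_fst_le p
      have h5 : |p.2| ≤ ‖p‖ := norm_snd_le p
      calc ‖(S (φ1 j) : (E2 × ℝ) →L[ℝ] E3) p‖ ≤ R * (‖p.1‖ + |p.2|) := h3
        _ ≤ R * (‖p‖ + ‖p‖) := mul_le_mul_of_nonneg_left (by linarith) hR
        _ = 2 * R * ‖p‖ := by ring
  obtain ⟨⟨a', T⟩, -, φ2, hφ2, hlim⟩ := tendsto_subseq_of_bounded
    (isBounded_closedBall.prod isBounded_closedBall) hbd
  have hψ : StrictMono (φ1 ∘ φ2) := hφ1.comp hφ2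
  have hlim1 : Tendsto (fun j => a (φ1 (φ2 j))) atTop (𝓝 a') :=
    (continuous_fst.tendsto _).comp hlim
  have hlim2 : Tendsto (fun j => (S (φ1 (φ2 j)) : (E2 × ℝ) →L[ℝ] E3)) atTop (𝓝 T) :=
    (continuous_snd.tendsto _).comp hlim
  have hT : ∀ p, Tendsto (fun j => S (φ1 (φ2 j)) p) atTop (𝓝 (T p)) := fun p =>
    ((ContinuousLinearMap.apply ℝ E3 p).continuous.tendsto T).comp hlim2
  obtain ⟨hC, hL⟩ := config_aux hK h0 hr hκ (fun j => A (φ1 (φ2 j))) (fun j => h1 _)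
    (fun j => h2 _) (hV.comp hψ.tendsto_atTop) (fun j => a (φ1 (φ2 j)))
    (fun j => S (φ1 (φ2 j))) (fun j => ha _) (fun j => hS _) (fun j => hF1 _) (fun j => hF2 _)
    (fun j => hSb _) (fun j => η (φ1 (φ2 j))) (hη.comp hψ.tendsto_atTop)
    (fun j => hcond _) (fun j => hineq _) a' T F hlim1 hT hFc hFk hF1'
    (fun y => (hFg y).comp hφ2.tendsto_atTop)
  exact ⟨a', T, F, hC, fun x₀ δ h => hL x₀ δ fun j => h _⟩

/-- the same, with the convergence of the vectors and of the charts -/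
theorem limit_config2 {K₀ : Set E3} (hK : IsBody K₀) (h0 : (0 : E3) ∈ interior K₀)
    {r R ρ m κ : ℝ} (hr : 0 < r) (hρ : 1 ≤ ρ) (hκ : 0 < κ) (A : ℕ → Finset E3)
    (h1 : ∀ j, closedBall 0 r ⊆ poly (A j)) (h2 : ∀ j, poly (A j) ⊆ closedBall 0 R)
    (hV : Tendsto (fun j => volume.real (symmDiff (poly (A j)) K₀)) atTop (𝓝 0))
    (a : ℕ → E3) (S : ℕ → ((E2 × ℝ) ≃L[ℝ] E3)) (ha : ∀ j, a j ∈ A j)
    (hS : ∀ j, IsChart (a j) (S j)) (hF1 : ∀ j, closedBall 0 1 ⊆ facet (poly (A j)) (S j))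
    (hF2 : ∀ j, facet (poly (A j)) (S j) ⊆ closedBall 0 ρ)
    (hSb : ∀ j (y : E2) (t : ℝ), ‖S j (y, t)‖ ≤ R * (‖y‖ + |t|))
    (η : ℕ → ℝ) (hη : Tendsto η atTop (𝓝 0))
    (hcond : ∀ j, (∃ y, qfun (poly (A j)) (S j) y < 1) → ∀ b : E3,
      |(∫ y in facet (poly (A j)) (S j) ∩ {y | qfun (poly (A j)) (S j) y ≤ 1},
          inner ℝ b (S j (y, 1))) -
        m / 2 * ∫ y in facet (poly (A j)) (S j), inner ℝ b (S j (y, 1))| ≤
        η j / 2 * ∫ y in facet (poly (A j)) (S j), |inner ℝ b (S j (y, 1))|)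
    (hineq : ∀ j, (κ - η j) * volume.real (facet (poly (A j)) (S j)) ≤
      Qint (facet (poly (A j)) (S j)) (qfun (poly (A j)) (S j))) :
    ∃ (φ : ℕ → ℕ) (a' : E3) (T : (E2 × ℝ) →L[ℝ] E3) (F : Set E2), StrictMono φ ∧
      Config K₀ m κ a' T F ∧ Tendsto (fun j => a (φ j)) atTop (𝓝 a') ∧
      Tendsto (fun j => (S (φ j) : (E2 × ℝ) →L[ℝ] E3)) atTop (𝓝 T) := by
  have hR : 0 ≤ R := by
    have h := h2 0 (h1 0 (mem_closedBall_self hr.le))
    rwa [mem_closedBall, dist_self] at h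
  have hff := fun j => facet_facts hr (h1 j) (h2 j) (ha j) (hS j)
  obtain ⟨φ1, hφ1, F, hFc, hFk, hF1', -, hFg⟩ := exists_subseq_body (E := E2) one_pos
    (fun j => facet (poly (A j)) (S j)) (fun j => (hff j).2.1) (fun j => (hff j).1.isClosed)
    hF1 hF2
  have hbd : ∀ j, ((a (φ1 j), (S (φ1 j) : (E2 × ℝ) →L[ℝ] E3)) : E3 × ((E2 × ℝ) →L[ℝ] E3)) ∈
      closedBall (0 : E3) (1 / r) ×ˢ closedBall (0 : (E2 × ℝ) →L[ℝ] E3) (2 * R) := by
    intro j
    refine ⟨?_, ?_⟩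
    · rw [mem_closedBall, dist_zero_right]
      exact norm_le_of_ball_subset hr (h1 _) (ha _)
    · rw [mem_closedBall, dist_zero_right]
      refine ContinuousLinearMap.opNorm_le_bound _ (by positivity) fun p => ?_
      have h3 := hSb (φ1 j) p.1 p.2
      have h4 : ‖p.1‖ ≤ ‖p‖ := norm_fst_le p
      have h5 : |p.2| ≤ ‖p‖ := norm_snd_le p
      calc ‖(S (φ1 j) : (E2 × ℝ) →L[ℝ] E3) p‖ ≤ R * (‖p.1‖ + |p.2|) := h3
        _ ≤ R * (‖p‖ + ‖p‖) := mul_le_mul_of_nonneg_left (by linarith) hR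
        _ = 2 * R * ‖p‖ := by ring
  obtain ⟨⟨a', T⟩, -, φ2, hφ2, hlim⟩ := tendsto_subseq_of_bounded
    (isBounded_closedBall.prod isBounded_closedBall) hbd
  have hψ : StrictMono (φ1 ∘ φ2) := hφ1.comp hφ2
  have hlim1 : Tendsto (fun j => a (φ1 (φ2 j))) atTop (𝓝 a') :=
    (continuous_fst.tendsto _).comp hlim
  have hlim2 : Tendsto (fun j => (S (φ1 (φ2 j)) : (E2 × ℝ) →L[ℝ] E3)) atTop (𝓝 T) :=
    (continuous_snd.tendsto _).comp hlim
  have hT : ∀ p, Tendsto (fun j => S (φ1 (φ2 j)) p) atTop (𝓝 (T p)) := fun p =>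
    ((ContinuousLinearMap.apply ℝ E3 p).continuous.tendsto T).comp hlim2
  obtain ⟨hC, -⟩ := config_aux hK h0 hr hκ (fun j => A (φ1 (φ2 j))) (fun j => h1 _)
    (fun j => h2 _) (hV.comp hψ.tendsto_atTop) (fun j => a (φ1 (φ2 j)))
    (fun j => S (φ1 (φ2 j))) (fun j => ha _) (fun j => hS _) (fun j => hF1 _) (fun j => hF2 _)
    (fun j => hSb _) (fun j => η (φ1 (φ2 j))) (hη.comp hψ.tendsto_atTop)
    (fun j => hcond _) (fun j => hineq _) a' T F hlim1 hT hFc hFk hF1'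
    (fun y => (hFg y).comp hφ2.tendsto_atTop)
  exact ⟨φ1 ∘ φ2, a', T, F, hψ, hC, hlim1, hlim2⟩

end Pool.Agent.Lib.MP_43065d_gt
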