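import Pool.Agent.Lib.MP_43065d_gt.CsecB
import Pool.Agent.Lib.MP_43065d_gt.Limit

/-!
# Module GrpA: limits of facet vectors of polytopes converging to `K₀`

Write `P j = poly (A j)`, `g j = gauge (P j)`, `g₀ = gauge K₀`.
PROOF.
(0) `g j (x j) → g₀ x` if `x j → x` (`gauge_tendsto_of_volume`), also along a subsequence.
`grp_meas`: `grp A κ a` is the union over the finite set of the `c ∈ A` with `‖c - a‖ < κ` of closed sets.
`seq_limit`: `‖c j‖ ≤ 1/r` (`norm_le_of_ball_subset`), so a subsequence converges to some `b` (`tendsto_subseq_of_bounded`).  `⟪c j, y⟫ ≤ g (φ j) y` for all `y` (`gle`, `c j ∈ osup (P (φ j))` by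
definition), so in the limit `⟪b, y⟫ ≤ g₀ y`, and `b ∈ osup K₀` (`gauge_le_one_of_mem`); `⟪c j, x⟫ = g (φ j) x` (`sector_eq_csec` and `gle`), so `⟪b, x⟫ = g₀ x`.
`face_volume_limit`: `a ∈ osup K₀` as in `seq_limit`.  Let `X j = P j ∩ sector (A j) (c j) ⊆ closedBall 0 R`.  A point `x` which is in `X j` for infinitely many `j` satisfies
`g j x = ⟪c j, x⟫`, `g j x ≤ 1` for these `j`, so `g₀ x = ⟪a, x⟫` and `g₀ x ≤ 1`, i.e. `x ∈ K₀ ∩ csec K₀ a =: X'` (`K₀` closed).  So every `x ∉ X'` is in only finitely many `X j`, and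
`vol (X j \ X') → 0` (dominated convergence for the indicator functions, all supported in `closedBall 0 R`).  `v ≤ vol (X j) ≤ vol X' + vol (X j \ X')`.
-/

open MeasureTheory Set Filter Topology Metric
open scoped ENNReal NNReal Pointwise

namespace Pool.Agent.Lib.MP_43065d_gt

private theorem GrpA_sector_closed (A : Finset E3) (c : E3) : IsClosed (sector A c) := by
  have h1 : sector A c = ⋂ c' ∈ A, {x : E3 | inner ℝ c' x ≤ inner ℝ c x} := by
    ext x
    simp only [sector, mem_setOf_eq, mem_iInter]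
  rw [h1]
  exact isClosed_biInter fun c' _ => isClosed_le (by fun_prop) (by fun_prop)

theorem grp_meas (A : Finset E3) (κ : ℝ) (a : E3) : MeasurableSet (grp A κ a) := by
  have h1 : grp A κ a = ⋃ c ∈ A, {x : E3 | ‖c - a‖ < κ ∧ x ∈ sector A c} := by
    ext x
    simp only [grp, mem_setOf_eq, mem_iUnion, exists_prop]
  rw [h1]
  refine Finset.measurableSet_biUnion A fun c _ => ?_
  by_cases h : ‖c - a‖ < κ
  · have h2 : {x : E3 | ‖c - a‖ < κ ∧ x ∈ sector A c} = sector A c := by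
      ext x
      simp only [mem_setOf_eq, h, true_and]
    rw [h2]
    exact (GrpA_sector_closed A c).measurableSet
  · have h2 : {x : E3 | ‖c - a‖ < κ ∧ x ∈ sector A c} = ∅ := by
      ext x
      simp only [mem_setOf_eq, h, false_and, mem_empty_iff_false]
    rw [h2]
    exact MeasurableSet.empty

private theorem GrpA_gauge {K₀ : Set E3} (hK : IsBody K₀) (h0 : (0 : E3) ∈ interior K₀) {r R : ℝ}
    (hr : 0 < r) {A : ℕ → Finset E3} (h1 : ∀ j, closedBall 0 r ⊆ poly (A j))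
    (h2 : ∀ j, poly (A j) ⊆ closedBall 0 R)
    (hV : Tendsto (fun j => volume.real (symmDiff (poly (A j)) K₀)) atTop (𝓝 0)) (y : E3) :
    Tendsto (fun j => gauge (poly (A j)) y) atTop (𝓝 (gauge K₀ y)) :=
  gauge_tendsto_of_volume hK h0 hr (fun j => poly (A j)) (fun j => (poly_body hr (h1 j) (h2 j)).1)
    h1 h2 hV (x := fun _ => y) tendsto_const_nhds

private theorem GrpA_osup {K₀ : Set E3} (hK : IsBody K₀) (h0 : (0 : E3) ∈ interior K₀) {r R : ℝ}
    (hr : 0 < r) {A : ℕ → Finset E3} (h1 : ∀ j, closedBall 0 r ⊆ poly (A j))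
    (h2 : ∀ j, poly (A j) ⊆ closedBall 0 R)
    (hV : Tendsto (fun j => volume.real (symmDiff (poly (A j)) K₀)) atTop (𝓝 0)) {c : ℕ → E3}
    (hc : ∀ j, c j ∈ A j) {a : E3} (ha : Tendsto c atTop (𝓝 a)) : a ∈ osup K₀ := by
  intro y hy
  have h3 := GrpA_gauge hK h0 hr h1 h2 hV y
  have h4 : Tendsto (fun j => (inner ℝ (c j) y : ℝ)) atTop (𝓝 (inner ℝ a y)) :=
    ha.inner tendsto_const_nhds
  have h5 : (inner ℝ a y : ℝ) ≤ gauge K₀ y := by
    refine le_of_tendsto_of_tendsto' h4 h3 fun j => ?_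
    exact gle (mem_of_superset (closedBall_mem_nhds 0 hr) (h1 j)) (fun x hx => hx (c j) (hc j)) y
  exact h5.trans (gauge_le_one_of_mem hy)

theorem seq_limit {K₀ : Set E3} (hK : IsBody K₀) (h0 : (0 : E3) ∈ interior K₀) {r R : ℝ}
    (hr : 0 < r) {A : ℕ → Finset E3} (h1 : ∀ j, closedBall 0 r ⊆ poly (A j))
    (h2 : ∀ j, poly (A j) ⊆ closedBall 0 R)
    (hV : Tendsto (fun j => volume.real (symmDiff (poly (A j)) K₀)) atTop (𝓝 0)) {φ : ℕ → ℕ}
    (hφ : StrictMono φ) {c : ℕ → E3} (hc : ∀ j, c j ∈ A (φ j)) {x : E3}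
    (hx : ∀ j, x ∈ sector (A (φ j)) (c j)) :
    ∃ b ∈ osup K₀, gauge K₀ x = inner ℝ b x ∧
      ∃ ψ : ℕ → ℕ, StrictMono ψ ∧ Tendsto (fun j => c (ψ j)) atTop (𝓝 b) := by
  obtain ⟨b, -, ψ, hψ, hb⟩ := tendsto_subseq_of_bounded (isBounded_closedBall (x := (0 : E3))
    (r := 1 / r)) (x := c) (fun j => by
      rw [mem_closedBall, dist_zero_right]
      exact norm_le_of_ball_subset hr (h1 _) (hc j))
  have hV' : Tendsto (fun j => volume.real (symmDiff (poly (A (φ (ψ j)))) K₀)) atTop (𝓝 0) :=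
    hV.comp (hφ.comp hψ).tendsto_atTop
  refine ⟨b, GrpA_osup hK h0 hr (fun j => h1 (φ (ψ j))) (fun j => h2 (φ (ψ j))) hV'
    (fun j => hc (ψ j)) hb, ?_, ψ, hψ, hb⟩
  have h3 := GrpA_gauge hK h0 hr (fun j => h1 (φ (ψ j))) (fun j => h2 (φ (ψ j))) hV' x
  have h4 : Tendsto (fun j => (inner ℝ (c (ψ j)) x : ℝ)) atTop (𝓝 (inner ℝ b x)) :=
    hb.inner tendsto_const_nhds
  refine tendsto_nhds_unique h3 (h4.congr fun j => ?_)
  have h5 := hx (ψ j)
  rw [sector_eq_csec hr (h1 _) (h2 _) (hc (ψ j))] at h5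
  exact le_antisymm (gle (mem_of_superset (closedBall_mem_nhds 0 hr) (h1 _))
    (fun y hy => hy (c (ψ j)) (hc (ψ j))) x) h5

theorem face_volume_limit {K₀ : Set E3} (hK : IsBody K₀) (h0 : (0 : E3) ∈ interior K₀) {r R : ℝ}
    (hr : 0 < r) {A : ℕ → Finset E3} (h1 : ∀ j, closedBall 0 r ⊆ poly (A j))
    (h2 : ∀ j, poly (A j) ⊆ closedBall 0 R)
    (hV : Tendsto (fun j => volume.real (symmDiff (poly (A j)) K₀)) atTop (𝓝 0)) {c : ℕ → E3}
    (hc : ∀ j, c j ∈ A j) {a : E3} (ha : Tendsto c atTop (𝓝 a)) {v : ℝ}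
    (hv : ∀ j, v ≤ volume.real (poly (A j) ∩ sector (A j) (c j))) :
    a ∈ osup K₀ ∧ v ≤ volume.real (K₀ ∩ csec K₀ a) := by
  refine ⟨GrpA_osup hK h0 hr h1 h2 hV hc ha, ?_⟩
  have hK0 : K₀ ∈ 𝓝 (0 : E3) := mem_interior_iff_mem_nhds.1 h0
  have hXm : ∀ j, MeasurableSet (poly (A j) ∩ sector (A j) (c j)) := fun j =>
    ((poly_convex (A j)).2.inter (GrpA_sector_closed _ _)).measurableSet
  have hX'm : MeasurableSet (K₀ ∩ csec K₀ a) :=
    (hK.isCompact.isClosed.inter (csec_closed hK.convex hK0 a)).measurableSet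
  have hlim : Tendsto (fun j => volume ((poly (A j) ∩ sector (A j) (c j)) \ (K₀ ∩ csec K₀ a))) atTop
      (𝓝 (volume (∅ : Set E3))) := by
    refine tendsto_measure_of_tendsto_indicator atTop (fun j => (hXm j).diff hX'm)
      (B := closedBall (0 : E3) R) measurableSet_closedBall measure_closedBall_lt_top.ne
      (Eventually.of_forall fun j => diff_subset.trans (inter_subset_left.trans (h2 j)))
      fun x => ?_
    by_cases hx : x ∈ K₀ ∩ csec K₀ a
    · exact Eventually.of_forall fun j => ⟨fun h => absurd hx h.2, fun h => absurd h (by simp)⟩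
    · by_contra hcon
      rw [not_eventually] at hcon
      have h3 : ∃ᶠ j in atTop, gauge (poly (A j)) x ≤ 1 ∧ gauge (poly (A j)) x ≤ inner ℝ (c j) x := by
        refine hcon.mono fun j hj => ?_
        have h4 : x ∈ (poly (A j) ∩ sector (A j) (c j)) \ (K₀ ∩ csec K₀ a) := by
          by_contra h5
          exact hj ⟨fun h => absurd h h5, fun h => absurd h (by simp)⟩
        refine ⟨gauge_le_one_of_mem h4.1.1, ?_⟩
        have h5 := h4.1.2
        rw [sector_eq_csec hr (h1 _) (h2 _) (hc j)] at h5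
        exact h5
      have h4 := GrpA_gauge hK h0 hr h1 h2 hV x
      have h5 : Tendsto (fun j => (inner ℝ (c j) x : ℝ)) atTop (𝓝 (inner ℝ a x)) :=
        ha.inner tendsto_const_nhds
      have h6 : gauge K₀ x ≤ 1 := le_of_tendsto_of_frequently h4 (h3.mono fun j hj => hj.1)
      have h7 : gauge K₀ x ≤ inner ℝ a x :=
        le_of_tendsto_of_tendsto_of_frequently h4 h5 (h3.mono fun j hj => hj.2)
      refine hx ⟨?_, h7⟩
      have h8 := (gauge_le_one_iff_mem_closure hK.convex hK0).1 h6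
      rwa [hK.isCompact.isClosed.closure_eq] at h8
  rw [measure_empty] at hlim
  have hlim2 : Tendsto (fun j => volume.real (K₀ ∩ csec K₀ a) +
      volume.real ((poly (A j) ∩ sector (A j) (c j)) \ (K₀ ∩ csec K₀ a))) atTop
      (𝓝 (volume.real (K₀ ∩ csec K₀ a) + 0)) := by
    refine tendsto_const_nhds.add ?_
    have h3 := (ENNReal.tendsto_toReal ENNReal.zero_ne_top).comp hlim
    rw [ENNReal.toReal_zero] at h3
    exact h3
  rw [add_zero] at hlim2
  refine ge_of_tendsto' hlim2 fun j => (hv j).trans ?_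
  have hfin1 : volume (K₀ ∩ csec K₀ a) ≠ ⊤ :=
    ((measure_mono inter_subset_left).trans_lt hK.isCompact.measure_lt_top).ne
  have hfin2 : volume ((poly (A j) ∩ sector (A j) (c j)) \ (K₀ ∩ csec K₀ a)) ≠ ⊤ :=
    ((measure_mono (diff_subset.trans (inter_subset_left.trans (h2 j)))).trans_lt
      measure_closedBall_lt_top).ne
  refine le_trans (measureReal_mono (fun x hx => ?_) ?_) (measureReal_union_le _ _)
  · by_cases h : x ∈ K₀ ∩ csec K₀ a
    · exact Or.inl h
    · exact Or.inr ⟨hx, h⟩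
  · exact ((measure_union_le _ _).trans_lt (ENNReal.add_lt_top.2 ⟨hfin1.lt_top, hfin2.lt_top⟩)).ne

end Pool.Agent.Lib.MP_43065d_gt
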