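import Pool.Agent.Lib.MP_43065d_gt.FV3
import Pool.Agent.Lib.MP_43065d_gt.GrpA

/-!
# Module GrpFV: first variation of a polytope for a group of facets

PROOF.  `P = poly A`, `Y = {g (-x) ≤ g x}` (closed), `s = A.filter (fun c => ‖c - a‖ < κ)` (classical).  `grp A κ a = ⋃ c ∈ s, csec P c` (`sector_eq_csec`).  The sets
`P ∩ csec P c`, `c ∈ s`, are pairwise almost disjoint (`csec_inter_null`, `c ∈ osup P` by definition) and measurable (`csec_closed`), the function `⟪b, x⟫` is integrable on `P`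
(bounded on a bounded set), so (`integral_biUnion_finset` has an a.e. version; or an induction on finite sets with `setIntegral_union_ae`-type lemmas)
`∫_{P ∩ grp} ⟪b, x⟫ = ∑_{c ∈ s} ∫_{P ∩ csec P c} ⟪b, x⟫`, the same with `∩ Y`, and
`∑_{c ∈ s} ∫_{P ∩ csec P c} |⟪b, x⟫| = ∫_{P ∩ grp} |⟪b, x⟫| ≤ ∫_P |⟪b, x⟫|`.  Sum `fv3` over `s` and use the triangle inequality (`Finset.abs_sum_le_sum_abs`).
-/

open MeasureTheory Set Filter Topology Metric
open scoped ENNReal NNReal Pointwise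

namespace Pool.Agent.Lib.MP_43065d_gt

private theorem gfv_sum {P : Set E3} (hP : Convex ℝ P) (h0 : P ∈ 𝓝 (0 : E3)) {X : Set E3}
    (hX : MeasurableSet X) {f : E3 → ℝ} (hf : IntegrableOn f X volume) (s : Finset E3)
    (hs : ∀ c ∈ s, c ∈ osup P) :
    ∫ x in X ∩ (⋃ c ∈ s, csec P c), f x = ∑ c ∈ s, ∫ x in X ∩ csec P c, f x := by
  classical
  induction s using Finset.induction_on with
  | empty => simp
  | insert c s hcs ih =>
    have hs' : ∀ c' ∈ s, c' ∈ osup P := fun c' h => hs c' (Finset.mem_insert_of_mem h)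
    have hm : ∀ c', MeasurableSet (csec P c') := fun c' => (csec_closed hP h0 c').measurableSet
    rw [Finset.set_biUnion_insert, inter_union_distrib_left, setIntegral_union₀,
      Finset.sum_insert hcs, ih hs']
    · have hsub : (X ∩ csec P c) ∩ (X ∩ ⋃ c' ∈ s, csec P c') ⊆
          ⋃ c' ∈ s, (csec P c ∩ csec P c') := by
        rintro x ⟨⟨-, hx1⟩, -, hx2⟩
        simp only [mem_iUnion] at hx2 ⊢
        obtain ⟨c', hc', hx'⟩ := hx2
        exact ⟨c', hc', hx1, hx'⟩
      refine measure_mono_null hsub ?_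
      refine (measure_biUnion_null_iff s.countable_toSet).2 fun c' hc' => ?_
      refine csec_inter_null h0 (hs c (Finset.mem_insert_self c s)) (hs' c' hc') ?_
      rintro rfl
      exact hcs hc'
    · exact (hX.inter (Finset.measurableSet_biUnion s fun c' _ => hm c')).nullMeasurableSet
    · exact hf.mono_set inter_subset_left
    · exact hf.mono_set inter_subset_left

theorem grp_fv {A : Finset E3} {r R m η : ℝ} (hr : 0 < r) (h1 : closedBall 0 r ⊆ poly A)
    (h2 : poly A ⊆ closedBall 0 R) (hη : 0 ≤ η) (hc : Phi (poly A) 0 = Dmax (poly A))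
    (hN : NCrit A m η) {a : E3} {κ : ℝ}
    (hz : ∀ c ∈ A, ‖c - a‖ < κ → ∃ z, inner ℝ c z = 1 ∧ gauge (poly A) (-z) < 1) (b : E3) :
    |(2 * ∫ x in poly A ∩ grp A κ a ∩ {x | gauge (poly A) (-x) ≤ gauge (poly A) x},
        inner ℝ b x) - m * ∫ x in poly A ∩ grp A κ a, inner ℝ b x| ≤
      η * ∫ x in poly A, |inner ℝ b x| := by
  classical
  obtain ⟨hB, h0i⟩ := poly_body hr h1 h2
  have h0 : poly A ∈ 𝓝 (0 : E3) := mem_interior_iff_mem_nhds.1 h0i
  have hPm : MeasurableSet (poly A) := hB.isCompact.isClosed.measurableSet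
  have hgc : Continuous (gauge (poly A)) := continuous_gauge hB.convex h0
  have hYm : MeasurableSet {x : E3 | gauge (poly A) (-x) ≤ gauge (poly A) x} :=
    (isClosed_le (hgc.comp continuous_neg) hgc).measurableSet
  have hfc : Continuous fun x : E3 => (inner ℝ b x : ℝ) := continuous_const.inner continuous_id
  have hf : IntegrableOn (fun x : E3 => (inner ℝ b x : ℝ)) (poly A) volume :=
    hfc.continuousOn.integrableOn_compact hB.isCompact
  have hfa : IntegrableOn (fun x : E3 => |(inner ℝ b x : ℝ)|) (poly A) volume :=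
    hfc.abs.continuousOn.integrableOn_compact hB.isCompact
  set Y : Set E3 := {x : E3 | gauge (poly A) (-x) ≤ gauge (poly A) x} with hY
  set s : Finset E3 := A.filter (fun c => ‖c - a‖ < κ) with hs
  have hsA : ∀ c ∈ s, c ∈ A ∧ ‖c - a‖ < κ := fun c hc => Finset.mem_filter.1 hc
  have hos : ∀ c ∈ s, c ∈ osup (poly A) := fun c hc x hx => hx c (hsA c hc).1
  have hgrp : grp A κ a = ⋃ c ∈ s, csec (poly A) c := by
    ext x
    simp only [grp, mem_ofPred_eq, mem_iUnion, exists_prop]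
    constructor
    · rintro ⟨c, hcA, hck, hx⟩
      exact ⟨c, Finset.mem_filter.2 ⟨hcA, hck⟩, sector_eq_csec hr h1 h2 hcA ▸ hx⟩
    · rintro ⟨c, hc, hx⟩
      exact ⟨c, (hsA c hc).1, (hsA c hc).2, (sector_eq_csec hr h1 h2 (hsA c hc).1).symm ▸ hx⟩
  have e1 : ∫ x in poly A ∩ grp A κ a ∩ Y, (inner ℝ b x : ℝ) =
      ∑ c ∈ s, ∫ x in poly A ∩ csec (poly A) c ∩ Y, (inner ℝ b x : ℝ) := by
    rw [hgrp, inter_right_comm, gfv_sum hB.convex h0 (hPm.inter hYm)
      (hf.mono_set inter_subset_left) s hos]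
    exact Finset.sum_congr rfl fun c _ => by rw [inter_right_comm]
  have e2 : ∫ x in poly A ∩ grp A κ a, (inner ℝ b x : ℝ) =
      ∑ c ∈ s, ∫ x in poly A ∩ csec (poly A) c, (inner ℝ b x : ℝ) := by
    rw [hgrp, gfv_sum hB.convex h0 hPm hf s hos]
  have e3 : ∑ c ∈ s, ∫ x in poly A ∩ csec (poly A) c, |(inner ℝ b x : ℝ)| ≤
      ∫ x in poly A, |(inner ℝ b x : ℝ)| := by
    rw [← gfv_sum hB.convex h0 hPm hfa s hos]
    exact setIntegral_mono_set hfa (ae_of_all _ fun x => abs_nonneg _)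
      (Eventually.of_forall inter_subset_left)
  rw [e1, e2, Finset.mul_sum, Finset.mul_sum, ← Finset.sum_sub_distrib]
  calc |∑ c ∈ s, ((2 * ∫ x in poly A ∩ csec (poly A) c ∩ Y, (inner ℝ b x : ℝ)) -
          m * ∫ x in poly A ∩ csec (poly A) c, (inner ℝ b x : ℝ))|
      ≤ ∑ c ∈ s, |(2 * ∫ x in poly A ∩ csec (poly A) c ∩ Y, (inner ℝ b x : ℝ)) -
          m * ∫ x in poly A ∩ csec (poly A) c, (inner ℝ b x : ℝ)| :=
        Finset.abs_sum_le_sum_abs _ _
    _ ≤ ∑ c ∈ s, η * ∫ x in poly A ∩ csec (poly A) c, |(inner ℝ b x : ℝ)| :=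
        Finset.sum_le_sum fun c hcs =>
          fv3 hr h1 h2 hη (hsA c hcs).1 hc hN (hz c (hsA c hcs).1 (hsA c hcs).2) b
    _ = η * ∑ c ∈ s, ∫ x in poly A ∩ csec (poly A) c, |(inner ℝ b x : ℝ)| := by
        rw [Finset.mul_sum]
    _ ≤ η * ∫ x in poly A, |(inner ℝ b x : ℝ)| := mul_le_mul_of_nonneg_left e3 hη

end Pool.Agent.Lib.MP_43065d_gt
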