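import Pool.Agent.Lib.MP_43065d_gt.Chart

/-!
# Module JacLim: charts with an injective limit have volume factors bounded below

PROOF.  Suppose `T` injective.  Domain and target have dimension 3, `T` is bounded below on the compact unit sphere: there is `c > 0` with
`c ‖p‖ ≤ ‖T p‖` (`LinearMap.exists_antilipschitzWith` or compactness of the sphere).  For large `j`, `‖S j - T‖ ≤ c/2` (operator norm), so
`(c/2) ‖p‖ ≤ ‖S j p‖` for all `p`.  Hence `closedBall 0 (c/2) ⊆ S j '' closedBall 0 1` (for `x` in the small ball, `p = (S j).symm x` has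
`(c/2) ‖p‖ ≤ ‖x‖ ≤ c/2`), so by the second clause of `jac_spec`
`vol (closedBall 0 (c/2)) ≤ ofReal (jac (S j)) * vol (closedBall 0 1)` with a positive left side and a finite ball on the right: `jac (S j)` is bounded
below by a positive number, against `jac (S j) → 0`.
-/

open MeasureTheory Set Filter Topology Metric
open scoped ENNReal NNReal Pointwise

namespace Pool.Agent.Lib.MP_43065d_gt

theorem jac_lim {S : ℕ → (E2 × ℝ) ≃L[ℝ] E3} {T : (E2 × ℝ) →L[ℝ] E3}
    (hT : Tendsto (fun j => (S j : (E2 × ℝ) →L[ℝ] E3)) atTop (𝓝 T))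
    (hj : Tendsto (fun j => jac (S j)) atTop (𝓝 0)) : ¬ Function.Injective T := by
  intro hinj
  obtain ⟨K, hK, hKT⟩ := LinearMap.exists_antilipschitzWith (T : (E2 × ℝ) →ₗ[ℝ] E3)
    (LinearMap.ker_eq_bot.2 hinj)
  have hK' : (0 : ℝ) < K := hK
  have hlow : ∀ p : E2 × ℝ, (K : ℝ)⁻¹ * ‖p‖ ≤ ‖T p‖ := by
    intro p
    have h := hKT.le_mul_dist p 0
    rw [dist_zero_right] at h
    have h2 : ((T : (E2 × ℝ) →ₗ[ℝ] E3) 0) = 0 := map_zero _
    rw [h2, dist_zero_right] at h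
    have h3 : ‖p‖ ≤ K * ‖T p‖ := h
    rw [inv_mul_le_iff₀ hK']
    exact h3
  have hd := tendsto_iff_norm_sub_tendsto_zero.1 hT
  have hev : ∀ᶠ j in atTop, ‖(S j : (E2 × ℝ) →L[ℝ] E3) - T‖ < (K : ℝ)⁻¹ / 2 :=
    (tendsto_order.1 hd).2 _ (by positivity)
  have hVtop : volume (closedBall (0 : E2 × ℝ) 1) ≠ ⊤ :=
    (isCompact_closedBall (0 : E2 × ℝ) 1).measure_ne_top
  have hsub : ∀ᶠ j in atTop, volume (closedBall (0 : E3) ((K : ℝ)⁻¹ / 2)) ≤
      ENNReal.ofReal (jac (S j)) * volume (closedBall (0 : E2 × ℝ) 1) := by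
    filter_upwards [hev] with j hj2
    rw [← (jac_spec (S j)).2.1]
    refine measure_mono fun x hx => ?_
    refine ⟨(S j).symm x, ?_, (S j).apply_symm_apply x⟩
    rw [mem_closedBall_zero_iff] at hx ⊢
    set p := (S j).symm x with hp
    have hSp : (S j) p = x := (S j).apply_symm_apply x
    have h1 : ‖T p‖ ≤ ‖(S j) p‖ + ‖((S j : (E2 × ℝ) →L[ℝ] E3) - T) p‖ := by
      have e : T p = (S j) p - ((S j : (E2 × ℝ) →L[ℝ] E3) - T) p := by
        rw [sub_apply]
        show T p = (S j) p - ((S j) p - T p)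
        abel
      rw [e]
      exact norm_sub_le _ _
    have h2 : ‖((S j : (E2 × ℝ) →L[ℝ] E3) - T) p‖ ≤ ((K : ℝ)⁻¹ / 2) * ‖p‖ :=
      (ContinuousLinearMap.le_opNorm _ _).trans
        (mul_le_mul_of_nonneg_right hj2.le (norm_nonneg _))
    have h3 := hlow p
    rw [hSp] at h1
    have h4 : (K : ℝ)⁻¹ / 2 * ‖p‖ ≤ (K : ℝ)⁻¹ / 2 := by
      have h5 : (K : ℝ)⁻¹ / 2 * ‖p‖ = (K : ℝ)⁻¹ * ‖p‖ - (K : ℝ)⁻¹ / 2 * ‖p‖ := by ring
      rw [h5]
      linarith
    have hc : 0 < (K : ℝ)⁻¹ / 2 := by positivity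
    by_contra hn
    have := mul_lt_mul_of_pos_left (not_le.1 hn) hc
    linarith
  have hlim : Tendsto (fun j => ENNReal.ofReal (jac (S j)) * volume (closedBall (0 : E2 × ℝ) 1))
      atTop (𝓝 (ENNReal.ofReal 0 * volume (closedBall (0 : E2 × ℝ) 1))) :=
    ENNReal.Tendsto.mul_const (ENNReal.tendsto_ofReal hj) (Or.inr hVtop)
  have hfin := ge_of_tendsto hlim hsub
  rw [ENNReal.ofReal_zero, zero_mul] at hfin
  have hpos : 0 < volume (closedBall (0 : E3) ((K : ℝ)⁻¹ / 2)) :=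
    measure_closedBall_pos _ _ (by positivity)
  exact absurd hfin (not_le.2 hpos)

end Pool.Agent.Lib.MP_43065d_gt
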