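import Pool.Agent.Lib.MP_43065d_gt.Norm
import Pool.Agent.Lib.MP_43065d_gt.Compact
import Pool.Agent.Lib.MP_43065d_gt.PhiBasic

/-!
# Module MinExist: a body with the smallest ratio `Dmax K / vol K`

PROOF.  Let `m` be the infimum of `Dmax K / vol K` over all bodies and `K j` bodies with ratios tending to
`m`.  By `exists_normalization 3` and `ratio_affine` (the ratio is affine invariant) we may assume
`closedBall 0 1 ⊆ K j ⊆ closedBall 0 ρ`.  By `exists_subseq_body` a subsequence converges (gauges) to a body `K'`.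
`volume_tendsto`: by `indicator_tendsto` and dominated convergence (dominating function: indicator of
`closedBall 0 ρ`) `vol (K j) → vol K'`; `Phi_tendsto`: for every `z`, `Phi (K j) z → Phi K' z` (a.e. `x`: eventually
`(x ∈ K j ↔ x ∈ K')` and `(2 z - x ∈ K j ↔ 2 z - x ∈ K')`; the map `x ↦ 2 z - x` preserves null sets).
Let `z` be a maximiser for `K'` (`exists_Phi_eq_Dmax`):
`Dmax K' = lim Phi (K j) z ≤ lim Dmax (K j) = m vol K'`.  So `K₀ = K'` works.
-/

open MeasureTheory Set Filter Topology Metric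
open scoped ENNReal NNReal Pointwise

namespace Pool.Agent.Lib.MP_43065d_gt

private theorem MinExist_mp (z : E3) :
    MeasurePreserving (fun x : E3 => (2 : ℝ) • z - x) volume volume :=
  Measure.measurePreserving_sub_left volume ((2 : ℝ) • z)

private theorem MinExist_pos {K : Set E3} (hK : IsBody K) : 0 < volume.real K := by
  have h1 : 0 < volume K := lt_of_lt_of_le (isOpen_interior.measure_pos volume hK.interior_nonempty)
    (measure_mono interior_subset)
  exact ENNReal.toReal_pos h1.ne' hK.isCompact.measure_lt_top.ne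

theorem volume_tendsto {r R : ℝ} (hr : 0 < r) {K : ℕ → Set E3} {K' : Set E3}
    (hK : ∀ j, IsBody (K j)) (hK' : IsBody K') (hr' : ∀ j, closedBall 0 r ⊆ K j)
    (hR' : ∀ j, K j ⊆ closedBall 0 R) (hr'' : closedBall 0 r ⊆ K')
    (ht : ∀ x, Tendsto (fun j => gauge (K j) x) atTop (𝓝 (gauge K' x))) :
    Tendsto (fun j => volume.real (K j)) atTop (𝓝 (volume.real K')) ∧
      ∀ z, Tendsto (fun j => Phi (K j) z) atTop (𝓝 (Phi K' z)) := by
  have hind := indicator_tendsto volume hr (fun j => (hK j).convex)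
    (fun j => (hK j).isCompact.isClosed) hr' hK'.convex hK'.isCompact.isClosed hr'' ht
  have hm : ∀ j, MeasurableSet (K j) := fun j => (hK j).isCompact.measurableSet
  have hm' : MeasurableSet K' := hK'.isCompact.measurableSet
  have hbf : volume (closedBall (0 : E3) R) ≠ ⊤ := measure_closedBall_lt_top.ne
  constructor
  · have h1 : Tendsto (fun j => volume (K j)) atTop (𝓝 (volume K')) :=
      tendsto_measure_of_ae_tendsto_indicator atTop hm' hm measurableSet_closedBall hbf
        (Eventually.of_forall hR') hind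
    exact (ENNReal.tendsto_toReal hK'.isCompact.measure_lt_top.ne).comp h1
  · intro z
    have h2 : ∀ᵐ x ∂(volume : Measure E3),
        ∀ᶠ j in atTop, ((2 : ℝ) • z - x ∈ K j ↔ (2 : ℝ) • z - x ∈ K') :=
      (MinExist_mp z).quasiMeasurePreserving.ae hind
    have h1 : Tendsto (fun j => volume (K j ∩ refl z (K j))) atTop
        (𝓝 (volume (K' ∩ refl z K'))) := by
      refine tendsto_measure_of_ae_tendsto_indicator atTop
        (hm'.inter ((MinExist_mp z).measurable hm'))
        (fun j => (hm j).inter ((MinExist_mp z).measurable (hm j))) measurableSet_closedBall hbf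
        (Eventually.of_forall fun j => inter_subset_left.trans (hR' j)) ?_
      filter_upwards [hind, h2] with x hx1 hx2
      filter_upwards [hx1, hx2] with j hj1 hj2
      exact and_congr hj1 hj2
    exact (ENNReal.tendsto_toReal
      ((measure_mono inter_subset_left).trans_lt hK'.isCompact.measure_lt_top).ne).comp h1

theorem exists_minimizer : ∃ K₀ : Set E3, IsBody K₀ ∧
    ∀ K : Set E3, IsBody K → Dmax K₀ * volume.real K ≤ Dmax K * volume.real K₀ := by
  let S : Set ℝ := {t | ∃ K : Set E3, IsBody K ∧ t = Dmax K / volume.real K}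
  have hb0 : IsBody (closedBall (0 : E3) 1) :=
    ⟨convex_closedBall 0 1, isCompact_closedBall 0 1, by
      rw [interior_closedBall _ one_ne_zero]; exact ⟨0, mem_ball_self one_pos⟩⟩
  have hne : S.Nonempty := ⟨_, _, hb0, rfl⟩
  have hbd : BddBelow S := ⟨0, by
    rintro _ ⟨K, hK, rfl⟩
    exact div_nonneg (Dmax_pos hK).le (MinExist_pos hK).le⟩
  obtain ⟨ρ, hρ1, hρ⟩ := exists_normalization 3
  have hseq : ∀ j : ℕ, ∃ K : Set E3, IsBody K ∧ closedBall 0 1 ⊆ K ∧ K ⊆ closedBall 0 ρ ∧
      Dmax K ≤ (sInf S + 1 / ((j : ℝ) + 1)) * volume.real K := by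
    intro j
    have hlt : sInf S < sInf S + 1 / ((j : ℝ) + 1) := by
      have : (0 : ℝ) < 1 / ((j : ℝ) + 1) := by positivity
      linarith
    obtain ⟨_, ⟨K, hK, rfl⟩, hKlt⟩ := exists_lt_of_csInf_lt hne hlt
    rw [div_lt_iff₀ (MinExist_pos hK)] at hKlt
    obtain ⟨L, v, h1, h2⟩ := hρ K hK
    obtain ⟨h3, J, hJ, h4, h5, -⟩ := ratio_affine hK L v
    refine ⟨_, h3, h1, h2, ?_⟩
    rw [h4, h5]
    have h6 := mul_le_mul_of_nonneg_left hKlt.le hJ.le
    linarith
  choose K hK h1 h2 h3 using hseq
  obtain ⟨φ, hφ, K', hc', hk', hb', hb'', ht⟩ := exists_subseq_body one_pos K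
    (fun j => (hK j).convex) (fun j => (hK j).isCompact.isClosed) h1 h2
  have hK' : IsBody K' := ⟨hc', hk', ⟨0, interior_mono hb' (by
    rw [interior_closedBall _ one_ne_zero]; exact mem_ball_self one_pos)⟩⟩
  obtain ⟨hv, hP⟩ := volume_tendsto one_pos (fun j => hK (φ j)) hK' (fun j => h1 (φ j))
    (fun j => h2 (φ j)) hb' ht
  obtain ⟨z, -, hz⟩ := exists_Phi_eq_Dmax hK'
  have hlim : Tendsto (fun j : ℕ => (sInf S + 1 / ((φ j : ℝ) + 1)) * volume.real (K (φ j))) atTop
      (𝓝 ((sInf S + 0) * volume.real K')) := by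
    refine Tendsto.mul ?_ hv
    exact tendsto_const_nhds.add (tendsto_one_div_add_atTop_nhds_zero_nat.comp hφ.tendsto_atTop)
  have hle : Dmax K' ≤ sInf S * volume.real K' := by
    rw [← hz]
    have h4 := le_of_tendsto_of_tendsto' (hP z) hlim
      (fun j => (Phi_le_Dmax (hK (φ j)) z).trans (h3 (φ j)))
    rwa [add_zero] at h4
  refine ⟨K', hK', fun M hM => ?_⟩
  have h5 : sInf S ≤ Dmax M / volume.real M := csInf_le hbd ⟨M, hM, rfl⟩
  rw [le_div_iff₀ (MinExist_pos hM)] at h5
  have h6 := MinExist_pos hM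
  have h7 := MinExist_pos hK'
  calc Dmax K' * volume.real M ≤ (sInf S * volume.real K') * volume.real M := by gcongr
    _ = (sInf S * volume.real M) * volume.real K' := by ring
    _ ≤ Dmax M * volume.real K' := by gcongr

end Pool.Agent.Lib.MP_43065d_gt
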