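import Pool.Agent.Lib.MP_43065d_gt.Defs

/-!
# Module SimplexChar: a body that is a cone over facets everywhere is a tetrahedron

PROOF.  `frontier K₀` is nonempty (bounded body).  Take any `x₀ ∈ frontier K₀`, `δ = 1`, and `(a, v, G)`.  On `K₀ = convexHull (insert v G)` the
functional `⟪a, ·⟫` is `≥ -3` with value `-3` at `v` and `a ≠ 0`, so `v ∈ frontier K₀`.  Apply the hypothesis to `x₀ = v` and
`δ = 1/(‖a‖ + 1)`: `(a', v', G')` and `x ∈ G'` with `‖x - v‖ ≤ δ`, so `⟪a, x⟫ ≤ -3 + 1 < 1 = ⟪a', x⟫`; in particular `a ≠ a'`.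
Let `E = extremePoints ℝ K₀`.  `E ⊆ insert v G` and `E ⊆ insert v' G'` (`extremePoints_convexHull_subset`, `K₀ = convexHull (insert v G)`).  So every
`e ∈ E \ {v, v'}` satisfies `⟪a, e⟫ = 1 = ⟪a', e⟫`.  Any three distinct points of `E` are not collinear (the middle one would not be
extreme).  If `a'` is a multiple of `a`, `a' = l a`: then for `e ∈ E \ {v,v'}` `l = 1`, contradiction with `a ≠ a'`, so `E ⊆ {v, v'}`;
otherwise `{⟪a,·⟫ = 1 = ⟪a',·⟫}` is a line (dimension count: the orthogonal complement of the span of `a, a'` has dimension 1) and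
`E \ {v,v'}` has at most two points.  In any case `E` is finite with at most 4 points.  By Krein-Milman (`closure_convexHull_extremePoints`,
`E` finite so its convex hull is compact) `K₀ = convexHull E`.  As `K₀` has interior, the affine span of `E` is everything
(`interior_convexHull_nonempty_iff_affineSpan_eq_top` or similar), so `E` has at least 4 points, exactly 4, and they are affinely independent
(`affineIndependent_iff_finrank_vectorSpan_eq` / `AffineIndependent` from card = finrank + 1 and span = ⊤).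
-/

open MeasureTheory Set Filter Topology Metric
open scoped ENNReal NNReal Pointwise

namespace Pool.Agent.Lib.MP_43065d_gt

private lemma sc_not_collinear {K : Set E3} {x y z : E3} (hx : x ∈ extremePoints ℝ K)
    (hy : y ∈ extremePoints ℝ K) (hz : z ∈ extremePoints ℝ K) (hxy : x ≠ y) (hxz : x ≠ z)
    (hyz : y ≠ z) : ¬ Collinear ℝ ({x, y, z} : Set E3) := by
  intro hcol
  have key : ∀ {p q r : E3}, p ∈ extremePoints ℝ K → q ∈ extremePoints ℝ K →
      r ∈ extremePoints ℝ K → p ≠ q → q ≠ r → ¬ Wbtw ℝ p q r := by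
    intro p q r hp hq hr hpq hqr hw
    rw [mem_extremePoints] at hq
    have hseg : q ∈ segment ℝ p r := by
      rw [mem_segment_iff_wbtw]; exact hw
    have hop : q ∈ openSegment ℝ p r := mem_openSegment_of_ne_left_right hpq hqr.symm hseg
    exact hpq ((hq.2 p hp.1 r hr.1 hop).1)
  rcases hcol.wbtw_or_wbtw_or_wbtw with h | h | h
  · exact key hx hy hz hxy hyz h
  · exact key hy hz hx hyz hxz.symm h
  · exact key hz hx hy hxz.symm hxy h

private lemma sc_collinear {a a' : E3} (h : LinearIndependent ℝ ![a, a']) (S : Set E3)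
    (hS : ∀ x ∈ S, inner ℝ a x = (1 : ℝ) ∧ inner ℝ a' x = (1 : ℝ)) : Collinear ℝ S := by
  classical
  set W : Submodule ℝ E3 := Submodule.span ℝ (range ![a, a']) with hW
  have hW2 : Module.finrank ℝ W = 2 := by
    rw [hW, finrank_span_eq_card h]; simp
  have h3 : Module.finrank ℝ E3 = 3 := by simp
  have hWo : Module.finrank ℝ Wᗮ = 1 := by
    have := Submodule.finrank_add_finrank_orthogonal W
    omega
  rw [collinear_iff_finrank_le_one, ← hWo]
  apply Submodule.finrank_mono
  rw [vectorSpan_def, Submodule.span_le]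
  rintro d ⟨x, hx, y, hy, rfl⟩
  rw [SetLike.mem_coe, hW, Submodule.mem_orthogonal]
  intro u hu
  induction hu using Submodule.span_induction with
  | mem u hu =>
    obtain ⟨i, rfl⟩ := hu
    have h1 := hS x hx
    have h2 := hS y hy
    fin_cases i
    · simp [inner_sub_right, h1.1, h2.1]
    · simp [inner_sub_right, h1.2, h2.2]
  | zero => simp
  | add u w _ _ hu hw => rw [inner_add_left, hu, hw, add_zero]
  | smul c u _ hu => rw [inner_smul_left, hu, mul_zero]

theorem simplex_of_cones {K₀ : Set E3} (hK : IsBody K₀)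
    (h : ∀ x₀ ∈ frontier K₀, ∀ δ : ℝ, 0 < δ → ∃ (a v : E3) (G : Set E3), G ⊆ K₀ ∧
      (∀ x ∈ G, inner ℝ a x = 1) ∧ (∀ x ∈ K₀, inner ℝ a x ≤ 1) ∧ v ∈ K₀ ∧
      inner ℝ a v = -3 ∧ K₀ ⊆ convexHull ℝ (insert v G) ∧ ∃ x ∈ G, ‖x - x₀‖ ≤ δ) :
    ∃ p : Fin 4 → E3, AffineIndependent ℝ p ∧ K₀ = convexHull ℝ (range p) := by
  classical
  have hKne : K₀.Nonempty := hK.interior_nonempty.mono interior_subset
  have hKuniv : K₀ ≠ univ := by
    intro h0
    have := hK.isCompact
    rw [h0] at this
    exact noncompact_univ E3 this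
  obtain ⟨x₀, hx₀⟩ : (frontier K₀).Nonempty := by
    rw [nonempty_frontier_iff]
    exact ⟨hKne, hKuniv⟩
  obtain ⟨a, v, G, hG, hG1, hK1, hv, hav, hKG, -⟩ := h x₀ hx₀ 1 one_pos
  -- the functional is at least -3 on K₀
  have hge : ∀ x ∈ K₀, -3 ≤ inner ℝ a x := by
    intro x hx
    have hx' := hKG hx
    have hconv : Convex ℝ {y : E3 | (-3 : ℝ) ≤ inner ℝ a y} :=
      convex_halfSpace_ge (f := fun y : E3 => (inner ℝ a y : ℝ))
        ⟨fun y z => inner_add_right _ _ _, fun c y => by simp [inner_smul_right]⟩ _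
    have hsub : insert v G ⊆ {y : E3 | (-3 : ℝ) ≤ inner ℝ a y} := by
      intro y hy
      rcases hy with rfl | hy
      · exact hav.ge
      · show (-3 : ℝ) ≤ inner ℝ a y
        rw [hG1 y hy]; norm_num
    exact convexHull_min hsub hconv hx'
  have ha0 : a ≠ 0 := by
    rintro rfl
    simp at hav
  have hvf : v ∈ frontier K₀ := by
    rw [hK.isCompact.isClosed.frontier_eq]
    refine ⟨hv, fun hvi => ?_⟩
    -- v - t a in K₀ for small t > 0
    have hcont : Tendsto (fun t : ℝ => v - t • a) (𝓝[>] 0) (𝓝 v) := by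
      have : Tendsto (fun t : ℝ => v - t • a) (𝓝 0) (𝓝 (v - (0 : ℝ) • a)) :=
        (continuous_const.sub (continuous_id.smul continuous_const)).tendsto 0
      rw [zero_smul, sub_zero] at this
      exact this.mono_left nhdsWithin_le_nhds
    have hev := hcont.eventually (isOpen_interior.mem_nhds hvi)
    obtain ⟨t, ht, ht0⟩ := (hev.and self_mem_nhdsWithin).exists
    have hmem : v - t • a ∈ K₀ := interior_subset ht
    have := hge _ hmem
    rw [inner_sub_right, inner_smul_right, hav, real_inner_self_eq_norm_sq] at this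
    have hpos : 0 < ‖a‖ ^ 2 := by positivity
    have : 0 < t * ‖a‖ ^ 2 := mul_pos ht0 hpos
    linarith
  have hδ : 0 < 1 / (‖a‖ + 1) := by positivity
  obtain ⟨a', v', G', hG', hG1', hK1', hv', hav', hKG', x, hxG, hxv⟩ := h v hvf _ hδ
  have haa : a ≠ a' := by
    rintro rfl
    have h1 : inner ℝ a x = (1 : ℝ) := hG1' x hxG
    have h2 : inner ℝ a (x - v) ≤ ‖a‖ * ‖x - v‖ := real_inner_le_norm _ _
    rw [inner_sub_right, h1, hav] at h2
    have h3 : ‖a‖ * ‖x - v‖ ≤ ‖a‖ * (1 / (‖a‖ + 1)) :=
      mul_le_mul_of_nonneg_left hxv (norm_nonneg _)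
    have h4 : ‖a‖ * (1 / (‖a‖ + 1)) ≤ 1 := by
      rw [mul_one_div, div_le_one (by positivity)]
      linarith
    linarith
  have hKeq : K₀ = convexHull ℝ (insert v G) :=
    Subset.antisymm hKG (convexHull_min (insert_subset hv hG) hK.convex)
  have hKeq' : K₀ = convexHull ℝ (insert v' G') :=
    Subset.antisymm hKG' (convexHull_min (insert_subset hv' hG') hK.convex)
  set E : Set E3 := extremePoints ℝ K₀ with hE
  have hE1 : E ⊆ insert v G := by
    rw [hE]
    conv_lhs => rw [hKeq]
    exact extremePoints_convexHull_subset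
  have hE2 : E ⊆ insert v' G' := by
    rw [hE]
    conv_lhs => rw [hKeq']
    exact extremePoints_convexHull_subset
  have hlev : ∀ e ∈ E \ {v, v'}, inner ℝ a e = (1 : ℝ) ∧ inner ℝ a' e = (1 : ℝ) := by
    rintro e ⟨he, hne⟩
    simp only [mem_insert_iff, mem_singleton_iff, not_or] at hne
    refine ⟨hG1 e ?_, hG1' e ?_⟩
    · rcases hE1 he with h | h
      · exact absurd h hne.1
      · exact h
    · rcases hE2 he with h | h
      · exact absurd h hne.2
      · exact h
  have hcard2 : (E \ {v, v'}).encard ≤ 2 := by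
    by_contra hcon
    rw [not_le] at hcon
    have h3 : (3 : ℕ∞) ≤ (E \ {v, v'}).encard := by
      have := Order.add_one_le_of_lt hcon
      norm_num at this
      exact this
    obtain ⟨T, hT, hTc⟩ := Set.exists_subset_encard_eq h3
    obtain ⟨p, q, r, hpq, hpr, hqr, rfl⟩ := Set.encard_eq_three.1 hTc
    have hp := hT (by simp : p ∈ ({p, q, r} : Set E3))
    have hq := hT (by simp : q ∈ ({p, q, r} : Set E3))
    have hr := hT (by simp : r ∈ ({p, q, r} : Set E3))
    by_cases hli : LinearIndependent ℝ ![a, a']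
    · exact sc_not_collinear hp.1 hq.1 hr.1 hpq hpr hqr
        (sc_collinear hli _ fun y hy => hlev y (hT hy))
    · rw [LinearIndependent.pair_iff' ha0] at hli
      push Not at hli
      obtain ⟨l, hl⟩ := hli
      have h1 := hlev p hp
      rw [← hl, inner_smul_left, h1.1] at h1
      have hl1 : l = 1 := by simpa using h1.2
      rw [hl1, one_smul] at hl
      exact haa hl
  have hcard4 : E.encard ≤ 4 := by
    have h1 : E ⊆ (E \ {v, v'}) ∪ {v, v'} := by
      intro e he
      by_cases h' : e ∈ ({v, v'} : Set E3)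
      · exact Or.inr h'
      · exact Or.inl ⟨he, h'⟩
    calc E.encard ≤ ((E \ {v, v'}) ∪ {v, v'}).encard := Set.encard_le_encard h1
      _ ≤ (E \ {v, v'}).encard + ({v, v'} : Set E3).encard := Set.encard_union_le _ _
      _ ≤ 2 + 2 := add_le_add hcard2 (le_trans (Set.encard_insert_le _ _)
          (by rw [Set.encard_singleton]; norm_num))
      _ = 4 := by norm_num
  have hfin : E.Finite := Set.finite_of_encard_le_coe (k := 4) (by exact_mod_cast hcard4)
  have hKE : K₀ = convexHull ℝ E := by
    have h1 := closure_convexHull_extremePoints hK.isCompact hK.convex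
    rw [← h1]
    exact (hfin.isClosed_convexHull ℝ).closure_eq
  have htop : affineSpan ℝ E = ⊤ := by
    rw [← interior_convexHull_nonempty_iff_affineSpan_eq_top, ← hKE]
    exact hK.interior_nonempty
  -- enumeration
  set F := hfin.toFinset with hF
  have hFc : F.card ≤ 4 := by
    have := hcard4
    rw [hfin.encard_eq_coe_toFinset_card] at this
    exact_mod_cast this
  set q : Fin F.card → E3 := fun i => (F.equivFin.symm i : E3) with hq
  have hrange : range q = E := by
    ext e
    constructor
    · rintro ⟨i, rfl⟩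
      exact hfin.mem_toFinset.1 (F.equivFin.symm i).2
    · intro he
      have he' : e ∈ F := by rw [hF, hfin.mem_toFinset]; exact he
      refine ⟨F.equivFin ⟨e, he'⟩, ?_⟩
      simp [hq]
  have hfr : Module.finrank ℝ (vectorSpan ℝ (range q)) = 3 := by
    rw [hrange, ← direction_affineSpan, htop, AffineSubspace.direction_top, finrank_top]
    simp
  have hne : F.card ≠ 0 := by
    intro h0
    have : range q = ∅ := by
      rw [range_eq_empty_iff]
      rw [h0]
      infer_instance
    rw [this, vectorSpan_empty] at hfr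
    simp at hfr
  obtain ⟨n, hn⟩ := Nat.exists_eq_succ_of_ne_zero hne
  have hle := finrank_vectorSpan_range_le ℝ q (n := n) (by rw [Fintype.card_fin, hn])
  have hn3 : n = 3 := by omega
  have hF4 : F.card = 4 := by omega
  refine ⟨q ∘ Fin.cast hF4.symm, ?_, ?_⟩
  · have h1 : AffineIndependent ℝ q := by
      rw [affineIndependent_iff_finrank_vectorSpan_eq ℝ q (n := 3) (by rw [Fintype.card_fin, hF4])]
      exact hfr
    exact h1.comp_embedding (finCongr hF4.symm).toEmbedding
  · have h1 : range (q ∘ Fin.cast hF4.symm) = range q :=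
      (finCongr hF4.symm).surjective.range_comp q
    rw [h1, hrange]
    exact hKE

end Pool.Agent.Lib.MP_43065d_gt
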