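import Pool.Agent.Lib.MP_43065d_gt.Loc2
import Pool.Agent.Lib.MP_43065d_gt.MinExist
import Pool.Agent.Lib.MP_43065d_gt.SimplexChar

/-!
# Module KB: symmetric bodies inside convex bodies of `E3`

PROOF of `center_interior`.  `Phi K z = Dmax K > 0`, so `K ∩ refl z K` is a convex set of positive volume, so it has an interior point `x`, and
`2 z - x` is one too; so `z` is interior.
PROOF of `kb_inequality`.  Let `K₀` be the minimiser of `exists_minimizer`, `m = Dmax K₀ / vol K₀ > 0`, so `m vol K ≤ Dmax K` for all bodies.  If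
`m ≥ 1/2` we are done.  Otherwise translate `K₀` so that its center is `0` (`exists_Phi_eq_Dmax`, `Phi_translate`, `center_interior`) and apply
`m_ge_half2`: `m = 1/2`, contradiction.
PROOF of `kb_equality`.  By `kb_inequality` `m = 1/2` satisfies `hm`, and `Dmax K = vol K / 2`.  Translate so that the center is `0`; `exists_cone_near2` and
`simplex_of_cones` give a simplex; translate back (`convexHull` commutes with translations, affine independence is preserved).
-/

open MeasureTheory Set Filter Topology Metric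
open scoped ENNReal NNReal Pointwise

namespace Pool.Agent.Lib.MP_43065d_gt

private theorem kb_vol_pos {K : Set E3} (hK : IsBody K) : 0 < volume.real K := by
  have h1 : 0 < volume K := by
    refine lt_of_lt_of_le ?_ (measure_mono interior_subset)
    exact isOpen_interior.measure_pos _ hK.interior_nonempty
  exact ENNReal.toReal_pos h1.ne' hK.isCompact.measure_lt_top.ne

private theorem kb_refl_convex {K : Set E3} (hK : Convex ℝ K) (z : E3) :
    Convex ℝ (refl z K) := by
  intro a ha b hb s t hs ht hst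
  change (2 : ℝ) • z - (s • a + t • b) ∈ K
  have h1 : (2 : ℝ) • z - (s • a + t • b) =
      s • ((2 : ℝ) • z - a) + t • ((2 : ℝ) • z - b) := by
    have h2 : (2 : ℝ) • z = s • ((2 : ℝ) • z) + t • ((2 : ℝ) • z) := by
      rw [← add_smul, hst, one_smul]
    rw [smul_sub, smul_sub]
    nth_rewrite 1 [h2]
    abel
  rw [h1]
  exact hK ha hb hs ht hst

private theorem kb_refl_interior (K : Set E3) (z : E3) {x : E3} (hx : x ∈ interior (refl z K)) :
    (2 : ℝ) • z - x ∈ interior K := by
  have h1 := (Homeomorph.subLeft ((2 : ℝ) • z)).preimage_interior K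
  have h2 : (Homeomorph.subLeft ((2 : ℝ) • z)) ⁻¹' K = refl z K := rfl
  rw [h2] at h1
  rw [← h1] at hx
  exact hx

theorem center_interior {K : Set E3} (hK : IsBody K) {z : E3} (hz : Phi K z = Dmax K) :
    z ∈ interior K := by
  have h1 : 0 < Phi K z := by
    rw [hz]
    exact Dmax_pos hK
  have hC : Convex ℝ (K ∩ refl z K) := hK.convex.inter (kb_refl_convex hK.convex z)
  have h2 : (interior (K ∩ refl z K)).Nonempty := by
    by_contra h3
    rw [not_nonempty_iff_eq_empty] at h3
    have h4 : volume (frontier (K ∩ refl z K)) = 0 := hC.addHaar_frontier volume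
    have h5 : K ∩ refl z K ⊆ frontier (K ∩ refl z K) := by
      rw [frontier, h3, diff_empty]
      exact subset_closure
    have h6 : volume (K ∩ refl z K) = 0 := measure_mono_null h5 h4
    have h7 : Phi K z = 0 := by
      unfold Phi
      rw [Measure.real, h6, ENNReal.toReal_zero]
    exact h1.ne' h7
  obtain ⟨x, hx⟩ := h2
  have h8 : x ∈ interior K := interior_mono inter_subset_left hx
  have h9 : (2 : ℝ) • z - x ∈ interior K :=
    kb_refl_interior K z (interior_mono inter_subset_right hx)
  have h10 : z = (1 / 2 : ℝ) • x + (1 / 2 : ℝ) • ((2 : ℝ) • z - x) := by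
    rw [smul_sub, smul_smul]
    norm_num
  rw [h10]
  exact hK.convex.interior h8 h9 (by norm_num) (by norm_num) (by norm_num)

private theorem kb_center {K : Set E3} (hK : IsBody K) : ∃ v : E3,
    IsBody ((fun x => x + v) '' K) ∧
      volume.real ((fun x => x + v) '' K) = volume.real K ∧
      Dmax ((fun x => x + v) '' K) = Dmax K ∧
      Phi ((fun x => x + v) '' K) 0 = Dmax ((fun x => x + v) '' K) ∧
      (0 : E3) ∈ interior ((fun x => x + v) '' K) := by
  obtain ⟨z, -, hz⟩ := exists_Phi_eq_Dmax hK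
  obtain ⟨h1, h2, h3, h4⟩ := Phi_translate hK (-z)
  have h5 : Phi ((fun x => x + -z) '' K) 0 = Dmax ((fun x => x + -z) '' K) := by
    rw [h3, ← hz, ← h4 z, add_neg_cancel]
  exact ⟨-z, h1, h2, h3, h5, center_interior h1 h5⟩

theorem kb_inequality {K : Set E3} (hK : IsBody K) : volume.real K ≤ 2 * Dmax K := by
  obtain ⟨K₀, hK₀, hmin⟩ := exists_minimizer
  have hv := kb_vol_pos hK₀
  have hD := Dmax_pos hK₀
  have hm : ∀ L : Set E3, IsBody L → Dmax K₀ / volume.real K₀ * volume.real L ≤ Dmax L := by
    intro L hL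
    rw [div_mul_eq_mul_div, div_le_iff₀ hv]
    exact hmin L hL
  have hmK : Dmax K₀ = Dmax K₀ / volume.real K₀ * volume.real K₀ := by
    rw [div_mul_cancel₀ _ hv.ne']
  have hhalf : 1 / 2 ≤ Dmax K₀ / volume.real K₀ := by
    by_contra hcon
    rw [not_le] at hcon
    obtain ⟨v, h1, h2, h3, h4, h5⟩ := kb_center hK₀
    have h6 := m_ge_half2 ⟨h1, h5, h4, div_pos hD hv, hm, by rw [h3, h2]; exact hmK⟩ hcon.le
    exact hcon.ne h6
  have h7 := hm K hK
  have h8 : 1 / 2 * volume.real K ≤ Dmax K₀ / volume.real K₀ * volume.real K :=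
    mul_le_mul_of_nonneg_right hhalf measureReal_nonneg
  linarith

theorem kb_equality {K : Set E3} (hK : IsBody K) (h : 2 * Dmax K ≤ volume.real K) :
    ∃ p : Fin 4 → E3, AffineIndependent ℝ p ∧ K = convexHull ℝ (range p) := by
  obtain ⟨v, h1, h2, h3, h4, h5⟩ := kb_center hK
  have hm : ∀ L : Set E3, IsBody L → 1 / 2 * volume.real L ≤ Dmax L := by
    intro L hL
    have := kb_inequality hL
    linarith
  have hmK : Dmax ((fun x => x + v) '' K) =
      1 / 2 * volume.real ((fun x => x + v) '' K) := by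
    have := kb_inequality hK
    rw [h2, h3]
    linarith
  obtain ⟨p, hp, hpK⟩ := simplex_of_cones h1 fun x₀ hx₀ δ hδ => by
    obtain ⟨a, v', G, g1, g2, g3, g4, g5, g6, g7⟩ :=
      exists_cone_near2 ⟨h1, h5, h4, by norm_num, hm, hmK⟩ hx₀
    exact ⟨a, v', G, g1, g2, g3, g4, g5, g6, x₀, g7, by
      rw [sub_self, norm_zero]; exact hδ.le⟩
  refine ⟨(AffineEquiv.constVAdd ℝ E3 (-v)) ∘ p,
    (AffineEquiv.affineIndependent_iff _).2 hp, ?_⟩
  have h6 : K = (AffineEquiv.constVAdd ℝ E3 (-v)) '' ((fun x => x + v) '' K) := by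
    rw [image_image]
    have h7 : (fun x : E3 => (AffineEquiv.constVAdd ℝ E3 (-v)) (x + v)) = id := by
      funext x
      simp
    rw [h7, image_id]
  rw [range_comp, h6, hpK]
  exact AffineMap.image_convexHull
    ((AffineEquiv.constVAdd ℝ E3 (-v) : E3 ≃ᵃ[ℝ] E3) : E3 →ᵃ[ℝ] E3) (range p)

end Pool.Agent.Lib.MP_43065d_gt
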