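import Pool.Agent.Lib.MP_43065d_gt.BMk

/-!
# Module Layer: inner parallel bodies and the layer inequality

`erode N M ε = {x | ∀ y ∈ M, x + ε • y ∈ N}`, `shiftSup N M ε x = sup_{y ∈ M} gauge N (x + ε • y)`.

PROOF of `erode_volume`.  Put `v = (vol N)^(1/3)`, `s = ε (vol M)^(1/3)`.  If `erode N M ε` is empty we
need `3 s v^2 - 3 s^2 v ≤ v^3`, true: `v (v^2 - 3 s v + 3 s^2) ≥ 0` (discriminant `9 - 12 < 0`).  If it is
nonempty, it is compact and convex (intersection of translates of `N`) and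
`erode N M ε + ε • M ⊆ N`, so Brunn-Minkowski (`bm3`) gives
`(vol erode)^(1/3) + s ≤ v` (`(vol (ε • M))^(1/3) = ε (vol M)^(1/3)`), hence `s ≤ v`, `vol erode ≤ (v - s)^3` and
`v^3 - (v - s)^3 = 3 v^2 s - 3 v s^2 + s^3 ≥ 3 v^2 s - 3 v s^2`.

PROOF of `layer_ineq`.  Write `g = gauge N`, `F = shiftSup N M ε`; `g` is continuous, `g ≥ 0`,
`N = {g ≤ 1}`, `g (t • x) = t g x`; `F ≥ g` because `0 ∈ M`; the supremum is attained (`M` compact) and
`F` is continuous (`|F x - F x'| ≤ L ‖x - x'‖`), `F (s • x) = s * shiftSup N M (ε / s) x` for `s > 0`.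
For `0 < s ≤ 1`: `{g ≤ s} = s • N` has volume `s^3 vol N`, and `{F ≤ s} = s • erode N M (ε / s)`
(`F (s • x) ≤ s ⇔ shiftSup N M (ε/s) x ≤ 1 ⇔ ∀ y ∈ M, x + (ε/s) • y ∈ N`), of volume
`s^3 vol (erode N M (ε / s))`.
For every `x` with values `0 ≤ g x ≤ F x`:
`max (1 - g x) 0 = ∫ s in 0..1, 1[g x ≤ s]`, the same for `F`.  By Fubini (all functions are bounded,
measurable and vanish outside the bounded set `N`):
`∫ (max (1 - g) 0 - max (1 - F) 0) = ∫ s in 0..1, (vol {g ≤ s} - vol {F ≤ s})`
`  = ∫ s in 0..1, s^3 (vol N - vol (erode N M (ε/s))) ≥ ∫ s in 0..1, s^3 (3 (ε/s) v^2 a - 3 (ε/s)^2 v a^2)`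
with `a = (vol M)^(1/3)`, which is `ε v^2 a - (3/2) ε^2 v a^2`.
-/

open MeasureTheory Set Filter Topology Metric
open scoped ENNReal NNReal Pointwise

namespace Pool.Agent.Lib.MP_43065d_gt

def erode (N M : Set E3) (ε : ℝ) : Set E3 := {x | ∀ y ∈ M, x + ε • y ∈ N}

noncomputable def shiftSup (N M : Set E3) (ε : ℝ) (x : E3) : ℝ :=
  sSup ((fun y => gauge N (x + ε • y)) '' M)

private lemma lay_pow {V : ℝ} (hV : 0 ≤ V) : V = (V ^ (1 / 3 : ℝ)) ^ 3 ∧
    V ^ (2 / 3 : ℝ) = (V ^ (1 / 3 : ℝ)) ^ 2 := by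
  constructor
  · rw [← Real.rpow_natCast, ← Real.rpow_mul hV]
    norm_num
  · rw [← Real.rpow_natCast, ← Real.rpow_mul hV]
    norm_num

private lemma lay_erode_compact {N M : Set E3} (hN : IsBody N) (hM : IsBody M) (ε : ℝ) :
    IsCompact (erode N M ε) := by
  obtain ⟨y0, hy0⟩ := hM.interior_nonempty
  have hy0M := interior_subset hy0
  have h1 : erode N M ε = ⋂ y ∈ M, (fun x => x + ε • y) ⁻¹' N := by
    ext x
    simp [erode]
  have hcl : IsClosed (erode N M ε) := by
    rw [h1]
    refine isClosed_biInter (fun y _ => hN.isCompact.isClosed.preimage ?_)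
    exact continuous_id.add continuous_const
  have hK : IsCompact ((fun x => x + ε • y0) ⁻¹' N) := by
    have h2 : (fun x : E3 => x + ε • y0) ⁻¹' N = (fun x => x + (-(ε • y0))) '' N := by
      ext x
      constructor
      · intro hx
        exact ⟨_, hx, by simp⟩
      · rintro ⟨z, hz, rfl⟩
        simpa using hz
    rw [h2]
    exact hN.isCompact.image (continuous_id.add continuous_const)
  refine hK.of_isClosed_subset hcl ?_
  intro x hx
  exact hx y0 hy0M

private lemma lay_erode_convex {N M : Set E3} (hN : IsBody N) (ε : ℝ) :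
    Convex ℝ (erode N M ε) := by
  intro x hx x' hx' s t hs ht hst y hy
  have h1 : s • x + t • x' + ε • y = s • (x + ε • y) + t • (x' + ε • y) := by
    have h2 : ε • y = s • (ε • y) + t • (ε • y) := by
      rw [← add_smul, hst, one_smul]
    nth_rewrite 1 [h2]
    rw [smul_add, smul_add]
    abel
  rw [h1]
  exact hN.convex (hx y hy) (hx' y hy) hs ht hst

private lemma lay_smul {s : ℝ} (hs : 0 ≤ s) (A : Set E3) :
    volume.real (s • A) = s ^ 3 * volume.real A := by
  rw [Measure.real, Measure.addHaar_smul, ENNReal.toReal_mul, Measure.real]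
  have h2 : Module.finrank ℝ E3 = 3 := by simp
  rw [h2, ENNReal.toReal_ofReal (abs_nonneg _), abs_of_nonneg (by positivity)]

theorem erode_volume {N M : Set E3} (hN : IsBody N) (hM : IsBody M) {ε : ℝ} (hε : 0 < ε) :
    3 * ε * volume.real N ^ (2 / 3 : ℝ) * volume.real M ^ (1 / 3 : ℝ) -
      3 * ε ^ 2 * volume.real N ^ (1 / 3 : ℝ) * volume.real M ^ (2 / 3 : ℝ) ≤
      volume.real N - volume.real (erode N M ε) := by
  set v : ℝ := volume.real N ^ (1 / 3 : ℝ) with hv
  set a : ℝ := volume.real M ^ (1 / 3 : ℝ) with ha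
  obtain ⟨hN3, hN2⟩ := lay_pow (V := volume.real N) measureReal_nonneg
  obtain ⟨hM3, hM2⟩ := lay_pow (V := volume.real M) measureReal_nonneg
  have hv0 : 0 ≤ v := by positivity
  have ha0 : 0 ≤ a := by positivity
  rw [hN2, hM2, ← hv, ← ha]
  nth_rewrite 1 [hN3]
  rw [← hv]
  rcases (erode N M ε).eq_empty_or_nonempty with he | he
  · rw [he, measureReal_empty]
    nlinarith [mul_nonneg hv0 (add_nonneg (sq_nonneg (v - 3 / 2 * (ε * a)))
      (mul_nonneg (by norm_num : (0 : ℝ) ≤ 3 / 4) (sq_nonneg (ε * a))))]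
  · have hM0 : M.Nonempty := hM.interior_nonempty.mono interior_subset
    have h1 := bm3 (lay_erode_convex (M := M) hN ε) (hM.convex.smul ε)
      (lay_erode_compact hN hM ε) (hM.isCompact.smul ε) he hM0.smul_set (C := N) ?_
      hN.isCompact.measure_lt_top.ne
    · rw [lay_smul hε.le, Real.mul_rpow (by positivity) measureReal_nonneg] at h1
      have h2 : (ε ^ 3) ^ (1 / 3 : ℝ) = ε := by
        rw [← Real.rpow_natCast, ← Real.rpow_mul hε.le]
        norm_num
      rw [h2, ← hv, ← ha] at h1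
      obtain ⟨hE3, _⟩ := lay_pow (V := volume.real (erode N M ε)) measureReal_nonneg
      set w : ℝ := volume.real (erode N M ε) ^ (1 / 3 : ℝ) with hw
      have hw0 : 0 ≤ w := by positivity
      rw [hE3]
      have h3 : w ≤ v - ε * a := by linarith
      have h4 : w ^ 3 ≤ (v - ε * a) ^ 3 := pow_le_pow_left₀ hw0 h3 3
      have h5 : 0 ≤ (ε * a) ^ 3 := by positivity
      nlinarith
    · rintro z ⟨x, hx, y', ⟨y, hy, rfl⟩, rfl⟩
      exact hx y hy

theorem layer_ineq {N M : Set E3} (hN : IsBody N) (h0 : (0 : E3) ∈ interior N) (hM : IsBody M)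
    (h0M : (0 : E3) ∈ M) {ε : ℝ} (hε : 0 < ε) :
    ε * (volume.real N ^ (2 / 3 : ℝ) * volume.real M ^ (1 / 3 : ℝ)) -
      3 / 2 * ε ^ 2 * (volume.real N ^ (1 / 3 : ℝ) * volume.real M ^ (2 / 3 : ℝ)) ≤
      ∫ x, (max (1 - gauge N x) 0 - max (1 - shiftSup N M ε x) 0) := by
  classical
  set v2 : ℝ := volume.real N ^ (2 / 3 : ℝ) with hv2
  set v1 : ℝ := volume.real N ^ (1 / 3 : ℝ) with hv1
  set a1 : ℝ := volume.real M ^ (1 / 3 : ℝ) with ha1
  set a2 : ℝ := volume.real M ^ (2 / 3 : ℝ) with ha2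
  set V : ℝ := volume.real N with hV
  have hnhds : N ∈ 𝓝 (0 : E3) := mem_interior_iff_mem_nhds.1 h0
  have hgc : Continuous (gauge N) := continuous_gauge hN.convex hnhds
  have hg1 : ∀ x, gauge N x ≤ 1 ↔ x ∈ N := fun x => by
    rw [gauge_le_one_iff_mem_closure hN.convex hnhds, hN.isCompact.isClosed.closure_eq]
  have hFc : Continuous (shiftSup N M ε) := by
    have hcc : Continuous (fun q : E3 × E3 => gauge N (q.1 + ε • q.2)) :=
      hgc.comp (by fun_prop)
    exact hM.isCompact.continuous_sSup (f := fun x y => gauge N (x + ε • y)) hcc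
  have hM0 : M.Nonempty := ⟨0, h0M⟩
  have hbdd : ∀ x, BddAbove ((fun y => gauge N (x + ε • y)) '' M) := fun x =>
    (hM.isCompact.image (hgc.comp (by fun_prop))).bddAbove
  have hFle : ∀ x s, shiftSup N M ε x ≤ s ↔ ∀ y ∈ M, gauge N (x + ε • y) ≤ s := by
    intro x s
    rw [shiftSup, csSup_le_iff (hbdd x) (hM0.image _)]
    simp
  have hgF : ∀ x, gauge N x ≤ shiftSup N M ε x := by
    intro x
    have := (hFle x _).1 le_rfl 0 h0M
    simpa using this
  have hF0 : ∀ x, 0 ≤ shiftSup N M ε x := fun x => (gauge_nonneg x).trans (hgF x)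
  have hfg : Integrable (fun x => max (1 - gauge N x) 0) := by
    refine Continuous.integrable_of_hasCompactSupport ((continuous_const.sub hgc).max
      continuous_const) (HasCompactSupport.intro hN.isCompact (fun x hx => ?_))
    have : 1 < gauge N x := by
      by_contra hcon
      exact hx ((hg1 x).1 (not_lt.1 hcon))
    exact max_eq_right (by linarith)
  have hfF : Integrable (fun x => max (1 - shiftSup N M ε x) 0) := by
    refine Continuous.integrable_of_hasCompactSupport ((continuous_const.sub hFc).max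
      continuous_const) (HasCompactSupport.intro hN.isCompact (fun x hx => ?_))
    have : 1 < gauge N x := by
      by_contra hcon
      exact hx ((hg1 x).1 (not_lt.1 hcon))
    exact max_eq_right (by linarith [hgF x])
  -- layer cake
  have hcake : ∀ f : E3 → ℝ, (∀ x, 0 ≤ f x) → Integrable (fun x => max (1 - f x) 0) →
      ∫ x, max (1 - f x) 0 = ∫ t in Ioo (0 : ℝ) 1, volume.real {x | f x ≤ 1 - t} := by
    intro f hf hfi
    rw [hfi.integral_eq_integral_meas_le (Filter.Eventually.of_forall (fun x => le_max_right _ _)),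
      ← integral_Ioc_eq_integral_Ioo,
      setIntegral_eq_of_subset_of_forall_sdiff_eq_zero measurableSet_Ioi
        (s := Ioc (0 : ℝ) 1) (fun t ht => ht.1)]
    · refine setIntegral_congr_fun measurableSet_Ioc (fun t ht => ?_)
      have : {x : E3 | t ≤ max (1 - f x) 0} = {x | f x ≤ 1 - t} := by
        ext x
        simp only [mem_ofPred_eq, le_max_iff]
        constructor
        · rintro (h | h)
          · linarith
          · exact absurd h (not_le.2 ht.1)
        · intro h
          exact Or.inl (by linarith)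
      simp only [this]
    · rintro t ⟨ht0, ht1⟩
      have h1 : 1 < t := by
        by_contra hcon
        exact ht1 ⟨ht0, not_lt.1 hcon⟩
      have : {x : E3 | t ≤ max (1 - f x) 0} = ∅ := by
        ext x
        simp only [mem_ofPred_eq, le_max_iff, mem_empty_iff_false, iff_false, not_or, not_le]
        exact ⟨by linarith [hf x], by linarith⟩
      rw [this, measureReal_empty]
  rw [integral_sub hfg hfF, hcake _ (fun x => gauge_nonneg x) hfg, hcake _ hF0 hfF]
  have hgv : ∀ s : ℝ, 0 < s → volume.real {x : E3 | gauge N x ≤ s} = s ^ 3 * V := by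
    intro s hs
    have h1 : {x : E3 | gauge N x ≤ s} = s • N := by
      ext x
      rw [mem_smul_set_iff_inv_smul_mem₀ hs.ne', ← hg1,
        gauge_smul_of_nonneg (inv_nonneg.2 hs.le), smul_eq_mul, inv_mul_le_iff₀ hs, mul_one]
      rfl
    rw [h1, lay_smul hs.le]
  have hFv : ∀ s : ℝ, 0 < s → volume.real {x : E3 | shiftSup N M ε x ≤ s} ≤
      s ^ 3 * V - 3 * ε * s ^ 2 * (v2 * a1) + 3 * ε ^ 2 * s * (v1 * a2) := by
    intro s hs
    have h1 : {x : E3 | shiftSup N M ε x ≤ s} = s • erode N M (ε / s) := by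
      ext x
      rw [mem_smul_set_iff_inv_smul_mem₀ hs.ne', mem_ofPred_eq, hFle]
      refine forall₂_congr (fun y _ => ?_)
      rw [← hg1]
      have h2 : s⁻¹ • x + (ε / s) • y = s⁻¹ • (x + ε • y) := by
        rw [smul_add, smul_smul, div_eq_inv_mul]
      rw [h2, gauge_smul_of_nonneg (inv_nonneg.2 hs.le), smul_eq_mul, inv_mul_le_iff₀ hs,
        mul_one]
    rw [h1, lay_smul hs.le]
    have h3 := erode_volume hN hM (ε := ε / s) (by positivity)
    rw [← hv2, ← hv1, ← ha1, ← ha2, ← hV] at h3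
    have h4 : volume.real (erode N M (ε / s)) ≤
        V - (3 * (ε / s) * v2 * a1 - 3 * (ε / s) ^ 2 * v1 * a2) := by linarith
    have h5 := mul_le_mul_of_nonneg_left h4 (by positivity : 0 ≤ s ^ 3)
    refine h5.trans (le_of_eq ?_)
    field_simp
    ring
  have hI1 : ∫ t in Ioo (0 : ℝ) 1, volume.real {x : E3 | gauge N x ≤ 1 - t} =
      ∫ t in Ioo (0 : ℝ) 1, (1 - t) ^ 3 * V :=
    setIntegral_congr_fun measurableSet_Ioo (fun t ht => hgv _ (by linarith [ht.2]))
  have hI2 : ∫ t in Ioo (0 : ℝ) 1, volume.real {x : E3 | shiftSup N M ε x ≤ 1 - t} ≤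
      ∫ t in Ioo (0 : ℝ) 1, ((1 - t) ^ 3 * V - 3 * ε * (1 - t) ^ 2 * (v2 * a1) +
        3 * ε ^ 2 * (1 - t) * (v1 * a2)) := by
    refine integral_mono_of_nonneg (Filter.Eventually.of_forall (fun t => measureReal_nonneg)) ?_ ?_
    · have hcont : Continuous (fun t : ℝ => ((1 - t) ^ 3 * V - 3 * ε * (1 - t) ^ 2 * (v2 * a1) +
        3 * ε ^ 2 * (1 - t) * (v1 * a2))) := by fun_prop
      exact (hcont.integrableOn_Icc (a := 0) (b := 1)).mono_set Ioo_subset_Icc_self
    · exact (ae_restrict_mem measurableSet_Ioo).mono (fun t ht => hFv _ (by linarith [ht.2]))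
  have hJ1 : ∫ t in Ioo (0 : ℝ) 1, (1 - t) ^ 3 * V = V / 4 := by
    rw [← integral_Ioc_eq_integral_Ioo, ← intervalIntegral.integral_of_le zero_le_one,
      intervalIntegral.integral_comp_sub_left (fun t => t ^ 3 * V) 1,
      intervalIntegral.integral_mul_const, integral_pow]
    norm_num
    ring
  have hJ2 : ∫ t in Ioo (0 : ℝ) 1, ((1 - t) ^ 3 * V - 3 * ε * (1 - t) ^ 2 * (v2 * a1) +
        3 * ε ^ 2 * (1 - t) * (v1 * a2)) =
      V / 4 - ε * (v2 * a1) + 3 / 2 * ε ^ 2 * (v1 * a2) := by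
    rw [← integral_Ioc_eq_integral_Ioo, ← intervalIntegral.integral_of_le zero_le_one,
      intervalIntegral.integral_comp_sub_left
        (fun t => t ^ 3 * V - 3 * ε * t ^ 2 * (v2 * a1) + 3 * ε ^ 2 * t * (v1 * a2)) 1,
      intervalIntegral.integral_add, intervalIntegral.integral_sub,
      intervalIntegral.integral_mul_const, integral_pow]
    · have h1 : ∫ t in (1 - 1 : ℝ)..(1 - 0), 3 * ε * t ^ 2 * (v2 * a1) = ε * (v2 * a1) := by
        have : (fun t : ℝ => 3 * ε * t ^ 2 * (v2 * a1)) = fun t => t ^ 2 * (3 * ε * (v2 * a1)) := by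
          funext t
          ring
        rw [this, intervalIntegral.integral_mul_const, integral_pow]
        norm_num
        ring
      have h2 : ∫ t in (1 - 1 : ℝ)..(1 - 0), 3 * ε ^ 2 * t * (v1 * a2) =
          3 / 2 * ε ^ 2 * (v1 * a2) := by
        have : (fun t : ℝ => 3 * ε ^ 2 * t * (v1 * a2)) =
            fun t => t * (3 * ε ^ 2 * (v1 * a2)) := by
          funext t
          ring
        rw [this, intervalIntegral.integral_mul_const, integral_id]
        norm_num
        ring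
      rw [h1, h2]
      norm_num
      ring
    all_goals exact Continuous.intervalIntegrable (by fun_prop) _ _
  rw [hI1, hJ1]
  rw [hJ2] at hI2
  linarith

end Pool.Agent.Lib.MP_43065d_gt
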