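import Pool.Agent.Lib.MP_43065d_gt.MainIneq
import Pool.Agent.Lib.MP_43065d_gt.FaceUp
import Pool.Agent.Lib.MP_43065d_gt.CsecB

/-!
# Module Loc2: `m ≥ 1/2`; if `m = 1/2` the minimiser is a cone over a face through every boundary point

Notation: `u a = vol ((-K₀ \ K₀) ∩ csec K₀ a)`, `v a = vol (K₀ ∩ csec K₀ a)`, `V = vol K₀ > 0`.
PROOFS.  `m_ge_half2`: let `m < 1/2`, `δ = (1 - 2 m)/2`, `ε` from `main_ineq`, `s` the finite set of `finite_faces` for `ε` (`Set.Finite.toFinset`).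
`u a ≤ m v a` for `a ∈ s` (`face_up`, `v a ≥ ε > 0`), and `0 ≤ V - ∑ v a` (`sum_csec` with `X = K₀`).  So
`(1 - m) V ≤ m ∑ v a + (8/9 m + δ)(V - ∑ v a) ≤ (m + δ) V`, i.e. `1 - 2 m ≤ δ`, a contradiction.
`face_equal`: let `g = v a / 2 - u a > 0` (`≥ 0` by `face_up`), `δ = g/(2 V)`, `ε` from `main_ineq`, `s` the set of `finite_faces` for `min ε (v a)`; `a ∈ s`.  Then
`V/2 ≤ ∑_s v/2 - g + (4/9 + δ)(V - ∑_s v) ≤ V/2 - g + δ V`, so `g ≤ δ V = g/2`, a contradiction.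
`faces_cover`: `δ = 1/36`, `ε` from `main_ineq`, `s` the set of `finite_faces` for `ε`: `V/2 ≤ ∑_s v/2 + (4/9 + 1/36)(V - ∑_s v)`, so `(1/36)(V - ∑_s v) ≤ 0`, and
`V = ∑_s v = vol (K₀ ∩ ⋃_{a ∈ s} csec K₀ a)` (`sum_csec`).  The closed set `U = ⋃_{a ∈ s} csec K₀ a` contains almost all of `K₀`, so all of `interior K₀` (an open set `interior K₀ \ U` of measure
zero is empty) and all of `K₀ = closure (interior K₀)`.  So `x₀ ∈ csec K₀ a` for some `a ∈ s`; `gauge K₀ x₀ = 1` (`gauge_eq_one_iff_mem_frontier`) and `gle` give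
`⟪a, x₀⟫ = 1`.
`exists_cone_near2`: `face_cone`, `G = {x | x ∈ K₀ ∧ ⟪a, x⟫ = 1}`, `x = x₀`.
-/

open MeasureTheory Set Filter Topology Metric
open scoped ENNReal NNReal Pointwise

namespace Pool.Agent.Lib.MP_43065d_gt

private theorem loc2_pos {K₀ : Set E3} {m : ℝ} (h : IsMin K₀ m) : 0 < volume.real K₀ := by
  have h1 : 0 < volume K₀ :=
    (isOpen_interior.measure_pos volume ⟨0, h.zero⟩).trans_le (measure_mono interior_subset)
  exact ENNReal.toReal_pos h1.ne' h.body.isCompact.measure_lt_top.ne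

private theorem loc2_sum {K₀ : Set E3} {m : ℝ} (h : IsMin K₀ m) {s : Finset E3}
    (hs : ∀ a ∈ s, a ∈ osup K₀) :
    volume.real (K₀ ∩ ⋃ a ∈ s, csec K₀ a) = ∑ a ∈ s, volume.real (K₀ ∩ csec K₀ a) ∧
    ∑ a ∈ s, volume.real (K₀ ∩ csec K₀ a) ≤ volume.real K₀ := by
  have h1 := sum_csec h.body.convex (mem_interior_iff_mem_nhds.1 h.zero) hs
    h.body.isCompact.isClosed.measurableSet h.body.isCompact.measure_lt_top.ne
  refine ⟨h1, ?_⟩
  rw [← h1]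
  exact measureReal_mono inter_subset_left h.body.isCompact.measure_lt_top.ne

private theorem loc2_arith1 {m V W U : ℝ} (hm : 0 < m) (hlt : m < 1 / 2) (hV : 0 < V) (hW : 0 ≤ W)
    (hWV : W ≤ V) (hU : U ≤ m * W)
    (h1 : (1 - m) * V ≤ U + (8 / 9 * m + (1 - 2 * m) / 2) * (V - W)) : False := by
  have h6 : m * W + (8 / 9 * m + (1 - 2 * m) / 2) * (V - W) ≤ (m + (1 - 2 * m) / 2) * V := by
    have e : (m + (1 - 2 * m) / 2) * V - (m * W + (8 / 9 * m + (1 - 2 * m) / 2) * (V - W)) =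
        (1 / 9 * m) * (V - W) + ((1 - 2 * m) / 2) * W := by ring
    have e1 : 0 ≤ (1 / 9 * m) * (V - W) := mul_nonneg (by linarith) (by linarith)
    have e2 : 0 ≤ ((1 - 2 * m) / 2) * W := mul_nonneg (by linarith) hW
    linarith
  have h7 : (1 - m) * V ≤ (m + (1 - 2 * m) / 2) * V := by linarith
  have h8 := le_of_mul_le_mul_right h7 hV
  linarith

private theorem loc2_arith2 {g V W U : ℝ} (hg : 0 < g) (hV : 0 < V) (hW : 0 ≤ W)
    (hWV : W ≤ V) (h3 : g ≤ 1 / 2 * W - U)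
    (h1 : (1 - 1 / 2) * V ≤ U + (8 / 9 * (1 / 2) + g / (2 * V)) * (V - W)) : False := by
  have h5 : g / (2 * V) * V = g / 2 := by
    field_simp
  have h6 : 0 ≤ g / (2 * V) * W := by positivity
  have h7 : (8 / 9 * (1 / 2) + g / (2 * V)) * (V - W) =
      4 / 9 * (V - W) + (g / (2 * V) * V - g / (2 * V) * W) := by ring
  rw [h7, h5] at h1
  linarith

private theorem loc2_arith3 {V W U : ℝ} (hU : U ≤ 1 / 2 * W)
    (h1 : (1 - 1 / 2) * V ≤ U + (8 / 9 * (1 / 2) + 1 / 36) * (V - W)) : V ≤ W := by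
  linarith

theorem m_ge_half2 {K₀ : Set E3} {m : ℝ} (h : IsMin K₀ m) (hm2 : m ≤ 1 / 2) : m = 1 / 2 := by
  by_contra hne
  have hlt : m < 1 / 2 := lt_of_le_of_ne hm2 hne
  obtain ⟨ε, hε, hmain⟩ := main_ineq h hm2 (δ := (1 - 2 * m) / 2) (by linarith)
  have hfin := finite_faces h.body h.zero hε
  have hs : ∀ a, a ∈ hfin.toFinset ↔ a ∈ osup K₀ ∧ ε ≤ volume.real (K₀ ∩ csec K₀ a) := by
    intro a
    rw [Set.Finite.mem_toFinset]
    rfl
  have h1 := hmain hfin.toFinset (fun a ha => ((hs a).1 ha).1) fun a ha h' => (hs a).2 ⟨ha, h'⟩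
  obtain ⟨-, h2⟩ := loc2_sum h (s := hfin.toFinset) fun a ha => ((hs a).1 ha).1
  have h3 : ∑ a ∈ hfin.toFinset, volume.real ((-K₀ \ K₀) ∩ csec K₀ a) ≤
      m * ∑ a ∈ hfin.toFinset, volume.real (K₀ ∩ csec K₀ a) := by
    rw [Finset.mul_sum]
    refine Finset.sum_le_sum fun a ha => ?_
    exact face_up h hm2 ((hs a).1 ha).1 (hε.trans_le ((hs a).1 ha).2)
  have hV := loc2_pos h
  have hm := h.pos
  have h4 : (0 : ℝ) ≤ ∑ a ∈ hfin.toFinset, volume.real (K₀ ∩ csec K₀ a) :=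
    Finset.sum_nonneg fun _ _ => measureReal_nonneg
  exact loc2_arith1 hm hlt hV h4 h2 h3 h1

theorem face_equal {K₀ : Set E3} (h : IsMin K₀ (1 / 2)) {a : E3} (ha : a ∈ osup K₀)
    (hv : 0 < volume.real (K₀ ∩ csec K₀ a)) :
    volume.real ((-K₀ \ K₀) ∩ csec K₀ a) = 1 / 2 * volume.real (K₀ ∩ csec K₀ a) := by
  by_contra hne
  have hup := face_up h le_rfl ha hv
  have hlt : volume.real ((-K₀ \ K₀) ∩ csec K₀ a) < 1 / 2 * volume.real (K₀ ∩ csec K₀ a) :=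
    lt_of_le_of_ne hup hne
  have hV := loc2_pos h
  obtain ⟨g, hg⟩ : ∃ g, g = 1 / 2 * volume.real (K₀ ∩ csec K₀ a) -
    volume.real ((-K₀ \ K₀) ∩ csec K₀ a) := ⟨_, rfl⟩
  have hg0 : 0 < g := by linarith
  obtain ⟨ε, hε, hmain⟩ := main_ineq h le_rfl (δ := g / (2 * volume.real K₀))
    (div_pos hg0 (mul_pos two_pos hV))
  have hε' : 0 < min ε (volume.real (K₀ ∩ csec K₀ a)) := lt_min hε hv
  have hfin := finite_faces h.body h.zero hε'
  have hs : ∀ b, b ∈ hfin.toFinset ↔ b ∈ osup K₀ ∧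
      min ε (volume.real (K₀ ∩ csec K₀ a)) ≤ volume.real (K₀ ∩ csec K₀ b) := by
    intro a
    rw [Set.Finite.mem_toFinset]
    rfl
  have h1 := hmain hfin.toFinset (fun a ha => ((hs a).1 ha).1) fun b hb h' =>
    (hs b).2 ⟨hb, (min_le_left _ _).trans h'⟩
  obtain ⟨-, h2⟩ := loc2_sum h (s := hfin.toFinset) fun a ha => ((hs a).1 ha).1
  have has : a ∈ hfin.toFinset := (hs a).2 ⟨ha, min_le_right _ _⟩
  have h3 : g ≤ ∑ b ∈ hfin.toFinset, (1 / 2 * volume.real (K₀ ∩ csec K₀ b) -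
      volume.real ((-K₀ \ K₀) ∩ csec K₀ b)) := by
    rw [hg]
    refine Finset.single_le_sum (f := fun b => 1 / 2 * volume.real (K₀ ∩ csec K₀ b) -
      volume.real ((-K₀ \ K₀) ∩ csec K₀ b)) (fun b hb => ?_) has
    have := face_up h le_rfl ((hs b).1 hb).1 (hε'.trans_le ((hs b).1 hb).2)
    linarith
  rw [Finset.sum_sub_distrib, ← Finset.mul_sum] at h3
  have h4 : (0 : ℝ) ≤ ∑ a ∈ hfin.toFinset, volume.real (K₀ ∩ csec K₀ a) :=
    Finset.sum_nonneg fun _ _ => measureReal_nonneg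
  exact loc2_arith2 hg0 hV h4 h2 h3 h1

theorem faces_cover {K₀ : Set E3} (h : IsMin K₀ (1 / 2)) {x₀ : E3} (hx₀ : x₀ ∈ frontier K₀) :
    ∃ a ∈ osup K₀, 0 < volume.real (K₀ ∩ csec K₀ a) ∧ inner ℝ a x₀ = 1 := by
  have hnhds : K₀ ∈ 𝓝 (0 : E3) := mem_interior_iff_mem_nhds.1 h.zero
  obtain ⟨ε, hε, hmain⟩ := main_ineq h le_rfl (δ := 1 / 36) (by norm_num)
  have hfin := finite_faces h.body h.zero hε
  have hs : ∀ a, a ∈ hfin.toFinset ↔ a ∈ osup K₀ ∧ ε ≤ volume.real (K₀ ∩ csec K₀ a) := by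
    intro a
    rw [Set.Finite.mem_toFinset]
    rfl
  have h1 := hmain hfin.toFinset (fun a ha => ((hs a).1 ha).1) fun a ha h' => (hs a).2 ⟨ha, h'⟩
  obtain ⟨h2', h2⟩ := loc2_sum h (s := hfin.toFinset) fun a ha => ((hs a).1 ha).1
  have h3 : ∑ a ∈ hfin.toFinset, volume.real ((-K₀ \ K₀) ∩ csec K₀ a) ≤
      1 / 2 * ∑ a ∈ hfin.toFinset, volume.real (K₀ ∩ csec K₀ a) := by
    rw [Finset.mul_sum]
    refine Finset.sum_le_sum fun a ha => ?_
    exact face_up h le_rfl ((hs a).1 ha).1 (hε.trans_le ((hs a).1 ha).2)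
  have h4 : volume.real K₀ ≤ volume.real (K₀ ∩ ⋃ a ∈ hfin.toFinset, csec K₀ a) := by
    rw [h2']
    exact loc2_arith3 h3 h1
  have hUc : IsClosed (⋃ a ∈ hfin.toFinset, csec K₀ a) :=
    isClosed_biUnion_finset fun a _ => csec_closed h.body.convex hnhds a
  have hfinV : volume K₀ ≠ ⊤ := h.body.isCompact.measure_lt_top.ne
  have h5 : volume.real (K₀ \ ⋃ a ∈ hfin.toFinset, csec K₀ a) = 0 := by
    have h6 := measureReal_inter_add_sdiff (μ := volume) (s := K₀) hUc.measurableSet hfinV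
    have h7 : 0 ≤ volume.real (K₀ \ ⋃ a ∈ hfin.toFinset, csec K₀ a) := measureReal_nonneg
    linarith
  have h6 : volume (K₀ \ ⋃ a ∈ hfin.toFinset, csec K₀ a) = 0 := by
    rcases (ENNReal.toReal_eq_zero_iff _).1 h5 with h7 | h7
    · exact h7
    · exact absurd h7 (measure_ne_top_of_subset sdiff_subset hfinV)
  have h7 : interior K₀ \ (⋃ a ∈ hfin.toFinset, csec K₀ a) = ∅ := by
    have ho : IsOpen (interior K₀ \ ⋃ a ∈ hfin.toFinset, csec K₀ a) := isOpen_interior.sdiff hUc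
    refine (ho.measure_eq_zero_iff volume).1 ?_
    exact measure_mono_null (sdiff_subset_sdiff_left interior_subset) h6
  have h8 : interior K₀ ⊆ ⋃ a ∈ hfin.toFinset, csec K₀ a := sdiff_eq_empty.1 h7
  have h9 : K₀ ⊆ ⋃ a ∈ hfin.toFinset, csec K₀ a := by
    have e1 := h.body.convex.closure_interior_eq_closure_of_nonempty_interior ⟨0, h.zero⟩
    calc K₀ ⊆ closure K₀ := subset_closure
      _ = closure (interior K₀) := e1.symm
      _ ⊆ _ := closure_minimal h8 hUc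
  have hxK : x₀ ∈ K₀ := h.body.isCompact.isClosed.frontier_subset hx₀
  obtain ⟨a, ha, hxa⟩ := mem_iUnion₂.1 (h9 hxK)
  have hgauge := (gauge_eq_one_iff_mem_frontier h.body.convex hnhds).2 hx₀
  have ha' := (hs a).1 ha
  refine ⟨a, ha'.1, hε.trans_le ha'.2, le_antisymm ?_ ?_⟩
  · rw [← hgauge]
    exact gle hnhds ha'.1 x₀
  · rw [← hgauge]
    exact hxa

theorem exists_cone_near2 {K₀ : Set E3} (h : IsMin K₀ (1 / 2)) {x₀ : E3}
    (hx₀ : x₀ ∈ frontier K₀) :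
    ∃ (a v : E3) (G : Set E3), G ⊆ K₀ ∧ (∀ x ∈ G, inner ℝ a x = 1) ∧
      (∀ x ∈ K₀, inner ℝ a x ≤ 1) ∧ v ∈ K₀ ∧ inner ℝ a v = -3 ∧
      K₀ ⊆ convexHull ℝ (insert v G) ∧ x₀ ∈ G := by
  obtain ⟨a, ha, hv, hax⟩ := faces_cover h hx₀
  obtain ⟨v, hvK, hav, hsub⟩ := face_cone h ha hv (face_equal h ha hv)
  exact ⟨a, v, {x | x ∈ K₀ ∧ inner ℝ a x = 1}, fun x hx => hx.1, fun x hx => hx.2, ha, hvK, hav,
    hsub, h.body.isCompact.isClosed.frontier_subset hx₀, hax⟩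

end Pool.Agent.Lib.MP_43065d_gt
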