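import Pool.Agent.Lib.MP_43065d_gt.SimplexVol
import Pool.Agent.Lib.MP_43065d_gt.BlLe

/-!
# Module SimplexGe: lower bound for the Blaschke body of a tetrahedron

A general lemma (`sge_general`): for a polytope `K = {x | ∀ i, ⟪c i, x⟫ ≤ 1}` the gauge is the maximum of the
`⟪c i, ·⟫`, and the integral of `φ (∇ gauge)` is the sum of `vol (sector i) * φ (c i)`.
-/

open MeasureTheory Set Filter Topology Metric
open scoped ENNReal NNReal Pointwise

namespace Pool.Agent.Lib.MP_43065d_gt

private theorem sge_gauge {ι : Type*} {c : ι → E3} {K : Set E3}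
    (hKdef : K = {x | ∀ i, inner ℝ (c i) x ≤ 1}) (h0 : (0 : E3) ∈ interior K)
    {i : ι} {x : E3} (hx : ∀ j, inner ℝ (c j) x ≤ inner ℝ (c i) x)
    (hx0 : 0 ≤ (inner ℝ (c i) x : ℝ)) :
    gauge K x = inner ℝ (c i) x := by
  apply le_antisymm
  · refine le_of_forall_pos_le_add (fun ε hε => ?_)
    have hpos : 0 < inner ℝ (c i) x + ε := by linarith
    refine gauge_le_of_mem hpos.le ?_
    rw [mem_smul_set_iff_inv_smul_mem₀ hpos.ne', hKdef]
    intro j
    rw [inner_smul_right, inv_mul_le_iff₀ hpos]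
    have := hx j
    linarith
  · by_contra hcon
    push Not at hcon
    have habs : Absorbent ℝ K := absorbent_nhds_zero (mem_interior_iff_mem_nhds.1 h0)
    obtain ⟨t, ht0, htlt, htm⟩ := exists_lt_of_gauge_lt habs hcon
    rw [mem_smul_set_iff_inv_smul_mem₀ ht0.ne', hKdef] at htm
    have := htm i
    rw [inner_smul_right, inv_mul_le_iff₀ ht0] at this
    linarith

private theorem sge_gradient {ι : Type*} [Finite ι] {c : ι → E3} {K : Set E3}
    (hKdef : K = {x | ∀ i, inner ℝ (c i) x ≤ 1}) (h0 : (0 : E3) ∈ interior K)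
    (hmax : ∀ x : E3, ∃ i, 0 ≤ (inner ℝ (c i) x : ℝ))
    {i : ι} {x : E3} (hx : ∀ j, j ≠ i → inner ℝ (c j) x < inner ℝ (c i) x) :
    gradient (gauge K) x = c i := by
  have hopen : IsOpen {y : E3 | ∀ j, j ≠ i → inner ℝ (c j) y < (inner ℝ (c i) y : ℝ)} := by
    have : {y : E3 | ∀ j, j ≠ i → inner ℝ (c j) y < (inner ℝ (c i) y : ℝ)} =
        ⋂ j, {y : E3 | j ≠ i → inner ℝ (c j) y < (inner ℝ (c i) y : ℝ)} := by
      ext y
      simp
    rw [this]
    apply isOpen_iInter_of_finite
    intro j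
    by_cases hj : j = i
    · subst hj
      simp
    · have : {y : E3 | j ≠ i → inner ℝ (c j) y < (inner ℝ (c i) y : ℝ)} =
          {y : E3 | inner ℝ (c j) y < (inner ℝ (c i) y : ℝ)} := by
        ext y
        simp [hj]
      rw [this]
      exact isOpen_lt (by fun_prop) (by fun_prop)
  have hev : gauge K =ᶠ[𝓝 x] fun y => (inner ℝ (c i) y : ℝ) := by
    filter_upwards [hopen.mem_nhds hx] with y hy
    have hle : ∀ j, inner ℝ (c j) y ≤ (inner ℝ (c i) y : ℝ) := by
      intro j
      by_cases hj : j = i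
      · rw [hj]
      · exact (hy j hj).le
    refine sge_gauge hKdef h0 hle ?_
    obtain ⟨j, hj⟩ := hmax y
    exact hj.trans (hle j)
  rw [hev.gradient_eq]
  apply HasGradientAt.gradient
  rw [hasGradientAt_iff_hasFDerivAt]
  have : (fun y => (inner ℝ (c i) y : ℝ)) = (InnerProductSpace.toDual ℝ E3 (c i)) := by
    ext y
    rfl
  rw [this]
  exact (InnerProductSpace.toDual ℝ E3 (c i)).hasFDerivAt

private theorem sge_hyper {u v : E3} (h : u ≠ v) :
    volume {x : E3 | (inner ℝ u x : ℝ) = inner ℝ v x} = 0 := by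
  have hs : ((LinearMap.ker (innerₛₗ ℝ (u - v))) : Submodule ℝ E3) ≠ ⊤ := by
    intro htop
    have : (u - v) ∈ LinearMap.ker (innerₛₗ ℝ (u - v)) := by rw [htop]; trivial
    rw [LinearMap.mem_ker, innerₛₗ_apply_apply] at this
    have h2 := inner_self_eq_zero.1 this
    exact h (sub_eq_zero.1 h2)
  have := Measure.addHaar_submodule (volume : Measure E3) _ hs
  refine measure_mono_null ?_ this
  intro x hx
  simp only [mem_ofPred_eq] at hx
  simp only [SetLike.mem_coe, LinearMap.mem_ker, innerₛₗ_apply_apply, inner_sub_left]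
  linarith

private theorem sge_general {ι : Type*} [Fintype ι] {c : ι → E3} {K : Set E3}
    (hKdef : K = {x | ∀ i, inner ℝ (c i) x ≤ 1}) (hK : IsBody K) (h0 : (0 : E3) ∈ interior K)
    (hmax : ∀ x : E3, ∃ i, 0 ≤ (inner ℝ (c i) x : ℝ)) (hinj : ∀ i j, i ≠ j → c i ≠ c j)
    (φ : E3 → ℝ) :
    ∫ x in K, φ (gradient (gauge K) x) =
      ∑ i, volume.real {x | x ∈ K ∧ ∀ j, inner ℝ (c j) x ≤ (inner ℝ (c i) x : ℝ)} * φ (c i) := by
  set S : ι → Set E3 := fun i => {x | x ∈ K ∧ ∀ j, inner ℝ (c j) x ≤ (inner ℝ (c i) x : ℝ)} with hS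
  have hcl : ∀ i, IsClosed (S i) := by
    intro i
    have : S i = K ∩ ⋂ j, {x | inner ℝ (c j) x ≤ (inner ℝ (c i) x : ℝ)} := by
      ext x
      simp [hS]
    rw [this]
    refine hK.isCompact.isClosed.inter (isClosed_iInter fun j => ?_)
    exact isClosed_le (by fun_prop) (by fun_prop)
  have hne : Nonempty ι := ⟨(hmax 0).choose⟩
  have hU : K = ⋃ i, S i := by
    ext x
    simp only [mem_iUnion, hS, mem_ofPred_eq]
    constructor
    · intro hx
      obtain ⟨i, hi⟩ := Finite.exists_max (fun i => (inner ℝ (c i) x : ℝ))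
      exact ⟨i, hx, hi⟩
    · rintro ⟨i, hx, -⟩
      exact hx
  have hd : Pairwise (Function.onFun (AEDisjoint (volume : Measure E3)) S) := by
    intro i j hij
    refine measure_mono_null ?_ (sge_hyper (hinj i j hij))
    rintro x ⟨hx1, hx2⟩
    exact le_antisymm (hx2.2 i) (hx1.2 j)
  have hae : ∀ i, ∀ᵐ x ∂(volume : Measure E3), x ∈ S i → φ (gradient (gauge K) x) = φ (c i) := by
    intro i
    have h1 : ∀ᵐ x ∂(volume : Measure E3), ∀ j, j ≠ i →
        ¬ ((inner ℝ (c j) x : ℝ) = inner ℝ (c i) x) := by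
      rw [ae_all_iff]
      intro j
      by_cases hj : j = i
      · exact Eventually.of_forall fun x hne => absurd hj hne
      · have := sge_hyper (hinj j i hj)
        rw [measure_eq_zero_iff_ae_notMem] at this
        filter_upwards [this] with x hx _
        exact hx
    filter_upwards [h1] with x hx hxS
    rw [sge_gradient hKdef h0 hmax (i := i)]
    intro j hj
    exact lt_of_le_of_ne (hxS.2 j) (hx j hj)
  have hfin : ∀ i, volume (S i) ≠ ∞ := by
    intro i
    refine ((measure_mono (fun x hx => hx.1)).trans_lt hK.isCompact.measure_lt_top).ne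
  have hint : ∀ i, IntegrableOn (fun x => φ (gradient (gauge K) x)) (S i) := by
    intro i
    have hc : IntegrableOn (fun _ : E3 => φ (c i)) (S i) := integrableOn_const (hfin i)
    refine hc.congr ?_
    have := (ae_restrict_iff' (hcl i).measurableSet).2 (hae i)
    filter_upwards [this] with x hx
    exact hx.symm
  have hstep : ∫ x in K, φ (gradient (gauge K) x) =
      ∫ x in ⋃ i, S i, φ (gradient (gauge K) x) := by rw [← hU]
  rw [hstep, integral_iUnion_ae (fun i => (hcl i).measurableSet.nullMeasurableSet) hd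
    (integrableOn_finite_iUnion.2 hint), tsum_fintype]
  refine Finset.sum_congr rfl (fun i _ => ?_)
  rw [setIntegral_congr_ae (hcl i).measurableSet (hae i), setIntegral_const, smul_eq_mul]

variable {b p : Fin 4 → E3}

private theorem sge_max (h : SData b p) (x : E3) : ∃ i, 0 ≤ (inner ℝ (b i) x : ℝ) := by
  by_contra hcon
  push Not at hcon
  have h1 : ∑ i, (inner ℝ (b i) x : ℝ) = 0 := by
    rw [← sum_inner, h.sum_b, inner_zero_left]
  have h2 : ∑ i, (inner ℝ (b i) x : ℝ) < 0 := by
    apply Finset.sum_neg (fun i _ => hcon i) ⟨0, Finset.mem_univ _⟩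
  linarith

theorem integral_T (h : SData b p) (φ : E3 → ℝ) :
    ∫ x in TT b, φ (gradient (gauge (TT b)) x) = volume.real (TT b) / 4 * ∑ i, φ (b i) := by
  have hb := sdata_body h
  rw [sge_general (c := b) (K := TT b) rfl hb.1 hb.2.2.1 (sge_max h) (fun i j hij => (sdata_ne h hij).1) φ]
  rw [Finset.mul_sum]
  refine Finset.sum_congr rfl (fun i _ => ?_)
  rw [sector_T h i]

private def sgeC (b : Fin 4 → E3) : Fin 4 ⊕ Fin 4 → E3 := Sum.elim b (fun i => - b i)

theorem integral_D (h : SData b p) (φ : E3 → ℝ) :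
    ∫ x in DD b, φ (gradient (gauge (DD b)) x) =
      volume.real (DD b) / 8 * ∑ i, (φ (b i) + φ (-b i)) := by
  have hb := sdata_body h
  have hdef : DD b = {x | ∀ i, inner ℝ (sgeC b i) x ≤ 1} := by
    ext x
    simp only [DD, sgeC, mem_ofPred_eq, Sum.forall, Sum.elim_inl, Sum.elim_inr, inner_neg_left,
      abs_le]
    constructor
    · intro hx
      exact ⟨fun i => (hx i).2, fun i => by linarith [(hx i).1]⟩
    · intro hx i
      exact ⟨by linarith [hx.2 i], hx.1 i⟩
  have hsec1 : ∀ i, {x | x ∈ DD b ∧ ∀ j, inner ℝ (sgeC b j) x ≤ (inner ℝ (sgeC b (Sum.inl i)) x : ℝ)} =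
      {x | x ∈ DD b ∧ ∀ j, |inner ℝ (b j) x| ≤ inner ℝ (b i) x} := by
    intro i
    ext x
    simp only [sgeC, mem_ofPred_eq, Sum.forall, Sum.elim_inl, Sum.elim_inr, inner_neg_left,
      abs_le]
    refine and_congr_right fun _ => ?_
    constructor
    · intro hx j
      exact ⟨by linarith [hx.2 j], hx.1 j⟩
    · intro hx
      exact ⟨fun j => (hx j).2, fun j => by linarith [(hx j).1]⟩
  have hsec2 : ∀ i, {x | x ∈ DD b ∧ ∀ j, inner ℝ (sgeC b j) x ≤ (inner ℝ (sgeC b (Sum.inr i)) x : ℝ)} =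
      -{x | x ∈ DD b ∧ ∀ j, |inner ℝ (b j) x| ≤ inner ℝ (b i) x} := by
    intro i
    ext x
    simp only [sgeC, mem_ofPred_eq, Sum.forall, Sum.elim_inl, Sum.elim_inr, inner_neg_left,
      Set.mem_neg, inner_neg_right, abs_le]
    have hiff : x ∈ DD b ↔ -x ∈ DD b :=
      ⟨fun hx => hb.2.2.2.2.1 x hx, fun hx => by simpa using hb.2.2.2.2.1 (-x) hx⟩
    rw [hiff]
    refine and_congr_right fun _ => ?_
    constructor
    · intro hx j
      exact ⟨by linarith [hx.1 j], hx.2 j⟩
    · intro hx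
      exact ⟨fun j => by linarith [(hx j).1], fun j => (hx j).2⟩
  have hmax : ∀ x : E3, ∃ i, 0 ≤ (inner ℝ (sgeC b i) x : ℝ) := by
    intro x
    obtain ⟨i, hi⟩ := sge_max h x
    exact ⟨Sum.inl i, hi⟩
  have hself : ∀ i, b i ≠ - b i := by
    intro i he
    have h2 : (2 : ℝ) • b i = 0 := by
      rw [two_smul]
      nth_rewrite 2 [he]
      simp
    have h3 : b i = 0 := by simpa using h2
    exact sdata_ne_zero h i h3
  have hne2 : ∀ i j, b i ≠ - b j := by
    intro i j
    by_cases hij : i = j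
    · rw [hij]
      exact hself j
    · exact (sdata_ne h hij).2
  have hinj : ∀ i j, i ≠ j → sgeC b i ≠ sgeC b j := by
    rintro (i | i) (j | j) hij
    · simp only [sgeC, Sum.elim_inl]
      exact (sdata_ne h (fun e => hij (by rw [e]))).1
    · simp only [sgeC, Sum.elim_inl, Sum.elim_inr]
      exact hne2 i j
    · simp only [sgeC, Sum.elim_inl, Sum.elim_inr]
      exact fun e => hne2 j i e.symm
    · simp only [sgeC, Sum.elim_inr]
      intro e
      exact (sdata_ne h (fun e => hij (by rw [e]))).1 (neg_injective e)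
  rw [sge_general (c := sgeC b) hdef hb.2.1 hb.2.2.2.1 hmax hinj φ, Fintype.sum_sum_type]
  simp only [hsec1, hsec2]
  rw [← Finset.sum_add_distrib, Finset.mul_sum]
  refine Finset.sum_congr rfl (fun i _ => ?_)
  have hneg : volume.real (-{x | x ∈ DD b ∧ ∀ j, |inner ℝ (b j) x| ≤ (inner ℝ (b i) x : ℝ)}) =
      volume.real (DD b) / 8 := by
    rw [measureReal_def, Measure.measure_neg, ← measureReal_def, sector_D h i]
  rw [hneg, sector_D h i]
  simp only [sgeC, Sum.elim_inl, Sum.elim_inr]
  ring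

theorem blaschke_simplex_ge {p : Fin 4 → E3} (hp : AffineIndependent ℝ p) {N : Set E3}
    (hB : IsBlaschke (convexHull ℝ (range p)) N) :
    2 * volume.real (convexHull ℝ (range p)) ^ 2 ≤ volume.real N ^ 2 := by
  set g : E3 := (1 / 4 : ℝ) • ∑ i, p i with hg
  set p' : Fin 4 → E3 := fun i => p i + -g with hp'
  have hs : ∑ i, p' i = 0 := by
    simp only [hp', Finset.sum_add_distrib, Finset.sum_const, Finset.card_univ, Fintype.card_fin]
    rw [hg, Fin.sum_univ_four]
    module
  have hpa : AffineIndependent ℝ p' := by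
    have h1 : AffineIndependent ℝ ((-g) +ᵥ p) := hp.vadd
    have : p' = (-g) +ᵥ p := by
      ext1 i
      simp only [hp', Pi.vadd_apply, vadd_eq_add]
      abel
    rw [this]
    exact h1
  obtain ⟨b, hb, hT⟩ := exists_sdata hpa hs
  obtain ⟨bT, bD, h0T, h0D, hDs, -⟩ := sdata_body hb
  set K : Set E3 := convexHull ℝ (range p) with hK
  have hTK : TT b = (fun x => x + -g) '' K := by
    rw [← hT, hK]
    have h1 : range p' = (fun x => x + -g) '' (range p) := by
      rw [← range_comp]
      rfl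
    rw [h1]
    have h2 := (AffineMap.image_convexHull ((AffineMap.id ℝ E3) +
      (AffineMap.const ℝ E3 (-g))) (range p))
    have h3 : ⇑((AffineMap.id ℝ E3) + (AffineMap.const ℝ E3 (-g))) = fun x => x + -g := by
      ext1 x
      rfl
    rw [h3] at h2
    exact h2.symm
  have hvol : volume.real (TT b) = volume.real K := by
    rw [hTK, measureReal_def, measureReal_def]
    congr 1
    simp
  have hBT : IsBlaschke (TT b) N := by
    refine ⟨hB.body, hB.symm, fun E hE => ?_⟩
    rw [hB.surf_eq E hE]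
    have e1 : surf (TT b) E = surf K E := by rw [hTK]; exact surf_translate K E (-g)
    have e2 : surf (-TT b) E = surf (-K) E := by
      have : -TT b = (fun x => x + g) '' (-K) := by
        rw [hTK]
        ext x
        simp only [Set.mem_neg, mem_image]
        constructor
        · rintro ⟨y, hy, e⟩
          exact ⟨-y, by simpa using hy, by
            have : x = -(y + -g) := by rw [e, neg_neg]
            rw [this]; abel⟩
        · rintro ⟨y, hy, e⟩
          exact ⟨-y, hy, by rw [← e]; abel⟩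
      rw [this]
      exact surf_translate (-K) E g
    rw [e1, e2]
  have h0N : (0 : E3) ∈ interior N := symm_zero_mem_interior hB.body hB.symm
  have h0N' : (0 : E3) ∈ N := interior_subset h0N
  have h1 : volume.real N = volume.real (TT b) / 4 * ∑ i, hsup N (b i) := by
    rw [← hsup_grad_self hB.body h0N, ← integral_T hb (hsup N)]
    exact blaschke_integral bT h0T hBT (hsup_continuous hB.body.isCompact ⟨0, h0N'⟩)
      (hsup_nonneg hB.body.isCompact h0N') (fun t ht x => hsup_smul ht x)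
      (hsup_neg hB.symm)
  have h2 := mink_int bD h0D hB.body h0N'
  rw [integral_D hb (hsup N)] at h2
  have h3 : ∑ i, (hsup N (b i) + hsup N (-b i)) = 2 * ∑ i, hsup N (b i) := by
    rw [Finset.mul_sum]
    refine Finset.sum_congr rfl (fun i _ => ?_)
    rw [hsup_neg hB.symm]
    ring
  rw [h3] at h2
  have hNpos : 0 < volume.real N := by
    rw [measureReal_def]
    refine ENNReal.toReal_pos ?_ hB.body.isCompact.measure_lt_top.ne
    exact (Measure.measure_pos_of_nonempty_interior _ hB.body.interior_nonempty).ne'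
  have hTpos : 0 < volume.real (TT b) := by
    rw [measureReal_def]
    refine ENNReal.toReal_pos ?_ bT.isCompact.measure_lt_top.ne
    exact (Measure.measure_pos_of_nonempty_interior _ bT.interior_nonempty).ne'
  have hD : volume.real (DD b) = volume.real (TT b) / 2 := vol_D hb
  set V := volume.real N with hV
  set W := volume.real (TT b) with hW
  have h4 : volume.real (DD b) / 8 * (2 * ∑ i, hsup N (b i)) = V / 2 := by
    rw [hD]
    rw [h1]
    ring
  rw [h4, hD] at h2
  have hsplit : V = V ^ (2 / 3 : ℝ) * V ^ (1 / 3 : ℝ) := by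
    rw [← Real.rpow_add hNpos]
    norm_num
  have h5 : 2 * (W / 2) ^ (2 / 3 : ℝ) ≤ V ^ (2 / 3 : ℝ) := by
    have hp3 : 0 < V ^ (1 / 3 : ℝ) := Real.rpow_pos_of_pos hNpos _
    have : (2 * (W / 2) ^ (2 / 3 : ℝ)) * V ^ (1 / 3 : ℝ) ≤ V ^ (2 / 3 : ℝ) * V ^ (1 / 3 : ℝ) := by
      rw [← hsplit]
      linarith
    exact le_of_mul_le_mul_right this hp3
  have h6 : (2 * (W / 2) ^ (2 / 3 : ℝ)) ^ (3 : ℕ) ≤ (V ^ (2 / 3 : ℝ)) ^ (3 : ℕ) := by
    gcongr
  have h7 : (V ^ (2 / 3 : ℝ)) ^ (3 : ℕ) = V ^ 2 := by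
    rw [← Real.rpow_natCast, ← Real.rpow_mul hNpos.le]
    norm_num
  have h8 : ((W / 2) ^ (2 / 3 : ℝ)) ^ (3 : ℕ) = (W / 2) ^ 2 := by
    rw [← Real.rpow_natCast, ← Real.rpow_mul (by positivity)]
    norm_num
  rw [mul_pow, h7, h8] at h6
  rw [← hvol]
  nlinarith
end Pool.Agent.Lib.MP_43065d_gt
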