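import Pool.Agent.Lib.MP_43065d_gt.KB
import Pool.Agent.Lib.MP_43065d_gt.SimplexGe

/-!
# Main: volume of the Blaschke body in dimension three (assembly)
-/

open MeasureTheory Set Filter Topology Metric
open scoped ENNReal NNReal Pointwise

namespace Pool.Agent.Lib.MP_43065d_gt

theorem volume_pos_of_body {K : Set E3} (hK : IsBody K) : 0 < volume.real K := by
  have h1 : 0 < volume K := by
    refine lt_of_lt_of_le ?_ (measure_mono interior_subset)
    exact isOpen_interior.measure_pos _ hK.interior_nonempty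
  exact ENNReal.toReal_pos h1.ne' hK.isCompact.measure_lt_top.ne

theorem main_real {K N : Set E3} (hK : IsBody K) (hB : IsBlaschke K N) :
    volume.real N ^ 2 ≤ 2 * volume.real K ^ 2 ∧
      (2 * volume.real K ^ 2 ≤ volume.real N ^ 2 ↔
        ∃ p : Fin 4 → E3, AffineIndependent ℝ p ∧ K = convexHull ℝ (range p)) := by
  have hKpos := volume_pos_of_body hK
  obtain ⟨z, -, hz⟩ := exists_Phi_eq_Dmax hK
  have h1 := blaschke_le hK hB z
  rw [hz] at h1
  have h2 := kb_inequality hK
  have hN0 : 0 ≤ volume.real N ^ 2 := by positivity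
  have h3 : volume.real N ^ 2 * volume.real K ≤ 2 * volume.real K ^ 2 * volume.real K := by
    nlinarith [mul_le_mul_of_nonneg_left h2 hN0]
  refine ⟨le_of_mul_le_mul_right h3 hKpos, ?_, ?_⟩
  · intro h
    apply kb_equality hK
    have h4 : 2 * volume.real K ^ 2 * Dmax K ≤ volume.real K ^ 3 := by
      have := mul_le_mul_of_nonneg_right h (Dmax_pos hK).le
      linarith
    have h5 : 2 * Dmax K * volume.real K ^ 2 ≤ volume.real K * volume.real K ^ 2 := by
      nlinarith
    exact le_of_mul_le_mul_right h5 (by positivity)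
  · rintro ⟨p, hp, rfl⟩
    exact blaschke_simplex_ge hp hB

/-- The volume of the Blaschke body in dimension three. -/
theorem main {K N : Set E3} (hK : IsBody K) (hB : IsBlaschke K N) :
    volume N ≤ ENNReal.ofReal (Real.sqrt 2) * volume K ∧
      (volume N = ENNReal.ofReal (Real.sqrt 2) * volume K ↔
        ∃ p : Fin 4 → E3, AffineIndependent ℝ p ∧ K = convexHull ℝ (range p)) := by
  obtain ⟨h1, h2⟩ := main_real hK hB
  have hKf : volume K ≠ ⊤ := hK.isCompact.measure_lt_top.ne
  have hNf : volume N ≠ ⊤ := hB.body.isCompact.measure_lt_top.ne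
  have hs : 0 ≤ Real.sqrt 2 := Real.sqrt_nonneg 2
  have hsq : Real.sqrt 2 ^ 2 = 2 := Real.sq_sqrt (by norm_num)
  have hN0 : 0 ≤ volume.real N := measureReal_nonneg
  have hK0 : 0 ≤ volume.real K := measureReal_nonneg
  have e1 : volume N = ENNReal.ofReal (volume.real N) := by
    rw [Measure.real, ENNReal.ofReal_toReal hNf]
  have e2 : ENNReal.ofReal (Real.sqrt 2) * volume K =
      ENNReal.ofReal (Real.sqrt 2 * volume.real K) := by
    rw [ENNReal.ofReal_mul hs, Measure.real, ENNReal.ofReal_toReal hKf]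
  have hle : volume.real N ≤ Real.sqrt 2 * volume.real K := by
    have : volume.real N ^ 2 ≤ (Real.sqrt 2 * volume.real K) ^ 2 := by
      rw [mul_pow, hsq]; exact h1
    exact abs_le_of_sq_le_sq' this (by positivity) |>.2
  rw [e1, e2]
  refine ⟨ENNReal.ofReal_le_ofReal hle, ?_⟩
  rw [← h2]
  constructor
  · intro h
    have h' : volume.real N = Real.sqrt 2 * volume.real K :=
      (ENNReal.ofReal_eq_ofReal_iff hN0 (by positivity)).1 h
    rw [h', mul_pow, hsq]
  · intro h
    congr 1
    apply le_antisymm hle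
    have : (Real.sqrt 2 * volume.real K) ^ 2 ≤ volume.real N ^ 2 := by
      rw [mul_pow, hsq]; exact h
    exact (abs_le_of_sq_le_sq' this hN0).2

end Pool.Agent.Lib.MP_43065d_gt
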