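import Pool.Agent.Lib.MP_43065d_gt.Dich

/-!
# Module MainIneq: the inequality for the faces of `K₀`

PROOF.  `r, R` from `exists_nice`; `ε` from `dich`.  Let `s` be as in the statement, `u a = vol ((-K₀ \ K₀) ∩ csec K₀ a)`, `v a = vol (K₀ ∩ csec K₀ a)`, `V = vol K₀`, `β = 8/9 m + δ`.
Let `e > 0`; it is enough to prove `(1 - m) V ≤ ∑ u a + β (V - ∑ v a) + C e` with `C` independent of `e`.
Let `A j` be nice for `η j = 1/(j+1)`, `P j = poly (A j)`.  Choose `κ > 0` smaller than half of the distances of different points of `s` and than the `κ₀` of `grp_symm` for every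
`a ∈ s` (with `ρ` such that `K₀ ⊆ closedBall 0 ρ`, `R ≤ ρ`, and `e`).  For `j` large (`η j ≤ η₀(κ)` of `dich`, `η j ≤ e`, and the conclusion of `grp_symm` for all `a ∈ s`), write `A = A j`, `P = P j`.
For `a ∈ s` let `A a = {c ∈ A | ‖c - a‖ < κ}`; these are disjoint for different `a ∈ s`.  Every `c ∈ A` which is in no `A a` satisfies `vol ((-P \ P) ∩ sector c) ≤ β vol (P ∩ sector c)`, by
`dich` (a vector `a` of the first alternative would be in `s`).  The sectors are almost disjoint (`sector_eq_csec`, `csec_inter_null`), so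
`∑_{c ∈ A a} vol (X ∩ sector c) = vol (X ∩ grp A κ a)` for `X = P` and `X = -P \ P` (`sum_csec` for `K = P`, the finite set `A a`, and `grp A κ a = ⋃ c ∈ A a, csec P c`).
Sum over `A` (`sum_sectors`, `diff_volume`, `Nice.center`, `Nice.ratio`):
`(1 - m) vol P - η ≤ vol (-P \ P) ≤ ∑_{a ∈ s} vol ((-P \ P) ∩ grp A κ a) + β (vol P - ∑_{a ∈ s} vol (P ∩ grp A κ a))`.
Finally `|vol P - V| ≤ vol (P ∆ K₀) ≤ η`, `vol ((-P \ P) ∩ grp) ≤ u a + vol (-P \ -K₀) + vol (K₀ \ P) + vol ((grp ∆ csec K₀ a) ∩ closedBall 0 ρ) ≤ u a + 2 η + e`,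
`vol (P ∩ grp) ≥ v a - vol (K₀ \ P) - vol ((grp ∆ csec) ∩ closedBall 0 ρ) ≥ v a - η - e`.
-/

open MeasureTheory Set Filter Topology Metric
open scoped ENNReal NNReal Pointwise

namespace Pool.Agent.Lib.MP_43065d_gt

private theorem mi_real_mono {X Y : Set E3} (h : X ⊆ Y) (hY : volume Y ≠ ⊤) :
    volume.real X ≤ volume.real Y := measureReal_mono h hY

/-- the transfer from `P ∩ grp` to `K₀ ∩ csec` -/
private theorem mi_transfer {P K G C : Set E3} {ρ η e : ℝ} (hP : volume P ≠ ⊤)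
    (hK : volume K ≠ ⊤) (hKρ : K ⊆ closedBall 0 ρ)
    (hη : volume.real (symmDiff P K) ≤ η)
    (he : volume.real (symmDiff G C ∩ closedBall 0 ρ) ≤ e) :
    volume.real ((-P \ P) ∩ G) ≤ volume.real ((-K \ K) ∩ C) + 2 * η + e ∧
    volume.real (K ∩ C) ≤ volume.real (P ∩ G) + η + e := by
  have hPn : volume (-P) ≠ ⊤ := by rwa [Measure.measure_neg]
  have hKn : volume (-K) ≠ ⊤ := by rwa [Measure.measure_neg]
  have hS : volume (symmDiff P K) ≠ ⊤ := by
    refine ne_top_of_le_ne_top (b := volume (P ∪ K)) ?_ (measure_mono symmDiff_subset_union)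
    exact measure_union_ne_top hP hK
  have hB : volume (symmDiff G C ∩ closedBall 0 ρ) ≠ ⊤ :=
    ne_top_of_le_ne_top (measure_closedBall_lt_top (x := (0 : E3)) (r := ρ)).ne
      (measure_mono inter_subset_right)
  have hKPs : K \ P ⊆ symmDiff P K := fun x hx => Or.inr hx
  have hPKs : P \ K ⊆ symmDiff P K := fun x hx => Or.inl hx
  have hKP : volume.real (K \ P) ≤ η := (mi_real_mono hKPs hS).trans hη
  have hPK : volume.real (P \ K) ≤ η := (mi_real_mono hPKs hS).trans hη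
  have hneg : volume.real (-P \ -K) ≤ η := by
    have h1 : -P \ -K = -(P \ K) := by
      ext x
      simp
    rw [h1, measureReal_def, Measure.measure_neg, ← measureReal_def]
    exact hPK
  have hfKP : volume (K \ P) ≠ ⊤ := ne_top_of_le_ne_top hK (measure_mono sdiff_subset)
  have hfn : volume (-P \ -K) ≠ ⊤ := ne_top_of_le_ne_top hPn (measure_mono sdiff_subset)
  constructor
  · have hsub : (-P \ P) ∩ G ⊆ ((-K \ K) ∩ C) ∪
        ((symmDiff G C ∩ closedBall 0 ρ) ∪ ((-P \ -K) ∪ (K \ P))) := by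
      rintro x ⟨⟨hx1, hx2⟩, hx3⟩
      by_cases h1 : x ∈ -K
      · by_cases h2 : x ∈ K
        · exact Or.inr (Or.inr (Or.inr ⟨h2, hx2⟩))
        · by_cases h3 : x ∈ C
          · exact Or.inl ⟨⟨h1, h2⟩, h3⟩
          · refine Or.inr (Or.inl ⟨Or.inl ⟨hx3, h3⟩, ?_⟩)
            have h4 := hKρ h1
            rw [mem_closedBall_zero_iff] at h4 ⊢
            rwa [norm_neg] at h4
      · exact Or.inr (Or.inr (Or.inl ⟨hx1, h1⟩))
    have hf : volume (((-K \ K) ∩ C) ∪
        ((symmDiff G C ∩ closedBall 0 ρ) ∪ ((-P \ -K) ∪ (K \ P)))) ≠ ⊤ := by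
      refine measure_union_ne_top ?_ (measure_union_ne_top hB (measure_union_ne_top hfn hfKP))
      exact ne_top_of_le_ne_top hKn (measure_mono (inter_subset_left.trans sdiff_subset))
    have h1 := mi_real_mono hsub hf
    have h2 := measureReal_union_le (μ := (volume : Measure E3)) ((-K \ K) ∩ C)
      ((symmDiff G C ∩ closedBall 0 ρ) ∪ ((-P \ -K) ∪ (K \ P)))
    have h3 := measureReal_union_le (μ := (volume : Measure E3)) (symmDiff G C ∩ closedBall 0 ρ)
      ((-P \ -K) ∪ (K \ P))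
    have h4 := measureReal_union_le (μ := (volume : Measure E3)) (-P \ -K) (K \ P)
    linarith
  · have hsub : K ∩ C ⊆ (P ∩ G) ∪ ((symmDiff G C ∩ closedBall 0 ρ) ∪ (K \ P)) := by
      rintro x ⟨hx1, hx2⟩
      by_cases h1 : x ∈ P
      · by_cases h2 : x ∈ G
        · exact Or.inl ⟨h1, h2⟩
        · exact Or.inr (Or.inl ⟨Or.inr ⟨hx2, h2⟩, hKρ hx1⟩)
      · exact Or.inr (Or.inr ⟨hx1, h1⟩)
    have hf : volume ((P ∩ G) ∪ ((symmDiff G C ∩ closedBall 0 ρ) ∪ (K \ P))) ≠ ⊤ := by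
      refine measure_union_ne_top ?_ (measure_union_ne_top hB hfKP)
      exact ne_top_of_le_ne_top hP (measure_mono inter_subset_left)
    have h1 := mi_real_mono hsub hf
    have h2 := measureReal_union_le (μ := (volume : Measure E3)) (P ∩ G)
      ((symmDiff G C ∩ closedBall 0 ρ) ∪ (K \ P))
    have h3 := measureReal_union_le (μ := (volume : Measure E3)) (symmDiff G C ∩ closedBall 0 ρ)
      (K \ P)
    linarith

private theorem mi_abs {P K : Set E3} {η : ℝ} (hP : volume P ≠ ⊤) (hK : volume K ≠ ⊤)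
    (hη : volume.real (symmDiff P K) ≤ η) :
    volume.real P ≤ volume.real K + η ∧ volume.real K ≤ volume.real P + η := by
  have hS : volume (symmDiff P K) ≠ ⊤ := by
    refine ne_top_of_le_ne_top (b := volume (P ∪ K)) ?_ (measure_mono symmDiff_subset_union)
    exact measure_union_ne_top hP hK
  constructor
  · have hsub : P ⊆ K ∪ symmDiff P K := by
      intro x hx
      by_cases h : x ∈ K
      · exact Or.inl h
      · exact Or.inr (Or.inl ⟨hx, h⟩)
    have h1 := mi_real_mono hsub (measure_union_ne_top hK hS)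
    have h2 := measureReal_union_le (μ := (volume : Measure E3)) K (symmDiff P K)
    linarith
  · have hsub : K ⊆ P ∪ symmDiff P K := by
      intro x hx
      by_cases h : x ∈ P
      · exact Or.inl h
      · exact Or.inr (Or.inr ⟨hx, h⟩)
    have h1 := mi_real_mono hsub (measure_union_ne_top hP hS)
    have h2 := measureReal_union_le (μ := (volume : Measure E3)) P (symmDiff P K)
    linarith

/-- the volume in the union of the sectors of a group -/
private theorem mi_grp {A : Finset E3} {r R κ : ℝ} (hr : 0 < r) (h1 : closedBall 0 r ⊆ poly A)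
    (h2 : poly A ⊆ closedBall 0 R) {X : Set E3} (hX : MeasurableSet X) (hXf : volume X ≠ ⊤)
    (a : E3) : volume.real (X ∩ grp A κ a) =
      ∑ c ∈ A.filter (fun c => ‖c - a‖ < κ), volume.real (X ∩ sector A c) := by
  have h0 : poly A ∈ 𝓝 (0 : E3) := mem_of_superset (closedBall_mem_nhds 0 hr) h1
  have hs : ∀ c ∈ A.filter (fun c => ‖c - a‖ < κ), c ∈ osup (poly A) := by
    intro c hc x hx
    exact hx c (Finset.mem_filter.1 hc).1
  have h3 := sum_csec (poly_convex A).1 h0 hs hX hXf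
  have h4 : ∀ c ∈ A.filter (fun c => ‖c - a‖ < κ), sector A c = csec (poly A) c := fun c hc =>
    sector_eq_csec hr h1 h2 (Finset.mem_filter.1 hc).1
  have h5 : grp A κ a = ⋃ c ∈ A.filter (fun c => ‖c - a‖ < κ), csec (poly A) c := by
    ext x
    simp only [grp, mem_iUnion, mem_setOf_eq, exists_prop]
    constructor
    · rintro ⟨c, hc, hca, hx⟩
      have hcf : c ∈ A.filter (fun c => ‖c - a‖ < κ) := Finset.mem_filter.2 ⟨hc, hca⟩
      exact ⟨c, hcf, h4 c hcf ▸ hx⟩
    · rintro ⟨c, hc, hx⟩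
      refine ⟨c, (Finset.mem_filter.1 hc).1, (Finset.mem_filter.1 hc).2, ?_⟩
      rw [h4 c hc]
      exact hx
  rw [h5, h3]
  exact Finset.sum_congr rfl fun c hc => by rw [h4 c hc]

/-- the inequality for one nice polytope -/
private theorem mi_poly {A s : Finset E3} {r R κ β : ℝ} (hr : 0 < r)
    (h1 : closedBall 0 r ⊆ poly A) (h2 : poly A ⊆ closedBall 0 R)
    (hκ : ∀ a ∈ s, ∀ b ∈ s, a ≠ b → 2 * κ ≤ ‖a - b‖)
    (hd : ∀ c ∈ A, (∃ a ∈ s, ‖c - a‖ < κ) ∨
      volume.real ((-poly A \ poly A) ∩ sector A c) ≤ β * volume.real (poly A ∩ sector A c)) :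
    volume.real (-poly A \ poly A) ≤
      ∑ a ∈ s, volume.real ((-poly A \ poly A) ∩ grp A κ a) +
        β * (volume.real (poly A) - ∑ a ∈ s, volume.real (poly A ∩ grp A κ a)) := by
  classical
  have hm := (poly_convex A).2.measurableSet
  have hf : volume (poly A) ≠ ⊤ :=
    ne_top_of_le_ne_top (measure_closedBall_lt_top).ne (measure_mono h2)
  have hfn : volume (-poly A \ poly A) ≠ ⊤ := by
    refine ne_top_of_le_ne_top ?_ (measure_mono sdiff_subset)
    rwa [Measure.measure_neg]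
  have hmn : MeasurableSet (-poly A \ poly A) := hm.neg.diff hm
  obtain ⟨e1, e2⟩ := sum_sectors hr h1 h2
  set T : Finset E3 := s.biUnion fun a => A.filter (fun c => ‖c - a‖ < κ) with hT
  have hTA : T ⊆ A := by
    intro c hc
    obtain ⟨a, _, hca⟩ := Finset.mem_biUnion.1 hc
    exact (Finset.mem_filter.1 hca).1
  have hdis : (s : Set E3).PairwiseDisjoint fun a => A.filter (fun c => ‖c - a‖ < κ) := by
    intro a ha b hb hab
    rw [Function.onFun, Finset.disjoint_left]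
    intro c hca hcb
    have e3 := (Finset.mem_filter.1 hca).2
    have e4 := (Finset.mem_filter.1 hcb).2
    have e5 := hκ a ha b hb hab
    have e6 : ‖a - b‖ ≤ ‖c - a‖ + ‖c - b‖ := by
      have e7 : a - b = -(c - a) + (c - b) := by abel
      rw [e7]
      exact (norm_add_le _ _).trans (by rw [norm_neg])
    linarith
  have hsum : ∀ X : Set E3, MeasurableSet X → volume X ≠ ⊤ →
      ∑ c ∈ T, volume.real (X ∩ sector A c) = ∑ a ∈ s, volume.real (X ∩ grp A κ a) := by
    intro X hX hXf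
    rw [hT, Finset.sum_biUnion hdis]
    exact Finset.sum_congr rfl fun a _ => (mi_grp hr h1 h2 hX hXf a).symm
  have e3 := hsum _ hm hf
  have e4 := hsum _ hmn hfn
  have e5 := Finset.sum_sdiff hTA (f := fun c => volume.real (poly A ∩ sector A c))
  have e6 := Finset.sum_sdiff hTA (f := fun c => volume.real ((-poly A \ poly A) ∩ sector A c))
  have e7 : ∑ c ∈ A \ T, volume.real ((-poly A \ poly A) ∩ sector A c) ≤
      β * ∑ c ∈ A \ T, volume.real (poly A ∩ sector A c) := by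
    rw [Finset.mul_sum]
    refine Finset.sum_le_sum fun c hc => ?_
    obtain ⟨hcA, hcT⟩ := Finset.mem_sdiff.1 hc
    rcases hd c hcA with ⟨a, ha, hca⟩ | h3
    · exact absurd (Finset.mem_biUnion.2 ⟨a, ha, Finset.mem_filter.2 ⟨hcA, hca⟩⟩) hcT
    · exact h3
  have e8 : ∑ c ∈ A \ T, volume.real (poly A ∩ sector A c) =
      volume.real (poly A) - ∑ a ∈ s, volume.real (poly A ∩ grp A κ a) := by
    rw [← e3, e1]
    linarith
  rw [e8] at e7
  rw [← e4]
  linarith

theorem main_ineq {K₀ : Set E3} {m : ℝ} (h : IsMin K₀ m) (hm2 : m ≤ 1 / 2) {δ : ℝ} (hδ : 0 < δ) :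
    ∃ ε > 0, ∀ s : Finset E3, (∀ a ∈ s, a ∈ osup K₀) →
      (∀ a ∈ osup K₀, ε ≤ volume.real (K₀ ∩ csec K₀ a) → a ∈ s) →
      (1 - m) * volume.real K₀ ≤ ∑ a ∈ s, volume.real ((-K₀ \ K₀) ∩ csec K₀ a) +
        (8 / 9 * m + δ) * (volume.real K₀ - ∑ a ∈ s, volume.real (K₀ ∩ csec K₀ a)) := by
  obtain ⟨r, R, hr, hex⟩ := exists_nice h
  obtain ⟨ε, hε, hd⟩ := dich (R := R) h hm2 hr hδ
  refine ⟨ε, hε, fun s hs1 hs2 => ?_⟩
  have hm := h.pos
  set β : ℝ := 8 / 9 * m + δ with hβ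
  have hβ0 : 0 < β := by positivity
  obtain ⟨ρ, hρ⟩ := h.body.isCompact.isBounded.subset_closedBall (0 : E3)
  have hKf : volume K₀ ≠ ⊤ := h.body.isCompact.measure_lt_top.ne
  choose A hA using fun j : ℕ => hex (1 / ((j : ℝ) + 1)) (by positivity)
  have hη : Tendsto (fun j : ℕ => 1 / ((j : ℝ) + 1)) atTop (𝓝 0) :=
    tendsto_one_div_add_atTop_nhds_zero_nat
  have hV : Tendsto (fun j => volume.real (symmDiff (poly (A j)) K₀)) atTop (𝓝 0) :=
    squeeze_zero (fun _ => measureReal_nonneg) (fun j => (hA j).near) hη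
  set C : ℝ := (1 - m) + 1 + 3 * s.card + β + 2 * β * s.card with hC
  have hC0 : 0 < C := by
    have : (0 : ℝ) ≤ s.card := Nat.cast_nonneg _
    have h1 : 0 ≤ 1 - m := by linarith
    positivity
  refine le_of_forall_pos_le_add fun t ht => ?_
  obtain ⟨e, he, hCe⟩ : ∃ e > 0, C * e = t := ⟨t / C, by positivity, by field_simp⟩
  -- the choice of `κ`
  have hev1 : ∀ᶠ κ in 𝓝[>] (0 : ℝ), ∀ a ∈ s, ∀ᶠ j in atTop,
      volume.real (symmDiff (grp (A j) κ a) (csec K₀ a) ∩ closedBall 0 ρ) ≤ e := by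
    rw [Finset.eventually_all]
    intro a ha
    obtain ⟨κ₀, hκ₀, hg⟩ := grp_symm h.body h.zero hr (fun j => (hA j).ball)
      (fun j => (hA j).bdd) hV (hs1 a ha) ρ he
    filter_upwards [Ioc_mem_nhdsGT hκ₀] with κ hκ
    exact hg κ hκ.1 hκ.2
  have hev2 : ∀ᶠ κ in 𝓝[>] (0 : ℝ), ∀ a ∈ s, ∀ b ∈ s, a ≠ b → 2 * κ ≤ ‖a - b‖ := by
    rw [Finset.eventually_all]
    intro a _
    rw [Finset.eventually_all]
    intro b _
    by_cases hab : a = b
    · exact Eventually.of_forall fun κ hne => absurd hab hne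
    · have h1 : 0 < ‖a - b‖ / 2 := by
        have := norm_pos_iff.2 (sub_ne_zero.2 hab)
        positivity
      filter_upwards [Ioc_mem_nhdsGT h1] with κ hκ _
      linarith [hκ.2]
  obtain ⟨κ, ⟨hκ1, hκ2⟩, hκ0⟩ := ((hev1.and hev2).and self_mem_nhdsWithin).exists
  have hκ0' : 0 < κ := hκ0
  obtain ⟨η₀, hη₀, hd'⟩ := hd κ hκ0'
  have hev3 : ∀ᶠ j in atTop, ∀ a ∈ s,
      volume.real (symmDiff (grp (A j) κ a) (csec K₀ a) ∩ closedBall 0 ρ) ≤ e := by
    rw [Finset.eventually_all]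
    exact hκ1
  obtain ⟨j, ⟨hj1, hj2⟩, hj3⟩ := ((hev3.and (hη.eventually_le_const hη₀)).and
    (hη.eventually_le_const he)).exists
  have hN := hA j
  set P : Set E3 := poly (A j) with hP
  have hPf : volume P ≠ ⊤ :=
    ne_top_of_le_ne_top (measure_closedBall_lt_top).ne (measure_mono hN.bdd)
  have hjp : (0 : ℝ) ≤ 1 / ((j : ℝ) + 1) := by positivity
  have hmain := mi_poly (β := β) (s := s) hr hN.ball hN.bdd hκ2 (by
    intro c hc
    rcases hd' _ hjp hj2 (A j) hN c hc with ⟨a, ha, hva, hca⟩ | h1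
    · exact Or.inl ⟨a, hs2 a ha hva, hca⟩
    · exact Or.inr h1)
  have hdv := diff_volume hr hN.ball hN.bdd
  have hcen := hN.center
  have hrat := hN.ratio
  have hnear : volume.real (symmDiff P K₀) ≤ e := hN.near.trans hj3
  obtain ⟨hab1, hab2⟩ := mi_abs hPf hKf hnear
  have hs3 : ∑ a ∈ s, volume.real ((-P \ P) ∩ grp (A j) κ a) ≤
      ∑ a ∈ s, volume.real ((-K₀ \ K₀) ∩ csec K₀ a) + s.card * (3 * e) := by
    rw [← nsmul_eq_mul, ← Finset.sum_const, ← Finset.sum_add_distrib]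
    refine Finset.sum_le_sum fun a ha => ?_
    have := (mi_transfer hPf hKf hρ hnear (hj1 a ha)).1
    linarith
  have hs4 : ∑ a ∈ s, volume.real (K₀ ∩ csec K₀ a) ≤
      ∑ a ∈ s, volume.real (P ∩ grp (A j) κ a) + s.card * (2 * e) := by
    rw [← nsmul_eq_mul, ← Finset.sum_const, ← Finset.sum_add_distrib]
    refine Finset.sum_le_sum fun a ha => ?_
    have := (mi_transfer hPf hKf hρ hnear (hj1 a ha)).2
    linarith
  have hs5 : β * (volume.real P - ∑ a ∈ s, volume.real (P ∩ grp (A j) κ a)) ≤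
      β * (volume.real K₀ + e - ∑ a ∈ s, volume.real (K₀ ∩ csec K₀ a) + s.card * (2 * e)) :=
    mul_le_mul_of_nonneg_left (by linarith) hβ0.le
  have hs6 : (1 - m) * volume.real K₀ ≤ (1 - m) * (volume.real P + e) :=
    mul_le_mul_of_nonneg_left hab2 (by linarith)
  rw [← hCe, hC]
  rw [hcen] at hdv
  nlinarith [hmain, hdv, hrat, hs3, hs5, hs6, hj3]

end Pool.Agent.Lib.MP_43065d_gt
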