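import Pool.Agent.Lib.MP_43065d_gt.PolyApprox
import Pool.Agent.Lib.MP_43065d_gt.PhiBasic

/-!
# Module MinPoly: polytopes close to a minimiser that are approximately critical

STATEMENT.  `K₀` is a body with the smallest ratio `m = Dmax K₀ / vol K₀`, between `closedBall 0 r` and
`closedBall 0 R`.  For every `η > 0` there is a finite set `A` such that `poly A` is close to `K₀`, its ratio
is close to `m` and `NCrit A m η` holds.

PROOF.  Let `J P = Dmax P - m vol P + η vol (P ∆ K₀)`; `Dmax P - m vol P ≥ 0` for bodies.  Choose `κ > 0` with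
`κ ≤ η`, `κ ≤ 1` and `κ < vol (ball 0 (r/4)) / 2`.
1. Take `Q = poly A_Q` from `exists_poly` with `K₀ ⊆ Q ⊆ (1 + δ) • K₀`, `δ ≤ 1` so small that
`(2 + η) ((1 + δ)^3 - 1) vol K₀ ≤ η κ` and `≤ κ`.  Then `vol (Q ∆ K₀) ≤ ((1 + δ)^3 - 1) vol K₀`, and
`J Q ≤ (Dmax K₀ + 2 vol (Q ∆ K₀)) - m vol K₀ + η vol (Q ∆ K₀) ≤ (2 + η) vol (Q ∆ K₀) ≤ min (η κ) κ`
(`Dmax_sub_le`, `vol Q ≥ vol K₀`, `m ≥ 0`).  `‖a‖ ≤ 1/r` for `a ∈ A_Q` (`norm_le_of_ball_subset`), `Q ⊆ closedBall 0 (2R)`.
`n = card A_Q ≥ 1`.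
2. For `a : Fin n → E3` let `P a = {x ∈ closedBall 0 (3R) | ∀ k, ⟪a k, x⟫ ≤ 1}` and `X = {a | ∀ k, ‖a k‖ ≤ 4/r}`, compact.
For `a ∈ X`, `P a` is a body (it contains `closedBall 0 (r/4)`).  If `a → a₀` then
`vol (P a ∆ P a₀) → 0`: for every `x` with `⟪a₀ k, x⟫ ≠ 1` for all `k` the indicators converge, the exceptional
set is a finite union of planes (null; empty if `a₀ k = 0`), dominated by the ball.  Since
`|Dmax P - Dmax P'| ≤ 2 vol (P ∆ P')`, `|vol P - vol P'| ≤ vol (P ∆ P')`,
`|vol (P ∆ K₀) - vol (P' ∆ K₀)| ≤ vol (P ∆ P')`, the function `a ↦ J (P a)` is continuous on `X`, so it has a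
minimum at some `a*`; `J (P a*) ≤ J Q` because `Q = P a` for an enumeration `a` of `A_Q`.
3. `P* = P a*`: `η vol (P* ∆ K₀) ≤ J (P*) ≤ η κ`, so `vol (P* ∆ K₀) ≤ κ`, and `Dmax P* - m vol P* ≤ κ ≤ η`.
By `subset_of_volume_diff` (`δ = 1/2`): `closedBall 0 (r/2) ⊆ (1/2) • K₀ ⊆ P*`, and then (with the roles exchanged,
`closedBall 0 (r/2) ⊆ P*`) `(1/2) • P* ⊆ K₀`, so `P* ⊆ closedBall 0 (2R)`.
Let `A = Finset.univ.image a*`.  `poly A` is star shaped about `0` and `poly A ∩ closedBall 0 (3R) = P* ⊆ closedBall 0 (2R)`,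
so `poly A = P*` (a point of norm `> 2R` could be scaled to norm in `(2R, 3R]`).  `‖a‖ ≤ 2/r` for `a ∈ A`.
4. `NCrit`: let `a ∈ A`, `‖a' - a‖ < min (1/(15R)) (2/r)`, `a'' k = a'` if `a* k = a` and `a* k` otherwise; `a'' ∈ X`.
`polyR A a a' ⊆ closedBall 0 (3R)`: otherwise (star shaped) there is `x ∈ polyR A a a'` with `‖x‖ = 3R`; the point
`(5/6) • x` has norm `5R/2`, so it is not in `poly A`, but it satisfies all conditions except that of `a`, so
`⟪a, x⟫ > 6/5`, while `⟪a', x⟫ ≤ 1`: `1/5 < ⟪a - a', x⟫ ≤ 3R ‖a - a'‖`, contradiction.  So `P a'' = polyR A a a'`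
and `J (polyR A a a') ≥ J (poly A)`, which with `vol (P' ∆ K₀) ≤ vol (P* ∆ K₀) + vol (P* ∆ P')` is the claim.
-/

open MeasureTheory Set Filter Topology Metric
open scoped ENNReal NNReal Pointwise

namespace Pool.Agent.Lib.MP_43065d_gt

private noncomputable def mpJ (K₀ : Set E3) (m η : ℝ) (P : Set E3) : ℝ :=
  Dmax P - m * volume.real P + η * volume.real (symmDiff P K₀)

private theorem mp_fin {K : Set E3} (hK : IsBody K) : volume K ≠ ⊤ := hK.isCompact.measure_lt_top.ne

private theorem mp_meas {K : Set E3} (hK : IsBody K) : MeasurableSet K := hK.isCompact.measurableSet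

private theorem mp_volsub {A B : Set E3} (hA : IsBody A) (hB : IsBody B) :
    |volume.real A - volume.real B| ≤ volume.real (symmDiff A B) :=
  abs_measureReal_sub_le_measureReal_symmDiff' (mp_meas hA).nullMeasurableSet
    (mp_meas hB).nullMeasurableSet (mp_fin hA) (mp_fin hB)

private theorem mpJ_sub_le {K₀ A B : Set E3} (hA : IsBody A) (hB : IsBody B)
    {m η : ℝ} (hm : 0 ≤ m) (hη : 0 ≤ η) :
    |mpJ K₀ m η A - mpJ K₀ m η B| ≤ (2 + m + η) * volume.real (symmDiff A B) := by
  have h1 := abs_le.1 (Dmax_sub_le hA hB)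
  have h2 := abs_le.1 (mp_volsub hA hB)
  have h3 := measureReal_symmDiff_le (μ := volume) (s := A) (t := B) K₀ (mp_fin hA) (mp_fin hB)
  have h4 := measureReal_symmDiff_le (μ := volume) (s := B) (t := A) K₀ (mp_fin hB) (mp_fin hA)
  rw [symmDiff_comm B A] at h4
  set V := volume.real (symmDiff A B)
  have h5 : |m * (volume.real A - volume.real B)| ≤ m * V := by
    rw [abs_mul, abs_of_nonneg hm]
    exact mul_le_mul_of_nonneg_left (mp_volsub hA hB) hm
  have h6 : |η * (volume.real (symmDiff A K₀) - volume.real (symmDiff B K₀))| ≤ η * V := by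
    rw [abs_mul, abs_of_nonneg hη]
    exact mul_le_mul_of_nonneg_left (abs_le.2 ⟨by linarith, by linarith⟩) hη
  have h7 := abs_le.1 h5
  have h8 := abs_le.1 h6
  unfold mpJ
  rw [abs_le]
  constructor <;> nlinarith

private def mpP {n : ℕ} (ρ : ℝ) (a : Fin n → E3) : Set E3 :=
  {x | x ∈ closedBall (0 : E3) ρ ∧ ∀ k, inner ℝ (a k) x ≤ 1}

private theorem mpP_eq {n : ℕ} (ρ : ℝ) (a : Fin n → E3) :
    mpP ρ a = closedBall (0 : E3) ρ ∩ ⋂ k, {x | inner ℝ (a k) x ≤ 1} := by
  ext x
  simp [mpP]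

private theorem mpP_closed {n : ℕ} (ρ : ℝ) (a : Fin n → E3) : IsClosed (mpP ρ a) := by
  rw [mpP_eq]
  exact isClosed_closedBall.inter (isClosed_iInter fun k =>
    isClosed_le (continuous_const.inner continuous_id) continuous_const)

private theorem mpP_convex {n : ℕ} (ρ : ℝ) (a : Fin n → E3) : Convex ℝ (mpP ρ a) := by
  rw [mpP_eq]
  refine (convex_closedBall _ _).inter (convex_iInter fun k => ?_)
  exact convex_halfSpace_le (IsLinearMap.mk (fun x y => inner_add_right _ _ _)
    (fun c x => inner_smul_right _ _ _)) 1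

private theorem mpP_ball {n : ℕ} {ρ s : ℝ} (hs : 0 < s) (hsρ : s ≤ ρ) (a : Fin n → E3)
    (ha : ∀ k, ‖a k‖ ≤ 1 / s) : closedBall (0 : E3) s ⊆ mpP ρ a := by
  intro x hx
  have hxn : ‖x‖ ≤ s := by simpa using hx
  refine ⟨closedBall_subset_closedBall hsρ hx, fun k => ?_⟩
  calc inner ℝ (a k) x ≤ ‖a k‖ * ‖x‖ := real_inner_le_norm _ _
    _ ≤ 1 / s * s := mul_le_mul (ha k) hxn (norm_nonneg _) (by positivity)
    _ = 1 := by field_simp

private theorem mpP_body {n : ℕ} {ρ s : ℝ} (hs : 0 < s) (hsρ : s ≤ ρ) (a : Fin n → E3)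
    (ha : ∀ k, ‖a k‖ ≤ 1 / s) : IsBody (mpP ρ a) where
  convex := mpP_convex ρ a
  isCompact := (isCompact_closedBall (0 : E3) ρ).of_isClosed_subset (mpP_closed ρ a)
    fun _ hx => hx.1
  interior_nonempty := ⟨0, mem_interior.2 ⟨ball 0 s,
    ball_subset_closedBall.trans (mpP_ball hs hsρ a ha), isOpen_ball, mem_ball_self hs⟩⟩

private theorem mp_plane (u : E3) : volume {x : E3 | inner ℝ u x = 1} = 0 := by
  by_cases hu : ∃ p : E3, inner ℝ u p = 1
  · obtain ⟨p, hp⟩ := hu
    let W : Submodule ℝ E3 := LinearMap.ker (innerₛₗ ℝ u)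
    have hW : W ≠ ⊤ := by
      intro h
      have h1 : p ∈ W := by rw [h]; trivial
      rw [LinearMap.mem_ker, innerₛₗ_apply_apply] at h1
      rw [h1] at hp
      norm_num at hp
    refine measure_mono_null ?_ (Measure.addHaar_affineSubspace volume (AffineSubspace.mk' p W) ?_)
    · intro x hx
      have hx' : inner ℝ u x = 1 := hx
      rw [SetLike.mem_coe, AffineSubspace.mem_mk', vsub_eq_sub, LinearMap.mem_ker,
        innerₛₗ_apply_apply, inner_sub_right, hx', hp, sub_self]
    · intro h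
      apply hW
      have h1 := AffineSubspace.direction_mk' p W
      rw [h, AffineSubspace.direction_top] at h1
      exact h1.symm
  · push Not at hu
    have h1 : {x : E3 | inner ℝ u x = 1} = ∅ := by
      ext x
      simp only [mem_setOf_eq, mem_empty_iff_false, iff_false]
      exact hu x
    rw [h1]
    exact measure_empty

private theorem mpP_tendsto {n : ℕ} (ρ : ℝ) (a₀ : Fin n → E3) :
    Tendsto (fun a => volume.real (symmDiff (mpP ρ a) (mpP ρ a₀))) (𝓝 a₀) (𝓝 0) := by
  have h := tendsto_measure_of_ae_tendsto_indicator (μ := (volume : Measure E3)) (𝓝 a₀)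
    (A := (∅ : Set E3)) (As := fun a => symmDiff (mpP ρ a) (mpP ρ a₀)) MeasurableSet.empty
    (fun a => (mpP_closed ρ a).measurableSet.symmDiff (mpP_closed ρ a₀).measurableSet)
    (B := closedBall (0 : E3) ρ) isClosed_closedBall.measurableSet
    (isCompact_closedBall (0 : E3) ρ).measure_lt_top.ne
    (Eventually.of_forall fun a x hx => by
      rcases hx with hx | hx
      · exact hx.1.1
      · exact hx.1.1) ?_
  · rw [measure_empty] at h
    exact (ENNReal.tendsto_toReal ENNReal.zero_ne_top).comp h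
  · have h1 : ∀ᵐ x ∂(volume : Measure E3), ∀ k, inner ℝ (a₀ k) x ≠ 1 := by
      rw [ae_all_iff]
      intro k
      exact measure_eq_zero_iff_ae_notMem.1 (mp_plane (a₀ k))
    filter_upwards [h1] with x hx
    have h2 : ∀ k, ∀ᶠ a in 𝓝 a₀, (inner ℝ (a k) x ≤ 1 ↔ inner ℝ (a₀ k) x ≤ 1) := by
      intro k
      have hc : Continuous fun a : Fin n → E3 => inner ℝ (a k) x :=
        (continuous_apply k).inner continuous_const
      rcases lt_or_gt_of_ne (hx k) with hlt | hgt
      · filter_upwards [(hc.tendsto a₀).eventually_lt_const hlt] with a ha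
        exact ⟨fun _ => hlt.le, fun _ => ha.le⟩
      · filter_upwards [(hc.tendsto a₀).eventually_const_lt hgt] with a ha
        exact ⟨fun h => absurd h (not_le.2 ha), fun h => absurd h (not_le.2 hgt)⟩
    filter_upwards [eventually_all.2 h2] with a ha
    simp only [mem_empty_iff_false, iff_false]
    rintro (hx1 | hx1)
    · exact hx1.2 ⟨hx1.1.1, fun k => (ha k).1 (hx1.1.2 k)⟩
    · exact hx1.2 ⟨hx1.1.1, fun k => (ha k).2 (hx1.1.2 k)⟩

private theorem mp_scale {ρ : ℝ} (hρ : 0 < ρ) {x : E3} (hx : ρ < ‖x‖) :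
    ∃ t : ℝ, 0 < t ∧ t ≤ 1 ∧ ‖t • x‖ = ρ := by
  have h0 : 0 < ‖x‖ := hρ.trans hx
  refine ⟨ρ / ‖x‖, div_pos hρ h0, (div_le_one h0).2 hx.le, ?_⟩
  rw [norm_smul, Real.norm_of_nonneg (div_pos hρ h0).le]
  field_simp

private theorem mp_star {u x : E3} {t : ℝ} (ht : 0 < t) (ht1 : t ≤ 1) (h : inner ℝ u x ≤ 1) :
    inner ℝ u (t • x) ≤ 1 := by
  rw [inner_smul_right]
  nlinarith

theorem exists_ncrit {K₀ : Set E3} (hK : IsBody K₀) {r R : ℝ} (hr : 0 < r)
    (hrK : closedBall 0 r ⊆ K₀) (hKR : K₀ ⊆ closedBall 0 R) {m : ℝ} (hm0 : 0 ≤ m)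
    (hm : ∀ K : Set E3, IsBody K → m * volume.real K ≤ Dmax K)
    (hmK : Dmax K₀ = m * volume.real K₀) {η : ℝ} (hη : 0 < η) :
    ∃ A : Finset E3, closedBall 0 (r / 2) ⊆ poly A ∧ poly A ⊆ closedBall 0 (2 * R) ∧
      volume.real (symmDiff (poly A) K₀) ≤ η ∧
      Dmax (poly A) ≤ m * volume.real (poly A) + η ∧ NCrit A m η := by
  classical
  -- r ≤ R
  have hrR : r ≤ R := by
    have h1 : (r • EuclideanSpace.single (0 : Fin 3) (1 : ℝ) : E3) ∈ closedBall (0 : E3) R := by
      refine hKR (hrK ?_)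
      rw [mem_closedBall_zero_iff, norm_smul, PiLp.norm_single, norm_one, mul_one,
        Real.norm_of_nonneg hr.le]
    rw [mem_closedBall_zero_iff, norm_smul, PiLp.norm_single, norm_one, mul_one,
      Real.norm_of_nonneg hr.le] at h1
    exact h1
  have hR : 0 < R := hr.trans_le hrR
  have hKf := mp_fin hK
  have hKm := mp_meas hK
  -- the tolerance
  set β : ℝ := volume.real (ball (0 : E3) (r / 4)) with hβ
  have hβ0 : 0 < β := by
    rw [hβ, measureReal_def]
    exact ENNReal.toReal_pos (measure_ball_pos volume _ (by positivity)).ne' measure_ball_lt_top.ne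
  set κ : ℝ := min (min η 1) (β / 4) with hκ
  have hκ0 : 0 < κ := lt_min (lt_min hη one_pos) (by positivity)
  have hκη : κ ≤ η := (min_le_left _ _).trans (min_le_left _ _)
  have hκβ : κ < β / 2 := lt_of_le_of_lt (min_le_right _ _) (by linarith)
  set V₀ : ℝ := volume.real K₀ with hV₀
  have hV₀0 : 0 ≤ V₀ := measureReal_nonneg
  -- step 1: the first polytope
  set τ : ℝ := min (η * κ) κ with hτ
  have hτ0 : 0 < τ := lt_min (mul_pos hη hκ0) hκ0
  set δ : ℝ := min 1 (τ / (7 * (2 + η) * (V₀ + 1))) with hδ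
  have hD0 : 0 < 7 * (2 + η) * (V₀ + 1) := by positivity
  have hδ0 : 0 < δ := lt_min one_pos (div_pos hτ0 hD0)
  have hδ1 : δ ≤ 1 := min_le_left _ _
  have hδτ : δ * (7 * (2 + η) * (V₀ + 1)) ≤ τ := by
    have h1 : δ ≤ τ / (7 * (2 + η) * (V₀ + 1)) := min_le_right _ _
    rwa [le_div_iff₀ hD0] at h1
  have hcube : (1 + δ) ^ 3 - 1 ≤ 7 * δ := by nlinarith [mul_nonneg hδ0.le hδ0.le]
  have h0int : (0 : E3) ∈ interior K₀ :=
    mem_interior.2 ⟨ball 0 r, ball_subset_closedBall.trans hrK, isOpen_ball, mem_ball_self hr⟩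
  obtain ⟨AQ, hKQ, hQK⟩ := exists_poly hK h0int hδ0
  have hQR : poly AQ ⊆ closedBall 0 (2 * R) := by
    intro x hx
    obtain ⟨y, hy, rfl⟩ := hQK hx
    have h1 : ‖y‖ ≤ R := by simpa using hKR hy
    rw [mem_closedBall_zero_iff]
    show ‖(1 + δ) • y‖ ≤ 2 * R
    rw [norm_smul, Real.norm_of_nonneg (by linarith)]
    exact mul_le_mul (by linarith) h1 (norm_nonneg _) (by norm_num)
  have hQball : closedBall 0 r ⊆ poly AQ := hrK.trans hKQ
  have hQbody : IsBody (poly AQ) := (poly_body hr hQball hQR).1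
  have hvolQ : volume.real (symmDiff (poly AQ) K₀) ≤ 7 * δ * V₀ := by
    have h1 : symmDiff (poly AQ) K₀ = poly AQ \ K₀ := by
      rw [Set.symmDiff_def, Set.sdiff_eq_empty.2 hKQ, Set.union_empty]
    have h2 : volume.real (poly AQ \ K₀) = volume.real (poly AQ) - V₀ := by
      rw [measureReal_sdiff hKQ hKm (mp_fin hQbody)]
    have h3 : volume.real (poly AQ) ≤ (1 + δ) ^ 3 * V₀ := by
      have h4 : volume.real ((1 + δ) • K₀) = (1 + δ) ^ 3 * V₀ := by
        rw [measureReal_def, Measure.addHaar_smul_of_nonneg volume (by linarith),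
          ENNReal.toReal_mul, ENNReal.toReal_ofReal (by positivity), hV₀, measureReal_def]
        simp
      rw [← h4]
      refine measureReal_mono hQK ?_
      rw [Measure.addHaar_smul]
      exact ENNReal.mul_ne_top ENNReal.ofReal_ne_top hKf
    rw [h1, h2]
    nlinarith
  have hJQ : mpJ K₀ m η (poly AQ) ≤ τ := by
    have h1 := abs_le.1 (Dmax_sub_le hQbody hK)
    have h2 : V₀ ≤ volume.real (poly AQ) := measureReal_mono hKQ (mp_fin hQbody)
    have h3 : m * V₀ ≤ m * volume.real (poly AQ) := mul_le_mul_of_nonneg_left h2 hm0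
    have h4 : (0 : ℝ) ≤ volume.real (symmDiff (poly AQ) K₀) := measureReal_nonneg
    have h5 : (2 + η) * volume.real (symmDiff (poly AQ) K₀) ≤ (2 + η) * (7 * δ * V₀) :=
      mul_le_mul_of_nonneg_left hvolQ (by linarith)
    have h6 : (2 + η) * (7 * δ * V₀) ≤ δ * (7 * (2 + η) * (V₀ + 1)) := by
      have : 0 ≤ δ * (7 * (2 + η)) := by positivity
      nlinarith
    unfold mpJ
    nlinarith
  -- step 2: the minimiser
  set n := AQ.card with hn
  let aQ : Fin n → E3 := fun k => (AQ.equivFin.symm k).1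
  have haQ : ∀ k, aQ k ∈ AQ := fun k => (AQ.equivFin.symm k).2
  have haQ' : ∀ c ∈ AQ, ∃ k, aQ k = c := fun c hc =>
    ⟨AQ.equivFin ⟨c, hc⟩, by simp [aQ]⟩
  have h3R : r / 4 ≤ 3 * R := by linarith
  have hr4 : 0 < r / 4 := by positivity
  have h14 : (1 : ℝ) / (r / 4) = 4 / r := by field_simp
  let X : Set (Fin n → E3) := {a | ∀ k, ‖a k‖ ≤ 4 / r}
  have hXc : IsCompact X := by
    have h1 : X = Set.pi univ fun _ : Fin n => closedBall (0 : E3) (4 / r) := by
      ext a
      simp [X]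
    rw [h1]
    exact isCompact_univ_pi fun _ => isCompact_closedBall _ _
  have hXb : ∀ a ∈ X, IsBody (mpP (3 * R) a) := fun a ha =>
    mpP_body hr4 h3R a fun k => by rw [h14]; exact ha k
  have hQP : mpP (3 * R) aQ = poly AQ := by
    ext x
    constructor
    · rintro ⟨_, hx⟩ c hc
      obtain ⟨k, rfl⟩ := haQ' c hc
      exact hx k
    · intro hx
      exact ⟨closedBall_subset_closedBall (by linarith) (hQR hx), fun k => hx _ (haQ k)⟩
  have haQX : aQ ∈ X := by
    intro k
    refine (norm_le_of_ball_subset hr hQball (haQ k)).trans ?_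
    exact div_le_div_of_nonneg_right (by norm_num) hr.le
  have hJc : ContinuousOn (fun a => mpJ K₀ m η (mpP (3 * R) a)) X := by
    intro a₀ ha₀
    have h1 : Tendsto (fun a => (2 + m + η) * volume.real (symmDiff (mpP (3 * R) a) (mpP (3 * R) a₀)))
        (𝓝[X] a₀) (𝓝 0) := by
      have h2 := ((mpP_tendsto (3 * R) a₀).const_mul (2 + m + η)).mono_left
        (nhdsWithin_le_nhds (s := X))
      rwa [mul_zero] at h2
    rw [ContinuousWithinAt, tendsto_iff_dist_tendsto_zero]
    refine squeeze_zero' (Eventually.of_forall fun _ => dist_nonneg) ?_ h1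
    filter_upwards [self_mem_nhdsWithin] with a ha
    rw [Real.dist_eq]
    exact mpJ_sub_le (hXb a ha) (hXb a₀ ha₀) hm0 hη.le
  obtain ⟨a, haX, hamin⟩ := hXc.exists_isMinOn ⟨aQ, haQX⟩ hJc
  have hmin : ∀ a' ∈ X, mpJ K₀ m η (mpP (3 * R) a) ≤ mpJ K₀ m η (mpP (3 * R) a') :=
    fun a' ha' => hamin ha'
  -- step 3
  set P : Set E3 := mpP (3 * R) a with hP
  have hPb : IsBody P := hXb a haX
  have hJP : mpJ K₀ m η P ≤ τ := (hmin aQ haQX).trans (by rw [hQP]; exact hJQ)
  have hJP' : Dmax P - m * volume.real P + η * volume.real (symmDiff P K₀) ≤ τ := hJP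
  have hPm := hm P hPb
  have hsd0 : (0 : ℝ) ≤ volume.real (symmDiff P K₀) := measureReal_nonneg
  have hsd : volume.real (symmDiff P K₀) ≤ κ := by
    have h1 : η * volume.real (symmDiff P K₀) ≤ η * κ := by
      have : τ ≤ η * κ := min_le_left _ _
      linarith
    exact le_of_mul_le_mul_left h1 hη
  have hDP : Dmax P ≤ m * volume.real P + η := by
    have h1 : τ ≤ κ := min_le_right _ _
    have h2 : 0 ≤ η * volume.real (symmDiff P K₀) := mul_nonneg hη.le hsd0
    linarith
  have hball1 : closedBall (0 : E3) (r / 2) ⊆ P := by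
    have h1 : (1 - (1 / 2 : ℝ)) • K₀ ⊆ P := by
      refine subset_of_volume_diff hK.convex hKf hPb.convex hPb.isCompact.isClosed hr hrK
        (by norm_num) (by norm_num) ?_
      have h2 : volume.real (K₀ \ P) ≤ volume.real (symmDiff P K₀) := by
        refine measureReal_mono (fun x hx => Or.inr hx) ?_
        exact measure_symmDiff_ne_top (mp_fin hPb) hKf
      have h3 : β ≤ volume.real (ball (0 : E3) (1 / 2 * r)) := by
        refine measureReal_mono (ball_subset_ball (by linarith)) measure_ball_lt_top.ne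
      linarith
    intro x hx
    refine h1 ⟨(2 : ℝ) • x, hrK ?_, ?_⟩
    · rw [mem_closedBall_zero_iff] at hx ⊢
      rw [norm_smul, Real.norm_of_nonneg (by norm_num)]
      linarith
    · show (1 - (1 / 2 : ℝ)) • (2 : ℝ) • x = x
      rw [smul_smul]
      norm_num
  have hPR : P ⊆ closedBall (0 : E3) (2 * R) := by
    have h1 : (1 - (1 / 2 : ℝ)) • P ⊆ K₀ := by
      refine subset_of_volume_diff hPb.convex (mp_fin hPb) hK.convex hK.isCompact.isClosed
        (half_pos hr) hball1 (by norm_num) (by norm_num) ?_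
      have h2 : volume.real (P \ K₀) ≤ volume.real (symmDiff P K₀) := by
        refine measureReal_mono (fun x hx => Or.inl hx) ?_
        exact measure_symmDiff_ne_top (mp_fin hPb) hKf
      have h3 : (1 / 2 : ℝ) * (r / 2) = r / 4 := by ring
      rw [h3]
      linarith
    intro x hx
    have h2 : (1 - (1 / 2 : ℝ)) • x ∈ K₀ := h1 ⟨x, hx, rfl⟩
    have h3 := hKR h2
    rw [mem_closedBall_zero_iff, norm_smul, Real.norm_of_nonneg (by norm_num)] at h3
    rw [mem_closedBall_zero_iff]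
    linarith
  set A : Finset E3 := Finset.univ.image a with hA
  have hAm : ∀ c, c ∈ A ↔ ∃ k, a k = c := by
    intro c
    simp [hA]
  have hPA : poly A = P := by
    have hsub : ∀ x ∈ poly A, ‖x‖ ≤ 3 * R → x ∈ P := by
      intro x hx hxn
      exact ⟨by simpa using hxn, fun k => hx _ ((hAm _).2 ⟨k, rfl⟩)⟩
    ext x
    constructor
    · intro hx
      by_contra hxP
      have h1 : 3 * R < ‖x‖ := by
        by_contra h2
        exact hxP (hsub x hx (not_lt.1 h2))
      obtain ⟨t, ht, ht1, htn⟩ := mp_scale (by positivity : 0 < 3 * R) h1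
      have h2 : t • x ∈ P := hsub _ (fun c hc => mp_star ht ht1 (hx c hc)) htn.le
      have h3 := hPR h2
      rw [mem_closedBall_zero_iff, htn] at h3
      linarith
    · intro hx c hc
      obtain ⟨k, rfl⟩ := (hAm c).1 hc
      exact hx.2 k
  refine ⟨A, by rw [hPA]; exact hball1, by rw [hPA]; exact hPR, by rw [hPA]; exact hsd.trans hκη,
    by rw [hPA]; exact hDP, ?_⟩
  -- step 4
  intro c hc
  refine ⟨min (1 / (15 * R)) (2 / r), lt_min (by positivity) (by positivity), ?_⟩
  intro c' hc'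
  have hcn : ‖c‖ ≤ 2 / r := by
    have h1 : closedBall (0 : E3) (r / 2) ⊆ poly A := by rw [hPA]; exact hball1
    have h2 := norm_le_of_ball_subset (half_pos hr) h1 hc
    have h3 : (1 : ℝ) / (r / 2) = 2 / r := by field_simp
    rwa [h3] at h2
  have hd1 : ‖c' - c‖ < 1 / (15 * R) := hc'.trans_le (min_le_left _ _)
  have hd2 : ‖c' - c‖ < 2 / r := hc'.trans_le (min_le_right _ _)
  have hc'n : ‖c'‖ ≤ 4 / r := by
    have h1 : ‖c'‖ ≤ ‖c‖ + ‖c' - c‖ := by
      have := norm_add_le c (c' - c)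
      rwa [add_sub_cancel] at this
    have h2 : (4 : ℝ) / r = 2 / r + 2 / r := by ring
    rw [h2]
    linarith
  let a'' : Fin n → E3 := fun k => if a k = c then c' else a k
  have ha''X : a'' ∈ X := by
    intro k
    by_cases h : a k = c
    · simp only [a'', h, if_true]; exact hc'n
    · simp only [a'', h, if_false]; exact haX k
  have hsub : polyR A c c' ⊆ closedBall (0 : E3) (3 * R) := by
    intro x hx
    rw [mem_closedBall_zero_iff]
    by_contra hxn
    obtain ⟨t, ht, ht1, htn⟩ := mp_scale (by positivity : 0 < 3 * R) (not_le.1 hxn)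
    set y := t • x with hy
    have hy1 : ∀ d ∈ A, d ≠ c → inner ℝ d y ≤ 1 := fun d hd hdc => mp_star ht ht1 (hx.1 d hd hdc)
    have hy2 : inner ℝ c' y ≤ 1 := mp_star ht ht1 hx.2
    have hz : (5 / 6 : ℝ) • y ∉ poly A := by
      intro hz
      rw [hPA] at hz
      have h1 := hPR hz
      rw [mem_closedBall_zero_iff, norm_smul, Real.norm_of_nonneg (by norm_num), htn] at h1
      linarith
    have hz2 : 1 < inner ℝ c ((5 / 6 : ℝ) • y) := by
      by_contra hle
      refine hz fun d hd => ?_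
      by_cases hdc : d = c
      · rw [hdc]; exact not_lt.1 hle
      · exact mp_star (by norm_num) (by norm_num) (hy1 d hd hdc)
    rw [inner_smul_right] at hz2
    have h1 : inner ℝ (c - c') y ≤ ‖c - c'‖ * ‖y‖ := real_inner_le_norm _ _
    rw [inner_sub_left, htn, norm_sub_rev] at h1
    have h2 : ‖c' - c‖ * (3 * R) < 1 / (15 * R) * (3 * R) :=
      mul_lt_mul_of_pos_right hd1 (by positivity)
    have h3 : 1 / (15 * R) * (3 * R) = 1 / 5 := by field_simp; norm_num
    rw [h3] at h2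
    linarith
  have hP'' : mpP (3 * R) a'' = polyR A c c' := by
    ext x
    constructor
    · rintro ⟨_, hx⟩
      refine ⟨fun d hd hdc => ?_, ?_⟩
      · obtain ⟨k, hk⟩ := (hAm d).1 hd
        have h1 := hx k
        have h2 : a'' k = d := by
          have : ¬ a k = c := by rw [hk]; exact hdc
          simp only [a'', this, if_false]
          exact hk
        rwa [h2] at h1
      · obtain ⟨k, hk⟩ := (hAm c).1 hc
        have h1 := hx k
        have h2 : a'' k = c' := by simp only [a'', hk, if_true]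
        rwa [h2] at h1
    · intro hx
      refine ⟨hsub hx, fun k => ?_⟩
      by_cases h : a k = c
      · simp only [a'', h, if_true]; exact hx.2
      · simp only [a'', h, if_false]; exact hx.1 _ ((hAm _).2 ⟨k, rfl⟩) h
  have hfin := hmin a'' ha''X
  rw [hP''] at hfin
  have hP''b : IsBody (polyR A c c') := by rw [← hP'']; exact hXb a'' ha''X
  have hfin' : Dmax P - m * volume.real P + η * volume.real (symmDiff P K₀) ≤
      Dmax (polyR A c c') - m * volume.real (polyR A c c') +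
        η * volume.real (symmDiff (polyR A c c') K₀) := hfin
  have htri := measureReal_symmDiff_le (μ := volume) (s := polyR A c c') (t := P) K₀
    (mp_fin hP''b) (mp_fin hPb)
  rw [symmDiff_comm (polyR A c c') P] at htri
  have htri' := mul_le_mul_of_nonneg_left htri hη.le
  rw [hPA]
  linarith

end Pool.Agent.Lib.MP_43065d_gt
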