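import Pool.Agent.Lib.MP_43065d_gt.Cone
import Pool.Agent.Lib.MP_43065d_gt.Flat
import Pool.Agent.Lib.MP_43065d_gt.GaugeGrad

/-!
# Module NullND: almost every boundary point is a point of differentiability of the gauge

STATEMENT.  The set of boundary points at which `g = gauge N` is not differentiable has area zero.

PROOF.  Choose `0 < r ≤ R` with `closedBall 0 r ⊆ N ⊆ closedBall 0 R` and put
`δ = r^2 / (100 R^2)`.  The unit sphere of `E3` is compact, so there are finitely many unit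
vectors `e_k` such that every unit vector is at distance `≤ δ` from one of them.
Every `x ∈ frontier N` has a unit normal (`exists_normal`), so `x ∈ band N e_k δ` for some `k`.
It suffices to show `μHE[2] Z = 0` for `Z = {x ∈ frontier N | not differentiable at x} ∩ band N e_k δ`.
If `Z` is empty this is clear.  Otherwise fix `x₀ ∈ Z`, `h = ⟪e_k, x₀⟫ > 0` (`band_facts`).
Let `W = {y | ⟪e_k, y⟫ = h ∧ ¬ DifferentiableAt ℝ (gauge N) y}`, a measurable set (`gg_meas`).
By `gg_smul` (differentiability is invariant under positive scaling)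
`rho e_k h '' Z ⊆ W` (for `x ∈ Z`, `rho x = l • x` with `l > 0`, and `⟪e_k, rho x⟫ = h`),
and `cone W ⊆ {y | ¬ DifferentiableAt ℝ (gauge N) y}` which has volume zero by `gg_ae`.
So `0 = volume (cone W) = ofReal (h/3) * μHE[2] W` (`volume_cone_plane`), `μHE[2] W = 0`, so
`μHE[2] (rho '' Z) = 0`, and `μHE[2] Z = 0` by the first part of `rho_area`.
(`100 R^2 δ ≤ r^2` holds with equality.)
-/

open MeasureTheory Set Filter Topology Metric
open scoped ENNReal NNReal Pointwise

namespace Pool.Agent.Lib.MP_43065d_gt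

/-- finite nets of the unit sphere -/
theorem exists_sphere_net {δ : ℝ} (hδ : 0 < δ) :
    ∃ s : Finset E3, (∀ e ∈ s, ‖e‖ = 1) ∧ ∀ u : E3, ‖u‖ = 1 → ∃ e ∈ s, ‖u - e‖ ≤ δ := by
  have hK : IsCompact (sphere (0 : E3) 1) := isCompact_sphere 0 1
  obtain ⟨t, ht, hcov⟩ := hK.elim_nhds_subcover (fun x => ball x δ)
    (fun x _ => ball_mem_nhds x hδ)
  refine ⟨t, fun e he => by simpa using ht e he, fun u hu => ?_⟩
  have hu' : u ∈ sphere (0 : E3) 1 := by simpa using hu
  have := hcov hu'
  simp only [mem_iUnion, exists_prop] at this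
  obtain ⟨e, he, hue⟩ := this
  refine ⟨e, he, ?_⟩
  rw [mem_ball, dist_eq_norm] at hue
  exact hue.le

theorem nondiff_null {N : Set E3} (hN : IsBody N) (h0 : (0 : E3) ∈ interior N) :
    μHE[2] {x | x ∈ frontier N ∧ ¬ DifferentiableAt ℝ (gauge N) x} = 0 := by
  classical
  obtain ⟨r, hr, hrN⟩ : ∃ r > 0, closedBall (0 : E3) r ⊆ N := by
    obtain ⟨r, hr, hb⟩ := Metric.mem_nhds_iff.1 (mem_interior_iff_mem_nhds.1 h0)
    exact ⟨r / 2, by positivity, (closedBall_subset_ball (by linarith)).trans hb⟩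
  obtain ⟨R, hR, hNR⟩ : ∃ R > 0, N ⊆ closedBall (0 : E3) R := by
    obtain ⟨R, hR⟩ := hN.isCompact.isBounded.subset_closedBall (0 : E3)
    exact ⟨max R 1, by positivity, hR.trans (closedBall_subset_closedBall (le_max_left _ _))⟩
  set δ : ℝ := r ^ 2 / (100 * R ^ 2) with hδdef
  have hδ : 0 < δ := by positivity
  have hδr : 100 * R ^ 2 * δ ≤ r ^ 2 := by
    rw [hδdef]
    have : 100 * R ^ 2 * (r ^ 2 / (100 * R ^ 2)) = r ^ 2 := by field_simp
    exact this.le
  obtain ⟨s, hs1, hs2⟩ := exists_sphere_net hδ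
  have hcov : {x | x ∈ frontier N ∧ ¬ DifferentiableAt ℝ (gauge N) x} ⊆
      ⋃ e ∈ s, ({x | x ∈ frontier N ∧ ¬ DifferentiableAt ℝ (gauge N) x} ∩ band N e δ) := by
    rintro x ⟨hx, hnd⟩
    obtain ⟨u, hu, hun⟩ := exists_normal hN hx
    obtain ⟨e, he, hue⟩ := hs2 u hu
    simp only [mem_iUnion, exists_prop]
    exact ⟨e, he, ⟨hx, hnd⟩, hN.isCompact.isClosed.frontier_subset hx, u, hu, hue, hun⟩
  refine measure_mono_null hcov ?_
  refine (measure_biUnion_null_iff (s.countable_toSet)).2 ?_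
  intro e he
  have he1 := hs1 e he
  set Z : Set E3 := {x | x ∈ frontier N ∧ ¬ DifferentiableAt ℝ (gauge N) x} ∩ band N e δ with hZ
  rcases Z.eq_empty_or_nonempty with hZ0 | ⟨x₀, hx₀⟩
  · rw [hZ0]; exact measure_empty
  have hxb : x₀ ∈ band N e δ := hx₀.2
  obtain ⟨hf1, hf2⟩ := band_facts hr hrN hNR he1 hδ.le hδr hxb
  set h : ℝ := inner ℝ e x₀ with hh
  have hhpos : 0 < h := by
    have := (hf1 x₀ hxb).1
    have h3 : 0 < 99 / 100 * r := by positivity
    exact lt_of_lt_of_le h3 this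
  set W : Set E3 := {y | inner ℝ e y = h ∧ ¬ DifferentiableAt ℝ (gauge N) y} with hW
  have hWm : MeasurableSet W := by
    have h1 : MeasurableSet {y : E3 | inner ℝ e y = h} :=
      (isClosed_eq (continuous_const.inner continuous_id) continuous_const).measurableSet
    exact h1.inter gg_meas.1.compl
  have hsub : rho e h '' Z ⊆ W := by
    rintro _ ⟨x, hx, rfl⟩
    have hix := (hf1 x hx.2).1
    have hip : 0 < inner ℝ e x := lt_of_lt_of_le (by positivity) hix
    refine ⟨?_, ?_⟩
    · simp only [rho, inner_smul_right]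
      field_simp
    · intro hd
      exact hx.1.2 ((gg_smul (N := N) (x := x) (div_pos hhpos hip)).1.1 hd)
  have hcone : cone W ⊆ {y | ¬ DifferentiableAt ℝ (gauge N) y} := by
    rintro _ ⟨t, ht, x, hx, rfl⟩
    intro hd
    exact hx.2 ((gg_smul (N := N) (x := x) ht.1).1.1 hd)
  have hvol : volume (cone W) = 0 := measure_mono_null hcone (gg_ae hN h0)
  have hW0 : μHE[2] W = 0 := by
    have h1 := volume_cone_plane he1 hhpos hWm (fun x hx => hx.1)
    rw [hvol] at h1
    rcases mul_eq_zero.1 h1.symm with h2 | h2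
    · rw [ENNReal.ofReal_eq_zero] at h2
      linarith
    · exact h2
  have hR0 : μHE[2] (rho e h '' Z) = 0 := measure_mono_null hsub hW0
  have h3 := (rho_area hr hrN hNR he1 hδ.le hδr hxb (B := Z) (fun x hx => hx.2)).1
  rw [← hh, hR0, mul_zero] at h3
  exact le_antisymm h3 bot_le

end Pool.Agent.Lib.MP_43065d_gt
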