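import Pool.Agent.Lib.MP_43065d_gt.Defs

/-!
# Module SimplexData: a centred tetrahedron in dual coordinates

`SData b p` : `b, p : Fin 4 → E3`, `∑ b = 0`, `⟪b i, p j⟫ = 1` for `i ≠ j` and `-3` for `i = j`, every `x` is
`-1/4 ∑ ⟪b i, x⟫ p i`.  `TT b = {x | ∀ i, ⟪b i, x⟫ ≤ 1}` is the tetrahedron with vertices `p i` and
centroid `0`; `DD b = {x | ∀ i, |⟪b i, x⟫| ≤ 1} = TT b ∩ -TT b`.

PROOF of `exists_sdata`.  The four points form an affine basis of `E3`
(`AffineIndependent.affineSpan_eq_top_iff_card_eq_finrank_add_one`, `finrank = 3`).  Let `l i` be the barycentric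
coordinates (`AffineBasis.coord`), `l i (p j) = δ_ij`, `∑ l i = 1`.  As `0 = (1/4) ∑ p i`, `l i 0 = 1/4`.
The affine function `1 - 4 l i` vanishes at `0`, hence is linear, `= ⟪b i, ·⟫` for a unique `b i` (Riesz,
`InnerProductSpace.toDual`).  Then `⟪b i, p j⟫ = 1 - 4 δ_ij`, `∑ ⟪b i, x⟫ = 4 - 4 = 0` for all `x`.
`x = ∑ l i (x) p i = ∑ (1 - ⟪b i, x⟫)/4 p i = -1/4 ∑ ⟪b i, x⟫ p i` because `∑ p i = 0`.
`convexHull (range p) = {x | ∀ i, 0 ≤ l i x}` (`AffineBasis.convexHull_eq_nonneg_coord`).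

PROOF of `sdata_body`.  `TT b` is closed, convex, contains a ball around `0`; bounded: `⟪b i, x⟫ ≤ 1` for all
`i` and `∑ ⟪b i, x⟫ = 0` give `⟪b i, x⟫ ≥ -3`, so `‖x‖ ≤ (1/4) ∑ |⟪b i, x⟫| ‖p i‖ ≤ ∑ ‖p i‖`.
`sdata_ne`: `⟪b i, p i⟫ = -3 ≠ 1 = ⟪b j, p i⟫`; for a third index `k`, `⟪b i, p k⟫ = 1 = ⟪b j, p k⟫`, so
`b i ≠ - b j`.
-/

open MeasureTheory Set Filter Topology Metric
open scoped ENNReal NNReal Pointwise

namespace Pool.Agent.Lib.MP_43065d_gt

structure SData (b p : Fin 4 → E3) : Prop where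
  sum_b : ∑ i, b i = 0
  sum_p : ∑ i, p i = 0
  inner_eq : ∀ i j, inner ℝ (b i) (p j) = if i = j then (-3 : ℝ) else 1
  repr : ∀ x : E3, x = (-(1 / 4) : ℝ) • ∑ i, (inner ℝ (b i) x : ℝ) • p i

def TT (b : Fin 4 → E3) : Set E3 := {x | ∀ i, inner ℝ (b i) x ≤ 1}

def DD (b : Fin 4 → E3) : Set E3 := {x | ∀ i, |inner ℝ (b i) x| ≤ 1}

theorem exists_sdata {p : Fin 4 → E3} (hp : AffineIndependent ℝ p) (hs : ∑ i, p i = 0) :
    ∃ b, SData b p ∧ convexHull ℝ (range p) = TT b := by
  have htop : affineSpan ℝ (range p) = ⊤ :=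
    hp.affineSpan_eq_top_iff_card_eq_finrank_add_one.2 (by simp)
  let B : AffineBasis (Fin 4) ℝ E3 := ⟨p, hp, htop⟩
  have hB : ∀ i, B i = p i := fun i => rfl
  have hdec : ∀ i x, B.coord i x = (B.coord i).linear x + B.coord i 0 := fun i x =>
    congrFun (AffineMap.decomp (B.coord i)) x
  have h0 : ∀ i, B.coord i 0 = 1 / 4 := by
    intro i
    have h1 : ∑ j, B.coord i (p j) = 1 := by
      have h2 : ∀ j, B.coord i (p j) = if i = j then (1 : ℝ) else 0 := by
        intro j
        rw [← hB j, AffineBasis.coord_apply]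
      simp [h2]
    have h3 : ∑ j, B.coord i (p j) = (B.coord i).linear (∑ j, p j) + 4 * B.coord i 0 := by
      rw [map_sum]
      simp_rw [fun j => hdec i (p j)]
      rw [Finset.sum_add_distrib]
      simp
    rw [hs, map_zero, zero_add] at h3
    linarith
  let b : Fin 4 → E3 := fun i => (-4 : ℝ) • (InnerProductSpace.toDual ℝ E3).symm
    (LinearMap.toContinuousLinearMap (B.coord i).linear)
  have hb : ∀ i x, inner ℝ (b i) x = 1 - 4 * B.coord i x := by
    intro i x
    have h1 : inner ℝ ((InnerProductSpace.toDual ℝ E3).symm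
        (LinearMap.toContinuousLinearMap (B.coord i).linear)) x = (B.coord i).linear x := by
      rw [InnerProductSpace.toDual_symm_apply]
      rfl
    show inner ℝ ((-4 : ℝ) • _) x = _
    rw [inner_smul_left, h1]
    have h2 := hdec i x
    rw [h0 i] at h2
    simp only [conj_trivial]
    linarith
  refine ⟨b, ⟨?_, hs, ?_, ?_⟩, ?_⟩
  · refine ext_inner_right ℝ (fun x => ?_)
    rw [sum_inner, inner_zero_left]
    simp_rw [hb]
    rw [Finset.sum_sub_distrib, ← Finset.mul_sum, B.sum_coord_apply_eq_one]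
    simp
  · intro i j
    rw [hb, ← hB j, AffineBasis.coord_apply]
    split_ifs <;> norm_num
  · intro x
    have h1 : ∑ i, B.coord i x • B i = x := B.linear_combination_coord_eq_self x
    simp_rw [hb, sub_smul, one_smul, mul_smul]
    rw [Finset.sum_sub_distrib, hs, zero_sub, ← Finset.smul_sum]
    have h2 : ∑ i, B.coord i x • p i = x := h1
    rw [h2, smul_neg, smul_smul]
    norm_num
  · have h1 := B.convexHull_eq_nonneg_coord
    have h2 : range B = range p := rfl
    rw [h2] at h1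
    rw [h1]
    ext x
    simp only [mem_ofPred_eq, TT]
    refine forall_congr' (fun i => ?_)
    rw [hb]
    constructor <;> intro h <;> linarith

variable {b p : Fin 4 → E3}

private lemma sd_norm (h : SData b p) {x : E3} (hx : x ∈ TT b) : ‖x‖ ≤ ∑ i, ‖p i‖ := by
  have hsum : ∑ i, inner ℝ (b i) x = (0 : ℝ) := by
    rw [← sum_inner, h.sum_b, inner_zero_left]
  have hlow : ∀ i, |inner ℝ (b i) x| ≤ (3 : ℝ) := by
    intro i
    rw [Fin.sum_univ_four] at hsum
    have h0 := hx 0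
    have h1 := hx 1
    have h2 := hx 2
    have h3 := hx 3
    rw [abs_le]
    fin_cases i
    · constructor <;> simp only [Fin.zero_eta, Fin.isValue] <;> linarith
    · constructor <;> simp only [Fin.mk_one, Fin.isValue] <;> linarith
    · constructor <;> simp only [Fin.reduceFinMk, Fin.isValue] <;> linarith
    · constructor <;> simp only [Fin.reduceFinMk, Fin.isValue] <;> linarith
  have h1 : ‖x‖ = ‖(-(1 / 4) : ℝ) • ∑ i, (inner ℝ (b i) x : ℝ) • p i‖ := by
    rw [← h.repr x]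
  rw [h1, norm_smul]
  calc ‖(-(1 / 4) : ℝ)‖ * ‖∑ i, (inner ℝ (b i) x : ℝ) • p i‖
      ≤ ‖(-(1 / 4) : ℝ)‖ * ∑ i, ‖(inner ℝ (b i) x : ℝ) • p i‖ := by
        gcongr
        exact norm_sum_le _ _
    _ ≤ (1 / 4) * ∑ i, 3 * ‖p i‖ := by
        rw [norm_neg, Real.norm_of_nonneg (by norm_num : (0 : ℝ) ≤ 1 / 4)]
        gcongr with i
        rw [norm_smul, Real.norm_eq_abs]
        gcongr
        exact hlow i
    _ ≤ ∑ i, ‖p i‖ := by
        rw [← Finset.mul_sum]
        have : 0 ≤ ∑ i, ‖p i‖ := Finset.sum_nonneg (fun i _ => norm_nonneg _)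
        linarith

private lemma sd_closedT (b : Fin 4 → E3) : IsClosed (TT b) := by
  have : TT b = ⋂ i, {x | inner ℝ (b i) x ≤ (1 : ℝ)} := by
    ext x
    simp [TT]
  rw [this]
  refine isClosed_iInter (fun i => isClosed_le ?_ continuous_const)
  exact continuous_const.inner continuous_id

private lemma sd_closedD (b : Fin 4 → E3) : IsClosed (DD b) := by
  have : DD b = ⋂ i, {x | |inner ℝ (b i) x| ≤ (1 : ℝ)} := by
    ext x
    simp [DD]
  rw [this]
  refine isClosed_iInter (fun i => isClosed_le ?_ continuous_const)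
  exact (continuous_const.inner continuous_id).abs

private lemma sd_sub (b : Fin 4 → E3) : DD b ⊆ TT b := fun _ hx i => (abs_le.1 (hx i)).2

private lemma sd_int (b : Fin 4 → E3) : (0 : E3) ∈ interior (DD b) := by
  refine mem_interior.2 ⟨⋂ i, {x | |inner ℝ (b i) x| < (1 : ℝ)}, ?_, ?_, ?_⟩
  · intro x hx i
    exact (mem_iInter.1 hx i).le
  · refine isOpen_iInter_of_finite (fun i => isOpen_lt ?_ continuous_const)
    exact (continuous_const.inner continuous_id).abs
  · refine mem_iInter.2 (fun i => ?_)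
    simp

private lemma sd_convT (b : Fin 4 → E3) : Convex ℝ (TT b) := by
  intro x hx y hy s t hs ht hst i
  rw [inner_add_right, inner_smul_right, inner_smul_right]
  have h1 := mul_le_mul_of_nonneg_left (hx i) hs
  have h2 := mul_le_mul_of_nonneg_left (hy i) ht
  linarith

private lemma sd_convD (b : Fin 4 → E3) : Convex ℝ (DD b) := by
  intro x hx y hy s t hs ht hst i
  rw [inner_add_right, inner_smul_right, inner_smul_right]
  have h1 := mul_le_mul_of_nonneg_left (abs_le.1 (hx i)).2 hs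
  have h2 := mul_le_mul_of_nonneg_left (abs_le.1 (hy i)).2 ht
  have h3 := mul_le_mul_of_nonneg_left (abs_le.1 (hx i)).1 hs
  have h4 := mul_le_mul_of_nonneg_left (abs_le.1 (hy i)).1 ht
  rw [abs_le]
  constructor <;> linarith

theorem sdata_body (h : SData b p) : IsBody (TT b) ∧ IsBody (DD b) ∧
    (0 : E3) ∈ interior (TT b) ∧ (0 : E3) ∈ interior (DD b) ∧ (∀ x ∈ DD b, -x ∈ DD b) ∧
    DD b = TT b ∩ -TT b := by
  have hbT : Bornology.IsBounded (TT b) :=
    (isBounded_iff_forall_norm_le).2 ⟨_, fun x hx => sd_norm h hx⟩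
  have hcT : IsCompact (TT b) := Metric.isCompact_of_isClosed_isBounded (sd_closedT b) hbT
  have hcD : IsCompact (DD b) :=
    Metric.isCompact_of_isClosed_isBounded (sd_closedD b) (hbT.subset (sd_sub b))
  have hiD := sd_int b
  have hiT : (0 : E3) ∈ interior (TT b) := interior_mono (sd_sub b) hiD
  refine ⟨⟨sd_convT b, hcT, ⟨0, hiT⟩⟩, ⟨sd_convD b, hcD, ⟨0, hiD⟩⟩, hiT, hiD, ?_, ?_⟩
  · intro x hx i
    rw [inner_neg_right, abs_neg]
    exact hx i
  · ext x
    simp only [DD, TT, mem_inter_iff, mem_ofPred_eq, Set.mem_neg, inner_neg_right]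
    constructor
    · intro hx
      exact ⟨fun i => (abs_le.1 (hx i)).2, fun i => by linarith [(abs_le.1 (hx i)).1]⟩
    · rintro ⟨h1, h2⟩ i
      exact abs_le.2 ⟨by linarith [h2 i], h1 i⟩

theorem sdata_ne (h : SData b p) {i j : Fin 4} (hij : i ≠ j) : b i ≠ b j ∧ b i ≠ - b j := by
  constructor
  · intro he
    have h1 := h.inner_eq i i
    have h2 := h.inner_eq j i
    rw [if_pos rfl] at h1
    rw [if_neg (Ne.symm hij), ← he, h1] at h2
    norm_num at h2
  · intro he
    have hk : ∀ i j : Fin 4, ∃ k : Fin 4, k ≠ i ∧ k ≠ j := by decide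
    obtain ⟨k, hki, hkj⟩ := hk i j
    have h1 := h.inner_eq i k
    have h2 := h.inner_eq j k
    rw [if_neg (Ne.symm hki), he, inner_neg_left] at h1
    rw [if_neg (Ne.symm hkj)] at h2
    linarith

theorem sdata_ne_zero (h : SData b p) (i : Fin 4) : b i ≠ 0 := by
  intro h0
  have h1 := h.inner_eq i i
  rw [if_pos rfl, h0, inner_zero_left] at h1
  norm_num at h1

end Pool.Agent.Lib.MP_43065d_gt
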