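import Pool.Agent.Lib.MP_43065d_gt.SimplexData

/-!
# Module SimplexVol: volumes in the tetrahedron

PROOF.  For a permutation `σ` of `Fin 4` let `L_σ x = -1/4 ∑ ⟪b i, x⟫ p (σ i)`, a linear map with
`⟪b k, L_σ x⟫ = -1/4 (∑ ⟪b i, x⟫ - 4 ⟪b (σ⁻¹ k), x⟫) = ⟪b (σ⁻¹ k), x⟫`.  So `L_σ ∘ L_{σ⁻¹} = id` (by `repr`),
`L_σ` maps `TT b` onto `TT b`, and since `0 < vol (TT b) < ∞` its determinant has absolute value `1`
(`Measure.addHaar_image_linearMap`); it maps the sector of `i` to the sector of `σ i`.
`sector_T`: the sectors `{x ∈ TT b | ∀ j, ⟪b j, x⟫ ≤ ⟪b i, x⟫}` cover `TT b`, have equal volumes, and two of them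
intersect in the null set `⟪b i - b j, x⟫ = 0` (`sdata_ne`, hyperplanes are null:
`Measure.addHaar_affineSubspace` / `addHaar_submodule`).
`sector_D`: the eight sets `± {x ∈ DD b | ∀ j, |⟪b j, x⟫| ≤ ⟪b i, x⟫}` cover `DD b`, have equal volumes
(`L_σ` and `x ↦ -x`), and two of them intersect in null sets
(`⟪b i ∓ b j, x⟫ = 0`, or `⟪b i, x⟫ = 0` for `i = j` and opposite signs).
`vol_D`: `TT b \ DD b` is the union over `i` of `{x ∈ TT b | ⟪b i, x⟫ < -1}`; these four sets are disjoint
(if `⟪b i, x⟫ < -1` and `⟪b j, x⟫ < -1` then the other two sum to more than `2`), and up to the null set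
`⟪b i, x⟫ = -1` they are `{x ∈ TT b | ⟪b i, x⟫ ≤ -1} = (1/2) • (p i + TT b)`
(`x` belongs to the left side iff `2 x - p i ∈ TT b`: `⟪b j, 2x - p i⟫ = 2 ⟪b j, x⟫ - 1 ≤ 1` for `j ≠ i` and
`2 ⟪b i, x⟫ + 3 ≤ 1` for `j = i`), of volume `vol (TT b) / 8`.
-/

open MeasureTheory Set Filter Topology Metric
open scoped ENNReal NNReal Pointwise

namespace Pool.Agent.Lib.MP_43065d_gt

variable {b p : Fin 4 → E3}

private noncomputable def sv_L (b p : Fin 4 → E3) (σ : Equiv.Perm (Fin 4)) : E3 →ₗ[ℝ] E3 :=
  (-(1 / 4) : ℝ) • ∑ i, ((innerSL ℝ (b i) : E3 →L[ℝ] ℝ) : E3 →ₗ[ℝ] ℝ).smulRight (p (σ i))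

private lemma sv_L_apply (b p : Fin 4 → E3) (σ : Equiv.Perm (Fin 4)) (x : E3) :
    sv_L b p σ x = (-(1 / 4) : ℝ) • ∑ i, (inner ℝ (b i) x : ℝ) • p (σ i) := by
  simp [sv_L, LinearMap.sum_apply]

private lemma sv_sum (h : SData b p) (x : E3) : ∑ i, inner ℝ (b i) x = (0 : ℝ) := by
  rw [← sum_inner, h.sum_b, inner_zero_left]

private lemma sv_inner (h : SData b p) (σ : Equiv.Perm (Fin 4)) (x : E3) (k : Fin 4) :
    inner ℝ (b k) (sv_L b p σ x) = (inner ℝ (b (σ.symm k)) x : ℝ) := by
  rw [sv_L_apply, inner_smul_right, inner_sum]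
  simp_rw [inner_smul_right, h.inner_eq]
  have h1 : ∀ i, (inner ℝ (b i) x : ℝ) * (if k = σ i then (-3 : ℝ) else 1) =
      inner ℝ (b i) x - 4 * (if σ.symm k = i then inner ℝ (b i) x else 0) := by
    intro i
    by_cases hk : k = σ i
    · have : σ.symm k = i := by rw [hk, Equiv.symm_apply_apply]
      rw [if_pos hk, if_pos this]
      ring
    · have : σ.symm k ≠ i := fun h' => hk (by rw [← h', Equiv.apply_symm_apply])
      rw [if_neg hk, if_neg this]
      ring
  rw [Finset.sum_congr rfl (fun i _ => h1 i), Finset.sum_sub_distrib, sv_sum h,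
    ← Finset.mul_sum, Finset.sum_ite_eq]
  simp only [Finset.mem_univ, if_true]
  ring

private lemma sv_ext (h : SData b p) {x y : E3} (hxy : ∀ k, inner ℝ (b k) x = (inner ℝ (b k) y : ℝ)) :
    x = y := by
  rw [h.repr x, h.repr y]
  simp_rw [hxy]

private lemma sv_inner_swap (h : SData b p) (i j : Fin 4) (x : E3) (k : Fin 4) :
    inner ℝ (b k) (sv_L b p (Equiv.swap i j) x) = (inner ℝ (b (Equiv.swap i j k)) x : ℝ) := by
  rw [sv_inner h, Equiv.symm_swap]

private lemma sv_invol (h : SData b p) (i j : Fin 4) :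
    (sv_L b p (Equiv.swap i j)) ∘ₗ (sv_L b p (Equiv.swap i j)) = LinearMap.id := by
  ext1 x
  refine sv_ext h (fun k => ?_)
  rw [LinearMap.comp_apply, sv_inner_swap h, sv_inner_swap h, Equiv.swap_apply_self]
  rfl

private lemma sv_det (h : SData b p) (i j : Fin 4) :
    |(LinearMap.det (sv_L b p (Equiv.swap i j)))⁻¹| = 1 ∧
      LinearMap.det (sv_L b p (Equiv.swap i j)) ≠ 0 := by
  have h1 := congrArg LinearMap.det (sv_invol h i j)
  rw [LinearMap.det_comp, LinearMap.det_id] at h1
  rcases mul_self_eq_one_iff.1 h1 with h2 | h2 <;> rw [h2] <;> norm_num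

private lemma sv_pre (h : SData b p) (i j : Fin 4) (s : Set E3) :
    volume.real ((sv_L b p (Equiv.swap i j)) ⁻¹' s) = volume.real s := by
  obtain ⟨h1, h2⟩ := sv_det h i j
  rw [Measure.real, Measure.real, Measure.addHaar_preimage_linearMap _ h2, h1]
  simp

private lemma sv_null {a : E3} (ha : a ≠ 0) (c : ℝ) : volume {x : E3 | inner ℝ a x = c} = 0 := by
  have h0 : volume {x : E3 | inner ℝ a x = (0 : ℝ)} = 0 := by
    have h1 : ({x : E3 | inner ℝ a x = (0 : ℝ)} : Set E3) =
        (LinearMap.ker ((innerSL ℝ a : E3 →L[ℝ] ℝ) : E3 →ₗ[ℝ] ℝ) : Submodule ℝ E3) := by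
      ext x
      simp
    rw [h1]
    refine Measure.addHaar_submodule _ _ (fun htop => ?_)
    have h2 : a ∈ (LinearMap.ker ((innerSL ℝ a : E3 →L[ℝ] ℝ) : E3 →ₗ[ℝ] ℝ) : Submodule ℝ E3) := by
      rw [htop]
      trivial
    have h3 : inner ℝ a a = (0 : ℝ) := by simpa using h2
    exact ha (inner_self_eq_zero.1 h3)
  have ha2 : inner ℝ a a ≠ (0 : ℝ) := fun h => ha (inner_self_eq_zero.1 h)
  have h4 : {x : E3 | inner ℝ a x = c} =
      (fun x => x - (c / inner ℝ a a : ℝ) • a) ⁻¹' {x : E3 | inner ℝ a x = (0 : ℝ)} := by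
    ext x
    simp only [mem_preimage, mem_ofPred_eq, inner_sub_right, inner_smul_right]
    rw [div_mul_cancel₀ _ ha2, sub_eq_zero]
  rw [h4]
  simp only [sub_eq_add_neg]
  rw [measure_preimage_add_right, h0]

private lemma sv_meas_le (f g : E3 → ℝ) (hf : Continuous f) (hg : Continuous g) :
    MeasurableSet {x : E3 | f x ≤ g x} := (isClosed_le hf hg).measurableSet

private lemma sv_cont (a : E3) : Continuous (fun x : E3 => (inner ℝ a x : ℝ)) :=
  continuous_const.inner continuous_id

private lemma sv_sum_real {ι : Type} [Fintype ι] (f : ι → Set E3) (K : Set E3) (hK : volume K < ⊤)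
    (hU : ⋃ i, f i = K) (hm : ∀ i, MeasurableSet (f i))
    (hd : ∀ i j, i ≠ j → volume (f i ∩ f j) = 0) :
    ∑ i, volume.real (f i) = volume.real K := by
  classical
  have h1 : volume K = ∑ i, volume (f i) := by
    rw [← hU]
    have h2 := measure_biUnion_finset₀ (μ := volume) (s := (Finset.univ : Finset ι)) (f := f)
      (fun i _ j _ hij => hd i j hij) (fun i _ => (hm i).nullMeasurableSet)
    simpa using h2
  have h3 : ∀ i, volume (f i) ≠ ⊤ := fun i =>
    ((measure_mono (hU ▸ subset_iUnion f i)).trans_lt hK).ne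
  simp only [Measure.real]
  rw [h1, ENNReal.toReal_sum (fun i _ => h3 i)]

private lemma sv_meas_T (b : Fin 4 → E3) : MeasurableSet (TT b) := by
  have : TT b = ⋂ i, {x : E3 | (inner ℝ (b i) x : ℝ) ≤ 1} := by
    ext x
    simp [TT]
  rw [this]
  exact MeasurableSet.iInter (fun i => sv_meas_le _ _ (sv_cont _) continuous_const)

private lemma sv_meas_D (b : Fin 4 → E3) : MeasurableSet (DD b) := by
  have : DD b = ⋂ i, {x : E3 | |(inner ℝ (b i) x : ℝ)| ≤ 1} := by
    ext x
    simp [DD]
  rw [this]
  exact MeasurableSet.iInter (fun i => sv_meas_le _ _ (sv_cont _).abs continuous_const)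

private def sv_SD (b : Fin 4 → E3) (q : Fin 4 × Bool) : Set E3 :=
  {x | x ∈ DD b ∧ ∀ j, |(inner ℝ (b j) x : ℝ)| ≤ (bif q.2 then 1 else -1) * inner ℝ (b q.1) x}

theorem sector_T (h : SData b p) (i : Fin 4) :
    volume.real {x | x ∈ TT b ∧ ∀ j, inner ℝ (b j) x ≤ inner ℝ (b i) x} =
      volume.real (TT b) / 4 := by
  have hK := (sdata_body h).1.isCompact.measure_lt_top (μ := volume)
  set f : Fin 4 → Set E3 := fun i => {x | x ∈ TT b ∧ ∀ j, inner ℝ (b j) x ≤ inner ℝ (b i) x} with hf
  have hall : ∀ i j, volume.real (f i) = volume.real (f j) := by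
    intro i j
    have h1 : f i = (sv_L b p (Equiv.swap i j)) ⁻¹' (f j) := by
      ext x
      simp only [hf, mem_ofPred_eq, mem_preimage, TT, sv_inner_swap h, Equiv.swap_apply_right]
      constructor
      · rintro ⟨h1, h2⟩
        exact ⟨fun k => h1 _, fun k => h2 _⟩
      · rintro ⟨h1, h2⟩
        refine ⟨fun k => ?_, fun k => ?_⟩
        · have := h1 (Equiv.swap i j k)
          rwa [Equiv.swap_apply_self] at this
        · have := h2 (Equiv.swap i j k)
          rwa [Equiv.swap_apply_self] at this
    rw [h1, sv_pre h]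
  have hsum := sv_sum_real f (TT b) hK ?_ ?_ ?_
  · rw [Finset.sum_congr rfl (fun j _ => hall j i)] at hsum
    simp only [Finset.sum_const, Finset.card_univ, Fintype.card_fin, nsmul_eq_mul] at hsum
    show volume.real (f i) = _
    push_cast at hsum
    linarith
  · ext x
    simp only [hf, mem_iUnion, mem_ofPred_eq]
    constructor
    · rintro ⟨i, hi, _⟩
      exact hi
    · intro hx
      obtain ⟨i, _, hi⟩ := Finset.exists_max_image (Finset.univ : Finset (Fin 4))
        (fun i => (inner ℝ (b i) x : ℝ)) ⟨0, Finset.mem_univ _⟩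
      exact ⟨i, hx, fun j => hi j (Finset.mem_univ _)⟩
  · intro i
    have h1 : f i = TT b ∩ ⋂ j, {x : E3 | (inner ℝ (b j) x : ℝ) ≤ inner ℝ (b i) x} := by
      ext x
      simp [hf]
    rw [h1]
    exact (sv_meas_T b).inter
      (MeasurableSet.iInter (fun j => sv_meas_le _ _ (sv_cont _) (sv_cont _)))
  · intro i j hij
    refine measure_mono_null ?_ (sv_null (sub_ne_zero.2 (sdata_ne h hij).1) 0)
    rintro x ⟨⟨_, h1⟩, ⟨_, h2⟩⟩
    rw [mem_ofPred_eq, inner_sub_left]
    linarith [h1 j, h2 i]

theorem sector_D (h : SData b p) (i : Fin 4) :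
    volume.real {x | x ∈ DD b ∧ ∀ j, |inner ℝ (b j) x| ≤ inner ℝ (b i) x} =
      volume.real (DD b) / 8 := by
  have hK := (sdata_body h).2.1.isCompact.measure_lt_top (μ := volume)
  have hneg := (sdata_body h).2.2.2.2.1
  have hswap : ∀ i j s, volume.real (sv_SD b (i, s)) = volume.real (sv_SD b (j, s)) := by
    intro i j s
    have h1 : sv_SD b (i, s) = (sv_L b p (Equiv.swap i j)) ⁻¹' (sv_SD b (j, s)) := by
      ext x
      simp only [sv_SD, mem_ofPred_eq, mem_preimage, DD, sv_inner_swap h, Equiv.swap_apply_right]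
      constructor
      · rintro ⟨h1, h2⟩
        exact ⟨fun k => h1 _, fun k => h2 _⟩
      · rintro ⟨h1, h2⟩
        refine ⟨fun k => ?_, fun k => ?_⟩
        · have := h1 (Equiv.swap i j k)
          rwa [Equiv.swap_apply_self] at this
        · have := h2 (Equiv.swap i j k)
          rwa [Equiv.swap_apply_self] at this
    rw [h1, sv_pre h]
  have hflip : ∀ j, volume.real (sv_SD b (j, false)) = volume.real (sv_SD b (j, true)) := by
    intro j
    have h1 : sv_SD b (j, false) = -(sv_SD b (j, true)) := by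
      ext x
      simp only [sv_SD, mem_ofPred_eq, Set.mem_neg, inner_neg_right, abs_neg, cond_true,
        cond_false]
      constructor
      · rintro ⟨h1, h2⟩
        exact ⟨hneg x h1, fun k => by simpa using h2 k⟩
      · rintro ⟨h1, h2⟩
        refine ⟨by simpa using hneg _ h1, fun k => by simpa using h2 k⟩
    rw [h1, Measure.real, Measure.measure_neg]
    rfl
  have hall : ∀ q, volume.real (sv_SD b q) = volume.real (sv_SD b (i, true)) := by
    rintro ⟨j, s⟩
    cases s
    · rw [hflip j, hswap j i]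
    · rw [hswap j i]
  have hsum := sv_sum_real (sv_SD b) (DD b) hK ?_ ?_ ?_
  · rw [Finset.sum_congr rfl (fun q _ => hall q)] at hsum
    simp only [Finset.sum_const, Finset.card_univ, Fintype.card_prod, Fintype.card_fin,
      Fintype.card_bool, nsmul_eq_mul] at hsum
    have h1 : {x | x ∈ DD b ∧ ∀ j, |(inner ℝ (b j) x : ℝ)| ≤ inner ℝ (b i) x} =
        sv_SD b (i, true) := by
      ext x
      simp [sv_SD]
    rw [h1]
    push_cast at hsum
    linarith
  · ext x
    simp only [mem_iUnion]
    constructor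
    · rintro ⟨q, hq, _⟩
      exact hq
    · intro hx
      obtain ⟨i, _, hi⟩ := Finset.exists_max_image (Finset.univ : Finset (Fin 4))
        (fun i => |(inner ℝ (b i) x : ℝ)|) ⟨0, Finset.mem_univ _⟩
      rcases abs_cases (inner ℝ (b i) x : ℝ) with ⟨h1, _⟩ | ⟨h1, _⟩
      · refine ⟨(i, true), hx, fun j => ?_⟩
        have := hi j (Finset.mem_univ _)
        rw [h1] at this
        simpa using this
      · refine ⟨(i, false), hx, fun j => ?_⟩
        have := hi j (Finset.mem_univ _)
        rw [h1] at this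
        simpa using this
  · intro q
    have h1 : sv_SD b q = DD b ∩ ⋂ j, {x : E3 | |(inner ℝ (b j) x : ℝ)| ≤
        (bif q.2 then 1 else -1) * inner ℝ (b q.1) x} := by
      ext x
      simp [sv_SD]
    rw [h1]
    exact (sv_meas_D b).inter
      (MeasurableSet.iInter (fun j => sv_meas_le _ _ (sv_cont _).abs
        (continuous_const.mul (sv_cont _))))
  · rintro ⟨i, s⟩ ⟨j, t⟩ hij
    have hne : (bif s then (1 : ℝ) else -1) • b i - (bif t then (1 : ℝ) else -1) • b j ≠ 0 := by
      intro h0
      rw [sub_eq_zero] at h0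
      by_cases hij' : i = j
      · subst hij'
        have hst : s ≠ t := fun h' => hij (by rw [h'])
        have hb := sdata_ne_zero h i
        cases s <;> cases t <;> simp at hst h0
        · exact hb (by
            have : (2 : ℝ) • b i = 0 := by rw [two_smul]; nth_rewrite 1 [← h0]; simp
            exact (smul_eq_zero.1 this).resolve_left (by norm_num))
        · exact hb (by
            have : (2 : ℝ) • b i = 0 := by rw [two_smul]; nth_rewrite 1 [h0]; simp
            exact (smul_eq_zero.1 this).resolve_left (by norm_num))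
      · obtain ⟨h1, h2⟩ := sdata_ne h hij'
        cases s <;> cases t <;> simp at h0
        · exact h1 h0
        · exact h2 (by rw [← h0]; simp)
        · exact h2 h0
        · exact h1 h0
    refine measure_mono_null ?_ (sv_null hne 0)
    rintro x ⟨⟨_, h1⟩, ⟨_, h2⟩⟩
    rw [mem_ofPred_eq, inner_sub_left, inner_smul_left, inner_smul_left]
    simp only [conj_trivial]
    have h3 := h1 j
    have h4 := h2 i
    have h5 : (bif t then (1 : ℝ) else -1) * inner ℝ (b j) x ≤ |(inner ℝ (b j) x : ℝ)| := by
      cases t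
      · simpa using neg_le_abs _
      · simpa using le_abs_self _
    have h6 : (bif s then (1 : ℝ) else -1) * inner ℝ (b i) x ≤ |(inner ℝ (b i) x : ℝ)| := by
      cases s
      · simpa using neg_le_abs _
      · simpa using le_abs_self _
    simp only at h3 h4
    linarith

theorem vol_D (h : SData b p) : volume.real (DD b) = volume.real (TT b) / 2 := by
  have hK := (sdata_body h).1.isCompact.measure_lt_top (μ := volume)
  set A : Fin 4 → Set E3 := fun i => {x | x ∈ TT b ∧ inner ℝ (b i) x ≤ (-1 : ℝ)} with hA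
  have hvolA : ∀ i, volume.real (A i) = volume.real (TT b) / 8 := by
    intro i
    have h1 : A i = (fun x : E3 => (2 : ℝ) • x) ⁻¹' ((fun y => y + (- p i)) ⁻¹' TT b) := by
      ext x
      simp only [hA, TT, mem_ofPred_eq, mem_preimage, ← sub_eq_add_neg, inner_sub_right,
        inner_smul_right, h.inner_eq]
      constructor
      · rintro ⟨h1, h2⟩ j
        by_cases hj : j = i
        · rw [if_pos hj, hj]
          linarith
        · rw [if_neg hj]
          linarith [h1 j]
      · intro h1
        have h2 := h1 i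
        rw [if_pos rfl] at h2
        refine ⟨fun j => ?_, by linarith⟩
        by_cases hj : j = i
        · rw [hj]
          linarith
        · have h3 := h1 j
          rw [if_neg hj] at h3
          linarith
    rw [h1, Measure.real, Measure.addHaar_preimage_smul _ (by norm_num),
      measure_preimage_add_right, ENNReal.toReal_mul, ENNReal.toReal_ofReal (abs_nonneg _),
      Measure.real]
    have h2 : Module.finrank ℝ E3 = 3 := by simp
    rw [h2]
    norm_num
    ring
  set f : Option (Fin 4) → Set E3 := fun o => o.elim (DD b) A with hf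
  have hAA : ∀ i, A i ∩ DD b ⊆ {x : E3 | inner ℝ (b i) x = (-1 : ℝ)} := by
    rintro i x ⟨⟨_, h1⟩, h2⟩
    exact le_antisymm h1 (abs_le.1 (h2 i)).1
  have hsum := sv_sum_real f (TT b) hK ?_ ?_ ?_
  · rw [Fintype.sum_option] at hsum
    simp only [hf, Option.elim] at hsum
    rw [Finset.sum_congr rfl (fun j _ => hvolA j)] at hsum
    simp only [Finset.sum_const, Finset.card_univ, Fintype.card_fin, nsmul_eq_mul] at hsum
    push_cast at hsum
    linarith
  · ext x
    simp only [mem_iUnion]
    constructor
    · rintro ⟨o, ho⟩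
      cases o with
      | none => exact fun i => (abs_le.1 (ho i)).2
      | some i => exact ho.1
    · intro hx
      by_cases hD : x ∈ DD b
      · exact ⟨none, hD⟩
      · have : ∃ i, ¬ |(inner ℝ (b i) x : ℝ)| ≤ 1 := by
          by_contra hcon
          push Not at hcon
          exact hD hcon
        obtain ⟨i, hi⟩ := this
        refine ⟨some i, hx, ?_⟩
        by_contra hcon
        push Not at hcon
        exact hi (abs_le.2 ⟨hcon.le, hx i⟩)
  · intro o
    cases o with
    | none => exact sv_meas_D b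
    | some i => exact (sv_meas_T b).inter (sv_meas_le _ _ (sv_cont _) continuous_const)
  · intro o o' hoo
    cases o with
    | none =>
      cases o' with
      | none => exact absurd rfl hoo
      | some i =>
        refine measure_mono_null ?_ (sv_null (sdata_ne_zero h i) (-1))
        rw [inter_comm]
        exact hAA i
    | some i =>
      cases o' with
      | none => exact measure_mono_null (hAA i) (sv_null (sdata_ne_zero h i) (-1))
      | some j =>
        have hij : i ≠ j := fun h' => hoo (by rw [h'])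
        refine measure_mono_null ?_ (sv_null (sdata_ne_zero h i) (-1))
        rintro x ⟨⟨h1, h2⟩, ⟨_, h3⟩⟩
        have hs := sv_sum h x
        have h4 : ∑ k, ((inner ℝ (b k) x : ℝ) - (1 - 2 * (if k = i then 1 else 0) -
            2 * (if k = j then 1 else 0))) = 0 := by
          rw [Finset.sum_sub_distrib, hs]
          simp only [Finset.sum_sub_distrib, ← Finset.mul_sum, Finset.sum_ite_eq',
            Finset.mem_univ, if_true, Finset.sum_const, Finset.card_univ, Fintype.card_fin]
          norm_num
        have h5 : ∀ k ∈ (Finset.univ : Finset (Fin 4)), ((inner ℝ (b k) x : ℝ) -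
            (1 - 2 * (if k = i then 1 else 0) - 2 * (if k = j then 1 else 0))) ≤ 0 := by
          intro k _
          by_cases hki : k = i
          · subst hki
            rw [if_pos rfl, if_neg hij]
            linarith
          · by_cases hkj : k = j
            · subst hkj
              rw [if_pos rfl, if_neg hki]
              linarith
            · rw [if_neg hki, if_neg hkj]
              linarith [h1 k]
        have h6 := (Finset.sum_eq_zero_iff_of_nonpos h5).1 h4 i (Finset.mem_univ _)
        rw [if_pos rfl, if_neg hij] at h6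
        rw [mem_ofPred_eq]
        linarith

end Pool.Agent.Lib.MP_43065d_gt
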