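import Pool.Agent.Lib.MP_43065d_gt.NullND

/-!
# Module SurfRep: the surface area measure by a volume integral

STATEMENT.  For a convex body `N` with `0` in its interior, `g = gauge N` and measurable `E`:
`surf N E = 3 * ∫_N ‖∇g(x)‖ 1_E(∇g(x)/‖∇g(x)‖) dx`.

PROOF.  Notation: `v x = gradient g x`, `ν x = ‖v x‖⁻¹ • v x`.  Fix `0 < r ≤ R` with
`closedBall 0 r ⊆ N ⊆ closedBall 0 R`, put `c = 100 R^2 / r^2`.  Let `0 < δ` with `c δ ≤ 1`.
Take unit vectors `e_1, …, e_n` with balls of radius `δ` covering the unit sphere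
(`exists_sphere_net`) and disjoint measurable pieces `P_k ⊆ closedBall e_k δ` covering the sphere
(`disjointed` or induction; a cheap alternative: index the pieces by the first `k` with
`‖u - e_k‖ ≤ δ`).
Let `A_k = {x ∈ frontier N | g differentiable at x, ν x ∈ E ∩ P_k}`.  These are measurable
(`gg_meas`) and disjoint.  For `x ∈ frontier N` with `g` differentiable at `x` the vector `ν x` is
the unique unit normal (`gg_normal_iff`, `‖ν x‖ = 1` because `v x ≠ 0`, `0 ∉ frontier N`), so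
`nset N E` and `⋃ A_k` differ by a subset of the null set of `nondiff_null`:
`surf N E = ∑ μHE[2] (A_k)`.
On the other side put `W_k = {x ∈ N | x ≠ 0, g differentiable at x, ν x ∈ E ∩ P_k}`.  By
homogeneity (`gg_smul`, `frontier_scale`) `cone A_k = W_k` (`x = (g x) • ((g x)⁻¹ • x)`, `0 < g x ≤ 1`), and
the right side `RHS = 3 ∫_N ‖v‖ 1_E(ν)` equals `∑ 3 ∫_{W_k} ‖v‖` (up to the null sets).
CLAIM for each `k`:  `μHE[2] (A_k) ≤ (1 + c δ)^3 * 3 ∫_{W_k} ‖v‖` and
`3 ∫_{W_k} ‖v‖ ≤ (1 + c δ)^3 * μHE[2] (A_k)` (as `ENNReal`s with `ofReal (1 + c δ)`).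
If `A_k` is empty both are zero.  Otherwise fix `x₀ ∈ A_k`, `h = ⟪e_k, x₀⟫`; `A_k ⊆ band N e_k δ`.
`B' = rho e_k h '' A_k` is measurable (`MeasurableSet.image_of_continuousOn_injOn`: `rho` is
continuous where `⟪e_k, ·⟫ ≠ 0`, injective on `band` by `rho_dist`) and lies in the plane `⟪e_k, ·⟫ = h`, so
`volume (cone B') = ofReal (h/3) μHE[2] B'` (`volume_cone_plane`).  With `rho_area` and `cone_rho`:
`μHE[2] A_k ≤ (1 + cδ) μHE[2] B' = (1 + cδ) (3/h) volume (cone B') ≤ (1 + cδ)^2 (3/h) volume (W_k)` and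
conversely `(3/h) volume (W_k) ≤ (1 + cδ)^2 μHE[2] A_k`.
Finally on `W_k`, with `x' = (g x)⁻¹ • x ∈ A_k`: `1 = ⟪v x', x'⟫ = ‖v x‖ ⟪ν x', x'⟫` (`gg_euler`), and
`|⟪ν x', x'⟫ - h| ≤ |⟪ν x' - e_k, x'⟫| + |⟪e_k, x'⟫ - h| ≤ δ R + 2 R δ = 3 R δ`, so that
`‖v x‖ = 1 / ⟪ν x', x'⟫` lies between `(1/h) / (1 + c δ)` and `(1/h) (1 + c δ)`
(`h ≥ 0.99 r`, `3 R δ / h ≤ 4 R δ / r ≤ (c δ)/25`).  This gives the claim.
Summing over `k`: `surf N E ≤ (1 + cδ)^3 RHS`, `RHS ≤ (1 + cδ)^3 surf N E`, for all small `δ > 0`.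
`RHS` is finite (`‖v‖` is bounded by the Lipschitz constant of `g`, `volume N < ∞`), so `surf N E` is
finite as well, and `δ → 0` gives equality.
-/

open MeasureTheory Set Filter Topology Metric
open scoped ENNReal NNReal Pointwise

namespace Pool.Agent.Lib.MP_43065d_gt

/-- the unit normal -/
private noncomputable def srNu (N : Set E3) (x : E3) : E3 :=
  ‖gradient (gauge N) x‖⁻¹ • gradient (gauge N) x

private def srA (N Q : Set E3) : Set E3 :=
  {x | x ∈ frontier N ∧ DifferentiableAt ℝ (gauge N) x ∧ srNu N x ∈ Q}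

private def srW (N Q : Set E3) : Set E3 :=
  {x | x ∈ N ∧ x ≠ 0 ∧ DifferentiableAt ℝ (gauge N) x ∧ srNu N x ∈ Q}

private lemma srNu_meas (N : Set E3) : Measurable (srNu N) := by
  unfold srNu
  have h := (gg_meas (N := N)).2
  exact (h.norm.inv).smul h

private lemma srA_meas {N Q : Set E3} (hQ : MeasurableSet Q) : MeasurableSet (srA N Q) :=
  isClosed_frontier.measurableSet.inter ((gg_meas (N := N)).1.inter (srNu_meas N hQ))

private lemma srW_meas {N Q : Set E3} (hN : IsBody N) (hQ : MeasurableSet Q) :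
    MeasurableSet (srW N Q) :=
  hN.isCompact.isClosed.measurableSet.inter
    ((measurableSet_singleton (0 : E3)).compl.inter
      ((gg_meas (N := N)).1.inter (srNu_meas N hQ)))

private lemma srNu_smul {N : Set E3} {x : E3} {t : ℝ} (ht : 0 < t) :
    srNu N (t • x) = srNu N x := by
  unfold srNu
  rw [(gg_smul ht).2]

private lemma sr_fr_ne {N : Set E3} (h0 : (0 : E3) ∈ interior N) {x : E3}
    (hx : x ∈ frontier N) : x ≠ 0 := by
  rintro rfl
  exact hx.2 h0

private lemma srNu_norm {N : Set E3} (hN : IsBody N) (h0 : (0 : E3) ∈ interior N) {x : E3}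
    (hx : x ≠ 0) (hd : DifferentiableAt ℝ (gauge N) x) : ‖srNu N x‖ = 1 := by
  unfold srNu
  have h1 : ‖gradient (gauge N) x‖ ≠ 0 := norm_ne_zero_iff.2 (gg_ne_zero hN h0 hx hd)
  rw [norm_smul, norm_inv, norm_norm, inv_mul_cancel₀ h1]

private lemma sr_gauge_one {N : Set E3} (hN : IsBody N) (h0 : (0 : E3) ∈ interior N) {x : E3}
    (hx : x ∈ frontier N) : gauge N x = 1 :=
  (gauge_eq_one_iff_mem_frontier hN.convex (mem_interior_iff_mem_nhds.1 h0)).2 hx

/-- the cone over the part of the boundary -/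
private lemma sr_cone {N : Set E3} (hN : IsBody N) (h0 : (0 : E3) ∈ interior N) (Q : Set E3) :
    cone (srA N Q) = srW N Q := by
  ext y
  constructor
  · rintro ⟨t, ht, x, ⟨hx, hd, hQ⟩, rfl⟩
    refine ⟨?_, smul_ne_zero ht.1.ne' (sr_fr_ne h0 hx), (gg_smul ht.1).1.2 hd, ?_⟩
    · have h1 := hN.convex.starConvex (interior_subset h0)
      exact h1.smul_mem (hN.isCompact.isClosed.frontier_subset hx) ht.1.le ht.2
    · rw [srNu_smul ht.1]
      exact hQ
  · rintro ⟨hy, hy0, hd, hQ⟩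
    obtain ⟨h1, h2, h3⟩ := frontier_scale hN h0 hy0
    have h4 : 0 < (gauge N y)⁻¹ := inv_pos.2 h1
    refine ⟨gauge N y, ⟨h1, h3.1 hy⟩, (gauge N y)⁻¹ • y, ⟨h2, (gg_smul h4).1.2 hd, ?_⟩, ?_⟩
    · rw [srNu_smul h4]
      exact hQ
    · rw [smul_smul, mul_inv_cancel₀ h1.ne', one_smul]

section piece

variable {N : Set E3} {r R δ : ℝ} {e : E3} {Q : Set E3}

private lemma sr_normal (hN : IsBody N) (h0 : (0 : E3) ∈ interior N) {x : E3}
    (hx : x ∈ srA N Q) : IsNormal N x (srNu N x) :=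
  (gg_normal_iff hN h0 hx.1 hx.2.1 (srNu_norm hN h0 (sr_fr_ne h0 hx.1) hx.2.1)).2 rfl

private lemma sr_band (hN : IsBody N) (h0 : (0 : E3) ∈ interior N)
    (hQ : Q ⊆ closedBall e δ) {x : E3} (hx : x ∈ srA N Q) : x ∈ band N e δ := by
  refine ⟨hN.isCompact.isClosed.frontier_subset hx.1, srNu N x,
    srNu_norm hN h0 (sr_fr_ne h0 hx.1) hx.2.1, ?_, sr_normal hN h0 hx⟩
  have h1 := hQ hx.2.2
  rwa [mem_closedBall, dist_eq_norm] at h1

/-- the inner product of a boundary point with its normal -/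
private lemma sr_inner (hN : IsBody N) (h0 : (0 : E3) ∈ interior N) {x : E3}
    (hx : x ∈ srA N Q) : inner ℝ (srNu N x) x = ‖gradient (gauge N) x‖⁻¹ := by
  unfold srNu
  rw [real_inner_smul_left, gg_euler hx.2.1, sr_gauge_one hN h0 hx.1, mul_one]

private lemma sr_inner_ge (hN : IsBody N) (h0 : (0 : E3) ∈ interior N) (hr : 0 < r)
    (hrN : closedBall 0 r ⊆ N) {x : E3} (hx : x ∈ srA N Q) : r ≤ inner ℝ (srNu N x) x := by
  have h1 := srNu_norm hN h0 (sr_fr_ne h0 hx.1) hx.2.1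
  have h2 : r • srNu N x ∈ N := by
    apply hrN
    rw [mem_closedBall, dist_zero_right, norm_smul, h1, mul_one, Real.norm_eq_abs,
      abs_of_pos hr]
  have h3 := sr_normal hN h0 hx _ h2
  rw [real_inner_smul_right, real_inner_self_eq_norm_sq, h1] at h3
  linarith

private lemma sr_bound (hN : IsBody N) (h0 : (0 : E3) ∈ interior N) (hr : 0 < r)
    (hrN : closedBall 0 r ⊆ N) (hNR : N ⊆ closedBall 0 R) (he : ‖e‖ = 1) (hδ : 0 ≤ δ)
    (hδr : 100 * R ^ 2 * δ ≤ r ^ 2) (hQ : Q ⊆ closedBall e δ) {x₀ : E3} (hx₀ : x₀ ∈ srA N Q)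
    {y : E3} (hy : y ∈ srW N Q) :
    1 / inner ℝ e x₀ ≤ (1 + 100 * R ^ 2 / r ^ 2 * δ) * ‖gradient (gauge N) y‖ ∧
      ‖gradient (gauge N) y‖ ≤ (1 + 100 * R ^ 2 / r ^ 2 * δ) * (1 / inner ℝ e x₀) := by
  rw [← sr_cone hN h0] at hy
  obtain ⟨t, ht, x, hx, rfl⟩ := hy
  have hv : gradient (gauge N) (t • x) = gradient (gauge N) x := (gg_smul ht.1).2
  rw [hv]
  obtain ⟨hb1, hb2⟩ := band_facts hr hrN hNR he hδ hδr (sr_band hN h0 hQ hx₀)
  obtain ⟨h, hh⟩ : ∃ h : ℝ, h = inner ℝ e x₀ := ⟨_, rfl⟩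
  obtain ⟨q, hq⟩ : ∃ q : ℝ, q = inner ℝ (srNu N x) x := ⟨_, rfl⟩
  have hhr : 99 / 100 * r ≤ h := by rw [hh]; exact (hb1 x₀ (sr_band hN h0 hQ hx₀)).1
  have hqr : r ≤ q := by rw [hq]; exact sr_inner_ge hN h0 hr hrN hx
  have hqv : ‖gradient (gauge N) x‖ = q⁻¹ := by
    rw [hq, sr_inner hN h0 hx, inv_inv]
  have hrR : r ≤ R := by
    have h1 : r • e ∈ closedBall (0 : E3) R := by
      apply hNR
      apply hrN
      rw [mem_closedBall, dist_zero_right, norm_smul, he, mul_one, Real.norm_eq_abs,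
        abs_of_pos hr]
    rw [mem_closedBall, dist_zero_right, norm_smul, he, mul_one, Real.norm_eq_abs,
      abs_of_pos hr] at h1
    exact h1
  have hxN : x ∈ N := hN.isCompact.isClosed.frontier_subset hx.1
  have hxR : ‖x‖ ≤ R := by
    have h1 := hNR hxN
    rwa [mem_closedBall, dist_zero_right] at h1
  have hd : ‖srNu N x - e‖ ≤ δ := by
    have h1 := hQ hx.2.2
    rwa [mem_closedBall, dist_eq_norm] at h1
  have hqh : |q - h| ≤ 3 * R * δ := by
    have h1 : q - h = inner ℝ (srNu N x - e) x + (inner ℝ e x - inner ℝ e x₀) := by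
      rw [hq, hh, inner_sub_left]
      ring
    rw [h1]
    have h2 : |inner ℝ (srNu N x - e) x| ≤ δ * R :=
      (abs_real_inner_le_norm _ _).trans (mul_le_mul hd hxR (norm_nonneg _) hδ)
    have h3 := hb2 x (sr_band hN h0 hQ hx)
    have h4 := abs_add_le (inner ℝ (srNu N x - e) x) (inner ℝ e x - inner ℝ e x₀)
    linarith
  rw [abs_le] at hqh
  have hR0 : 0 < R := hr.trans_le hrR
  have hc : R / r ≤ R ^ 2 / r ^ 2 := by
    rw [div_le_div_iff₀ hr (by positivity)]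
    nlinarith [mul_nonneg (mul_nonneg hR0.le hr.le) (sub_nonneg.2 hrR)]
  have hh0 : 0 < h := by linarith
  have hq0 : 0 < q := by linarith
  have key : ∀ s : ℝ, 99 / 100 * r ≤ s → 3 * R * δ ≤ 100 * R ^ 2 / r ^ 2 * δ * s := by
    intro s hs
    have h1 : 3 * R ≤ 100 * R ^ 2 / r ^ 2 * s := by
      have h2 : 100 * (R / r) * (99 / 100 * r) ≤ 100 * (R ^ 2 / r ^ 2) * s := by
        apply mul_le_mul (by linarith) hs (by positivity) (by positivity)
      have h3 : 100 * (R / r) * (99 / 100 * r) = 99 * R := by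
        field_simp
      have h4 : 100 * (R ^ 2 / r ^ 2) * s = 100 * R ^ 2 / r ^ 2 * s := by ring
      rw [h3, h4] at h2
      linarith
    have h5 := mul_le_mul_of_nonneg_right h1 hδ
    linarith
  rw [← hh, hqv]
  have k1 := key h hhr
  have k2 := key q (by linarith)
  have e1 : q ≤ (1 + 100 * R ^ 2 / r ^ 2 * δ) * h := by linarith [hqh.2]
  have e2 : h ≤ (1 + 100 * R ^ 2 / r ^ 2 * δ) * q := by linarith [hqh.1]
  constructor
  · rw [← div_eq_mul_inv, div_le_div_iff₀ hh0 hq0]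
    linarith
  · rw [mul_one_div, inv_eq_one_div, div_le_div_iff₀ hq0 hh0]
    linarith

private lemma sr_image (hN : IsBody N) (h0 : (0 : E3) ∈ interior N) {h : ℝ} (hh : 0 < h)
    (hpos : ∀ x ∈ srA N Q, 0 < inner ℝ e x) :
    rho e h '' srA N Q =
      {y | inner ℝ e y = h ∧ DifferentiableAt ℝ (gauge N) y ∧ srNu N y ∈ Q} := by
  ext y
  constructor
  · rintro ⟨x, hx, rfl⟩
    have hp := hpos x hx
    have hl : 0 < h / inner ℝ e x := div_pos hh hp
    refine ⟨?_, ?_, ?_⟩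
    · unfold rho
      rw [real_inner_smul_right, div_mul_cancel₀ _ hp.ne']
    · exact (gg_smul hl).1.2 hx.2.1
    · unfold rho
      rw [srNu_smul hl]
      exact hx.2.2
  · rintro ⟨hy, hd, hQ⟩
    have hy0 : y ≠ 0 := by
      rintro rfl
      rw [inner_zero_right] at hy
      exact hh.ne hy
    obtain ⟨h1, h2, h3⟩ := frontier_scale hN h0 hy0
    have h4 : 0 < (gauge N y)⁻¹ := inv_pos.2 h1
    refine ⟨(gauge N y)⁻¹ • y, ⟨h2, (gg_smul h4).1.2 hd, ?_⟩, ?_⟩
    · rw [srNu_smul h4]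
      exact hQ
    · unfold rho
      rw [real_inner_smul_right, hy, smul_smul]
      have h5 : h / ((gauge N y)⁻¹ * h) * (gauge N y)⁻¹ = 1 := by
        have := h1.ne'
        field_simp
      rw [h5, one_smul]

private lemma sr_claim (hN : IsBody N) (h0 : (0 : E3) ∈ interior N) (hr : 0 < r)
    (hrN : closedBall 0 r ⊆ N) (hNR : N ⊆ closedBall 0 R) (he : ‖e‖ = 1) (hδ : 0 ≤ δ)
    (hδr : 100 * R ^ 2 * δ ≤ r ^ 2) (hQm : MeasurableSet Q) (hQ : Q ⊆ closedBall e δ) :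
    μHE[2] (srA N Q) ≤ ENNReal.ofReal (1 + 100 * R ^ 2 / r ^ 2 * δ) ^ 3 *
        (3 * ∫⁻ x in srW N Q, ‖gradient (gauge N) x‖ₑ) ∧
      3 * ∫⁻ x in srW N Q, ‖gradient (gauge N) x‖ₑ ≤
        ENNReal.ofReal (1 + 100 * R ^ 2 / r ^ 2 * δ) ^ 3 * μHE[2] (srA N Q) := by
  rcases (srA N Q).eq_empty_or_nonempty with hemp | ⟨x₀, hx₀⟩
  · have hW : srW N Q = ∅ := by
      rw [← sr_cone hN h0, hemp]
      ext y
      simp [cone]
    rw [hemp, hW]
    simp
  have hb := sr_band hN h0 hQ hx₀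
  obtain ⟨hb1, -⟩ := band_facts hr hrN hNR he hδ hδr hb
  have hpos : ∀ x ∈ srA N Q, 0 < inner ℝ e x := by
    intro x hx
    have := (hb1 x (sr_band hN h0 hQ hx)).1
    linarith
  have hA : srA N Q ⊆ band N e δ := fun x hx => sr_band hN h0 hQ hx
  obtain ⟨h1, h2⟩ := rho_area hr hrN hNR he hδ hδr hb hA
  obtain ⟨h3, h4⟩ := cone_rho hr hrN hNR he hδ hδr hb hA
  have hh0 := hpos x₀ hx₀
  have hBm : MeasurableSet (rho e (inner ℝ e x₀) '' srA N Q) := by
    rw [sr_image hN h0 hh0 hpos]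
    have m1 : MeasurableSet {y : E3 | inner ℝ e y = inner ℝ e x₀} :=
      measurableSet_eq_fun (by fun_prop) measurable_const
    exact m1.inter ((gg_meas (N := N)).1.inter (srNu_meas N hQm))
  have h5 := volume_cone_plane he hh0 hBm (by
    intro y hy
    rw [sr_image hN h0 hh0 hpos] at hy
    exact hy.1)
  rw [sr_cone hN h0] at h3 h4
  have hbd := fun y hy => sr_bound hN h0 hr hrN hNR he hδ hδr hQ hx₀ (y := y) hy
  obtain ⟨h, hh⟩ : ∃ h : ℝ, h = inner ℝ e x₀ := ⟨_, rfl⟩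
  rw [← hh] at h1 h2 h3 h4 h5 hbd hh0
  obtain ⟨c, hc⟩ : ∃ c : ℝ, c = 1 + 100 * R ^ 2 / r ^ 2 * δ := ⟨_, rfl⟩
  rw [← hc] at h1 h2 h3 h4 hbd ⊢
  have hc0 : 0 ≤ c := by
    rw [hc]
    positivity
  have hWm := srW_meas hN hQm
  have hgm : Measurable fun x => ‖gradient (gauge N) x‖ₑ := (gg_meas (N := N)).2.enorm
  have h6 : ENNReal.ofReal (1 / h) * volume (srW N Q) ≤
      ENNReal.ofReal c * ∫⁻ x in srW N Q, ‖gradient (gauge N) x‖ₑ := by
    rw [← setLIntegral_const, ← lintegral_const_mul _ hgm]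
    refine setLIntegral_mono' hWm fun y hy => ?_
    have := ENNReal.ofReal_le_ofReal (hbd y hy).1
    rwa [ENNReal.ofReal_mul hc0, ofReal_norm] at this
  have h7 : ∫⁻ x in srW N Q, ‖gradient (gauge N) x‖ₑ ≤
      ENNReal.ofReal c * (ENNReal.ofReal (1 / h) * volume (srW N Q)) := by
    rw [← mul_assoc, ← setLIntegral_const]
    refine setLIntegral_mono' hWm fun y hy => ?_
    have := ENNReal.ofReal_le_ofReal (hbd y hy).2
    rwa [ENNReal.ofReal_mul hc0, ofReal_norm] at this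
  have h8 : μHE[2] (rho e h '' srA N Q) =
      3 * (ENNReal.ofReal (1 / h) * volume (cone (rho e h '' srA N Q))) := by
    rw [h5, ← mul_assoc, ← mul_assoc]
    have h9 : (3 : ℝ≥0∞) * ENNReal.ofReal (1 / h) * ENNReal.ofReal (h / 3) = 1 := by
      have h10 : (3 : ℝ≥0∞) = ENNReal.ofReal 3 := by norm_num
      rw [h10, ← ENNReal.ofReal_mul (by norm_num), ← ENNReal.ofReal_mul (by positivity)]
      have h11 : (3 : ℝ) * (1 / h) * (h / 3) = 1 := by field_simp
      rw [h11, ENNReal.ofReal_one]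
    rw [h9, one_mul]
  constructor
  · calc μHE[2] (srA N Q) ≤ ENNReal.ofReal c * μHE[2] (rho e h '' srA N Q) := h1
      _ = ENNReal.ofReal c *
          (3 * (ENNReal.ofReal (1 / h) * volume (cone (rho e h '' srA N Q)))) := by rw [h8]
      _ ≤ ENNReal.ofReal c *
          (3 * (ENNReal.ofReal (1 / h) * (ENNReal.ofReal c * volume (srW N Q)))) := by gcongr
      _ = ENNReal.ofReal c ^ 2 * (3 * (ENNReal.ofReal (1 / h) * volume (srW N Q))) := by ring
      _ ≤ ENNReal.ofReal c ^ 2 * (3 * (ENNReal.ofReal c *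
          ∫⁻ x in srW N Q, ‖gradient (gauge N) x‖ₑ)) := by gcongr
      _ = ENNReal.ofReal c ^ 3 * (3 * ∫⁻ x in srW N Q, ‖gradient (gauge N) x‖ₑ) := by ring
  · calc 3 * ∫⁻ x in srW N Q, ‖gradient (gauge N) x‖ₑ
        ≤ 3 * (ENNReal.ofReal c * (ENNReal.ofReal (1 / h) * volume (srW N Q))) := by gcongr
      _ ≤ 3 * (ENNReal.ofReal c * (ENNReal.ofReal (1 / h) *
          (ENNReal.ofReal c * volume (cone (rho e h '' srA N Q))))) := by gcongr
      _ = ENNReal.ofReal c ^ 2 *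
          (3 * (ENNReal.ofReal (1 / h) * volume (cone (rho e h '' srA N Q)))) := by ring
      _ = ENNReal.ofReal c ^ 2 * μHE[2] (rho e h '' srA N Q) := by rw [h8]
      _ ≤ ENNReal.ofReal c ^ 2 * (ENNReal.ofReal c * μHE[2] (srA N Q)) := by gcongr
      _ = ENNReal.ofReal c ^ 3 * μHE[2] (srA N Q) := by ring

private lemma sr_cover (hN : IsBody N) (h0 : (0 : E3) ∈ interior N) (hr : 0 < r)
    (hrN : closedBall 0 r ⊆ N) (hNR : N ⊆ closedBall 0 R) (hδ : 0 ≤ δ)
    (hδr : 100 * R ^ 2 * δ ≤ r ^ 2) (s : Finset E3) (hs : ∀ e ∈ s, ‖e‖ = 1) :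
    ∀ Q : Set E3, MeasurableSet Q → (∀ u ∈ Q, ∃ e ∈ s, u ∈ closedBall e δ) →
    μHE[2] (srA N Q) ≤ ENNReal.ofReal (1 + 100 * R ^ 2 / r ^ 2 * δ) ^ 3 *
        (3 * ∫⁻ x in srW N Q, ‖gradient (gauge N) x‖ₑ) ∧
      3 * ∫⁻ x in srW N Q, ‖gradient (gauge N) x‖ₑ ≤
        ENNReal.ofReal (1 + 100 * R ^ 2 / r ^ 2 * δ) ^ 3 * μHE[2] (srA N Q) := by
  classical
  induction s using Finset.induction_on with
  | empty =>
    intro Q _ hQ
    have h1 : Q = ∅ := by
      ext u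
      constructor
      · intro hu
        obtain ⟨e, he, -⟩ := hQ u hu
        exact absurd he (Finset.notMem_empty e)
      · intro hu
        exact absurd hu (notMem_empty u)
    have h2 : srA N Q = ∅ := by
      rw [h1]
      ext x
      simp [srA]
    have h3 : srW N Q = ∅ := by
      rw [h1]
      ext x
      simp [srW]
    rw [h2, h3]
    simp
  | insert e s _ ih =>
    intro Q hQm hQ
    have hBm : MeasurableSet (closedBall e δ) := isClosed_closedBall.measurableSet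
    obtain ⟨a1, a2⟩ := sr_claim hN h0 hr hrN hNR (hs e (Finset.mem_insert_self _ _)) hδ hδr
      (hQm.inter hBm) (inter_subset_right : Q ∩ closedBall e δ ⊆ closedBall e δ)
    obtain ⟨b1, b2⟩ := ih (fun e' he' => hs e' (Finset.mem_insert_of_mem he')) (Q \ closedBall e δ)
      (hQm.diff hBm) (by
        rintro u ⟨hu, hu'⟩
        obtain ⟨e', he', h1⟩ := hQ u hu
        rcases Finset.mem_insert.1 he' with rfl | he'
        · exact absurd h1 hu'
        · exact ⟨e', he', h1⟩)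
    have hpm : MeasurableSet (srNu N ⁻¹' closedBall e δ) := srNu_meas N hBm
    have eA1 : srA N (Q ∩ closedBall e δ) = srA N Q ∩ (srNu N ⁻¹' closedBall e δ) := by
      ext x
      simp only [srA, mem_ofPred_eq, mem_inter_iff, mem_preimage]
      tauto
    have eA2 : srA N (Q \ closedBall e δ) = srA N Q \ (srNu N ⁻¹' closedBall e δ) := by
      ext x
      simp only [srA, mem_ofPred_eq, Set.mem_sdiff, mem_preimage]
      tauto
    have eW1 : srW N (Q ∩ closedBall e δ) = srW N Q ∩ (srNu N ⁻¹' closedBall e δ) := by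
      ext x
      simp only [srW, mem_ofPred_eq, mem_inter_iff, mem_preimage]
      tauto
    have eW2 : srW N (Q \ closedBall e δ) = srW N Q \ (srNu N ⁻¹' closedBall e δ) := by
      ext x
      simp only [srW, mem_ofPred_eq, Set.mem_sdiff, mem_preimage]
      tauto
    rw [eA1, eW1] at a1 a2
    rw [eA2, eW2] at b1 b2
    rw [← measure_inter_add_sdiff (srA N Q) hpm, ← lintegral_inter_add_diff _ (srW N Q) hpm]
    constructor
    · refine (add_le_add a1 b1).trans (le_of_eq ?_)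
      ring
    · rw [mul_add, mul_add]
      exact add_le_add a2 b2

end piece

theorem surf_eq_lintegral {N : Set E3} (hN : IsBody N) (h0 : (0 : E3) ∈ interior N) {E : Set E3}
    (hE : MeasurableSet E) :
    surf N E = 3 * ∫⁻ x in N, ‖gradient (gauge N) x‖ₑ *
      E.indicator 1 (‖gradient (gauge N) x‖⁻¹ • gradient (gauge N) x) := by
  -- the radii
  obtain ⟨r, hr, hrN⟩ : ∃ r : ℝ, 0 < r ∧ closedBall (0 : E3) r ⊆ N :=
    nhds_basis_closedBall.mem_iff.1 (mem_interior_iff_mem_nhds.1 h0)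
  obtain ⟨R, hNR⟩ : ∃ R : ℝ, N ⊆ closedBall (0 : E3) R :=
    hN.isCompact.isBounded.subset_closedBall 0
  obtain ⟨Q, hQ⟩ : ∃ Q : Set E3, Q = E ∩ sphere (0 : E3) 1 := ⟨_, rfl⟩
  have hQm : MeasurableSet Q := by
    rw [hQ]
    exact hE.inter isClosed_sphere.measurableSet
  -- the left side
  have hL : surf N E = μHE[2] (srA N Q) := by
    refine le_antisymm ?_ ?_
    · have h1 : nset N E ⊆ srA N Q ∪ {x | x ∈ frontier N ∧ ¬ DifferentiableAt ℝ (gauge N) x} := by
        rintro x ⟨hx, u, hu, hu1, hun⟩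
        by_cases hd : DifferentiableAt ℝ (gauge N) x
        · left
          refine ⟨hx, hd, ?_⟩
          have h2 := (gg_normal_iff hN h0 hx hd hu1).1 hun
          have h3 : srNu N x = u := by
            rw [h2]
            rfl
          rw [h3, hQ]
          refine ⟨hu, ?_⟩
          rw [mem_sphere, dist_zero_right]
          exact hu1
        · exact Or.inr ⟨hx, hd⟩
      calc surf N E ≤ μHE[2] (srA N Q ∪ {x | x ∈ frontier N ∧
            ¬ DifferentiableAt ℝ (gauge N) x}) := measure_mono h1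
        _ ≤ μHE[2] (srA N Q) + μHE[2] {x | x ∈ frontier N ∧
            ¬ DifferentiableAt ℝ (gauge N) x} := measure_union_le _ _
        _ = μHE[2] (srA N Q) := by rw [nondiff_null hN h0, add_zero]
    · refine measure_mono ?_
      intro x hx
      have h1 := hx.2.2
      rw [hQ] at h1
      refine ⟨hx.1, srNu N x, h1.1, ?_, sr_normal hN h0 hx⟩
      have h2 := h1.2
      rwa [mem_sphere, dist_zero_right] at h2
  -- the right side
  have hRt : ∫⁻ x in N, ‖gradient (gauge N) x‖ₑ *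
      E.indicator 1 (‖gradient (gauge N) x‖⁻¹ • gradient (gauge N) x) =
      ∫⁻ x in srW N Q, ‖gradient (gauge N) x‖ₑ := by
    rw [← lintegral_indicator hN.isCompact.isClosed.measurableSet,
      ← lintegral_indicator (srW_meas hN hQm)]
    refine lintegral_congr_ae ?_
    have hne : ∀ᵐ x : E3, x ≠ 0 := by
      rw [ae_iff]
      have h1 : {x : E3 | ¬ x ≠ 0} = {0} := by
        ext x
        simp
      rw [h1]
      exact measure_singleton _
    filter_upwards [gg_ae hN h0, hne] with x hd hx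
    by_cases hxN : x ∈ N
    · rw [indicator_of_mem hxN]
      have hnu : ‖gradient (gauge N) x‖⁻¹ • gradient (gauge N) x = srNu N x := rfl
      rw [hnu]
      by_cases hxE : srNu N x ∈ E
      · rw [indicator_of_mem hxE, Pi.one_apply, mul_one, indicator_of_mem]
        refine ⟨hxN, hx, hd, ?_⟩
        rw [hQ]
        refine ⟨hxE, ?_⟩
        rw [mem_sphere, dist_zero_right]
        exact srNu_norm hN h0 hx hd
      · rw [indicator_of_notMem hxE, mul_zero, indicator_of_notMem]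
        intro h1
        have h2 := h1.2.2.2
        rw [hQ] at h2
        exact hxE h2.1
    · rw [indicator_of_notMem hxN, indicator_of_notMem]
      intro h1
      exact hxN h1.1
  rw [hL, hRt]
  -- comparison
  obtain ⟨c, hc⟩ : ∃ c : ℝ, c = 100 * R ^ 2 / r ^ 2 := ⟨_, rfl⟩
  have hsmall : ∀ᶠ δ in 𝓝[>] (0 : ℝ), 0 < δ ∧ 100 * R ^ 2 * δ ≤ r ^ 2 := by
    have h1 : ∀ᶠ δ in 𝓝[>] (0 : ℝ), 0 < δ := eventually_mem_nhdsWithin
    have h2 : Tendsto (fun δ : ℝ => 100 * R ^ 2 * δ) (𝓝[>] 0) (𝓝 (100 * R ^ 2 * 0)) :=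
      (tendsto_nhdsWithin_of_tendsto_nhds tendsto_id).const_mul _
    rw [mul_zero] at h2
    have h3 : ∀ᶠ δ in 𝓝[>] (0 : ℝ), 100 * R ^ 2 * δ < r ^ 2 :=
      h2.eventually_lt_const (by positivity)
    filter_upwards [h1, h3] with δ hδ1 hδ2
    exact ⟨hδ1, hδ2.le⟩
  have hmain : ∀ᶠ δ in 𝓝[>] (0 : ℝ),
      μHE[2] (srA N Q) ≤ ENNReal.ofReal (1 + c * δ) ^ 3 *
        (3 * ∫⁻ x in srW N Q, ‖gradient (gauge N) x‖ₑ) ∧
      3 * ∫⁻ x in srW N Q, ‖gradient (gauge N) x‖ₑ ≤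
        ENNReal.ofReal (1 + c * δ) ^ 3 * μHE[2] (srA N Q) := by
    filter_upwards [hsmall] with δ hδ
    obtain ⟨s, hs1, hs2⟩ := exists_sphere_net hδ.1
    rw [hc]
    refine sr_cover hN h0 hr hrN hNR hδ.1.le hδ.2 s hs1 Q hQm ?_
    intro u hu
    rw [hQ] at hu
    have h1 := hu.2
    rw [mem_sphere, dist_zero_right] at h1
    obtain ⟨e, he, h2⟩ := hs2 u h1
    refine ⟨e, he, ?_⟩
    rw [mem_closedBall, dist_eq_norm]
    exact h2
  have hlim : Tendsto (fun δ : ℝ => ENNReal.ofReal (1 + c * δ) ^ 3) (𝓝[>] 0) (𝓝 1) := by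
    have h1 : Tendsto (fun δ : ℝ => 1 + c * δ) (𝓝[>] 0) (𝓝 (1 + c * 0)) :=
      ((tendsto_nhdsWithin_of_tendsto_nhds tendsto_id).const_mul _).const_add _
    rw [mul_zero, add_zero] at h1
    have h2 := ENNReal.Tendsto.pow (n := 3) ((ENNReal.continuous_ofReal.tendsto 1).comp h1)
    rw [ENNReal.ofReal_one, one_pow] at h2
    exact h2
  have hlim1 : ∀ w : ℝ≥0∞, Tendsto (fun δ : ℝ => ENNReal.ofReal (1 + c * δ) ^ 3 * w) (𝓝[>] 0)
      (𝓝 w) := by
    intro w
    have h1 := ENNReal.Tendsto.mul_const (b := w) hlim (Or.inl one_ne_zero)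
    rwa [one_mul] at h1
  refine le_antisymm ?_ ?_
  · exact ge_of_tendsto (hlim1 _) (hmain.mono fun δ h => h.1)
  · exact ge_of_tendsto (hlim1 _) (hmain.mono fun δ h => h.2)

end Pool.Agent.Lib.MP_43065d_gt
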