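import Pool.Agent.Lib.MP_43065d_gt.SurfRep

/-!
# Module Transfer: integrals over a body and over its Blaschke body

PROOF of `surf_neg`.  `x ↦ -x` is an isometry that maps `nset (-K) E` onto `nset K (-E)`.
PROOF of `blaschke_integral`.  `0 ∈ interior N` because `N` is symmetric and convex with nonempty
interior.  For a body `L` with `0` in its interior let `ν_L` be the measure on `E3`
`E ↦ 3 ∫_L ‖∇g_L‖ 1_E(∇g_L/‖∇g_L‖)`, i.e. the image of `3 ‖∇g_L‖ dx|_L` under the measurable map
`x ↦ ‖∇g_L x‖⁻¹ • ∇g_L x` (`gg_meas`).  By `surf_eq_lintegral` `ν_L E = surf L E` for measurable `E`, so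
`ν_N E = (ν_K E + ν_K (-E)) / 2` for all measurable `E` (`surf_neg`), i.e. `2 • ν_N = ν_K + ν_K.map (-·)`.  Integrate
`φ` (nonnegative, continuous): by homogeneity
`∫ φ dν_L = 3 ∫_L ‖∇g_L‖ φ(∇g_L/‖∇g_L‖) = 3 ∫_L φ(∇g_L)` (where `∇g_L = 0` both sides are zero since
`φ 0 = 0`), and `∫ φ(-·) dν_K = ∫ φ dν_K` by symmetry.  Use `lintegral` of `ENNReal.ofReal ∘ φ` and convert at the
end (`φ(∇g)` is bounded because `∇g` is bounded by the Lipschitz constant, `ofReal_integral_eq_lintegral_ofReal`).
-/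

open MeasureTheory Set Filter Topology Metric
open scoped ENNReal NNReal Pointwise

namespace Pool.Agent.Lib.MP_43065d_gt

/-- the surface area measure as an image measure -/
private theorem transfer_meas {L : Set E3} (hL : IsBody L) (h0 : (0 : E3) ∈ interior L) :
    ∃ ν : Measure E3, (∀ E, MeasurableSet E → ν E = surf L E) ∧
      ∀ φ : E3 → ℝ, Continuous φ → (∀ x, 0 ≤ φ x) →
        (∀ t : ℝ, 0 ≤ t → ∀ x, φ (t • x) = t * φ x) →
        ∫⁻ x, ENNReal.ofReal (φ x) ∂ν =
          3 * ∫⁻ x in L, ENNReal.ofReal (φ (gradient (gauge L) x)) := by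
  set v : E3 → E3 := gradient (gauge L) with hv
  have hvm : Measurable v := gg_meas.2
  have hem : Measurable fun x => ‖v x‖ₑ := hvm.enorm
  set n : E3 → E3 := fun x => ‖v x‖⁻¹ • v x with hn
  have hnm : Measurable n := hvm.norm.inv.smul hvm
  refine ⟨(3 : ℝ≥0∞) • Measure.map n ((volume.restrict L).withDensity fun x => ‖v x‖ₑ), ?_, ?_⟩
  · intro E hE
    have hpre : MeasurableSet (n ⁻¹' E) := hnm hE
    rw [Measure.smul_apply, smul_eq_mul, Measure.map_apply hnm hE, withDensity_apply _ hpre,
      ← lintegral_indicator hpre, surf_eq_lintegral hL h0 hE]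
    congr 1
    refine lintegral_congr fun x => ?_
    by_cases hx : n x ∈ E
    · rw [indicator_of_mem (show x ∈ n ⁻¹' E from hx), indicator_of_mem
        (show ‖gradient (gauge L) x‖⁻¹ • gradient (gauge L) x ∈ E from hx), Pi.one_apply, mul_one]
    · rw [indicator_of_notMem (show x ∉ n ⁻¹' E from hx), indicator_of_notMem
        (show ‖gradient (gauge L) x‖⁻¹ • gradient (gauge L) x ∉ E from hx), mul_zero]
  · intro φ hφ hpos hhom
    have hψ : Measurable fun x => ENNReal.ofReal (φ x) := hφ.measurable.ennreal_ofReal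
    rw [lintegral_smul_measure, smul_eq_mul, lintegral_map hψ hnm]
    congr 1
    refine (lintegral_withDensity_eq_lintegral_mul _ hem (hψ.comp hnm)).trans ?_
    refine lintegral_congr fun x => ?_
    show ‖v x‖ₑ * ENNReal.ofReal (φ (n x)) = ENNReal.ofReal (φ (v x))
    by_cases h : v x = 0
    · have h1 : φ 0 = 0 := by
        have := hhom 0 le_rfl 0
        rwa [zero_smul, zero_mul] at this
      rw [h, enorm_zero, zero_mul, h1, ENNReal.ofReal_zero]
    · have h1 : φ (v x) = ‖v x‖ * φ (n x) := by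
        rw [← hhom _ (norm_nonneg _), hn]
        simp only
        rw [smul_smul, mul_inv_cancel₀ (norm_ne_zero_iff.2 h), one_smul]
      rw [h1, ENNReal.ofReal_mul (norm_nonneg _), ofReal_norm]

theorem surf_neg (K E : Set E3) : surf (-K) E = surf K (-E) := by
  have h1 : nset (-K) E = (fun x : E3 => -x) '' nset K (-E) := by
    have hfr : frontier (-K) = -frontier K := by
      have := (Homeomorph.neg E3).preimage_frontier K
      exact this.symm
    ext x
    constructor
    · rintro ⟨hx, u, hu, hu1, hn⟩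
      rw [hfr] at hx
      refine ⟨-x, ⟨hx, -u, by rw [Set.mem_neg, neg_neg]; exact hu, by rw [norm_neg]; exact hu1,
        fun y hy => ?_⟩, neg_neg x⟩
      have h2 := hn (-y) (by rw [Set.mem_neg, neg_neg]; exact hy)
      rw [inner_neg_right] at h2
      rw [inner_neg_left, inner_neg_neg]
      exact h2
    · rintro ⟨y, ⟨hy, u, hu, hu1, hn⟩, rfl⟩
      refine ⟨by rw [hfr, Set.mem_neg, neg_neg]; exact hy, -u, hu, by rw [norm_neg]; exact hu1,
        fun z hz => ?_⟩
      have h2 := hn (-z) hz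
      rw [inner_neg_right] at h2
      rw [inner_neg_left, inner_neg_neg]
      exact h2
  unfold surf
  rw [h1]
  exact (IsometryEquiv.neg E3).isometry.euclideanHausdorffMeasure_image _

theorem symm_zero_mem_interior {N : Set E3} (hN : IsBody N) (hs : ∀ x ∈ N, -x ∈ N) :
    (0 : E3) ∈ interior N := by
  obtain ⟨x, hx⟩ := hN.interior_nonempty
  have hNN : -N = N := by
    ext y
    rw [Set.mem_neg]
    exact ⟨fun h => by have := hs _ h; rwa [neg_neg] at this, fun h => hs _ h⟩
  have hx' : -x ∈ interior N := by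
    have h1 : (fun y : E3 => -y) ⁻¹' interior N = interior ((fun y : E3 => -y) ⁻¹' N) :=
      (Homeomorph.neg E3).preimage_interior N
    have h2 : (fun y : E3 => -y) ⁻¹' N = N := hNN
    rw [h2] at h1
    rw [← h1] at hx
    exact hx
  have h3 := hN.convex.interior hx hx' (a := 1 / 2) (b := 1 / 2) (by norm_num) (by norm_num)
    (by norm_num)
  rw [smul_neg, add_neg_cancel] at h3
  exact h3

theorem blaschke_integral {K N : Set E3} (hK : IsBody K) (h0 : (0 : E3) ∈ interior K)
    (hB : IsBlaschke K N) {φ : E3 → ℝ} (hφ : Continuous φ) (hpos : ∀ x, 0 ≤ φ x)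
    (hhom : ∀ t : ℝ, 0 ≤ t → ∀ x, φ (t • x) = t * φ x) (hsym : ∀ x, φ (-x) = φ x) :
    ∫ x in N, φ (gradient (gauge N) x) = ∫ x in K, φ (gradient (gauge K) x) := by
  have hN := hB.body
  have h0N := symm_zero_mem_interior hN hB.symm
  obtain ⟨νN, hN1, hN2⟩ := transfer_meas hN h0N
  obtain ⟨νK, hK1, hK2⟩ := transfer_meas hK h0
  have hneg : Measurable fun x : E3 => -x := measurable_neg
  have hψ : Measurable fun x => ENNReal.ofReal (φ x) := hφ.measurable.ennreal_ofReal
  have hmeas : (2 : ℝ≥0∞) • νN = νK + Measure.map (fun x : E3 => -x) νK := by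
    ext E hE
    have hE' : MeasurableSet (-E) := hneg hE
    rw [Measure.smul_apply, smul_eq_mul, Measure.add_apply, Measure.map_apply hneg hE, hN1 E hE,
      hB.surf_eq E hE, surf_neg, hK1 E hE]
    have h1 : νK ((fun x : E3 => -x) ⁻¹' E) = surf K (-E) := hK1 _ hE'
    rw [h1, ENNReal.mul_div_cancel two_ne_zero ENNReal.ofNat_ne_top]
  have h1 : ∫⁻ x, ENNReal.ofReal (φ x) ∂((2 : ℝ≥0∞) • νN) =
      ∫⁻ x, ENNReal.ofReal (φ x) ∂(νK + Measure.map (fun x : E3 => -x) νK) := by rw [hmeas]
  rw [lintegral_smul_measure, smul_eq_mul, lintegral_add_measure, lintegral_map hψ hneg] at h1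
  simp only [hsym] at h1
  rw [← two_mul, ENNReal.mul_right_inj two_ne_zero ENNReal.ofNat_ne_top, hN2 φ hφ hpos hhom,
    hK2 φ hφ hpos hhom, ENNReal.mul_right_inj three_ne_zero ENNReal.ofNat_ne_top] at h1
  rw [integral_eq_lintegral_of_nonneg_ae (Eventually.of_forall fun x => hpos _)
      (hφ.measurable.comp gg_meas.2).aestronglyMeasurable,
    integral_eq_lintegral_of_nonneg_ae (Eventually.of_forall fun x => hpos _)
      (hφ.measurable.comp gg_meas.2).aestronglyMeasurable, h1]

end Pool.Agent.Lib.MP_43065d_gt
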