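import Pool.Agent.Lib.MP_43065d_gt.Decomp

/-!
# Module VarLim: first variation of weighted volumes when one facet is moved

`P = poly A`, `P_ε = polyR A a (a + ε • b)`, `F = facet P S`, `ℓ y = ⟪b, S (y, 1)⟫`.

PROOF.  Let `p y = max_{c ∈ A, c ≠ a} ⟪c, S (y,1)⟫` (if `A = {a}` then `P` is unbounded, impossible).  Let `C = ‖b‖ R` and
`0 < ε`, `ε C ≤ 1/4`.
(1) If `⟪a, x⟫ ≤ 0` then `x ∈ P ⇔ x ∈ P_ε`: if `x ∈ P_ε` then the conditions of the `c ≠ a` hold and that of `a` too, so
`x ∈ P`; if `x ∈ P` then `‖x‖ ≤ R` and `⟪a + ε b, x⟫ ≤ ε C < 1`.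
So the integral is over `⟪a, x⟫ > 0` and `chart_polar` applies (to positive and negative parts, or prove the
Bochner version first: `∫_{⟪a,x⟫>0} f = jac S ∫ ∫ t^2 f (S (t • y, t))` for integrable `f`).
(2) For `x = S (t • y, t) = t • S (y,1)`, `t > 0`: `x ∈ P ⇔ t max (p y) 1 ≤ 1`, `x ∈ P_ε ⇔ t max (p y) (1 + ε ℓ y) ≤ 1`;
`y ∈ F ⇔ p y ≤ 1`.
(3) Domination.  `‖S (y,1)‖ ≤ R max (p y) 1` (the point `S (y,1) / max (p y) 1` is in `P`), so
`|ℓ y| ≤ C max (p y) 1`.  If the difference of the indicators is nonzero for some `t` then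
`max (p y) 1 ≠ max (p y) (1 + ε ℓ y)`, so `p y ≤ 1 + ε |ℓ y| ≤ 1 + (1/4) max (p y) 1`, hence `p y ≤ 2`, so
`‖S (y,1)‖ ≤ 2 R` (a bounded set `B` of `y`), `ε |ℓ y| ≤ 1/2`, `t ≤ 2` and the `t`-set has length
`|1 / max (p y) 1 - 1 / max (p y) (1 + ε ℓ y)| ≤ 2 ε |ℓ y| ≤ 4 ε C`.  So
`D_ε y := ε⁻¹ ∫_{t>0} t^2 (1_P - 1_{P_ε}) w_ε` satisfies `|D_ε y| ≤ 16 C 1_B y`.
(4) Pointwise limit.  `{y | p y = 1}` is null: it is contained in the union over `c ≠ a` of
`{y | ⟪c, S (y,1)⟫ = 1}`, which is a proper affine subspace of `E2` or empty: if `⟪c, S (y,1)⟫ = 1` for all `y` then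
`⟪c, S (y,t)⟫ = t = ⟪a, S (y,t)⟫` for all `(y,t)`, so `c = a` (surjectivity of `S`).
If `p y > 1` then for small `ε` both maxima are `p y` and `D_ε y = 0`.
If `p y < 1` then for small `ε` the maxima are `1` and `1 + ε ℓ y`: the integrand is `± t^2 w_ε (S (t • y, t))` for `t`
between `1 / (1 + ε ℓ y)` and `1` (sign `+` for `ℓ y > 0`), an interval of length `ε |ℓ y| (1 + o(1))` that shrinks to `1`,
so `D_ε y → ℓ y w0 y` by `hlim`.
Dominated convergence (`tendsto_integral_filter_of_dominated_convergence`; `𝓝[>] 0` is countably generated)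
gives the limit `jac S ∫_{p < 1} ℓ w0 = jac S ∫_F ℓ w0`.
-/

open MeasureTheory Set Filter Topology Metric
open scoped ENNReal NNReal Pointwise

namespace Pool.Agent.Lib.MP_43065d_gt

/-- the polar map of a chart -/
private def Psi (S : (E2 × ℝ) ≃L[ℝ] E3) (p : E2 × ℝ) : E3 := S (p.2 • p.1, p.2)

private theorem Psi_cont (S : (E2 × ℝ) ≃L[ℝ] E3) : Continuous (Psi S) := by
  unfold Psi
  exact S.continuous.comp ((continuous_snd.smul continuous_fst).prodMk continuous_snd)

private theorem Psi_eq (S : (E2 × ℝ) ≃L[ℝ] E3) (y : E2) (t : ℝ) :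
    S (t • y, t) = t • S (y, 1) := by
  rw [← map_smul]
  congr 1
  ext <;> simp

private noncomputable def nu0 : Measure (E2 × ℝ) :=
  (volume : Measure E2).prod ((volume : Measure ℝ).restrict (Ioi 0))

private instance : SFinite nu0 := by unfold nu0; infer_instance

private theorem polar_measure {a : E3} {S : (E2 × ℝ) ≃L[ℝ] E3} (hS : IsChart a S) :
    volume.restrict {x : E3 | 0 < inner ℝ a x} = ENNReal.ofReal (jac S) •
      Measure.map (Psi S) (nu0.withDensity (fun p => ((Real.toNNReal (p.2 ^ 2) : ℝ≥0) : ℝ≥0∞))) := by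
  have hd : Measurable (fun p : E2 × ℝ => ((Real.toNNReal (p.2 ^ 2) : ℝ≥0) : ℝ≥0∞)) :=
    (measurable_snd.pow_const 2).real_toNNReal.coe_nnreal_ennreal
  refine Measure.ext_of_lintegral _ fun f hf => ?_
  have hfm : Measurable (fun p => f (Psi S p)) := hf.comp (Psi_cont S).measurable
  rw [chart_polar hS hf, lintegral_smul_measure, lintegral_map hf (Psi_cont S).measurable,
    lintegral_withDensity_eq_lintegral_mul _ hd hfm, smul_eq_mul]
  congr 1
  unfold nu0
  rw [lintegral_prod _ (hd.mul hfm).aemeasurable]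
  rfl

/-- polar integration for Bochner integrals -/
private theorem polar_real {a : E3} {S : (E2 × ℝ) ≃L[ℝ] E3} (hS : IsChart a S) {f : E3 → ℝ}
    (hf : Measurable f) (hi : Integrable f) (h0 : ∀ x, inner ℝ a x ≤ 0 → f x = 0) :
    ∫ x, f x = jac S * ∫ y : E2, ∫ t in Ioi (0 : ℝ), t ^ 2 * f (S (t • y, t)) := by
  have hj := (jac_spec S).1
  have hd : Measurable (fun p : E2 × ℝ => Real.toNNReal (p.2 ^ 2)) :=
    (measurable_snd.pow_const 2).real_toNNReal
  have h1 : ∫ x, f x = ∫ x in {x : E3 | 0 < inner ℝ a x}, f x := by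
    symm
    refine setIntegral_eq_integral_of_forall_compl_eq_zero fun x hx => h0 x ?_
    simpa using hx
  have hi1 : Integrable f (volume.restrict {x : E3 | 0 < inner ℝ a x}) := hi.restrict
  have hj0 : ENNReal.ofReal (jac S) ≠ 0 := by
    rw [Ne, ENNReal.ofReal_eq_zero]; linarith
  rw [polar_measure hS, integrable_smul_measure hj0 ENNReal.ofReal_ne_top,
    integrable_map_measure hf.aestronglyMeasurable (Psi_cont S).measurable.aemeasurable,
    integrable_withDensity_iff_integrable_smul hd] at hi1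
  rw [h1, polar_measure hS, integral_smul_measure, ENNReal.toReal_ofReal hj.le, smul_eq_mul,
    integral_map (Psi_cont S).measurable.aemeasurable hf.aestronglyMeasurable,
    integral_withDensity_eq_integral_smul hd]
  congr 1
  unfold nu0 at hi1 ⊢
  have h2 := integral_prod _ hi1
  simp only [Function.comp] at h2
  rw [h2]
  refine integral_congr_ae (Eventually.of_forall fun y => ?_)
  refine integral_congr_ae (Eventually.of_forall fun t => ?_)
  simp only []
  rw [NNReal.smul_def, Real.coe_toNNReal _ (sq_nonneg t), smul_eq_mul]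
  rfl

/-- the set of the `t` where two indicators differ -/
private theorem ind_diff {M M' : ℝ} (hM : 0 < M) (hM' : 0 < M') (g : ℝ → ℝ) :
    ∫ t in Ioi (0 : ℝ), t ^ 2 * (((if t * M ≤ 1 then 1 else 0) - (if t * M' ≤ 1 then 1 else 0)) *
      g t) = ∫ t in (1 / M')..(1 / M), t ^ 2 * g t := by
  have e1 : ∀ t : ℝ, t * M ≤ 1 ↔ t ≤ 1 / M := fun t => by rw [le_div_iff₀ hM]
  have e2 : ∀ t : ℝ, t * M' ≤ 1 ↔ t ≤ 1 / M' := fun t => by rw [le_div_iff₀ hM']
  have p1 : 0 < 1 / M := by positivity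
  have p2 : 0 < 1 / M' := by positivity
  simp only [e1, e2]
  rcases le_total (1 / M') (1 / M) with h | h
  · rw [intervalIntegral.integral_of_le h]
    have h1 : ∀ t : ℝ, t ^ 2 * (((if t ≤ 1 / M then 1 else 0) - (if t ≤ 1 / M' then 1 else 0)) *
        g t) = (Ioc (1 / M') (1 / M)).indicator (fun t => t ^ 2 * g t) t := by
      intro t
      by_cases h2 : t ≤ 1 / M'
      · have h3 : t ≤ 1 / M := h2.trans h
        rw [indicator_of_notMem (fun h => absurd h.1 (not_lt.2 h2)), if_pos h2, if_pos h3]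
        ring
      · by_cases h3 : t ≤ 1 / M
        · rw [indicator_of_mem (show t ∈ Ioc _ _ from ⟨not_le.1 h2, h3⟩), if_neg h2, if_pos h3]
          ring
        · rw [indicator_of_notMem (fun h => h3 h.2), if_neg h2, if_neg h3]
          ring
    simp only [h1]
    rw [setIntegral_indicator measurableSet_Ioc]
    congr 2
    ext t
    simp only [mem_inter_iff, mem_Ioi, mem_Ioc]
    constructor
    · rintro ⟨_, h⟩; exact h
    · intro h; exact ⟨p2.trans h.1, h⟩
  · rw [intervalIntegral.integral_of_ge h, ← integral_neg]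
    have h1 : ∀ t : ℝ, t ^ 2 * (((if t ≤ 1 / M then 1 else 0) - (if t ≤ 1 / M' then 1 else 0)) *
        g t) = (Ioc (1 / M) (1 / M')).indicator (fun t => -(t ^ 2 * g t)) t := by
      intro t
      by_cases h2 : t ≤ 1 / M
      · have h3 : t ≤ 1 / M' := h2.trans h
        rw [indicator_of_notMem (fun h => absurd h.1 (not_lt.2 h2)), if_pos h2, if_pos h3]
        ring
      · by_cases h3 : t ≤ 1 / M'
        · rw [indicator_of_mem (show t ∈ Ioc _ _ from ⟨not_le.1 h2, h3⟩), if_neg h2, if_pos h3]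
          ring
        · rw [indicator_of_notMem (fun h => h3 h.2), if_neg h2, if_neg h3]
          ring
    simp only [h1]
    rw [setIntegral_indicator measurableSet_Ioc]
    congr 2
    ext t
    simp only [mem_inter_iff, mem_Ioi, mem_Ioc]
    constructor
    · rintro ⟨_, h⟩; exact h
    · intro h; exact ⟨p1.trans h.1, h⟩

private theorem lim_aux {G : ℝ × ℝ → ℝ} {g0 l : ℝ}
    (hG : Tendsto G (𝓝[>] 0 ×ˢ 𝓝 1) (𝓝 g0))
    (hI : ∀ᶠ ε in 𝓝[>] (0 : ℝ), IntervalIntegrable (fun t => G (ε, t)) volume (1 / (1 + ε * l)) 1) :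
    Tendsto (fun ε : ℝ => ε⁻¹ * ∫ t in (1 / (1 + ε * l))..1, G (ε, t)) (𝓝[>] 0) (𝓝 (l * g0)) := by
  have hc1 : Tendsto (fun ε : ℝ => 1 + ε * l) (𝓝[>] 0) (𝓝 1) := by
    have h1 : Continuous (fun ε : ℝ => 1 + ε * l) := by fun_prop
    have h2 := h1.tendsto 0
    rw [zero_mul, add_zero] at h2
    exact h2.mono_left nhdsWithin_le_nhds
  have hs : Tendsto (fun ε : ℝ => 1 / (1 + ε * l)) (𝓝[>] 0) (𝓝 1) := by
    have h1 := (tendsto_const_nhds (x := (1 : ℝ))).div hc1 one_ne_zero
    rwa [div_one] at h1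
  have hne : ∀ᶠ ε in 𝓝[>] (0 : ℝ), 1 + ε * l ≠ 0 := hc1.eventually_ne one_ne_zero
  have hq : Tendsto (fun ε : ℝ => ε⁻¹ * (1 - 1 / (1 + ε * l))) (𝓝[>] 0) (𝓝 l) := by
    have h1 : (fun ε : ℝ => ε⁻¹ * (1 - 1 / (1 + ε * l))) =ᶠ[𝓝[>] 0]
        fun ε => l * (1 / (1 + ε * l)) := by
      filter_upwards [hne, self_mem_nhdsWithin] with ε h1 h2
      have h3 : ε ≠ 0 := ne_of_gt h2
      field_simp
      ring
    rw [tendsto_congr' h1]
    simpa using hs.const_mul l
  have key : Tendsto (fun ε : ℝ => ε⁻¹ * ∫ t in (1 / (1 + ε * l))..1, (G (ε, t) - g0)) (𝓝[>] 0)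
      (𝓝 0) := by
    rw [Metric.tendsto_nhds]
    intro δ hδ
    have hl : 0 < |l| + 1 := by positivity
    have hδ' : 0 < δ / (|l| + 2) := by positivity
    have h1 := hG (Metric.ball_mem_nhds g0 hδ')
    obtain ⟨U, hU, V, hV, hUV⟩ := Filter.mem_prod_iff.1 h1
    obtain ⟨ρ, hρ, hρV⟩ := Metric.mem_nhds_iff.1 hV
    have h2 : ∀ᶠ ε in 𝓝[>] (0 : ℝ), |ε⁻¹ * (1 - 1 / (1 + ε * l))| < |l| + 1 :=
      hq.abs.eventually (gt_mem_nhds (by linarith))
    have h3 : ∀ᶠ ε in 𝓝[>] (0 : ℝ), |1 / (1 + ε * l) - 1| < ρ := by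
      have := (Metric.tendsto_nhds.1 hs) ρ hρ
      simpa [Real.dist_eq] using this
    filter_upwards [h2, h3, hU, self_mem_nhdsWithin] with ε h2 h3 h4 h5
    have hε : 0 < ε := h5
    rw [Real.dist_eq, sub_zero]
    have h6 : ‖∫ t in (1 / (1 + ε * l))..1, (G (ε, t) - g0)‖ ≤
        δ / (|l| + 2) * |1 - 1 / (1 + ε * l)| := by
      refine intervalIntegral.norm_integral_le_of_norm_le_const fun t ht => ?_
      have h7 : t ∈ ball (1 : ℝ) ρ := by
        rw [Metric.mem_ball, Real.dist_eq]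
        have h8 := abs_lt.1 h3
        rcases Set.mem_uIoc.1 ht with h | h
        · rw [abs_lt]; constructor <;> linarith [h.1, h.2]
        · rw [abs_lt]; constructor <;> linarith [h.1, h.2]
      have h9 : (ε, t) ∈ U ×ˢ V := ⟨h4, hρV h7⟩
      have h10 := hUV h9
      rw [Set.mem_preimage, Metric.mem_ball, Real.dist_eq] at h10
      exact h10.le
    rw [Real.norm_eq_abs] at h6
    rw [abs_mul, abs_of_pos (inv_pos.2 hε)] at h2 ⊢
    calc ε⁻¹ * |∫ t in (1 / (1 + ε * l))..1, (G (ε, t) - g0)|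
        ≤ ε⁻¹ * (δ / (|l| + 2) * |1 - 1 / (1 + ε * l)|) :=
          mul_le_mul_of_nonneg_left h6 (by positivity)
      _ = δ / (|l| + 2) * (ε⁻¹ * |1 - 1 / (1 + ε * l)|) := by ring
      _ ≤ δ / (|l| + 2) * (|l| + 1) := mul_le_mul_of_nonneg_left h2.le hδ'.le
      _ < δ := by
          rw [div_mul_eq_mul_div, div_lt_iff₀ (by positivity)]
          nlinarith [abs_nonneg l]
  have h8 : (fun ε : ℝ => ε⁻¹ * ∫ t in (1 / (1 + ε * l))..1, G (ε, t)) =ᶠ[𝓝[>] 0]
      fun ε => ε⁻¹ * (∫ t in (1 / (1 + ε * l))..1, (G (ε, t) - g0)) +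
        (ε⁻¹ * (1 - 1 / (1 + ε * l))) * g0 := by
    filter_upwards [hI] with ε h
    rw [intervalIntegral.integral_sub h intervalIntegrable_const, intervalIntegral.integral_const,
      smul_eq_mul]
    ring
  rw [tendsto_congr' h8]
  simpa using key.add (hq.mul_const g0)


open Classical in
/-- the maximum of the other constraints -/
private noncomputable def pp (A : Finset E3) (a : E3) (S : (E2 × ℝ) ≃L[ℝ] E3) (y : E2) : ℝ≥0 :=
  A.sup (fun c => if c = a then 0 else (inner ℝ c (S (y, 1)) : ℝ).toNNReal)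

private theorem pp_le {A : Finset E3} {a : E3} {S : (E2 × ℝ) ≃L[ℝ] E3} {y : E2} {t : ℝ}
    (ht : 0 ≤ t) : ((pp A a S y : ℝ) ≤ t) ↔ ∀ c ∈ A, c ≠ a → inner ℝ c (S (y, 1)) ≤ t := by
  lift t to ℝ≥0 using ht
  rw [NNReal.coe_le_coe, pp, Finset.sup_le_iff]
  refine forall₂_congr fun c hc => ?_
  by_cases h : c = a
  · simp [h]
  · simp [h, Real.toNNReal_le_iff_le_coe]

private theorem mem_poly_iff {A : Finset E3} {a : E3} (ha : a ∈ A) {S : (E2 × ℝ) ≃L[ℝ] E3}
    (hS : IsChart a S) (y : E2) {t : ℝ} (ht : 0 < t) :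
    S (t • y, t) ∈ poly A ↔ t * max (pp A a S y : ℝ) 1 ≤ 1 := by
  rw [Psi_eq, mul_comm, ← le_div_iff₀ ht, max_le_iff, pp_le (by positivity)]
  constructor
  · intro h
    refine ⟨fun c hc _ => ?_, ?_⟩
    · have h1 := h c hc
      rw [inner_smul_right] at h1
      rw [le_div_iff₀ ht]
      linarith
    · have h1 := h a ha
      rw [inner_smul_right, hS y 1] at h1
      rw [le_div_iff₀ ht]
      linarith
  · rintro ⟨h1, h2⟩ c hc
    rw [inner_smul_right]
    by_cases h : c = a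
    · rw [h, hS y 1]
      rw [le_div_iff₀ ht] at h2
      linarith
    · have h3 := h1 c hc h
      rw [le_div_iff₀ ht] at h3
      linarith

private theorem mem_polyR_iff {A : Finset E3} {a : E3} {S : (E2 × ℝ) ≃L[ℝ] E3}
    (hS : IsChart a S) (b : E3) (ε : ℝ) (y : E2) {t : ℝ} (ht : 0 < t) :
    S (t • y, t) ∈ polyR A a (a + ε • b) ↔
      t * max (pp A a S y : ℝ) (1 + ε * inner ℝ b (S (y, 1))) ≤ 1 := by
  rw [Psi_eq, mul_comm, ← le_div_iff₀ ht, max_le_iff, pp_le (by positivity)]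
  have h0 : inner ℝ (a + ε • b) (t • S (y, 1)) = t * (1 + ε * inner ℝ b (S (y, 1))) := by
    rw [inner_smul_right, inner_add_left, hS y 1, real_inner_smul_left]
  constructor
  · rintro ⟨h1, h2⟩
    refine ⟨fun c hc hca => ?_, ?_⟩
    · have h3 := h1 c hc hca
      rw [inner_smul_right] at h3
      rw [le_div_iff₀ ht]
      linarith
    · rw [h0] at h2
      rw [le_div_iff₀ ht]
      linarith
  · rintro ⟨h1, h2⟩
    refine ⟨fun c hc hca => ?_, ?_⟩
    · have h3 := h1 c hc hca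
      rw [inner_smul_right]
      rw [le_div_iff₀ ht] at h3
      linarith
    · rw [h0]
      rw [le_div_iff₀ ht] at h2
      linarith

private theorem R_nonneg {A : Finset E3} {r R : ℝ} (hr : 0 < r) (h1 : closedBall 0 r ⊆ poly A)
    (h2 : poly A ⊆ closedBall 0 R) : 0 ≤ R := by
  have h := h2 (h1 (mem_closedBall_self hr.le))
  rw [mem_closedBall, dist_self] at h
  exact h

private theorem norm_S_le {A : Finset E3} {R : ℝ} (h2 : poly A ⊆ closedBall 0 R) {a : E3}
    (ha : a ∈ A) {S : (E2 × ℝ) ≃L[ℝ] E3} (hS : IsChart a S) (y : E2) :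
    ‖S (y, 1)‖ ≤ R * max (pp A a S y : ℝ) 1 := by
  set M := max (pp A a S y : ℝ) 1 with hM
  have hM1 : 1 ≤ M := le_max_right _ _
  have hM0 : 0 < M := by linarith
  have h3 : S ((1 / M) • y, 1 / M) ∈ poly A := by
    rw [mem_poly_iff ha hS y (by positivity), ← hM, one_div, inv_mul_cancel₀ hM0.ne']
  have h4 := h2 h3
  rw [Psi_eq, mem_closedBall, dist_zero_right, norm_smul, Real.norm_of_nonneg (by positivity),
    one_div, inv_mul_le_iff₀ hM0] at h4
  linarith

/-- the bounds for the two maxima -/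
private theorem max_facts {A : Finset E3} {r R : ℝ} (hr : 0 < r) (h1 : closedBall 0 r ⊆ poly A)
    (h2 : poly A ⊆ closedBall 0 R) {a : E3} (ha : a ∈ A) {S : (E2 × ℝ) ≃L[ℝ] E3}
    (hS : IsChart a S) (b : E3) {ε : ℝ} (hε : 0 < ε) (hε1 : ε * (‖b‖ * R) ≤ 1 / 4) (y : E2) :
    |ε * inner ℝ b (S (y, 1))| ≤ ε * (‖b‖ * R) * max (pp A a S y : ℝ) 1 ∧
    3 / 4 * max (pp A a S y : ℝ) 1 ≤ max (pp A a S y : ℝ) (1 + ε * inner ℝ b (S (y, 1))) := by
  have hR := R_nonneg hr h1 h2
  have h3 := norm_S_le h2 ha hS y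
  set p : ℝ := (pp A a S y : ℝ)
  set M := max p 1 with hM
  have hM1 : 1 ≤ M := le_max_right _ _
  have h4 := abs_real_inner_le_norm b (S (y, 1))
  have h5 : |ε * inner ℝ b (S (y, 1))| ≤ ε * (‖b‖ * R) * M := by
    rw [abs_mul, abs_of_pos hε]
    calc ε * |inner ℝ b (S (y, 1))| ≤ ε * (‖b‖ * (R * M)) := by
          refine mul_le_mul_of_nonneg_left (h4.trans ?_) hε.le
          exact mul_le_mul_of_nonneg_left h3 (norm_nonneg _)
      _ = ε * (‖b‖ * R) * M := by ring
  refine ⟨h5, ?_⟩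
  have h6 : |ε * inner ℝ b (S (y, 1))| ≤ 1 / 4 * M :=
    h5.trans (mul_le_mul_of_nonneg_right hε1 (by linarith))
  have h7 := (abs_le.1 h6).1
  rcases le_total p 1 with h | h
  · have h8 : M = 1 := max_eq_right h
    rw [h8] at h7 ⊢
    refine le_trans ?_ (le_max_right _ _)
    linarith
  · have h8 : M = p := max_eq_left h
    rw [h8] at hM1 ⊢
    refine le_trans ?_ (le_max_left _ _)
    linarith

/-- the weighted difference of the two indicators -/
private noncomputable def DD (A : Finset E3) (a b : E3) (w : ℝ → E3 → ℝ) (ε : ℝ) (x : E3) : ℝ :=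
  ((poly A).indicator (fun _ => (1 : ℝ)) x -
    (polyR A a (a + ε • b)).indicator (fun _ => (1 : ℝ)) x) * w ε x

private theorem isClosed_poly (A : Finset E3) : IsClosed (poly A) := by
  have h : poly A = ⋂ a ∈ A, {x | inner ℝ a x ≤ 1} := by
    ext x; simp [poly]
  rw [h]
  exact isClosed_biInter fun a _ => isClosed_le (by fun_prop) continuous_const

private theorem isClosed_polyR (A : Finset E3) (a a' : E3) : IsClosed (polyR A a a') := by
  have h : polyR A a a' = (⋂ c ∈ A, ⋂ _ : c ≠ a, {x | inner ℝ c x ≤ 1}) ∩ {x | inner ℝ a' x ≤ 1} := by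
    ext x; simp [polyR]
  rw [h]
  exact (isClosed_biInter fun c _ => isClosed_iInter fun _ =>
    isClosed_le (by fun_prop) continuous_const).inter (isClosed_le (by fun_prop) continuous_const)

private theorem DD_meas {A : Finset E3} {a b : E3} {w : ℝ → E3 → ℝ} (hw : ∀ ε, Measurable (w ε))
    (ε : ℝ) : Measurable (DD A a b w ε) := by
  unfold DD
  exact ((measurable_const.indicator (isClosed_poly A).measurableSet).sub
    (measurable_const.indicator (isClosed_polyR A a _).measurableSet)).mul (hw ε)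

/-- the points with `⟪a, x⟫ ≤ 0` do not count -/
private theorem DD_zero {A : Finset E3} {R : ℝ} (h2 : poly A ⊆ closedBall 0 R) {a : E3}
    (b : E3) (w : ℝ → E3 → ℝ) {ε : ℝ} (hε : 0 < ε) (hε1 : ε * (‖b‖ * R) ≤ 1 / 4) {x : E3}
    (hx : inner ℝ a x ≤ 0) : DD A a b w ε x = 0 := by
  have h3 : x ∈ poly A ↔ x ∈ polyR A a (a + ε • b) := by
    constructor
    · intro h
      refine ⟨fun c hc _ => h c hc, ?_⟩
      have h4 := h2 h
      rw [mem_closedBall, dist_zero_right] at h4
      rw [inner_add_left, real_inner_smul_left]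
      have h5 := (abs_le.1 (abs_real_inner_le_norm b x)).2
      have h6 : ε * inner ℝ b x ≤ ε * (‖b‖ * R) :=
        mul_le_mul_of_nonneg_left (h5.trans (mul_le_mul_of_nonneg_left h4 (norm_nonneg _))) hε.le
      linarith
    · rintro ⟨h, _⟩ c hc
      by_cases hca : c = a
      · rw [hca]; linarith
      · exact h c hc hca
  unfold DD
  by_cases h : x ∈ poly A
  · rw [indicator_of_mem h, indicator_of_mem (h3.1 h)]; ring
  · rw [indicator_of_notMem h, indicator_of_notMem (fun h' => h (h3.2 h'))]; ring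

private theorem polyR_sub {A : Finset E3} {R : ℝ} (h2 : poly A ⊆ closedBall 0 R) (hR : 0 ≤ R)
    {a : E3} (b : E3) {ε : ℝ} (hε : 0 < ε) (hε1 : ε * (‖b‖ * R) ≤ 1 / 4) :
    polyR A a (a + ε • b) ⊆ closedBall 0 (2 * R) := by
  rintro x ⟨h3, h4⟩
  set s := max 1 (inner ℝ a x) with hs
  have hs1 : 1 ≤ s := le_max_left _ _
  have hs0 : 0 < s := by linarith
  have h5 : (1 / s) • x ∈ poly A := by
    intro c hc
    rw [inner_smul_right, one_div, inv_mul_le_iff₀ hs0, mul_one]
    by_cases hca : c = a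
    · rw [hca]; exact le_max_right _ _
    · exact (h3 c hc hca).trans hs1
  have h6 := h2 h5
  rw [mem_closedBall, dist_zero_right, norm_smul, Real.norm_of_nonneg (by positivity),
    one_div, inv_mul_le_iff₀ hs0] at h6
  rw [mem_closedBall, dist_zero_right]
  have h7 : s ≤ 2 := by
    by_contra hcon
    push Not at hcon
    have h8 : s = inner ℝ a x := by
      rw [hs]
      refine max_eq_right ?_
      by_contra h9
      push Not at h9
      have : s = 1 := max_eq_left h9.le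
      linarith
    rw [inner_add_left, real_inner_smul_left, ← h8] at h4
    have h9 := (abs_le.1 (abs_real_inner_le_norm b x)).1
    have h10 : ε * (‖b‖ * ‖x‖) ≤ 1 / 4 * s := by
      calc ε * (‖b‖ * ‖x‖) ≤ ε * (‖b‖ * (s * R)) := by
            refine mul_le_mul_of_nonneg_left ?_ hε.le
            exact mul_le_mul_of_nonneg_left h6 (norm_nonneg _)
        _ = ε * (‖b‖ * R) * s := by ring
        _ ≤ 1 / 4 * s := mul_le_mul_of_nonneg_right hε1 hs0.le
    nlinarith
  nlinarith

private theorem DD_int {A : Finset E3} {r R : ℝ} (hr : 0 < r) (h1 : closedBall 0 r ⊆ poly A)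
    (h2 : poly A ⊆ closedBall 0 R) {a : E3} (b : E3) {w : ℝ → E3 → ℝ}
    (hw : ∀ ε, Measurable (w ε)) (hw1 : ∀ ε x, |w ε x| ≤ 1) {ε : ℝ} (hε : 0 < ε)
    (hε1 : ε * (‖b‖ * R) ≤ 1 / 4) : Integrable (DD A a b w ε) := by
  have hR := R_nonneg hr h1 h2
  have hg : Integrable ((closedBall (0 : E3) (2 * R)).indicator fun _ => (1 : ℝ)) :=
    (integrable_indicator_iff measurableSet_closedBall).2
      (integrableOn_const (measure_closedBall_lt_top.ne))
  refine hg.mono' (DD_meas hw ε).aestronglyMeasurable (Eventually.of_forall fun x => ?_)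
  rw [Real.norm_eq_abs]
  unfold DD
  rw [abs_mul]
  by_cases hx : x ∈ closedBall (0 : E3) (2 * R)
  · rw [indicator_of_mem hx (fun _ => (1 : ℝ))]
    have h3 : |(poly A).indicator (fun _ => (1 : ℝ)) x -
        (polyR A a (a + ε • b)).indicator (fun _ => (1 : ℝ)) x| ≤ 1 := by
      by_cases h4 : x ∈ poly A <;> by_cases h5 : x ∈ polyR A a (a + ε • b) <;> simp [h4, h5]
    exact mul_le_one₀ h3 (abs_nonneg _) (hw1 ε x)
  · rw [indicator_of_notMem hx]
    have h4 : x ∉ poly A := fun h => hx (closedBall_subset_closedBall (by linarith) (h2 h))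
    have h5 : x ∉ polyR A a (a + ε • b) := fun h => hx (polyR_sub h2 hR b hε hε1 h)
    rw [indicator_of_notMem h4, indicator_of_notMem h5]
    simp

/-- the inner integral -/
private theorem inner_int {A : Finset E3} {r R : ℝ} (hr : 0 < r) (h1 : closedBall 0 r ⊆ poly A)
    (h2 : poly A ⊆ closedBall 0 R) {a : E3} (ha : a ∈ A) {S : (E2 × ℝ) ≃L[ℝ] E3}
    (hS : IsChart a S) (b : E3) (w : ℝ → E3 → ℝ) {ε : ℝ} (hε : 0 < ε)
    (hε1 : ε * (‖b‖ * R) ≤ 1 / 4) (y : E2) :
    ∫ t in Ioi (0 : ℝ), t ^ 2 * DD A a b w ε (S (t • y, t)) =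
      ∫ t in (1 / max (pp A a S y : ℝ) (1 + ε * inner ℝ b (S (y, 1))))..
        (1 / max (pp A a S y : ℝ) 1), t ^ 2 * w ε (S (t • y, t)) := by
  obtain ⟨-, h3⟩ := max_facts hr h1 h2 ha hS b hε hε1 y
  have hM1 : 1 ≤ max (pp A a S y : ℝ) 1 := le_max_right _ _
  rw [← ind_diff (M := max (pp A a S y : ℝ) 1) (by linarith)
    (M' := max (pp A a S y : ℝ) (1 + ε * inner ℝ b (S (y, 1)))) (by linarith)
    (fun t => w ε (S (t • y, t)))]
  refine setIntegral_congr_fun measurableSet_Ioi fun t ht => ?_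
  have ht' : 0 < t := ht
  have e1 := mem_poly_iff ha hS y ht'
  have e2 := mem_polyR_iff (A := A) hS b ε y ht'
  simp only [DD]
  congr 2
  congr 1
  · by_cases h : S (t • y, t) ∈ poly A
    · rw [indicator_of_mem h, if_pos (e1.1 h)]
    · rw [indicator_of_notMem h, if_neg (fun h' => h (e1.2 h'))]
  · by_cases h : S (t • y, t) ∈ polyR A a (a + ε • b)
    · rw [indicator_of_mem h, if_pos (e2.1 h)]
    · rw [indicator_of_notMem h, if_neg (fun h' => h (e2.2 h'))]

private theorem inner_bd {A : Finset E3} {r R : ℝ} (hr : 0 < r) (h1 : closedBall 0 r ⊆ poly A)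
    (h2 : poly A ⊆ closedBall 0 R) {a : E3} (ha : a ∈ A) {S : (E2 × ℝ) ≃L[ℝ] E3}
    (hS : IsChart a S) (b : E3) {w : ℝ → E3 → ℝ} (hw1 : ∀ ε x, |w ε x| ≤ 1) {ε : ℝ} (hε : 0 < ε)
    (hε1 : ε * (‖b‖ * R) ≤ 1 / 4) (y : E2) :
    ‖ε⁻¹ * ∫ t in Ioi (0 : ℝ), t ^ 2 * DD A a b w ε (S (t • y, t))‖ ≤
      (closedBall (0 : E2) (‖(S.symm : E3 →L[ℝ] (E2 × ℝ))‖ * (2 * R))).indicator
        (fun _ => 3 * (‖b‖ * R)) y := by
  have hR := R_nonneg hr h1 h2
  rw [inner_int hr h1 h2 ha hS b w hε hε1 y]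
  obtain ⟨h3, h4⟩ := max_facts hr h1 h2 ha hS b hε hε1 y
  have h5 := norm_S_le h2 ha hS y
  set p : ℝ := (pp A a S y : ℝ)
  set l : ℝ := ε * inner ℝ b (S (y, 1))
  set M := max p 1 with hM
  set N := max p (1 + l) with hN
  have hM1 : 1 ≤ M := le_max_right _ _
  have hN0 : 0 < N := by linarith
  by_cases hy : y ∈ closedBall (0 : E2) (‖(S.symm : E3 →L[ℝ] (E2 × ℝ))‖ * (2 * R))
  · rw [indicator_of_mem hy]
    have h6 : |N - M| ≤ |l| := by
      have := abs_max_sub_max_le_abs (1 + l) 1 p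
      rw [max_comm (1 + l) p, max_comm 1 p, ← hM, ← hN] at this
      simpa using this
    have h7 : ‖∫ t in (1 / N)..(1 / M), t ^ 2 * w ε (S (t • y, t))‖ ≤ 16 / 9 * |1 / M - 1 / N| := by
      refine intervalIntegral.norm_integral_le_of_norm_le_const fun t ht => ?_
      have h8 : 1 / N ≤ 4 / 3 := by
        rw [div_le_iff₀ hN0]; linarith
      have h9 : 1 / M ≤ 1 := by
        rw [div_le_iff₀ (by linarith)]; linarith
      have h10 : 0 < 1 / N := by positivity
      have h11 : 0 < 1 / M := by positivity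
      have ht0 : 0 < t ∧ t ≤ 4 / 3 := by
        rcases Set.mem_uIoc.1 ht with h | h
        · exact ⟨by linarith [h.1], by linarith [h.2]⟩
        · exact ⟨by linarith [h.1], by linarith [h.2]⟩
      rw [norm_mul, Real.norm_eq_abs, Real.norm_eq_abs, abs_of_nonneg (sq_nonneg t)]
      have h12 : t ^ 2 ≤ 16 / 9 := by nlinarith
      calc t ^ 2 * |w ε (S (t • y, t))| ≤ t ^ 2 * 1 :=
            mul_le_mul_of_nonneg_left (hw1 _ _) (sq_nonneg t)
        _ ≤ 16 / 9 := by linarith
    have h8 : |1 / M - 1 / N| ≤ 4 / 3 * (ε * (‖b‖ * R)) := by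
      have e1 : 1 / M - 1 / N = (N - M) / (M * N) := by
        have := hN0.ne'
        have : M ≠ 0 := by linarith
        field_simp
      rw [e1, abs_div, abs_of_pos (by positivity : 0 < M * N), div_le_iff₀ (by positivity)]
      have h9 : |N - M| ≤ ε * (‖b‖ * R) * M := h6.trans h3
      have h10 : 0 ≤ ε * (‖b‖ * R) := by positivity
      calc |N - M| ≤ ε * (‖b‖ * R) * M := h9
        _ ≤ ε * (‖b‖ * R) * (M * M) := by
            refine mul_le_mul_of_nonneg_left ?_ h10
            nlinarith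
        _ ≤ 4 / 3 * (ε * (‖b‖ * R)) * (M * N) := by
            have : M * M ≤ 4 / 3 * (M * N) := by nlinarith
            calc ε * (‖b‖ * R) * (M * M) ≤ ε * (‖b‖ * R) * (4 / 3 * (M * N)) :=
                  mul_le_mul_of_nonneg_left this h10
              _ = 4 / 3 * (ε * (‖b‖ * R)) * (M * N) := by ring
    rw [norm_mul, norm_inv, Real.norm_of_nonneg hε.le]
    have h9 : 0 ≤ ‖b‖ * R := by positivity
    calc ε⁻¹ * ‖∫ t in (1 / N)..(1 / M), t ^ 2 * w ε (S (t • y, t))‖
        ≤ ε⁻¹ * (16 / 9 * (4 / 3 * (ε * (‖b‖ * R)))) := by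
          refine mul_le_mul_of_nonneg_left (h7.trans ?_) (by positivity)
          linarith
      _ = 64 / 27 * (‖b‖ * R) := by field_simp; ring
      _ ≤ 3 * (‖b‖ * R) := by nlinarith
  · rw [indicator_of_notMem hy]
    have h6 : 2 * R < ‖S (y, 1)‖ := by
      by_contra hcon
      push Not at hcon
      apply hy
      rw [mem_closedBall, dist_zero_right]
      have h7 : ‖y‖ ≤ ‖((y, 1) : E2 × ℝ)‖ := by
        rw [Prod.norm_def]; exact le_max_left _ _
      have h8 : ‖((y, 1) : E2 × ℝ)‖ ≤ ‖(S.symm : E3 →L[ℝ] (E2 × ℝ))‖ * ‖S (y, 1)‖ := by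
        have := (S.symm : E3 →L[ℝ] (E2 × ℝ)).le_opNorm (S (y, 1))
        simpa using this
      exact h7.trans (h8.trans (mul_le_mul_of_nonneg_left hcon (norm_nonneg _)))
    have h7 : 2 < M := by
      by_contra hcon
      push Not at hcon
      nlinarith
    have h8 : M = p := by
      rw [hM]
      refine max_eq_left ?_
      by_contra h9
      push Not at h9
      have : M = 1 := max_eq_right h9.le
      linarith
    have h9 : N = p := by
      rw [hN]
      refine max_eq_left ?_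
      have h10 := (abs_le.1 h3).2
      have h11 : ε * (‖b‖ * R) * M ≤ 1 / 4 * M := mul_le_mul_of_nonneg_right hε1 (by linarith)
      linarith
    rw [h8, h9, intervalIntegral.integral_same, mul_zero, norm_zero]

private theorem level_null {c a : E3} (hca : c ≠ a) {S : (E2 × ℝ) ≃L[ℝ] E3} (hS : IsChart a S) :
    volume {y : E2 | inner ℝ c (S (y, 1)) = (1 : ℝ)} = 0 := by
  rcases Set.eq_empty_or_nonempty {y : E2 | inner ℝ c (S (y, 1)) = (1 : ℝ)} with h | ⟨y0, hy0⟩
  · rw [h, measure_empty]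
  · have hy0' : inner ℝ c (S (y0, 1)) = (1 : ℝ) := hy0
    let φ : E2 →ₗ[ℝ] ℝ :=
      { toFun := fun y => inner ℝ c (S (y, 0))
        map_add' := fun y y' => by
          rw [← inner_add_right, ← map_add]; simp
        map_smul' := fun t y => by
          rw [RingHom.id_apply, smul_eq_mul, ← inner_smul_right, ← map_smul]; simp }
    have hlin : ∀ y : E2, ∀ t : ℝ, inner ℝ c (S (y, t)) = φ (y - y0) + inner ℝ c (S (y0, t)) := by
      intro y t
      change _ = inner ℝ c (S (y - y0, 0)) + _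
      rw [← inner_add_right, ← map_add]
      congr 2
      ext <;> simp
    have hker : LinearMap.ker φ ≠ ⊤ := by
      intro htop
      have h0 : ∀ y, φ y = 0 := fun y => by
        have : y ∈ LinearMap.ker φ := by rw [htop]; trivial
        exact this
      apply hca
      have h1 : ∀ y : E2, ∀ t : ℝ, inner ℝ c (S (y, t)) = inner ℝ a (S (y, t)) := by
        intro y t
        rw [hS y t, hlin, h0, zero_add]
        have h2 : S (y0, t) = t • S (y0, 1) + S (y0 - t • y0, 0) := by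
          rw [← map_smul, ← map_add]
          congr 1
          ext <;> simp
        have h3 : inner ℝ c (S (y0 - t • y0, 0)) = (0 : ℝ) := h0 (y0 - t • y0)
        rw [h2, inner_add_right, inner_smul_right, hy0', h3]
        ring
      refine ext_inner_right ℝ fun v => ?_
      obtain ⟨⟨y, t⟩, rfl⟩ := S.surjective v
      exact h1 y t
    have hsub : {y : E2 | inner ℝ c (S (y, 1)) = (1 : ℝ)} ⊆
        (AffineSubspace.mk' y0 (LinearMap.ker φ) : Set E2) := by
      intro y hy
      have hy' : inner ℝ c (S (y, 1)) = (1 : ℝ) := hy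
      rw [SetLike.mem_coe, AffineSubspace.mem_mk', vsub_eq_sub, LinearMap.mem_ker]
      have := hlin y 1
      rw [hy', hy0'] at this
      linarith
    refine measure_mono_null hsub (Measure.addHaar_affineSubspace volume _ fun h => hker ?_)
    have h1 := congrArg AffineSubspace.direction h
    rwa [AffineSubspace.direction_mk', AffineSubspace.direction_top] at h1

private theorem pp_null {A : Finset E3} {a : E3} {S : (E2 × ℝ) ≃L[ℝ] E3} (hS : IsChart a S) :
    ∀ᵐ y : E2, (pp A a S y : ℝ) ≠ 1 := by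
  classical
  have h1 : ∀ᵐ y : E2, ∀ c ∈ (A : Set E3), c ≠ a → inner ℝ c (S (y, 1)) ≠ (1 : ℝ) := by
    refine (ae_ball_iff A.countable_toSet).2 ?_
    intro c _
    by_cases hca : c = a
    · exact Eventually.of_forall fun y h => absurd hca h
    · have h2 : ∀ᵐ y : E2, inner ℝ c (S (y, 1)) ≠ (1 : ℝ) := by
        rw [ae_iff]
        simpa using level_null hca hS
      filter_upwards [h2] with y hy _
      exact hy
  filter_upwards [h1] with y hy hp
  have h2 : ∀ c ∈ A, c ≠ a → inner ℝ c (S (y, 1)) ≤ 1 := (pp_le zero_le_one).1 hp.le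
  -- the maximum is attained
  have h3 : pp A a S y = 1 := by exact_mod_cast hp
  have h4 : pp A a S y < 1 := by
    unfold pp
    rw [Finset.sup_lt_iff (by simp)]
    intro c hc
    by_cases hca : c = a
    · rw [if_pos hca]; exact zero_lt_one
    · rw [if_neg hca]
      have h5 := lt_of_le_of_ne (h2 c hc hca) (hy c hc hca)
      exact Real.toNNReal_lt_one.2 h5
  exact absurd h3 h4.ne

theorem var_lim {A : Finset E3} {r R : ℝ} (hr : 0 < r) (h1 : closedBall 0 r ⊆ poly A)
    (h2 : poly A ⊆ closedBall 0 R) {a : E3} (ha : a ∈ A) {S : (E2 × ℝ) ≃L[ℝ] E3}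
    (hS : IsChart a S) (b : E3) (w : ℝ → E3 → ℝ) (hw : ∀ ε, Measurable (w ε))
    (hw1 : ∀ ε x, |w ε x| ≤ 1) (w0 : E2 → ℝ)
    (hlim : ∀ᵐ y ∂(volume.restrict (facet (poly A) S)),
      Tendsto (fun p : ℝ × ℝ => w p.1 (S (p.2 • y, p.2))) (𝓝[>] 0 ×ˢ 𝓝 1) (𝓝 (w0 y))) :
    Tendsto (fun ε : ℝ => ε⁻¹ * ∫ x, ((poly A).indicator (fun _ => (1 : ℝ)) x -
        (polyR A a (a + ε • b)).indicator (fun _ => (1 : ℝ)) x) * w ε x) (𝓝[>] 0)
      (𝓝 (jac S * ∫ y in facet (poly A) S, inner ℝ b (S (y, 1)) * w0 y)) := by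
  have hR := R_nonneg hr h1 h2
  have hgood : ∀ᶠ ε in 𝓝[>] (0 : ℝ), 0 < ε ∧ ε * (‖b‖ * R) ≤ 1 / 4 := by
    have h3 : Tendsto (fun ε : ℝ => ε * (‖b‖ * R)) (𝓝[>] 0) (𝓝 0) := by
      have h4 : Continuous fun ε : ℝ => ε * (‖b‖ * R) := by fun_prop
      have h5 := h4.tendsto 0
      rw [zero_mul] at h5
      exact h5.mono_left nhdsWithin_le_nhds
    filter_upwards [h3.eventually (ge_mem_nhds (by norm_num : (0 : ℝ) < 1 / 4)),
      self_mem_nhdsWithin] with ε h4 h5
    exact ⟨h5, h4⟩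
  have hcont : Continuous fun y : E2 => S (y, (1 : ℝ)) :=
    S.continuous.comp (continuous_id.prodMk continuous_const)
  have hF : MeasurableSet (facet (poly A) S) := ((isClosed_poly A).preimage hcont).measurableSet
  -- the polar formula
  have hpol : (fun ε : ℝ => ε⁻¹ * ∫ x, ((poly A).indicator (fun _ => (1 : ℝ)) x -
        (polyR A a (a + ε • b)).indicator (fun _ => (1 : ℝ)) x) * w ε x) =ᶠ[𝓝[>] 0]
      fun ε => jac S * ∫ y, ε⁻¹ * ∫ t in Ioi (0 : ℝ), t ^ 2 * DD A a b w ε (S (t • y, t)) := by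
    filter_upwards [hgood] with ε hε
    have h5 := polar_real hS (DD_meas hw ε) (DD_int hr h1 h2 b hw hw1 hε.1 hε.2)
      (fun x hx => DD_zero h2 b w hε.1 hε.2 hx)
    have h6 : ∫ x, ((poly A).indicator (fun _ => (1 : ℝ)) x -
        (polyR A a (a + ε • b)).indicator (fun _ => (1 : ℝ)) x) * w ε x =
        ∫ x, DD A a b w ε x := rfl
    rw [h6, h5, integral_const_mul]
    ring
  rw [tendsto_congr' hpol]
  refine Tendsto.const_mul _ ?_
  rw [← integral_indicator hF]
  refine tendsto_integral_filter_of_dominated_convergence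
    ((closedBall (0 : E2) (‖(S.symm : E3 →L[ℝ] (E2 × ℝ))‖ * (2 * R))).indicator
        (fun _ => 3 * (‖b‖ * R))) ?_ ?_ ?_ ?_
  · refine Eventually.of_forall fun ε => ?_
    have h3 : Measurable (fun p : E2 × ℝ => p.2 ^ 2 * DD A a b w ε (Psi S p)) :=
      (measurable_snd.pow_const 2).mul ((DD_meas hw ε).comp (Psi_cont S).measurable)
    have h4 := StronglyMeasurable.integral_prod_right' (ν := (volume : Measure ℝ).restrict (Ioi 0))
      h3.stronglyMeasurable
    exact (h4.const_mul ε⁻¹).aestronglyMeasurable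
  · filter_upwards [hgood] with ε hε
    exact Eventually.of_forall fun y => inner_bd hr h1 h2 ha hS b hw1 hε.1 hε.2 y
  · exact (integrable_indicator_iff measurableSet_closedBall).2
      (integrableOn_const measure_closedBall_lt_top.ne)
  · filter_upwards [pp_null (A := A) hS, (ae_restrict_iff' hF).1 hlim] with y hy hy2
    have hc1 : Tendsto (fun ε : ℝ => 1 + ε * inner ℝ b (S (y, 1))) (𝓝[>] 0) (𝓝 1) := by
      have h1 : Continuous (fun ε : ℝ => 1 + ε * inner ℝ b (S (y, 1))) := by fun_prop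
      have h2 := h1.tendsto 0
      rw [zero_mul, add_zero] at h2
      exact h2.mono_left nhdsWithin_le_nhds
    have hmem := mem_poly_iff ha hS y one_pos
    rw [one_smul, one_mul] at hmem
    rcases lt_or_gt_of_ne hy with hlt | hgt
    · have hyF : y ∈ facet (poly A) S := hmem.2 (max_le hlt.le le_rfl)
      rw [indicator_of_mem hyF]
      have h3 : (fun ε : ℝ => ε⁻¹ * ∫ t in Ioi (0 : ℝ), t ^ 2 * DD A a b w ε (S (t • y, t)))
          =ᶠ[𝓝[>] 0] fun ε => ε⁻¹ * ∫ t in (1 / (1 + ε * inner ℝ b (S (y, 1))))..1,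
            (fun p : ℝ × ℝ => p.2 ^ 2 * w p.1 (S (p.2 • y, p.2))) (ε, t) := by
        filter_upwards [hgood, hc1.eventually (lt_mem_nhds hlt)] with ε hε h4
        rw [inner_int hr h1 h2 ha hS b w hε.1 hε.2 y, max_eq_right h4.le, max_eq_right hlt.le,
          div_one]
      rw [tendsto_congr' h3]
      refine lim_aux (G := fun p : ℝ × ℝ => p.2 ^ 2 * w p.1 (S (p.2 • y, p.2)))
        (l := inner ℝ b (S (y, 1))) (g0 := w0 y) ?_ (Eventually.of_forall fun ε => ?_)
      · have h5 : Tendsto (fun p : ℝ × ℝ => p.2 ^ 2) (𝓝[>] 0 ×ˢ 𝓝 1) (𝓝 (1 ^ 2)) :=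
          tendsto_snd.pow 2
        have h6 := h5.mul (hy2 hyF)
        rwa [one_pow, one_mul] at h6
      · have h5 : IntervalIntegrable (fun t : ℝ => t ^ 2) volume
            (1 / (1 + ε * inner ℝ b (S (y, 1)))) 1 := (continuous_pow 2).intervalIntegrable _ _
        refine h5.mono_fun ?_ (Eventually.of_forall fun t => ?_)
        · have h6 : Measurable fun t : ℝ => S (t • y, t) :=
            (S.continuous.comp ((continuous_id.smul continuous_const).prodMk
              continuous_id)).measurable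
          exact ((measurable_id.pow_const 2).mul ((hw ε).comp h6)).aestronglyMeasurable
        · simp only [norm_mul]
          exact mul_le_of_le_one_right (norm_nonneg _) (hw1 ε _)
    · have hyF : y ∉ facet (poly A) S := by
        intro h
        have h4 := hmem.1 h
        exact absurd ((le_max_left _ _).trans h4) (not_le.2 hgt)
      rw [indicator_of_notMem hyF]
      have h3 : (fun ε : ℝ => ε⁻¹ * ∫ t in Ioi (0 : ℝ), t ^ 2 * DD A a b w ε (S (t • y, t)))
          =ᶠ[𝓝[>] 0] fun _ => 0 := by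
        filter_upwards [hgood, hc1.eventually (gt_mem_nhds hgt)] with ε hε h4
        rw [inner_int hr h1 h2 ha hS b w hε.1 hε.2 y, max_eq_left h4.le, max_eq_left hgt.le,
          intervalIntegral.integral_same, mul_zero]
      rw [tendsto_congr' h3]
      exact tendsto_const_nhds

end Pool.Agent.Lib.MP_43065d_gt
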