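import Pool.Agent.Lib.MP_43065d_gt.CsecDef
import Pool.Agent.Lib.MP_43065d_gt.Limit
import Pool.Agent.Lib.MP_43065d_gt.ChartNorm
import Pool.Agent.Lib.MP_43065d_gt.JacLim

/-!
# Module Viol: facets with a large ratio have a limit configuration

PROOF (copy of `facet_upper` and `fu_sector_pos` in FacetUpper.lean, which must not be imported).  `vol (P n ∩ sector) > 0`: otherwise (`c n ≠ 0`; else the sector
is `{0}` by `poly_pos`) for any chart `sector_chart` gives `vol (facet) = 0`, so `Qint = 0` and the right side of `hv` is zero, while the left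
side is `≥ 0`.  Take a normalised chart `S n` (`exists_normal_chart` with the fixed `r, R`).  By `sector_chart` and `jac > 0`: `κ vol (facet) ≤ Qint`.
`first_variation` gives `hcond`, and `limit_config2` (with `κ - η n ≤ κ`) gives `φ, a', T, F`.
LAST CLAUSE.  If `vol (P n ∩ sector) → 0`: this volume is `jac (S n) / 3 * vol (facet)` and `vol (facet) ≥ vol (closedBall 0 1) > 0`
(`hF1`; the facet is compact), so `jac (S n) → 0`, also along `φ`, and `jac_lim` says that `T` is not injective.
-/

open MeasureTheory Set Filter Topology Metric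
open scoped ENNReal NNReal Pointwise

namespace Pool.Agent.Lib.MP_43065d_gt

private theorem vi_sector_pos {A : Finset E3} {r R κ : ℝ} (hr : 0 < r)
    (h1 : closedBall 0 r ⊆ poly A) (h2 : poly A ⊆ closedBall 0 R) {a : E3} (ha : a ∈ A)
    (hlt : κ * volume.real (poly A ∩ sector A a) <
      volume.real ((-poly A \ poly A) ∩ sector A a)) :
    0 < volume.real (poly A ∩ sector A a) := by
  by_contra hn
  have h0 : volume.real (poly A ∩ sector A a) = 0 :=
    le_antisymm (not_lt.1 hn) measureReal_nonneg
  rw [h0, mul_zero] at hlt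
  by_cases ha0 : a = 0
  · have hsub : (-poly A \ poly A) ∩ sector A a ⊆ {0} := by
      rintro x ⟨-, hx⟩
      by_contra hx0
      obtain ⟨c, hc, hc0⟩ := poly_pos h2 (x := x) hx0
      have := hx c hc
      rw [ha0, inner_zero_left] at this
      linarith
    have h3 : volume ((-poly A \ poly A) ∩ sector A a) = 0 :=
      measure_mono_null hsub (by simp)
    rw [measureReal_def, h3] at hlt
    simp at hlt
  · obtain ⟨S, hS⟩ := exists_chart ha0
    obtain ⟨e1, e2⟩ := sector_chart hr h1 h2 ha hS
    obtain ⟨hc, -, -⟩ := facet_facts hr h1 h2 ha hS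
    have hJ := (jac_spec S).1
    rw [h0] at e1
    have h3 : volume.real (facet (poly A) S) = 0 := by
      have : jac S / 3 ≠ 0 := by positivity
      exact (mul_eq_zero.1 e1.symm).resolve_left this
    have h4 : volume (facet (poly A) S) = 0 := by
      rw [measureReal_def, ENNReal.toReal_eq_zero_iff] at h3
      exact h3.resolve_right hc.measure_lt_top.ne
    have h5 : Qint (facet (poly A) S) (qfun (poly A) S) = 0 := by
      unfold Qint
      exact setIntegral_measure_zero _ h4
    rw [h5, mul_zero] at e2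
    linarith

theorem viol {K₀ : Set E3} (hK : IsBody K₀) (h0 : (0 : E3) ∈ interior K₀) {m r R κ : ℝ}
    (hr : 0 < r) (hκ : 0 < κ) {A : ℕ → Finset E3} {η : ℕ → ℝ} (hη0 : ∀ j, 0 ≤ η j)
    (hη : Tendsto η atTop (𝓝 0)) (hN : ∀ j, Nice K₀ m r R (η j) (A j)) {c : ℕ → E3}
    (hc : ∀ j, c j ∈ A j)
    (hv : ∀ j, κ * volume.real (poly (A j) ∩ sector (A j) (c j)) <
      volume.real ((-poly (A j) \ poly (A j)) ∩ sector (A j) (c j))) :
    ∃ (a' : E3) (T : (E2 × ℝ) →L[ℝ] E3) (F : Set E2), Config K₀ m κ a' T F ∧
      (Tendsto (fun j => volume.real (poly (A j) ∩ sector (A j) (c j))) atTop (𝓝 0) →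
        ¬ Function.Injective T) := by
  have hpos : ∀ n, 0 < volume.real (poly (A n) ∩ sector (A n) (c n)) := fun n =>
    vi_sector_pos hr (hN n).ball (hN n).bdd (hc n) (hv n)
  obtain ⟨ρ, hρ, hch⟩ := exists_normal_chart
  choose S hS1 hS2 hS3 hS4 using fun n =>
    hch (A n) r R hr (hN n).ball (hN n).bdd (c n) (hc n) (hpos n)
  have hV : Tendsto (fun j => volume.real (symmDiff (poly (A j)) K₀)) atTop (𝓝 0) :=
    squeeze_zero (fun n => measureReal_nonneg) (fun n => (hN n).near) hη
  obtain ⟨φ, a', T, F, hφ, hC, -, hT⟩ := limit_config2 hK h0 (R := R) hr hρ (m := m) (κ := κ)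
    hκ A (fun j => (hN j).ball) (fun j => (hN j).bdd) hV c S hc hS1 hS2 hS3 hS4 η hη
    (fun j hq b => first_variation hr (hN j).ball (hN j).bdd (hη0 j) (hc j) (hS1 j)
      (hN j).center (hN j).crit hq b)
    (fun j => by
      obtain ⟨e1, e2⟩ := sector_chart hr (hN j).ball (hN j).bdd (hc j) (hS1 j)
      have h1 := hv j
      rw [e1, e2] at h1
      have hJ : 0 < jac (S j) / 3 := by
        have := (jac_spec (S j)).1
        positivity
      have h2 : jac (S j) / 3 * (κ * volume.real (facet (poly (A j)) (S j))) <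
          jac (S j) / 3 * Qint (facet (poly (A j)) (S j)) (qfun (poly (A j)) (S j)) := by
        linarith
      have h3 := lt_of_mul_lt_mul_left h2 hJ.le
      have h4 : 0 ≤ η j * volume.real (facet (poly (A j)) (S j)) :=
        mul_nonneg (hη0 j) measureReal_nonneg
      linarith)
  refine ⟨a', T, F, hC, fun hvol => ?_⟩
  set c1 : ℝ := volume.real (closedBall (0 : E2) 1) with hc1
  have hc1pos : 0 < c1 := by
    rw [hc1, measureReal_def]
    exact ENNReal.toReal_pos (measure_closedBall_pos volume _ one_pos).ne'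
      (isCompact_closedBall _ _).measure_lt_top.ne
  have hfac : ∀ j, c1 ≤ volume.real (facet (poly (A j)) (S j)) := fun j =>
    measureReal_mono (hS2 j)
      (facet_facts hr (hN j).ball (hN j).bdd (hc j) (hS1 j)).1.measure_lt_top.ne
  have hjac : Tendsto (fun j => jac (S j)) atTop (𝓝 0) := by
    have h5 : Tendsto (fun j => 3 / c1 * volume.real (poly (A j) ∩ sector (A j) (c j))) atTop
        (𝓝 0) := by
      have := hvol.const_mul (3 / c1)
      rwa [mul_zero] at this
    refine squeeze_zero (fun j => (jac_spec (S j)).1.le) (fun j => ?_) h5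
    have e1 := (sector_chart hr (hN j).ball (hN j).bdd (hc j) (hS1 j)).1
    rw [e1]
    have h6 := mul_le_mul_of_nonneg_left (hfac j) (jac_spec (S j)).1.le
    rw [div_mul_eq_mul_div, le_div_iff₀ hc1pos]
    linarith
  exact jac_lim hT (hjac.comp hφ.tendsto_atTop)

end Pool.Agent.Lib.MP_43065d_gt
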